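import Pool.Agent.MP_ddf486_co.KV.SpecA
import Mathlib.LinearAlgebra.AffineSpace.FiniteDimensional
import Mathlib.Analysis.SpecialFunctions.Pow.Asymptotics

/-! Project KV: bisectors are lines, and the theorem for extremal configurations. -/

namespace Pool.Agent.MP_ddf486_co.KV

open Finset Filter

theorem col : COL := by
  intro y z S hyz h
  have hd : (z 0 - y 0) ^ 2 + (z 1 - y 1) ^ 2 ≠ 0 := fun e => hyz (by
    have e0 : z 0 - y 0 = 0 := by nlinarith [sq_nonneg (z 0 - y 0), sq_nonneg (z 1 - y 1)]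
    have e1 : z 1 - y 1 = 0 := by nlinarith [sq_nonneg (z 0 - y 0), sq_nonneg (z 1 - y 1)]
    ext i
    fin_cases i
    · exact (sub_eq_zero.1 e0).symm
    · exact (sub_eq_zero.1 e1).symm)
  rw [collinear_iff_exists_forall_eq_smul_vadd]
  refine ⟨!₂[(y 0 + z 0) / 2, (y 1 + z 1) / 2], !₂[y 1 - z 1, z 0 - y 0], fun x hx => ?_⟩
  have e := congrArg (· ^ 2) (h x hx)
  simp only [EuclideanSpace.dist_sq_eq, Fin.sum_univ_two, Real.dist_eq, sq_abs] at e
  refine ⟨((x 0 - (y 0 + z 0) / 2) * (y 1 - z 1) + (x 1 - (y 1 + z 1) / 2) * (z 0 - y 0)) /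
    ((z 0 - y 0) ^ 2 + (z 1 - y 1) ^ 2), ?_⟩
  ext i
  fin_cases i
  · simp
    field_simp
    linear_combination (z 0 - y 0) * e
  · simp
    field_simp
    linear_combination (z 1 - y 1) * e

theorem extr (h1 : MAIN) (h2 : LAND) : EXTR := by
  classical
  obtain ⟨c, hc, n0, H⟩ := h1 (1 / 4) (by norm_num)
  obtain ⟨C, hC, L⟩ := h2
  have ht : Tendsto (fun n : ℕ => Real.log n ^ (1 / 4 : ℝ)) atTop atTop :=
    (tendsto_rpow_atTop (by norm_num)).comp
      (Real.tendsto_log_atTop.comp tendsto_natCast_atTop_atTop)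
  obtain ⟨n1, hn1⟩ := eventually_atTop.1 ((ht.eventually_ge_atTop C).and (eventually_ge_atTop n0))
  refine ⟨c, min 1 (Real.exp (Real.log n1 ^ c))⁻¹, hc,
    lt_min one_pos (inv_pos.2 (Real.exp_pos _)), fun P hP hmin => ?_⟩
  have h2 : (2 : ℝ) ≤ P.card := by exact_mod_cast hP
  have hl : 0 ≤ Real.log P.card := Real.log_nonneg (by linarith)
  by_cases hn : n1 ≤ P.card
  · obtain ⟨g1, g2⟩ := hn1 _ hn
    obtain ⟨P', e, hP'⟩ := L _ hP
    have b : ((P.offDiag.image fun e => dist e.1 e.2).card : ℝ) ≤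
        C * P.card / Real.sqrt (Real.log P.card) := le_trans (by exact_mod_cast hmin P' e) hP'
    have sq : Real.sqrt (Real.log P.card) =
        Real.log P.card ^ (1 / 4 : ℝ) * Real.log P.card ^ (1 / 4 : ℝ) := by
      rw [Real.sqrt_eq_rpow, ← Real.rpow_add' hl (by norm_num)]
      norm_num
    obtain ⟨Q, hQ, g3, g4⟩ := H P g2 (by
      rw [sq] at b
      generalize Real.log P.card ^ (1 / 4 : ℝ) = t at b g1
      have t0 : 0 < t := hC.trans_le g1
      have b1 : C * P.card / (t * t) ≤ P.card / t := by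
        rw [div_le_div_iff₀ (mul_pos t0 t0) t0]
        nlinarith [mul_le_mul_of_nonneg_right g1 (by positivity : (0 : ℝ) ≤ P.card * t)]
      refine (sum_le_card_nsmul P _ ((P.card : ℝ) / t) fun a ha => ?_).trans
        (le_of_eq (by rw [nsmul_eq_mul]; ring))
      refine le_trans ?_ (b.trans b1)
      refine Nat.cast_le.2 (card_le_card fun x hx => ?_)
      obtain ⟨x0, hx⟩ := mem_erase.1 hx
      obtain ⟨y, hy, rfl⟩ := mem_image.1 hx
      exact mem_image.2 ⟨(a, y), mem_offDiag.2 ⟨ha, hy, dist_ne_zero.1 x0⟩, rfl⟩)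
    exact ⟨Q, hQ, g3,
      (mul_le_of_le_one_left (Real.exp_pos _).le (min_le_left _ _)).trans g4⟩
  · obtain ⟨a, ha⟩ := card_pos.1 (by omega : 0 < P.card)
    refine ⟨{a}, singleton_subset_iff.2 ha, by simpa using collinear_singleton ℝ a, ?_⟩
    have g : Real.exp (Real.log P.card ^ c) ≤ Real.exp (Real.log n1 ^ c) :=
      Real.exp_le_exp.2 (Real.rpow_le_rpow hl
        (Real.log_le_log (by linarith) (Nat.cast_le.2 (by omega))) hc.le)
    rw [card_singleton, Nat.cast_one]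
    refine (mul_le_mul (min_le_right _ _) g (Real.exp_pos _).le
      (inv_pos.2 (Real.exp_pos _)).le).trans (le_of_eq (inv_mul_cancel₀ (Real.exp_pos _).ne'))

end Pool.Agent.MP_ddf486_co.KV
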