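import Pool.Agent.MP_ddf486_co.KV.SpecA
import Mathlib.NumberTheory.Chebyshev

/-! Project KV, block A: the logarithms of a set that is closed under taking divisors. -/

set_option autoImplicit false

namespace Pool.Agent.MP_ddf486_co.KV

open Finset ArithmeticFunction

namespace Htr

theorem inner (T : Finset ℕ) {n e : ℕ} (he : 0 < e) (hT : ∀ m ∈ T, 1 ≤ m ∧ m ≤ n ∧ e ∣ m) :
    ∑ m ∈ T, vonMangoldt (m / e) ≤ 6 * (n : ℝ) * (1 / e) := by
  have inj : Set.InjOn (fun m => m / e) T := fun a ha b hb h => by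
    rw [← Nat.div_mul_cancel (hT a ha).2.2, ← Nat.div_mul_cancel (hT b hb).2.2]
    exact congrArg (· * e) h
  have h0 : (0 : ℝ) ≤ (n : ℝ) / e := by positivity
  calc ∑ m ∈ T, vonMangoldt (m / e) = ∑ d ∈ T.image (fun m => m / e), vonMangoldt d :=
        (sum_image inj).symm
    _ ≤ ∑ d ∈ Ioc 0 ⌊(n : ℝ) / e⌋₊, vonMangoldt d := by
        refine sum_le_sum_of_subset_of_nonneg (fun d hd => ?_) fun _ _ _ => vonMangoldt_nonneg
        obtain ⟨m, hm, rfl⟩ := mem_image.1 hd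
        obtain ⟨a, b, c⟩ := hT m hm
        rw [Nat.floor_div_eq_div, mem_Ioc]
        exact ⟨Nat.div_pos (Nat.le_of_dvd a c) he, Nat.div_le_div_right b⟩
    _ ≤ (Real.log 4 + 4) * ((n : ℝ) / e) := Chebyshev.psi_le_const_mul_self h0
    _ ≤ 6 * ((n : ℝ) / e) := by
        refine mul_le_mul_of_nonneg_right ?_ h0
        have : Real.log 4 = 2 * Real.log 2 := by
          rw [show (4 : ℝ) = 2 ^ 2 by norm_num, Real.log_pow]; norm_num
        have := Real.log_two_lt_d9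
        linarith
    _ = _ := by ring

end Htr

theorem htr : HT := by
  classical
  intro A hA n
  have hm : ∀ m, m ∈ (Icc 1 n).filter A ↔ (1 ≤ m ∧ m ≤ n) ∧ A m := fun m => by
    rw [mem_filter, mem_Icc]
  generalize (Icc 1 n).filter A = S at hm
  calc ∑ m ∈ S, Real.log m = ∑ m ∈ S, ∑ e ∈ m.divisors, vonMangoldt (m / e) :=
        sum_congr rfl fun m _ => by
          rw [Nat.sum_div_divisors m fun d => vonMangoldt d, vonMangoldt_sum]
    _ = ∑ e ∈ S, ∑ m ∈ S.filter (e ∣ ·), vonMangoldt (m / e) := by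
        refine sum_comm' fun m e => ?_
        rw [mem_filter, Nat.mem_divisors]
        refine ⟨fun ⟨a, b, c⟩ => ⟨⟨a, b⟩, ?_⟩, fun ⟨⟨a, b⟩, _⟩ => ⟨a, b, ?_⟩⟩
        · obtain ⟨⟨a1, a2⟩, a3⟩ := (hm m).1 a
          exact (hm e).2 ⟨⟨Nat.pos_of_dvd_of_pos b a1, (Nat.le_of_dvd a1 b).trans a2⟩, hA m e a3 b⟩
        · have := ((hm m).1 a).1.1
          omega
    _ ≤ ∑ e ∈ S, 6 * (n : ℝ) * (1 / e) := sum_le_sum fun e he =>
        Htr.inner _ ((hm e).1 he).1.1 fun m h => by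
          obtain ⟨a, b⟩ := mem_filter.1 h
          exact ⟨((hm m).1 a).1.1, ((hm m).1 a).1.2, b⟩
    _ = _ := (mul_sum _ _ _).symm

end Pool.Agent.MP_ddf486_co.KV
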