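import Pool.Agent.MP_ddf486_co.KV.SpecA

/-! Project KV, block A: a piece of the square grid has few distances. -/

set_option autoImplicit false

noncomputable section

namespace Pool.Agent.MP_ddf486_co.KV

open Finset

namespace LandAux

/-- the grid point with the given coordinates -/
def gp (e : ℕ × ℕ) : EuclideanSpace ℝ (Fin 2) := !₂[(e.1 : ℝ), (e.2 : ℝ)]

theorem gp_inj : Function.Injective gp := by
  intro e f h
  have h0 : gp e 0 = gp f 0 := by rw [h]
  have h1 : gp e 1 = gp f 1 := by rw [h]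
  simp only [gp] at h0 h1
  have h0' : (e.1 : ℝ) = f.1 := by simpa using h0
  have h1' : (e.2 : ℝ) = f.2 := by simpa using h1
  exact Prod.ext (by exact_mod_cast h0') (by exact_mod_cast h1')

theorem sq_sub (x y : ℕ) : ((x : ℝ) - y) ^ 2 = (((Nat.dist x y) ^ 2 : ℕ) : ℝ) := by
  rcases le_total x y with h | h
  · rw [Nat.dist_eq_sub_of_le h]; push_cast [Nat.cast_sub h]; ring
  · rw [Nat.dist_eq_sub_of_le_right h]; push_cast [Nat.cast_sub h]; ring

theorem dist_gp (e f : ℕ × ℕ) :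
    dist (gp e) (gp f) = Real.sqrt (((Nat.dist e.1 f.1) ^ 2 + (Nat.dist e.2 f.2) ^ 2 : ℕ) : ℝ) := by
  rw [EuclideanSpace.dist_eq, Fin.sum_univ_two]
  congr 1
  have h0 : dist (gp e 0) (gp f 0) ^ 2 = ((e.1 : ℝ) - f.1) ^ 2 := by
    rw [Real.dist_eq, sq_abs]; simp [gp]
  have h1 : dist (gp e 1) (gp f 1) ^ 2 = ((e.2 : ℝ) - f.2) ^ 2 := by
    rw [Real.dist_eq, sq_abs]; simp [gp]
  rw [h0, h1, sq_sub, sq_sub]; push_cast; ring

theorem dist_le {x y s : ℕ} (hx : x ≤ s) (hy : y ≤ s) : Nat.dist x y ≤ s := by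
  unfold Nat.dist; omega

end LandAux

open LandAux in
theorem land (h : SQS) : LAND := by
  classical
  obtain ⟨C, hC, hS⟩ := h
  refine ⟨2 * C, by positivity, fun n hn => ?_⟩
  set s := Nat.sqrt n with hs
  have hG : n ≤ ((range (s + 1) ×ˢ range (s + 1)).image gp).card := by
    rw [card_image_of_injective _ gp_inj, card_product, card_range]
    exact (Nat.lt_succ_sqrt n).le
  obtain ⟨P, hPG, hP⟩ := exists_subset_card_eq hG
  refine ⟨P, hP, ?_⟩
  have hss : s * s ≤ n := Nat.sqrt_le n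
  have hsub : (P.offDiag.image fun e => dist e.1 e.2) ⊆
      ((Icc 1 (2 * n)).filter fun m => ∃ a b : ℕ, m = a ^ 2 + b ^ 2).image
        fun m : ℕ => Real.sqrt (m : ℝ) := by
    intro d hd
    obtain ⟨⟨x, y⟩, hxy, rfl⟩ := mem_image.1 hd
    obtain ⟨hx, hy, hne⟩ := mem_offDiag.1 hxy
    obtain ⟨e, he, rfl⟩ := mem_image.1 (hPG hx)
    obtain ⟨f, hf, rfl⟩ := mem_image.1 (hPG hy)
    simp only [mem_product, mem_range] at he hf
    refine mem_image.2 ⟨(Nat.dist e.1 f.1) ^ 2 + (Nat.dist e.2 f.2) ^ 2,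
      mem_filter.2 ⟨mem_Icc.2 ⟨?_, ?_⟩, _, _, rfl⟩, (dist_gp e f).symm⟩
    · by_contra h0
      have h0' : (Nat.dist e.1 f.1) ^ 2 + (Nat.dist e.2 f.2) ^ 2 = 0 := by omega
      have hd := dist_gp e f
      rw [h0'] at hd
      simp only [Nat.cast_zero, Real.sqrt_zero, dist_eq_zero] at hd
      exact hne hd
    · have h1 : Nat.dist e.1 f.1 ≤ s := dist_le (by omega) (by omega)
      have h2 : Nat.dist e.2 f.2 ≤ s := dist_le (by omega) (by omega)
      have h3 := Nat.mul_le_mul h1 h1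
      have h4 := Nat.mul_le_mul h2 h2
      rw [sq, sq]; omega
  have hc : ((P.offDiag.image fun e => dist e.1 e.2).card : ℝ) ≤
      (((Icc 1 (2 * n)).filter fun m => ∃ a b : ℕ, m = a ^ 2 + b ^ 2).card : ℝ) := by
    exact_mod_cast (card_le_card hsub).trans card_image_le
  have h2 := hS (2 * n) (by omega)
  have hn1 : (1 : ℝ) < n := by exact_mod_cast (by omega : 1 < n)
  have hl : 0 < Real.log n := Real.log_pos hn1
  have hle : Real.sqrt (Real.log n) ≤ Real.sqrt (Real.log ((2 * n : ℕ) : ℝ)) := by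
    apply Real.sqrt_le_sqrt
    apply Real.log_le_log (by linarith)
    push_cast; linarith
  have hp : 0 < Real.sqrt (Real.log n) := Real.sqrt_pos.2 hl
  calc ((P.offDiag.image fun e => dist e.1 e.2).card : ℝ)
      ≤ C * ((2 * n : ℕ) : ℝ) / Real.sqrt (Real.log ((2 * n : ℕ) : ℝ)) := by
        refine hc.trans ?_
        convert h2 using 3
    _ ≤ C * ((2 * n : ℕ) : ℝ) / Real.sqrt (Real.log n) := by
        apply div_le_div_of_nonneg_left _ hp hle
        positivity
    _ = 2 * C * n / Real.sqrt (Real.log n) := by push_cast; ring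

end Pool.Agent.MP_ddf486_co.KV
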