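import Pool.Agent.MP_6c3157_co.PD.Nf
import Pool.Agent.MP_6c3157_co.PQ.Minor
import Pool.Agent.MP_6c3157_co.PQ.Bz

/-! Project KV: specialisation to a number field that keeps distances apart and the symmetry of
curves under conjugation. -/

set_option autoImplicit false
set_option linter.unusedSectionVars false

noncomputable section

namespace Pool.Agent.MP_ddf486_co.KV

open Finset MvPolynomial Pool.Agent.MP_6c3157_co.PD Pool.Agent.MP_6c3157_co.PQ

/-- a curve through `T` gives a curve through `T` with the two degrees exchanged -/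
def Symm {X K : Type} [Field K] (U V : X → K) : Prop :=
  ∀ (T : Finset X) (f : MvPolynomial (Fin 2) K), f ≠ 0 → (∀ z ∈ T, eval ![U z, V z] f = 0) →
    ∃ g : MvPolynomial (Fin 2) K, g ≠ 0 ∧ g.degreeOf 0 ≤ f.degreeOf 1 ∧
      g.degreeOf 1 ≤ f.degreeOf 0 ∧ ∀ z ∈ T, eval ![U z, V z] g = 0

namespace Nf

/-- specialisation that keeps all relations and finitely many non relations -/
theorem nf_gen {σ : Type} [Fintype σ] (w : σ → ℂ) (S : Finset (MvPolynomial σ ℚ)) :
    ∃ (K : Type) (_ : Field K) (_ : NumberField K) (w' : σ → K),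
      (∀ q : MvPolynomial σ ℚ, aeval w q = 0 → aeval w' q = 0) ∧
      ∀ q ∈ S, aeval w' q = 0 → aeval w q = 0 := by
  classical
  let F : Finset ℂ := univ.image w ∪ S.image fun q => (aeval w q)⁻¹
  obtain ⟨K, iK, nK, ⟨φ⟩⟩ := nf_hom F
  let w0 : σ → Algebra.adjoin ℚ (F : Set ℂ) := fun i =>
    ⟨w i, Algebra.subset_adjoin (mem_coe.2 (mem_union_left _ (mem_image_of_mem _ (mem_univ i))))⟩
  have h1 : ∀ q : MvPolynomial σ ℚ, ((aeval w0 q : Algebra.adjoin ℚ (F : Set ℂ)) : ℂ) = aeval w q :=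
    fun q => comp_aeval_apply w0 (Algebra.adjoin ℚ (F : Set ℂ)).val q
  have h2 : ∀ q : MvPolynomial σ ℚ, aeval (fun i => φ (w0 i)) q = φ (aeval w0 q) :=
    fun q => (comp_aeval_apply w0 φ.toRatAlgHom q).symm
  refine ⟨K, iK, nK, fun i => φ (w0 i), fun q h => ?_, fun q hq h => ?_⟩
  · rw [h2, show aeval w0 q = 0 from Subtype.ext ((h1 q).trans h), map_zero]
  · by_contra n
    have e : aeval w0 q * ⟨(aeval w q)⁻¹, Algebra.subset_adjoin (mem_coe.2 (mem_union_right _
        (mem_image_of_mem (fun q => (aeval w q)⁻¹) hq)))⟩ = 1 :=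
      Subtype.ext (by
        change ((aeval w0 q : Algebra.adjoin ℚ (F : Set ℂ)) : ℂ) * _ = 1
        rw [h1]; exact mul_inv_cancel₀ n)
    have := congrArg φ e
    rw [map_mul, ← h2, h, zero_mul, map_one] at this
    exact zero_ne_one this

variable {X K : Type} [Field K]

/-- the exponent of a cell of a rectangle -/
def ex {k l : ℕ} (a : Fin k × Fin l) : Fin 2 →₀ ℕ :=
  Finsupp.single 0 (a.1 : ℕ) + Finsupp.single 1 (a.2 : ℕ)

theorem ex0 {k l : ℕ} (a : Fin k × Fin l) : ex a 0 = a.1 := by simp [ex]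

theorem ex1 {k l : ℕ} (a : Fin k × Fin l) : ex a 1 = a.2 := by simp [ex]

theorem ex_inj {k l : ℕ} : Function.Injective (ex (k := k) (l := l)) := fun a b h =>
  Prod.ext (Fin.ext (by rw [← ex0, h, ex0])) (Fin.ext (by rw [← ex1, h, ex1]))

/-- the minor of the rectangle at the points `J` -/
def mi {R : Type} [CommRing R] (U V : X → R) {k l : ℕ} (J : Fin k × Fin l → X) : R :=
  (Matrix.of fun a b : Fin k × Fin l => U (J b) ^ (a.1 : ℕ) * V (J b) ^ (a.2 : ℕ)).det

theorem map_mi {R S : Type} [CommRing R] [CommRing S] (φ : R →+* S) (U V : X → R) {k l : ℕ}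
    (J : Fin k × Fin l → X) : φ (mi U V J) = mi (fun z => φ (U z)) (fun z => φ (V z)) J := by
  rw [mi, mi, RingHom.map_det]
  congr 1
  ext a b
  simp

theorem mi_swap {R : Type} [CommRing R] (U V : X → R) {k l : ℕ} (J : Fin k × Fin l → X) :
    mi U V J = mi V U fun b : Fin l × Fin k => J b.swap := by
  rw [mi, mi, ← Matrix.det_submatrix_equiv_self (Equiv.prodComm (Fin l) (Fin k))]
  congr 1
  ext a b
  simp [mul_comm]

theorem mi_of (U V : X → K) {f : MvPolynomial (Fin 2) K} (hf : f ≠ 0)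
    (J : Fin (f.degreeOf 0 + 1) × Fin (f.degreeOf 1 + 1) → X)
    (h : ∀ b, eval ![U (J b), V (J b)] f = 0) : mi U V J = 0 := by
  classical
  have sup : ∀ m ∈ f.support, ∃ a : Fin (f.degreeOf 0 + 1) × Fin (f.degreeOf 1 + 1), ex a = m :=
    fun m hm => ⟨(⟨m 0, Nat.lt_succ_of_le (monomial_le_degreeOf 0 hm)⟩,
      ⟨m 1, Nat.lt_succ_of_le (monomial_le_degreeOf 1 hm)⟩), by
        ext i
        fin_cases i
        · exact ex0 _
        · exact ex1 _⟩
  refine Matrix.exists_vecMul_eq_zero_iff.1 ⟨fun a => coeff (ex a) f, fun n => ?_, ?_⟩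
  · obtain ⟨m, hm⟩ := support_nonempty.2 hf
    obtain ⟨a, rfl⟩ := sup m hm
    exact mem_support_iff.1 hm (congrFun n a)
  · ext b
    rw [Pi.zero_apply, ← h b, eval_eq', ← sum_subset (s₁ := f.support)
      (s₂ := univ.image (ex (k := f.degreeOf 0 + 1) (l := f.degreeOf 1 + 1)))
      (fun m hm => by simpa using sup m hm) (fun m _ n => by rw [notMem_support_iff.1 n, zero_mul])
      |>.symm, sum_image fun a _ b _ => fun e => ex_inj e]
    simp [Matrix.vecMul, dotProduct, Fin.prod_univ_two, ex0, ex1]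

theorem of_mi (U V : X → K) (T : Finset X) (k l : ℕ)
    (h : ∀ J : Fin (k + 1) × Fin (l + 1) → X, (∀ b, J b ∈ T) → mi U V J = 0) :
    ∃ g : MvPolynomial (Fin 2) K, g ≠ 0 ∧ g.degreeOf 0 ≤ k ∧ g.degreeOf 1 ≤ l ∧
      ∀ z ∈ T, eval ![U z, V z] g = 0 := by
  classical
  have n : ¬ LinearIndependent K fun (a : Fin (k + 1) × Fin (l + 1)) (z : T) =>
      U z ^ (a.1 : ℕ) * V z ^ (a.2 : ℕ) := fun li => by
    obtain ⟨J, -, hJ⟩ := minor K _ T _ li
    exact hJ (h (fun b => J b) fun b => (J b).2)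
  obtain ⟨c, hc, a, ha⟩ := Fintype.not_linearIndependent_iff.1 n
  have d : ∀ (i : Fin 2) (n : ℕ), (∀ a : Fin (k + 1) × Fin (l + 1), ex a i ≤ n) →
      (∑ a, monomial (ex a) (c a) : MvPolynomial (Fin 2) K).degreeOf i ≤ n := fun i n e =>
    (degreeOf_sum_le _ _ _).trans (Finset.sup_le fun a _ => degreeOf_le_iff.2 fun m hm => by
      rw [Finset.mem_singleton.1 (support_monomial_subset hm)]; exact e a)
  refine ⟨∑ a, monomial (ex a) (c a), fun e => ha ?_,
    d 0 k fun a => (ex0 a).trans_le (Nat.lt_succ_iff.1 a.1.2),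
    d 1 l fun a => (ex1 a).trans_le (Nat.lt_succ_iff.1 a.2.2), fun z hz => ?_⟩
  · simpa [coeff_sum, coeff_monomial, ex_inj.eq_iff] using congrArg (coeff (ex a)) e
  · simpa [eval_monomial, Finsupp.prod_fintype, Fin.prod_univ_two, ex0, ex1] using congrFun hc ⟨z, hz⟩

end Nf

open Nf in
/-- the number field model with labels kept apart and symmetric curves -/
theorem nf2 (X : Type) [Fintype X] (P : X → EuclideanSpace ℝ (Fin 2)) (hP : Function.Injective P) :
    ∃ (K : Type) (_ : Field K) (_ : NumberField K) (U V : X → K),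
      Function.Injective U ∧ Function.Injective V ∧
      (∀ x y z, dist (P x) (P y) = dist (P x) (P z) ↔
        (U x - U y) * (V x - V y) = (U x - U z) * (V x - V z)) ∧ Symm U V := by
  classical
  let u : X → ℂ := fun x => (P x 0 : ℂ) + Complex.I * (P x 1 : ℂ)
  let v : X → ℂ := fun x => (P x 0 : ℂ) - Complex.I * (P x 1 : ℂ)
  have hd : ∀ x y, (u x - u y) * (v x - v y) = ((dist (P x) (P y) ^ 2 : ℝ) : ℂ) := by
    intro x y
    rw [EuclideanSpace.dist_sq_eq, Fin.sum_univ_two, Real.dist_eq, Real.dist_eq, sq_abs, sq_abs]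
    push_cast
    simp only [u, v]
    linear_combination (-((P x 1 : ℂ) - (P y 1 : ℂ)) ^ 2) * Complex.I_sq
  have hinj : ∀ x y, (u x - u y) * (v x - v y) = 0 → x = y := by
    intro x y h
    rw [hd] at h
    have h1 : dist (P x) (P y) ^ 2 = 0 := by exact_mod_cast h
    exact hP (dist_eq_zero.1 (pow_eq_zero_iff two_ne_zero |>.1 h1))
  have cu : ∀ z, starRingEnd ℂ (u z) = v z := fun z => by simp [u, v, sub_eq_add_neg]
  have cv : ∀ z, starRingEnd ℂ (v z) = u z := fun z => by simp [u, v]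
  let a : X → MvPolynomial (X ⊕ X) ℚ := fun z => MvPolynomial.X (.inl z)
  let b : X → MvPolynomial (X ⊕ X) ℚ := fun z => MvPolynomial.X (.inr z)
  let q : X → X → X → MvPolynomial (X ⊕ X) ℚ := fun x y z =>
    (a x - a y) * (b x - b y) - (a x - a z) * (b x - b z)
  obtain ⟨K, iK, nK, w, h1, h2⟩ := nf_gen (Sum.elim u v)
    ((univ.image fun t : X × X × X => q t.1 t.2.1 t.2.2) ∪
      (range (Fintype.card X + 1) ×ˢ range (Fintype.card X + 1)).biUnion fun k =>
        univ.image fun J : Fin k.1 × Fin k.2 → X => mi a b J)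
  have e : ∀ x y z, dist (P x) (P y) = dist (P x) (P z) ↔
      (w (.inl x) - w (.inl y)) * (w (.inr x) - w (.inr y)) =
        (w (.inl x) - w (.inl z)) * (w (.inr x) - w (.inr z)) := by
    intro x y z
    have k1 := h1 (q x y z)
    have k2 := h2 (q x y z) (mem_union_left _ (mem_image.2 ⟨(x, y, z), mem_univ _, rfl⟩))
    simp only [q, a, b, map_sub, map_mul, aeval_X, Sum.elim_inl, Sum.elim_inr, hd,
      sub_eq_zero] at k1 k2
    refine ⟨fun h => k1 (by rw [h]), fun h => ?_⟩
    exact (pow_left_inj₀ dist_nonneg dist_nonneg two_ne_zero).1 (by exact_mod_cast k2 h)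
  have z : ∀ x y, (w (.inl x) - w (.inl y)) * (w (.inr x) - w (.inr y)) = 0 → x = y := by
    intro x y h
    have := (e x y x).2 (by rw [h, sub_self, zero_mul])
    rw [dist_self] at this
    exact hP (dist_eq_zero.1 this)
  have am : ∀ {R : Type} [CommRing R] [Algebra ℚ R] (w : X ⊕ X → R) {k l : ℕ}
      (J : Fin k × Fin l → X), aeval w (mi a b J) = mi (fun z => w (.inl z)) (fun z => w (.inr z)) J :=
    fun w _ _ J => (map_mi (aeval w : MvPolynomial (X ⊕ X) ℚ →ₐ[ℚ] _).toRingHom a b J).trans (by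
      simp [a, b])
  refine ⟨K, iK, nK, fun z => w (.inl z), fun z => w (.inr z),
    fun x y h => z x y (by rw [sub_eq_zero.2 h, zero_mul]),
    fun x y h => z x y (by rw [sub_eq_zero.2 h, mul_zero]), e, fun T f hf h0 => ?_⟩
  refine of_mi _ _ T _ _ fun J hJ => ?_
  by_cases n : Function.Injective J
  · have c := Fintype.card_le_of_injective J n
    simp only [Fintype.card_prod, Fintype.card_fin] at c
    have k0 := mi_of (fun z => w (.inl z)) (fun z => w (.inr z)) hf (fun c => J c.swap)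
      fun c => h0 (J c.swap) (hJ c.swap)
    have k1 := h2 (mi a b fun c : Fin (f.degreeOf 0 + 1) × Fin (f.degreeOf 1 + 1) => J c.swap)
      (mem_union_right _ (mem_biUnion.2 ⟨(f.degreeOf 0 + 1, f.degreeOf 1 + 1),
        mem_product.2 ⟨mem_range.2 (by nlinarith), mem_range.2 (by nlinarith)⟩,
        mem_image_of_mem _ (mem_univ _)⟩)) (by rw [am]; exact k0)
    rw [am] at k1
    have k2 := congrArg (starRingEnd ℂ) k1
    rw [map_mi, map_zero] at k2
    simp only [Sum.elim_inl, Sum.elim_inr, cu, cv] at k2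
    rw [← am]
    refine h1 _ ?_
    rw [am, mi_swap]
    exact k2
  · obtain ⟨c, d, e1, e2⟩ := Function.not_injective_iff.1 n
    exact Matrix.det_zero_of_column_eq e2 fun r => by simp [e1]

/-- a rich irreducible curve has equal degrees -/
theorem bid {X PL K : Type} [DecidableEq X] [Field K] (A : Ari X PL K)
    (hU : Function.Injective A.U) (hS : Symm A.U A.V) {f : MvPolynomial (Fin 2) K}
    (hf : Irreducible f) (T : Finset X) (h0 : ∀ z ∈ T, A.ev f z = 0)
    (hT : 2 * bd f ^ 2 < T.card) : f.degreeOf 0 = bd f ∧ f.degreeOf 1 = bd f := by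
  classical
  obtain ⟨g, g0, d0, d1, hg⟩ := hS T f hf.ne_zero h0
  have dv : f ∣ g := by
    by_contra n
    have := bz X PL K A hU f g (bd f) T hf n le_rfl
      (max_le (d0.trans (le_max_right _ _)) (d1.trans (le_max_left _ _)))
    rw [filter_true_of_mem fun z hz => ⟨h0 z hz, hg z hz⟩] at this
    omega
  obtain ⟨q, rfl⟩ := dv
  rw [degreeOf_mul_eq hf.ne_zero (right_ne_zero_of_mul g0)] at d0 d1
  unfold bd
  omega

end Pool.Agent.MP_ddf486_co.KV
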