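import Pool.Agent.MP_ddf486_co.KV.Defs
import Pool.Agent.MP_ddf486_co.KV.Nf
import Pool.Agent.MP_6c3157_co.PD.All
import Pool.Agent.MP_6c3157_co.PQ.Part
import Pool.Agent.MP_6c3157_co.PQ.Plc2
import Pool.Agent.MP_6c3157_co.PQ.Sys2

/-! Project KV: the system of a configuration, with the coordinates and the symmetry kept. -/

set_option autoImplicit false
set_option linter.unusedSectionVars false

noncomputable section

namespace Pool.Agent.MP_ddf486_co.KV

open Finset NumberField Pool.Agent.MP_6c3157_co.PD Pool.Agent.MP_6c3157_co.PQ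

open Sys2 in
/-- the system with its arithmetic data, with the coordinates kept -/
theorem sys3 (X : Type) [Fintype X] [DecidableEq X] (K : Type) [Field K] [NumberField K]
    (U V : X → K) (lab : X → X → ℝ) (η₀ : ℝ) (h₀ : 0 < η₀) (hUi : Function.Injective U)
    (hVi : Function.Injective V)
    (hl : ∀ x y z, lab x y = lab x z → (U x - U y) * (V x - V y) = (U x - U z) * (V x - V z)) :
    ∃ (PL : Type) (_ : Fintype PL) (s : Sys X PL) (A : Ari X PL K),
      A.Good s η₀ ∧ s.lab = lab ∧ A.U = U ∧ A.V = V := by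
  classical
  have hU : ULT := ult lev
  have hA : ARCH := all_arch
  have hP : PLC2 := plc2
  have hT : PART := part
  obtain ⟨F, hF⟩ : ∃ F : Finset K, ∀ a, a ∈ F ↔ ∃ x y, a = U x - U y ∨ a = V x - V y :=
    ⟨(univ : Finset (X × X)).image (fun p => U p.1 - U p.2) ∪
      (univ : Finset (X × X)).image (fun p => V p.1 - V p.2), fun a => by
        simp only [mem_union, mem_image, mem_univ, true_and, Prod.exists, exists_or, eq_comm]⟩
  obtain ⟨B, hB, hB'⟩ := hP K F
  have hn : (0 : ℝ) < (Module.finrank ℚ K : ℝ) := by exact_mod_cast Module.finrank_pos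
  set n : ℝ := (Module.finrank ℚ K : ℝ) with hn'
  have hs : ∑ v : InfinitePlace K, (v.mult : ℝ) = n := by
    rw [hn', ← InfinitePlace.sum_mult_eq]; push_cast; rfl
  let av : InfinitePlace K ⊕ B → AbsoluteValue K ℝ := Sum.elim (fun v => v.1) (fun v => v.1.1)
  let m : InfinitePlace K ⊕ B → ℝ := Sum.elim (fun v => (v.mult : ℝ) / n) (fun _ => 1 / n)
  have hm : ∀ p, 0 ≤ m p := by
    rintro (v | v)
    · exact div_nonneg (Nat.cast_nonneg _) hn.le
    · exact div_nonneg zero_le_one hn.le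
  have hR : 0 ≤ ∑ _v : B, 1 / n := sum_nonneg fun _ _ => div_nonneg zero_le_one hn.le
  set R : ℝ := ∑ _v : B, 1 / n with hR'
  have hM : ∀ a b : ℝ, ∑ p, m p * Sum.elim (fun _ => a) (fun _ => b) p = a + R * b := fun a b => by
    rw [Fintype.sum_sum_type]
    show ∑ v : InfinitePlace K, (v.mult : ℝ) / n * a + ∑ _v : B, 1 / n * b = _
    rw [← sum_mul, ← sum_mul, ← sum_div, hs, div_self hn.ne', one_mul]
  have he : ep ≤ 1 / 5 := by unfold ep; norm_num
  have e0 : 0 < min ep η₀ := lt_min ep_pos h₀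
  have e1 := min_le_left ep η₀
  have e2 := min_le_right ep η₀
  obtain ⟨η, η0, ηM⟩ : ∃ η : ℝ, 0 < η ∧ 2 * (η + R * η) = min ep η₀ :=
    ⟨min ep η₀ / (2 * (1 + R)), by positivity, by field_simp⟩
  have ηR := mul_nonneg hR η0.le
  have ηS : ∑ p, m p * η = η + R * η := by
    rw [← hM]
    exact sum_congr rfl fun p _ => by cases p <;> rfl
  let Z : Bool → X → K := fun b => bif b then U else V
  have hZ : ∀ b, Function.Injective (Z b) := by rintro (_ | _) <;> assumption
  let lam : InfinitePlace K ⊕ B → ℝ := Sum.elim (fun _ => 2) (fun _ => 1)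
  have hc : ∀ p : (InfinitePlace K ⊕ B) × Bool, ∃ c : Cells X, c.Good ∧
      (∀ x y, c.d x y = av p.1 (Z p.2 x - Z p.2 y)) ∧ c.lam = lam p.1 ∧ c.eta = η ∧
      c.xi = Sum.elim (fun _ => 8) (fun _ => η) p.1 ∧
      c.g = Sum.elim (fun _ => 1 / 40000) (fun _ => 0) p.1 := by
    rintro ⟨v | v, b⟩
    · exact sys_arch hA (Z b) (hZ b) η η0 (by linarith) v
    · exact sys_fin hU (Z b) (hZ b) η η0 v.1
  choose c h1 h2 h3 h4 h5 h6 using hc
  have pf : ∀ a : K, ∑ p, m p * Real.log (av p a) =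
      ((∑ v : InfinitePlace K, (v.mult : ℝ) * Real.log (v a)) + ∑ v ∈ B, Real.log (v a)) / n := by
    intro a
    rw [Fintype.sum_sum_type, ← sum_coe_sort B, add_div, sum_div, sum_div]
    refine congrArg₂ (· + ·) (sum_congr rfl fun v _ => ?_) (sum_congr rfl fun v _ => ?_)
    · show (v.mult : ℝ) / n * Real.log (v a) = _
      ring
    · show 1 / n * Real.log (v.1 a) = _
      ring
  have na : ∀ (v : B) (a b : K), av (.inr v) (a + b) ≤ max (av (.inr v) a) (av (.inr v) b) :=
    fun v => FinitePlace.add_le v.1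
  refine ⟨(InfinitePlace K ⊕ B) × Bool, inferInstance, ⟨c, fun p => m p.1, bar _, lab⟩,
    ⟨U, V, fun p => av p.1, Prod.snd, fun p => Sum.elim (fun _ => 1) (fun _ => 0) p.1⟩,
    ⟨good U V lab hl av m lam _ _ η c h1 hm (fun p => h2 (p, true)) (fun p => h2 (p, false))
      h3 h4 h5 h6 (fun x y hxy => ?_) (fun x y hxy => ?_) (by linarith) (by rw [hM]; linarith)
      (by rw [hM]; norm_num), hUi, hVi, hl, h2, ?_, fun _ => rfl, fun _ => rfl,
      fun p => (h4 p).symm ▸ η0, ?_, fun a ha h => ?_, ?_, ?_, ?_⟩, rfl, rfl, rfl⟩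
  · rw [pf, hB _ ((hF _).2 ⟨x, y, .inl rfl⟩) (sub_ne_zero.2 fun h => hxy (hUi h)), zero_div]
  · rw [pf, hB _ ((hF _).2 ⟨x, y, .inr rfl⟩) (sub_ne_zero.2 fun h => hxy (hVi h)), zero_div]
  · rintro ⟨p, _ | _⟩ <;> rfl
  · simp only [h4]
    rw [two fun p => m p * η]
    linarith
  · rw [two fun p => m p * Real.log (av p a), pf]
    exact mul_nonneg zero_le_two (div_nonneg (hB' a (Subring.closure_mono
      (fun b hb => mem_coe.2 ((hF b).2 hb)) ha) h) hn.le)
  · rintro ⟨v | v, b⟩
    exacts [.inl rfl, .inr ⟨rfl, na v⟩]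
  · rw [two fun p => m p * Sum.elim (fun _ => 1) (fun _ => 0) p, hM]
    norm_num
  · rintro ⟨v | v, b⟩
    · have e : (c (.inl v, b)).d = fun x y => ‖v.embedding (Z b x) - v.embedding (Z b y)‖ :=
        funext fun x => funext fun y => by
          rw [h2, ← map_sub, InfinitePlace.norm_embedding_eq]; rfl
      show Part (c (.inl v, b)).d (c (.inl v, b)).lam
      rw [e, h3]
      exact hT.2 X _
    · show Part (c (.inr v, b)).d (c (.inr v, b)).lam
      rw [h3]
      refine hT.1 X _ (h1 _).d_self (h1 _).d_symm fun x y z => ?_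
      rw [h2, h2, h2, ← sub_add_sub_cancel _ (Z b y)]
      exact na v _ _

/-- the model of a planar configuration: system, arithmetic data, symmetry, and bisectors that are
true bisectors -/
theorem model (X : Type) [Fintype X] [DecidableEq X] (P : X → EuclideanSpace ℝ (Fin 2))
    (hP : Function.Injective P) (η : ℝ) (h : 0 < η) :
    ∃ (K : Type) (_ : Field K) (PL : Type) (_ : Fintype PL) (s : Sys X PL) (A : Ari X PL K),
      A.Good s η ∧ (s.lab = fun x y => dist (P x) (P y)) ∧ Sym A ∧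
      ∀ x y z, A.bis x y z → dist (P x) (P y) = dist (P x) (P z) := by
  obtain ⟨K, iK, nK, U, V, hU, hV, e, hS⟩ := nf2 X P hP
  obtain ⟨PL, iP, s, A, hA, hl, rfl, rfl⟩ := sys3 X K U V (fun x y => dist (P x) (P y)) η h hU hV
    fun x y z => (e x y z).1
  exact ⟨K, iK, PL, iP, s, A, hA, hl, hS, fun x y z => (e x y z).2⟩

end Pool.Agent.MP_ddf486_co.KV
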