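import Pool.Agent.MP_ddf486_co.KV.Ind
import Pool.Agent.MP_ddf486_co.KV.Sys3

/-! Project KV, row MAIN: from the induction to the plane. -/

set_option autoImplicit false

namespace Pool.Agent.MP_ddf486_co.KV

open Finset Pool.Agent.MP_6c3157_co.PD Pool.Agent.MP_6c3157_co.PQ

theorem zs_eq (A : Finset (EuclideanSpace ℝ (Fin 2))) :
    (Zs (fun x y : A => dist x.1 y.1) univ : ℝ) =
      ∑ a ∈ A, (((A.image fun b => dist a b).erase 0).card : ℝ) := by
  classical
  unfold Zs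
  push_cast
  rw [← sum_coe_sort A]
  refine sum_congr rfl fun x _ => ?_
  congr 2
  ext t
  simp only [mem_image, mem_erase, mem_univ, and_true]
  constructor
  · rintro ⟨y, hy, rfl⟩
    exact ⟨dist_ne_zero.2 fun e => hy (Subtype.ext e.symm), y.1, y.2, rfl⟩
  · rintro ⟨ht, y, hy, rfl⟩
    exact ⟨⟨y, hy⟩, fun e => ht (by rw [← e]; exact dist_self _), rfl⟩

theorem mainv (hP : PHI) (hN : NUM) (hI : IND) (hC : COL) : MAIN := by
  classical
  intro δ hδ
  obtain ⟨a, b, c, a0, b0, c1, hI⟩ := hI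
  obtain ⟨D, hD⟩ := exists_nat_one_div_lt hδ
  obtain ⟨B, x₀, B0, hN⟩ := hN (D + 1) a b c (by omega) a0 b0 c1
  have B1 : (0 : ℝ) < B := by exact_mod_cast B0
  refine ⟨1 / B, by positivity, ⌈Real.exp (max x₀ 2 ^ B)⌉₊, fun P hn hZ => ?_⟩
  have m2 : (2 : ℝ) ≤ max x₀ 2 := le_max_right _ _
  have m3 : (2 : ℝ) ≤ max x₀ 2 ^ B := m2.trans (le_self_pow₀ (by linarith) B0.ne')
  have n1 : Real.exp (max x₀ 2 ^ B) ≤ P.card := Nat.ceil_le.1 hn
  have n3 : (3 : ℝ) ≤ P.card := by linarith [Real.add_one_le_exp (max x₀ 2 ^ B)]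
  have n0 : (0 : ℝ) < P.card := by linarith
  have l1 : max x₀ 2 ^ B ≤ Real.log P.card := (Real.le_log_iff_exp_le n0).2 n1
  have l0 : 0 < Real.log P.card := by linarith
  have xB : (Real.log P.card ^ (1 / B : ℝ)) ^ B = Real.log P.card := by
    rw [one_div, Real.rpow_inv_natCast_pow l0.le B0.ne']
  have x1 : x₀ ≤ Real.log P.card ^ (1 / B : ℝ) := by
    refine (le_max_left x₀ 2).trans (le_of_pow_le_pow_left₀ B0.ne' (by positivity) ?_)
    rwa [xB]
  obtain ⟨N, i, eL, ek, eκ, eψ, hR⟩ := hN _ x1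
  rw [xB] at eL eκ
  have eL' : Real.exp N.L = P.card := by rw [eL, Real.exp_log n0]
  obtain ⟨K, _, PL, _, s, A, hA, hl, hy, hb⟩ :=
    model P (fun x => x.1) Subtype.val_injective (1 / P.card) (by positivity)
  by_contra hno
  have hG := hR.good N.ψ (by linarith [hR.pos]) le_rfl
  have k1 : 1 ≤ N.κ := hG.one_le_ka
  have h := hI N i P PL K s A (1 / P.card) univ hR hA (by positivity)
    (by rw [eL', one_div_mul_cancel n0.ne']) hy (by rw [eL']; simp) fun y _ z _ hyz => by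
      by_contra k
      rw [not_le, ek] at k
      refine hno ⟨(univ.filter fun x => A.bis x y z).map (Function.Embedding.subtype _),
        fun p hp => ?_, hC y.1 z.1 _ (fun e => hyz (Subtype.ext e)) fun p hp => ?_, ?_⟩
      · obtain ⟨q, _, rfl⟩ := mem_map.1 hp
        exact q.2
      · obtain ⟨q, hq, rfl⟩ := mem_map.1 (mem_coe.1 hp)
        exact hb q y z (mem_filter.1 hq).2
      · rw [card_map]
        exact k.le
  have h' := (hP P s.lab N.κ univ k1).2.2.2.1
  unfold Pr at h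
  simp only [card_univ, Fintype.card_coe] at h h'
  rw [hl, zs_eq] at h'
  rw [hl] at h
  have k4 : N.κ ^ 4 ≤ Real.log P.card ^ δ := by
    have D0 : D + 1 ≠ 0 := by omega
    have e : N.κ ^ 4 = Real.log P.card ^ (((D + 1 : ℕ) : ℝ)⁻¹) := by
      rw [← eκ, pow_mul, Real.pow_rpow_inv_natCast (by positivity) D0]
    rw [e]
    refine Real.rpow_le_rpow_of_exponent_le (by linarith) ?_
    rw [← one_div]
    push_cast
    exact hD.le
  have k0 : 0 < N.κ := by linarith
  have z1 := hZ.trans (div_le_div_of_nonneg_left (sq_nonneg _) (by positivity) k4)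
  have z2 : (N.ψ / 2 * (P.card * (P.card - 1))) ^ 2 ≤
      N.κ ^ 2 * ((P.card : ℝ) ^ 2 / N.κ ^ 4) * (P.card : ℝ) ^ 2 :=
    (pow_le_pow_left₀ (mul_nonneg (by linarith [hR.pos]) (mul_nonneg n0.le (by linarith))) h
      2).trans (h'.trans (by gcongr))
  have e1 : N.ψ = 4 / N.κ := by rw [eq_div_iff k0.ne', eψ]
  have e2 : N.κ ^ 2 * ((P.card : ℝ) ^ 2 / N.κ ^ 4) * (P.card : ℝ) ^ 2 =
      ((P.card : ℝ) ^ 2 / N.κ) ^ 2 := by field_simp
  rw [e2, e1] at z2
  have z3 := le_of_pow_le_pow_left₀ two_ne_zero (by positivity) z2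
  rw [show 4 / N.κ / 2 * ((P.card : ℝ) * (P.card - 1)) = 2 * (P.card * (P.card - 1)) / N.κ by ring,
    div_le_div_iff_of_pos_right k0] at z3
  nlinarith

end Pool.Agent.MP_ddf486_co.KV
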