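import Pool.Agent.MP_ddf486_co.KV.SpecA

/-! Project KV, row NUM: the numbers exist. -/

set_option autoImplicit false

noncomputable section

namespace Pool.Agent.MP_ddf486_co.KV

open Finset Pool.Agent.MP_6c3157_co.PD Pool.Agent.MP_6c3157_co.PQ

namespace Nm

/-- the rarity chain -/
def es (y : ℝ) (m I i : ℕ) : ℝ := if i = 0 then 0 else (y ^ (5 * m) ^ (I - i))⁻¹

lemma es_succ (y : ℝ) (m I i : ℕ) : es y m I (i + 1) = (y ^ (5 * m) ^ (I - (i + 1)))⁻¹ :=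
  if_neg (Nat.succ_ne_zero i)

lemma es_le {y : ℝ} (hy : 1 ≤ y) {m : ℕ} (hm : 1 ≤ m) (I i : ℕ) : es y m I i ≤ y⁻¹ := by
  unfold es
  split_ifs
  · positivity
  · exact inv_anti₀ (by linarith) (le_self_pow₀ hy (by positivity))

lemma quarter {y : ℝ} (hy : 4 ≤ y) (n l : ℕ) : (y ^ ((n + 1) * l))⁻¹ ≤ ((y ^ n)⁻¹ / 4) ^ l := by
  have y0 : 0 < y := by linarith
  rw [pow_mul, ← inv_pow]
  refine pow_le_pow_left₀ (by positivity) ?_ l
  rw [pow_succ, mul_inv, div_eq_mul_inv]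
  exact mul_le_mul_of_nonneg_left (inv_anti₀ (by norm_num) hy) (by positivity)

lemma es_q {y q : ℝ} (hy : 4 ≤ y) {m I : ℕ} (hm : 1 ≤ m) (hq : y ^ (((5 * m) ^ I + 1) * m) ≤ q)
    (i : ℕ) : 1 ≤ (es y m I (i + 1) / 4) ^ m * q ^ 40 := by
  have y1 : 1 ≤ y := by linarith
  have q1 : 1 ≤ q := (one_le_pow₀ y1).trans hq
  have h1 : y ^ (((5 * m) ^ (I - (i + 1)) + 1) * m) ≤ q ^ 40 :=
    (pow_le_pow_right₀ y1 (Nat.mul_le_mul_right m (Nat.succ_le_succ
      (Nat.pow_le_pow_right (by omega) (Nat.sub_le _ _))))).trans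
      (hq.trans (le_self_pow₀ q1 (by norm_num)))
  rw [es_succ]
  refine le_trans ?_ (mul_le_mul (quarter hy _ m) h1 (by positivity) (by positivity))
  rw [inv_mul_cancel₀ (by positivity)]

lemma es_step {y T : ℝ} (hy : 4 ≤ y) (hT : T ≤ y) {m I i : ℕ} (hm : 1 ≤ m) (hi : i < I) :
    es y m I i * T ≤ (es y m I (i + 1) / 4) ^ (2 * m) := by
  have y1 : 1 ≤ y := by linarith
  rw [es_succ]
  refine le_trans ?_ (quarter hy _ _)
  unfold es
  split_ifs
  · rw [zero_mul]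
    positivity
  obtain ⟨n, n1, hn⟩ : ∃ n, 1 ≤ n ∧ n = (5 * m) ^ (I - (i + 1)) :=
    ⟨_, Nat.one_le_pow _ _ (by omega), rfl⟩
  rw [show I - i = I - (i + 1) + 1 by omega, pow_succ, ← hn]
  have h1 : y ^ ((n + 1) * (2 * m)) * y ≤ y ^ (n * (5 * m)) := by
    rw [← pow_succ]
    exact pow_le_pow_right₀ y1 (by nlinarith)
  rw [inv_mul_le_iff₀ (by positivity), ← div_eq_mul_inv, le_div_iff₀ (by positivity)]
  exact le_trans (by rw [mul_comm]; gcongr) h1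

end Nm

open Nm in
theorem num : NUM := by
  intro D a b c hD a0 b0 c1
  obtain ⟨A, A2, Aa, Ab⟩ : ∃ A : ℕ, 3 ≤ A ∧ 9 * a ≤ A ∧ 9 * b + 1 ≤ A := by
    refine ⟨⌈9 * a + 9 * b⌉₊ + 3, by omega, ?_, ?_⟩ <;>
    · push_cast
      linarith [Nat.le_ceil (9 * a + 9 * b)]
  obtain ⟨B, hB⟩ : ∃ B, B = 1000000 * D * A := ⟨_, rfl⟩
  obtain ⟨m, hm⟩ : ∃ m, m = 500000000 * D := ⟨_, rfl⟩
  obtain ⟨I, hI⟩ : ∃ I, I = 625000 * D := ⟨_, rfl⟩
  obtain ⟨C, hC⟩ : ∃ C, C = ((5 * m) ^ I + 1) * m := ⟨_, rfl⟩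
  have BA : 1000000 * A ≤ B := by rw [hB]; nlinarith
  have m1 : 1 ≤ m := by omega
  have C1 : 1 ≤ C := by rw [hC]; exact Nat.mul_pos (Nat.succ_pos _) m1
  obtain ⟨E, E0, hE⟩ : ∃ E : ℝ, 0 ≤ E ∧ E = 2 ^ (12 * B) := ⟨_, by positivity, rfl⟩
  refine ⟨B, 10 ^ 30 + c + C + 360 * E + 10 ^ 4 * B + I, by omega, fun x hx => ?_⟩
  have p1 : (0 : ℝ) ≤ C := Nat.cast_nonneg _
  have p3 : (0 : ℝ) ≤ B := Nat.cast_nonneg _
  have p4 : (0 : ℝ) ≤ I := Nat.cast_nonneg _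
  have x1 : 10 ^ 30 ≤ x := by linarith
  have x2 : c ≤ x := by linarith
  have x3 : C ≤ x := by linarith
  have x4 : 360 * E ≤ x := by linarith
  have x5 : 10 ^ 4 * B ≤ x := by linarith
  have x6 : I ≤ x := by linarith
  clear hx
  have x7 : 2000 ≤ x := le_trans (by norm_num) x1
  have x0 : 0 < x := by linarith
  have xo : 1 ≤ x := by linarith
  have pw : ∀ {i j : ℕ}, i ≤ j → x ^ i ≤ x ^ j := fun h => pow_le_pow_right₀ xo h
  have px : ∀ {j : ℕ}, 1 ≤ j → x ≤ x ^ j := fun h => le_self_pow₀ xo (by omega)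
  have ml : ∀ {t : ℝ} {i j : ℕ}, t ≤ x → i + 1 ≤ j → t * x ^ i ≤ x ^ j := fun h h' =>
    le_trans (by rw [pow_succ']; gcongr) (pw h')
  have xe : ∀ n : ℕ, x ^ n ≤ Real.exp (n * x) := fun n => by
    rw [Real.exp_nat_mul]
    exact pow_le_pow_left₀ x0.le (by linarith [Real.add_one_le_exp x]) n
  have e1 : 1 ≤ Real.exp x := Real.one_le_exp x0.le
  have eh : Real.exp (1 / 2) ≤ 2 := by
    have h := Real.add_one_le_exp (-(1 / 2))
    rw [Real.exp_neg, show -(1 / 2 : ℝ) + 1 = 2⁻¹ by norm_num] at h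
    exact (inv_le_inv₀ (by norm_num) (Real.exp_pos _)).1 h
  have L1 : 1 ≤ (x ^ B) ^ 30 := one_le_pow₀ (one_le_pow₀ xo)
  obtain ⟨y, hy⟩ : ∃ y, y = 4 * (Real.exp x * (x ^ B) ^ 30) := ⟨_, rfl⟩
  have yk : 1 ≤ Real.exp x * (x ^ B) ^ 30 := one_le_mul_of_one_le_of_one_le e1 L1
  have y4 : 4 ≤ y := by linarith
  have yo : 1 ≤ y := by linarith
  have yL : (x ^ B) ^ 30 ≤ y := by
    have := le_mul_of_one_le_left (zero_le_one.trans L1) e1
    linarith
  have ye : y ≤ Real.exp (x ^ 2 / 2) := by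
    have h1 : (4 : ℝ) ≤ Real.exp 3 := by linarith [Real.add_one_le_exp 3]
    have h2 := xe (B * 30)
    rw [pow_mul] at h2
    calc y ≤ Real.exp 3 * (Real.exp x * Real.exp ((B * 30 : ℕ) * x)) := by rw [hy]; gcongr
      _ = Real.exp (3 + (x + (B * 30 : ℕ) * x)) := by rw [Real.exp_add, Real.exp_add]
      _ ≤ _ := Real.exp_le_exp.2 (by push_cast; nlinarith)
  obtain ⟨q, q1, q2⟩ : ∃ q : ℕ, y ^ C ≤ q ∧ (q : ℝ) ≤ Real.exp (x ^ 3) := by
    refine ⟨⌈y ^ C⌉₊, Nat.le_ceil _, (Nat.ceil_lt_add_one (by positivity)).le.trans ?_⟩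
    have h1 : y ^ C ≤ Real.exp (C * (x ^ 2 / 2)) := by
      rw [Real.exp_nat_mul]
      exact pow_le_pow_left₀ (by linarith) ye C
    have h2 : (2 : ℝ) ≤ Real.exp 1 := by linarith [Real.add_one_le_exp 1]
    calc y ^ C + 1 ≤ 2 * y ^ C := by linarith [one_le_pow₀ (n := C) yo]
      _ ≤ Real.exp 1 * Real.exp (C * (x ^ 2 / 2)) := by gcongr
      _ = Real.exp (1 + C * (x ^ 2 / 2)) := (Real.exp_add _ _).symm
      _ ≤ _ := Real.exp_le_exp.2 (by
        have : (2 : ℝ) ≤ x ^ 3 := le_trans (by linarith) (px (by norm_num))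
        nlinarith [mul_le_mul_of_nonneg_right x3 (sq_nonneg x)])
  have yq : y ≤ q := (le_self_pow₀ yo (by omega)).trans q1
  have qe : ∀ n : ℕ, (q : ℝ) ^ n ≤ Real.exp (n * x ^ 3) := fun n => by
    rw [Real.exp_nat_mul]
    exact pow_le_pow_left₀ (Nat.cast_nonneg _) q2 n
  obtain ⟨r, r0, r1, r2⟩ : ∃ r : ℕ, Odd r ∧ 2 * x ^ 4 ≤ r ∧ (r : ℝ) + 1 ≤ 6 * x ^ 4 := by
    refine ⟨2 * ⌈x ^ 4⌉₊ + 1, odd_two_mul_add_one _, ?_, ?_⟩ <;> push_cast
    · linarith [Nat.le_ceil (x ^ 4)]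
    · linarith [Nat.ceil_lt_add_one (pow_pos x0 4).le, one_le_pow₀ (n := 4) xo]
  obtain ⟨i, i1, i2⟩ : ∃ i : ℕ, 20 * B * x ≤ i ∧ (i : ℝ) ≤ x ^ 2 :=
    ⟨⌈20 * B * x⌉₊, Nat.le_ceil _,
      (Nat.ceil_lt_add_one (by positivity)).le.trans (by nlinarith)⟩
  have a0' : 0 < x ^ A := pow_pos x0 A
  have up : ∀ n : ℕ, (x ^ A)⁻¹ ^ n = (x ^ (A * n))⁻¹ := fun n => by rw [inv_pow, pow_mul]
  have u3 : (x ^ A)⁻¹ ≤ (x ^ 3)⁻¹ := inv_anti₀ (pow_pos x0 3) (pw A2)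
  have ls : Real.log (Real.exp (x ^ 8) ^ 2) = 2 * x ^ 8 := by
    rw [Real.log_pow, Real.log_exp]
    norm_num
  have l8 : 1 ≤ x ^ 8 := one_le_pow₀ xo
  have l9 : 1 + 2 * x ^ 8 ≤ x ^ 9 := le_trans (by linarith) (ml (t := 3) (by linarith) le_rfl)
  have lp : ∀ {t : ℝ} {n : ℕ}, 0 ≤ t → 9 * t ≤ n → (1 + 2 * x ^ 8) ^ t ≤ x ^ n := by
    intro t n h0 h
    refine (Real.rpow_le_rpow (by linarith) l9 h0).trans ?_
    rw [← Real.rpow_natCast, ← Real.rpow_mul x0.le, ← Real.rpow_natCast]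
    exact Real.rpow_le_rpow_of_exponent_le xo (by push_cast; linarith)
  have k0 : 0 < x ^ (250000 * A) := pow_pos x0 _
  refine ⟨⟨(x ^ A)⁻¹, x ^ B, q, Real.exp (x ^ 8), Real.exp x, 4 / x ^ (250000 * A),
    x ^ (250000 * A), x, r, m, I, 12 * B, ⌈(x ^ B) ^ 10⌉₊, es y m I⟩, i, rfl, rfl, ?_,
    div_mul_cancel₀ _ k0.ne', by positivity, fun ψ h1 h2 => ?_, ?_, ?_, ?_, ?_, ?_⟩
  · show (x ^ (250000 * A)) ^ (4 * D) = x ^ B
    rw [← pow_mul, hB]
    congr 1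
    ring
  · dsimp only at h1 h2
    have h3 : 2 / x ^ (250000 * A) ≤ ψ := le_trans (le_of_eq (by ring)) h1
    have eI : (x ^ A)⁻¹ ^ (8 * I) = ((x ^ B) ^ 5)⁻¹ := by
      rw [up, ← pow_mul, hB, hI]
      congr 2
      ring
    have b0 : 0 < x ^ B := pow_pos x0 B
    refine ⟨inv_pos.2 a0', ?_, ?_, lt_of_lt_of_le (by positivity) h3, h2.trans ?_, ?_, ?_, e1,
      le_trans (by linarith) yq, ?_, r0, ?_, xo, ?_, ?_, ?_, ?_, by dsimp only; omega, ?_, ?_, ?_,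
      ?_, Nat.le_ceil _, (if_pos rfl : es y m I 0 = 0), fun l _ => ?_, fun l _ => ?_,
      fun l _ => es_q y4 m1 (hC ▸ q1) l, fun l hl => es_step y4 yL m1 hl⟩ <;> dsimp only
    · rw [one_div]
      exact inv_anti₀ (by norm_num) (x1.trans (px (by omega)))
    · rw [up, inv_mul_eq_div, one_le_div (pow_pos x0 _)]
      exact pw (by omega)
    · rw [up, div_le_iff₀ k0, inv_mul_eq_div, le_div_iff₀ (pow_pos x0 _)]
      exact ml (by linarith) (by omega)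
    · refine le_trans ?_ (mul_le_mul_of_nonneg_right
        (pow_le_pow_left₀ (by positivity) h3 2) b0.le)
      rw [div_pow, div_mul_eq_mul_div, one_le_div (by positivity), ← pow_mul]
      linarith [pw (show 250000 * A * 2 ≤ B by omega)]
    · rw [div_le_iff₀ k0] at h3
      linarith
    · rw [← div_eq_mul_inv, div_le_one a0']
      exact ((Real.log_le_iff_le_exp (by linarith)).2 q2).trans (pw A2)
    · refine (qe 200).trans (le_trans ?_ (pow_le_pow_left₀ (Real.exp_pos _).le eh r))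
      rw [← Real.exp_nat_mul]
      refine Real.exp_le_exp.2 ?_
      have := ml (t := 200) (i := 3) (j := 4) (by linarith) le_rfl
      push_cast
      linarith
    · rw [← pow_mul, mul_comm]
    · rw [up, Real.exp_neg]
      refine inv_anti₀ (pow_pos x0 _) ((xe _).trans (Real.exp_le_exp.2 ?_))
      have a1 : (1000000 : ℝ) * A ≤ B := by exact_mod_cast BA
      rw [le_div_iff₀ (by positivity)]
      have := ml (t := 6400 * A) (i := 3) (j := 4) (by linarith) le_rfl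
      push_cast
      nlinarith [pow_pos x0 4]
    · rw [← pow_mul]
      refine (qe _).trans (Real.exp_le_exp.2 ?_)
      push_cast
      rw [← hE]
      calc 60 * (E * (r + 1)) * x ^ 3 ≤ 60 * (E * (6 * x ^ 4)) * x ^ 3 := by gcongr
        _ = 360 * E * x ^ 7 := by ring
        _ ≤ _ := ml x4 le_rfl
    · exact (qe _).trans (Real.exp_le_exp.2 (ml (by exact_mod_cast x7) (by norm_num)))
    · rw [up, ← pow_mul, ← div_eq_mul_inv, div_le_one (pow_pos x0 _)]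
      exact pw (le_of_eq (by rw [hB, hm]; ring))
    · rw [← div_eq_mul_inv, div_le_one a0']
      exact x6.trans (px (by omega))
    · rw [eI, show 100 * ((x ^ B) ^ 5)⁻¹ * (x ^ B) ^ 4 = 100 / x ^ B by field_simp,
        div_le_one b0]
      exact le_trans (by linarith) (px (by omega))
    · rw [eI, mul_assoc, inv_mul_cancel₀ (by positivity)]
      norm_num
    · rw [es_succ]
      positivity
    · calc Real.exp x * es y m I l * (x ^ B) ^ 20 ≤ Real.exp x * y⁻¹ * (x ^ B) ^ 30 :=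
            mul_le_mul (mul_le_mul_of_nonneg_left (es_le yo m1 I l) (by linarith))
              (pow_le_pow_right₀ (one_le_pow₀ xo) (by norm_num)) (by positivity) (by positivity)
        _ = Real.exp x * (x ^ B) ^ 30 / y := by ring
        _ ≤ 1 := by rw [div_le_one (by linarith)]; linarith
  · show Real.exp (x ^ 8) ^ 2 ≤ Real.exp (x ^ B)
    rw [← Real.exp_nat_mul]
    exact Real.exp_le_exp.2 (ml (by push_cast; linarith) (by omega))
  · show c * (1 + Real.log (Real.exp (x ^ 8) ^ 2)) ^ b ≤ x ^ (250000 * A)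
    rw [ls]
    exact (mul_le_mul_of_nonneg_left (lp (n := A) b0 (by linarith)) (by linarith)).trans
      (ml x2 (by omega))
  · show (x ^ A)⁻¹ ≤ (1 + Real.log (Real.exp (x ^ 8) ^ 2)) ^ (-a)
    rw [ls, Real.rpow_neg (by linarith)]
    exact inv_anti₀ (by positivity) (lp a0 Aa)
  · show x ^ B ≤ (20 / 19) ^ i * Real.log (Real.exp (x ^ 8) ^ 2)
    have h1 : Real.exp (1 / 20) ≤ 20 / 19 := by
      have h := Real.add_one_le_exp (-(1 / 20))
      rw [Real.exp_neg, show -(1 / 20 : ℝ) + 1 = (20 / 19)⁻¹ by norm_num] at h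
      exact (inv_le_inv₀ (by norm_num) (Real.exp_pos _)).1 h
    rw [ls]
    refine le_trans ?_ (le_mul_of_one_le_right (by positivity) (by linarith))
    refine (xe B).trans (le_trans ?_ (pow_le_pow_left₀ (Real.exp_pos _).le h1 i))
    rw [← Real.exp_nat_mul]
    exact Real.exp_le_exp.2 (by linarith)
  · show (1 + 100 * (x ^ A)⁻¹) ^ i ≤ 2
    have h1 : 1 + 100 * (x ^ A)⁻¹ ≤ Real.exp (100 * (x ^ 3)⁻¹) := by
      linarith [Real.add_one_le_exp (100 * (x ^ 3)⁻¹)]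
    refine (pow_le_pow_left₀ (by positivity) h1 i).trans (le_trans ?_ eh)
    rw [← Real.exp_nat_mul]
    refine Real.exp_le_exp.2 ((mul_le_mul_of_nonneg_right i2 (by positivity)).trans ?_)
    rw [show x ^ 2 * (100 * (x ^ 3)⁻¹) = 100 / x by field_simp, div_le_iff₀ x0]
    linarith

end Pool.Agent.MP_ddf486_co.KV
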