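import Pool.Agent.MP_ddf486_co.KV.SpecA
import Mathlib.NumberTheory.ArithmeticFunction.Misc
import Mathlib.NumberTheory.LegendreSymbol.ZModChar
import Mathlib.NumberTheory.Harmonic.Bounds

/-! Project KV, row ONE: the integers whose prime factors are all `1` modulo `4`. -/

set_option autoImplicit false

noncomputable section

namespace Pool.Agent.MP_ddf486_co.KV

open Finset ArithmeticFunction

namespace OneP

/-- all prime factors are `1` modulo `4` -/
def Gd (m : ℕ) : Prop := ∀ p : ℕ, p.Prime → p ∣ m → p % 4 = 1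

/-- the character -/
def ch : ArithmeticFunction ℝ := ⟨fun n => (ZMod.χ₄ (n : ZMod 4) : ℤ), by simp⟩

theorem ch_apply (n : ℕ) : ch n = (ZMod.χ₄ (n : ZMod 4) : ℤ) := rfl

theorem ch_eq (n : ℕ) : ch n = if n % 2 = 0 then 0 else if n % 4 = 1 then 1 else -1 := by
  rw [ch_apply, ZMod.χ₄_nat_eq_if_mod_four]
  split_ifs <;> simp

theorem ch_mult : ch.IsMultiplicative :=
  ⟨by simp [ch_apply], fun _ => by simp only [ch_apply, Nat.cast_mul, map_mul, Int.cast_mul]⟩

theorem r_nonneg (m : ℕ) : 0 ≤ ∑ d ∈ m.divisors, ch d := by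
  rcases eq_or_ne m 0 with rfl | hm
  · simp
  rw [← coe_zeta_mul_apply, (isMultiplicative_zeta.natCast.mul ch_mult).multiplicative_factorization
    _ hm]
  refine Finset.prod_nonneg fun p hp => ?_
  beta_reduce
  rw [coe_zeta_mul_apply, Nat.sum_divisors_prime_pow (Nat.prime_of_mem_primeFactors hp)]
  have e : ∀ i, ch (p ^ i) = ch p ^ i := fun i => by
    simp only [ch_apply, Nat.cast_pow, map_pow, Int.cast_pow]
  simp only [e]
  rw [ch_eq]
  split_ifs
  · exact sum_nonneg fun i _ => by positivity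
  · exact sum_nonneg fun i _ => by positivity
  · rw [neg_one_geom_sum]
    split_ifs
    exacts [le_rfl, zero_le_one]

theorem gd_mod {d : ℕ} (h0 : d ≠ 0) (h : Gd d) : d % 4 = 1 := by
  induction d using induction_on_primes with
  | zero => exact absurd rfl h0
  | one => rfl
  | prime_mul p a hp ih =>
    rw [Nat.mul_mod, h p hp (Dvd.intro _ rfl), ih (by rintro rfl; simp at h0)
      fun q hq hd => h q hq (Dvd.dvd.mul_left hd p)]

theorem alt (M : ℕ) : ∑ d ∈ Ioc 0 M, ch d / d
    + (if M % 4 = 3 ∨ M % 4 = 0 then (1 : ℝ) / (M + 1) else 0) ≤ 1 := by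
  induction M with
  | zero => simp
  | succ M ih =>
    rw [sum_Ioc_succ_top (Nat.zero_le M), ch_eq]
    have k : (1 : ℝ) / (M + 1 + 1) ≤ 1 / (M + 1) :=
      one_div_le_one_div_of_le (by positivity) (by linarith)
    push_cast
    rcases (by omega : M % 4 = 0 ∨ M % 4 = 1 ∨ M % 4 = 2 ∨ M % 4 = 3) with h | h | h | h
    · rw [if_pos (by omega)] at ih
      rw [if_neg (by omega), if_pos (by omega), if_neg (by omega)]
      linarith
    · rw [if_neg (by omega)] at ih
      rw [if_pos (by omega), if_neg (by omega), zero_div]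
      linarith
    · rw [if_neg (by omega)] at ih
      rw [if_neg (by omega), if_neg (by omega), if_pos (by omega), neg_div]
      linarith
    · rw [if_pos (by omega)] at ih
      rw [if_pos (by omega), if_pos (by omega), zero_div]
      linarith

theorem alt_le (M : ℕ) : ∑ d ∈ Ioc 0 M, ch d / d ≤ 1 :=
  le_trans (le_add_of_nonneg_right (by split_ifs <;> positivity)) (alt M)

open Classical in
/-- the weight of the good integers -/
def wa : ArithmeticFunction ℝ := ⟨fun m => if Gd m then 1 / m else 0, by simp⟩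

/-- the weight of all integers -/
def wu : ArithmeticFunction ℝ := ⟨fun m => 1 / m, by simp⟩

/-- the twisted weight -/
def wc : ArithmeticFunction ℝ := ⟨fun m => ch m / m, by simp⟩

theorem wa_pos {m : ℕ} (h : Gd m) : wa m = 1 / m := if_pos h

theorem wa_neg {m : ℕ} (h : ¬Gd m) : wa m = 0 := if_neg h

theorem wa_nonneg (m : ℕ) : 0 ≤ wa m := by
  by_cases h : Gd m
  · rw [wa_pos h]; positivity
  · rw [wa_neg h]

theorem conv_le (m : ℕ) : (wa * wa) m ≤ (wu * wc) m := by
  rw [mul_apply, mul_apply]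
  by_cases h : Gd m
  · refine sum_le_sum fun x hx => le_of_eq ?_
    obtain ⟨e, h0⟩ := Nat.mem_divisorsAntidiagonal.1 hx
    have g1 : Gd x.1 := fun p hp hd => h p hp (e ▸ Dvd.dvd.mul_right hd _)
    have g2 : Gd x.2 := fun p hp hd => h p hp (e ▸ Dvd.dvd.mul_left hd _)
    have k := gd_mod (by rintro k; rw [k, mul_zero] at e; exact h0 e.symm) g2
    rw [wa_pos g1, wa_pos g2]
    change _ = (1 : ℝ) / x.1 * (ch x.2 / x.2)
    rw [ch_eq, if_neg (by omega), if_pos k]
  · have e1 : ∑ x ∈ m.divisorsAntidiagonal, wa x.1 * wa x.2 = 0 := by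
      refine sum_eq_zero fun x hx => ?_
      obtain ⟨e, -⟩ := Nat.mem_divisorsAntidiagonal.1 hx
      by_cases g1 : Gd x.1
      · rw [wa_neg (m := x.2) fun g2 => h fun p hp hd =>
          ((Nat.Prime.dvd_mul hp).1 (e ▸ hd)).elim (g1 p hp) (g2 p hp), mul_zero]
      · rw [wa_neg g1, zero_mul]
    have e2 : ∑ x ∈ m.divisorsAntidiagonal, wu x.1 * wc x.2
        = 1 / m * ∑ d ∈ m.divisors, ch d := by
      rw [← Nat.sum_divisorsAntidiagonal' (fun _ d => ch d), mul_sum]
      refine sum_congr rfl fun x hx => ?_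
      obtain ⟨e, -⟩ := Nat.mem_divisorsAntidiagonal.1 hx
      change (1 : ℝ) / x.1 * (ch x.2 / x.2) = _
      rw [← e]
      push_cast
      ring
    rw [e1, e2]
    exact mul_nonneg (by positivity) (r_nonneg m)

theorem sum_le (N : ℕ) : ∑ m ∈ Ioc 0 N, (wu * wc) m ≤ 1 + Real.log N := by
  rw [sum_Ioc_mul_eq_sum_sum]
  refine le_trans ?_ (harmonic_le_one_add_log N)
  rw [harmonic_eq_sum_Icc]
  push_cast
  refine sum_le_sum fun e _ => ?_
  rw [← one_div]
  exact mul_le_of_le_one_right (show (0 : ℝ) ≤ 1 / e by positivity) (alt_le _)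

end OneP

open OneP in
theorem one : ONE := by
  classical
  intro n hn
  have e : ∑ m ∈ (Icc 1 n).filter (fun m => ∀ p : ℕ, p.Prime → p ∣ m → p % 4 = 1), (1 : ℝ) / m
      = ∑ m ∈ Ioc 0 n, wa m := by
    rw [sum_filter]
    refine sum_congr rfl fun m _ => ?_
    split_ifs with h
    exacts [(wa_pos h).symm, (wa_neg h).symm]
  have l : Real.log (n * n : ℕ) = 2 * Real.log n := by
    rw [← sq, Nat.cast_pow, Real.log_pow]; rfl
  rw [e, ← l, sq, sum_mul_sum, ← sum_product']
  refine le_trans ?_ ((sum_le_sum fun m _ => conv_le m).trans (sum_le (n * n)))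
  rw [sum_Ioc_mul_eq_sum_prod_filter]
  refine sum_le_sum_of_subset_of_nonneg (fun x hx => ?_)
    fun x _ _ => mul_nonneg (wa_nonneg _) (wa_nonneg _)
  simp only [mem_product, mem_Ioc, mem_filter] at hx ⊢
  have k : n ≤ n * n := Nat.le_mul_self n
  exact ⟨⟨⟨hx.1.1, hx.1.2.trans k⟩, hx.2.1, hx.2.2.trans k⟩, Nat.mul_le_mul hx.1.2 hx.2.2⟩

end Pool.Agent.MP_ddf486_co.KV
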