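import Pool.Agent.MP_ddf486_co.KV.SpecA
import Mathlib.NumberTheory.SumTwoSquares

/-! Project KV, row SQS: few integers are sums of two squares. -/

set_option autoImplicit false

noncomputable section

namespace Pool.Agent.MP_ddf486_co.KV

open Finset

namespace Sqs

/-- `-1` is a square modulo `b`. -/
def A (b : ℕ) : Prop := IsSquare (-1 : ZMod b)

theorem A.dvd {m d : ℕ} (h : A m) (hd : d ∣ m) : A d := ZMod.isSquare_neg_one_of_dvd hd h

theorem A.one {m : ℕ} (h : A m) (ho : ¬2 ∣ m) (p : ℕ) (hp : p.Prime) (hd : p ∣ m) : p % 4 = 1 := by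
  have : Fact p.Prime := ⟨hp⟩
  have h3 : p % 4 ≠ 3 := ZMod.exists_sq_eq_neg_one_iff.1 (h.dvd hd)
  have h2 : p % 2 = 1 := (hp.eq_two_or_odd).resolve_left fun e => ho (e ▸ hd)
  omega

open Classical in
theorem mass (h2 : ONE) {n : ℕ} (hn : 1 ≤ n) :
    ∑ m ∈ (Icc 1 n).filter A, (1 : ℝ) / m ≤ 2 * Real.sqrt (1 + 2 * Real.log n) := by
  set O := (Icc 1 n).filter fun m => ∀ p : ℕ, p.Prime → p ∣ m → p % 4 = 1 with hO
  have h := Real.le_sqrt_of_sq_le (h2 n hn)
  rw [← hO] at h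
  have sub : (Icc 1 n).filter A ⊆ O ∪ O.image (2 * ·) := fun m hm => by
    obtain ⟨h1, hA⟩ := mem_filter.1 hm
    by_cases e : 2 ∣ m
    · obtain ⟨c, rfl⟩ := e
      have h4 : ¬2 ∣ c := fun e => by
        have : IsSquare (-1 : ZMod 4) := hA.dvd (Nat.mul_dvd_mul_left 2 e)
        revert this
        decide
      rw [mem_Icc] at h1
      exact mem_union_right _ (mem_image_of_mem _ (mem_filter.2
        ⟨mem_Icc.2 ⟨by omega, by omega⟩, (hA.dvd (dvd_mul_left c 2)).one h4⟩))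
    · exact mem_union_left _ (mem_filter.2 ⟨h1, hA.one e⟩)
  have e1 : ∑ m ∈ O.image (2 * ·), (1 : ℝ) / (m : ℕ) ≤ ∑ m ∈ O, (1 : ℝ) / m :=
    (sum_image_le_of_nonneg fun _ _ => by positivity).trans (sum_le_sum fun m hm => by
      have : (1 : ℝ) ≤ m := by exact_mod_cast (mem_Icc.1 (mem_filter.1 hm).1).1
      push_cast
      exact one_div_le_one_div_of_le (by linarith) (by linarith))
  have e2 := sum_le_sum_of_subset_of_nonneg sub (f := fun m : ℕ => (1 : ℝ) / m)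
    fun _ _ _ => by positivity
  have e3 := sum_union_inter (s₁ := O) (s₂ := O.image (2 * ·)) (f := fun m : ℕ => (1 : ℝ) / m)
  have e4 : 0 ≤ ∑ m ∈ O ∩ O.image (2 * ·), (1 : ℝ) / m := sum_nonneg fun _ _ => by positivity
  linarith

theorem fac (n : ℕ) : ∑ m ∈ Icc 1 n, (Real.log n - Real.log m) ≤ n := by
  rcases n.eq_zero_or_pos with rfl | hn
  · simp
  have e : ∑ m ∈ Icc 1 n, Real.log m = Real.log n.factorial := by
    rw [← prod_Ico_id_eq_factorial, Nat.cast_prod, Real.log_prod fun m hm => by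
      have := (mem_Ico.1 hm).1
      positivity]
    rfl
  have h := Real.log_le_log (by positivity) (Real.pow_div_factorial_le_exp (n : ℝ) (by positivity) n)
  rw [Real.log_exp, Real.log_div (by positivity) (by positivity), Real.log_pow] at h
  rw [sum_sub_distrib, e, sum_const, Nat.card_Icc, nsmul_eq_mul]
  simpa using h

open Classical in
theorem slice (h1 : HT) {n t : ℕ} (ht : 1 ≤ t) {S : ℝ}
    (hS : ∑ m ∈ (Icc 1 n).filter A, (1 : ℝ) / m ≤ S) :
    ∑ e ∈ (Icc 1 (n / t ^ 2)).filter A, Real.log ((t ^ 2 * e : ℕ) : ℝ) ≤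
      (4 + 6 * S) * n * (1 / (t : ℝ) ^ (3 / 2 : ℝ)) := by
  have t1 : (1 : ℝ) ≤ t := by exact_mod_cast ht
  have q0 : ((n / t ^ 2 : ℕ) : ℝ) ≤ n / t ^ 2 := by exact_mod_cast Nat.cast_div_le
  have h := h1 A (fun _ _ => A.dvd) (n / t ^ 2)
  have hs := (sum_le_sum_of_subset_of_nonneg (f := fun m : ℕ => (1 : ℝ) / m)
    (filter_subset_filter A (Icc_subset_Icc_right (Nat.div_le_self n (t ^ 2))))
    fun _ _ _ => by positivity).trans hS
  have s0 : 0 ≤ ∑ m ∈ (Icc 1 (n / t ^ 2)).filter A, (1 : ℝ) / m :=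
    sum_nonneg fun _ _ => by positivity
  have hc : (((Icc 1 (n / t ^ 2)).filter A).card : ℝ) ≤ (n / t ^ 2 : ℕ) := by
    exact_mod_cast (card_filter_le _ _).trans (by simp)
  have l0 := Real.log_nonneg t1
  have l1 : Real.log t ≤ 2 * (t : ℝ) ^ (1 / 2 : ℝ) := by
    have := Real.log_le_rpow_div (x := t) (by positivity) (ε := 1 / 2) (by norm_num)
    linarith
  have l2 : 1 ≤ (t : ℝ) ^ (1 / 2 : ℝ) := Real.one_le_rpow t1 (by norm_num)
  have l3 : 1 / (t : ℝ) ^ (3 / 2 : ℝ) = (t : ℝ) ^ (1 / 2 : ℝ) / t ^ 2 := by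
    rw [div_eq_div_iff (by positivity) (by positivity), ← Real.rpow_add (by positivity), one_mul,
      ← Real.rpow_natCast]
    norm_num
  rw [sum_congr rfl fun e he => show Real.log ((t ^ 2 * e : ℕ) : ℝ) = 2 * Real.log t + Real.log e by
    have := (mem_Icc.1 (mem_filter.1 he).1).1
    push_cast
    rw [Real.log_mul (by positivity) (by positivity), Real.log_pow]
    norm_num, sum_add_distrib, sum_const, nsmul_eq_mul, l3]
  have y0 : (0 : ℝ) ≤ n / t ^ 2 := by positivity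
  have a1 := mul_le_mul (hc.trans q0) l1 l0 y0
  have a2 := mul_le_mul q0 hs s0 y0
  have a3 := mul_le_mul_of_nonneg_left l2 (mul_nonneg y0 (s0.trans hs))
  calc _ ≤ (4 + 6 * S) * (n / t ^ 2 * (t : ℝ) ^ (1 / 2 : ℝ)) := by nlinarith
    _ = _ := by ring

end Sqs

open Classical in
theorem sqs (h1 : HT) (h2 : ONE) : SQS := by
  have hK := Real.summable_one_div_nat_rpow.2 (show (1 : ℝ) < 3 / 2 by norm_num)
  set K := ∑' t : ℕ, 1 / (t : ℝ) ^ (3 / 2 : ℝ) with hKd
  have K0 : 0 ≤ K := tsum_nonneg fun _ => by positivity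
  refine ⟨2 + 40 * K, by positivity, fun n hn => ?_⟩
  set B := (Icc 1 n).filter fun m => ∃ a b : ℕ, m = a ^ 2 + b ^ 2
  have n2 : (2 : ℝ) ≤ n := by exact_mod_cast hn
  have lg : 1 / 2 < Real.log n := by
    have := Real.log_le_log (by norm_num) n2
    linarith [Real.log_two_gt_d9]
  set r := Real.sqrt (Real.log n)
  have r2 : r ^ 2 = Real.log n := Real.sq_sqrt (by linarith)
  have r0 : 0 < r := Real.sqrt_pos.2 (by linarith)
  have r1 : 1 / 2 ≤ r := by nlinarith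
  have hS : ∑ m ∈ (Icc 1 n).filter Sqs.A, (1 : ℝ) / m ≤ 4 * r :=
    (Sqs.mass h2 (by omega)).trans (by
      have : Real.sqrt (1 + 2 * Real.log n) ≤ 2 * r :=
        Real.sqrt_le_iff.2 ⟨by positivity, by nlinarith⟩
      linarith)
  have sub : B ⊆ ((Icc 1 n).sigma fun t => (Icc 1 (n / t ^ 2)).filter Sqs.A).image
      fun x => x.1 ^ 2 * x.2 := fun m hm => by
    obtain ⟨u, v⟩ := mem_filter.1 hm
    obtain ⟨t, e, rfl, he⟩ := Nat.eq_sq_add_sq_iff_eq_sq_mul.1 v
    obtain ⟨u1, u2⟩ := mem_Icc.1 u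
    have t0 : 0 < t := Nat.pos_of_ne_zero fun z => by simp [z] at u1
    have e0 : 0 < e := Nat.pos_of_ne_zero fun z => by simp [z] at u1
    exact mem_image.2 ⟨⟨t, e⟩, mem_sigma.2 ⟨mem_Icc.2 ⟨t0, by nlinarith⟩, mem_filter.2
      ⟨mem_Icc.2 ⟨e0, (Nat.le_div_iff_mul_le (by positivity)).2 (by rwa [mul_comm])⟩, he⟩⟩, rfl⟩
  have s1 : ∑ m ∈ B, Real.log m ≤ (4 + 6 * (4 * r)) * n * K := by
    refine (sum_le_sum_of_subset_of_nonneg sub fun _ _ _ => Real.log_natCast_nonneg _).trans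
      ((sum_image_le_of_nonneg fun _ _ => Real.log_natCast_nonneg _).trans ?_)
    rw [sum_sigma]
    refine (sum_le_sum fun t ht => Sqs.slice h1 (mem_Icc.1 ht).1 hS).trans ?_
    rw [← mul_sum]
    exact mul_le_mul_of_nonneg_left (hK.sum_le_tsum _ fun _ _ => by positivity) (by positivity)
  have s2 : ∑ m ∈ B, (Real.log n - Real.log m) ≤ n :=
    (sum_le_sum_of_subset_of_nonneg (filter_subset _ _) fun m hm _ => by
      obtain ⟨u1, u2⟩ := mem_Icc.1 hm
      exact sub_nonneg.2 (Real.log_le_log (by exact_mod_cast u1) (by exact_mod_cast u2))).trans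
      (Sqs.fac n)
  rw [sum_sub_distrib, sum_const, nsmul_eq_mul, ← r2] at s2
  rw [le_div_iff₀ r0]
  refine le_of_mul_le_mul_right ?_ r0
  have a1 : 0 ≤ n * K * (r - 1 / 2) := by
    have := sub_nonneg.2 r1
    positivity
  have a2 : 0 ≤ n * (r - 1 / 2) := by
    have := sub_nonneg.2 r1
    positivity
  have a3 : 0 ≤ n * K * r := by positivity
  nlinarith

end Pool.Agent.MP_ddf486_co.KV
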