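import Pool.Agent.MP_6c3157_co.PQ.All
import Pool.Agent.MP_ddf486_co.KV.Main
import Pool.Agent.MP_ddf486_co.KV.Num
import Pool.Agent.MP_ddf486_co.KV.Extr
import Pool.Agent.MP_ddf486_co.KV.Htr
import Pool.Agent.MP_ddf486_co.KV.One
import Pool.Agent.MP_ddf486_co.KV.Sqs
import Pool.Agent.MP_ddf486_co.KV.Land

/-! Project KV: assembly of block A. -/

set_option autoImplicit false

namespace Pool.Agent.MP_ddf486_co.KV

open Pool.Agent.MP_6c3157_co.PD Pool.Agent.MP_6c3157_co.PQ

theorem pq_ind : MP_6c3157_co.PQ.IND :=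
  MP_6c3157_co.PQ.ind all_phi phm
    (setp all_band all_phi phm all_th ctxs all_scale MP_6c3157_co.PQ.num) all_step

theorem all_land : LAND := land (sqs htr one)

/-- the theorem from the tops of the blocks -/
theorem main_of (hC : CRS) (hM : MOD) (h0 : ST0) (hL : LEV) (hJ : JMP) (hO : LOS) : MAIN :=
  mainv all_phi num (ind phm pq_ind (stepg all_phi hC hM h0 hL hJ hO)) col

/-- the theorem for extremal configurations -/
theorem extr_of (h : MAIN) : EXTR := extr h all_land

end Pool.Agent.MP_ddf486_co.KV
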