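import Pool.Agent.MP_ddf486_co.KV.Kk
import Pool.Agent.MP_6c3157_co.PQ.Col

/-! Project KV: massive cells below the central radius carry little, and few edges have a large
height ball. -/

set_option autoImplicit false
set_option linter.unusedSectionVars false

noncomputable section

namespace Pool.Agent.MP_ddf486_co.KV

open Finset Pool.Agent.MP_6c3157_co.PD Pool.Agent.MP_6c3157_co.PQ Kk

variable {X PL : Type} [DecidableEq X] [Fintype PL] {s : Sys X PL} {Z : Finset X} {R : PL → ℝ}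
  {G rq : PL → X → ℝ} {W ε Λ ns u q : ℝ}

open Classical in
/-- the levels above the quantile radius are short on average -/
theorem al (u0 : 0 < u) (u1 : u ≤ 1 / 10 ^ 30) (q8 : 1 ≤ u ^ 8 * q) (hs : s.Good)
    (hC : Cen s Z R G W ε) (he : ε ≤ u ^ 10)
    (hK : Conc s R Z W ε Λ ns) (hΛ : 2 ≤ Λ) (hn : ns ≤ Z.card) (n1 : q ^ 100 ≤ Z.card)
    (hR : ∀ p, R p ≤ (s.c p).rhi)
    (hi : ∀ p, ∀ y ∈ Z, (Z.card : ℝ) ≤ q ^ 50 * ((s.c p).ball Z y (rq p y)).card)
    (blk : ∀ V ⊆ Z, u ^ 7 * Z.card ≤ 30 * V.card → ∃ x ∈ V, ∃ y ∈ V, x ≠ y ∧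
      q ^ 61 < (V.filter fun z => ht s x y z ≤ u ^ 8 * W).card) :
    ∑ x ∈ Z, ∑ y ∈ Z.erase x, lm2 s R rq x y ≤ u ^ 7 * W * (Z.card : ℝ) ^ 2 := by
  obtain ⟨W0, W1, W2⟩ := W_facts hC
  have qb : (10 : ℝ) ^ 30 ≤ q := by
    have a : u ^ 8 ≤ u := pow_le_of_le_one u0.le (by linarith) (by norm_num)
    have b : 0 < q := (pos_iff_pos_of_mul_pos (one_pos.trans_le q8)).1 (pow_pos u0 8)
    nlinarith
  have q1 : (1 : ℝ) ≤ q := le_trans (by norm_num) qb
  set n : ℝ := (Z.card : ℝ) with hn'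
  set Q : ℝ := q ^ 50 with hQ
  have Q1 : q ≤ Q := le_self_pow₀ q1 (by norm_num)
  have Q0 : 0 < Q := by linarith
  have nQ : Q * Q ≤ n := by rw [hQ, ← pow_add]; exact n1
  have n0 : 0 < n := by nlinarith
  have a4 : 4 ≤ n / Q := (le_div_iff₀ Q0).2 (by nlinarith)
  set v : ℝ := u ^ 7 with hv
  have v0 : 0 < v := pow_pos u0 _
  have e8 : u ^ 8 = u * v := by rw [hv]; ring
  have e10 : ε ≤ u * (u * (u * v)) := he.trans (le_of_eq (by rw [hv]; ring))
  have uv : u * v ≤ v / 10 ^ 30 := by nlinarith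
  have uv0 : 0 < u * v := mul_pos u0 v0
  have uuv : u * (u * v) ≤ u * v / 10 ^ 30 := by nlinarith
  have ev : ε ≤ u * v / 10 ^ 30 := by nlinarith
  have eW : ε * W ≤ u * v * W / 10 ^ 30 := by nlinarith
  have uW : u * v * W ≤ v * W / 10 ^ 30 := by nlinarith
  rw [e8] at q8 blk
  set k := kk s (hc s R Z (n / Q)) with hk
  set M := ∑ z ∈ Z, ∑ w ∈ Z, k z w with hM
  have low1 : ∀ x ∈ Z, ∀ y ∈ Z.erase x, lm2 s R rq x y ≤ 4 * k x y + 40 := fun x hx y hy => by
    have m := (ne_of_mem_erase hy).symm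
    have : lm2 s R rq x y ≤ _ := ht_sum hs (g := fun p => 4 * (s.c p).W fun i =>
      hc s R Z (n / Q) p i ∧ x ∈ i.2 ∧ y ∈ i.2) 2 zero_le_two fun p => by
        have g := hs.good p
        refine le_trans ?_ (low g x (b := max ((s.c p).d x y) (rq p x))
          ((g.d_lo x y m).trans (le_max_left _ _)) (hC.R_pos p) (hR p) fun i _ h1 h2 h3 =>
            ⟨⟨h2, (div_le_iff₀' Q0).2 ((hi p x hx).trans (mul_le_mul_of_nonneg_left
              (Nat.cast_le.2 (card_le_card fun z hz => mem_inter.2 ⟨(Cells.mem_ball.1 hz).1,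
                h3 z ((Cells.mem_ball.1 hz).2.trans (le_max_right _ _))⟩)) Q0.le))⟩,
              h1, h3 y (le_max_left _ _)⟩)
        rcases le_total ((s.c p).d x y) (rq p x) with l | l
        · rw [max_eq_right l]; exact min_le_right _ _
        · rw [max_eq_left l]; exact min_le_left _ _
    simp only [mul_left_comm _ (4 : ℝ), ← mul_sum] at this
    exact this.trans (by norm_num; rfl)
  have low2 : ∑ x ∈ Z, ∑ y ∈ Z.erase x, lm2 s R rq x y ≤ 4 * M + 40 * n ^ 2 := by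
    refine (sum_le_sum fun x hx => (sum_le_sum (low1 x hx)).trans
      (sum_le_sum_of_subset_of_nonneg (erase_subset x Z) fun y _ _ =>
        add_nonneg (mul_nonneg zero_le_four (kk_nonneg hs _ _ _)) (by norm_num))).trans ?_
    simp only [sum_add_distrib, sum_const, nsmul_eq_mul, ← mul_sum]
    exact le_of_eq (by ring)
  by_contra con
  have n2 : 0 < n ^ 2 := by positivity
  have M1 : v * W * n ^ 2 ≤ 5 * M := by
    have : 40 * n ^ 2 ≤ v * W / 5 * n ^ 2 := mul_le_mul_of_nonneg_right (by linarith) n2.le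
    linarith [not_le.1 con]
  have M0 : 0 < M := by have := mul_pos (mul_pos v0 W0) n2; linarith
  let V := Z.filter fun z => M / (2 * n) ≤ ∑ w ∈ Z, k z w
  have hV : M ≤ V.card * (3 * W * n) + M / 2 := by
    have e := sum_filter_add_sum_filter_not Z (fun z => M / (2 * n) ≤ ∑ w ∈ Z, k z w)
      fun z => ∑ w ∈ Z, k z w
    have k1 := sum_le_card_nsmul V _ (3 * W * n) fun z hz => kk_row hs hC a4 (mem_filter.1 hz).1
    have k2 := sum_le_card_nsmul (Z.filter fun z => ¬ M / (2 * n) ≤ ∑ w ∈ Z, k z w) _ (M / (2 * n))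
      fun z hz => (not_le.1 (mem_filter.1 hz).2).le
    rw [nsmul_eq_mul] at k1 k2
    have k3 : ((Z.filter fun z => ¬ M / (2 * n) ≤ ∑ w ∈ Z, k z w).card : ℝ) * (M / (2 * n)) ≤
        n * (M / (2 * n)) := mul_le_mul_of_nonneg_right (Nat.cast_le.2 (card_filter_le _ _))
          (by positivity)
    have k4 : n * (M / (2 * n)) = M / 2 := by field_simp
    linarith
  obtain ⟨x, hx, y, hy, m, hU⟩ := blk V (filter_subset _ _)
    (le_of_mul_le_mul_right (a := W * n) (by nlinarith) (mul_pos W0 n0))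
  set U := V.filter fun z => ht s x y z ≤ u * v * W with hU'
  have U1 : Q * (4 * q) ≤ U.card := by
    refine le_trans ?_ hU.le
    have : q ^ 61 = Q * (q ^ 10 * q) := by rw [hQ]; ring
    rw [this]
    exact mul_le_mul_of_nonneg_left (mul_le_mul_of_nonneg_right
      (le_trans (by linarith) (le_self_pow₀ q1 (by norm_num))) (by linarith)) Q0.le
  have U0 : (0 : ℝ) < U.card := lt_of_lt_of_le (by positivity) U1
  obtain ⟨S, S1, S2⟩ := core hs hC hK hΛ hn (show 2 ≤ n / Q by linarith) (mem_filter.1 hx).1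
    (mem_filter.1 hy).1 m ((filter_subset _ _).trans (filter_subset _ _) : U ⊆ Z)
    (t := u * v * W) (by linarith) (fun z hz => (mem_filter.1 hz).2) (by
      have e : u * v * W * (n / Q) * (Q * (4 * q)) = 4 * W * n * (u * v * q) := by
        field_simp
      refine le_trans ?_ (mul_le_mul_of_nonneg_left U1 (by positivity))
      rw [e]
      exact le_mul_of_one_le_right (by positivity) q8)
  have S3 := card_nsmul_le_sum U _ (M / (2 * n)) fun z hz => (mem_filter.1 (mem_filter.1 hz).1).2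
  rw [nsmul_eq_mul] at S3
  obtain ⟨μ, hμ⟩ : ∃ μ, M = μ * n := ⟨M / n, by field_simp⟩
  have μ1 : v * W * n ≤ 5 * μ := le_of_mul_le_mul_right (by rw [hμ] at M1; nlinarith) n0
  have e2 : M / (2 * n) = μ / 2 := by rw [hμ]; field_simp
  have nv : 100 ≤ v * n := by
    have : q * q ≤ n := (mul_le_mul Q1 Q1 (by linarith) Q0.le).trans nQ
    have : 1 ≤ v * q := by nlinarith
    nlinarith
  have S4 : 10 * ε * W * n + 2 * W ≤ μ / 4 := by
    have := mul_le_mul_of_nonneg_right (eW.trans (div_le_div_of_nonneg_right uW (by norm_num))) n0.le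
    have := mul_le_mul_of_nonneg_left nv W0.le
    have := mul_pos (mul_pos v0 W0) n0
    linarith
  have μ0 : 0 < μ := by have := mul_pos (mul_pos v0 W0) n0; linarith
  have S5 : U.card * (μ / 4) ≤ S := by
    have := mul_le_mul_of_nonneg_left S4 U0.le
    rw [e2] at S3
    linarith
  have S6 := (pow_le_pow_left₀ (by positivity) S5 2).trans S1
  rw [← hk, ← hM, hμ] at S6
  have S7 : μ ≤ 96 * (u * v * W) * n :=
    le_of_mul_le_mul_right (a := (U.card : ℝ) ^ 2 * μ) (by nlinarith) (by positivity)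
  have := mul_le_mul_of_nonneg_right uW n0.le
  have := mul_pos (mul_pos v0 W0) n0
  linarith

open Classical in
/-- an edge with a large height ball lies in many massive cells -/
theorem big_edge (hs : s.Good) (hC : Cen s Z R G W ε) (hR : ∀ p, R p ≤ (s.c p).rhi) {a t : ℝ}
    {x y : X} (hx : x ∈ Z) (hy : y ∈ Z) (m : x ≠ y) (ha : 0 < a)
    (hB : 2 * a ≤ (Z.filter fun z => ht s x y z ≤ t).card) :
    W / 4 - 2 * t - 130 ≤ kk s (hc s R Z a) x y := by
  set B := Z.filter fun z => ht s x y z ≤ t with hB'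
  have B0 : (0 : ℝ) < B.card := by linarith
  obtain ⟨d, -, -, -⟩ := depS X PL s Z R G W ε hs hC x hx y hy m
  have k1 : ∑ p, s.m p * dep s R p x y ≤ _ := ht_sum hs (g := fun p => 4 * ((s.c p).W (fun i =>
      hc s R Z a p i ∧ x ∈ i.2 ∧ y ∈ i.2) + (s.c p).W fun i =>
        x ∈ i.2 ∧ y ∈ i.2 ∧ ((Z ∩ i.2).card : ℝ) < a)) 2 zero_le_two fun p => by
    have g := hs.good p
    have k := low g x (g.d_lo x y m) (hC.R_pos p) (hR p)
      (φ := fun i => (s.c p).ρ i < R p ∧ x ∈ i.2 ∧ y ∈ i.2) fun i _ h1 h2 h3 => ⟨h2, h1, h3 y le_rfl⟩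
    have k' := Cells.W_le_add g (φ := fun i => (s.c p).ρ i < R p ∧ x ∈ i.2 ∧ y ∈ i.2)
      (ψ := fun i => hc s R Z a p i ∧ x ∈ i.2 ∧ y ∈ i.2)
      (χ := fun i => x ∈ i.2 ∧ y ∈ i.2 ∧ ((Z ∩ i.2).card : ℝ) < a) fun i _ hi => by
        rcases le_or_gt a (Z ∩ i.2).card with l | l
        exacts [.inl ⟨⟨hi.1, l⟩, hi.2⟩, .inr ⟨hi.2.1, hi.2.2, l⟩]
    have : dep s R p x y ≤ _ := (le_max_right _ _).trans k
    linarith
  simp only [mul_left_comm _ (4 : ℝ), ← mul_sum, mul_add, sum_add_distrib] at k1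
  have k2 : B.card / 2 * ∑ p, s.m p * (s.c p).W (fun i =>
      x ∈ i.2 ∧ y ∈ i.2 ∧ ((Z ∩ i.2).card : ℝ) < a) ≤
      ∑ z ∈ B, ∑ p, s.m p * (s.c p).W fun i => x ∈ i.2 ∧ y ∈ i.2 ∧ z ∉ i.2 := by
    rw [sum_comm, mul_sum]
    refine sum_le_sum fun p _ => ?_
    rw [← mul_sum, mul_left_comm]
    refine mul_le_mul_of_nonneg_left ?_ (hs.m_lo p)
    have e := Cells.sum_W_not (c := s.c p) (φ := fun i => x ∈ i.2 ∧ y ∈ i.2) B
    simp only [and_assoc] at e
    rw [e, ← Cells.WS_const]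
    refine Cells.WS_mono (hs.good p) (fun i _ hi => ⟨⟨hi.1, hi.2.1⟩, ?_⟩)
      fun _ _ _ => Nat.cast_nonneg _
    have c1 : ((B \ i.2).card : ℝ) + (B ∩ i.2).card = B.card := by
      exact_mod_cast card_sdiff_add_card_inter B i.2
    have c2 : ((B ∩ i.2).card : ℝ) ≤ (Z ∩ i.2).card :=
      Nat.cast_le.2 (card_le_card (inter_subset_inter_right (filter_subset _ _)))
    linarith [hi.2.2]
  have k3 := k2.trans (sum_le_card_nsmul B _ (t + 60) fun z hz =>
    (miss_sum hs m z).trans (add_le_add (mem_filter.1 hz).2 le_rfl))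
  rw [nsmul_eq_mul] at k3
  have k4 : ∑ p, s.m p * (s.c p).W (fun i => x ∈ i.2 ∧ y ∈ i.2 ∧ ((Z ∩ i.2).card : ℝ) < a) ≤
      2 * (t + 60) := le_of_mul_le_mul_left (by linarith) B0
  unfold kk
  linarith

open Classical in
/-- few edges have a large height ball -/
theorem big (u0 : 0 < u) (u1 : u ≤ 1 / 10 ^ 30) (hs : s.Good) (hC : Cen s Z R G W ε)
    (he : ε ≤ u ^ 10) (hK : Conc s R Z W ε Λ ns) (hΛ : 2 ≤ Λ) (hn : ns ≤ Z.card)
    (n1 : 1 ≤ u ^ 50 * Z.card)
    (hR : ∀ p, R p ≤ (s.c p).rhi) :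
    2 * (ed Z fun x y =>
      Z.card ^ 9 < (Z.filter fun z => ht s x y z ≤ u ^ 4 * W).card ^ 10 : ℝ) ≤
    u * (Z.card : ℝ) ^ 2 := by
  obtain ⟨W0, W1, W2⟩ := W_facts hC
  obtain ⟨ν, ν0, hν⟩ : ∃ ν : ℝ, 0 ≤ ν ∧ ν ^ 10 = Z.card :=
    ⟨(Z.card : ℝ) ^ ((10 : ℕ)⁻¹ : ℝ), by positivity,
      Real.rpow_inv_natCast_pow (Nat.cast_nonneg _) (by norm_num)⟩
  have νq : 1 ≤ u ^ 5 * ν := le_of_pow_le_pow_left₀ (n := 10) (by norm_num) (by positivity)
    (by rw [mul_pow, ← pow_mul, hν, one_pow]; exact n1)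
  have uν : 10 ^ 30 ≤ u ^ 4 * ν := by
    have : u ^ 5 * ν = u * (u ^ 4 * ν) := by ring
    nlinarith [mul_nonneg (pow_pos u0 4).le ν0]
  have ν2 : (10 : ℝ) ^ 30 ≤ ν :=
    uν.trans (mul_le_of_le_one_left ν0 (pow_le_one₀ u0.le (by linarith)))
  have ν3 : 1 ≤ ν := by linarith
  have νp : 0 < ν := by linarith
  set n : ℝ := (Z.card : ℝ) with hn'
  have n0 : 0 < n := hν ▸ pow_pos νp 10
  have uu : u * u ≤ u / 10 ^ 30 := by nlinarith
  have u2 : u ^ 4 ≤ u * u / 10 ^ 30 := by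
    have : u * u ≤ 1 / 10 ^ 30 := by linarith
    nlinarith [mul_pos u0 u0]
  have u3 : ε ≤ u ^ 4 / 10 ^ 30 := by
    have a : u ^ 6 ≤ u := pow_le_of_le_one u0.le (by linarith) (by norm_num)
    have b : u ^ 10 = u ^ 4 * u ^ 6 := by ring
    nlinarith [pow_pos u0 4]
  set t := u ^ 4 * W with ht'
  have t0 : 0 < t := mul_pos (pow_pos u0 4) W0
  have t1 : t ≤ u * u * W / 10 ^ 30 := by nlinarith
  have t2 : u * u * W ≤ u * W / 10 ^ 30 := by nlinarith
  have t3 : u * W ≤ W / 10 ^ 30 := by nlinarith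
  have t4 : ε * W ≤ t / 10 ^ 30 := by nlinarith
  have uν' : 10 ^ 30 ≤ u * ν :=
    uν.trans (mul_le_mul_of_nonneg_right (by linarith) ν0)
  let H : X → X → Prop := fun x y => Z.card ^ 9 < (Z.filter fun z => ht s x y z ≤ t).card ^ 10
  have hH : ∀ x y, H x y → ν ^ 9 < (Z.filter fun z => ht s x y z ≤ t).card := fun x y h =>
    lt_of_pow_lt_pow_left₀ 10 (Nat.cast_nonneg _) (by
      rw [← pow_mul, mul_comm, pow_mul, hν, hn']
      exact_mod_cast h)
  have p5 : 4 ≤ ν ^ 5 := le_trans (by linarith) (le_self_pow₀ ν3 (by norm_num))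
  have p9 : 2 * ν ^ 5 ≤ ν ^ 9 := by
    have : 2 ≤ ν ^ 4 := le_trans (by linarith) (le_self_pow₀ ν3 (by norm_num))
    nlinarith
  let k := kk s (hc s R Z (ν ^ 5))
  let D := Z.filter fun y => u / 4 * n ≤ ((Z.erase y).filter fun x => H x y).card
  have row : ∀ y ∈ D, u * W * n / 20 ≤ ∑ w ∈ Z, k y w := fun y hy => by
    obtain ⟨yZ, hy⟩ := mem_filter.1 hy
    have a := card_nsmul_le_sum ((Z.erase y).filter fun x => H x y) (k y) (W / 5) fun x hx => by
      obtain ⟨h1, h2⟩ := mem_filter.1 hx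
      have := big_edge hs hC hR (mem_of_mem_erase h1) yZ (ne_of_mem_erase h1) (pow_pos νp 5)
        (p9.trans (hH x y h2).le)
      rw [(kk_gram hs _).symm] at this
      change _ ≤ kk s _ y x
      linarith
    rw [nsmul_eq_mul] at a
    have b : ∑ x ∈ (Z.erase y).filter fun x => H x y, k y x ≤ ∑ w ∈ Z, k y w :=
      sum_le_sum_of_subset_of_nonneg ((filter_subset _ _).trans (erase_subset _ _))
        fun w _ _ => kk_nonneg hs _ _ _
    nlinarith
  have few : ∀ x ∈ Z, ∀ z ∈ Z.erase x, ((D.filter fun y => ht s x z y ≤ t).card : ℝ) ≤ ν ^ 8 := by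
    intro x hx z hz
    by_contra con
    set U := D.filter fun y => ht s x z y ≤ t
    have U1 := (not_le.1 con).le
    have U0 : (0 : ℝ) < U.card := lt_of_lt_of_le (by positivity) U1
    obtain ⟨S, S1, S2⟩ := core hs hC hK hΛ hn (show 2 ≤ ν ^ 5 by linarith) hx (mem_of_mem_erase hz)
      (ne_of_mem_erase hz).symm ((filter_subset _ _).trans (filter_subset _ _) : U ⊆ Z) (t := t)
      (by linarith) (fun z hz => (mem_filter.1 hz).2) (by
        refine le_trans ?_ (mul_le_mul_of_nonneg_left U1 (by positivity))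
        have e : t * ν ^ 5 * ν ^ 8 = W * ν ^ 10 * (u ^ 4 * ν * ν ^ 2) := by rw [ht']; ring
        have : 4 ≤ u ^ 4 * ν * ν ^ 2 := by nlinarith [one_le_pow₀ (n := 2) ν3]
        rw [e, hν, ← hn']
        nlinarith [mul_pos W0 n0])
    have S3 := card_nsmul_le_sum U _ _ fun y hy => row y (mem_filter.1 hy).1
    have S0 := sum_le_card_nsmul Z _ _ fun y hy => kk_row hs hC p5 hy
    rw [nsmul_eq_mul] at S3 S0
    have nu : 10 ^ 30 ≤ u * n := uν'.trans (mul_le_mul_of_nonneg_left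
      (hν ▸ le_self_pow₀ ν3 (by norm_num)) u0.le)
    have S4 : 10 * ε * W * n + 2 * W ≤ u * W * n / 40 := by
      have := mul_le_mul_of_nonneg_right (show ε * W ≤ u * W / 10 ^ 30 by linarith) n0.le
      have := mul_le_mul_of_nonneg_left nu W0.le
      linarith
    have S5 : U.card * (u * W * n / 40) ≤ S := by
      have := mul_le_mul_of_nonneg_left S4 U0.le
      linarith
    have S6 := ((pow_le_pow_left₀ (by positivity) S5 2).trans S1).trans
      (mul_le_mul_of_nonneg_left S0 (by positivity))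
    have S7 : u * u * W ≤ 28800 * t :=
      le_of_mul_le_mul_right (a := (U.card : ℝ) ^ 2 * n ^ 2 * W) (by rw [← hn'] at S6; nlinarith)
        (by positivity)
    have := mul_pos (mul_pos u0 u0) W0
    linarith
  have cnt : ν ^ 9 / 2 * ∑ x ∈ Z, (((Z.erase x).filter fun y => H x y ∧ y ∈ D).card : ℝ) ≤
      n * (n * ν ^ 8) := by
    rw [mul_sum]
    refine (sum_le_card_nsmul Z _ (n * ν ^ 8) fun x hx => ?_).trans (by rw [nsmul_eq_mul])
    have a := card_nsmul_le_sum ((Z.erase x).filter fun y => H x y ∧ y ∈ D)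
      (fun y => ∑ z ∈ Z.erase x, if ht s x z y ≤ t then (1 : ℝ) else 0) (ν ^ 9 / 2) fun y hy => by
        obtain ⟨h1, h2⟩ := mem_filter.1 hy
        have c : (Z.filter fun z => ht s x y z ≤ t).card ≤
            ((Z.erase x).filter fun z => ht s x z y ≤ t).card + 1 :=
          (card_le_card fun z hz => by
            by_cases e : z = x
            · exact e ▸ mem_insert_self _ _
            · refine mem_insert_of_mem (mem_filter.2 ⟨mem_erase.2 ⟨e, (mem_filter.1 hz).1⟩, ?_⟩)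
              rw [ht_symm hs (Ne.symm e) (ne_of_mem_erase h1).symm]
              exact (mem_filter.1 hz).2).trans (card_insert_le x _)
        have c' : ((Z.filter fun z => ht s x y z ≤ t).card : ℝ) ≤
            ((Z.erase x).filter fun z => ht s x z y ≤ t).card + 1 := by exact_mod_cast c
        rw [sum_boole]
        linarith [hH x y h2.1]
    rw [nsmul_eq_mul, sum_comm] at a
    have b := sum_le_card_nsmul (Z.erase x) (fun z => ∑ y ∈ (Z.erase x).filter fun y => H x y ∧ y ∈ D,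
        if ht s x z y ≤ t then (1 : ℝ) else 0) (ν ^ 8) fun z hz => by
      refine le_trans ?_ (few x hx z hz)
      rw [← sum_boole]
      exact sum_le_sum_of_subset_of_nonneg (fun y hy => (mem_filter.1 hy).2.2)
        fun _ _ _ => by split_ifs <;> norm_num
    rw [nsmul_eq_mul, cast_card_erase_of_mem hx] at b
    nlinarith [pow_pos νp 8]
  have c1 : ∑ x ∈ Z, (((Z.erase x).filter fun y => H x y ∧ y ∈ D).card : ℝ) ≤ u / 4 * n ^ 2 := by
    refine le_of_mul_le_mul_left (cnt.trans ?_) (show 0 < ν ^ 9 / 2 by positivity)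
    have e : ν ^ 9 / 2 * (u / 4 * n ^ 2) = n * (n * ν ^ 8) * (u * ν / 8) := by ring
    rw [e]
    exact le_mul_of_one_le_right (by positivity) (by linarith)
  have c2 : ∑ x ∈ Z, (((Z.erase x).filter fun y => H x y ∧ y ∉ D).card : ℝ) ≤ u / 4 * n ^ 2 := by
    simp only [← sum_boole]
    rw [sum_erase_comm]
    refine (sum_le_card_nsmul Z _ (u / 4 * n) fun y hy => ?_).trans
      (by rw [nsmul_eq_mul]; exact le_of_eq (by ring))
    by_cases l : y ∈ D
    · simp only [l, not_true, and_false, if_false, sum_const_zero]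
      positivity
    · have := (not_le.1 fun h => l (mem_filter.2 ⟨hy, h⟩)).le
      rw [← sum_boole] at this
      refine le_trans (le_of_eq (sum_congr rfl fun x _ => ?_)) this
      by_cases h : H x y <;> simp [h, l]
  have c3 : (ed Z H : ℝ) = ∑ x ∈ Z, ((((Z.erase x).filter fun y => H x y ∧ y ∈ D).card : ℝ) +
      ((Z.erase x).filter fun y => H x y ∧ y ∉ D).card) := by
    rw [ed_eq_sum]
    refine sum_congr rfl fun x _ => ?_
    simp only [← sum_boole, ← sum_add_distrib]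
    refine sum_congr rfl fun y _ => ?_
    by_cases h1 : H x y <;> by_cases h2 : y ∈ D <;> simp [h1, h2]
  rw [sum_add_distrib] at c3
  change 2 * (ed Z H : ℝ) ≤ _
  linarith

end Pool.Agent.MP_ddf486_co.KV
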