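import Pool.Agent.MP_ddf486_co.KV.Defs
import Pool.Agent.MP_6c3157_co.PQ.SpecB
import Pool.Agent.MP_6c3157_co.PQ.SpecJ

/-! Project KV, block B: the coarse stage, the height balls and the curves. -/

set_option autoImplicit false
set_option linter.unusedSectionVars false

noncomputable section

namespace Pool.Agent.MP_ddf486_co.KV

open Finset Pool.Agent.MP_6c3157_co.PD Pool.Agent.MP_6c3157_co.PQ

section defs

variable {X PL : Type} [DecidableEq X] [Fintype PL]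

open Classical in
/-- the clean model with its geometric data -/
structure Co (s : Sys X PL) (hv : ℕ × Finset X → Prop) (Z : Finset X) (R L : PL → ℝ)
    (G : PL → X → ℝ) (cn : PL → X) (W ε ns T : ℝ) : Prop where
  good : s.Good
  cln : Cln s hv Z R L G W ε (1 / ε) ns T
  R_lo : ∀ p, 256 * (s.c p).rlo ≤ R p
  R_hi : ∀ p, R p ≤ (s.c p).rhi
  G_eq : ∀ p y, G p y = max 0 (Real.log ((s.c p).d y (cn p) / R p))
  cn_in : ∀ p, 10 ^ 6 * (Z.filter fun x => R p < (s.c p).d (cn p) x).card ≤ Z.card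
  mass : ∀ p, ∀ y ∈ Z,
    10 ^ 6 * (Z.filter fun x => (s.c p).d y x < R p * Real.exp (-L p)).card ≤ Z.card

open Classical in
/-- the height ball of the edge `x, y` in `V` -/
def hb (s : Sys X PL) (V : Finset X) (t : ℝ) (x y : X) : Finset X :=
  V.filter fun z => ht s x y z ≤ t

/-- few edges have a small height ball, in every subset -/
def Sml (s : Sys X PL) (Z : Finset X) (t a b : ℝ) : Prop :=
  ∀ V ⊆ Z, (ed V fun x y => ((hb s V t x y).card : ℝ) ≤ a : ℝ) ≤ b * (Z.card : ℝ) ^ 2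

/-- weight of the low cells with at least `h` points of `Z` through `x` and `y` -/
def Oh (s : Sys X PL) (Z : Finset X) (R L : PL → ℝ) (h : ℝ) (x y : X) : ℝ :=
  ∑ p, s.m p * (s.c p).W fun i =>
    (s.c p).ρ i < bet s R L p ∧ h ≤ ((Z ∩ i.2).card : ℝ) ∧ x ∈ i.2 ∧ y ∈ i.2

/-- its mean over the second point -/
def ah (s : Sys X PL) (Z : Finset X) (R L : PL → ℝ) (h : ℝ) (x : X) : ℝ :=
  (∑ w ∈ Z, Oh s Z R L h x w) / Z.card

/-- weight of the low cells through three points -/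
def O3 (s : Sys X PL) (R L : PL → ℝ) (x y w : X) : ℝ :=
  ∑ p, s.m p * (s.c p).W fun i => (s.c p).ρ i < bet s R L p ∧ x ∈ i.2 ∧ y ∈ i.2 ∧ w ∈ i.2

/-- quantile radii at the mass `a` -/
structure Rq (s : Sys X PL) (Z : Finset X) (rq : PL → X → ℝ) (a : ℝ) : Prop where
  mem : ∀ p, ∀ y ∈ Z, ∃ b ∈ Z, b ≠ y ∧ rq p y = (s.c p).d y b
  inn : ∀ p, ∀ y ∈ Z, (Z.card : ℝ) ≤ a * ((s.c p).ball Z y (rq p y)).card
  min : ∀ p, ∀ y ∈ Z, ∀ t < rq p y, a * ((s.c p).ball Z y t).card < Z.card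

end defs

/-- the curves behind the classes -/
def Crv {X PL K : Type} [Field K] (A : Ari X PL K) (C : Finset (Finset X)) (β : Finset X → ℕ) :
    Prop :=
  ∀ P ∈ C, ∃ f : MvPolynomial (Fin 2) K, Irreducible f ∧ bd f = β P ∧ ∀ z ∈ P, A.ev f z = 0

/-! ### the coarse stage -/

/-- the band with a free share -/
def BANDR : Prop :=
  ∀ (X PL : Type) [DecidableEq X] [Fintype PL] (s : Sys X PL) (Q : Finset X) (k : ℕ), s.Good →
    0 < k → 8 * k ≤ Q.card → 2 * Zs s.lab Q < k * (k - 1) →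
    ∃ Y ⊆ Q, Y.card + 2 * k = Q.card ∧ ∃ (h : X → ℝ) (T : ℝ), Ctx s (heavy Q) Y h T

/-- the clean model with its geometric data -/
def CLNX : Prop :=
  ∀ (X PL : Type) [DecidableEq X] [Fintype PL] (s : Sys X PL) (hv : ℕ × Finset X → Prop)
    (Y Y₁ : Finset X) (h : X → ℝ) (T η ε σ₀ ns : ℝ), Ctx s hv Y h T →
    ∑ p, s.m p * (s.c p).eta ≤ η → 0 < ε → ε ≤ 1 / 10 ^ 20 → η ≤ ε ^ 10 →
    7 ≤ ε ^ 29 * Y.card → Y₁ ⊆ Y → 3 * Y.card ≤ 4 * Y₁.card →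
    EQ s hv Y Y₁ σ₀ (ε ^ 60 * T) ns → σ₀ ≤ ε ^ 29 → 1 ≤ ε ^ 62 * ns →
    ∃ (At : X → Finset X) (Lo : Finset X), (∀ y ∈ Y, ((At y).card : ℝ) < ns) ∧
      (Lo.card : ℝ) < ns ∧
      ∀ (ok : X → X → Prop) (C : X → X → Finset X) (l : ℝ), 1 ≤ ε ^ 60 * l →
        Sub s.lab Y (Y₁ \ Lo) At ok C (ε ^ 15) (ε ^ 20) l (3 * ε ^ 15) →
        ∃ Z ⊆ Y₁, ((Y₁ \ Z).card : ℝ) ≤ 10 ^ 8 * ε * Y.card ∧
          ∃ (R L : PL → ℝ) (G : PL → X → ℝ) (cn : PL → X) (W : ℝ), Co s hv Z R L G cn W ε ns T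

/-- the coarse stage on a large subset -/
def COA : Prop :=
  ∀ (N : Nb) (X PL K : Type) [DecidableEq X] [Fintype PL] [Field K] (s : Sys X PL)
    (A : Ari X PL K) (η : ℝ) (Q V : Finset X), N.Good → Hyp N s A η Q → V ⊆ Q →
    N.u ^ 3 * Q.card ≤ V.card →
    ∃ Z ⊆ V, (1 - N.u) * V.card ≤ Z.card ∧ ∃ (hv : ℕ × Finset X → Prop) (R L : PL → ℝ)
      (G : PL → X → ℝ) (cn : PL → X) (W T : ℝ),
      Co s hv Z R L G cn W (N.u ^ 470) (Q.card / (N.q : ℝ) ^ 90) T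

/-! ### the classes -/

/-- the classes with their curves, and their restrictions -/
def CLS3 : Prop :=
  ∀ (X PL K : Type) [DecidableEq X] [Field K] (A : Ari X PL K), Function.Injective A.U →
    Function.Injective A.V → ∀ (Q : Finset X) (b : ℕ) (ν : ℝ), 2 ≤ ν →
    ∃ (C : Finset (Finset X)) (β : Finset X → ℕ), Cls2 A Q b ν C β ∧ Crv A C β ∧
      Cls2 A (Q \ C.biUnion id) b ν ∅ β ∧ ∀ C' ⊆ C, Cls2 A (C'.biUnion id) b ν C' β

/-- the heaviest band of ratios -/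
def BND : Prop :=
  ∀ (ι : Type) (C : Finset ι) (a b : ι → ℝ) (lo hi : ℝ), 0 < lo → lo ≤ hi →
    (∀ i ∈ C, 0 < b i ∧ lo * b i ≤ a i ∧ a i ≤ hi * b i) →
    ∃ C' ⊆ C, ∑ i ∈ C, a i ≤ (Real.log (hi / lo) + 1) * ∑ i ∈ C', a i ∧
      (∑ i ∈ C', a i ^ 2 / b i) * (∑ i ∈ C', b i) ≤ 3 * (∑ i ∈ C', a i) ^ 2

open Classical in
/-- triples with a hot base, off curves and on the band -/
def FT : Prop :=
  ∀ (X PL K : Type) [DecidableEq X] [Field K] (A : Ari X PL K) (Z : Finset X)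
    (H : X → X → Prop) (k : ℝ), 0 ≤ k →
    (∀ y ∈ Z, ∀ z ∈ Z, y ≠ z → ((Z.filter fun x => A.bis x y z).card : ℝ) ≤ k) →
    (A.tb Z Z H : ℝ) ≤ k * ed Z H ∧
    ∀ (C : Finset (Finset X)) (β : Finset X → ℕ) (b : ℕ) (ν k₁ M n D : ℝ),
      Cls2 A (C.biUnion id) b ν C β → Z ⊆ C.biUnion id → Cnt A Z C β H k₁ M n →
      ∑ P ∈ C, (P.card : ℝ) ≤ n →
      (∑ P ∈ C, (P.card : ℝ) ^ 2 / β P) * (∑ P ∈ C, (β P : ℝ)) ≤ D →
      (A.tb Z Z H : ℝ) ≤ 14 * k * n ^ 2 / k₁ + 2 * M * D + k * C.card * Z.card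

/-! ### height balls -/

/-- the thinning argument -/
def BLK : Prop :=
  ∀ (X PL : Type) [DecidableEq X] [Fintype PL] (s : Sys X PL) (hv : ℕ × Finset X → Prop)
    (Z V : Finset X) (R L : PL → ℝ) (G : PL → X → ℝ) (W ε Λ ns T v t a φ κ : ℝ) (j : ℕ)
    (col : X → X → Fin 3), s.Good → Cln s hv Z R L G W ε Λ ns T →
    Clus s R Z col (2 * v ^ 2 * W) → 0 < v → v ≤ 1 / 5 → ε ≤ v ^ 2 → V ⊆ Z →
    2 * v ^ 2 * W ≤ t → 100 * ε * W ≤ t → t ≤ W → 250 * v * j ≤ 1 → 0 ≤ a →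
    a * (1 - t / (8 * W)) ^ j ≤ 1 / 10 → 0 ≤ φ → 1 ≤ κ →
    (∀ S ⊆ V, (S.card : ℝ) ≤ a → φ * Pr S ≤ Phi s.lab κ S) →
    φ * (ed V fun x y => ((hb s V (10 * t) x y).card : ℝ) ≤ a : ℝ) ≤
      2 * ((∑ x ∈ Z, ((jk col Z x).card : ℝ)) + 2 * Phi s.lab κ Z)

/-- few hot triples give few small height balls -/
def SML : Prop :=
  ∀ (N : Nb) (X PL K : Type) [DecidableEq X] [Fintype PL] [Field K] (s : Sys X PL)
    (A : Ari X PL K) (η : ℝ) (Q Z : Finset X) (hv : ℕ × Finset X → Prop) (R L : PL → ℝ)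
    (G : PL → X → ℝ) (cn : PL → X) (W ns T : ℝ), N.Good → Hyp N s A η Q → Z ⊆ Q →
    N.u ^ 4 * Q.card ≤ Z.card → Co s hv Z R L G cn W (N.u ^ 470) ns T →
    N.u ^ 40 * (A.tb Z Z fun y z => N.u ^ 20 / 3 * W ≤ del s R y z : ℝ) ≤ (Z.card : ℝ) ^ 2 →
    Sml s Z (N.u ^ 8 * W) ((N.q : ℝ) ^ 61) (N.u ^ 20)

/-- large height balls do not lie on few curves -/
def CRV : Prop :=
  ∀ (X PL K : Type) [DecidableEq X] [Fintype PL] [Field K] (s : Sys X PL) (A : Ari X PL K)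
    (η : ℝ) (Z : Finset X) (R : PL → ℝ) (G : PL → X → ℝ) (W ε Λ ns t a : ℝ)
    (C : Finset (Finset X)) (β : Finset X → ℕ), A.Good s η → Sym A → Cen s Z R G W ε →
    Conc s R Z W ε Λ ns → 3 ≤ Λ → 0 < ns → Z ⊆ C.biUnion id → Crv A C β →
    (∀ P ∈ C, 1 ≤ β P ∧ 2 * β P ^ 2 < P.card) → ∑ P ∈ C, 8 * (β P : ℝ) ^ 2 ≤ a →
    (ed Z fun x y => a < (hb s Z t x y).card ∧ del s R x y + 48 * t + 27 * ε * W < W : ℝ) ≤
      Z.card * C.card * ns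

/-- bounds for the overlap through large low cells -/
def OH1 : Prop :=
  ∀ (X PL : Type) [DecidableEq X] [Fintype PL] (s : Sys X PL) (Z : Finset X) (R L : PL → ℝ)
    (G : PL → X → ℝ) (W ε h : ℝ), s.Good → Cen s Z R G W ε → (∀ p, 0 ≤ L p) → 2 ≤ h →
    (∀ x y, 0 ≤ Oh s Z R L h x y ∧ Oh s Z R L h x y = Oh s Z R L h y x) ∧
    (∀ x ∈ Z, ∀ y ∈ Z, x ≠ y → O3 s R L x y x ≤ 2 * W ∧ Oh s Z R L h x y ≤ 2 * W) ∧
    ∀ x ∈ Z, h * Oh s Z R L h x x ≤ 4 * W * Z.card ∧ ah s Z R L h x ≤ 4 * W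

/-- low cells through an edge are small on average -/
def OH3 : Prop :=
  ∀ (X PL : Type) [DecidableEq X] [Fintype PL] (s : Sys X PL) (Z : Finset X) (R L : PL → ℝ)
    (G : PL → X → ℝ) (W ε Λ ns : ℝ), s.Good → Cen s Z R G W ε → (∀ p, 0 ≤ L p) →
    Conc s R Z W ε Λ ns → 2 ≤ Λ → ns ≤ Z.card → 2 ≤ ε * Z.card → ∀ x ∈ Z, ∀ y ∈ Z, x ≠ y →
    ∑ w ∈ Z, O3 s R L x y w ≤ 10 * ε * W * Z.card

/-- Cauchy-Schwarz on a part of a height ball -/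
def CSB : Prop :=
  ∀ (X PL : Type) [DecidableEq X] [Fintype PL] (s : Sys X PL) (Z : Finset X) (R L : PL → ℝ)
    (G : PL → X → ℝ) (W ε Λ ns h t : ℝ), s.Good → Cen s Z R G W ε → (∀ p, 0 ≤ L p) →
    Conc s R Z W ε Λ ns → 2 ≤ Λ → ns ≤ Z.card → 2 ≤ ε * Z.card → 2 ≤ h → 100 ≤ t →
    ∀ x ∈ Z, ∀ y ∈ Z, x ≠ y → ∀ U ⊆ hb s Z t x y, U.Nonempty →
    (∑ z ∈ U, ah s Z R L h z) / U.card ≤ 10 * ε * W +
      Real.sqrt ((8 * t + 4 * W * Z.card / (h * U.card)) * ((∑ z ∈ Z, ah s Z R L h z) / Z.card))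

/-- the depth above the quantile radius against large low cells -/
def AL1 : Prop :=
  ∀ (X PL : Type) [DecidableEq X] [Fintype PL] (s : Sys X PL) (hv : ℕ × Finset X → Prop)
    (Z : Finset X) (R L : PL → ℝ) (G rq : PL → X → ℝ) (cn : PL → X) (W ε ns T a : ℝ),
    Co s hv Z R L G cn W ε ns T → 0 < a → Rq s Z rq a → ∀ x ∈ Z, ∀ y ∈ Z, x ≠ y →
    lm2 s R rq x y ≤ 4 * Oh s Z R L (Z.card / a) x y + 4 * ε * W

/-- the depth above the quantile radius is small on average -/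
def AL : Prop :=
  ∀ (X PL : Type) [DecidableEq X] [Fintype PL] (s : Sys X PL) (hv : ℕ × Finset X → Prop)
    (Z : Finset X) (R L : PL → ℝ) (G rq : PL → X → ℝ) (cn : PL → X) (W ns T u q : ℝ),
    Co s hv Z R L G cn W (u ^ 470) ns T → 0 < u → u ≤ 1 / 10 ^ 30 → 1 ≤ u ^ 470 * q →
    q ^ 100 ≤ Z.card → ns ≤ Z.card → Rq s Z rq (q ^ 50) → Sml s Z (u ^ 8 * W) (q ^ 61) (u ^ 20) →
    ∑ x ∈ Z, ∑ y ∈ Z.erase x, lm2 s R rq x y ≤ u ^ 7 * W * (Z.card : ℝ) ^ 2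

/-- an edge with a large height ball lies in large low cells -/
def BIG1 : Prop :=
  ∀ (X PL : Type) [DecidableEq X] [Fintype PL] (s : Sys X PL) (hv : ℕ × Finset X → Prop)
    (Z : Finset X) (R L : PL → ℝ) (G : PL → X → ℝ) (W ε Λ ns T h t : ℝ), s.Good →
    Cln s hv Z R L G W ε Λ ns T → 2 ≤ h → 10 * t ≤ W → ∀ x ∈ Z, ∀ y ∈ Z, x ≠ y →
    10 * h ≤ (hb s Z t x y).card → W / 2 ≤ Oh s Z R L h x y

/-- few edges have a huge height ball -/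
def BIG : Prop :=
  ∀ (X PL : Type) [DecidableEq X] [Fintype PL] (s : Sys X PL) (hv : ℕ × Finset X → Prop)
    (Z : Finset X) (R L : PL → ℝ) (G : PL → X → ℝ) (cn : PL → X) (W ns T u : ℝ),
    Co s hv Z R L G cn W (u ^ 470) ns T → 0 < u → u ≤ 1 / 10 ^ 30 → 1 ≤ u ^ 1000 * Z.card →
    ns ≤ Z.card →
    2 * (ed Z fun x y => Z.card ^ 9 < (hb s Z (u ^ 4 * W) x y).card ^ 10 : ℝ) ≤
      u * (Z.card : ℝ) ^ 2

/-! ### the two cases -/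

/-- the classes are a small part -/
def CASE1 : Prop :=
  ∀ (N : Nb) (X PL K : Type) [DecidableEq X] [Fintype PL] [Field K] (s : Sys X PL)
    (A : Ari X PL K) (η : ℝ) (Q : Finset X) (C : Finset (Finset X)) (β : Finset X → ℕ),
    N.Good → Hyp N s A η Q → (∀ P ∈ C, P ⊆ Q) → Crv A C β →
    (∀ C' ⊆ C, Cls2 A (C'.biUnion id) (N.q ^ 3) (Q.card / (N.q : ℝ) ^ 48) C' β) →
    ((C.biUnion id).card : ℝ) ≤ N.u * Q.card

/-- the fine model off the classes -/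
def CASE0 : Prop :=
  ∀ (N : Nb) (X PL K : Type) [DecidableEq X] [Fintype PL] [Field K] (s : Sys X PL)
    (A : Ari X PL K) (η : ℝ) (Q V : Finset X) (β : Finset X → ℕ),
    N.Good → Hyp N s A η Q → V ⊆ Q → (1 - N.u) * Q.card ≤ V.card →
    Cls2 A V (N.q ^ 3) (Q.card / (N.q : ℝ) ^ 48) ∅ β →
    ∃ Z ⊆ Q, (1 - 3 * N.u) * Q.card ≤ Z.card ∧ ∃ (R L : PL → ℝ) (G rq : PL → X → ℝ) (cn : PL → X)
      (W ε : ℝ), Fm N s A η Z R L G rq cn W ε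

end Pool.Agent.MP_ddf486_co.KV
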