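import Pool.Agent.MP_ddf486_co.KV.Alb
import Pool.Agent.MP_ddf486_co.KV.SpecB

/-! Project KV, rows AL and BIG. -/

set_option autoImplicit false

noncomputable section

namespace Pool.Agent.MP_ddf486_co.KV

open Finset Pool.Agent.MP_6c3157_co.PD Pool.Agent.MP_6c3157_co.PQ

theorem alS : AL := by
  intro X PL _ _ s hv Z R L G rq cn W ns T u q hC u0 u1 hq n1 hn hr hS
  have u2 : u ≤ 1 := u1.trans (by norm_num)
  have q0 : 0 < q := (pos_iff_pos_of_mul_pos (one_pos.trans_le hq)).1 (pow_pos u0 _)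
  have q8 : ∀ k ≤ 470, 1 ≤ u ^ k * q := fun k hk =>
    hq.trans (mul_le_mul_of_nonneg_right (pow_le_pow_of_le_one u0.le u2 hk) q0.le)
  have q1 : 1 ≤ q := by simpa using q8 0 (by norm_num)
  refine al u0 u1 (q8 8 (by norm_num)) hC.good hC.cln.cen
    (pow_le_pow_of_le_one u0.le u2 (by norm_num)) hC.cln.conc
    ((le_div_iff₀ hC.cln.cen.e_pos).2 (by linarith [hC.cln.cen.e_le])) hn n1 hC.R_hi hr.inn
    fun V hV hc => ?_
  by_contra con
  have k := hS V hV
  rw [ed_eq_sum, sum_congr (g := fun _ => (V.card : ℝ) - 1) rfl fun x hx => by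
    rw [filter_true_of_mem, cast_card_erase_of_mem hx]
    exact fun y hy => not_lt.1 fun h => con ⟨x, hx, y, mem_of_mem_erase hy,
      (ne_of_mem_erase hy).symm, h⟩, sum_const, nsmul_eq_mul] at k
  have n2 : q ≤ Z.card := (le_self_pow₀ q1 (by norm_num)).trans n1
  have a : 1 ≤ u * (u ^ 7 * Z.card) := (q8 8 (by norm_num)).trans
    ((mul_le_mul_of_nonneg_left n2 (pow_pos u0 8).le).trans (le_of_eq (by ring)))
  have e : u ^ 20 * (Z.card : ℝ) ^ 2 = u ^ 6 * (u ^ 7 * Z.card) ^ 2 := by ring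
  have b : u ^ 6 ≤ u := pow_le_of_le_one u0.le u2 (by norm_num)
  have c : 0 < u ^ 7 * (Z.card : ℝ) := (pos_iff_pos_of_mul_pos (one_pos.trans_le a)).1 u0
  rw [e] at k
  generalize u ^ 7 * (Z.card : ℝ) = w at *
  have d : 10 ^ 30 ≤ w := by nlinarith
  have f : u ^ 6 * w ^ 2 ≤ 1 / 10 ^ 30 * w ^ 2 := mul_le_mul_of_nonneg_right (b.trans u1) (sq_nonneg _)
  nlinarith

theorem bigS : BIG := by
  intro X PL _ _ s hv Z R L G cn W ns T u hC u0 u1 n1 hn
  have u2 : u ≤ 1 := u1.trans (by norm_num)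
  exact big u0 u1 hC.good hC.cln.cen (pow_le_pow_of_le_one u0.le u2 (by norm_num)) hC.cln.conc
    ((le_div_iff₀ hC.cln.cen.e_pos).2 (by linarith [hC.cln.cen.e_le])) hn
    (n1.trans (mul_le_mul_of_nonneg_right (pow_le_pow_of_le_one u0.le u2 (by norm_num))
      (Nat.cast_nonneg _))) hC.R_hi

end Pool.Agent.MP_ddf486_co.KV
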