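import Pool.Agent.MP_ddf486_co.KV.BasicC

/-! Project KV, block C, row CLO: close pairs are few. -/

set_option autoImplicit false
set_option linter.unusedSectionVars false

noncomputable section

namespace Pool.Agent.MP_ddf486_co.KV

open Finset Pool.Agent.MP_6c3157_co.PD Pool.Agent.MP_6c3157_co.PQ

namespace Cclo

variable {N : Nb} {X PL K : Type} [DecidableEq X] [Fintype PL] [Field K] {s : Sys X PL}
  {A : Ari X PL K} {η : ℝ} {Z : Finset X} {R L : PL → ℝ} {G rq : PL → X → ℝ} {cn : PL → X}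
  {W ε : ℝ}

theorem small (h : Fm N s A η Z R L G rq cn W ε) (p : PL) (S : Finset X) {y : X} (hy : y ∈ Z)
    {t : ℝ} (ht : t < rq p y) (hS : S ⊆ (s.c p).ball Z y t) :
    (N.q : ℝ) ^ 50 * S.card ≤ Z.card :=
  (mul_le_mul_of_nonneg_left (Nat.cast_le.2 (card_le_card hS))
    (pow_nonneg (Nat.cast_nonneg _) 50)).trans (h.rq_min p y hy t ht).le

open Classical in
theorem cnt1 (h : Fm N s A η Z R L G rq cn W ε) (p : PL) {x : X} (hx : x ∈ Z) :
    (N.q : ℝ) ^ 50 * (Z.filter fun y => (s.c p).lam * (s.c p).d x y < rq p x).card ≤ Z.card := by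
  have hc := h.good.good p
  rcases (Z.filter fun y => (s.c p).lam * (s.c p).d x y < rq p x).eq_empty_or_nonempty with e | e
  · rw [e]; simp
  obtain ⟨y0, h0, hm⟩ := exists_max_image _ (fun y => (s.c p).d x y) e
  refine small h p _ hx (mem_filter.1 h0).2 fun y hy => Cells.mem_ball.2 ⟨(mem_filter.1 hy).1, ?_⟩
  exact (hm y hy).trans (le_mul_of_one_le_left (hc.d_nonneg _ _) hc.lam_lo)

open Classical in
theorem cnt2 (h : Fm N s A η Z R L G rq cn W ε) (p : PL) (x : X) :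
    (N.q : ℝ) ^ 50 * (Z.filter fun y => (s.c p).lam * (s.c p).d x y < rq p y).card ≤ Z.card := by
  have hc := h.good.good p
  rcases (Z.filter fun y => (s.c p).lam * (s.c p).d x y < rq p y).eq_empty_or_nonempty with e | e
  · rw [e]; simp
  obtain ⟨y0, h0, hm⟩ := exists_max_image _ (fun y => (s.c p).d x y) e
  refine small h p _ (mem_filter.1 h0).1 (mem_filter.1 h0).2 fun y hy =>
    Cells.mem_ball.2 ⟨(mem_filter.1 hy).1, (hc.d_tri y0 x y).trans ?_⟩
  refine mul_le_mul_of_nonneg_left (max_le ?_ (hm y hy)) hc.lam_pos.le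
  rw [hc.d_symm]

open Classical in
theorem cnt (h : Fm N s A η Z R L G rq cn W ε) (p : PL) {x : X} (hx : x ∈ Z) :
    (N.q : ℝ) ^ 50 * (Z.filter fun y => near s rq p x y).card ≤ 2 * Z.card := by
  have h1 := cnt1 h p hx
  have h2 := cnt2 h p x
  have h3 : (Z.filter fun y => near s rq p x y).card ≤
      (Z.filter fun y => (s.c p).lam * (s.c p).d x y < rq p x).card +
      (Z.filter fun y => (s.c p).lam * (s.c p).d x y < rq p y).card := by
    refine le_trans (card_le_card fun y hy => ?_) (card_union_le _ _)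
    obtain ⟨y1, y2⟩ := mem_filter.1 hy
    rcases y2 with y2 | y2
    · exact mem_union_left _ (mem_filter.2 ⟨y1, y2⟩)
    · exact mem_union_right _ (mem_filter.2 ⟨y1, y2⟩)
  have h4 : ((Z.filter fun y => near s rq p x y).card : ℝ) ≤
      (Z.filter fun y => (s.c p).lam * (s.c p).d x y < rq p x).card +
      (Z.filter fun y => (s.c p).lam * (s.c p).d x y < rq p y).card := by exact_mod_cast h3
  have h5 := mul_le_mul_of_nonneg_left h4 (pow_nonneg (Nat.cast_nonneg (α := ℝ) N.q) 50)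
  linarith

theorem near_symm (h : Fm N s A η Z R L G rq cn W ε) (p : PL) (x y : X) :
    near s rq p x y ↔ near s rq p y x := by
  unfold near
  rw [(h.good.good p).d_symm y x, or_comm]

open Classical in
theorem row (h : Fm N s A η Z R L G rq cn W ε) (p : PL) (f : X → ℝ) (hf : ∀ x, 0 ≤ f x) :
    (N.q : ℝ) ^ 50 * ∑ x ∈ Z, ∑ y ∈ Z, (if near s rq p x y then f x else 0) ≤
      2 * Z.card * ∑ x ∈ Z, f x := by
  rw [mul_sum, mul_sum]
  refine sum_le_sum fun x hx => ?_
  rw [← sum_filter, sum_const, nsmul_eq_mul, ← mul_assoc]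
  exact mul_le_mul_of_nonneg_right (cnt h p hx) (hf x)

open Classical in
theorem place (h : Fm N s A η Z R L G rq cn W ε) (p : PL) :
    (N.q : ℝ) ^ 50 * ∑ x ∈ Z, ∑ y ∈ Z.erase x, clp s L G rq p x y ≤
      2 * Z.card * (Z.card * ga s L p + 2 * ∑ x ∈ Z, G (s.bar p) x) := by
  have h1 := row h p (fun x => ga s L p + G (s.bar p) x) fun x =>
    add_nonneg (h.ga_pos p).le (h.cen.G_lo _ _)
  have h2 := row h p (fun x => G (s.bar p) x) fun x => h.cen.G_lo _ _
  have h3 : ∑ x ∈ Z, ∑ y ∈ Z.erase x, clp s L G rq p x y ≤ ∑ x ∈ Z, ∑ y ∈ Z, clp s L G rq p x y :=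
    sum_le_sum fun x _ => sum_le_sum_of_subset_of_nonneg (erase_subset _ _)
      fun y _ _ => h.clp_lo p x y
  have h4 : ∑ x ∈ Z, ∑ y ∈ Z, clp s L G rq p x y =
      ∑ x ∈ Z, ∑ y ∈ Z, (if near s rq p x y then ga s L p + G (s.bar p) x else 0) +
      ∑ x ∈ Z, ∑ y ∈ Z, (if near s rq p x y then G (s.bar p) x else 0) := by
    rw [sum_comm (s := Z) (t := Z) (f := fun x y => if near s rq p x y then G (s.bar p) x else 0),
      ← sum_add_distrib]
    refine sum_congr rfl fun x _ => ?_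
    rw [← sum_add_distrib]
    refine sum_congr rfl fun y _ => ?_
    unfold clp
    by_cases k : near s rq p x y
    · rw [if_pos k, if_pos k, if_pos ((near_symm h p x y).1 k)]
    · rw [if_neg k, if_neg k, if_neg fun k' => k ((near_symm h p x y).2 k'), add_zero]
  have h5 := mul_le_mul_of_nonneg_left (h3.trans_eq h4)
    (pow_nonneg (Nat.cast_nonneg (α := ℝ) N.q) 50)
  rw [sum_add_distrib, sum_const, nsmul_eq_mul] at h1
  rw [mul_add] at h5
  linarith

end Cclo

open Cclo in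
theorem clo : CLO := by
  intro N X PL K _ _ _ s A η Z R L G rq cn W ε hN h
  have lo : ∀ x y, 0 ≤ Clf s L G rq x y := fun x y =>
    mul_nonneg (by norm_num) (h.good.sum_nonneg fun p => h.clp_lo p x y)
  refine ⟨lo, ?_⟩
  have e1 : (N.q : ℝ) ^ 50 * ∑ x ∈ Z, ∑ y ∈ Z.erase x, Clf s L G rq x y =
      2 * ∑ p, s.m p * ((N.q : ℝ) ^ 50 * ∑ x ∈ Z, ∑ y ∈ Z.erase x, clp s L G rq p x y) := by
    unfold Clf
    simp only [mul_sum]
    rw [sum_comm (s := univ) (t := Z)]
    refine sum_congr rfl fun x _ => ?_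
    rw [sum_comm (s := univ) (t := Z.erase x)]
    exact sum_congr rfl fun y _ => sum_congr rfl fun p _ => by ring
  have e2 := h.good.sum_le fun p => place h p
  have e3 : ∑ p, s.m p * (2 * Z.card * (Z.card * ga s L p + 2 * ∑ x ∈ Z, G (s.bar p) x)) =
      2 * (Z.card : ℝ) ^ 2 * ∑ p, s.m p * ga s L p +
        4 * Z.card * ∑ x ∈ Z, ∑ p, s.m p * G (s.bar p) x := by
    rw [sum_comm (s := Z) (t := univ), mul_sum, mul_sum, ← sum_add_distrib]
    refine sum_congr rfl fun p _ => ?_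
    rw [← mul_sum]
    ring
  have e4 : ∑ x ∈ Z, ∑ p, s.m p * G (s.bar p) x ≤ Z.card * (ε * W) := by
    rw [← nsmul_eq_mul, ← sum_const]
    refine sum_le_sum fun x hx => ?_
    rw [h.good.sum_bar fun p => G p x]
    exact h.cen.G_sum x hx
  have e5 := h.sum_ga
  have e6 := h.eW_le
  have z0 : (0 : ℝ) ≤ Z.card := Nat.cast_nonneg _
  have e7 := mul_le_mul_of_nonneg_left e5 (show (0 : ℝ) ≤ 2 * (Z.card : ℝ) ^ 2 by positivity)
  have e8 := mul_le_mul_of_nonneg_left e4 (show (0 : ℝ) ≤ 4 * (Z.card : ℝ) by positivity)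
  have e9 := mul_le_mul_of_nonneg_left e6 (sq_nonneg (Z.card : ℝ))
  have w0 : 0 ≤ W * (Z.card : ℝ) ^ 2 := mul_nonneg (le_trans (by norm_num) h.W_big) (sq_nonneg _)
  have f1 : (N.q : ℝ) ^ 50 * ∑ x ∈ Z, ∑ y ∈ Z.erase x, Clf s L G rq x y ≤
      17 * (W * (Z.card : ℝ) ^ 2) := by
    rw [e1]
    nlinarith
  have q1 : (17 : ℝ) ≤ N.q := le_trans (by norm_num) hN.q_big
  have q2 : (17 : ℝ) ≤ (N.q : ℝ) ^ 10 := q1.trans (le_self_pow₀ (by linarith) (by norm_num))
  have s0 : 0 ≤ (N.q : ℝ) ^ 40 * ∑ x ∈ Z, ∑ y ∈ Z.erase x, Clf s L G rq x y :=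
    mul_nonneg (by positivity) (sum_nonneg fun x _ => sum_nonneg fun y _ => lo x y)
  rw [show 50 = 10 + 40 from rfl, pow_add, mul_assoc] at f1
  have f2 := mul_le_mul_of_nonneg_right q2 s0
  linarith

end Pool.Agent.MP_ddf486_co.KV
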