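import Pool.Agent.MP_ddf486_co.KV.BasicC

/-! Project KV, block C, row DGA: the diagonal. -/

set_option autoImplicit false
set_option linter.unusedSectionVars false

noncomputable section

namespace Pool.Agent.MP_ddf486_co.KV

open Finset Pool.Agent.MP_6c3157_co.PD Pool.Agent.MP_6c3157_co.PQ

theorem dga (h : CRAD) : DGA := by
  intro N X PL K _ _ _ s A η Z R L G rq cn W ε hN hF y hy z hz
  have key : ∀ p, ((s.c p).W fun i => ¬ bc s Z R L rq p i ∧ y ∈ i.2 ∧ z ∉ i.2) ≤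
      lq R rq p y + ga s L p + G p y + G p z + 6 * (s.c p).xi := fun p => by
    have hc := hF.good.good p
    have a1 := lq_nonneg R rq p y
    have a2 := hF.ga_pos p
    have a3 := hF.cen.G_lo p y
    have a4 := hF.cen.G_lo p z
    have a5 := hc.xi_nonneg
    by_cases e : y = z
    · rw [Cells.W_zero fun i _ k => k.2.2 (e ▸ k.2.1)]
      positivity
    have d0 := hc.d_pos e
    have r0 := hF.rB_pos p hy
    have b1 := Cells.W_le_add hc
      (φ := fun i => ¬ bc s Z R L rq p i ∧ y ∈ i.2 ∧ z ∉ i.2)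
      (ψ := fun i => y ∈ i.2 ∧ rB s R L rq p y ≤ (s.c p).ρ i ∧ (s.c p).ρ i < (s.c p).d y z)
      (χ := fun i => (s.c p).d y z ≤ (s.c p).ρ i ∧ (∃ a ∈ i.2, (s.c p).d y a ≤ (s.c p).d y z) ∧
        ∃ b, b ∉ i.2 ∧ (s.c p).d y b ≤ (s.c p).d y z) fun i hi k =>
      (lt_or_ge _ _).imp (fun u => ⟨k.2.1, not_lt.1 fun v => k.1 (hF.bc_of_lt hi hy k.2.1 v), u⟩)
        fun u => ⟨u, ⟨y, k.2.1, (hc.d_self y).trans_le d0.le⟩, z, k.2.2, le_rfl⟩
    have b2 := hc.c5 y _ d0
    rcases le_or_gt (rB s R L rq p y) ((s.c p).d y z) with u | u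
    · have b3 := hc.c2 y _ _ r0 u
      have b4 := hF.dep_ge p hy hz e
      rw [Real.log_div d0.ne' r0.ne', hF.log_rB p hy] at b3
      rw [dep, Real.log_div (hF.cen.R_pos p).ne' d0.ne'] at b4
      linarith [hc.log_lam, hc.eta_hi, max_le (le_add_of_nonneg_right a4) (le_add_of_nonneg_left a3)]
    · rw [Cells.W_zero (φ := fun i => y ∈ i.2 ∧ _) fun i _ k => (k.2.1.trans_lt k.2.2).not_gt u] at b1
      linarith
  refine ((fam_W s Z R L rq fun p i => ¬ bc s Z R L rq p i ∧ y ∈ i.2 ∧ z ∉ i.2).trans_le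
    (hF.good.sum_le key)).trans ?_
  have c1 := (h N X PL K s A η Z R L G rq cn W ε hN hF y hy).2
  have c2 := hF.sum_ga
  have c3 := hF.cen.G_sum y hy
  have c4 := hF.cen.G_sum z hz
  have c5 := hF.good.xi_sum
  have c6 := hF.eW_le
  have c7 := hF.W_big
  have c8 : (10 : ℝ) ≤ N.q := le_trans (by norm_num) hN.q_big
  have c9 : W ≤ (N.q : ℝ) ^ 50 * W := le_mul_of_one_le_left (by linarith) (one_le_pow₀ (by linarith))
  have c10 := mul_le_mul_of_nonneg_right c8 (le_trans (by linarith) c9 : 0 ≤ (N.q : ℝ) ^ 50 * W)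
  simp only [mul_add, sum_add_distrib, mul_left_comm _ (6 : ℝ), ← mul_sum]
  rw [pow_succ' _ 50, mul_assoc]
  linarith

end Pool.Agent.MP_ddf486_co.KV
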