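import Pool.Agent.MP_ddf486_co.KV.BasicC
import Pool.Agent.MP_6c3157_co.PD.Geo

/-! Project KV, row CMIR: the mirror estimate, summed over the places. -/

set_option autoImplicit false
set_option linter.unusedSectionVars false

noncomputable section

namespace Pool.Agent.MP_ddf486_co.KV

open Finset Pool.Agent.MP_6c3157_co.PD Pool.Agent.MP_6c3157_co.PQ

namespace Cmir

variable {X : Type} [DecidableEq X]

theorem rad {c : Cells X} (hc : c.Good) {T : Finset X} {x : X} (hx : x ∈ T) {a : ℝ} (h1 : 1 ≤ a)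
    (h2 : a < T.card) :
    ∃ r, 0 < r ∧ a < (c.ball T x r).card ∧ ∀ t < r, ((c.ball T x t).card : ℝ) ≤ a := by
  have a0 : 0 ≤ a := zero_le_one.trans h1
  have f1 : (1 : ℝ) ≤ ⌊a⌋₊ := by exact_mod_cast (Nat.one_le_floor_iff a).2 h1
  have f2 : ⌊a⌋₊ + 1 ≤ T.card := (Nat.floor_lt a0).2 h2
  obtain ⟨b, -, b1, b2, b3⟩ := qr X c T hc x hx (⌊a⌋₊ + 1) (by linarith) (by exact_mod_cast f2)
  refine ⟨_, hc.d_pos b1.symm, (Nat.lt_floor_add_one a).trans_le b2, fun t ht => ?_⟩
  have k : (c.ball T x t).card < ⌊a⌋₊ + 1 := by exact_mod_cast b3 t ht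
  exact le_trans (by exact_mod_cast Nat.lt_succ_iff.1 k) (Nat.floor_le a0)

open Classical in
theorem few {c : Cells X} {T : Finset X} {x : X} {a r E : ℝ} (a0 : 0 ≤ a) (E0 : 0 ≤ E)
    (h : ∀ t < r, ((c.ball T x t).card : ℝ) ≤ a) :
    (∑ y ∈ T.erase x, if c.d x y < r then E else 0) ≤ a * E := by
  rw [← sum_filter, sum_const, nsmul_eq_mul]
  refine mul_le_mul_of_nonneg_right ?_ E0
  rcases ((T.erase x).filter fun y => c.d x y < r).eq_empty_or_nonempty with e | e
  · rw [e]; simpa using a0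
  · obtain ⟨b, hb, hm⟩ := exists_max_image _ (c.d x) e
    refine le_trans ?_ (h _ (mem_filter.1 hb).2)
    exact_mod_cast card_le_card fun z hz =>
      Cells.mem_ball.2 ⟨mem_of_mem_erase (mem_filter.1 hz).1, hm z hz⟩

theorem off {U c M : Finset X} (h : U ⊆ c) {E : ℝ} (E0 : 0 ≤ E) :
    (∑ y ∈ U, if y ∈ M then 0 else E) ≤ (c \ M).card * E := by
  rw [sum_ite, sum_const_zero, zero_add, sum_const, nsmul_eq_mul]
  refine mul_le_mul_of_nonneg_right ?_ E0
  exact_mod_cast card_le_card fun z hz =>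
    mem_sdiff.2 ⟨h (mem_filter.1 hz).1, (mem_filter.1 hz).2⟩

open Classical in
theorem markov {c : Finset X} {V B : X → ℝ} {A b : ℝ} (A0 : 0 ≤ A) (b0 : 0 ≤ b)
    (V0 : ∀ z, 0 ≤ V z) (B0 : ∀ z, 0 ≤ B z) (h : ∀ z ∈ c, A ≤ V z + B z)
    (hs : ∑ z ∈ c, B z ≤ b * A) : ((c.filter fun z => V z < A / 2).card : ℝ) ≤ 2 * b := by
  rcases A0.eq_or_lt with e | e
  · rw [filter_eq_empty_iff.2 fun z _ => by rw [← e]; linarith [V0 z]]
    simpa using b0
  · have k1 := card_nsmul_le_sum (c.filter fun z => V z < A / 2) B (A / 2) fun z hz => by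
      have := h z (mem_filter.1 hz).1
      linarith [(mem_filter.1 hz).2]
    have k2 := sum_le_sum_of_subset_of_nonneg (f := B)
      (filter_subset (fun z => V z < A / 2) c) fun z _ _ => B0 z
    rw [nsmul_eq_mul] at k1
    exact le_of_mul_le_mul_right (by linarith) e

end Cmir

open Cmir Classical in
theorem cmir (h1 : CRAD) (h2 : CMIRP) : CMIR := by
  intro N X PL K _ _ _ s A η Z R L G rq cn W ε hN h x hx T hT hxT a a' ζ a1 a2 aa aT z0 z1
  have hs := h.good
  have m0 := hs.m_lo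
  choose r2 p2 q2 s2 using fun p => rad (hs.good p) hxT a1 (aa.trans_lt aT)
  choose r3 p3 q3 s3 using fun p => rad (hs.good p) hxT (a1.trans aa) aT
  obtain ⟨c1, c2⟩ := h1 N X PL K s A η Z R L G rq cn W ε hN h x hx
  have E0 : ∀ p, 0 ≤ lq R rq (s.bar p) x + max 0 (Real.log (R (s.bar p) / r3 (s.bar p))) :=
    fun p => add_nonneg (lq_nonneg _ _ _ _) (le_max_left _ _)
  refine ⟨fun y => ∑ p, s.m p * if (s.c p).d x y < r2 p then
      lq R rq (s.bar p) x + max 0 (Real.log (R (s.bar p) / r3 (s.bar p))) else 0,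
    fun y => sum_nonneg fun p _ => mul_nonneg (m0 p) (by split_ifs; exacts [E0 p, le_rfl]),
    ?_, fun c hc hl => ?_⟩
  · have k1 := c1 T hT r3 (a' / 2) (fun p => by
      have := q3 p
      have e : (((s.c p).ball T x (r3 p)).card : ℝ) ≤
          (((s.c p).ball T x (r3 p)).erase x).card + 1 := by
        exact_mod_cast tsub_le_iff_right.1 pred_card_le_card_erase
      linarith) (by linarith)
    have k2 : ∑ p, s.m p * max 0 (Real.log (R p / r3 p)) ≤ 4 * W * T.card / a' := by
      rw [le_div_iff₀ (by linarith)]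
      linarith
    have k3 : 4 * (N.q : ℝ) ^ 50 * W ≤ (N.q : ℝ) ^ 51 * W := by
      refine mul_le_mul_of_nonneg_right ?_ (by linarith [h.W_big])
      rw [pow_succ' _ 50]
      exact mul_le_mul_of_nonneg_right (le_trans (by norm_num) hN.q_big) (by positivity)
    have k4 := hs.sum_bar fun p => lq R rq p x + max 0 (Real.log (R p / r3 p))
    rw [sum_comm]
    simp only [← mul_sum]
    refine (sum_le_sum fun p _ => mul_le_mul_of_nonneg_left
      (few (by linarith) (E0 p) (s2 p)) (m0 p)).trans ?_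
    simp only [mul_left_comm _ a, ← mul_sum]
    refine mul_le_mul_of_nonneg_left ?_ (by linarith)
    rw [k4]
    simp only [mul_add, sum_add_distrib]
    linarith
  rcases c.eq_empty_or_nonempty with rfl | hne
  · exact ⟨0, le_rfl, by simp, by simp⟩
  choose Aw A0 M _ M1 M2 M3 using fun p => h2 N X PL K s A η Z R L G rq cn W ε hN h p x hx T c
    a a' ζ (r2 p) (r3 (s.bar p)) z0 z1 (p2 p) (q2 p) (p3 _) (s3 _) hc hne hl
  have c0 : (0 : ℝ) ≤ c.card := Nat.cast_nonneg _
  refine ⟨∑ p, s.m p * Aw p, sum_nonneg fun p _ => mul_nonneg (m0 p) (A0 p), ?_, ?_⟩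
  · have k1 : ∀ p, (∑ y ∈ c ∩ T, if y ∈ M p then 0 else 4 * Aw p + (s.c (s.bar p)).eta) ≤
        8 * ζ * c.card * Aw p + c.card * (s.c (s.bar p)).eta := fun p => by
      have e0 := (hs.good (s.bar p)).eta_lo
      have e1 := off (M := M p) (inter_subset_left (s₁ := c) (s₂ := T))
        (E := 4 * Aw p + (s.c (s.bar p)).eta) (by linarith [A0 p])
      have e2 := mul_le_mul_of_nonneg_right (M1 p) (A0 p)
      have e3 : ((c \ M p).card : ℝ) ≤ c.card := by exact_mod_cast card_le_card sdiff_subset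
      have e4 := mul_le_mul_of_nonneg_right e3 e0
      linarith
    have k2 := sum_le_sum fun p (_ : p ∈ univ) => mul_le_mul_of_nonneg_left (k1 p) (m0 p)
    have k3 := mul_le_mul_of_nonneg_left
      ((hs.sum_bar fun p => (s.c p).eta).le.trans h.ari.eta_sum) c0
    have k4 := sum_le_sum fun y (hy : y ∈ c ∩ T) => (fam_W s Z R L rq _).le.trans
      (sum_le_sum fun p _ => mul_le_mul_of_nonneg_left (M3 p y (mem_inter.1 hy).1) (m0 p))
    refine k4.trans ?_
    simp only [mul_add, sum_add_distrib, mul_left_comm _ (8 * ζ * c.card),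
      mul_left_comm _ (c.card : ℝ), ← mul_sum] at k2
    simp only [mul_add (s.m _) (_ + _), mul_add (s.m _) (ite (_ ∈ _) _ _), sum_add_distrib, Clf,
      mul_left_comm _ (2 : ℝ), ← mul_sum]
    rw [sum_comm]
    simp only [← mul_sum]
    linarith
  · have k1 := markov (c := c) (A := ∑ p, s.m p * Aw p) (b := 2 * ζ * c.card)
      (V := fun z => (fam s Z R L rq).W fun i => (fam s Z R L rq).b i ∧
        x ∈ (fam s Z R L rq).S i ∧ z ∈ (fam s Z R L rq).S i ∧
        ((T ∩ (fam s Z R L rq).S i).card : ℝ) ≤ a')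
      (B := fun z => ∑ p, s.m p * if z ∈ M p then 0 else Aw p)
      (sum_nonneg fun p _ => mul_nonneg (m0 p) (A0 p)) (by positivity)
      (fun z => sum_nonneg fun i _ => by split_ifs; exacts [fam_w_lo hs i, le_rfl])
      (fun z => sum_nonneg fun p _ => mul_nonneg (m0 p) (by split_ifs; exacts [le_rfl, A0 p]))
      (fun z _ => by
        have e := fam_W s Z R L rq fun p i => bc s Z R L rq p i ∧ x ∈ i.2 ∧ z ∈ i.2 ∧
          ((T ∩ i.2).card : ℝ) ≤ a'
        rw [← hs.sum_bar] at e
        refine le_trans ?_ (add_le_add e.ge le_rfl)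
        rw [← sum_add_distrib]
        refine sum_le_sum fun p _ => ?_
        rw [← mul_add]
        refine mul_le_mul_of_nonneg_left ?_ (m0 p)
        split_ifs with k
        · rw [add_zero]; exact M2 p z k
        · exact le_add_of_nonneg_left (Cells.W_nonneg (hs.good _)))
      (by
        rw [sum_comm, mul_sum]
        refine sum_le_sum fun p _ => ?_
        rw [← mul_sum, mul_left_comm]
        exact mul_le_mul_of_nonneg_left ((off Subset.rfl (A0 p)).trans
          (mul_le_mul_of_nonneg_right (M1 p) (A0 p))) (m0 p))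
    linarith

end Pool.Agent.MP_ddf486_co.KV
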