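import Pool.Agent.MP_ddf486_co.KV.BasicC

/-! Project KV, row CMIRP: the mirror at one place. -/

set_option autoImplicit false

noncomputable section

namespace Pool.Agent.MP_ddf486_co.KV

open Finset Pool.Agent.MP_6c3157_co.PD Pool.Agent.MP_6c3157_co.PQ

namespace Cmirp

variable {X : Type} [DecidableEq X]

open Classical in
theorem least (d : X → ℝ) (c : Finset X) (k : ℝ) (h0 : 0 < k) (hk : k ≤ c.card) :
    ∃ z ∈ c, k ≤ (c.filter fun v => d v ≤ d z).card ∧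
      ((c.filter fun v => d v < d z).card : ℝ) ≤ k := by
  have far : ∀ Y : Finset X, Y ⊆ c → k ≤ Y.card →
      ∃ b ∈ Y, k ≤ (c.filter fun v => d v ≤ d b).card := fun Y hY hk => by
    have hne : Y.Nonempty := card_pos.1 (by exact_mod_cast h0.trans_le hk)
    obtain ⟨b, hb, hm⟩ := exists_max_image Y d hne
    refine ⟨b, hb, hk.trans ?_⟩
    exact_mod_cast card_le_card fun z hz => mem_filter.2 ⟨hY hz, hm z hz⟩
  obtain ⟨b, hb, hb'⟩ := far c subset_rfl hk
  obtain ⟨a, ha, hm⟩ := exists_min_image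
    (c.filter fun a => k ≤ (c.filter fun v => d v ≤ d a).card) d ⟨b, mem_filter.2 ⟨hb, hb'⟩⟩
  obtain ⟨ha, ha'⟩ := mem_filter.1 ha
  refine ⟨a, ha, ha', le_of_not_gt fun h => ?_⟩
  obtain ⟨z, hz, hz'⟩ := far _ (filter_subset _ _) h.le
  obtain ⟨h3, h4⟩ := mem_filter.1 hz
  exact absurd (hm z (mem_filter.2 ⟨h3, hz'⟩)) (not_le.2 h4)

/-- cells on `x, y` that miss a point of a ball round `x` -/
theorem cut {c : Cells X} (hc : c.Good) {x y : X} (hxy : x ≠ y) {r : ℝ} (hr : 0 < r)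
    (φ : ℕ × Finset X → Prop)
    (h : ∀ i ∈ c.I, φ i → x ∈ i.2 ∧ y ∈ i.2 ∧ ∃ b, b ∉ i.2 ∧ c.d x b ≤ r) :
    c.W φ ≤ 2 * c.xi + max 0 (Real.log (c.lam * r / c.d x y)) := by
  have h1 := hc.c5 x r hr
  have h2 := hc.pair_below hxy r
  have h3 : c.W φ ≤ _ + _ := Cells.W_le_add hc
    (ψ := fun i => r ≤ c.ρ i ∧ (∃ a ∈ i.2, c.d x a ≤ r) ∧ ∃ b, b ∉ i.2 ∧ c.d x b ≤ r)
    (χ := fun i => x ∈ i.2 ∧ y ∈ i.2 ∧ c.ρ i < r) fun i hi k => by
      obtain ⟨k1, k2, k3⟩ := h i hi k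
      rcases le_or_gt r (c.ρ i) with e | e
      · exact Or.inl ⟨e, ⟨x, k1, by rw [hc.d_self]; exact hr.le⟩, k3⟩
      · exact Or.inr ⟨k1, k2, e⟩
  linarith [hc.eta_hi]

theorem log_le {c : Cells X} (hc : c.Good) {d r : ℝ} (hr : 0 < r) (h : r ≤ d) :
    max 0 (Real.log (c.lam * r / d)) ≤ c.xi := by
  have hd : 0 < d := hr.trans_le h
  refine max_le hc.xi_nonneg (le_trans (Real.log_le_log (by have := hc.lam_pos; positivity) ?_)
    hc.log_lam)
  rw [div_le_iff₀ hd]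
  exact mul_le_mul_of_nonneg_left h hc.lam_pos.le

theorem miss {T B S : Finset X} {a : ℝ} (hB : B ⊆ T) (h : ((T ∩ S).card : ℝ) < B.card + a)
    (ha : a ≤ 0) : ∃ b ∈ B, b ∉ S := by
  by_contra k
  push Not at k
  have : (B.card : ℝ) ≤ (T ∩ S).card := by
    exact_mod_cast card_le_card fun z hz => mem_inter.2 ⟨hB hz, k z hz⟩
  linarith

end Cmirp

open Cmirp in
theorem cmirp : CMIRP := by
  intro N X PL K _ _ _ s A η Z R L G rq cn W ε hN h p x hx T c a a' ζ r₂ r₃ z0 z1 r20 hr2 r30 hr3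
    hcZ hne hf
  classical
  have hc := h.good.good p
  have hb := h.good.good (s.bar p)
  have cp : (0 : ℝ) < c.card := by exact_mod_cast hne.card_pos
  have hcx : ∀ y ∈ c, y ≠ x := fun y hy => (mem_erase.1 (hcZ hy)).1
  have hcz : ∀ y ∈ c, y ∈ Z := fun y hy => (mem_erase.1 (hcZ hy)).2
  obtain ⟨v, hv, v1, v2⟩ := least ((s.c p).d x) c (2 * ζ * c.card) (by positivity) (by nlinarith)
  have r1 : 0 < (s.c p).d x v := hc.d_pos (hcx v hv).symm
  have rb : 0 < (s.c (s.bar p)).d x v := hb.d_pos (hcx v hv).symm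
  have f1 : ∀ y ∈ c, (s.c p).d x y * (s.c (s.bar p)).d x y =
      (s.c p).d x v * (s.c (s.bar p)).d x v :=
    fun y hy => h.good.f1 p x y v (hcx y hy) (hcx v hv) (hf y hy v hv)
  set lb := (s.c (s.bar p)).lam with hlb
  have lb0 : 0 < lb := hb.lam_pos
  set β := min (rB s R L rq (s.bar p) x) (r₃ / lb) with hβ
  have β0 : 0 < β := lt_min (h.rB_pos _ hx) (by positivity)
  set Λ := Real.log (β / (lb * (s.c (s.bar p)).d x v)) with hΛ
  refine ⟨max 0 ((Λ - (s.c (s.bar p)).eta) / 4), le_max_left _ _,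
    c.filter fun z => (s.c p).d x v ≤ (s.c p).d x z, filter_subset _ _, ?_, fun z hz => ?_,
    fun y hy => ?_⟩
  · refine le_trans (Nat.cast_le.2 (card_le_card fun z hz => ?_)) v2
    obtain ⟨k1, k2⟩ := mem_sdiff.1 hz
    exact mem_filter.2 ⟨k1, lt_of_not_ge fun e => k2 (mem_filter.2 ⟨k1, e⟩)⟩
  · obtain ⟨k1, k2⟩ := mem_filter.1 hz
    refine max_le (Cells.W_nonneg hb) ?_
    rcases le_or_gt (lb * (s.c (s.bar p)).d x v) β with e | e
    · have e1 : (s.c (s.bar p)).rlo ≤ lb * (s.c (s.bar p)).d x v := by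
        have := hb.d_lo x v (hcx v hv).symm
        have := hb.rlo_pos
        have := le_mul_of_one_le_left rb.le hb.lam_lo
        linarith
      have e2 : β ≤ (s.c (s.bar p)).rhi :=
        ((min_le_left _ _).trans (h.rB_le _ hx)).trans (h.R_hi _)
      refine (hb.c3 x _ β e1 e e2).trans (Cells.W_mono hb fun i hi ⟨i1, i2, i3, i4⟩ => ?_)
      refine ⟨h.bc_of_lt hi hx i1 (i3.trans_le (min_le_left _ _)), i1, i4 z ?_, ?_⟩
      · have e3 : (s.c (s.bar p)).d x z ≤ (s.c (s.bar p)).d x v := by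
          have e4 := f1 z k1
          have e5 := mul_le_mul_of_nonneg_right k2 (hb.d_nonneg x z)
          exact le_of_mul_le_mul_left (e5.trans_eq e4) r1
        rw [le_div_iff₀ lb0]
        nlinarith
      · have e3 : lb * (s.c (s.bar p)).ρ i < r₃ := by
          have := i3.trans_le (min_le_right _ _)
          rwa [lt_div_iff₀ lb0, mul_comm] at this
        exact le_trans (Nat.cast_le.2 (card_le_card (Cells.inter_subset_ball hb hi i1)))
          (hr3 _ e3)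
    · have e1 : Λ ≤ 0 := Real.log_nonpos (by positivity) ((div_le_one (by positivity)).2 e.le)
      linarith [hb.eta_lo, Cells.W_nonneg hb (φ := fun i => bc s Z R L rq (s.bar p) i ∧ x ∈ i.2 ∧
        z ∈ i.2 ∧ ((T ∩ i.2).card : ℝ) ≤ a')]
  have n1 : (0 : ℝ) ≤ if y ∈ c.filter fun z => (s.c p).d x v ≤ (s.c p).d x z then 0 else
      4 * max 0 ((Λ - (s.c (s.bar p)).eta) / 4) + (s.c (s.bar p)).eta := by
    split_ifs
    exacts [le_rfl, add_nonneg (mul_nonneg (by norm_num) (le_max_left _ _)) hb.eta_lo]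
  have n2 : (0 : ℝ) ≤ if (s.c p).d x y < r₂ then
      lq R rq (s.bar p) x + max 0 (Real.log (R (s.bar p) / r₃)) else 0 := by
    split_ifs
    exacts [add_nonneg (lq_nonneg _ _ _ _) (le_max_left _ _), le_rfl]
  have n3 := h.clp_lo p x y
  by_cases hex : ∃ i ∈ (s.c p).I, bc s Z R L rq p i ∧ x ∈ i.2 ∧ y ∈ i.2
  swap
  · rw [Cells.W_zero fun i hi k => hex ⟨i, hi, k.1, k.2.1, k.2.2.1⟩]
    linarith
  obtain ⟨i₀, j1, j2, j3, j4⟩ := hex
  have hcl : clp s L G rq p x y = ga s L p + G (s.bar p) x + G (s.bar p) y :=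
    if_pos (Or.inl (h.bc_d j1 j2 hx j3 j4))
  have g1 := h.cen.G_lo (s.bar p) x
  have g2 := h.cen.G_lo (s.bar p) y
  have g3 := h.ga_ge p
  have g4 := h.xi_le p
  have g5 := h.xib_le p
  have g6 := h.xs_pos p
  have hxy := (hcx y hy).symm
  have b1 := cut hc hxy r1 (fun i => bc s Z R L rq p i ∧ x ∈ i.2 ∧ y ∈ i.2 ∧
      ((T ∩ i.2).card : ℝ) ≤ a ∧ ((c ∩ i.2).card : ℝ) < 2 * ζ * c.card) fun i _ k => by
    obtain ⟨b, k1, k2⟩ := miss (S := i.2)
      (filter_subset (fun z => (s.c p).d x z ≤ (s.c p).d x v) c) (a := 0)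
      (by linarith [k.2.2.2.2]) le_rfl
    exact ⟨k.2.1, k.2.2.1, b, k2, (mem_filter.1 k1).2⟩
  have b2 := cut hc hxy r20 (fun i => bc s Z R L rq p i ∧ x ∈ i.2 ∧ y ∈ i.2 ∧
      ((T ∩ i.2).card : ℝ) ≤ a ∧ ((c ∩ i.2).card : ℝ) < 2 * ζ * c.card) fun i _ k => by
    obtain ⟨b, k1, k2⟩ := miss (Cells.ball_subset (c := s.c p) (Y := T) (x := x) (r := r₂))
      (a := 0) (by linarith [k.2.2.2.1]) le_rfl
    exact ⟨k.2.1, k.2.2.1, b, k2, (Cells.mem_ball.1 k1).2⟩
  rcases le_or_gt ((s.c p).d x v) ((s.c p).d x y) with e1 | e1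
  · linarith [log_le hc r1 e1]
  rcases le_or_gt r₂ ((s.c p).d x y) with e2 | e2
  · linarith [log_le hc r20 e2]
  have hm : y ∉ c.filter fun z => (s.c p).d x v ≤ (s.c p).d x z := fun k =>
    absurd (mem_filter.1 k).2 (not_le.2 e1)
  rw [if_neg hm, if_pos e2, hcl]
  have d0 := hc.d_pos hxy
  have db := hb.d_pos hxy
  have Rb := h.cen.R_pos (s.bar p)
  have l1 := congrArg Real.log (f1 y hy)
  rw [Real.log_mul d0.ne' db.ne', Real.log_mul r1.ne' rb.ne'] at l1
  have l2 := h.dep_ge (s.bar p) hx (hcz y hy) hxy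
  unfold dep at l2
  rw [Real.log_div Rb.ne' db.ne'] at l2
  have l3 : max (G (s.bar p) x) (G (s.bar p) y) ≤ G (s.bar p) x + G (s.bar p) y :=
    max_le (by linarith) (by linarith)
  have l4 : Λ = Real.log β - Real.log lb - Real.log ((s.c (s.bar p)).d x v) := by
    rw [hΛ, Real.log_div β0.ne' (by positivity), Real.log_mul lb0.ne' rb.ne']; ring
  have l5 : Real.log lb ≤ (s.c (s.bar p)).xi := hb.log_lam
  have l6 : 0 ≤ Real.log lb := Real.log_nonneg hb.lam_lo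
  have m1 := lq_nonneg R rq (s.bar p) x
  have m2 : 0 ≤ max 0 (Real.log (R (s.bar p) / r₃)) := le_max_left _ _
  have l7 : Real.log (R (s.bar p)) - Real.log β ≤ lq R rq (s.bar p) x +
      max 0 (Real.log (R (s.bar p) / r₃)) + ga s L p + 3 * Real.log lb := by
    rcases min_choice (rB s R L rq (s.bar p) x) (r₃ / lb) with k | k
    · rw [hβ, k, h.log_rB _ hx, h.ga_bar]; linarith
    · have m3 : Real.log (R (s.bar p) / r₃) ≤ max 0 (Real.log (R (s.bar p) / r₃)) :=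
        le_max_right _ _
      rw [Real.log_div Rb.ne' r30.ne'] at m3
      rw [hβ, k, Real.log_div r30.ne' lb0.ne']
      rw [Real.log_div Rb.ne' r30.ne']
      linarith
  have l8 : (Λ - (s.c (s.bar p)).eta) / 4 ≤ max 0 ((Λ - (s.c (s.bar p)).eta) / 4) :=
    le_max_right _ _
  have l9 : 0 ≤ max 0 ((Λ - (s.c (s.bar p)).eta) / 4) := le_max_left _ _
  have l10 : max 0 (Real.log ((s.c p).lam * (s.c p).d x v / (s.c p).d x y)) ≤
      (s.c p).xi + (Real.log ((s.c p).d x v) - Real.log ((s.c p).d x y)) := by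
    have := Real.log_le_log d0 e1.le
    rw [Real.log_div (by have := hc.lam_pos; positivity) d0.ne',
      Real.log_mul hc.lam_pos.ne' r1.ne']
    exact max_le (by linarith [hc.xi_nonneg]) (by linarith [hc.log_lam])
  linarith

end Pool.Agent.MP_ddf486_co.KV
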