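import Pool.Agent.MP_ddf486_co.KV.BasicC

/-! Project KV, row OUT1: the mate of an outlier is an outlier. -/

set_option autoImplicit false
set_option linter.unusedSectionVars false

noncomputable section

namespace Pool.Agent.MP_ddf486_co.KV

open Finset Pool.Agent.MP_6c3157_co.PD Pool.Agent.MP_6c3157_co.PQ

namespace Cout1

variable {X : Type} [DecidableEq X] {c : Cells X}

/-- a point far from a central point is far from the centre -/
theorem far (hc : c.Good) {r a : ℝ} (hr : 0 < r) {o x z : X} (h1 : c.d o x ≤ r) (ha : c.xi < a)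
    (h2 : r * Real.exp a ≤ c.d x z) : r * Real.exp (a - c.xi) ≤ c.d o z := by
  have l : c.lam ≤ Real.exp c.xi := (Real.log_le_iff_le_exp hc.lam_pos).1 hc.log_lam
  have t := h2.trans (hc.d_tri x o z)
  rw [hc.d_symm x o] at t
  have e : Real.exp a = Real.exp c.xi * Real.exp (a - c.xi) := by
    rw [← Real.exp_add, add_sub_cancel]
  have p := Real.exp_pos c.xi
  have q : 1 < Real.exp (a - c.xi) := Real.one_lt_exp_iff.2 (by linarith)
  have m0 : 0 ≤ max (c.d o x) (c.d o z) := (hc.d_nonneg o x).trans (le_max_left _ _)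
  have t2 : r * Real.exp (a - c.xi) ≤ max (c.d o x) (c.d o z) := by
    refine le_of_mul_le_mul_left ?_ p
    have := mul_le_mul_of_nonneg_right l m0
    rw [e] at t
    linarith
  refine (le_max_iff.1 t2).resolve_left fun k => ?_
  have := lt_mul_of_one_lt_right hr q
  linarith

theorem place (hc : c.Good) {r g h : ℝ} (hr : 256 * c.rlo ≤ r) {o x z : X} (h1 : c.d o x ≤ r)
    (hg : 20 * c.xi < g) (hh : g ≤ h) (h2 : r * Real.exp (7 / 20 * g) ≤ c.d x z) :
    g ≤ 30 * c.W fun i => (c.lam * r ≤ c.ρ i ∧ c.ρ i < c.lam * r * Real.exp h ∧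
      ∀ v, c.d o v ≤ c.ρ i / c.lam → v ∈ i.2) ∧ z ∉ i.2 := by
  have x0 := hc.xi_nonneg
  have r0 : 0 < r := by linarith [hc.rlo_pos]
  have l0 := hc.lam_pos
  have l1 := hc.lam_lo
  have l : c.lam ≤ Real.exp c.xi := (Real.log_le_iff_le_exp l0).1 hc.log_lam
  have b0 : 0 < r * Real.exp (g / 4) := by positivity
  have a1 : c.lam * (r * Real.exp (g / 4)) ≤ c.d o z := by
    refine le_trans ?_ (far hc r0 h1 (by linarith) h2)
    refine (mul_le_mul_of_nonneg_right l b0.le).trans ?_
    rw [mul_left_comm, ← Real.exp_add]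
    exact mul_le_mul_of_nonneg_left (Real.exp_le_exp.2 (by linarith)) r0.le
  have a2 : c.lam * r ≤ r * Real.exp (g / 4) := by
    rw [mul_comm]
    exact mul_le_mul_of_nonneg_left (l.trans (Real.exp_le_exp.2 (by linarith))) r0.le
  have a3 : r * Real.exp (g / 4) ≤ c.lam * r * Real.exp h :=
    mul_le_mul (le_mul_of_one_le_left r0.le l1) (Real.exp_le_exp.2 (by linarith))
      (Real.exp_pos _).le (by positivity)
  have a4 := hc.c3 o (c.lam * r) (r * Real.exp (g / 4))
    (by linarith [le_mul_of_one_le_left r0.le l1, hc.rlo_pos]) a2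
    (((le_mul_of_one_le_left b0.le l1).trans a1).trans (hc.d_hi o z))
  have a5 : Real.log (r * Real.exp (g / 4) / (c.lam * r)) = g / 4 - Real.log c.lam := by
    rw [mul_comm c.lam, mul_div_mul_left _ _ r0.ne', Real.log_div (Real.exp_pos _).ne' l0.ne',
      Real.log_exp]
  have a6 := Cells.W_mono (φ := fun i => o ∈ i.2 ∧ c.lam * r ≤ c.ρ i ∧
      c.ρ i < r * Real.exp (g / 4) ∧ ∀ v, c.d o v ≤ c.ρ i / c.lam → v ∈ i.2)
    (ψ := fun i => (c.lam * r ≤ c.ρ i ∧ c.ρ i < c.lam * r * Real.exp h ∧
      ∀ v, c.d o v ≤ c.ρ i / c.lam → v ∈ i.2) ∧ z ∉ i.2) hc fun i hi k =>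
    ⟨⟨k.2.1, k.2.2.1.trans_le a3, k.2.2.2⟩, fun hz => by
      have := hc.c1 i hi o k.1 z hz
      have := mul_lt_mul_of_pos_left k.2.2.1 l0
      linarith⟩
  rw [a5] at a4
  linarith [hc.log_lam, hc.eta_hi]

end Cout1

theorem out1 : OUT1 := by
  intro N X PL K _ _ _ s A η Z R L G rq cn W ε _ h y x z hxy hzx hl
  classical
  generalize hV : (fun p => (s.c p).W fun i =>
    oc s R cn (fun p => max (ghp s L G p y) (ghp s L G (s.bar p) y)) p i ∧ z ∉ i.2) = V
  have eV := congrFun hV
  simp only [eV]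
  have V0 : ∀ p, 0 ≤ V p := fun p => by rw [← eV]; exact Cells.W_nonneg (h.good.good p)
  have key : ∀ p, (if cpin s R L cn y p x then ghp s L G p y else 0) ≤
      30 * V p + 30 * V (s.bar p) := fun p => by
    have v1 := V0 p
    have v2 := V0 (s.bar p)
    split_ifs with k
    swap
    · linarith
    by_cases hg : gth s L p < G p y
    swap
    · rw [ghp, if_neg hg]; linarith
    have eg : ghp s L G p y = G p y := if_pos hg
    have hc := h.good.good p
    have hc' := h.good.good (s.bar p)
    have r0 := h.cen.R_pos p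
    have r1 := h.cen.R_pos (s.bar p)
    have x1 := h.xi_pos p
    have x2 := h.xi_pos (s.bar p)
    have L1 := h.L_lo p
    have L2 := h.L_lo (s.bar p)
    unfold gth xs at hg
    have b1 : R p * Real.exp (G p y) ≤ (s.c p).d y (cn p) := by
      have e := h.G_eq p y
      rcases le_total (Real.log ((s.c p).d y (cn p) / R p)) 0 with q | q
      · rw [max_eq_left q] at e
        linarith
      · rw [max_eq_right q] at e
        rcases (hc.d_nonneg y (cn p)).eq_or_lt with q' | q'
        · rw [← q', zero_div, Real.log_zero] at e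
          linarith
        · rw [e, Real.exp_log (div_pos q' r0), mul_div_cancel₀ _ r0.ne']
    have b2 : R p * Real.exp (G p y - (s.c p).xi) ≤ (s.c p).d x y :=
      Cout1.far hc r0 (by rw [hc.d_symm]; exact k.1) (by linarith) (by rwa [hc.d_symm])
    have b3 := k.2.2
    rw [hc'.d_symm] at b3
    have b4 := mul_le_mul b2 b3 (by positivity) (hc.d_nonneg _ _)
    rw [h.good.f1 p x y z hxy.symm hzx hl.symm] at b4
    rw [eg]
    by_cases q : R p * Real.exp (7 / 20 * G p y) ≤ (s.c p).d x z
    · have := Cout1.place hc (h.R_lo p) k.1 (by linarith)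
        (eg.symm.trans_le (le_max_left _ (ghp s L G (s.bar p) y))) q
      linarith [this.trans_eq (congrArg (30 * ·) (eV p))]
    · have q' : R (s.bar p) * Real.exp (7 / 20 * G p y) ≤ (s.c (s.bar p)).d x z := by
        by_contra q'
        have b5 := mul_lt_mul'' (not_le.1 q) (not_le.1 q') (hc.d_nonneg _ _) (hc'.d_nonneg _ _)
        have b6 := b4.trans_lt b5
        rw [mul_mul_mul_comm, mul_mul_mul_comm (R p) (Real.exp _), ← Real.exp_add,
          ← Real.exp_add] at b6
        have := Real.exp_lt_exp.1 (lt_of_mul_lt_mul_left b6 (mul_pos r0 r1).le)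
        linarith
      have := Cout1.place hc' (h.R_lo (s.bar p)) k.2.1 (by linarith)
        (show G p y ≤ max (ghp s L G (s.bar p) y) (ghp s L G (s.bar (s.bar p)) y) by
          rw [h.ari.bar_bar, eg]; exact le_max_right _ _) q'
      linarith [this.trans_eq (congrArg (30 * ·) (eV (s.bar p)))]
  refine (h.good.sum_le key).trans (le_of_eq ?_)
  simp only [mul_add, sum_add_distrib, mul_left_comm _ (30 : ℝ), ← mul_sum]
  rw [h.good.sum_bar V]
  ring

end Pool.Agent.MP_ddf486_co.KV
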