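import Pool.Agent.MP_ddf486_co.KV.BasicC

/-! Project KV, block C: outliers give discrepancy. -/

set_option autoImplicit false
set_option linter.unusedSectionVars false

noncomputable section

namespace Pool.Agent.MP_ddf486_co.KV

open Finset Pool.Agent.MP_6c3157_co.PD Pool.Agent.MP_6c3157_co.PQ

namespace Cout2

open Classical in
theorem disc_ge {X ι : Type} [DecidableEq X] [Fintype ι] (F : Fam X ι) (hw : ∀ i, 0 ≤ F.w i)
    (C : ι → Prop) {U Z : Finset X} {a : ℝ} (hU : U.Nonempty)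
    (hb : ∀ i, C i → ¬ F.b i ∧ 1 - 2 / 10 ^ 6 ≤ F.mu Z i) (hC : F.W C ≤ 3 * a)
    (hu : ∀ u ∈ U, a ≤ 120 * F.W fun i => C i ∧ u ∉ F.S i) : 2 * a ≤ 10 ^ 6 * F.disc U Z := by
  have U0 : (0 : ℝ) < U.card := by exact_mod_cast hU.card_pos
  have h1 : ∑ u ∈ U, F.W (fun i => C i ∧ u ∉ F.S i) =
      U.card * ∑ i, if C i then F.w i * (1 - F.mu U i) else 0 := by
    unfold Fam.W
    rw [sum_comm, mul_sum]
    refine sum_congr rfl fun i _ => ?_
    by_cases k : C i
    · have e : ((U \ F.S i).card : ℝ) + (U ∩ F.S i).card = U.card := by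
        exact_mod_cast card_sdiff_add_card_inter U (F.S i)
      simp only [k, true_and, if_true, Fam.mu]
      rw [← sum_filter, sum_const, nsmul_eq_mul, show (U.filter fun u => u ∉ F.S i) = U \ F.S i by
        ext; simp, eq_sub_of_add_eq e]
      field_simp
    · simp [k]
  have h2 := card_nsmul_le_sum _ _ _ hu
  rw [nsmul_eq_mul, ← mul_sum, h1, mul_left_comm] at h2
  have h3 := le_of_mul_le_mul_left h2 U0
  have h4 : (∑ i, if C i then F.w i * (1 - F.mu U i) else 0) / 200 - F.W C / 10 ^ 5 ≤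
      F.disc U Z := by
    unfold Fam.W Fam.disc
    rw [sum_div, sum_div, ← sum_sub_distrib]
    refine sum_le_sum fun i _ => ?_
    by_cases k : C i
    · simp only [k, if_true, if_neg (hb i k).1]
      have : (1 - F.mu U i) / 200 - 1 / 10 ^ 5 ≤ (F.mu U i - F.mu Z i) ^ 2 := by
        nlinarith [sq_nonneg (F.mu Z i - F.mu U i - 1 / 400), (hb i k).2]
      nlinarith [mul_le_mul_of_nonneg_left this (hw i)]
    · simp only [k, if_false, zero_div, sub_zero]
      split_ifs
      · exact le_rfl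
      · exact mul_nonneg (hw i) (sq_nonneg _)
  have h5 : 0 ≤ F.W C := sum_nonneg fun i _ => by split_ifs; exacts [hw i, le_rfl]
  linarith

variable {N : Nb} {X PL K : Type} [DecidableEq X] [Fintype PL] [Field K] {s : Sys X PL}
  {A : Ari X PL K} {η : ℝ} {Z : Finset X} {R L : PL → ℝ} {G rq : PL → X → ℝ} {cn : PL → X}
  {W ε : ℝ} (h : Fm N s A η Z R L G rq cn W ε)
include h

open Classical in
theorem few {y : X} (hy : y ∈ Z) (p : PL) :
    ((Z.filter fun x => ¬ cpin s R L cn y p x).card : ℝ) ≤ 3 / 10 ^ 6 * Z.card := by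
  have h1 := h.cn_in p
  have h2 := h.cn_in (s.bar p)
  have h3 := h.mass (s.bar p) y hy
  have h4 : (Z.filter fun x => ¬ cpin s R L cn y p x).card ≤ _ :=
    (card_le_card (t := ((Z.filter fun x => R p < (s.c p).d (cn p) x) ∪
      Z.filter fun x => R (s.bar p) < (s.c (s.bar p)).d (cn (s.bar p)) x) ∪ Z.filter fun x =>
        (s.c (s.bar p)).d y x < R (s.bar p) * Real.exp (-L (s.bar p))) fun x hx => by
      simp only [mem_filter, mem_union, cpin, not_and_or, not_le] at hx ⊢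
      tauto).trans ((card_union_le _ _).trans (add_le_add (card_union_le _ _) le_rfl))
  have h5 : 10 ^ 6 * (Z.filter fun x => ¬ cpin s R L cn y p x).card ≤ 3 * Z.card := by omega
  have h6 : (10 : ℝ) ^ 6 * (Z.filter fun x => ¬ cpin s R L cn y p x).card ≤ 3 * Z.card := by
    exact_mod_cast h5
  linarith

open Classical in
theorem bad {y : X} (hy : y ∈ Z) :
    ((Z.filter fun x => 2 * ∑ p, s.m p * (if cpin s R L cn y p x then ghp s L G p y else 0) <
      ∑ p, s.m p * ghp s L G p y).card : ℝ) ≤ Z.card / 4 := by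
  set a := ∑ p, s.m p * ghp s L G p y with ha
  have a0 : 0 ≤ a := h.good.sum_nonneg fun p => h.ghp_lo p y
  set B : X → ℝ := fun x => ∑ p, s.m p * (if ¬ cpin s R L cn y p x then ghp s L G p y else 0)
  have b0 : ∀ x, 0 ≤ B x := fun x => h.good.sum_nonneg fun p => by
    split_ifs; exacts [le_rfl, h.ghp_lo p y]
  have b1 : ∀ x, ∑ p, s.m p * (if cpin s R L cn y p x then ghp s L G p y else 0) = a - B x :=
    fun x => by
    rw [ha, ← sum_sub_distrib]
    exact sum_congr rfl fun p _ => by split_ifs <;> simp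
  have b2 : ∑ x ∈ Z, B x ≤ 3 / 10 ^ 6 * Z.card * a := by
    rw [sum_comm, ha, mul_sum]
    refine sum_le_sum fun p _ => ?_
    rw [← mul_sum, ← sum_filter, sum_const, nsmul_eq_mul, mul_left_comm _ (s.m p)]
    exact mul_le_mul_of_nonneg_left (mul_le_mul_of_nonneg_right (few h hy p) (h.ghp_lo p y))
      (h.good.m_lo p)
  simp only [b1]
  set D := Z.filter fun x => 2 * (a - B x) < a
  have Z0 : (0 : ℝ) ≤ Z.card := Nat.cast_nonneg _
  rcases D.eq_empty_or_nonempty with e | e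
  · rw [e, card_empty, Nat.cast_zero]; positivity
  · have d1 : ∑ _x ∈ D, a / 2 < ∑ x ∈ D, B x :=
      sum_lt_sum_of_nonempty e fun x hx => by linarith [(mem_filter.1 hx).2]
    have d2 : ∑ x ∈ D, B x ≤ ∑ x ∈ Z, B x :=
      sum_le_sum_of_subset_of_nonneg (filter_subset _ _) fun x _ _ => b0 x
    rw [sum_const, nsmul_eq_mul] at d1
    have d3 : (D.card : ℝ) * a < 6 / 10 ^ 6 * Z.card * a := by linarith
    have := lt_of_mul_lt_mul_right d3 a0
    linarith

theorem wt (y : X) (p : PL) :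
    (s.c p).W (oc s R cn (fun p => max (ghp s L G p y) (ghp s L G (s.bar p) y)) p) ≤
      3 / 2 * (ghp s L G p y + ghp s L G (s.bar p) y) := by
  have hc := h.good.good p
  have g1 := h.ghp_lo p y
  have g2 := h.ghp_lo (s.bar p) y
  have r0 := mul_pos hc.lam_pos (h.cen.R_pos p)
  rcases (le_max_of_le_left g1 : 0 ≤ max (ghp s L G p y) (ghp s L G (s.bar p) y)).eq_or_lt with
    e | e
  · rw [Cells.W_zero fun i _ k => ?_]
    · positivity
    · have := k.2.1
      simp only [← e, Real.exp_zero, mul_one] at this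
      exact not_lt.2 k.1 this
  · have k1 : gth s L p ≤ ghp s L G p y + ghp s L G (s.bar p) y := by
      have k : ∀ q, 0 < ghp s L G q y → gth s L q ≤ ghp s L G q y := fun q => by
        unfold ghp; split_ifs with u
        exacts [fun _ => u.le, fun v => absurd v (lt_irrefl _)]
      rcases lt_max_iff.1 e with u | u
      · linarith [k _ u]
      · linarith [k _ u, h.gth_bar p]
    have k2 := hc.c2 (cn p) _ _ r0 (le_mul_of_one_le_right r0.le (Real.one_le_exp e.le))
    rw [mul_div_cancel_left₀ _ r0.ne', Real.log_exp] at k2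
    refine (Cells.W_mono hc fun i hi k => ⟨k.2.2 _ ?_, k.1, k.2.1⟩).trans (k2.trans ?_)
    · have := max_le_add_of_nonneg g1 g2
      linarith [h.gth_ge p, h.xi_le p, hc.eta_hi, hc.eta_lo]
    · rw [hc.d_self]; exact (div_pos (hc.rho_pos i hi) hc.lam_pos).le

theorem mu_ge {T : Finset X} (hT : T ⊆ Z) (h9 : 9 * Z.card ≤ 10 * T.card) (h0 : Z.Nonempty)
    {g : PL → ℝ} (i : Σ p : PL, (s.c p).I) (k : oc s R cn g i.1 i.2.1) :
    ¬ (fam s Z R L rq).b i ∧ 1 - 2 / 10 ^ 6 ≤ (fam s Z R L rq).mu T i := by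
  have hc := h.good.good i.1
  refine ⟨fun b => not_lt.2 ((le_mul_of_one_le_left (h.cen.R_pos _).le hc.lam_lo).trans k.1)
    (h.bc_lt i.2.2 b), ?_⟩
  have h1 := h.cn_in i.1
  have h2 : (T \ i.2.1.2).card ≤ _ := card_le_card
    (t := Z.filter fun x => R i.1 < (s.c i.1).d (cn i.1) x) fun x hx => mem_filter.2
      ⟨hT (mem_sdiff.1 hx).1, lt_of_not_ge fun u => (mem_sdiff.1 hx).2 (k.2.2 x
        (u.trans ((le_div_iff₀' hc.lam_pos).2 k.1)))⟩
  have h3 := card_sdiff_add_card_inter T i.2.1.2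
  have h4 := h0.card_pos
  have h5 : (0 : ℝ) < T.card := by exact_mod_cast (show 0 < T.card by omega)
  have h6 : (499999 : ℝ) * T.card ≤ 500000 * (T ∩ i.2.1.2).card := by
    exact_mod_cast (show 499999 * T.card ≤ 500000 * (T ∩ i.2.1.2).card by omega)
  exact (le_div_iff₀ h5).2 (show _ ≤ ((T ∩ i.2.1.2).card : ℝ) by linarith)

end Cout2

open Cout2 Classical in
theorem out2 (h1 : OUT1) : OUT2 := by
  intro N X PL K _ _ _ s A η Z R L G rq cn W ε hN h Z' hZ y hy hP
  have hb := bad h (hZ hy)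
  set P := (Z'.erase y).filter fun x => ∃ z ∈ Z', z ≠ x ∧ z ≠ y ∧ s.lab x z = s.lab x y
  set D := Z.filter fun x => 2 * ∑ p, s.m p * (if cpin s R L cn y p x then ghp s L G p y else 0) <
    ∑ p, s.m p * ghp s L G p y
  have hm : ∀ x, ∃ z, x ∈ P → z ∈ Z' ∧ z ≠ x ∧ z ≠ y ∧ s.lab x z = s.lab x y := fun x => by
    by_cases u : x ∈ P
    · exact (mem_filter.1 u).2.imp fun z k _ => k
    · exact ⟨x, fun v => absurd v u⟩
  choose z hz using hm
  have pz : ∀ x ∈ P, x ≠ y ∧ x ∈ Z := fun x hx =>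
    (mem_erase.1 (mem_filter.1 hx).1).imp_right fun u => hZ u
  have c1 : ((P \ D).card : ℝ) ≤ N.k * ((P \ D).image z).card := by
    rw [card_eq_sum_card_image z, Nat.cast_sum, mul_comm, ← nsmul_eq_mul]
    refine sum_le_card_nsmul _ _ _ fun u hu => ?_
    obtain ⟨x, hx, rfl⟩ := mem_image.1 hu
    have k := hz x (mem_sdiff.1 hx).1
    refine le_trans (Nat.cast_le.2 (card_le_card fun v hv => ?_))
      (h.pin _ (hZ k.1) y (hZ hy) k.2.2.1)
    obtain ⟨v1, v2⟩ := mem_filter.1 hv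
    exact mem_filter.2 ⟨(pz v (mem_sdiff.1 v1).1).2,
      h.ari.lab _ _ _ (v2 ▸ (hz v (mem_sdiff.1 v1).1).2.2.2)⟩
  have c2 : (P.card : ℝ) ≤ (P \ D).card + D.card := by exact_mod_cast card_le_card_sdiff_add_card
  have c3 : (Z.card : ℝ) ≤ 2 * P.card := by exact_mod_cast hP
  have c4 : (Z.card : ℝ) ≤ 4 * N.k * ((P \ D).image z).card := by linarith
  refine ⟨(P \ D).image z, fun u hu => ?_, c4, fun T hT h9 => ?_⟩
  · obtain ⟨x, hx, rfl⟩ := mem_image.1 hu
    exact (hz x (mem_sdiff.1 hx).1).1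
  have Z0 : Z.Nonempty := ⟨y, hZ hy⟩
  refine disc_ge (fam s Z R L rq) (fam_w_lo h.good) (fun i => oc s R cn
    (fun p => max (ghp s L G p y) (ghp s L G (s.bar p) y)) i.1 i.2.1) ?_
    (fun i => mu_ge h hT h9 Z0 i) ?_ fun u hu => ?_
  · refine nonempty_iff_ne_empty.2 fun e => ?_
    have : (0 : ℝ) < Z.card := by exact_mod_cast Z0.card_pos
    rw [e, card_empty, Nat.cast_zero, mul_zero] at c4
    linarith
  · refine (fam_W s Z R L rq _).trans_le ((h.good.sum_le (wt h y)).trans_eq ?_)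
    have := h.good.sum_bar fun p => ghp s L G p y
    simp only [mul_left_comm _ (3 / 2 : ℝ), ← mul_sum, mul_add, sum_add_distrib]
    linarith
  · obtain ⟨x, hx, rfl⟩ := mem_image.1 hu
    obtain ⟨x1, x2⟩ := mem_sdiff.1 hx
    have k1 := h1 N X PL K s A η Z R L G rq cn W ε hN h y x (z x) (pz x x1).1 (hz x x1).2.1
      (hz x x1).2.2.2
    have k2 := not_lt.1 fun u => x2 (mem_filter.2 ⟨(pz x x1).2, u⟩)
    have k3 := fam_W s Z R L rq fun p i => oc s R cn
      (fun p => max (ghp s L G p y) (ghp s L G (s.bar p) y)) p i ∧ z x ∉ i.2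
    exact k2.trans (le_of_le_of_eq (by linarith) (congrArg (120 * ·) k3.symm))

end Pool.Agent.MP_ddf486_co.KV
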