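import Pool.Agent.MP_ddf486_co.KV.BasicC
import Pool.Agent.MP_6c3157_co.PQ.Dep

/-! Project KV, block C: radii that hold many points are not deep. -/

set_option autoImplicit false
set_option linter.unusedSectionVars false

noncomputable section

namespace Pool.Agent.MP_ddf486_co.KV

open Finset Pool.Agent.MP_6c3157_co.PD Pool.Agent.MP_6c3157_co.PQ

namespace Crad

variable {N : Nb} {X PL K : Type} [DecidableEq X] [Fintype PL] [Field K] {s : Sys X PL}
  {A : Ari X PL K} {η : ℝ} {Z : Finset X} {R L : PL → ℝ} {G rq : PL → X → ℝ} {cn : PL → X}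
  {W ε : ℝ}

theorem place (h : Fm N s A η Z R L G rq cn W ε) (T : Finset X) (x : X) (p : PL) (r a : ℝ)
    (ha : a ≤ (((s.c p).ball T x r).erase x).card) :
    a * max 0 (Real.log (R p / r)) ≤ ∑ z ∈ T.erase x, max 0 (dep s R p x z) := by
  classical
  have hR := h.cen.R_pos p
  have k1 : ∀ z ∈ ((s.c p).ball T x r).erase x,
      max 0 (Real.log (R p / r)) ≤ max 0 (dep s R p x z) := by
    intro z hz
    rw [mem_erase] at hz
    have hd := (h.good.good p).d_pos hz.1.symm
    have hr : (s.c p).d x z ≤ r := (mem_filter.1 hz.2).2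
    refine max_le_max le_rfl (Real.log_le_log (div_pos hR (hd.trans_le hr)) ?_)
    exact div_le_div_of_nonneg_left hR.le hd hr
  have k2 := card_nsmul_le_sum _ _ _ k1
  rw [nsmul_eq_mul] at k2
  refine ((mul_le_mul_of_nonneg_right ha (le_max_left _ _)).trans k2).trans ?_
  exact sum_le_sum_of_subset_of_nonneg (erase_subset_erase _ (filter_subset _ _))
    fun _ _ _ => le_max_left _ _

theorem one (h : Fm N s A η Z R L G rq cn W ε) {x : X} (hx : x ∈ Z) {T : Finset X} (hT : T ⊆ Z)
    (r : PL → ℝ) (a : ℝ) (ha : ∀ p, a ≤ (((s.c p).ball T x (r p)).erase x).card) :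
    a * ∑ p, s.m p * max 0 (Real.log (R p / r p)) ≤ 2 * W * T.card := by
  have hW := h.W_big
  have he := h.eW_le
  calc a * ∑ p, s.m p * max 0 (Real.log (R p / r p))
      = ∑ p, s.m p * (a * max 0 (Real.log (R p / r p))) := by
        rw [mul_sum]; exact sum_congr rfl fun p _ => mul_left_comm _ _ _
    _ ≤ ∑ p, s.m p * ∑ z ∈ T.erase x, max 0 (dep s R p x z) :=
        sum_le_sum fun p _ => mul_le_mul_of_nonneg_left (place h T x p _ a (ha p)) (h.good.m_lo p)
    _ = ∑ z ∈ T.erase x, ∑ p, s.m p * max 0 (dep s R p x z) := by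
        rw [sum_comm]; exact sum_congr rfl fun p _ => mul_sum _ _ _
    _ ≤ ∑ _z ∈ T.erase x, 2 * W := by
        refine sum_le_sum fun z hz => ?_
        rw [mem_erase] at hz
        have := (depS X PL s Z R G W ε h.good h.cen x hx z (hT hz.2) hz.1.symm).2.2.1
        linarith
    _ ≤ 2 * W * T.card := by
        rw [sum_const, nsmul_eq_mul, mul_comm]
        have : ((T.erase x).card : ℝ) ≤ T.card := by exact_mod_cast card_erase_le
        gcongr

end Crad

theorem crad : CRAD := by
  intro N X PL K _ _ _ s A η Z R L G rq cn W ε hN h x hx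
  refine ⟨fun T hT r a ha _ => Crad.one h hx hT r a (fun p => by convert ha p), ?_⟩
  have q1 : (2 : ℝ) ≤ N.q := le_trans (by norm_num) hN.q_big
  have q2 : (2 : ℝ) ≤ (N.q : ℝ) ^ 50 := q1.trans (le_self_pow₀ (by linarith) (by norm_num))
  have q3 : ((N.q : ℝ) ^ 50) ^ 2 ≤ Z.card := by
    rw [← pow_mul]
    exact (pow_le_pow_right₀ (by linarith) (by norm_num)).trans (h.card_big hN)
  have k := Crad.one h hx subset_rfl (fun p => rq p x) (Z.card / (2 * (N.q : ℝ) ^ 50)) (by
    intro p
    have h1 := h.rq_in p x hx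
    have h2 : (((s.c p).ball Z x (rq p x)).card : ℝ) ≤
        (((s.c p).ball Z x (rq p x)).erase x).card + 1 := by
      exact_mod_cast (pred_card_le_card_erase (s := (s.c p).ball Z x (rq p x)) (a := x) |>
        Nat.sub_le_iff_le_add.1)
    generalize (N.q : ℝ) ^ 50 = v at q2 q3 h1 ⊢
    rw [div_le_iff₀ (by linarith)]
    nlinarith)
  unfold lq
  generalize (N.q : ℝ) ^ 50 = v at q2 q3 k ⊢
  have z0 : (0 : ℝ) < Z.card := by nlinarith
  rw [div_mul_eq_mul_div, div_le_iff₀ (by linarith)] at k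
  refine le_of_mul_le_mul_left (k.trans_eq (by ring)) z0

end Pool.Agent.MP_ddf486_co.KV
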