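import Pool.Agent.MP_ddf486_co.KV.BasicC

/-! Project KV, block C, row RARE1: many pairs in common heavy refined cells. -/

set_option autoImplicit false
set_option linter.unusedSectionVars false

noncomputable section

namespace Pool.Agent.MP_ddf486_co.KV

open Finset Pool.Agent.MP_6c3157_co.PD Pool.Agent.MP_6c3157_co.PQ

namespace Crare1

theorem hB {u L : ℝ} {m : ℕ} (hu : 0 < u) (hu4 : 4 * u ≤ 1) (hL : 1 ≤ L)
    (h : L ^ 500 * u ^ m ≤ 1) : 1 ≤ (1 / (2 * u)) ^ m * (1 / L ^ 3) ^ 80 := by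
  have hL0 : 0 < L := by linarith
  have e1 : ((2 * u) ^ m * L ^ 240) ^ 2 ≤ 1 := by
    have a1 : ((2 * u) ^ m) ^ 2 ≤ u ^ m := by
      rw [← pow_mul, mul_comm m 2, pow_mul]
      exact pow_le_pow_left₀ (by positivity) (by nlinarith) m
    have a2 : (L ^ 240) ^ 2 ≤ L ^ 500 := by
      rw [← pow_mul]
      exact pow_le_pow_right₀ hL (by norm_num)
    rw [mul_pow]
    exact (mul_le_mul a1 a2 (by positivity) (by positivity)).trans ((mul_comm _ _).trans_le h)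
  have e2 : (2 * u) ^ m * L ^ 240 ≤ 1 := (pow_le_one_iff_of_nonneg (by positivity) two_ne_zero).1 e1
  rw [one_div_pow, one_div_pow, ← pow_mul, div_mul_div_comm, one_mul, le_div_iff₀ (by positivity),
    one_mul]
  exact e2

theorem he0 {e q : ℝ} {m : ℕ} (he : 0 < e) (he1 : e ≤ 1) (hm : 20 ≤ m)
    (h : 1 ≤ e ^ m * q ^ 40) : 1 ≤ e * q ^ 2 := by
  have a1 : e ^ m ≤ e ^ 20 := pow_le_pow_of_le_one he.le he1 hm
  have a2 : 1 ≤ (e * q ^ 2) ^ 20 := by
    rw [mul_pow, ← pow_mul]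
    exact h.trans (mul_le_mul_of_nonneg_right a1 (by positivity))
  exact (one_le_pow_iff_of_nonneg (by positivity) (by norm_num)).1 a2

theorem num {L q t W e : ℝ} (hL : 10 ^ 30 ≤ L) (hq : L ^ 30 ≤ q) (hW : 0 ≤ W)
    (ht : W ≤ t * L ^ 5) (he : 0 < e) (h : 1 ≤ e * q ^ 2) :
    4 * (1 / L ^ 3) ^ 2 * (6 * W) + 6400 * (1 / L ^ 3) ^ 2 * W + 300 / q ^ 3 * W / e ≤ t / 16 := by
  have hL1 : 1 ≤ L := le_trans (by norm_num) hL
  have hL0 : 0 < L := by linarith
  have hq0 : 0 < q := (pow_pos hL0 _).trans_le hq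
  have ht0 : 0 ≤ t := by
    by_contra k
    nlinarith [mul_pos (neg_pos.2 (not_le.1 k)) (pow_pos hL0 5)]
  have a1 : (1 / L ^ 3) ^ 2 * W ≤ t / L := by
    rw [one_div_pow, one_div_mul_eq_div, div_le_div_iff₀ (by positivity) hL0]
    calc W * L ≤ t * L ^ 5 * L := mul_le_mul_of_nonneg_right ht hL0.le
      _ = t * (L ^ 3) ^ 2 := by ring
  have a2 : 300 / q ^ 3 * W / e ≤ 300 * (t / L) := by
    have b1 : L ^ 6 ≤ q := (pow_le_pow_right₀ hL1 (by norm_num)).trans hq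
    have b2 : W * L ≤ t * q := by
      calc W * L ≤ t * L ^ 5 * L := mul_le_mul_of_nonneg_right ht hL0.le
        _ = t * L ^ 6 := by ring
        _ ≤ t * q := mul_le_mul_of_nonneg_left b1 ht0
    have b3 : t * q ≤ t * q * (e * q ^ 2) := le_mul_of_one_le_right (by positivity) h
    rw [div_mul_eq_mul_div, div_div, ← mul_div_assoc, div_le_div_iff₀ (by positivity) hL0]
    nlinarith
  have a3 : t / L ≤ t / 10 ^ 30 := div_le_div_of_nonneg_left ht0 (by norm_num) hL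
  nlinarith

end Crare1

open Crare1 in
theorem rare1 (h : SUMM) : RARE1 := by
  intro N X PL K _ _ _ s A η Z R L G rq cn W ε hN hF D hD Z' hZ' t e ht he he1 hq hE
  classical
  let E : X → X → Prop := fun y z => y ≠ z ∧ t ≤ 8 * om2 D y z
  have hed : ed Z' (fun y z => t ≤ 8 * om2 D y z) = ec E Z' Z' := by
    unfold ed ec
    congr
  rw [hed] at hE
  have hLb := hN.L_big
  have hL1 := hN.L_one
  have hL0 : 0 < N.L := by linarith
  have hLq := hN.L_q
  have hqb := hN.q_big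
  have hq1 : (1 : ℝ) ≤ N.q := le_trans (by norm_num) hqb
  have hq0 : (0 : ℝ) < N.q := by linarith
  have hcb := hF.card_big hN
  have hn0 : (0 : ℝ) < Z.card := (pow_pos hq0 _).trans_le hcb
  have hW := hF.W_big
  have hW0 : 0 ≤ W := by linarith
  have hm := hN.m_lo
  have he4 : 0 < e / 4 := by positivity
  obtain ⟨S, hS, hcut⟩ := mcut X E Z' fun x k => k.1 rfl
  have hcut' : (ec E Z' Z' : ℝ) ≤ 4 * ec E S (Z' \ S) := by exact_mod_cast hcut
  obtain ⟨m, hm'⟩ : ∃ m, N.m = m + 1 := ⟨N.m - 1, by omega⟩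
  obtain ⟨T, hT, T', hT', k1, k2, hX⟩ := extm X E S (Z' \ S) (e / 4) Z.card Z.card m he4 hn0 hn0
    (Nat.cast_le.2 (card_le_card (hS.trans hZ')))
    (Nat.cast_le.2 (card_le_card (sdiff_subset.trans hZ'))) (by nlinarith)
  rw [← hm'] at k1 k2
  have hTZ : T ⊆ Z := hT.trans (hS.trans hZ')
  have hTZ' : T' ⊆ Z := hT'.trans (sdiff_subset.trans hZ')
  have hd : Disjoint T T' :=
    Finset.disjoint_of_subset_left hT (Finset.disjoint_of_subset_right hT' disjoint_sdiff)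
  have big : ∀ U : Finset X, (e / 4) ^ N.m * Z.card ≤ U.card →
      (Z.card : ℝ) ≤ (N.q : ℝ) ^ 40 * U.card := fun U k =>
    (le_mul_of_one_le_left hn0.le hq).trans (by
      have := mul_le_mul_of_nonneg_left k (pow_pos hq0 40).le
      linarith)
  have big2 : ∀ U : Finset X, (Z.card : ℝ) ≤ (N.q : ℝ) ^ 40 * U.card →
      (N.q : ℝ) ^ 960 ≤ U.card := fun U k => by
    have := hcb.trans k
    rw [show 1000 = 40 + 960 from rfl, pow_add] at this
    exact le_of_mul_le_mul_left this (pow_pos hq0 40)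
  have fr : ∀ U : Finset X, (Z.card : ℝ) ≤ (N.q : ℝ) ^ 40 * U.card →
      4 * Z.card / (N.q : ℝ) ^ 45 * (((N.q ^ 3 : ℕ) : ℝ) + 1) ≤ U.card := fun U k => by
    push_cast
    rw [div_mul_eq_mul_div, div_le_iff₀ (by positivity)]
    have b1 : (1 : ℝ) ≤ (N.q : ℝ) ^ 3 := one_le_pow₀ hq1
    have b2 : (8 : ℝ) ≤ (N.q : ℝ) ^ 2 := by nlinarith
    calc 4 * (Z.card : ℝ) * ((N.q : ℝ) ^ 3 + 1)
        ≤ 4 * ((N.q : ℝ) ^ 40 * U.card) * ((N.q : ℝ) ^ 3 + (N.q : ℝ) ^ 3) := by gcongr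
      _ = 8 * (U.card * (N.q : ℝ) ^ 43) := by ring
      _ ≤ (N.q : ℝ) ^ 2 * (U.card * (N.q : ℝ) ^ 43) := by gcongr
      _ = U.card * (N.q : ℝ) ^ 45 := by ring
  have c1 := big T k1
  have c2 := big T' k2
  have c3 := big2 T c1
  have c4 := big2 T' c2
  have hT0 : (0 : ℝ) < T.card := (pow_pos hq0 _).trans_le c3
  have hT0' : (0 : ℝ) < T'.card := (pow_pos hq0 _).trans_le c4
  have hr : 0 < 1 / N.L ^ 3 := by positivity
  have hr2 : 1 / N.L ^ 3 ≤ 1 / 2 :=
    one_div_le_one_div_of_le (by norm_num)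
      (le_trans (le_trans (by norm_num) hLb) (le_self_pow₀ hL1 (by norm_num)))
  have hb2 : 2 ≤ N.q ^ 3 := by
    have : (2 : ℝ) ≤ (N.q : ℝ) ^ 3 :=
      le_trans (le_trans (by norm_num) hqb) (le_self_pow₀ hq1 (by norm_num))
    exact_mod_cast this
  obtain ⟨I, hI, hI'⟩ := sp2 hF.ari hF.cen hD T T' (N.q ^ 3) (4 * Z.card / (N.q : ℝ) ^ 45)
    (4 * Z.card / (N.q : ℝ) ^ 45) (1 / N.L ^ 3) (300 / (N.q : ℝ) ^ 3) hTZ hTZ' hd
    (card_pos.1 (Nat.cast_pos.1 hT0)) (card_pos.1 (Nat.cast_pos.1 hT0')) hb2 (by positivity)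
    (by positivity) (fun k hk => Rare.free_sub (hF.free k hk) hTZ)
    (fun k hk => Rare.free_sub (hF.free k hk) hTZ') (fr T c1) (fr T' c2) hr hr2
    (by push_cast; rw [div_mul_cancel₀ _ (by positivity)])
  have hu := hN.u_pos
  have hu4 : 4 * N.u ≤ 1 := by
    have := hN.u_le
    have : (1 : ℝ) / 10 ^ 30 ≤ 1 / 4 := by norm_num
    linarith
  have d1 : 4 * (Z.card : ℝ) ≤ (T.card : ℝ) ^ 2 := by
    have b1 : 4 * (N.q : ℝ) ^ 40 ≤ (N.q : ℝ) ^ 960 := by
      rw [show 960 = 920 + 40 from rfl, pow_add]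
      exact mul_le_mul_of_nonneg_right
        (le_trans (le_trans (by norm_num) hqb) (le_self_pow₀ hq1 (by norm_num))) (by positivity)
    have b2 := mul_le_mul_of_nonneg_right (b1.trans c3) hT0.le
    rw [sq]
    linarith
  have d2 : 2 ≤ (1 / N.L ^ 3) ^ 20 * (T.card : ℝ) := by
    rw [one_div_pow, one_div_mul_eq_div, le_div_iff₀ (by positivity), ← pow_mul,
      show 3 * 20 = 30 * 2 from rfl, pow_mul]
    refine le_trans ?_ c3
    rw [show 960 = 958 + 2 from rfl, pow_add]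
    exact mul_le_mul (le_trans (le_trans (by norm_num) hqb) (le_self_pow₀ hq1 (by norm_num)))
      (pow_le_pow_left₀ (by positivity) hLq 2) (by positivity) (by positivity)
  have key := h X PL D E T T' (e / 4) (1 / N.L ^ 3) Z.card (1 / (2 * N.u)) (t / 8) (6 * W) W
    (300 / (N.q : ℝ) ^ 3) m I hD.om_lo hX (by omega) he4 hr (by linarith) (by positivity)
    (hm' ▸ hB hu hu4 hL1 hN.mL) hW0 (by positivity) (Nat.cast_le.2 (card_le_card hTZ')) d1 d2
    (fun y _ z _ k => by have := k.2; linarith)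
    (fun y hy z hz k => (dpw2 hF.good hF.cen hD).1 y (hTZ hy) z (hTZ hz) k) hI hI'
  have k3 := num hLb hLq hW0 ht he4 (he0 he4 (by linarith) hm hq)
  refine ⟨T, hT.trans hS, T', hT'.trans sdiff_subset, hd, k1, k2, ?_⟩
  generalize ∑ y ∈ T, ∑ z ∈ T', omh D T T' ((1 / N.L ^ 3) ^ 20) ((1 / N.L ^ 3) ^ 60) y z = V
    at key ⊢
  have k4 : t / 16 ≤ 1 / (2 * N.u) * V / (T.card * T'.card) := by linarith
  rw [one_div_mul_eq_div, div_div, div_le_div_iff₀ (by norm_num) (by positivity)] at k4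
  linarith

end Pool.Agent.MP_ddf486_co.KV
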