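import Pool.Agent.MP_ddf486_co.KV.BasicC

/-! Project KV, block C: the field `rare`. -/

set_option autoImplicit false

namespace Pool.Agent.MP_ddf486_co.KV

open Finset Pool.Agent.MP_6c3157_co.PD Pool.Agent.MP_6c3157_co.PQ

namespace Crare2

/-- a subset of given size with at least the average weight -/
lemma cut {X : Type} [DecidableEq X] (g : X → ℝ) (k : ℕ) : ∀ (j : ℕ) (T : Finset X), T.card = j →
    k ≤ j → ∃ S ⊆ T, S.card = k ∧ k * ∑ x ∈ T, g x ≤ j * ∑ x ∈ S, g x := by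
  intro j
  induction j with
  | zero => exact fun T _ hk => ⟨∅, empty_subset _, by simp; omega, by simp [Nat.le_zero.1 hk]⟩
  | succ j ih =>
    intro T hT hk
    rcases hk.eq_or_lt with rfl | hk
    · exact ⟨T, Subset.refl _, hT, le_rfl⟩
    rcases Nat.eq_zero_or_pos k with rfl | hk0
    · exact ⟨∅, empty_subset _, rfl, by simp⟩
    obtain ⟨x, hx, hmin⟩ := T.exists_min_image g (card_pos.1 (by omega))
    have hc : (T.erase x).card = j := by rw [card_erase_of_mem hx, hT]; rfl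
    obtain ⟨S, hS, hSk, h1⟩ := ih (T.erase x) hc (by omega)
    refine ⟨S, hS.trans (erase_subset _ _), hSk, ?_⟩
    have h2 := card_nsmul_le_sum (T.erase x) g (g x) fun y hy => hmin y (mem_of_mem_erase hy)
    rw [hc, nsmul_eq_mul] at h2
    have hj : (0 : ℝ) < j := by exact_mod_cast (by omega : 0 < j)
    have hk' : (0 : ℝ) ≤ k := Nat.cast_nonneg k
    rw [← add_sum_erase T g hx]
    refine le_of_mul_le_mul_left ?_ hj
    push_cast
    nlinarith [mul_le_mul_of_nonneg_left h2 hk', mul_le_mul_of_nonneg_left h1 hj.le]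

end Crare2

theorem rare2 (h1 : RARE1) (h2 : HVC) : RARE2 := by
  intro N X PL K _ _ _ s A η Z R L G rq cn W ε hN h D hD Z' hZ' t e ht he he1 hq hed
  obtain ⟨T₁, hT₁, T₂, hT₂, hdis, c1, c2, hsum⟩ :=
    h1 N X PL K s A η Z R L G rq cn W ε hN h D hD.good Z' hZ' t e ht he he1 hq hed
  have hL := hN.L_one
  have hZ : (0 : ℝ) < Z.card := lt_of_lt_of_le (by have := hN.q_big; positivity) (h.card_big hN)
  have p1 : (0 : ℝ) < T₁.card := lt_of_lt_of_le (by positivity) c1
  have p2 : (0 : ℝ) < T₂.card := lt_of_lt_of_le (by positivity) c2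
  set a := (1 / N.L ^ 3) ^ 20 with ha
  set a' := (1 / N.L ^ 3) ^ 60 with ha'
  have haa : a' ≤ a := pow_le_pow_of_le_one (by positivity)
    ((div_le_one (by positivity)).2 (one_le_pow₀ hL)) (by norm_num)
  obtain ⟨T, hT, T', hT', hc, hbig, hs, B, hB, hBc, hsh⟩ : ∃ T ⊆ T₁, ∃ T' ⊆ T₂, T.card = T'.card ∧
      (e / 4) ^ N.m * Z.card ≤ T.card ∧
      N.u * t * (T.card : ℝ) ^ 2 ≤ ∑ y ∈ T, ∑ z ∈ T', 8 * omh D T₁ T₂ a a' y z ∧
      ∃ B ⊆ T ∪ T', B.card = T.card ∧
        ∀ i y, a ≤ D.sh i T₁ y → a' ≤ D.sh i T₂ y → a' ≤ D.sh i B y := by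
    simp only [← mul_sum]
    rcases le_total T₁.card T₂.card with hle | hle
    · obtain ⟨S, hS, hSc, h3⟩ := Crare2.cut (fun z => ∑ y ∈ T₁, omh D T₁ T₂ a a' y z) _ _ T₂ rfl hle
      refine ⟨T₁, Subset.refl _, S, hS, hSc.symm, c1, ?_, T₁, subset_union_left, rfl,
        fun i y h4 _ => haa.trans h4⟩
      rw [sum_comm] at hsum ⊢
      refine le_of_mul_le_mul_left ?_ p2
      nlinarith [mul_le_mul_of_nonneg_left hsum p1.le]
    · obtain ⟨S, hS, hSc, h3⟩ := Crare2.cut (fun y => ∑ z ∈ T₂, omh D T₁ T₂ a a' y z) _ _ T₁ rfl hle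
      refine ⟨S, hS, T₂, Subset.refl _, hSc, hSc ▸ c2, ?_, T₂, subset_union_right, hSc.symm,
        fun i y _ h4 => h4⟩
      rw [hSc]
      refine le_of_mul_le_mul_left ?_ p1
      nlinarith [mul_le_mul_of_nonneg_left hsum p2.le]
  have hd : Disjoint T T' := hdis.mono hT hT'
  have hU : ((T ∪ T').card : ℝ) = 2 * B.card := by
    rw [card_union_of_disjoint hd, ← hc, hBc]; push_cast; ring
  have pB : (0 : ℝ) < B.card := by rw [hBc]; exact lt_of_lt_of_le (by positivity) hbig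
  refine ⟨T, hT.trans hT₁, T', hT'.trans hT₂, hd, hc, hbig, fun y z => 8 * omh D T₁ T₂ a a' y z,
    fun i => (N.q : ℝ) ^ 50 * (Z ∩ (fam s Z R L rq).S i).card ≤ Z.card ∧
      ((T ∪ T').card : ℝ) / N.L ^ 200 ≤ ((T ∪ T') ∩ (fam s Z R L rq).S i).card,
    fun y hy z hz => ?_, hs, fun i hi => ⟨hi.1, ?_⟩⟩
  · have h0 : 0 ≤ omh D T₁ T₂ a a' y z :=
      sum_nonneg fun i _ => by split_ifs; exacts [hD.good.om_lo i, le_rfl]
    have h3 : omh D T₁ T₂ a a' y z ≤ om2 D y z := sum_le_sum fun i _ => by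
      split_ifs with h4 h5
      exacts [le_rfl, absurd h4.1 h5, hD.good.om_lo i, le_rfl]
    have h4 := h2 N X PL K s A η Z R L G rq cn W ε hN h D hD y (hZ' (hT₁ (hT hy))) z
      (fun hyz => disjoint_left.1 hd hy (hyz ▸ hz)) (T ∪ T') (((T ∪ T').card : ℝ) / N.L ^ 200)
      (fun i => D.cl i y = D.cl i z ∧ a ≤ D.sh i T₁ y ∧ a' ≤ D.sh i T₂ y) fun i hi => ⟨hi.1, by
        have h5 := hsh i y hi.2.1 hi.2.2
        rw [Dbl.sh, le_div_iff₀ pB] at h5
        have h6 : ((D.cell i B y).card : ℝ) ≤ (D.cell i (T ∪ T') y).card := by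
          exact_mod_cast card_le_card (filter_subset_filter _ hB)
        have h7 : 2 ≤ a' * N.L ^ 200 := by
          have h8 : a' * N.L ^ 200 = N.L ^ 20 := by rw [ha']; field_simp
          have := hN.L_big
          rw [h8]
          exact le_trans (by linarith) (le_self_pow₀ hL (by norm_num))
        rw [hU, div_le_iff₀ (by positivity)]
        calc 2 * (B.card : ℝ) ≤ a' * N.L ^ 200 * B.card := by gcongr
          _ = a' * B.card * N.L ^ 200 := by ring
          _ ≤ _ := by gcongr; exact h5.trans h6⟩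
    have h5 : omh D T₁ T₂ a a' y z ≤ _ := le_of_eq_of_le (by unfold omh; congr!) h4
    exact ⟨by linarith, by linarith, by linarith⟩
  · have := hi.2
    rwa [div_le_iff₀ (by positivity), mul_comm] at this

end Pool.Agent.MP_ddf486_co.KV
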