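import Pool.Agent.MP_ddf486_co.KV.BasicC

/-! Project KV, block C, row RDC: the refined double cells exist. -/

set_option autoImplicit false

namespace Pool.Agent.MP_ddf486_co.KV

open Finset Pool.Agent.MP_6c3157_co.PD Pool.Agent.MP_6c3157_co.PQ

namespace Crdc

theorem floors_aux {a b : ℝ} (ha : 0 ≤ a) (hab : a ≤ b) (h : b ≤ a + 1 / 2) :
    ⌊a⌋₊ = ⌊b⌋₊ ∨ ⌊a + 1 / 2⌋₊ = ⌊b + 1 / 2⌋₊ := by
  rcases (Nat.floor_le_floor hab).eq_or_lt with k | k
  · exact Or.inl k
  · have h1 : a < ⌊b⌋₊ := (Nat.floor_lt ha).1 k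
    have h2 : (⌊b⌋₊ : ℝ) ≤ b := Nat.floor_le (ha.trans hab)
    refine Or.inr (Eq.trans (b := ⌊b⌋₊) ?_ (Eq.symm ?_))
    · exact (Nat.floor_eq_iff (by linarith)).2 ⟨by linarith, by linarith⟩
    · exact (Nat.floor_eq_iff (by linarith)).2 ⟨by linarith, by linarith⟩

theorem floors {a b : ℝ} (ha : 0 ≤ a) (hb : 0 ≤ b) (h : |a - b| ≤ 1 / 2) :
    ∃ j : Fin 2, ⌊a + ((j : ℕ) : ℝ) / 2⌋₊ = ⌊b + ((j : ℕ) : ℝ) / 2⌋₊ := by
  obtain ⟨h1, h2⟩ := abs_le.1 h
  have key : ⌊a⌋₊ = ⌊b⌋₊ ∨ ⌊a + 1 / 2⌋₊ = ⌊b + 1 / 2⌋₊ := by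
    rcases le_total a b with k | k
    · exact floors_aux ha k (by linarith)
    · exact (floors_aux hb k (by linarith)).imp Eq.symm Eq.symm
  rcases key with k | k
  · exact ⟨0, by simpa using k⟩
  · exact ⟨1, by simpa using k⟩

end Crdc

open Crdc DblAux in
theorem rdc : RDC := by
  intro N X PL K _ _ _ s A η Z R L G rq cn W ε _ h
  classical
  have hA := h.ari
  have hs := h.good
  have hR := h.cen.R_pos
  have hξ := h.xi_pos
  have hx := h.xs_pos
  obtain ⟨n, hn⟩ : ∃ n : ℕ, ∀ p, Real.log (R p / (256 * (s.c p).rlo)) ≤ n * (s.c p).xi := by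
    obtain ⟨M, hM⟩ := (Set.finite_range fun p =>
      Real.log (R p / (256 * (s.c p).rlo)) / (s.c p).xi).bddAbove
    obtain ⟨n, hn⟩ := exists_nat_ge M
    exact ⟨n, fun p => (div_le_iff₀ (hξ p)).1 ((hM ⟨p, rfl⟩).trans hn)⟩
  have hpart : ∀ (q : PL) (l : ℝ), ∃ g : Fin 5 → X → ℕ,
      (∀ j x y, g j x = g j y → (s.c q).d x y ≤ (s.c q).lam ^ 3 * (R q * Real.exp (-l))) ∧
      ∀ x y, (s.c q).d x y ≤ R q * Real.exp (-l) →
        ((univ : Finset (Fin 5)).filter fun j => g j x ≠ g j y).card ≤ 2 :=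
    fun q l => hA.part q _ (mul_pos (hR q) (Real.exp_pos _))
  choose g g1 g2 using hpart
  let e := (Fintype.equivFin (PL × Fin n × Fin 5 × Fin 2)).symm
  let l2 : PL → X → ℝ := fun p y => lq R rq p y + ga s L p / 4
  let io : PL → Fin 2 → X → ℕ := fun p j y => ⌊l2 p y / (2 * xs s p) + ((j : ℕ) : ℝ) / 2⌋₊
  let lv : PL → Fin n → ℝ := fun p k => (((k : ℕ) : ℝ) + 1) * (2 * xs s p)
  let om : PL → ℝ := fun p => s.m p * xs s p
  let cl : PL × Fin n × Fin 5 × Fin 2 → X → ℕ := fun a y =>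
    Nat.pair (io a.1 a.2.2.2 y) (Nat.pair
      (g a.1 (((io a.1 a.2.2.2 y : ℝ) + 1) * (2 * xs s a.1) + lv a.1 a.2.1) a.2.2.1 y)
      (g (s.bar a.1) (lv a.1 a.2.1) a.2.2.1 y))
  have om0 : ∀ p, 0 ≤ om p := fun p => mul_nonneg (hs.m_lo _) (hx _).le
  have l20 : ∀ p y, 0 ≤ l2 p y := fun p y =>
    add_nonneg (lq_nonneg _ _ _ _) (by linarith [h.ga_pos p])
  have io1 : ∀ p j y, l2 p y ≤ ((io p j y : ℝ) + 1) * (2 * xs s p) := fun p j y => by
    have h0 : 0 < 2 * xs s p := by linarith [hx p]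
    have h1 := Nat.lt_floor_add_one (l2 p y / (2 * xs s p) + ((j : ℕ) : ℝ) / 2)
    have h2 : (0 : ℝ) ≤ ((j : ℕ) : ℝ) / 2 := by positivity
    rw [← div_le_iff₀ h0]
    exact le_trans (by linarith) h1.le
  have io2 : ∀ p j y, (io p j y : ℝ) * (2 * xs s p) ≤ l2 p y + xs s p := fun p j y => by
    have h0 : 0 < 2 * xs s p := by linarith [hx p]
    have h2 : ((j : ℕ) : ℝ) ≤ 1 := by exact_mod_cast Nat.lt_succ_iff.1 j.2
    have h1 : (io p j y : ℝ) ≤ l2 p y / (2 * xs s p) + ((j : ℕ) : ℝ) / 2 :=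
      Nat.floor_le (add_nonneg (div_nonneg (l20 p y) h0.le) (by positivity))
    have h3 := mul_le_mul_of_nonneg_right (h1.trans (add_le_add_right
      (show ((j : ℕ) : ℝ) / 2 ≤ 1 / 2 by linarith) _)) h0.le
    rw [add_mul, div_mul_cancel₀ _ h0.ne'] at h3
    linarith
  have deep : ∀ a y z, cl a y = cl a z → (s.c a.1).d y z ≤ (s.c a.1).lam ^ 3 *
      (R a.1 * Real.exp (-(lv a.1 a.2.1 + l2 a.1 y))) := fun a y z k => by
    obtain ⟨k1, k2⟩ := Nat.pair_eq_pair.1 k
    have k3 := (Nat.pair_eq_pair.1 k2).1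
    rw [← k1] at k3
    refine (g1 _ _ _ _ _ k3).trans (mul_le_mul_of_nonneg_left (mul_le_mul_of_nonneg_left
      (Real.exp_le_exp.2 ?_) (hR _).le) (pow_nonneg (hs.good _).lam_pos.le _))
    linarith [io1 a.1 a.2.2.2 y]
  refine ⟨⟨_, fun i => om (e i).1, fun i => cl (e i), fun i => (e i).1,
    fun i => lv (e i).1 (e i).2.1⟩, ⟨fun i => om0 _, fun t ht => ?_, fun i x y hxy k => ?_⟩,
    fun i y z k => ?_, fun p y z hyz hl => ?_⟩
  · refine (e.sum_comp fun a => if lv a.1 a.2.1 ≤ t a.1 then om a.1 else 0).trans_le ?_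
    rw [Fintype.sum_prod_type, mul_sum]
    refine sum_le_sum fun p _ => ?_
    rw [Fintype.sum_prod_type]
    have h0 : 0 < 2 * xs s p := by linarith [hx p]
    have h1 := (le_min_iff.1 (cnt_bd h0 (ht p) n).1).2
    have h2 : ∀ k : Fin n, (∑ j : Fin 5 × Fin 2, if lv p k ≤ t p then om p else 0) =
        5 * s.m p * if (((k : ℕ) : ℝ) + 1) * (2 * xs s p) ≤ t p then 2 * xs s p else 0 :=
      fun k => by
        simp only [lv, om, sum_const, card_univ, Fintype.card_prod, Fintype.card_fin, nsmul_eq_mul]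
        split_ifs <;> push_cast <;> ring
    simp only [h2, ← mul_sum]
    rw [mul_assoc]
    exact mul_le_mul_of_nonneg_left (mul_le_mul_of_nonneg_left h1 (hs.m_lo p)) (by norm_num)
  · have k1 := dep_ge ((hs.good _).d_pos hxy) (hR _) (hs.good _).lam_pos (hs.good _).log_lam
      (deep _ _ _ k)
    have k2 := dep_ge ((hs.good _).d_pos hxy) (hR _) (hs.good _).lam_pos
      ((hs.lam_bar (e i).1).symm ▸ (hs.good (e i).1).log_lam)
      (g1 _ _ _ _ _ (Nat.pair_eq_pair.1 (Nat.pair_eq_pair.1 k).2).2)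
    rw [← min_add_add_right]
    exact le_min (le_trans (le_add_of_nonneg_right (l20 _ _)) k1) k2
  · have k1 := deep _ _ _ k
    simp only [l2, ← add_assoc] at k1
    exact k1
  · have nn : ∀ (c : Prop) [Decidable c] (q : PL), 0 ≤ if c then om q else 0 :=
      fun c _ q => by split_ifs; exacts [om0 _, le_rfl]
    refine le_trans ?_ (mul_le_mul_of_nonneg_left (e.sum_comp fun a =>
      if a.1 = p ∧ cl a y = cl a z then om a.1 else 0).symm.le (by norm_num))
    rw [Fintype.sum_prod_type]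
    refine le_trans ?_ (mul_le_mul_of_nonneg_left (single_le_sum
      (fun q _ => sum_nonneg fun b _ => nn _ _) (mem_univ p)) (by norm_num))
    have h0 : 0 < 2 * xs s p := by linarith [hx p]
    have hxp := hx p
    set M := min (dep s R p y z - lq R rq p y - ga s L p / 4) (dep s R (s.bar p) y z) with hM
    have M1 : M ≤ dep s R p y z - l2 p y := (min_le_left _ _).trans_eq (by simp only [l2]; ring)
    have M2 : M ≤ dep s R (s.bar p) y z := min_le_right _ _
    rcases le_or_gt (M - 3 * xs s p) 0 with c0 | c0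
    · exact le_trans (mul_nonpos_of_nonneg_of_nonpos (hs.m_lo p) (by linarith))
        (mul_nonneg (by norm_num) (sum_nonneg fun b _ => nn _ _))
    have d1 : dep s R p y z ≤ n * (2 * xs s p) := by
      refine le_trans (Real.log_le_log (div_pos (hR p) ((hs.good p).d_pos hyz)) ?_)
        ((hn p).trans (mul_le_mul_of_nonneg_left (by linarith [h.xi_le p]) (Nat.cast_nonneg n)))
      have := (hs.good p).rlo_pos
      exact div_le_div_of_nonneg_left (hR p).le (by positivity) ((hs.good p).d_lo y z hyz)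
    have h1 := (cnt_bd h0 c0.le n).2
    rw [min_eq_right (by linarith [l20 p y])] at h1
    have h2 := mul_le_mul_of_nonneg_left h1 (hs.m_lo p)
    rw [mul_sum, show M - 3 * xs s p - 2 * xs s p = M - 5 * xs s p by ring] at h2
    rw [Fintype.sum_prod_type, mul_sum]
    refine h2.trans (sum_le_sum fun k _ => ?_)
    split_ifs with c
    · obtain ⟨j2, hj⟩ := floors (div_nonneg (l20 p y) h0.le) (div_nonneg (l20 p z) h0.le) (by
        rw [← sub_div, abs_div, abs_of_pos h0, div_le_iff₀ h0]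
        simp only [l2, add_sub_add_right_eq_sub]
        linarith)
      have hj' : io p j2 y = io p j2 z := hj
      have c1 : ((io p j2 y : ℝ) + 1) * (2 * xs s p) + lv p k ≤ dep s R p y z := by
        have := io2 p j2 y
        simp only [lv]
        linarith
      have c2 : lv p k ≤ dep s R (s.bar p) y z := by
        simp only [lv]
        linarith
      obtain ⟨j, j1, j3⟩ := common _ _
        (g2 p _ y z (le_of_dep ((hs.good _).d_pos hyz) (hR _) c1))
        (g2 (s.bar p) _ y z (le_of_dep ((hs.good _).d_pos hyz) (hR _) c2))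
      refine le_trans (le_of_eq ?_) (mul_le_mul_of_nonneg_left
        (single_le_sum (fun b _ => nn _ _) (mem_univ (j, j2))) (by norm_num))
      rw [if_pos ⟨rfl, Nat.pair_eq_pair.2 ⟨hj', Nat.pair_eq_pair.2 ⟨by rw [← hj']; exact j1, j3⟩⟩⟩]
      simp only [om]
      ring
    · rw [mul_zero]
      exact mul_nonneg (by norm_num) (sum_nonneg fun b _ => nn _ _)

end Pool.Agent.MP_ddf486_co.KV
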