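import Pool.Agent.MP_ddf486_co.KV.BasicC

/-! Project KV, block C, row CSEP: small cells separate most triples. -/

set_option autoImplicit false
set_option linter.unusedSectionVars false

noncomputable section

namespace Pool.Agent.MP_ddf486_co.KV

open Finset Pool.Agent.MP_6c3157_co.PD Pool.Agent.MP_6c3157_co.PQ

namespace Csep

variable {N : Nb} {X PL K : Type} [DecidableEq X] [Fintype PL] [Field K] {s : Sys X PL}
  {A : Ari X PL K} {η : ℝ} {Z : Finset X} {R L : PL → ℝ} {G rq : PL → X → ℝ} {cn : PL → X}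
  {W ε : ℝ}

theorem place (h : Fm N s A η Z R L G rq cn W ε) (p : PL) {x y z : X} (hx : x ∈ Z) (hz : z ∈ Z)
    (hxy : x ≠ y) :
    max 0 (Real.log ((s.c p).d x z / (s.c p).d x y)) ≤
      4 * (s.c p).W (fun i => bc s Z R L rq p i ∧ x ∈ i.2 ∧ y ∈ i.2 ∧ z ∉ i.2) +
        min (max 0 (dep s R p x y)) (lq R rq p x) + ga s L p + G p x + G p z + 6 * (s.c p).xi := by
  have hc := h.good.good p
  set Wp := (s.c p).W (fun i => bc s Z R L rq p i ∧ x ∈ i.2 ∧ y ∈ i.2 ∧ z ∉ i.2) with hWp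
  have W0 : 0 ≤ Wp := Cells.W_nonneg hc
  have g0 := h.ga_pos p
  have Gx := h.cen.G_lo p x
  have Gz := h.cen.G_lo p z
  have x0 := hc.xi_nonneg
  have m0 : 0 ≤ min (max 0 (dep s R p x y)) (lq R rq p x) :=
    le_min (le_max_left _ _) (lq_nonneg _ _ _ _)
  refine max_le (by positivity) ?_
  by_cases hxz : x = z
  · rw [← hxz, hc.d_self, zero_div, Real.log_zero]
    positivity
  have dy := hc.d_pos hxy
  have dz := hc.d_pos hxz
  have hl := hc.lam_pos
  have hR := h.cen.R_pos p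
  have hB := h.rB_pos p hx
  have l0 : 0 ≤ Real.log (s.c p).lam := Real.log_nonneg hc.lam_lo
  have l1 := hc.log_lam
  have e1 := hc.eta_hi
  have e0 := hc.eta_lo
  have b1 := h.dep_ge p hx hz hxz
  have b2 : max (G p x) (G p z) ≤ G p x + G p z := max_le (by linarith) (by linarith)
  have b3 : dep s R p x y ≤ max 0 (dep s R p x y) := le_max_right _ _
  have k : Real.log (min (rB s R L rq p x) ((s.c p).d x z / (s.c p).lam)) ≤
      4 * Wp + Real.log (s.c p).lam + Real.log ((s.c p).d x y) + (s.c p).eta := by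
    set B := min (rB s R L rq p x) ((s.c p).d x z / (s.c p).lam) with hBd
    have B0 : 0 < B := lt_min hB (div_pos dz hl)
    rcases le_total ((s.c p).lam * (s.c p).d x y) B with o | o
    · have c3 := hc.c3 x _ B (by nlinarith [hc.d_lo x y hxy, hc.rlo_pos, hc.lam_lo]) o
        ((min_le_left _ _).trans ((h.rB_le p hx).trans (h.R_hi p)))
      have : _ ≤ Wp := c3.trans (Cells.W_mono hc fun i hi hj => ⟨h.bc_of_lt hi hx hj.1
        (hj.2.2.1.trans_le (min_le_left _ _)), hj.1,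
        hj.2.2.2 y (by rw [le_div_iff₀' hl]; exact hj.2.1), fun hzi => by
          have a1 := hc.c1 i hi x hj.1 z hzi
          have a2 := (lt_div_iff₀' hl).1 (hj.2.2.1.trans_le (min_le_right _ _))
          linarith⟩)
      rw [Real.log_div B0.ne' (by positivity), Real.log_mul hl.ne' dy.ne'] at this
      linarith
    · have := Real.log_le_log B0 o
      rw [Real.log_mul hl.ne' dy.ne'] at this
      linarith
  have dd : ∀ v, x ≠ v → dep s R p x v = Real.log (R p) - Real.log ((s.c p).d x v) :=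
    fun v hv => Real.log_div hR.ne' (hc.d_pos hv).ne'
  rw [dd z hxz] at b1
  rw [Real.log_div dz.ne' dy.ne']
  have q0 := lq_nonneg R rq p x
  rcases le_total (max 0 (dep s R p x y)) (lq R rq p x) with o | o
  · rw [min_eq_left o]
    have := dd y hxy
    linarith
  · rw [min_eq_right o]
    rcases le_total (rB s R L rq p x) ((s.c p).d x z / (s.c p).lam) with o' | o'
    · rw [min_eq_left o', h.log_rB p hx] at k
      linarith
    · rw [min_eq_right o', Real.log_div dz.ne' hl.ne'] at k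
      linarith

theorem ht_le (h : Fm N s A η Z R L G rq cn W ε) {x y z : X} (hx : x ∈ Z) (hz : z ∈ Z)
    (hxy : x ≠ y) :
    ht s x y z ≤ 4 * (fam s Z R L rq).DB x y z + lm2 s R rq x y + 410 * (ε * W) := by
  have k := h.good.sum_le fun p => place h p hx hz hxy
  simp only [mul_add, sum_add_distrib, mul_left_comm (s.m _) (4 : ℝ),
    mul_left_comm (s.m _) (6 : ℝ), ← mul_sum] at k
  rw [fam_DB]
  unfold ht lm2
  linarith [h.sum_ga, h.cen.G_sum x hx, h.cen.G_sum z hz, h.good.xi_sum, h.cen.eW]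

theorem ed_or {H H₁ H₂ : X → X → Prop}
    (h : ∀ x ∈ Z, ∀ y ∈ Z, x ≠ y → H x y → H₁ x y ∨ H₂ x y) : ed Z H ≤ ed Z H₁ + ed Z H₂ := by
  classical
  refine le_trans (card_le_card fun p hp => ?_) (card_union_le _ _)
  simp only [mem_union, mem_filter, mem_product] at hp ⊢
  exact (h _ hp.1.1 _ hp.1.2 hp.2.1 hp.2.2).imp (fun k => ⟨hp.1, hp.2.1, k⟩)
    fun k => ⟨hp.1, hp.2.1, k⟩

end Csep

theorem csep : CSEP := by
  classical
  intro N X PL K _ _ _ s A η Z R L G rq cn W ε hN h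
  have u0 := hN.u_pos
  have u1 : N.u ≤ 1 / 1000 := hN.u_le.trans (by norm_num)
  have W0 : 0 < W := by linarith [h.W_big]
  have l0 : ∀ x y, 0 ≤ lm2 s R rq x y := fun x y =>
    h.good.sum_nonneg fun p => le_min (le_max_left _ _) (lq_nonneg _ _ _ _)
  have mk : (ed Z fun x y => N.u ^ 5 * W < lm2 s R rq x y : ℝ) ≤ N.u ^ 2 * (Z.card : ℝ) ^ 2 := by
    refine le_of_mul_le_mul_right ?_ (show 0 < N.u ^ 5 * W by positivity)
    refine le_trans ?_ (h.al.trans_eq (by ring))
    have e : ∑ x ∈ Z, ∑ y ∈ Z.erase x, lm2 s R rq x y =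
        ∑ e ∈ (Z ×ˢ Z).filter fun e => e.1 ≠ e.2, lm2 s R rq e.1 e.2 := by
      rw [sum_filter, sum_product]
      refine sum_congr rfl fun x _ => ?_
      rw [← sum_filter]
      exact sum_congr (by ext y; simp [and_comm, eq_comm]) fun _ _ => rfl
    rw [e, ed, ← nsmul_eq_mul]
    refine (card_nsmul_le_sum _ (fun e : X × X => lm2 s R rq e.1 e.2) _
      fun e he => (mem_filter.1 he).2.2.le).trans
      (sum_le_sum_of_subset_of_nonneg (fun e he => ?_) fun e _ _ => l0 _ _)
    exact mem_filter.2 ⟨(mem_filter.1 he).1, (mem_filter.1 he).2.1⟩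
  have sp : ed Z (fun x y => Z.card ^ 9 <
      (Z.filter fun z => (fam s Z R L rq).DB x y z ≤ N.u ^ 10 * W).card ^ 10) ≤
      ed Z (fun x y => Z.card ^ 9 < (Z.filter fun z => ht s x y z ≤ N.u ^ 4 * W).card ^ 10) +
      ed Z fun x y => N.u ^ 5 * W < lm2 s R rq x y := by
    refine Csep.ed_or fun x hx y _ e2 e3 => ?_
    by_cases k : N.u ^ 5 * W < lm2 s R rq x y
    · exact Or.inr k
    refine Or.inl (e3.trans_le (Nat.pow_le_pow_left (card_le_card fun z hz => ?_) _))
    obtain ⟨z1, z2⟩ := mem_filter.1 hz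
    refine mem_filter.2 ⟨z1, (Csep.ht_le h hx z1 e2).trans ?_⟩
    have a1 := mul_le_mul_of_nonneg_right h.e_le W0.le
    have a2 : N.u ^ 10 ≤ N.u ^ 5 := pow_le_pow_of_le_one u0.le (by linarith) (by norm_num)
    have a3 := mul_le_mul_of_nonneg_right a2 W0.le
    have a4 : N.u ^ 5 * W = N.u * (N.u ^ 4 * W) := by ring
    have a5 : 0 < N.u ^ 4 * W := by positivity
    nlinarith [not_lt.1 k]
  have sp' := (Nat.cast_le (α := ℝ)).2 sp
  have hs := h.sep
  have : N.u ^ 2 * (Z.card : ℝ) ^ 2 ≤ N.u / 2 * (Z.card : ℝ) ^ 2 :=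
    mul_le_mul_of_nonneg_right (by nlinarith) (sq_nonneg _)
  push_cast at sp'
  linarith

end Pool.Agent.MP_ddf486_co.KV
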