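import Pool.Agent.MP_ddf486_co.KV.BasicC
import Pool.Agent.MP_6c3157_co.PQ.Sum1
import Pool.Agent.MP_6c3157_co.PQ.Pt

/-! Project KV, row SUM1M: the sum over the cells of one partition. -/

set_option autoImplicit false
set_option linter.unusedSectionVars false

noncomputable section

namespace Pool.Agent.MP_ddf486_co.KV

open Finset Pool.Agent.MP_6c3157_co.PD Pool.Agent.MP_6c3157_co.PQ

namespace Csum1

theorem pow20 {x y : ℝ} {m : ℕ} (hy : 0 ≤ y) (hx : 0 ≤ x) (hy1 : y ≤ 1) (hm : 19 ≤ m)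
    (h : x ^ (m + 1) ≤ y ^ m) : x ^ 20 ≤ y ^ 19 := by
  refine le_of_pow_le_pow_left₀ (Nat.succ_ne_zero m) (by positivity) ?_
  calc (x ^ 20) ^ (m + 1) = (x ^ (m + 1)) ^ 20 := by rw [← pow_mul, ← pow_mul, mul_comm]
    _ ≤ (y ^ m) ^ 20 := pow_le_pow_left₀ (by positivity) h 20
    _ ≤ (y ^ 19) ^ (m + 1) := by
      rw [← pow_mul, ← pow_mul]
      exact pow_le_pow_of_le_one hy hy1 (by omega)

open Classical in
/-- the bound for one cell -/
theorem one (p q k : ℕ) (c t t' e₀ r n B : ℝ) (m I : ℕ) (hc : 0 < c) (ht : 0 < t)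
    (ht' : 0 < t') (hm : 19 ≤ m) (he : 0 < e₀) (hr : 0 < r) (hr1 : r ≤ 1) (hB : 0 ≤ B)
    (hB1 : 1 ≤ B ^ (m + 1) * r ^ 80) (hn : t' ≤ n) (hn4 : 4 * n ≤ t ^ 2) (h2 : 2 ≤ r ^ 20 * t)
    (hpt : (p : ℝ) ≤ t) (hqt : (q : ℝ) ≤ t') (hk : (k : ℝ) ≤ c) (hkp : k ≤ p * q)
    (hd : e₀ * (t * t') ≤ c)
    (hs : (k : ℝ) ^ (m + 1) * (t * t') ^ m ≤ c ^ (m + 1) * ((p : ℝ) * q) ^ m) :
    (k : ℝ) / c ≤ B * (p * (q * if r ^ 20 ≤ p / t ∧ r ^ 60 ≤ q / t' then (1 : ℝ) else 0)) /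
        (t * t') + 4 * r ^ 2 * (p * ((p : ℝ) - 1)) / t ^ 2 +
      (∑ j ∈ range I, 8 / (r / 2 ^ j) ^ 3 *
        ((q * if p / t ≤ (r / 2 ^ j) ^ 20 then p / t else 0) / t')) +
      ((q * if p / t ≤ (r / 2 ^ I) ^ 20 then p / t else 0) / t') / e₀ := by
  have hp : (0 : ℝ) ≤ p := Nat.cast_nonneg _
  have hq : (0 : ℝ) ≤ q := Nat.cast_nonneg _
  have hpp : (0 : ℝ) ≤ p * ((p : ℝ) - 1) := by
    rcases Nat.eq_zero_or_pos p with h0 | h0
    · simp [h0]
    · have : (1 : ℝ) ≤ p := by exact_mod_cast h0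
      exact mul_nonneg hp (by linarith)
  have ha1 : (p : ℝ) / t ≤ 1 := (div_le_one ht).2 hpt
  have hb1 : (q : ℝ) / t' ≤ 1 := (div_le_one ht').2 hqt
  have haa : p / t * (q / t') = p * q / (t * t') := by field_simp
  have hx : ((k : ℝ) / c) ^ (m + 1) ≤ (p / t * (q / t')) ^ m := by
    rw [haa, div_pow, div_pow, div_le_div_iff₀ (by positivity) (by positivity)]
    linarith
  have h20 := pow20 (by positivity) (by positivity) (mul_le_one₀ ha1 (by positivity) hb1) hm hx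
  have n1 : 0 ≤ B * (p * (q * if r ^ 20 ≤ p / t ∧ r ^ 60 ≤ q / t' then (1 : ℝ) else 0)) /
      (t * t') := by split_ifs <;> positivity
  have n2 : 0 ≤ 2 * r ^ 2 * (p * ((p : ℝ) - 1)) / t ^ 2 := by positivity
  have e2 : 4 * r ^ 2 * (p * ((p : ℝ) - 1)) / t ^ 2 =
      2 * (2 * r ^ 2 * (p * ((p : ℝ) - 1)) / t ^ 2) := by ring
  by_cases ha : r ^ 20 ≤ p / t
  · have n3 : 0 ≤ ∑ j ∈ range I, 8 / (r / 2 ^ j) ^ 3 *
        ((q * if p / t ≤ (r / 2 ^ j) ^ 20 then p / t else 0) / t') :=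
      sum_nonneg fun j _ => by split_ifs <;> positivity
    have n4 : 0 ≤ ((q * if p / t ≤ (r / 2 ^ I) ^ 20 then p / t else 0) / t') / e₀ := by
      split_ifs <;> positivity
    by_cases hb : r ^ 60 ≤ q / t'
    · have h3 : r ^ 80 ≤ p / t * (q / t') :=
        (show r ^ 80 = r ^ 20 * r ^ 60 by ring).trans_le
          (mul_le_mul ha hb (by positivity) (by positivity))
      have h4 : (k : ℝ) / c ≤ B * (p / t * (q / t')) := by
        refine le_of_pow_le_pow_left₀ (Nat.succ_ne_zero m) (by positivity) (hx.trans ?_)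
        rw [mul_pow B, pow_succ' (p / t * (q / t') : ℝ), ← mul_assoc]
        exact le_mul_of_one_le_left (by positivity)
          (hB1.trans (mul_le_mul_of_nonneg_left h3 (by positivity)))
      rw [if_pos ⟨ha, hb⟩, mul_one, mul_div_assoc B, ← haa]
      linarith
    · have h3 : (k : ℝ) / c ≤ r ^ 57 := by
        refine le_of_pow_le_pow_left₀ (by norm_num : 20 ≠ 0) (by positivity) (h20.trans ?_)
        rw [show (r ^ 57) ^ 20 = (r ^ 60) ^ 19 by ring]
        exact pow_le_pow_left₀ (by positivity)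
          ((mul_le_of_le_one_left (by positivity) ha1).trans (not_le.1 hb).le) 19
      have h4 : (2 : ℝ) ≤ p := h2.trans ((le_div_iff₀ ht).1 ha)
      have h5 : r ^ 2 * (r ^ 20) ^ 2 ≤ r ^ 2 * (p / t) ^ 2 := by gcongr
      have h6 : r ^ 57 ≤ r ^ 2 * (r ^ 20) ^ 2 := by
        rw [← pow_mul, ← pow_add]
        exact pow_le_pow_of_le_one hr.le hr1 (by norm_num)
      have h7 : r ^ 2 * (p / t) ^ 2 ≤ 2 * r ^ 2 * (p * ((p : ℝ) - 1)) / t ^ 2 := by
        rw [div_pow, ← mul_div_assoc]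
        refine div_le_div_of_nonneg_right ?_ (by positivity)
        have : (p : ℝ) ^ 2 ≤ 2 * (p * ((p : ℝ) - 1)) := by nlinarith
        nlinarith [sq_nonneg r]
      linarith
  · have := Sum1.one pt p q k c t t' e₀ r n I hc ht ht' he hr hr1 hn hn4 hk hkp hd (by
      rw [haa, div_pow, div_pow, div_le_div_iff₀ (by positivity) (by positivity)] at h20
      linarith)
    rw [if_neg ha, mul_zero, zero_div] at this
    linarith

end Csum1

open Sum1 in
theorem sum1m : SUM1M := by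
  intro X PL _ D i E T T' e₀ r n B m I hE hm he hr hr1 hB hB1 hn hn4 h2
  classical
  have hc : (0 : ℝ) < ec E T T' := by exact_mod_cast hE.pos
  have hpos : 0 < T.card * T'.card := hE.pos.trans_le (ec_le E T T')
  have ht : (0 : ℝ) < T.card := by exact_mod_cast Nat.pos_of_mul_pos_right hpos
  have ht' : (0 : ℝ) < T'.card := by exact_mod_cast Nat.pos_of_mul_pos_left hpos
  set g := D.cl i with hg
  set V := (T ∪ T').image g
  have hV : ∀ y ∈ T, g y ∈ V := fun y hy => mem_image_of_mem _ (mem_union_left _ hy)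
  have hV' : ∀ y ∈ T', g y ∈ V := fun y hy => mem_image_of_mem _ (mem_union_right _ hy)
  have hsh : ∀ S y, D.sh i S y = ((Sum1.fib g S (g y)).card : ℝ) / S.card := fun _ _ => rfl
  have e3 : ∀ ρ : ℝ, (∑ y ∈ T', if D.sh i T y ≤ ρ then D.sh i T y else 0) =
      ∑ v ∈ V, ((Sum1.fib g T' v).card : ℝ) * if ((Sum1.fib g T v).card : ℝ) / T.card ≤ ρ then
        ((Sum1.fib g T v).card : ℝ) / T.card else 0 := fun ρ => by
    simp only [hsh]
    exact sum_fib g T' V hV' fun v => if ((Sum1.fib g T v).card : ℝ) / T.card ≤ ρ then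
      ((Sum1.fib g T v).card : ℝ) / T.card else 0
  have e1 : (∑ y ∈ T, ∑ z ∈ T', if g y = g z ∧ r ^ 20 ≤ D.sh i T y ∧ r ^ 60 ≤ D.sh i T' y
      then (1 : ℝ) else 0) = ∑ v ∈ V, ((Sum1.fib g T v).card : ℝ) *
        (((Sum1.fib g T' v).card : ℝ) * if r ^ 20 ≤ ((Sum1.fib g T v).card : ℝ) / T.card ∧
          r ^ 60 ≤ ((Sum1.fib g T' v).card : ℝ) / T'.card then (1 : ℝ) else 0) := by
    refine (sum_congr rfl fun y _ => ?_).trans (sum_fib g T V hV fun v =>
      ((Sum1.fib g T' v).card : ℝ) * if r ^ 20 ≤ ((Sum1.fib g T v).card : ℝ) / T.card ∧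
        r ^ 60 ≤ ((Sum1.fib g T' v).card : ℝ) / T'.card then (1 : ℝ) else 0)
    rw [← hsh, ← hsh, Sum1.fib, card_filter]
    push_cast
    rw [sum_mul]
    refine sum_congr rfl fun z _ => ?_
    by_cases u : g z = g y <;> simp [u, eq_comm (a := g y)]
  have e2 : (∑ y ∈ T, ∑ z ∈ T.erase y, if g y = g z then (1 : ℝ) else 0) =
      ∑ v ∈ V, ((Sum1.fib g T v).card : ℝ) * (((Sum1.fib g T v).card : ℝ) - 1) := by
    rw [sum_congr rfl fun y hy => erase_count g T hy]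
    exact sum_fib g T V hV fun v => ((Sum1.fib g T v).card : ℝ) - 1
  rw [ec_split g E T T' V hV, e1, e2]
  simp only [e3]
  push_cast
  simp only [sum_div, mul_sum]
  rw [sum_comm (s := range I), ← sum_add_distrib, ← sum_add_distrib, ← sum_add_distrib]
  refine sum_le_sum fun v _ => ?_
  exact Csum1.one _ _ _ _ _ _ e₀ r n B m I hc ht ht' hm he hr hr1 hB hB1 hn hn4 h2
    (by exact_mod_cast card_le_card (fib_sub g T v))
    (by exact_mod_cast card_le_card (fib_sub g T' v))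
    (by exact_mod_cast ec_mono E (fib_sub g T v) (fib_sub g T' v)) (ec_le E _ _) hE.dense
    (hE.sub _ (fib_sub g T v) _ (fib_sub g T' v))

end Pool.Agent.MP_ddf486_co.KV
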