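import Pool.Agent.MP_ddf486_co.KV.BasicC
import Pool.Agent.MP_6c3157_co.PQ.Sum

/-! Project KV, row SUMM: the sum over all double cells. -/

set_option autoImplicit false

noncomputable section

namespace Pool.Agent.MP_ddf486_co.KV

open Finset Pool.Agent.MP_6c3157_co.PD Pool.Agent.MP_6c3157_co.PQ

open SumA in
theorem summ (h : SUM1M) : SUMM := by
  classical
  intro X PL _ D E T T' e₀ r n B w M W δ m I om ex hm e0 r0 r1 B0 hB W0 M0 hn hT hr hw hM hS hI
  have ep : (0 : ℝ) < ec E T T' := by exact_mod_cast ex.pos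
  have tp : (0 : ℝ) < T.card := by
    obtain ⟨p, hp⟩ := card_pos.1 ex.pos
    exact_mod_cast card_pos.2 ⟨p.1, (mem_product.1 (mem_filter.1 hp).1).1⟩
  have h1 : w ≤ ∑ i, D.om i *
      ((ec (fun y z => E y z ∧ D.cl i y = D.cl i z) T T' : ℝ) / ec E T T') := by
    simp only [← mul_div_assoc]
    rw [← sum_div, le_div_iff₀ ep]
    exact cnt D E T T' w hw
  refine (h1.trans (sum_le_sum fun i _ => mul_le_mul_of_nonneg_left
    (h X PL D i E T T' e₀ r n B m I ex hm e0 r0 r1 B0 hB hn hT hr) (om i))).trans ?_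
  simp only [mul_add, sum_add_distrib]
  refine add_le_add (add_le_add (add_le_add ?_ ?_) ?_) ?_
  · have k : ∑ i, D.om i * (∑ y ∈ T, ∑ z ∈ T', if D.cl i y = D.cl i z ∧ r ^ 20 ≤ D.sh i T y ∧
        r ^ 60 ≤ D.sh i T' y then (1 : ℝ) else 0) =
        ∑ y ∈ T, ∑ z ∈ T', omh D T T' (r ^ 20) (r ^ 60) y z := by
      simp only [mul_sum, mul_ite, mul_one, mul_zero]
      rw [sum_comm]
      refine sum_congr rfl fun y _ => ?_
      rw [sum_comm]
      refine sum_congr rfl fun z _ => ?_
      rw [omh]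
    simp only [← mul_div_assoc, mul_left_comm _ B]
    rw [← sum_div, ← mul_sum, k]
  · have k : ∑ i, D.om i * (∑ y ∈ T, ∑ z ∈ T.erase y,
        if D.cl i y = D.cl i z then (1 : ℝ) else 0) ≤ T.card ^ 2 * M := by
      simp only [mul_sum, mul_ite, mul_one, mul_zero]
      rw [sum_comm, sq, mul_assoc, ← nsmul_eq_mul]
      refine sum_le_card_nsmul _ _ _ fun y hy => ?_
      rw [sum_comm]
      refine (sum_le_card_nsmul _ _ M fun z hz =>
        hM y hy z (mem_of_mem_erase hz) (ne_of_mem_erase hz).symm).trans ?_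
      rw [nsmul_eq_mul]
      exact mul_le_mul_of_nonneg_right (by exact_mod_cast card_erase_le) M0
    simp only [← mul_div_assoc, mul_left_comm _ (4 * r ^ 2)]
    rw [← sum_div, ← mul_sum, div_le_iff₀ (by positivity), mul_assoc (4 * r ^ 2), mul_comm M]
    exact mul_le_mul_of_nonneg_left k (by positivity)
  · simp only [mul_sum (range I)]
    rw [sum_comm]
    have k : ∑ j ∈ range I, 4800 * (r / 2 ^ j) ^ 2 ≤ 6400 * r ^ 2 := by
      rw [← geo r I]
      exact le_add_of_nonneg_right (by positivity)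
    refine (sum_le_sum fun j hj => ?_).trans
      ((sum_mul _ _ W).ge.trans (mul_le_mul_of_nonneg_right k W0))
    have t0 : 0 < r / 2 ^ j := by positivity
    simp only [mul_left_comm _ (8 / (r / 2 ^ j) ^ 3)]
    rw [← mul_sum, eS]
    refine (mul_le_mul_of_nonneg_left (hS j (mem_range.1 hj)) (by positivity)).trans_eq ?_
    generalize r / 2 ^ j = t at t0
    field_simp
    ring
  · simp only [← mul_div_assoc _ _ e₀]
    rw [← sum_div, eS]
    exact div_le_div_of_nonneg_right hI e0.le

end Pool.Agent.MP_ddf486_co.KV
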