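import Pool.Agent.MP_ddf486_co.KV.BasicC

/-! Project KV, block C, row CTOT: total overlap, small cells, outliers, pins. -/

set_option autoImplicit false
set_option linter.unusedSectionVars false

noncomputable section

namespace Pool.Agent.MP_ddf486_co.KV

open Finset Pool.Agent.MP_6c3157_co.PD Pool.Agent.MP_6c3157_co.PQ

theorem ctot : CTOT := by
  classical
  intro N X PL K _ _ _ s A η Z R L G rq cn W ε _ h
  have hs := h.good
  have e1 := h.eW_le
  have e2 := h.cen.eW
  refine ⟨fun y _ z _ hyz => ?_, fun y hy z hz hyz => ?_, fun y => ?_, fun y hy => ?_,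
    fun y hy z hz hyz => ?_⟩
  · rw [fam_OA, fam_OB, ← sum_add_distrib, ← sub_zero (∑ p, s.m p * (s.c p).K), ← hs.pf y z hyz,
      ← sum_sub_distrib, ← sum_sub_distrib]
    refine (abs_sum_le_sum_abs _ _).trans (le_trans (sum_le_sum fun p _ => ?_) h.ari.eta_sum)
    rw [← mul_add, ← mul_sub, ← mul_sub, abs_mul, abs_of_nonneg (hs.m_lo p)]
    refine mul_le_mul_of_nonneg_left ?_ (hs.m_lo p)
    have := (hs.good p).c4 y z hyz
    rw [Cells.W_split (bc s Z R L rq p), add_comm] at this
    simpa only [and_comm (b := bc s Z R L rq p _), and_comm (b := ¬bc s Z R L rq p _)] using this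
  · have k : ∀ p, ((s.c p).W fun i => bc s Z R L rq p i ∧ y ∈ i.2 ∧ z ∈ i.2) ≤
        max 0 (dep s R p y z) + 2 * (s.c p).xi := fun p => by
      have hc := hs.good p
      refine ((Cells.W_mono hc fun i hi u => ⟨u.2.1, u.2.2, h.bc_lt hi u.1⟩).trans
        (hc.pair_below hyz (R p))).trans ?_
      rw [mul_div_assoc, Real.log_mul hc.lam_pos.ne'
        (div_pos (h.cen.R_pos p) (hc.d_pos hyz)).ne']
      have a := le_max_left 0 (dep s R p y z)
      have b : Real.log (R p / (s.c p).d y z) ≤ _ := le_max_right 0 (dep s R p y z)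
      have c : max 0 (Real.log (s.c p).lam + Real.log (R p / (s.c p).d y z)) ≤
          max 0 (dep s R p y z) + (s.c p).xi :=
        max_le (by linarith [hc.xi_nonneg]) (by linarith [hc.log_lam])
      linarith [hc.eta_hi]
    have a := hs.sum_le k
    have b := (depS X PL s Z R G W ε hs h.cen y hy z hz hyz).2.2.1
    have c := hs.xi_sum
    simp only [mul_add, sum_add_distrib, mul_left_comm _ (2 : ℝ), ← mul_sum] at a
    rw [fam_OB]
    linarith
  · exact mul_nonneg zero_le_two (hs.sum_nonneg fun p => h.ghp_lo p y)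
  · have a : ∑ p, s.m p * ghp s L G p y ≤ _ := (hs.sum_le fun p => by
      unfold ghp
      split_ifs
      exacts [le_rfl, h.cen.G_lo p y]).trans (h.cen.G_sum y hy)
    unfold Ghf
    linarith
  · refine le_trans (Nat.cast_le.2 (card_le_card fun x hx => ?_)) (h.pin y hy z hz hyz)
    rw [mem_filter] at hx ⊢
    exact ⟨hx.1, h.ari.lab x y z hx.2⟩

end Pool.Agent.MP_ddf486_co.KV
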