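import Pool.Agent.MP_ddf486_co.KV.BasicC

/-! Project KV, block C, row TRIP: small cells on a base that miss the pin. -/

set_option autoImplicit false
set_option linter.unusedSectionVars false

noncomputable section

namespace Pool.Agent.MP_ddf486_co.KV

open Finset Pool.Agent.MP_6c3157_co.PD Pool.Agent.MP_6c3157_co.PQ

namespace Ctrip

variable {N : Nb} {X PL K : Type} [DecidableEq X] [Fintype PL] [Field K] {s : Sys X PL}
  {A : Ari X PL K} {η : ℝ} {Z : Finset X} {R L : PL → ℝ} {G rq : PL → X → ℝ} {cn : PL → X}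
  {W ε : ℝ}

theorem dep_eq (h : Fm N s A η Z R L G rq cn W ε) (p : PL) {x y : X} (hxy : x ≠ y) :
    dep s R p x y = Real.log (R p) - Real.log ((s.c p).d x y) :=
  Real.log_div (h.cen.R_pos p).ne' ((h.good.good p).d_pos hxy).ne'

theorem G_le (h : Fm N s A η Z R L G rq cn W ε) (p : PL) (y : X) :
    G (s.bar p) y ≤ gth s L p + ghp s L G (s.bar p) y := by
  have h1 := h.gth_ge p
  have h2 := h.xs_pos p
  unfold ghp
  rw [h.gth_bar]
  split_ifs <;> linarith

/-- the estimate at one place -/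
theorem place (h : Fm N s A η Z R L G rq cn W ε) (p : PL) {x y z : X} (hx : x ∈ Z) (hy : y ∈ Z)
    (hz : z ∈ Z) (hyx : y ≠ x) (hzx : z ≠ x) (hyz : y ≠ z) (hl : s.lab x y = s.lab x z) {w g : ℝ}
    (hw : w = (s.c p).W fun i => bc s Z R L rq p i ∧ y ∈ i.2 ∧ z ∈ i.2 ∧ x ∉ i.2)
    (hg : g = ghp s L G (s.bar p) x + ghp s L G (s.bar p) y + clp s L G rq p x y) :
    w ≤ g ∨ (|lq R rq p y - lq R rq p z| ≤ xs s p ∧
      w ≤ min (dep s R p y z - lq R rq p y - ga s L p / 4) (dep s R (s.bar p) y z) -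
        5 * xs s p + g) := by
  have hc := h.good.good p
  have hcb := h.good.good (s.bar p)
  have g1 := h.ghp_lo (s.bar p) x
  have g2 := h.ghp_lo (s.bar p) y
  have g3 := h.clp_lo p x y
  by_cases hex : ∃ i ∈ (s.c p).I, bc s Z R L rq p i ∧ y ∈ i.2 ∧ z ∈ i.2
  swap
  · left
    rw [hw, Cells.W_zero fun i hi hj => hex ⟨i, hi, hj.1, hj.2.1, hj.2.2.1⟩]
    linarith
  obtain ⟨i₀, hi₀, hb₀, hy₀, hz₀⟩ := hex
  have dxy := hc.d_pos hyx.symm
  have dxz := hc.d_pos hzx.symm
  have dyz := hc.d_pos hyz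
  have hlam := hc.lam_pos
  have hR := h.cen.R_pos p
  have hxi := h.xi_pos p
  have x1 := h.xi_le p
  have x2 := h.xib_le p
  have ll := hc.log_lam
  have et := hc.eta_hi
  have ga1 := h.ga_ge p
  have lip : |lq R rq p y - lq R rq p z| ≤ xs s p := by
    refine (h.lq_lip p hy hz ?_ ?_).trans x1
    · exact (le_mul_of_one_le_left dyz.le hc.lam_lo).trans (h.bc_d hi₀ hb₀ hy hy₀ hz₀).le
    · have := h.bc_d hi₀ hb₀ hz hz₀ hy₀
      rw [hc.d_symm z y] at this
      exact (le_mul_of_one_le_left dyz.le hc.lam_lo).trans this.le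
  have e1 := dep_eq h p hyx.symm
  have e3 := dep_eq h p hyz
  have e4 := dep_eq h (s.bar p) hyx.symm
  have e5 := dep_eq h (s.bar p) hyz
  have e6 := congrArg Real.log (h.good.f2 p x y z hyx hzx hl)
  rw [Real.log_mul (hcb.d_pos hyz).ne' dxz.ne', Real.log_mul (hcb.d_pos hyx.symm).ne' dyz.ne'] at e6
  have e7 := h.dep_ge (s.bar p) hx hy hyx.symm
  have tri : Real.log ((s.c p).d x y) ≤ Real.log ((s.c p).d x z) + (s.c p).xi ∨
      Real.log ((s.c p).d x y) ≤ Real.log ((s.c p).d y z) + (s.c p).xi := by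
    have t := hc.d_tri x z y
    rw [hc.d_symm z y] at t
    rcases le_total ((s.c p).d x z) ((s.c p).d y z) with k | k
    · rw [max_eq_right k] at t
      have := Real.log_le_log dxy t
      rw [Real.log_mul hlam.ne' dyz.ne'] at this
      right; linarith
    · rw [max_eq_left k] at t
      have := Real.log_le_log dxy t
      rw [Real.log_mul hlam.ne' dxz.ne'] at this
      left; linarith
  set β := R p * Real.exp (-(lq R rq p y + ga s L p)) with hβ
  have β0 : 0 < β := mul_pos hR (Real.exp_pos _)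
  have lβ : Real.log β = Real.log (R p) - (lq R rq p y + ga s L p) := by
    rw [hβ, Real.log_mul hR.ne' (Real.exp_pos _).ne', Real.log_exp]; ring
  have a0 : Real.log ((s.c p).d y z) ≤ Real.log (s.c p).lam + Real.log β := by
    rw [← Real.log_mul hlam.ne' β0.ne']
    exact Real.log_le_log dyz ((hc.c1 i₀ hi₀ y hy₀ z hz₀).trans
      (mul_le_mul_of_nonneg_left (h.bc_le hi₀ hb₀ hy hy₀) hlam.le))
  have bA : w ≤ Real.log β - Real.log ((s.c p).d y z) + 3 * (s.c p).xi := by
    have t := hc.pair_below hyz (β * Real.exp (s.c p).xi)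
    rw [Real.log_div (by positivity) dyz.ne', Real.log_mul hlam.ne' (by positivity),
      Real.log_mul β0.ne' (Real.exp_pos _).ne', Real.log_exp, max_eq_right (by linarith)] at t
    have t2 : w ≤ (s.c p).W fun i => y ∈ i.2 ∧ z ∈ i.2 ∧ (s.c p).ρ i < β * Real.exp (s.c p).xi := by
      rw [hw]
      exact Cells.W_mono hc fun i hi hj => ⟨hj.2.1, hj.2.2.1, (h.bc_le hi hj.1 hy hj.2.1).trans_lt
        (lt_mul_of_one_lt_right β0 (Real.one_lt_exp_iff.2 hxi))⟩
    linarith
  have m1 := h.cen.G_lo (s.bar p) x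
  have m2 := h.cen.G_lo (s.bar p) y
  have fin : w ≤ dep s R (s.bar p) y z - 5 * xs s p + g → w ≤ min (dep s R p y z - lq R rq p y -
      ga s L p / 4) (dep s R (s.bar p) y z) - 5 * xs s p + g := fun k => by
    rcases min_choice (dep s R p y z - lq R rq p y - ga s L p / 4) (dep s R (s.bar p) y z) with
      k' | k' <;> rw [k'] <;> linarith
  by_cases hn : near s rq p x y
  · have c1 : clp s L G rq p x y = ga s L p + G (s.bar p) x + G (s.bar p) y := if_pos hn
    have m3 : max (G (s.bar p) x) (G (s.bar p) y) ≤ G (s.bar p) x + G (s.bar p) y :=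
      max_le (by linarith) (by linarith)
    have t1 := hc.c5 y _ dxy
    have t2 := hc.pair_below hyz ((s.c p).d x y)
    rw [Real.log_div (by positivity) dyz.ne', Real.log_mul hlam.ne' dxy.ne'] at t2
    have t3 : w ≤ ((s.c p).W fun i => (s.c p).d x y ≤ (s.c p).ρ i ∧
        (∃ a ∈ i.2, (s.c p).d y a ≤ (s.c p).d x y) ∧ ∃ b, b ∉ i.2 ∧ (s.c p).d y b ≤ (s.c p).d x y) +
        (s.c p).W fun i => y ∈ i.2 ∧ z ∈ i.2 ∧ (s.c p).ρ i < (s.c p).d x y := by
      rw [hw]
      refine Cells.W_le_add hc fun i _ hj => ?_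
      rcases le_or_gt ((s.c p).d x y) ((s.c p).ρ i) with k | k
      · exact Or.inl ⟨k, ⟨y, hj.2.1, by rw [hc.d_self]; exact dxy.le⟩, x, hj.2.2.2,
          (hc.d_symm y x).le⟩
      · exact Or.inr ⟨hj.2.1, hj.2.2.1, k⟩
    rcases max_choice 0 (Real.log (s.c p).lam + Real.log ((s.c p).d x y) -
      Real.log ((s.c p).d y z)) with k | k <;> rw [k] at t2
    · left; linarith
    · rcases tri with k' | k'
      · exact Or.inr ⟨lip, fin (by linarith)⟩
      · left; linarith
  · have n1 : rq p y ≤ (s.c p).lam * (s.c p).d x y := not_lt.1 fun k => hn (Or.inr k)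
    have n2 := Real.log_le_log (h.rq_pos p hy) n1
    rw [Real.log_mul hlam.ne' dxy.ne'] at n2
    have n3 : Real.log (R p / rq p y) ≤ lq R rq p y := le_max_right _ _
    rw [Real.log_div hR.ne' (h.rq_pos p hy).ne'] at n3
    have m3 : max (G (s.bar p) x) (G (s.bar p) y) ≤
        gth s L p + ghp s L G (s.bar p) x + ghp s L G (s.bar p) y :=
      max_le (by linarith [G_le h p x]) (by linarith [G_le h p y])
    have m4 : ga s L p = 4 * gth s L p + 100 * xs s p := rfl
    have m5 := h.gth_ge p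
    rcases tri with k' | k'
    · exact Or.inr ⟨lip, fin (by linarith)⟩
    · exfalso; linarith

end Ctrip

theorem trip : TRIP := by
  intro N X PL K _ _ _ s A η Z R L G rq cn W ε _ h D hD x hx y hy z hz hyx hzx hyz hl
  classical
  have key : ∀ p, s.m p * (s.c p).W (fun i => bc s Z R L rq p i ∧ y ∈ i.2 ∧ z ∈ i.2 ∧ x ∉ i.2) ≤
      2 * (∑ i, if D.pl i = p ∧ D.cl i y = D.cl i z then D.om i else 0) +
        s.m p * (ghp s L G (s.bar p) x + ghp s L G (s.bar p) y + clp s L G rq p x y) := fun p => by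
    have hm := h.good.m_lo p
    rcases Ctrip.place h p hx hy hz hyx hzx hyz hl rfl rfl with k | ⟨k1, k2⟩
    · have := mul_le_mul_of_nonneg_left k hm
      have h0 : 0 ≤ ∑ i, if D.pl i = p ∧ D.cl i y = D.cl i z then D.om i else 0 :=
        sum_nonneg fun i _ => by split_ifs; exacts [hD.good.om_lo i, le_rfl]
      linarith
    · have h1 := hD.low p y z hyz k1
      have h2 := mul_le_mul_of_nonneg_left k2 hm
      rw [mul_add] at h2
      refine h2.trans (add_le_add (h1.trans_eq ?_) le_rfl)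
      congr
  have e : ∑ p, (∑ i, if D.pl i = p ∧ D.cl i y = D.cl i z then D.om i else 0) = om2 D y z := by
    rw [sum_comm]
    refine sum_congr rfl fun i _ => ?_
    simp only [ite_and]
    rw [sum_ite_eq]
    simp
  have o0 : 0 ≤ om2 D y z := sum_nonneg fun i _ => by split_ifs; exacts [hD.good.om_lo i, le_rfl]
  have b1 := h.good.sum_bar fun p => ghp s L G p x
  have b2 := h.good.sum_bar fun p => ghp s L G p y
  have p1 := h.good.sum_nonneg fun p => h.ghp_lo p x
  have p2 := h.good.sum_nonneg fun p => h.ghp_lo p y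
  have p3 := h.good.sum_nonneg fun p => h.clp_lo p x y
  rw [fam_DB]
  refine (sum_le_sum fun p _ => key p).trans ?_
  simp only [mul_add, sum_add_distrib, ← mul_sum, e]
  unfold Ghf Clf
  linarith

end Pool.Agent.MP_ddf486_co.KV
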