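import Pool.Agent.MP_ddf486_co.KV.Cmod
import Pool.Agent.MP_ddf486_co.KV.Csum1
import Pool.Agent.MP_ddf486_co.KV.Csumm
import Pool.Agent.MP_ddf486_co.KV.Crdc
import Pool.Agent.MP_ddf486_co.KV.Crad
import Pool.Agent.MP_ddf486_co.KV.Ctot
import Pool.Agent.MP_ddf486_co.KV.Cdga
import Pool.Agent.MP_ddf486_co.KV.Cclo
import Pool.Agent.MP_ddf486_co.KV.Ctrip
import Pool.Agent.MP_ddf486_co.KV.Cout1
import Pool.Agent.MP_ddf486_co.KV.Cout2
import Pool.Agent.MP_ddf486_co.KV.Chvc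
import Pool.Agent.MP_ddf486_co.KV.Crare1
import Pool.Agent.MP_ddf486_co.KV.Crare2
import Pool.Agent.MP_ddf486_co.KV.Cmirp
import Pool.Agent.MP_ddf486_co.KV.Cmir
import Pool.Agent.MP_ddf486_co.KV.Csep

/-! Project KV: assembly of block C. -/

set_option autoImplicit false

namespace Pool.Agent.MP_ddf486_co.KV

theorem all_mod : MOD :=
  cmod rdc ctot (dga crad) clo trip (out2 out1) (rare2 (rare1 (summ sum1m)) hvc)
    (cmir crad cmirp) csep

end Pool.Agent.MP_ddf486_co.KV
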