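import Pool.Agent.MP_ddf486_co.KV.Op

/-! Project KV: identities for the centred kernel, the numbers, the mass of a pair. -/

set_option autoImplicit false
set_option linter.unusedSectionVars false

noncomputable section

namespace Pool.Agent.MP_ddf486_co.KV

open Finset

namespace Nb.Good

variable {N : Nb} (h : N.Good)
include h

theorem u_le_one : N.u ≤ 1 := h.u_le.trans (by norm_num)

theorem pow_le {a b : ℕ} (hab : a ≤ b) : N.u ^ b ≤ N.u ^ a :=
  pow_le_pow_of_le_one h.u_pos.le h.u_le_one hab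

theorem pow_le_one (a : ℕ) : N.u ^ a ≤ 1 := pow_le_one₀ h.u_pos.le h.u_le_one

theorem L_pos : 0 < N.L := by
  by_contra k
  have := mul_nonpos_of_nonneg_of_nonpos (pow_pos h.u_pos 100000).le (not_lt.1 k)
  linarith [h.uL]

/-- every power of `u` up to the bound beats `1 / L` -/
theorem uL' {a : ℕ} (ha : a ≤ 100000) : 1 ≤ N.u ^ a * N.L :=
  h.uL.trans (mul_le_mul_of_nonneg_right (h.pow_le ha) h.L_pos.le)

theorem L_big : 10 ^ 30 ≤ N.L := by
  have h1 := h.uL' (a := 1) (by norm_num)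
  have h2 := mul_le_mul_of_nonneg_right h.u_le h.L_pos.le
  rw [pow_one] at h1
  linarith

theorem one_le_L : 1 ≤ N.L := le_trans (by norm_num) h.L_big

theorem L_pow_le {a b : ℕ} (hab : a ≤ b) : N.L ^ a ≤ N.L ^ b := pow_le_pow_right₀ h.one_le_L hab

theorem Lq : N.L ^ 30 ≤ N.q :=
  le_trans (le_mul_of_one_le_left (pow_pos h.L_pos 30).le h.k_lo) h.kq

theorem L_le_q : N.L ≤ N.q := by
  have := h.L_pow_le (show 1 ≤ 30 by norm_num)
  rw [pow_one] at this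
  exact this.trans h.Lq

theorem q_big : (10 : ℝ) ^ 30 ≤ N.q := h.L_big.trans h.L_le_q

theorem one_le_q : (1 : ℝ) ≤ N.q := h.one_le_L.trans h.L_le_q

theorem q_pos : (0 : ℝ) < N.q := lt_of_lt_of_le one_pos h.one_le_q

theorem q_pow_le {a b : ℕ} (hab : a ≤ b) : (N.q : ℝ) ^ a ≤ (N.q : ℝ) ^ b :=
  pow_le_pow_right₀ h.one_le_q hab

theorem k_le_q : N.k ≤ N.q :=
  le_trans (le_mul_of_one_le_right (by linarith [h.k_lo]) (one_le_pow₀ h.one_le_L)) h.kq

theorem q_le_s : (N.q : ℝ) ≤ N.s := by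
  have := h.q_pow_le (show 1 ≤ 2000 by norm_num)
  rw [pow_one] at this
  exact this.trans h.sq'

theorem s_big : 10 ^ 30 ≤ N.s := h.q_big.trans h.q_le_s

theorem r_ge : 200 ≤ N.r := by
  have h1 : (2 : ℝ) ^ 200 ≤ 2 ^ N.r :=
    (pow_le_pow_left₀ (by norm_num) (le_trans (by norm_num) h.q_big) 200).trans h.rq
  exact (pow_le_pow_iff_right₀ (by norm_num)).1 h1

theorem L_le_j : N.L ≤ N.j := by
  have := h.L_pow_le (show 1 ≤ 10 by norm_num)
  rw [pow_one] at this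
  exact this.trans h.j_lo

theorem j_pos : (0 : ℝ) < N.j := lt_of_lt_of_le h.L_pos h.L_le_j

theorem one_le_ka : 1 ≤ N.κ := by
  have h1 := h.psi_le.trans (h.pow_le_one _)
  by_contra k
  have := h.ka
  have := h.psi_pos
  nlinarith

end Nb.Good

variable {X ι : Type} [DecidableEq X] [Fintype ι] {N : Nb} {F : Fam X ι} {lab : X → X → ℝ}
  {Z Y : Finset X} {W Kt η : ℝ} {Om Cl : X → X → ℝ} {Gh : X → ℝ} {t e Wb : ℝ}

theorem Fam.OA_eq (F : Fam X ι) (Kt : ℝ) (Y : Finset X) (y z : X) :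
    F.OA y z = F.K0 Y y z + Kt - F.bb Kt Y y - F.bb Kt Y z := by
  classical
  unfold Fam.OA Fam.W Fam.K0 Fam.bb Fam.ind
  have : ∀ a b c d : ℝ, a + Kt - (Kt / 2 - b) - (Kt / 2 - c) = a + b + c := fun a b c _ => by ring
  rw [this _ _ _ 0, ← sum_add_distrib, ← sum_add_distrib]
  refine sum_congr rfl fun i _ => ?_
  by_cases h1 : F.b i <;> by_cases h2 : y ∈ F.S i <;> by_cases h3 : z ∈ F.S i <;>
    simp [h1, h2, h3] <;> ring

theorem Am.idn (h : Am N F lab Z W Kt η Om Cl Gh) (Y : Finset X) {y z : X} (hy : y ∈ Z)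
    (hz : z ∈ Z) (e : y ≠ z) : |F.OB y z - (F.bb Kt Y y + F.bb Kt Y z - F.K0 Y y z)| ≤ η := by
  have := h.tot y hy z hz e
  rw [F.OA_eq Kt Y] at this
  refine le_trans (le_of_eq ?_) this
  congr 1; ring

theorem Fam.sum_ind (F : Fam X ι) (U : Finset X) (hU : U.Nonempty) (i : ι) :
    ∑ z ∈ U, F.ind z i = U.card * F.mu U i := by
  have : (U.card : ℝ) ≠ 0 := by exact_mod_cast hU.card_pos.ne'
  unfold Fam.ind Fam.mu
  rw [mul_div_cancel₀ _ this, sum_boole, filter_mem_eq_inter]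

theorem Fam.K0_row (F : Fam X ι) (hY : Y.Nonempty) (y : X) : ∑ z ∈ Y, F.K0 Y y z = 0 := by
  classical
  unfold Fam.K0
  rw [sum_comm]
  refine sum_eq_zero fun i _ => ?_
  by_cases h : F.b i
  · simp [h]
  · simp only [h, if_false, ← mul_sum, sum_sub_distrib, F.sum_ind Y hY, sum_const, nsmul_eq_mul]
    ring

theorem Fam.disc_eq (F : Fam X ι) (Y : Finset X) {U : Finset X} (hU : U.Nonempty) :
    ∑ y ∈ U, ∑ z ∈ U, F.K0 Y y z = (U.card : ℝ) ^ 2 * F.disc U Y := by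
  classical
  unfold Fam.K0 Fam.disc
  have e : ∀ i, ∑ y ∈ U, ∑ z ∈ U, (if F.b i then 0 else
      F.w i * ((F.ind y i - F.mu Y i) * (F.ind z i - F.mu Y i))) =
      (U.card : ℝ) ^ 2 * if F.b i then 0 else F.w i * (F.mu U i - F.mu Y i) ^ 2 := fun i => by
    by_cases h : F.b i
    · simp [h]
    · simp only [h, if_false, ← mul_sum, ← sum_mul, sum_sub_distrib, F.sum_ind U hU, sum_const,
        nsmul_eq_mul]
      ring
  rw [mul_sum, ← sum_congr rfl fun i _ => e i, sum_comm (s := univ)]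
  exact sum_congr rfl fun y _ => sum_comm

theorem Fam.mu_nonneg (F : Fam X ι) (U : Finset X) (i : ι) : 0 ≤ F.mu U i := by
  unfold Fam.mu; positivity

theorem Fam.mu_le_one (F : Fam X ι) (U : Finset X) (i : ι) : F.mu U i ≤ 1 :=
  div_le_one_of_le₀ (by exact_mod_cast card_le_card inter_subset_left) (Nat.cast_nonneg _)

theorem Am.K0_diag (h : Am N F lab Z W Kt η Om Cl Gh) (hY : Y ⊆ Z) {y : X} (hy : y ∈ Y) :
    F.K0 Y y y ≤ 2 * (N.q : ℝ) ^ 51 * W := by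
  classical
  have hne : Y.Nonempty := ⟨y, hy⟩
  have hc : (0 : ℝ) < Y.card := by exact_mod_cast hne.card_pos
  have h1 : (Y.card : ℝ) * F.K0 Y y y ≤ ∑ z ∈ Y,
      (F.W (fun i => ¬ F.b i ∧ y ∈ F.S i ∧ z ∉ F.S i) +
        F.W fun i => ¬ F.b i ∧ z ∈ F.S i ∧ y ∉ F.S i) := by
    unfold Fam.K0 Fam.W
    simp only [← sum_add_distrib]
    rw [mul_sum, sum_comm]
    refine sum_le_sum fun i _ => ?_
    have m0 := F.mu_nonneg Y i
    have m1 := F.mu_le_one Y i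
    have w0 := h.w_lo i
    have hs := F.sum_ind Y hne i
    by_cases hb : F.b i
    · simp [hb]
    · by_cases hi : y ∈ F.S i
      · rw [sum_congr rfl (g := fun z => F.w i * (1 - F.ind z i)) fun z _ => by
          by_cases hz : z ∈ F.S i <;> simp [hb, hi, hz, Fam.ind]]
        simp only [← mul_sum, sum_sub_distrib, hs, sum_const, nsmul_eq_mul]
        simp only [hb, if_false, Fam.ind, hi, if_true]
        have := mul_nonneg (mul_nonneg hc.le w0) (mul_nonneg m0 (sub_nonneg.2 m1))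
        nlinarith
      · rw [sum_congr rfl (g := fun z => F.w i * F.ind z i) fun z _ => by
          by_cases hz : z ∈ F.S i <;> simp [hb, hi, hz, Fam.ind]]
        simp only [← mul_sum, hs]
        simp only [hb, if_false, Fam.ind, hi]
        have := mul_nonneg (mul_nonneg hc.le w0) (mul_nonneg m0 (sub_nonneg.2 m1))
        nlinarith
  have h2 := sum_le_card_nsmul Y _ (2 * (N.q : ℝ) ^ 51 * W) fun z hz =>
    (add_le_add (h.dg y (hY hy) z (hY hz)) (h.dg z (hY hz) y (hY hy))).trans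
      (le_of_eq (by ring))
  rw [nsmul_eq_mul] at h2
  exact le_of_mul_le_mul_left (h1.trans h2) hc

section st

variable (hN : N.Good) (hA : Am N F lab Z W Kt η Om Cl Gh) (hS : St N F Z Y W Kt Om Gh t e Wb)
include hN hA hS

theorem St.t_pos : 0 < t := by
  by_contra k
  have := mul_nonpos_of_nonpos_of_nonneg (not_lt.1 k) (pow_pos hN.L_pos 5).le
  linarith [hS.t_lo, hA.W_lo]

theorem St.Wt_pos : 0 < N.Wt t :=
  div_pos (mul_pos hN.j_pos (hS.t_pos hN hA)) (pow_pos hN.u_pos _)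

theorem St.eta_le : η * N.L ^ 5 ≤ t := by
  have h1 := hA.eta_le.trans hS.t_lo
  have h2 : η * N.L ^ 10 = η * N.L ^ 5 * N.L ^ 5 := by ring
  rw [h2] at h1
  exact le_of_mul_le_mul_right h1 (pow_pos hN.L_pos 5)

theorem St.eta_le' : η ≤ t :=
  (le_mul_of_one_le_right hA.eta_lo (one_le_pow₀ hN.one_le_L)).trans (hS.eta_le hN hA)

/-- the total weight of a step is much larger than `W` -/
theorem St.Wt_ge : N.L ^ 5 * W ≤ N.Wt t := by
  have t0 := hS.t_pos hN hA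
  have h1 : N.j * t ≤ N.Wt t :=
    le_div_self (mul_pos hN.j_pos t0).le (pow_pos hN.u_pos _) (hN.pow_le_one _)
  have h2 := mul_le_mul_of_nonneg_left hS.t_lo (pow_pos hN.L_pos 5).le
  have h3 := mul_le_mul_of_nonneg_right hN.j_lo t0.le
  have h4 : N.L ^ 5 * (t * N.L ^ 5) = N.L ^ 10 * t := by ring
  linarith

theorem St.w0_nonneg : 0 ≤ 1 - Wb / N.Wt t := by
  have h1 := hS.Wt_ge hN hA
  have h2 : N.L ^ 1 ≤ N.L ^ 5 := hN.L_pow_le (by norm_num)
  have h3 := hN.L_big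
  have h4 := (abs_le.1 hS.wb).2
  have h5 := hA.W_lo
  rw [sub_nonneg, div_le_one (hS.Wt_pos hN hA)]
  rw [pow_one] at h2
  nlinarith

theorem St.v_nonneg (φ : ι → Prop) (i : ι) : 0 ≤ F.v (N.Wt t) φ i :=
  F.v_nonneg hA.w_lo (hS.Wt_pos hN hA).le φ i

/-- a length `a * t` in units of the step -/
theorem St.unit (a : ℝ) : a * t / N.Wt t = a * N.u ^ 400 / N.j := by
  have := hS.t_pos hN hA
  have := hN.j_pos
  have := hN.u_pos
  unfold Nb.Wt
  field_simp

theorem St.o_nonneg (x y : X) : 0 ≤ 1 - Wb / N.Wt t + F.OB x y / N.Wt t :=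
  add_nonneg (hS.w0_nonneg hN hA) (div_nonneg (F.W_nonneg hA.w_lo _) (hS.Wt_pos hN hA).le)

theorem St.o_hi {x y : X} (hx : x ∈ Y) (hy : y ∈ Y) (h : x ≠ y) (hK : -t ≤ F.K0 Y x y) :
    1 - Wb / N.Wt t + F.OB x y / N.Wt t ≤ 1 + 42 * N.u ^ 400 / N.j := by
  have h1 := (abs_le.1 (hA.idn Y (hS.sub hx) (hS.sub hy) h)).2
  have h2 := (abs_le.1 (hS.row x hx)).2
  have h3 := (abs_le.1 (hS.row y hy)).2
  have h4 := hS.eta_le' hN hA
  have h5 : (F.OB x y - Wb) / N.Wt t ≤ 42 * t / N.Wt t :=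
    div_le_div_of_nonneg_right (by linarith) (hS.Wt_pos hN hA).le
  rw [hS.unit hN hA, sub_div] at h5
  linarith

theorem St.o_lo {x y : X} (hx : x ∈ Y) (hy : y ∈ Y) (h : x ≠ y) (hK : F.K0 Y x y ≤ t) :
    1 - 42 * N.u ^ 400 / N.j ≤ 1 - Wb / N.Wt t + F.OB x y / N.Wt t := by
  have h1 := (abs_le.1 (hA.idn Y (hS.sub hx) (hS.sub hy) h)).1
  have h2 := (abs_le.1 (hS.row x hx)).1
  have h3 := (abs_le.1 (hS.row y hy)).1
  have h4 := hS.eta_le' hN hA
  have h5 : (Wb - F.OB x y) / N.Wt t ≤ 42 * t / N.Wt t :=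
    div_le_div_of_nonneg_right (by linarith) (hS.Wt_pos hN hA).le
  rw [hS.unit hN hA, sub_div] at h5
  linarith

omit hA hS in
theorem Nb.Good.steps {n : ℕ} (hn : n ≤ 2 ^ 32 * N.j) :
    0 ≤ 42 * N.u ^ 400 / N.j ∧ 42 * N.u ^ 400 / N.j ≤ 1 ∧
      n * (42 * N.u ^ 400 / N.j) ≤ 1 / 1000 := by
  have j0 := hN.j_pos
  have u0 := hN.u_pos
  have h1 : N.u ^ 400 ≤ 1 / 10 ^ 30 := by
    have := hN.pow_le (show 1 ≤ 400 by norm_num)
    rw [pow_one] at this
    exact this.trans hN.u_le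
  have h2 : (n : ℝ) ≤ 2 ^ 32 * N.j := by exact_mod_cast hn
  have h3 : (1 : ℝ) ≤ N.j := hN.one_le_L.trans hN.L_le_j
  have p : 0 < N.u ^ 400 := by positivity
  refine ⟨by positivity, by rw [div_le_one j0]; linarith, ?_⟩
  rw [← mul_div_assoc, div_le_iff₀ j0]
  nlinarith

theorem St.pow_hi {x y : X} (hx : x ∈ Y) (hy : y ∈ Y) (h : x ≠ y) (hK : -t ≤ F.K0 Y x y) {n : ℕ}
    (hn : n ≤ 2 ^ 32 * N.j) : max (1 - Wb / N.Wt t + F.OB x y / N.Wt t) 1 ^ n ≤ 101 / 100 := by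
  obtain ⟨a0, -, a2⟩ := hN.steps hn
  have h1 : max (1 - Wb / N.Wt t + F.OB x y / N.Wt t) 1 ≤ Real.exp (42 * N.u ^ 400 / N.j) :=
    max_le ((hS.o_hi hN hA hx hy h hK).trans (by linarith [Real.add_one_le_exp (42 * N.u ^ 400 / N.j)]))
      (Real.one_le_exp a0)
  refine (pow_le_pow_left₀ (le_trans zero_le_one (le_max_right _ _)) h1 n).trans ?_
  rw [← Real.exp_nat_mul]
  refine (Real.exp_le_exp.2 a2).trans ?_
  have := Real.exp_bound_div_one_sub_of_interval' (x := 1 / 1000) (by norm_num) (by norm_num)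
  linarith [show 1 / (1 - 1 / 1000 : ℝ) ≤ 101 / 100 by norm_num]

theorem St.pow_lo {x y : X} (hx : x ∈ Y) (hy : y ∈ Y) (h : x ≠ y) (hK : F.K0 Y x y ≤ t) {n : ℕ}
    (hn : n ≤ 2 ^ 32 * N.j) : 99 / 100 ≤ min (1 - Wb / N.Wt t + F.OB x y / N.Wt t) 1 ^ n := by
  obtain ⟨a0, a1, a2⟩ := hN.steps hn
  have h1 : 1 + -(42 * N.u ^ 400 / N.j) ≤ min (1 - Wb / N.Wt t + F.OB x y / N.Wt t) 1 :=
    le_min (by linarith [hS.o_lo hN hA hx hy h hK]) (by linarith)
  refine le_trans ?_ (pow_le_pow_left₀ (by linarith) h1 n)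
  have := one_add_mul_le_pow (a := -(42 * N.u ^ 400 / N.j)) (by linarith) n
  linarith

end st

end Pool.Agent.MP_ddf486_co.KV
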