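import Pool.Agent.MP_ddf486_co.KV.BasicD
import Pool.Agent.MP_ddf486_co.KV.Idn

/-! Project KV, block D, rows BBD and CTX: bounds for the row term and the data of a level. -/

set_option autoImplicit false
set_option linter.unusedSectionVars false

noncomputable section

namespace Pool.Agent.MP_ddf486_co.KV

open Finset Pool.Agent.MP_6c3157_co.PD Pool.Agent.MP_6c3157_co.PQ

theorem bbdS : BBD := by
  intro X _ Y O K b W η D e0 eW hm hD hO hK hd
  have m1 : (100 : ℝ) ≤ Y.card := by exact_mod_cast hm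
  set m : ℝ := (Y.card : ℝ) with hm'
  set B := ∑ z ∈ Y, b z with hB
  have W0 : 0 ≤ W := by linarith
  have row : ∀ y ∈ Y, -((m - 1) * η) ≤ (m - 2) * b y + B + K y y ∧
      (m - 2) * b y + B + K y y ≤ (m - 1) * (2 * W + η) := by
    intro y hy
    have c : ((Y.erase y).card : ℝ) = m - 1 := by
      rw [card_erase_of_mem hy, Nat.cast_pred (by omega)]
    have e : ∑ z ∈ Y.erase y, (b y + b z - K y z) = (m - 2) * b y + B + K y y := by
      have e1 := add_sum_erase Y b hy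
      have e2 := add_sum_erase Y (K y) hy
      rw [sum_sub_distrib, sum_add_distrib, sum_const, nsmul_eq_mul, c]
      linarith [hK y hy]
    have k : ∀ z ∈ Y.erase y, -η ≤ b y + b z - K y z ∧ b y + b z - K y z ≤ 2 * W + η := by
      intro z hz
      obtain ⟨a1, a2, a3⟩ := hO y hy z (mem_of_mem_erase hz) (ne_of_mem_erase hz).symm
      have := abs_le.1 a3
      constructor <;> linarith
    have l1 := card_nsmul_le_sum _ _ _ fun z hz => (k z hz).1
    have l2 := sum_le_card_nsmul _ _ _ fun z hz => (k z hz).2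
    rw [nsmul_eq_mul, c, e] at l1 l2
    constructor <;> linarith
  have e : ∑ y ∈ Y, ((m - 2) * b y + B + K y y) = 2 * (m - 1) * B + ∑ y ∈ Y, K y y := by
    rw [sum_add_distrib, sum_add_distrib, ← mul_sum, sum_const, nsmul_eq_mul]
    ring
  have l1 := card_nsmul_le_sum _ _ _ fun y hy => (row y hy).1
  have l2 := sum_le_card_nsmul _ _ _ fun y hy => (row y hy).2
  have t1 : 0 ≤ ∑ y ∈ Y, K y y := sum_nonneg fun y hy => (hd y hy).1
  have t2 := sum_le_card_nsmul _ _ _ fun y hy => (hd y hy).2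
  rw [nsmul_eq_mul, ← hm'] at l1 l2 t2
  rw [e] at l1 l2
  have mW : 0 ≤ m * W := by positivity
  have me : m * η ≤ m * W / 100 := by nlinarith
  have B1 : B ≤ 2 * (m * W) := by
    refine le_of_mul_le_mul_left (a := 2 * (m - 1)) ?_ (by linarith)
    nlinarith
  have B2 : -(m * W / 50) ≤ B := by
    refine le_of_mul_le_mul_left (a := 2 * (m - 1)) ?_ (by linarith)
    have t3 : m * D ≤ m * (W * m / 100) := by gcongr; linarith
    nlinarith
  have hb : ∀ y ∈ Y, |b y| ≤ 3 * W := by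
    intro y hy
    obtain ⟨r1, r2⟩ := row y hy
    obtain ⟨d1, d2⟩ := hd y hy
    have mW' : 100 * W ≤ m * W := by gcongr
    refine abs_le.2 ⟨le_of_mul_le_mul_left (a := m - 2) ?_ (by linarith),
      le_of_mul_le_mul_left (a := m - 2) ?_ (by linarith)⟩ <;> nlinarith
  refine ⟨hb, fun y hy z hz e => ?_⟩
  obtain ⟨a1, a2, a3⟩ := hO y hy z hz e
  have h1 := abs_le.1 a3
  have h2 := abs_le.1 (hb y hy)
  have h3 := abs_le.1 (hb z hz)
  exact abs_le.2 ⟨by linarith, by linarith⟩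

theorem ctxS (h : BBD) : CTX := by
  intro N X ι _ _ F lab Z Y W Kt η Om Cl Gh t e Wb hN hA hS hY
  have t0 := hS.t_pos hN hA
  have W1 := hA.W_lo
  have L0 := hN.d_L0
  have L1 := hN.d_L
  have q0 := hN.d_q0
  have e0 := hA.eta_lo
  have l10 : N.L ^ 1 ≤ N.L ^ 10 := hN.d_Lp (by norm_num)
  have l5 : N.L ^ 1 ≤ N.L ^ 5 := hN.d_Lp (by norm_num)
  rw [pow_one] at l10 l5
  have c1 : (100 : ℝ) ≤ Y.card := le_trans (le_trans (by norm_num) hN.d_s) hY
  have ne : Y.Nonempty := card_pos.1 (by exact_mod_cast (by linarith : (0 : ℝ) < Y.card))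
  have c2 : 200 * (N.q : ℝ) ^ 51 ≤ Y.card := by
    refine le_trans ?_ ((hN.d_qs (a := 52) (by norm_num)).trans hY)
    rw [pow_succ' _ 51]
    gcongr
    exact le_trans (by norm_num) hN.d_q
  obtain ⟨k1, k2⟩ := h X Y F.OB (F.K0 Y) (F.bb Kt Y) W η (2 * (N.q : ℝ) ^ 51 * W) e0
    (by nlinarith [hA.eta_le]) (by exact_mod_cast c1) (by nlinarith)
    (fun y hy z hz e => ⟨F.W_nonneg hA.w_lo _, hA.ob y (hS.sub hy) z (hS.sub hz) e,
      hA.idn Y (hS.sub hy) (hS.sub hz) e⟩) (fun y _ => F.K0_row ne y)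
    fun y hy => ⟨(gram_K0 F hA.w_lo Y).diag y, hA.K0_diag hS.sub hy⟩
  have w9 : 9 * W ≤ N.L ^ 6 * t := by
    calc 9 * W ≤ N.L * (t * N.L ^ 5) := by gcongr; exacts [le_trans (by norm_num) L1, hS.t_lo]
      _ = _ := by ring
  refine ⟨⟨hA.w_lo, t0, hY, ?_, fun y hy z hz e => (hA.idn Y (hS.sub hy) (hS.sub hz) e).trans ?_,
    hS.row, fun y hy => (hA.K0_diag hS.sub hy).trans ?_,
    fun y hy z hz e => (k2 y hy z hz e).trans w9,
    fun y hy z hz e => (hA.ob y (hS.sub hy) z (hS.sub hz) e).trans (by linarith), hS.nrm⟩, k1⟩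
  · have := hS.w0_nonneg hN hA
    rwa [sub_nonneg, div_le_one (hS.Wt_pos hN hA)] at this
  · have a1 := hS.eta_le hN hA
    have a2 := hN.uL' (a := 1000) (by norm_num)
    have a3 := hN.d_pw0 1000
    calc η ≤ η * (N.u ^ 1000 * N.L) := le_mul_of_one_le_right e0 a2
      _ ≤ η * (N.u ^ 1000 * N.L ^ 5) :=
          mul_le_mul_of_nonneg_left (mul_le_mul_of_nonneg_left l5 a3.le) e0
      _ = N.u ^ 1000 * (η * N.L ^ 5) := mul_left_comm _ _ _
      _ ≤ _ := mul_le_mul_of_nonneg_left a1 a3.le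
  · have a1 : 2 * N.L ^ 5 ≤ N.q := by
      refine le_trans ?_ ((hN.d_Lp (a := 6) (by norm_num)).trans hN.d_Lq30)
      rw [pow_succ' _ 5]
      gcongr
      exact le_trans (by norm_num) L1
    calc 2 * (N.q : ℝ) ^ 51 * W ≤ 2 * (N.q : ℝ) ^ 51 * (t * N.L ^ 5) := by gcongr; exact hS.t_lo
      _ = (N.q : ℝ) ^ 51 * (2 * N.L ^ 5) * t := by ring
      _ ≤ (N.q : ℝ) ^ 51 * N.q * t := by gcongr
      _ = _ := by ring

end Pool.Agent.MP_ddf486_co.KV
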