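import Pool.Agent.MP_ddf486_co.KV.BasicD

/-! Project KV, block D: Cauchy-Schwarz for the kernel with some cells removed. -/

set_option autoImplicit false

noncomputable section

namespace Pool.Agent.MP_ddf486_co.KV

open Finset Pool.Agent.MP_6c3157_co.PD Pool.Agent.MP_6c3157_co.PQ

namespace DDe1

theorem exp_up {y : ℝ} (h : y ≤ 1) : Real.exp y ≤ 1 + 2 * |y| := by
  by_cases h1 : 0 ≤ y
  · have h2 : |y| ≤ 1 := by rwa [abs_of_nonneg h1]
    have h3 := (abs_le.1 (Real.abs_exp_sub_one_le h2)).2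
    linarith
  · have h2 : Real.exp y ≤ 1 := Real.exp_le_one_iff.2 (not_le.1 h1).le
    have h3 := abs_nonneg y
    linarith

theorem exp_half {d : ℝ} (h : 0 ≤ d) : Real.exp (-(d / 2)) ≤ 1 - min d 1 / 4 := by
  have h0 : 0 ≤ min d 1 := le_min h zero_le_one
  have h1 : min d 1 ≤ 1 := min_le_right _ _
  have h2 : min d 1 ≤ d := min_le_left _ _
  have h3 : d / 2 + 1 ≤ Real.exp (d / 2) := Real.add_one_le_exp _
  have h4 : Real.exp (-(d / 2)) * Real.exp (d / 2) = 1 := by rw [← Real.exp_add]; simp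
  have h5 := Real.exp_pos (-(d / 2))
  have h6 : Real.exp (-(d / 2)) * (min d 1 / 2 + 1) ≤ 1 := by nlinarith
  by_contra hc
  have h7 := not_le.1 hc
  nlinarith

/-- the bound for one pair -/
theorem pt {a b k t n n' d : ℝ} (ha : 0 ≤ a) (hb : 0 ≤ b) (hab : a + b ≤ 1) (ht : 0 < t)
    (hd : 0 ≤ d) (h1 : n' ≤ n) (h2 : n' ≤ Real.exp (-(a / t) * k - d / 2 + b)) :
    n' ≤ (1 + 2 * b) + 2 * (a / t) * |k| + (if k < -t then n + 1 else 0) - min d 1 / 4 := by
  have h0 : 0 ≤ min d 1 := le_min hd zero_le_one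
  have h3 : min d 1 ≤ 1 := min_le_right _ _
  have h4 : 0 ≤ a / t := div_nonneg ha ht.le
  have h5 : 0 ≤ a / t * |k| := mul_nonneg h4 (abs_nonneg k)
  split_ifs with h
  · linarith
  · have h6 : a / t * t = a := div_mul_cancel₀ a ht.ne'
    have h7 : -(a / t) * k + b ≤ 1 := by nlinarith [not_lt.1 h]
    have h8 : |-(a / t) * k + b| ≤ a / t * |k| + b := by
      refine (abs_add_le _ _).trans ?_
      rw [abs_mul, abs_neg, abs_of_nonneg h4, abs_of_nonneg hb]
    have h9 := exp_up h7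
    have h10 := exp_half hd
    have e : -(a / t) * k - d / 2 + b = (-(a / t) * k + b) + -(d / 2) := by ring
    rw [e, Real.exp_add] at h2
    have h11 : Real.exp (-(a / t) * k + b) * Real.exp (-(d / 2)) ≤
        (1 + 2 * (a / t * |k| + b)) * (1 - min d 1 / 4) :=
      mul_le_mul (by linarith) h10 (Real.exp_pos _).le (by linarith)
    nlinarith [mul_nonneg (add_nonneg h5 hb) h0]

/-- the final arithmetic -/
theorem fin {m n e g A B C S : ℝ} (hm : 0 ≤ m) (hn : 0 < n) (he : 0 ≤ e) (heg : 100 * e ≤ g)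
    (hg : g ≤ 1) (hS : 0 ≤ S) (hB : 0 ≤ B) (hA : m * n * (1 - 6 * e) ≤ A)
    (hC : C ≤ (1 + 5 * e) * n ^ 2) (hU : B ≤ (1 + 9 * g) * m ^ 2 - S / 4) (cs : A ^ 2 ≤ B * C) :
    S ≤ 40 * g * m ^ 2 := by
  have h1 : 0 ≤ m * n * (1 - 6 * e) := mul_nonneg (mul_nonneg hm hn.le) (by linarith)
  have h2 : (m * n * (1 - 6 * e)) ^ 2 ≤ B * ((1 + 5 * e) * n ^ 2) :=
    (pow_le_pow_left₀ h1 hA 2).trans (cs.trans (mul_le_mul_of_nonneg_left hC hB))
  have h3 : m ^ 2 * (1 - 6 * e) ^ 2 ≤ B * (1 + 5 * e) := by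
    refine le_of_mul_le_mul_right ?_ (pow_pos hn 2)
    calc m ^ 2 * (1 - 6 * e) ^ 2 * n ^ 2 = (m * n * (1 - 6 * e)) ^ 2 := by ring
      _ ≤ B * ((1 + 5 * e) * n ^ 2) := h2
      _ = B * (1 + 5 * e) * n ^ 2 := by ring
  have h4 : B * (1 + 5 * e) ≤ ((1 + 9 * g) * m ^ 2 - S / 4) * (1 + 5 * e) :=
    mul_le_mul_of_nonneg_right hU (by linarith)
  have h5 : (1 + 9 * g) * (1 + 5 * e) - (1 - 6 * e) ^ 2 ≤ 10 * g := by
    nlinarith [mul_le_mul_of_nonneg_right hg he, sq_nonneg e]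
  have h6 := mul_le_mul_of_nonneg_left h5 (sq_nonneg m)
  nlinarith [mul_nonneg hS he]

end DDe1

open DDe1

theorem de1S : DE1 := by
  classical
  intro X _ Y Y₁ U K ν ν' d u t s hR hU hu hu1 ht hG hp hq hd hK hT hD
  have hUY : U ⊆ Y := hU.trans hR.sub
  rcases U.eq_empty_or_nonempty with rfl | hne
  · simp
  have hn : (0 : ℝ) < Y.card := Nat.cast_pos.2 (card_pos.2 (hne.mono hUY))
  have hm : (0 : ℝ) ≤ U.card := Nat.cast_nonneg _
  have hmn : (U.card : ℝ) ≤ Y.card := Nat.cast_le.2 (card_le_card hUY)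
  have g1 := pow_gap hu hu1 (a := 480) (b := 500) (by norm_num)
  have g2 := pow_gap hu hu1 (a := 500) (b := 600) (by norm_num)
  have g3 := pow_gap hu hu1 (a := 600) (b := 1000) (by norm_num)
  have g4 := pow_gap hu hu1 (a := 0) (b := 400) (by norm_num)
  have g5 := pow_gap hu hu1 (a := 400) (b := 480) (by norm_num)
  rw [pow_zero] at g4
  have p1 := pow_pos hu 400
  have p2 := pow_pos hu 480
  have p3 := pow_pos hu 500
  have p4 := pow_pos hu 600
  have p5 := pow_pos hu 1000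
  have e48 : u ^ 400 / t * (u ^ 80 * t) = u ^ 480 := by
    rw [show (480 : ℕ) = 400 + 80 from rfl, pow_add]; field_simp
  generalize u ^ 480 = g at *
  generalize u ^ 80 * t = w at *
  have hrow := hR.row
  have htl := hR.tl
  have htot := hR.tot
  generalize u ^ 500 = e at *
  generalize u ^ 600 = f at *
  generalize u ^ 1000 = b at *
  generalize u ^ 400 = a at *
  -- the lower bound on `U × Y`
  have lo : ∀ y ∈ U, Y.card * (1 - 5 * e - 2 * f) - 2 * ∑ z ∈ Y.erase y, d y z ≤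
      ∑ z ∈ Y, ν' y z := fun y hy => by
    have hy' := hUY hy
    have a1 := (abs_le.1 (hrow y (hU hy))).1
    have a2 := htl y (hU hy)
    have a3 := hD y hy
    have a4 := add_sum_erase Y (ν y) hy'
    have a5 := add_sum_erase Y (ν' y) hy'
    have a6 := (hp y hy' y hy').2.1
    have a7 : ∑ z ∈ Y.erase y, (ν y z - (if K y z < -t then ν y z else 0) - 2 * d y z) ≤
        ∑ z ∈ Y.erase y, ν' y z := sum_le_sum fun z hz => by
      have hz' := mem_of_mem_erase hz
      have b1 := hp y hy' z hz'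
      split_ifs with h
      · linarith [b1.1, b1.2.1]
      · linarith [(hq y hy' z hz' (ne_of_mem_erase hz).symm).2 (not_lt.1 h)]
    rw [sum_sub_distrib, sum_sub_distrib, ← mul_sum] at a7
    have a8 := mul_le_mul_of_nonneg_left hmn p4.le
    linarith
  have hA : U.card * Y.card * (1 - 6 * e) ≤ ∑ y ∈ U, ∑ z ∈ Y, ν' y z := by
    have a1 := sum_le_sum lo
    rw [sum_sub_distrib, sum_const, nsmul_eq_mul, ← mul_sum] at a1
    have a2 : (U.card : ℝ) * Y.card * (4 * f) ≤ U.card * Y.card * e :=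
      mul_le_mul_of_nonneg_left (by linarith) (mul_nonneg hm hn.le)
    linarith
  -- the upper bound on `Y × Y`
  have hC : ∑ y ∈ Y, ∑ z ∈ Y, ν' y z ≤ (1 + 5 * e) * (Y.card : ℝ) ^ 2 :=
    (sum_le_sum fun y hy => sum_le_sum fun z hz => (hp y hy z hz).2.2).trans htot
  -- the upper bound on `U × U`
  have hB : ∑ y ∈ U, ∑ z ∈ U, ν' y z ≤
      (1 + 9 * g) * (U.card : ℝ) ^ 2 - (∑ y ∈ U, ∑ z ∈ U.erase y, min (d y z) 1) / 4 := by
    have a1 : ∑ y ∈ U, ν' y y ≤ U.card * (f * U.card) :=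
      (sum_le_card_nsmul _ _ _ fun y hy =>
        (hp y (hUY hy) y (hUY hy)).2.2.trans (hD y hy)).trans_eq (nsmul_eq_mul _ _)
    have a2 : ∑ y ∈ U, ∑ z ∈ U.erase y, ν' y z ≤ ∑ y ∈ U, ∑ z ∈ U.erase y,
        ((1 + 2 * b) + 2 * (a / t) * |K y z| + (if K y z < -t then ν y z + 1 else 0) -
          min (d y z) 1 / 4) :=
      sum_le_sum fun y hy => sum_le_sum fun z hz => by
        have hz' := hUY (mem_of_mem_erase hz)
        have b1 := hp y (hUY hy) z hz'
        exact pt p1.le p5.le (by linarith) ht b1.1 b1.2.2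
          (hq y (hUY hy) z hz' (ne_of_mem_erase hz).symm).1
    simp only [sum_sub_distrib, sum_add_distrib, ← mul_sum, ← sum_div] at a2
    have a3 := off_const U (f := fun _ _ => 1 + 2 * b) (c := 1 + 2 * b) (by linarith)
      fun _ _ _ _ _ => le_rfl
    simp only [sum_add_distrib, ← mul_sum] at a3
    have a4 := mul_le_mul_of_nonneg_left hK (div_pos p1 ht).le
    have a5 : a / t * (4 * w * (U.card : ℝ) ^ 2) = 4 * g * (U.card : ℝ) ^ 2 := by
      rw [← e48]; ring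
    have a6 : (2 * f + 2 * b) * (U.card : ℝ) ^ 2 ≤ g * (U.card : ℝ) ^ 2 :=
      mul_le_mul_of_nonneg_right (by linarith) (sq_nonneg _)
    rw [full_eq]
    linarith
  exact fin hm hn p3.le (by linarith) (by linarith)
    (sum_nonneg fun y hy => sum_nonneg fun z hz =>
      le_min (hp y (hUY hy) z (hUY (mem_of_mem_erase hz))).1 zero_le_one)
    (sum_nonneg fun y hy => sum_nonneg fun z hz => (hp y (hUY hy) z (hUY hz)).2.1)
    hA hC hB (hG.cs U Y)

end Pool.Agent.MP_ddf486_co.KV
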