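import Pool.Agent.MP_ddf486_co.KV.BasicD

/-! Project KV, block D: cells that are heavy in `U` and light in `Z`, and a median. -/

set_option autoImplicit false
set_option linter.unusedSectionVars false

noncomputable section

namespace Pool.Agent.MP_ddf486_co.KV

open Finset Pool.Agent.MP_6c3157_co.PD Pool.Agent.MP_6c3157_co.PQ

namespace DDe2

variable {X : Type} [DecidableEq X]

theorem cnt1 (U S : Finset X) (c : ℝ) :
    ∑ y ∈ U, (if y ∈ S then c else 0) = c * (U ∩ S).card := by
  rw [sum_ite_mem, sum_const, nsmul_eq_mul, mul_comm]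

theorem cnt2 (U V S : Finset X) (c : ℝ) :
    ∑ y ∈ U, ∑ z ∈ V, (if y ∈ S ∧ z ∈ S then c else 0) =
      c * (V ∩ S).card * (U ∩ S).card := by
  rw [← cnt1]
  refine sum_congr rfl fun y _ => ?_
  by_cases h : y ∈ S
  · simp only [h, true_and, if_true]
    exact cnt1 V S c
  · simp [h]

theorem cnt3 (U S : Finset X) (c : ℝ) :
    ∑ y ∈ U, ∑ z ∈ U.erase y, (if y ∈ S ∧ z ∈ S then c else 0) =
      c * (U ∩ S).card * ((U ∩ S).card - 1) := by
  have h1 := full_eq U fun y z => if y ∈ S ∧ z ∈ S then c else 0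
  have h2 := cnt1 U S c
  simp only [and_self] at h1
  rw [cnt2, h2] at h1
  linarith

open Classical in
theorem swap {ι : Type} [Fintype ι] (F : Fam X ι) (U : Finset X) (V : X → Finset X)
    (φ : X → X → ι → Prop) :
    ∑ y ∈ U, ∑ z ∈ V y, F.W (φ y z) =
      ∑ i, ∑ y ∈ U, ∑ z ∈ V y, if φ y z i then F.w i else 0 := by
  rw [sum_comm]
  refine sum_congr rfl fun y _ => ?_
  rw [sum_comm]
  rfl

theorem prod_le_ed {Y A B : Finset X} {H : X → X → Prop} (hA : A ⊆ Y) (hB : B ⊆ Y)
    (h : ∀ x ∈ A, ∀ z ∈ B, x ≠ z ∧ H x z) : (A.card : ℝ) * B.card ≤ ed Y H := by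
  classical
  rw [← Nat.cast_mul, ← card_product]
  refine Nat.cast_le.2 (card_le_card fun e he => ?_)
  simp only [mem_filter, mem_product] at he ⊢
  exact ⟨⟨hA he.1, hB he.2⟩, h _ he.1 _ he.2⟩

open Classical in
theorem median (Y : Finset X) (b : X → ℝ) (hY : Y.Nonempty) :
    ∃ m ∈ Y, Y.card ≤ 2 * (Y.filter fun y => b y ≤ b m).card ∧
      Y.card ≤ 2 * (Y.filter fun y => b m ≤ b y).card := by
  obtain ⟨t, ht, htm⟩ := exists_max_image Y b hY
  have hne : (Y.filter fun m => Y.card ≤ 2 * (Y.filter fun y => b y ≤ b m).card).Nonempty :=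
    ⟨t, mem_filter.2 ⟨ht, by rw [filter_true_of_mem htm]; omega⟩⟩
  obtain ⟨m, hm, hmin⟩ := exists_min_image _ b hne
  rw [mem_filter] at hm
  refine ⟨m, hm.1, hm.2, ?_⟩
  by_contra hc
  have hs := card_filter_add_card_filter_not (s := Y) fun y => b m ≤ b y
  have hne' : (Y.filter fun y => ¬ b m ≤ b y).Nonempty := card_pos.1 (by omega)
  obtain ⟨m', hm', hmax⟩ := exists_max_image _ b hne'
  have hle : (Y.filter fun y => ¬ b m ≤ b y).card ≤ (Y.filter fun y => b y ≤ b m').card :=
    card_le_card fun y hy => mem_filter.2 ⟨(mem_filter.1 hy).1, hmax y hy⟩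
  rw [mem_filter] at hm'
  exact hm'.2 (hmin m' (mem_filter.2 ⟨hm'.1, by omega⟩))

end DDe2

open DDe2

theorem rowaS : ROWA := by
  classical
  intro X _ Y b Δ β hY hΔ hβ
  obtain ⟨m, hm, h1, h2⟩ := median Y b hY
  refine ⟨m, hm, Y.filter fun y => |b y - b m| ≤ Δ, filter_subset _ _, ?_,
    fun y hy => (mem_filter.1 hy).2⟩
  have e1 := prod_le_ed (Y := Y) (H := fun x z => b x + Δ < b z)
    (filter_subset (fun y => b y ≤ b m) Y) (filter_subset (fun y => b m + Δ < b y) Y)
    fun x hx z hz => by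
      have a1 := (mem_filter.1 hx).2
      have a2 := (mem_filter.1 hz).2
      exact ⟨fun e => by rw [e] at a1; linarith, by linarith⟩
  have e2 := prod_le_ed (Y := Y) (H := fun x z => b x + Δ < b z)
    (filter_subset (fun y => b y + Δ < b m) Y) (filter_subset (fun y => b m ≤ b y) Y)
    fun x hx z hz => by
      have a1 := (mem_filter.1 hx).2
      have a2 := (mem_filter.1 hz).2
      exact ⟨fun e => by rw [e] at a1; linarith, by linarith⟩
  have hs := card_filter_add_card_filter_not (s := Y) fun y => |b y - b m| ≤ Δ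
  have hle : (Y.filter fun y => ¬ |b y - b m| ≤ Δ).card ≤
      (Y.filter fun y => b m + Δ < b y).card + (Y.filter fun y => b y + Δ < b m).card := by
    refine (card_le_card fun y hy => ?_).trans (card_union_le _ _)
    rw [mem_filter, not_le, lt_abs] at hy
    rw [mem_union, mem_filter, mem_filter]
    rcases hy.2 with h | h
    · exact Or.inl ⟨hy.1, by linarith⟩
    · exact Or.inr ⟨hy.1, by linarith⟩
  have c1 : (Y.card : ℝ) ≤ 2 * (Y.filter fun y => b y ≤ b m).card := by exact_mod_cast h1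
  have c2 : (Y.card : ℝ) ≤ 2 * (Y.filter fun y => b m ≤ b y).card := by exact_mod_cast h2
  have c3 : (Y.card : ℝ) - (Y.filter fun y => |b y - b m| ≤ Δ).card ≤
      (Y.filter fun y => b m + Δ < b y).card + (Y.filter fun y => b y + Δ < b m).card := by
    have : Y.card ≤ (Y.filter fun y => |b y - b m| ≤ Δ).card +
        ((Y.filter fun y => b m + Δ < b y).card + (Y.filter fun y => b y + Δ < b m).card) := by
      omega
    have : (Y.card : ℝ) ≤ (Y.filter fun y => |b y - b m| ≤ Δ).card +
        ((Y.filter fun y => b m + Δ < b y).card + (Y.filter fun y => b y + Δ < b m).card) := by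
      exact_mod_cast this
    linarith
  have c4 := mul_le_mul_of_nonneg_right c3 (Nat.cast_nonneg (α := ℝ) Y.card)
  have c5 := mul_le_mul_of_nonneg_left c1
    (Nat.cast_nonneg (α := ℝ) (Y.filter fun y => b m + Δ < b y).card)
  have c6 := mul_le_mul_of_nonneg_left c2
    (Nat.cast_nonneg (α := ℝ) (Y.filter fun y => b y + Δ < b m).card)
  nlinarith

theorem de2S : DE2 := by
  classical
  intro X ι _ _ F Z Y U C Q Λ B hw hUY hYZ hZ hΛ hQ hU hB hC
  have hZ' : (Z.card : ℝ) ≤ 2 * Y.card := by exact_mod_cast hZ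
  have hU0 : (0 : ℝ) < U.card := by linarith
  have hUY' : (U.card : ℝ) ≤ Y.card := Nat.cast_le.2 (card_le_card hUY)
  have hY0 : (0 : ℝ) < Y.card := by linarith
  have hQY : ∀ i, C i → Q * (Y ∩ F.S i).card ≤ 2 * Y.card := fun i hi =>
    (mul_le_mul_of_nonneg_left
      (Nat.cast_le.2 (card_le_card (inter_subset_inter_right hYZ))) (by linarith)).trans
      ((hC i hi).1.trans hZ')
  constructor
  · rw [swap F U (fun _ => U) fun y z i => (C i ∧ y ∈ F.S i ∧ z ∈ F.S i) ∧ ¬ F.b i, Fam.disc,
      mul_sum, sum_mul]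
    refine sum_le_sum fun i _ => ?_
    by_cases hb : F.b i
    · simp [hb]
    by_cases hc : C i
    · simp only [hb, hc, true_and, not_false_eq_true, and_true, if_false]
      refine (Eq.trans (by congr) (cnt2 U U (F.S i) (F.w i))).trans_le ?_
      have h1 := hQY i hc
      have h2 := (hC i hc).2
      have h3 : (0 : ℝ) ≤ (Y ∩ F.S i).card := Nat.cast_nonneg _
      have h4 : (0 : ℝ) ≤ (U ∩ F.S i).card := Nat.cast_nonneg _
      have h5 : 2 * F.mu Y i ≤ F.mu U i := by
        unfold Fam.mu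
        rw [← mul_div_assoc, div_le_div_iff₀ hY0 hU0]
        have h6 := mul_le_mul_of_nonneg_left h2 h3
        have h7 := mul_le_mul_of_nonneg_right hQ h3
        have h8 := mul_le_mul_of_nonneg_right (h7.trans h1) h4
        nlinarith
      have h6 : F.mu U i * U.card = (U ∩ F.S i).card := div_mul_cancel₀ _ hU0.ne'
      have h7 : 0 ≤ F.mu Y i := div_nonneg h3 hY0.le
      have h8 : F.mu U i ^ 2 ≤ 4 * (F.mu U i - F.mu Y i) ^ 2 := by nlinarith
      have h9 := mul_le_mul_of_nonneg_left h8 (mul_nonneg (hw i) (sq_nonneg (U.card : ℝ)))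
      rw [← h6]
      nlinarith
    · simp only [hb, hc, false_and, if_false, sum_const_zero]
      have := hw i
      positivity
  · have hB0 : 0 ≤ B := by
      have : 1 < U.card := by
        have : (1 : ℝ) < U.card := by linarith
        exact_mod_cast this
      obtain ⟨y, hy, z, hz, hne⟩ := one_lt_card.1 this
      exact (F.W_nonneg hw _).trans (hB y (hUY hy) z (hUY hz) hne)
    have e1 := off_const U hB0 fun y hy z hz => hB y (hUY hy) z (hUY hz)
    have e2 : ∑ y ∈ U, ∑ z ∈ Y.erase y, F.OC (fun i => ¬ C i) y z ≤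
        ∑ y ∈ U, ∑ z ∈ Y, F.OC (fun i => ¬ C i) y z :=
      sum_le_sum fun y _ => sum_le_sum_of_subset_of_nonneg (erase_subset _ _)
        fun z _ _ => F.W_nonneg hw _
    have e3 : U.card * (Q * ∑ y ∈ U, ∑ z ∈ Y, F.OC (fun i => ¬ C i) y z) ≤
        4 * Λ * Y.card * ∑ y ∈ U, ∑ z ∈ U.erase y, F.OB y z := by
      unfold Fam.OC Fam.OB
      rw [swap F U (fun _ => Y) fun y z i => F.b i ∧ ¬ ¬ C i ∧ y ∈ F.S i ∧ z ∈ F.S i,
        swap F U (fun y => U.erase y) fun y z i => F.b i ∧ y ∈ F.S i ∧ z ∈ F.S i,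
        mul_sum, mul_sum, mul_sum]
      refine sum_le_sum fun i _ => ?_
      by_cases hb : F.b i
      swap
      · simp [hb]
      have h4 : (0 : ℝ) ≤ (U ∩ F.S i).card := Nat.cast_nonneg _
      have a3 : (∑ y ∈ U, ∑ z ∈ U.erase y,
          if F.b i ∧ y ∈ F.S i ∧ z ∈ F.S i then F.w i else 0) =
          F.w i * (U ∩ F.S i).card * ((U ∩ F.S i).card - 1) := by
        simp only [hb, true_and]
        exact cnt3 U (F.S i) (F.w i)
      refine le_trans ?_ (le_of_eq (congrArg _ (Eq.trans a3.symm (by congr!))))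
      by_cases hc : C i
      · have a2 : (∑ y ∈ U, ∑ z ∈ Y,
            if F.b i ∧ ¬ ¬ C i ∧ y ∈ F.S i ∧ z ∈ F.S i then F.w i else 0) =
            F.w i * (Y ∩ F.S i).card * (U ∩ F.S i).card := by
          simp only [hb, hc, not_true_eq_false, not_false_eq_true, true_and]
          exact cnt2 U Y (F.S i) (F.w i)
        refine (le_of_eq (congrArg _ (congrArg _ (Eq.trans (by congr!) a2)))).trans ?_
        have h1 := hQY i hc
        have h2 := (hC i hc).2
        have h3 : (2 : ℝ) ≤ (U ∩ F.S i).card :=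
          le_of_mul_le_mul_left (a := Λ) (by linarith) (by linarith)
        have h5 : (U.card : ℝ) ≤ 2 * Λ * ((U ∩ F.S i).card - 1) := by nlinarith
        have h6 := mul_le_mul h5 h1 (mul_nonneg (by linarith) (Nat.cast_nonneg _))
          (hU0.le.trans h5)
        have h7 := mul_le_mul_of_nonneg_left h6 (mul_nonneg (hw i) h4)
        nlinarith
      · simp only [hc, not_false_eq_true, not_true_eq_false, false_and, and_false, if_false,
          sum_const_zero, mul_zero]
        have h3 : (0 : ℝ) ≤ (U ∩ F.S i).card * ((U ∩ F.S i).card - 1) := by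
          rcases Nat.eq_zero_or_pos (U ∩ F.S i).card with h | h
          · simp [h]
          · have : (1 : ℝ) ≤ (U ∩ F.S i).card := by exact_mod_cast h
            exact mul_nonneg h4 (by linarith)
        rw [mul_assoc (F.w i)]
        exact mul_nonneg (by positivity) (mul_nonneg (hw i) h3)
    have e4 := mul_le_mul_of_nonneg_left e1 (show 0 ≤ 4 * Λ * (Y.card : ℝ) by positivity)
    have e5 := mul_le_mul_of_nonneg_left e2 (show 0 ≤ Q by linarith)
    refine e5.trans (le_of_mul_le_mul_left (e3.trans (e4.trans_eq ?_)) hU0)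
    ring

end Pool.Agent.MP_ddf486_co.KV
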