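import Pool.Agent.MP_ddf486_co.KV.BasicD

/-! Project KV, block D: double depth is rare at the next level. -/

set_option autoImplicit false
set_option linter.unusedSectionVars false

noncomputable section

namespace Pool.Agent.MP_ddf486_co.KV

open Finset Pool.Agent.MP_6c3157_co.PD Pool.Agent.MP_6c3157_co.PQ

namespace DDe3

variable {X : Type} [DecidableEq X]

theorem cross {T T' U : Finset X} (hd : Disjoint T T') (hT : T ⊆ U) (hT' : T' ⊆ U)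
    {g : X → X → ℝ} (hg : ∀ y ∈ U, ∀ z ∈ U, 0 ≤ g y z) :
    ∑ y ∈ T, ∑ z ∈ T', g y z ≤ ∑ y ∈ U, ∑ z ∈ U.erase y, g y z := by
  refine (sum_le_sum fun y hy => ?_).trans (sum_le_sum_of_subset_of_nonneg hT fun y hy _ =>
    sum_nonneg fun z hz => hg y hy z (mem_of_mem_erase hz))
  refine sum_le_sum_of_subset_of_nonneg (fun z hz => mem_erase.2 ⟨?_, hT' hz⟩)
    fun z hz _ => hg y (hT hy) z (mem_of_mem_erase hz)
  rintro rfl
  exact disjoint_left.1 hd hy hz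

theorem cross' {T T' U : Finset X} (hT : T ⊆ U) (hT' : T' ⊆ U)
    {g : X → X → ℝ} (hg : ∀ y ∈ U, ∀ z ∈ U, 0 ≤ g y z) :
    ∑ y ∈ T, ∑ z ∈ T', g y z ≤ ∑ y ∈ U, ∑ z ∈ U, g y z :=
  (sum_le_sum fun y hy => sum_le_sum_of_subset_of_nonneg hT' fun z hz _ => hg y (hT hy) z hz).trans
    (sum_le_sum_of_subset_of_nonneg hT fun y hy _ => sum_nonneg (hg y hy))

/-- the pointwise bound -/
theorem pt {la f o a om t W c : ℝ} (hla : 0 ≤ la) (ho : 0 ≤ o) (ha : 0 ≤ a) (h1 : f ≤ om)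
    (h2 : f ≤ 400 * (o + a)) (h3 : om ≤ 99 * W) (h4 : la * t ≤ 1) (h5 : la * W ≤ c)
    (hc : 0 ≤ c) [Decidable (t ≤ om)] :
    la * f / 400 ≤ min (la * o) 1 + la * a + c * if t ≤ om then 1 else 0 := by
  have e1 : 0 ≤ la * o := mul_nonneg hla ho
  have e2 : 0 ≤ la * a := mul_nonneg hla ha
  have e3 : 0 ≤ min (la * o) 1 := le_min e1 zero_le_one
  split_ifs with h
  · have := mul_le_mul_of_nonneg_left (h1.trans h3) hla
    nlinarith
  · have e4 := mul_le_mul_of_nonneg_left (h1.trans (not_le.1 h).le) hla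
    have e5 := mul_le_mul_of_nonneg_left h2 hla
    rcases le_total (la * o) 1 with h' | h'
    · rw [min_eq_left h']; nlinarith
    · rw [min_eq_right h']; nlinarith

end DDe3

open DDe3

theorem de3S (h1 : NUK2) (h2 : SUBU) (h3 : DE1) (h4 : DE2) : DE3 := by
  intro N X ι _ _ F lab Z Y Y₁ W Kt η Om Cl Gh t e e' Wb hN hA hS hM hW he hk hq hee
  classical
  by_contra hc
  rw [not_le] at hc
  have ht := hM.dc.t_pos
  have hu := hN.u_pos
  have hL := hN.d_L1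
  have hL0 := hN.d_L0
  have hq0 := hN.d_q0
  have hY : Y₁ ⊆ Y := hM.rw.sub
  have he1 : e' ≤ 1 := by
    have a1 : 1 ≤ N.L ^ 20 := one_le_pow₀ hL
    have a2 : e' ≤ N.k * e' := le_mul_of_one_le_left he.le hN.k_lo
    have a3 : N.k * e' ≤ N.k * e' * N.L ^ 20 := le_mul_of_one_le_right (he.le.trans a2) a1
    linarith
  obtain ⟨T, hT, T', hT', hd, hcard, hbig, f, C, hf, hs, hC⟩ :=
    hA.rare Y₁ (hY.trans hS.sub) (N.u ^ 8 * t) e' hW he he1 hq hc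
  have hU : T ∪ T' ⊆ Y₁ := union_subset hT hT'
  have hUY : T ∪ T' ⊆ Y := hU.trans hY
  have hUc : ((T ∪ T').card : ℝ) = 2 * T.card := by
    rw [card_union_of_disjoint hd, ← hcard]; push_cast; ring
  have hn0 : (0 : ℝ) ≤ T.card := Nat.cast_nonneg _
  have hZ0 : (0 : ℝ) ≤ Z.card := Nat.cast_nonneg _
  have hYZ : (Y.card : ℝ) ≤ Z.card := Nat.cast_le.2 (card_le_card hS.sub)
  have hZn : (Z.card : ℝ) ≤ (N.q : ℝ) ^ 40 * T.card := by
    have a1 := mul_le_mul_of_nonneg_right hq hZ0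
    have a2 := mul_le_mul_of_nonneg_left hbig (pow_pos hq0 40).le
    nlinarith
  have hYU : (Y.card : ℝ) ≤ (N.q : ℝ) ^ 41 * (T ∪ T').card := by
    have a1 := mul_le_mul_of_nonneg_right (hN.d_qp (a := 40) (b := 41) (by norm_num)) hn0
    have a2 := mul_nonneg (pow_pos hq0 41).le hn0
    rw [hUc]; nlinarith
  have hLq : ∀ a : ℕ, N.L ^ (30 * a) ≤ (N.q : ℝ) ^ a := fun a => by
    rw [pow_mul]; exact pow_le_pow_left₀ (pow_pos hL0 _).le hN.d_Lq30 a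
  have hLn : N.L ^ 200 ≤ T.card := by
    have a1 : (N.q : ℝ) ^ 40 * (N.q : ℝ) ^ 10 ≤ (N.q : ℝ) ^ 40 * T.card := by
      rw [← pow_add]
      exact ((hN.d_qs (by norm_num)).trans hM.dc.big).trans (hYZ.trans hZn)
    exact ((hN.d_Lp (by norm_num)).trans (hLq 10)).trans
      (le_of_mul_le_mul_left a1 (pow_pos hq0 40))
  have hn : (0 : ℝ) < T.card := (pow_pos hL0 _).trans_le hLn
  have hZY : Z.card ≤ 2 * Y.card := by
    have a1 := hS.big
    have a2 : N.u ≤ 1 / 2 := hN.u_le.trans (by norm_num)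
    have a3 : (Z.card : ℝ) ≤ 2 * Y.card := by nlinarith
    exact_mod_cast a3
  have hq50 : 4 * N.L ^ 206 ≤ N.u ^ 200 * (N.q : ℝ) ^ 50 := by
    have a1 : N.L * N.L ^ 206 ≤ (N.q : ℝ) ^ 50 := by
      rw [← pow_succ']; exact (hN.d_Lp (by norm_num)).trans (hLq 50)
    have a2 := mul_le_mul_of_nonneg_left a1 (hN.d_pw0 200).le
    have a3 := mul_le_mul_of_nonneg_right (hN.d_uL (a := 200) (by norm_num)) (pow_pos hL0 206).le
    have a4 := pow_pos hL0 206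
    nlinarith
  obtain ⟨s1, s2, s3, s4⟩ := (h2 N X ι F Kt Y Y₁ t Wb hN hM).2 _ hU hYU
  obtain ⟨b1, b2⟩ := h4 X ι F Z Y (T ∪ T') C ((N.q : ℝ) ^ 50) (N.L ^ 200) (N.L ^ 6 * t) hA.w_lo
    hUY hS.sub hZY (one_le_pow₀ hL) (by
      have a1 := hN.d_Lp (a := 200) (b := 206) (by norm_num)
      have a2 := mul_le_mul_of_nonneg_right (hN.d_pw1 200) (pow_pos hq0 50).le
      linarith) (by rw [hUc]; linarith) hM.dc.ob hC
  obtain ⟨n1, n2, n3⟩ := h1 N X ι F Kt Y t Wb (fun i => ¬ C i) hN hM.dc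
  have hla : 0 < N.u ^ 400 / t := div_pos (hN.d_pw0 _) ht
  have hlt : N.u ^ 400 / t * t = N.u ^ 400 := div_mul_cancel₀ _ ht.ne'
  have hOC : ∀ y z, 0 ≤ F.OC (fun i => ¬ C i) y z := fun y z => F.W_nonneg hA.w_lo _
  have hY0 : (0 : ℝ) ≤ Y.card := Nat.cast_nonneg _
  have d1 := h3 X Y Y₁ (T ∪ T') (F.K0 Y) (nu N F Kt Y t Wb fun _ => True)
    (nu N F Kt Y t Wb fun i => ¬ C i) (fun y z => N.u ^ 400 / t * F.OC (fun i => ¬ C i) y z)
    N.u t N.s hM.rw hU hu hN.u_le ht n1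
    (fun y hy z hz => ⟨mul_nonneg hla.le (hOC y z), n2 y hy z hz⟩) n3 (by
      simp only [← mul_sum]
      refine le_of_mul_le_mul_left ?_ (pow_pos hq0 50)
      have a1 := mul_le_mul_of_nonneg_left b2 hla.le
      have a2 := mul_le_mul_of_nonneg_left hq50
        (mul_nonneg (mul_nonneg (hN.d_pw0 400).le (Nat.cast_nonneg (α := ℝ) (T ∪ T').card)) hY0)
      calc _ = N.u ^ 400 / t * ((N.q : ℝ) ^ 50 * ∑ y ∈ T ∪ T', ∑ z ∈ Y.erase y,
            F.OC (fun i => ¬ C i) y z) := by ring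
        _ ≤ _ := a1
        _ = N.u ^ 400 / t * t * (T ∪ T').card * Y.card * (4 * N.L ^ 206) := by ring
        _ = N.u ^ 400 * (T ∪ T').card * Y.card * (4 * N.L ^ 206) := by rw [hlt]
        _ ≤ _ := a2
        _ = _ := by ring) s1 s3 s4
  have hTU : T ⊆ T ∪ T' := subset_union_left
  have hTU' : T' ⊆ T ∪ T' := subset_union_right
  have c1 := (cross hd hTU hTU' fun y _ z _ =>
    le_min (mul_nonneg hla.le (hOC y z)) zero_le_one).trans d1
  have c2 := (cross' hTU hTU' fun y _ z _ => F.W_nonneg hA.w_lo _).trans b1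
  have c3 : (∑ y ∈ T, ∑ z ∈ T', if t ≤ Om y z then (1 : ℝ) else 0) ≤ e * (Z.card : ℝ) ^ 2 := by
    refine le_trans ?_ hS.om
    rw [ed_sum]
    exact cross hd (hT.trans hY) (hT'.trans hY) fun y _ z _ => by split_ifs <;> norm_num
  have c4 : e * (Z.card : ℝ) ^ 2 * N.L ^ 30 ≤ (T.card : ℝ) ^ 2 := by
    have a1 := mul_le_mul_of_nonneg_right hee (sq_nonneg (Z.card : ℝ))
    have a2 := pow_le_pow_left₀ (mul_nonneg (pow_pos (by positivity) _).le hZ0) hbig 2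
    calc _ = e * N.L ^ 30 * (Z.card : ℝ) ^ 2 := by ring
      _ ≤ _ := a1
      _ = ((e' / 4) ^ N.m * Z.card) ^ 2 := by ring
      _ ≤ _ := a2
  have c5 : N.u ^ 400 / t * W ≤ N.L ^ 5 := by
    have a1 := mul_le_mul_of_nonneg_left hS.t_lo hla.le
    have a2 := mul_le_mul_of_nonneg_right (hN.d_pw1 400) (pow_pos hL0 5).le
    rw [← mul_assoc, hlt] at a1
    linarith
  have c6 : N.u ^ 400 / t * (∑ y ∈ T, ∑ z ∈ T', f y z) / 400 ≤
      ∑ y ∈ T, ∑ z ∈ T', min (N.u ^ 400 / t * F.OC (fun i => ¬ C i) y z) 1 +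
      N.u ^ 400 / t * (∑ y ∈ T, ∑ z ∈ T',
        F.W fun i => (C i ∧ y ∈ F.S i ∧ z ∈ F.S i) ∧ ¬ F.b i) +
      N.L ^ 5 * ∑ y ∈ T, ∑ z ∈ T', if t ≤ Om y z then (1 : ℝ) else 0 := by
    simp only [mul_sum, sum_div, ← sum_add_distrib]
    refine sum_le_sum fun y hy => sum_le_sum fun z hz => ?_
    obtain ⟨_, f2, f3⟩ := hf y hy z hz
    have hne : y ≠ z := by
      rintro rfl
      exact disjoint_left.1 hd hy hz
    refine pt hla.le (hOC y z) (F.W_nonneg hA.w_lo _) f2 (f3.trans_eq ?_)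
      (hA.om_hi y (hS.sub (hY (hT hy))) z (hS.sub (hY (hT' hz))) hne)
      (hlt.trans_le (hN.d_pw1 _)) c5 (pow_pos hL0 5).le
    rw [F.W_split _ F.b]
    congr 2
    exact F.W_congr fun i => by tauto
  rw [hUc] at c1 c2
  have hn2 : (0 : ℝ) < (T.card : ℝ) ^ 2 := pow_pos hn 2
  have e1 : N.u ^ 409 * (T.card : ℝ) ^ 2 ≤ N.u ^ 400 / t * ∑ y ∈ T, ∑ z ∈ T', f y z :=
    calc _ = N.u ^ 400 / t * t * N.u ^ 9 * (T.card : ℝ) ^ 2 := by rw [hlt]; ring
      _ = N.u ^ 400 / t * (N.u * (N.u ^ 8 * t) * (T.card : ℝ) ^ 2) := by ring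
      _ ≤ _ := mul_le_mul_of_nonneg_left hs hla.le
  have e2 : N.u ^ 400 / t * (∑ y ∈ T, ∑ z ∈ T',
      F.W fun i => (C i ∧ y ∈ F.S i ∧ z ∈ F.S i) ∧ ¬ F.b i) ≤
      80 * (N.u ^ 480 * (T.card : ℝ) ^ 2) := by
    have a1 := mul_le_mul_of_nonneg_right s2 (sq_nonneg (2 * (T.card : ℝ)))
    calc _ ≤ N.u ^ 400 / t * (4 * (5 * (N.u ^ 80 * t) * (2 * (T.card : ℝ)) ^ 2)) :=
          mul_le_mul_of_nonneg_left (by linarith) hla.le
      _ = 80 * (N.u ^ 400 / t * t * N.u ^ 80 * (T.card : ℝ) ^ 2) := by ring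
      _ = _ := by rw [hlt]; ring
  have e3 : N.L ^ 5 * (∑ y ∈ T, ∑ z ∈ T', if t ≤ Om y z then (1 : ℝ) else 0) ≤
      N.u ^ 480 * (T.card : ℝ) ^ 2 := by
    refine le_of_mul_le_mul_left ?_ (pow_pos hL0 25)
    have a1 := mul_le_mul_of_nonneg_right c3 (pow_pos hL0 30).le
    have a2 : 1 ≤ N.u ^ 480 * N.L ^ 25 := by
      have a3 := hN.d_uL (a := 480) (by norm_num)
      have a4 : N.L ≤ N.L ^ 25 := by simpa using hN.d_Lp (a := 1) (b := 25) (by norm_num)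
      have a5 := mul_le_mul_of_nonneg_left a4 (hN.d_pw0 480).le
      linarith
    have a6 := mul_le_mul_of_nonneg_right a2 hn2.le
    calc _ = (∑ y ∈ T, ∑ z ∈ T', if t ≤ Om y z then (1 : ℝ) else 0) * N.L ^ 30 := by ring
      _ ≤ (T.card : ℝ) ^ 2 := a1.trans c4
      _ ≤ _ := by linarith
  have e4 := mul_le_mul_of_nonneg_right (hN.d_gap (a := 409) (b := 480) (by norm_num)) hn2.le
  have e5 := mul_pos (hN.d_pw0 480) hn2
  have e6 : 40 * N.u ^ 480 * (2 * (T.card : ℝ)) ^ 2 = 160 * (N.u ^ 480 * (T.card : ℝ) ^ 2) := by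
    ring
  rw [e6] at c1
  rw [mul_assoc] at e4
  linarith

end Pool.Agent.MP_ddf486_co.KV
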