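import Pool.Agent.MP_ddf486_co.KV.BasicD
import Pool.Agent.MP_6c3157_co.PQ.Phi

/-! Project KV, rows ZSI and H0. -/

set_option autoImplicit false

namespace Pool.Agent.MP_ddf486_co.KV

open Finset Pool.Agent.MP_6c3157_co.PD Pool.Agent.MP_6c3157_co.PQ

theorem zsiS : ZSI := by
  intro N X _ lab Z Y H hN hP hY h
  classical
  have h1 : (ed Y H : ℝ) ≤ Zs lab Z := by
    rw [ed_sum, Zs, Nat.cast_sum]
    refine (sum_le_sum fun x hx => ?_).trans
      (sum_le_sum_of_subset_of_nonneg hY fun _ _ _ => Nat.cast_nonneg _)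
    rw [sum_boole]
    refine Nat.cast_le.2 (card_le_card_of_injOn (lab x) (fun y hy => ?_) fun y hy z hz e => ?_)
    · exact mem_coe.2 (mem_image_of_mem _ (erase_subset_erase x hY (mem_filter.1 hy).1))
    · simp only [coe_filter, mem_erase, Set.mem_ofPred_eq] at hy hz
      exact h x hx y hy.1.2 z hz.1.2 hy.1.1 hz.1.1 hy.2 hz.2 e
  refine (h1.trans ((phi fibs X lab _ Z hN.d_ka).2.1.trans hP.bad)).trans
    (mul_le_mul_of_nonneg_right (mul_le_mul_of_nonneg_right ?_ hN.psi_pos.le) (by positivity))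
  linarith [hN.u_le]

theorem h0S (h : ZSI) : H0 := by
  intro N X ι _ _ F lab Z Y Y₁ W Kt η Om Cl Gh τ hN hA hP hY h1 hc hd
  classical
  let M : X → X → Prop := fun x y => ∃ z ∈ Y₁, z ≠ x ∧ z ≠ y ∧ lab x z = lab x y
  let G : X → Prop := fun y => Z.card ≤ 2 * ((Y₁.erase y).filter fun x => M x y).card
  refine ⟨Y₁.filter G, filter_subset _ _, ?_, fun y hy => ?_⟩
  · have hz : (15 : ℝ) ≤ Z.card := by nlinarith [hP.big, hN.d_s]
    have e := h N X lab Z Y₁ (fun x y => ¬M x y) hN hP (h1.trans hY)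
      fun x _ y _ z hz _ zx hy _ e => by_contra fun c => hy ⟨z, hz, zx, Ne.symm c, e.symm⟩
    rw [ed_sum, sum_comm' (t' := Y₁) (s' := fun y => Y₁.erase y)
      fun x y => by simp only [mem_erase]; tauto] at e
    have b := (card_nsmul_le_sum (Y₁.filter fun y => ¬G y) _ ((Z.card : ℝ) / 3) fun y hy => by
      obtain ⟨hy, g⟩ := mem_filter.1 hy
      have a := card_filter_add_card_filter_not (s := Y₁.erase y) fun x => M x y
      have := card_erase_add_one hy
      have z : 15 ≤ Z.card := by exact_mod_cast hz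
      refine le_trans ?_ (le_of_eq (by
        convert (sum_boole (R := ℝ) (fun x => ¬M x y) (Y₁.erase y)).symm))
      rw [div_le_iff₀' three_pos]
      norm_cast
      simp only [G] at g
      omega).trans ((sum_le_sum_of_subset_of_nonneg (filter_subset _ _)
        fun y _ _ => sum_nonneg fun _ _ => by positivity).trans e)
    rw [nsmul_eq_mul] at b
    have a := congrArg (Nat.cast (R := ℝ)) (card_filter_add_card_filter_not (s := Y₁) G)
    push_cast at a
    have := hN.d_psi (a := 90) (by norm_num)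
    have := hN.psi_pos
    have : ((Y₁.filter fun y => ¬G y).card : ℝ) ≤ 6 * N.ψ * Z.card :=
      le_of_mul_le_mul_right (a := (Z.card : ℝ) / 3) (by linarith) (by linarith)
    nlinarith
  · obtain ⟨hy, g⟩ := mem_filter.1 hy
    obtain ⟨U, hU, a, b⟩ := hA.out Y₁ (h1.trans hY) y hy (by convert g)
    refine (b Y hY (hc.trans (Nat.mul_le_mul_left _ (card_le_card h1)))).trans
      (mul_le_mul_of_nonneg_left (hd U hU (((Nat.cast_le.2 (card_le_card hY)).trans a).trans
        (mul_le_mul_of_nonneg_right ?_ (Nat.cast_nonneg _)))) (by positivity))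
    linarith [hN.d_kq, hN.d_qle (a := 41) (by norm_num), hN.k_lo]

end Pool.Agent.MP_ddf486_co.KV
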