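import Pool.Agent.MP_ddf486_co.KV.BasicD

/-! Project KV, block D: the shifted power against the normalised kernel. -/

set_option autoImplicit false
set_option linter.unusedSectionVars false

noncomputable section

namespace Pool.Agent.MP_ddf486_co.KV

open Finset Pool.Agent.MP_6c3157_co.PD Pool.Agent.MP_6c3157_co.PQ

namespace DKcore

/-- the product of two row sums -/
theorem prod_bd {a b n x : ℝ} (hn : 0 ≤ n) (hx : 0 ≤ x) (hx1 : x ≤ 1) (ha : |a - n| ≤ x * n)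
    (hb : |b - n| ≤ x * n) : (1 - 3 * x) * n ^ 2 ≤ a * b ∧ a * b ≤ (1 + 3 * x) * n ^ 2 := by
  obtain ⟨a1, a2⟩ := abs_le.1 ha
  obtain ⟨b1, b2⟩ := abs_le.1 hb
  have h0 : 0 ≤ (1 - x) * n := mul_nonneg (by linarith) hn
  have l : ((1 - x) * n) * ((1 - x) * n) ≤ a * b :=
    mul_le_mul (by linarith) (by linarith) h0 (by linarith)
  have r : a * b ≤ ((1 + x) * n) * ((1 + x) * n) :=
    mul_le_mul (by linarith) (by linarith) (by linarith) (by positivity)
  have q : 0 ≤ x * n ^ 2 := by positivity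
  have q1 : 0 ≤ x * (x * n ^ 2) := by positivity
  have q2 : x * (x * n ^ 2) ≤ x * n ^ 2 := mul_le_of_le_one_left q hx1
  constructor <;> nlinarith

/-- lower bound for one term -/
theorem low {k τ R lo hi' : ℝ} {p : ℕ} (hp : Odd p) (hτ : 0 < τ) (h0 : 0 ≤ lo) (h1 : lo ≤ R)
    (h2 : R ≤ hi') :
    lo * (if τ / 4 ≤ k then (k + τ / 4) ^ p else 0) -
      hi' * (if k ≤ -(τ / 4) then |k + τ / 4| ^ p else 0) ≤ (k + τ / 4) ^ p * R := by
  by_cases hN : k ≤ -(τ / 4)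
  · rw [if_pos hN, if_neg (by linarith), abs_of_nonpos (by linarith), hp.neg_pow]
    have : (k + τ / 4) ^ p ≤ 0 := hp.pow_nonpos_iff.2 (by linarith)
    nlinarith
  · have hG : 0 ≤ (k + τ / 4) ^ p := pow_nonneg (by linarith [not_le.1 hN]) p
    rw [if_neg hN]
    split_ifs
    · nlinarith
    · nlinarith [mul_nonneg hG (h0.trans h1)]

theorem exp_bd {x : ℝ} (h0 : 0 ≤ x) (h1 : x ≤ 1) : Real.exp (-(x / 5)) ≤ 1 - x / 10 := by
  have e := Real.add_one_le_exp (x / 5)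
  have m : Real.exp (-(x / 5)) * Real.exp (x / 5) = 1 := by rw [← Real.exp_add]; simp
  have p := Real.exp_pos (-(x / 5))
  by_contra hc
  have hc' := not_le.1 hc
  nlinarith [mul_le_mul_of_nonneg_left e p.le]

/-- upper bound for one term -/
theorem upp {k τ v δ : ℝ} {p : ℕ} (hp : Odd p) (hτ : 0 < τ) (h0 : 0 ≤ v)
    (h1 : τ / 4 ≤ k → v ≤ 1 - δ) :
    (k + τ / 4) ^ p * v ≤
      (1 - δ) * (if τ / 4 ≤ k then (k + τ / 4) ^ p else 0) + (τ / 2) ^ p * v := by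
  have hm : 0 ≤ (τ / 2) ^ p * v := by positivity
  split_ifs with h
  · have hG : 0 ≤ (k + τ / 4) ^ p := pow_nonneg (by linarith) p
    nlinarith [mul_le_mul_of_nonneg_left (h1 h) hG]
  · have : (k + τ / 4) ^ p ≤ (τ / 2) ^ p := hp.pow_le_pow.2 (by linarith [not_le.1 h])
    nlinarith [mul_le_mul_of_nonneg_right this h0]

/-- the last computation -/
theorem last {a P M A d x e : ℝ} (ha : 0 < a) (hP : a ≤ 3 * P) (hM : M ≤ 2 * e * a)
    (hA : A ≤ (1 - d / 10) * P + 3 * e * a) (hx0 : 0 ≤ x) (hx1 : x ≤ 1 / 100) (he : 0 ≤ e)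
    (hd : 0 < d) (hxd : 100 * x ≤ d) (hed : 1000 * e ≤ d)
    (h : (1 - 3 * x) * P - (1 + 3 * x) * M ≤ (1 + x) * A) : False := by
  have hP0 : 0 < P := by linarith
  have ea : 0 ≤ e * a := by positivity
  have s1 : (1 + x) * A ≤ (1 + x) * ((1 - d / 10) * P + 3 * e * a) :=
    mul_le_mul_of_nonneg_left hA (by linarith)
  have s2 : (1 + 3 * x) * M ≤ (1 + 3 * x) * (2 * e * a) :=
    mul_le_mul_of_nonneg_left hM (by linarith)
  have s3 : x * (e * a) ≤ 1 / 100 * (e * a) := mul_le_mul_of_nonneg_right hx1 ea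
  have s4 : 0 ≤ x * (d * P) := by positivity
  have s5 : 100 * x * P ≤ d * P := mul_le_mul_of_nonneg_right hxd hP0.le
  have s6 : 1000 * e * a ≤ d * a := mul_le_mul_of_nonneg_right hed ha.le
  have s7 : d * a ≤ d * (3 * P) := mul_le_mul_of_nonneg_left hP hd.le
  have s8 : 0 < d * P := by positivity
  nlinarith

end DKcore

open DKcore in
theorem kcoreS (h1 : KPOS) (h2 : KNEG) : KCORE := by
  classical
  intro X _ Y Y₁ K ν lm u t s τ H E p pk rw' hu hu1 ht hp h2p hτ hH hexp hs hE hEs hdg hn1 hn2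
  have u1 : u ≤ 1 := hu1.trans (by norm_num)
  have pw0 : ∀ a : ℕ, 0 < u ^ a := fun a => pow_pos hu a
  have pw1 : ∀ a : ℕ, u ^ a ≤ 1 := fun a => pow_le_one₀ hu.le u1
  have g0 : 10 ^ 30 * u ^ 800 ≤ 1 := by simpa using pow_gap hu hu1 (a := 0) (b := 800) (by norm_num)
  have g1 : 10 ^ 30 * u ^ 500 ≤ 1 := by simpa using pow_gap hu hu1 (a := 0) (b := 500) (by norm_num)
  have g2 := pow_gap hu hu1 (a := 480) (b := 500) (by norm_num)
  have g3 := pow_gap hu hu1 (a := 480) (b := 800) (by norm_num)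
  have g4 := pow_gap hu hu1 (a := 480) (b := 1000) (by norm_num)
  have τ0 : 0 < τ := (mul_pos (pw0 80) ht).trans_le hτ
  have Ep : 1 ≤ E ^ p := one_le_pow₀ hE
  have s0 : 0 < s - 1 := (mul_pos_iff_of_pos_left (pw0 800)).1 (by linarith)
  set n : ℝ := (Y.card : ℝ) with hn
  have n0 : 0 < n := by linarith
  have c1 : (Y₁.card : ℝ) ≤ n := Nat.cast_le.2 (card_le_card rw'.sub)
  have τp : 0 < τ ^ p := pow_pos τ0 p
  have a0 : 0 < n ^ 2 * τ ^ p := by positivity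
  have p3 : 3 ≤ p := by
    by_contra hc
    have : (2 : ℝ) ^ p ≤ 2 ^ 2 := pow_le_pow_right₀ one_le_two (by omega)
    linarith only [mul_le_mul_of_nonneg_left this (pw0 800).le, h2p, g0, pw0 800]
  have h2p' : 1 / 2 ^ p ≤ u ^ 800 := by rwa [div_le_iff₀ (by positivity)]
  have En : 9 * E ^ p ≤ u ^ 800 * n :=
    hEs.trans (mul_le_mul_of_nonneg_left (by linarith) (pw0 800).le)
  have Gd : ∀ y ∈ Y₁, 0 ≤ (K y y + τ / 4) ^ p ∧ (K y y + τ / 4) ^ p ≤ E ^ p * τ ^ p := fun y hy => by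
    have := pk.gK.diag y
    exact ⟨pow_nonneg (by linarith) p, by
      rw [← mul_pow]; exact pow_le_pow_left₀ (by linarith) (hdg y hy) p⟩
  have hP := h1 X Y₁ K p τ n pk.gK hp p3 τ0 c1 hn1 (by
    have b1 : ∑ y ∈ Y₁, K y y ^ p ≤ Y₁.card • (E ^ p * τ ^ p) :=
      sum_le_card_nsmul _ _ _ fun y hy =>
        (pow_le_pow_left₀ (pk.gK.diag y) (by linarith) p).trans (Gd y hy).2
    rw [nsmul_eq_mul] at b1
    have b2 : (Y₁.card : ℝ) * (E ^ p * τ ^ p) ≤ n * (E ^ p * τ ^ p) :=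
      mul_le_mul_of_nonneg_right c1 (by positivity)
    have b3 : 9 * E ^ p * (n * τ ^ p) ≤ u ^ 800 * n * (n * τ ^ p) :=
      mul_le_mul_of_nonneg_right En (by positivity)
    have b4 : 10 ^ 30 * u ^ 800 * (n ^ 2 * τ ^ p) ≤ 1 * (n ^ 2 * τ ^ p) :=
      mul_le_mul_of_nonneg_right g0 a0.le
    linarith only [b1, b2, b3, b4, mul_pos (pw0 800) a0])
  have hM := h2 X Y₁ K p τ n H (u ^ 800) τ0 hH hexp hn1 hn2
  have gG : Gram fun y z => (K y z + τ / 4) ^ p :=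
    (pk.gK.add (Gram.const (by positivity))).pow p
  have gr := gG.gr pk.gn Y₁ Y
  have A0 := (gG.mul pk.gn).total Y₁
  set P := ∑ y ∈ Y₁, ∑ z ∈ Y₁.erase y, if τ / 4 ≤ K y z then (K y z + τ / 4) ^ p else 0 with hPd
  set M := ∑ y ∈ Y₁, ∑ z ∈ Y₁.erase y, if K y z ≤ -(τ / 4) then |K y z + τ / 4| ^ p else 0 with hMd
  set A := ∑ y ∈ Y₁, ∑ z ∈ Y₁, (K y z + τ / 4) ^ p * ν y z with hAd
  have x0 : 0 ≤ 5 * u ^ 500 := by positivity
  have x1 : 5 * u ^ 500 ≤ 1 / 100 := by linarith only [g1, pw0 500]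
  have lo : (1 - 3 * (5 * u ^ 500)) * n ^ 2 * P - (1 + 3 * (5 * u ^ 500)) * n ^ 2 * M ≤
      ∑ y ∈ Y₁, ∑ z ∈ Y₁, (K y z + τ / 4) ^ p * ((∑ a ∈ Y, ν y a) * ∑ a ∈ Y, ν z a) := by
    rw [full_eq]
    refine le_add_of_nonneg_of_le (sum_nonneg fun y hy =>
      mul_nonneg (Gd y hy).1 (mul_self_nonneg _)) ?_
    rw [hPd, hMd, mul_sum, mul_sum, ← sum_sub_distrib]
    refine sum_le_sum fun y hy => ?_
    rw [mul_sum, mul_sum, ← sum_sub_distrib]
    refine sum_le_sum fun z hz => ?_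
    have b := prod_bd n0.le x0 (by linarith) (rw'.row y hy) (rw'.row z (mem_of_mem_erase hz))
    exact low hp τ0 (mul_nonneg (by linarith) (sq_nonneg _)) b.1 b.2
  have up : A ≤ (1 - u ^ 480 / 10) * P + 3 * u ^ 800 * (n ^ 2 * τ ^ p) := by
    have d1 : ∑ y ∈ Y₁, (K y y + τ / 4) ^ p * ν y y ≤ Y₁.card • (u ^ 800 * n * τ ^ p) :=
      sum_le_card_nsmul _ _ _ fun y hy => by
        have v0 := pk.n_lo y (rw'.sub hy) y (rw'.sub hy)
        have b1 := mul_le_mul_of_nonneg_right (Gd y hy).2 v0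
        have b2 := mul_le_mul_of_nonneg_right hEs v0
        have b3 := mul_le_mul_of_nonneg_left (rw'.dg y hy) (pw0 800).le
        have b4 : E ^ p * ν y y ≤ u ^ 800 * n := by
          linarith only [b2, b3, mul_pos (pw0 800) n0]
        linarith only [b1, mul_le_mul_of_nonneg_right b4 τp.le]
    rw [nsmul_eq_mul] at d1
    have d2 : (Y₁.card : ℝ) * (u ^ 800 * n * τ ^ p) ≤ n * (u ^ 800 * n * τ ^ p) :=
      mul_le_mul_of_nonneg_right c1 (by positivity)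
    have o1 : ∑ y ∈ Y₁, ∑ z ∈ Y₁.erase y, (K y z + τ / 4) ^ p * ν y z ≤
        (1 - u ^ 480 / 10) * P + (τ / 2) ^ p * ∑ y ∈ Y₁, ∑ z ∈ Y₁.erase y, ν y z := by
      rw [hPd, mul_sum, mul_sum, ← sum_add_distrib]
      refine sum_le_sum fun y hy => ?_
      rw [mul_sum, mul_sum, ← sum_add_distrib]
      refine sum_le_sum fun z hz => ?_
      have hz' := rw'.sub (mem_of_mem_erase hz)
      refine upp hp τ0 (pk.n_lo y (rw'.sub hy) z hz') fun hk => ?_
      refine (pk.n_hi y (rw'.sub hy) z hz' (ne_of_mem_erase hz).symm).trans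
        ((Real.exp_le_exp.2 ?_).trans (exp_bd (pw0 480).le (pw1 480)))
      have b1 : u ^ 400 / t * (u ^ 80 * t / 4) ≤ u ^ 400 / t * K y z :=
        mul_le_mul_of_nonneg_left (by linarith) (by positivity)
      have b2 : u ^ 400 / t * (u ^ 80 * t / 4) = u ^ 480 / 4 := by field_simp
      linarith only [b1, b2, g4, pw0 1000]
    have o2 : ∑ y ∈ Y₁, ∑ z ∈ Y₁.erase y, ν y z ≤ 2 * n ^ 2 := by
      have b1 := off_mono rw'.sub (f := ν) fun y hy z hz _ => pk.n_lo y hy z hz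
      have b2 := rw'.tot
      rw [full_eq] at b2
      have b3 : 0 ≤ ∑ y ∈ Y, ν y y := sum_nonneg fun y hy => pk.n_lo y hy y hy
      linarith only [b1, b2, b3, mul_le_mul_of_nonneg_right x1 (sq_nonneg n), sq_nonneg n]
    have o3 : (τ / 2) ^ p ≤ u ^ 800 * τ ^ p := by
      rw [div_pow, div_eq_mul_one_div, mul_comm]
      exact mul_le_mul_of_nonneg_right h2p' τp.le
    have o4 : (τ / 2) ^ p * ∑ y ∈ Y₁, ∑ z ∈ Y₁.erase y, ν y z ≤ u ^ 800 * τ ^ p * (2 * n ^ 2) :=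
      (mul_le_mul_of_nonneg_left o2 (by positivity)).trans
        (mul_le_mul_of_nonneg_right o3 (by positivity))
    rw [hAd, full_eq]
    linarith only [d1, d2, o1, o4]
  have fin : (1 - 3 * (5 * u ^ 500)) * P - (1 + 3 * (5 * u ^ 500)) * M ≤ (1 + 5 * u ^ 500) * A := by
    have b := (lo.trans gr).trans (mul_le_mul_of_nonneg_left rw'.tot A0)
    refine le_of_mul_le_mul_left ?_ (pow_pos n0 2)
    linarith only [b]
  refine last a0 hP (hM.trans ?_) up x0 x1 (pw0 800).le (pw0 480) ?_ ?_ fin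
  · exact mul_le_mul_of_nonneg_right (by linarith) a0.le
  · linarith only [g2, pw0 500]
  · linarith only [g3, pw0 800]

end Pool.Agent.MP_ddf486_co.KV
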