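import Pool.Agent.MP_ddf486_co.KV.BasicD

/-! Project KV, block D: the kernel lemma from its core. -/

set_option autoImplicit false
set_option linter.unusedSectionVars false

noncomputable section

namespace Pool.Agent.MP_ddf486_co.KV

open Finset Pool.Agent.MP_6c3157_co.PD Pool.Agent.MP_6c3157_co.PQ

namespace DKlem

/-- the exponents `r, 2 r + 1, …` -/
def rr (r : ℕ) : ℕ → ℕ
  | 0 => r
  | k + 1 => 2 * rr r k + 1

theorem rr_succ (r k : ℕ) : rr r k + 1 = 2 ^ k * (r + 1) := by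
  induction k with
  | zero => simp [rr]
  | succ k ih => rw [pow_succ, mul_comm (2 ^ k) 2, mul_assoc, ← ih, rr]; ring

theorem rr_ge (r k : ℕ) : r ≤ rr r k := by
  induction k with
  | zero => exact le_rfl
  | succ k ih => rw [rr]; omega

theorem rr_odd {r : ℕ} (h : Odd r) (k : ℕ) : Odd (rr r k) := by
  cases k with
  | zero => exact h
  | succ k => exact ⟨rr r k, rfl⟩

theorem root {x n : ℝ} (hx : 0 ≤ x) (hn : 0 < n) {p : ℕ} (hp : p ≠ 0) :
    ∃ τ : ℝ, 0 ≤ τ ∧ x = n ^ 2 * τ ^ p := by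
  have h1 : 0 ≤ x / n ^ 2 := div_nonneg hx (by positivity)
  refine ⟨(x / n ^ 2) ^ ((p : ℝ)⁻¹), Real.rpow_nonneg h1 _, ?_⟩
  rw [Real.rpow_inv_natCast_pow h1 hp]
  field_simp

theorem big {N : Nb} (h : N.Good) {p : ℕ} (hp : p + 1 ≤ 2 ^ N.K * (N.r + 1)) :
    9 * ((N.q : ℝ) ^ 53) ^ p ≤ N.u ^ 800 * (N.s - 1) := by
  have h1 : ((N.q : ℝ) ^ 60) ^ (p + 1) ≤ N.s :=
    (pow_le_pow_right₀ (one_le_pow₀ h.d_q1) hp).trans h.sq
  have h2 : ((N.q : ℝ) ^ 53) ^ p ≤ ((N.q : ℝ) ^ 60) ^ p :=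
    pow_le_pow_left₀ (pow_pos h.d_q0 _).le (h.d_qp (by norm_num)) p
  have h3 : (N.q : ℝ) ≤ (N.q : ℝ) ^ 60 := h.d_qle (by norm_num)
  have h4 : 0 < ((N.q : ℝ) ^ 53) ^ p := pow_pos (pow_pos h.d_q0 _) _
  have h5 : ((N.q : ℝ) ^ 53) ^ p * N.q ≤ N.s := by
    refine le_trans ?_ h1
    rw [pow_succ ((N.q : ℝ) ^ 60) p]
    exact mul_le_mul h2 h3 h.d_q0.le (h4.le.trans h2)
  have h6 := h.d_uq (a := 800) (by norm_num)
  have h7 := h.d_s
  have h8 := h.d_pw0 800
  generalize ((N.q : ℝ) ^ 53) ^ p = E at *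
  generalize N.u ^ 800 = v at *
  have h9 : v * (E * N.q) ≤ v * N.s := mul_le_mul_of_nonneg_left h5 h8.le
  have h10 : E * 10 ^ 30 ≤ E * (v * N.q) := mul_le_mul_of_nonneg_left h6 h4.le
  have h11 : v * 10 ^ 30 ≤ v * N.s := mul_le_mul_of_nonneg_left h7 h8.le
  nlinarith

end DKlem

open DKlem in
theorem klemS (h : KCORE) : KLEM := by
  intro N X _ Y Y₁ K ν lm t hN hP hR ht hs hd ho
  have hn : (0 : ℝ) < Y.card := lt_of_lt_of_le (lt_of_lt_of_le (by norm_num) hN.d_s) hs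
  have hn2 : (0 : ℝ) < (Y.card : ℝ) ^ 2 := pow_pos hn 2
  have hp0 : ∀ k, rr N.r k ≠ 0 := fun k => (rr_odd hN.r_odd k).pos.ne'
  have hex : ∀ k, ∃ τ : ℝ, 0 ≤ τ ∧ ∑ y ∈ Y₁, ∑ z ∈ Y₁.erase y, |K y z| ^ rr N.r k =
      (Y.card : ℝ) ^ 2 * τ ^ rr N.r k := fun k =>
    root (sum_nonneg fun y _ => sum_nonneg fun z _ => pow_nonneg (abs_nonneg _) _) hn (hp0 k)
  choose τ hτ0 hτ using hex
  have hc : 0 < N.u ^ 80 * t := mul_pos (hN.d_pw0 80) ht
  have hH0 : 0 < N.H := one_pos.trans_le hN.H_lo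
  by_contra hcon
  have h0 : N.u ^ 80 * t < τ 0 := by
    have h1 := hτ 0
    rw [show rr N.r 0 = N.r from rfl] at h1
    rw [h1, not_le] at hcon
    exact lt_of_pow_lt_pow_left₀ _ (hτ0 0) (lt_of_mul_lt_mul_left hcon hn2.le)
  have hind : ∀ k, k ≤ N.K → N.H ^ k * (N.u ^ 80 * t) < τ k := by
    intro k
    induction k with
    | zero => intro _; simpa using h0
    | succ k ih =>
      intro hk
      have ih' := ih (by omega)
      have hlo : N.u ^ 80 * t ≤ τ k :=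
        (le_mul_of_one_le_left hc.le (one_le_pow₀ hN.H_lo)).trans ih'.le
      by_contra hle
      rw [not_lt] at hle
      have hle' : τ (k + 1) ≤ N.H * τ k := by
        refine hle.trans ?_
        rw [pow_succ', mul_assoc]
        exact mul_le_mul_of_nonneg_left ih'.le hH0.le
      have hge : (N.r : ℝ) ≤ rr N.r k := Nat.cast_le.2 (rr_ge _ _)
      refine h X Y Y₁ K ν lm N.u t N.s (τ k) N.H ((N.q : ℝ) ^ 53) (rr N.r k) hP hR hN.u_pos
        hN.u_le ht (rr_odd hN.r_odd k) ?_ hlo hN.H_lo ?_ hs (one_le_pow₀ hN.d_q1) (big hN ?_) ?_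
        (hτ k) ?_
      · refine le_trans (by norm_num) ((hN.d_u2 (a := 800) (by norm_num)).trans ?_)
        exact mul_le_mul_of_nonneg_left (pow_le_pow_right₀ one_le_two (rr_ge _ _))
          (hN.d_pw0 _).le
      · refine le_trans (Real.exp_le_exp.2 (neg_le_neg ?_)) hN.Hr
        exact div_le_div_of_nonneg_right hge (by positivity)
      · rw [rr_succ]
        exact Nat.mul_le_mul_right _ (Nat.pow_le_pow_right (by norm_num) (by omega))
      · intro y hy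
        have h1 := hd y (hR.sub hy)
        have h2 := hN.d_uq (a := 80) (by norm_num)
        have h3 : (1 : ℝ) ≤ (N.q : ℝ) ^ 52 := one_le_pow₀ hN.d_q1
        have h4 := hN.d_q
        have h5 := hτ0 k
        rw [pow_succ (N.q : ℝ) 52]
        generalize (N.q : ℝ) ^ 52 = A at *
        have h6 : (N.q : ℝ) * (N.u ^ 80 * t) ≤ N.q * τ k :=
          mul_le_mul_of_nonneg_left hlo hN.d_q0.le
        have h7 : 10 ^ 30 * t ≤ N.u ^ 80 * N.q * t := mul_le_mul_of_nonneg_right h2 ht.le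
        have h8 : 2 * t ≤ N.q * τ k := by nlinarith
        have h9 : A * (2 * t) ≤ A * (N.q * τ k) := mul_le_mul_of_nonneg_left h8 (by linarith)
        have h10 : τ k ≤ N.q * τ k := le_mul_of_one_le_left h5 hN.d_q1
        have h11 : N.q * τ k ≤ A * (N.q * τ k) := le_mul_of_one_le_left (h5.trans h10) h3
        nlinarith
      · have h1 := hτ (k + 1)
        rw [show rr N.r (k + 1) = 2 * rr N.r k + 1 from rfl] at h1
        rw [h1]
        exact mul_le_mul_of_nonneg_left (pow_le_pow_left₀ (hτ0 _) hle' _) hn2.le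
  have hL : 0 < N.L ^ 6 * t := mul_pos (pow_pos hN.d_L0 6) ht
  have hup : τ N.K ≤ N.L ^ 6 * t := by
    refine le_of_pow_le_pow_left₀ (hp0 N.K) hL.le (le_of_mul_le_mul_left ?_ hn2)
    rw [← hτ N.K]
    refine (off_const Y₁ (pow_nonneg hL.le _) fun y hy z hz hyz =>
      pow_le_pow_left₀ (abs_nonneg _) (ho y (hR.sub hy) z (hR.sub hz) hyz) _).trans ?_
    rw [mul_comm]
    exact mul_le_mul_of_nonneg_right (pow_le_pow_left₀ (Nat.cast_nonneg _)
      (Nat.cast_le.2 (card_le_card hR.sub)) 2) (pow_nonneg hL.le _)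
  have h1 := hind N.K le_rfl
  have h2 : N.L ^ 12 * (N.u ^ 80 * t) ≤ N.H ^ N.K * (N.u ^ 80 * t) :=
    mul_le_mul_of_nonneg_right hN.HK hc.le
  have h3 : 1 ≤ N.u ^ 80 * N.L ^ 6 := by
    have h4 := hN.d_uL (a := 80) (by norm_num)
    have h5 : N.L ≤ N.L ^ 6 := by simpa using hN.d_Lp (a := 1) (b := 6) (by norm_num)
    exact le_trans (by norm_num) (h4.trans (mul_le_mul_of_nonneg_left h5 (hN.d_pw0 _).le))
  have h6 : N.L ^ 6 * t ≤ N.L ^ 12 * (N.u ^ 80 * t) := by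
    have := le_mul_of_one_le_left hL.le h3
    refine this.trans_eq ?_
    ring
  linarith

end Pool.Agent.MP_ddf486_co.KV
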