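import Pool.Agent.MP_ddf486_co.KV.BasicD

/-! Project KV, block D: the positive and the negative part of a shifted odd power. -/

set_option autoImplicit false

noncomputable section

namespace Pool.Agent.MP_ddf486_co.KV

open Finset Pool.Agent.MP_6c3157_co.PD Pool.Agent.MP_6c3157_co.PQ

namespace DKpn

theorem pos_pt {x c : ℝ} {p : ℕ} (hp : Odd p) (hc : 0 < c) :
    |x| ^ p + x ^ p ≤ 2 * (if c ≤ x then (x + c) ^ p else 0) + 2 * c ^ p := by
  have h0 := pow_pos hc p
  split_ifs with h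
  · have h1 : x ^ p ≤ (x + c) ^ p := pow_le_pow_left₀ (by linarith) (by linarith) p
    rw [abs_of_nonneg (by linarith)]
    linarith
  · rcases le_total 0 x with h1 | h1
    · have h2 : x ^ p ≤ c ^ p := pow_le_pow_left₀ h1 (not_le.1 h).le p
      rw [abs_of_nonneg h1]
      linarith
    · rw [abs_of_nonpos h1, hp.neg_pow]
      linarith

theorem neg_pt {x τ H ε : ℝ} {p : ℕ} (hτ : 0 < τ) (hH : 1 ≤ H)
    (hε : Real.exp (-(p / (8 * H ^ 2))) ≤ ε) :
    (if x ≤ -(τ / 4) then |x + τ / 4| ^ p else 0) ≤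
      ε * |x| ^ p + |x| ^ (2 * p + 1) / (2 * H ^ 2 * τ) ^ (p + 1) := by
  have e0 : 0 ≤ ε := (Real.exp_pos _).le.trans hε
  have hM : 0 < 2 * H ^ 2 * τ := by positivity
  have t1 : 0 ≤ ε * |x| ^ p := by positivity
  have t2 : 0 ≤ |x| ^ (2 * p + 1) / (2 * H ^ 2 * τ) ^ (p + 1) := by positivity
  split_ifs with h
  · have a1 : |x + τ / 4| = |x| - τ / 4 := by
      rw [abs_of_nonpos (by linarith), abs_of_nonpos (by linarith)]; ring
    have a0 : 0 ≤ |x| - τ / 4 := a1 ▸ abs_nonneg _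
    rw [a1]
    generalize |x| = a at *
    have ha : 0 ≤ a := by linarith
    rcases le_total a (2 * H ^ 2 * τ) with h1 | h1
    · have b1 : a * (1 / (8 * H ^ 2)) ≤ τ / 4 := by
        rw [mul_one_div, div_le_iff₀ (by positivity)]; linarith
      have b2 := mul_le_mul_of_nonneg_left (Real.add_one_le_exp (-(1 / (8 * H ^ 2)))) ha
      have b3 : (a - τ / 4) ^ p ≤ (a * Real.exp (-(1 / (8 * H ^ 2)))) ^ p :=
        pow_le_pow_left₀ a0 (by linarith) p
      rw [mul_pow, ← Real.exp_nat_mul, mul_neg, mul_one_div] at b3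
      have b4 := mul_le_mul_of_nonneg_left hε (pow_nonneg ha p)
      linarith
    · have b1 : (a - τ / 4) ^ p ≤ a ^ p := pow_le_pow_left₀ a0 (by linarith) p
      have b2 : a ^ p ≤ a ^ (2 * p + 1) / (2 * H ^ 2 * τ) ^ (p + 1) := by
        rw [le_div_iff₀ (pow_pos hM _), show 2 * p + 1 = p + (p + 1) by ring, pow_add a p]
        exact mul_le_mul_of_nonneg_left (pow_le_pow_left₀ hM.le h1 _) (pow_nonneg ha p)
      linarith
  · linarith

end DKpn

theorem kposS : KPOS := by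
  intro X _ Y K p τ n hK hp h3 hτ hn h1 h2
  have hc : 0 < τ / 4 := by linarith
  have g := (hK.pow p).total Y
  rw [full_eq] at g
  have s1 := sum_le_sum fun y (_ : y ∈ Y) => sum_le_sum fun z (_ : z ∈ Y.erase y) =>
    DKpn.pos_pt (x := K y z) hp hc
  have s2 := off_const Y (f := fun _ _ => (τ / 4) ^ p) (pow_pos hc p).le fun _ _ _ _ _ => le_rfl
  have s3 : (τ / 4) ^ p * (Y.card : ℝ) ^ 2 ≤ τ ^ p / 64 * n ^ 2 := by
    refine mul_le_mul ?_ (pow_le_pow_left₀ (Nat.cast_nonneg _) hn 2) (by positivity)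
      (by positivity)
    rw [div_pow]
    refine div_le_div_of_nonneg_left (by positivity) (by norm_num) ?_
    exact le_trans (by norm_num) (pow_le_pow_right₀ (by norm_num : (1 : ℝ) ≤ 4) h3)
  have s4 : 0 ≤ n ^ 2 * τ ^ p := by positivity
  simp only [sum_add_distrib, ← mul_sum] at s1
  linarith

theorem knegS : KNEG := by
  intro X _ Y K p τ n H ε hτ hH hε h1 h2
  have s1 := sum_le_sum fun y (_ : y ∈ Y) => sum_le_sum fun z (_ : z ∈ Y.erase y) =>
    DKpn.neg_pt (x := K y z) hτ hH hε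
  simp only [sum_add_distrib, ← mul_sum, ← sum_div] at s1
  have hM : 0 < (2 * H ^ 2 * τ) ^ (p + 1) := by positivity
  have s2 := div_le_div_of_nonneg_right h2 hM.le
  have s3 : n ^ 2 * (H * τ) ^ (2 * p + 1) / (2 * H ^ 2 * τ) ^ (p + 1)
      = 1 / 2 ^ p * (n ^ 2 * τ ^ p) / (2 * H) := by
    have : H ≠ 0 := by positivity
    simp only [mul_pow]
    field_simp
    ring
  have s4 : 1 / 2 ^ p * (n ^ 2 * τ ^ p) / (2 * H) ≤ 1 / 2 ^ p * (n ^ 2 * τ ^ p) :=
    div_le_self (by positivity) (by linarith)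
  rw [h1] at s1
  linarith

end Pool.Agent.MP_ddf486_co.KV
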