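import Pool.Agent.MP_ddf486_co.KV.BasicD

/-! Project KV, block D: one row of the normalised kernel. -/

set_option autoImplicit false

namespace Pool.Agent.MP_ddf486_co.KV

open Finset

namespace DNub1

theorem up {e d x A v : ℝ} (he : 0 < e) (he1 : e ≤ 1 / 10) (hd : 0 ≤ d) (hd1 : d ≤ e ^ 2)
    (hA : 0 ≤ A) (hx : 1 < |x| → |x| ≤ A) (hv : v ≤ Real.exp (-e * x + d)) :
    v ≤ 1 + 5 * e ^ 2 - e * x + 3 * A + if x < -1 then v else 0 := by
  split_ifs with h
  · nlinarith
  by_cases k : 1 < x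
  · have h1 : x ≤ A := (le_abs_self x).trans (hx (k.trans_le (le_abs_self x)))
    have h2 : Real.exp (-e * x + d) ≤ 1 := Real.exp_le_one_iff.2 (by nlinarith)
    nlinarith
  have h1 : -e * x + d ≤ 2 * e := by nlinarith
  have h2 : -(2 * e) ≤ -e * x + d := by nlinarith
  have h3 := (abs_le.1 (Real.abs_exp_sub_one_sub_id_le (x := -e * x + d)
    (abs_le.2 ⟨by linarith, by linarith⟩))).2
  have h4 : (-e * x + d) ^ 2 ≤ (2 * e) ^ 2 := sq_le_sq' h2 h1
  nlinarith

theorem dn {e d x A v l : ℝ} (he : 0 < e) (he1 : e ≤ 1 / 10) (hd : 0 ≤ d) (hA : 0 ≤ A)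
    (hx : 1 < |x| → |x| ≤ A) (h0 : 0 ≤ v) (hv : 1 - e * x - d - l ≤ v) :
    (1 - d - e * x - 2 * A - if |x| ≤ 1 then l else 0) ≤ v := by
  split_ifs with h
  · linarith
  have h1 := hx (not_le.1 h)
  have h2 := neg_abs_le x
  have h3 := not_le.1 h
  nlinarith

end DNub1

theorem nub1S : NUB1 := by
  classical
  intro X _ Y K ν lm u t s D r P hu hu1 ht hr y hy h0 hD
  have u1 : u ≤ 1 := by linarith
  have e0 : 0 < u ^ 400 := by positivity
  have e1 : u ^ 400 ≤ 1 / 10 := (pow_le_of_le_one hu.le u1 (by norm_num)).trans hu1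
  have d0 : 0 ≤ u ^ 1000 := by positivity
  have e2 : (u ^ 400) ^ 2 = u ^ 800 := by rw [← pow_mul]
  have d1 : u ^ 1000 ≤ (u ^ 400) ^ 2 := by
    rw [e2]
    exact pow_le_pow_of_le_one hu.le u1 (by norm_num)
  have d2 : u ^ 1000 ≤ 1 := pow_le_one₀ hu.le u1
  have hA : ∀ z, 0 ≤ |K y z| ^ r / t ^ r := fun z => by positivity
  have ab : ∀ z, |K y z / t| = |K y z| / t := fun z => by rw [abs_div, abs_of_pos ht]
  have hx : ∀ z, 1 < |K y z / t| → |K y z / t| ≤ |K y z| ^ r / t ^ r := fun z h => by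
    rw [← div_pow, ← ab]
    exact le_self_pow₀ h.le (by omega)
  have sK : ∑ z ∈ Y.erase y, K y z / t = -(K y y / t) := by
    have := add_sum_erase Y (K y) hy
    rw [← sum_div, ← neg_div]
    congr 1
    linarith
  have k0 : 0 ≤ K y y / t := div_nonneg (P.gK.diag y) ht.le
  have k1 : K y y / t ≤ D := (div_le_iff₀ ht).2 hD
  have cd : ((Y.erase y).card : ℝ) = Y.card - 1 := by
    rw [card_erase_of_mem hy, Nat.cast_pred (card_pos.2 ⟨y, hy⟩)]
  constructor
  · have : ∑ z ∈ Y.erase y, ν y z ≤ ∑ z ∈ Y.erase y, (1 + 5 * (u ^ 400) ^ 2 -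
        u ^ 400 * (K y z / t) + 3 * (|K y z| ^ r / t ^ r) + if K y z < -t then ν y z else 0) :=
      sum_le_sum fun z hz => by
        have := DNub1.up e0 e1 d0 d1 (hA z) (hx z) (v := ν y z) (by
          convert P.n_hi y hy z (mem_of_mem_erase hz) (ne_of_mem_erase hz).symm using 3
          ring)
        simpa only [div_lt_iff₀ ht, neg_mul, one_mul] using this
    simp only [sum_add_distrib, sum_sub_distrib, ← mul_sum, sum_const, nsmul_eq_mul, sK, cd,
      ← sum_div, e2] at this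
    have h1 : 0 ≤ u ^ 800 := by positivity
    have h2 := mul_le_mul_of_nonneg_left k1 e0.le
    rw [mul_div_assoc]
    nlinarith
  · have : ∑ z ∈ Y.erase y, (1 - u ^ 1000 - u ^ 400 * (K y z / t) - 2 * (|K y z| ^ r / t ^ r) -
        if |K y z| ≤ t then lm y z else 0) ≤ ∑ z ∈ Y.erase y, ν y z :=
      sum_le_sum fun z hz => by
        have := DNub1.dn e0 e1 d0 (hA z) (hx z) (P.n_lo y hy z (mem_of_mem_erase hz))
          (l := lm y z) (by
          convert P.n_ge y hy z (mem_of_mem_erase hz) (ne_of_mem_erase hz).symm using 4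
          ring)
        simpa only [ab, div_le_one ht] using this
    simp only [sum_sub_distrib, ← mul_sum, sum_const, nsmul_eq_mul, sK, cd, ← sum_div] at this
    have h2 := mul_nonneg e0.le k0
    rw [mul_div_assoc]
    nlinarith

end Pool.Agent.MP_ddf486_co.KV
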