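import Pool.Agent.MP_ddf486_co.KV.BasicD

/-! Project KV, block D: the good rows of the normalised kernel. -/

set_option autoImplicit false
set_option linter.unusedSectionVars false

noncomputable section

namespace Pool.Agent.MP_ddf486_co.KV

open Finset Pool.Agent.MP_6c3157_co.PD Pool.Agent.MP_6c3157_co.PQ

namespace DNub2

variable {X : Type} [DecidableEq X]

theorem markov (Y : Finset X) (f : X → ℝ) {c e n : ℝ} (hc : 0 < c) (hf : ∀ y ∈ Y, 0 ≤ f y)
    (h : ∑ y ∈ Y, f y ≤ e * n * c) : ((Y.filter fun y => c < f y).card : ℝ) ≤ e * n := by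
  refine le_of_mul_le_mul_right (le_trans ?_ h) hc
  rw [← nsmul_eq_mul]
  exact (card_nsmul_le_sum _ _ c fun y hy => (mem_filter.1 hy).2.le).trans
    (sum_le_sum_of_subset_of_nonneg (filter_subset _ _) fun y hy _ => hf y hy)

theorem core (Y : Finset X) (a b c o d : X → ℝ) (u s n : ℝ) (hn : n = Y.card) (h0 : 0 < u)
    (h1 : u ≤ 1 / 10 ^ 30) (hs : 1 ≤ u ^ 1000 * (s - 1)) (hsn : s ≤ n)
    (ha0 : ∀ y ∈ Y, 0 ≤ a y) (hb0 : ∀ y ∈ Y, 0 ≤ b y) (hc0 : ∀ y ∈ Y, 0 ≤ c y)
    (hd0 : ∀ y ∈ Y, 0 ≤ d y) (ha : ∑ y ∈ Y, a y ≤ u ^ 1000 * u ^ 1000 * n ^ 2)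
    (hb : ∑ y ∈ Y, b y ≤ u ^ 1000 * n ^ 2) (hc : ∑ y ∈ Y, c y ≤ 2 * u ^ 600 * n ^ 2)
    (hup : ∀ y ∈ Y, o y ≤ n * (1 + 5 * u ^ 800) + u ^ 1000 * n + 3 * a y + b y)
    (hlo : ∀ y ∈ Y, n * (1 - u ^ 1000) - 1 - 2 * a y - c y ≤ o y)
    (hdg : ∀ y ∈ Y, (s - 1) * d y ≤ 4 * o y) :
    ∃ Y₁ ⊆ Y, (∀ y ∈ Y₁, |d y + o y - n| ≤ 5 * u ^ 500 * n ∧ b y ≤ u ^ 600 * n ∧
      (s - 1) * d y ≤ 8 * n) ∧ ∑ y ∈ Y, d y + ∑ y ∈ Y, o y ≤ (1 + 5 * u ^ 500) * n ^ 2 ∧
      n ≤ Y₁.card + u ^ 90 * n := by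
  have e1 : u ^ 1000 = u ^ 400 * u ^ 600 := by rw [← pow_add]
  have e2 : u ^ 600 = u ^ 100 * u ^ 500 := by rw [← pow_add]
  have g1 := pow_gap h0 h1 (a := 800) (b := 1000) (by norm_num)
  have g2 := pow_gap h0 h1 (a := 600) (b := 800) (by norm_num)
  have g3 := pow_gap h0 h1 (a := 500) (b := 600) (by norm_num)
  have g4 := pow_gap h0 h1 (a := 400) (b := 500) (by norm_num)
  have g5 := pow_gap h0 h1 (a := 100) (b := 400) (by norm_num)
  have g6 := pow_gap h0 h1 (a := 90) (b := 100) (by norm_num)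
  have g7 := pow_gap h0 h1 (a := 0) (b := 90) (by norm_num)
  have p1 := pow_pos h0 1000
  rw [pow_zero] at g7
  generalize u ^ 1000 = A at *
  generalize u ^ 800 = B at *
  generalize u ^ 600 = C at *
  generalize u ^ 500 = D at *
  generalize u ^ 400 = E at *
  generalize u ^ 100 = F at *
  generalize u ^ 90 = G at *
  have s0 : 0 < s - 1 := (mul_pos_iff_of_pos_left p1).1 (one_pos.trans_le hs)
  have n0 : 0 < n := by linarith
  have n1 : 1 ≤ A * n := hs.trans (mul_le_mul_of_nonneg_left (by linarith) p1.le)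
  have q1 := mul_le_mul_of_nonneg_right g1 n0.le
  have q2 := mul_le_mul_of_nonneg_right g2 n0.le
  have q3 := mul_le_mul_of_nonneg_right g3 n0.le
  have q4 := mul_le_mul_of_nonneg_right g4 n0.le
  have q5 := mul_le_mul_of_nonneg_right g5 n0.le
  have q6 := mul_le_mul_of_nonneg_right g6 n0.le
  have q7 := mul_le_mul_of_nonneg_right g7 n0.le
  have m1 := markov Y a (c := A * n) (e := A) (n := n) (by linarith) ha0 (ha.trans_eq (by ring))
  have m2 := markov Y b (c := C * n) (e := E) (n := n) (by linarith) hb0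
    (hb.trans_eq (by rw [e1]; ring))
  have m3 := markov Y c (c := 2 * (D * n)) (e := F) (n := n) (by linarith) hc0
    (hc.trans_eq (by rw [e2]; ring))
  refine ⟨Y.filter fun y => a y ≤ A * n ∧ b y ≤ C * n ∧ c y ≤ 2 * (D * n), filter_subset _ _,
    fun y hy => ?_, ?_, ?_⟩
  · obtain ⟨hy, k1, k2, k3⟩ := mem_filter.1 hy
    have k4 := hup y hy
    have k5 := hlo y hy
    have k6 : (s - 1) * d y ≤ 8 * n := (hdg y hy).trans (by linarith)
    have k7 := mul_le_mul_of_nonneg_left k6 p1.le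
    have k8 := mul_le_mul_of_nonneg_right hs (hd0 y hy)
    have k9 := hd0 y hy
    exact ⟨abs_le.2 ⟨by linarith, by linarith⟩, k2, k6⟩
  · have k1 := sum_le_sum hup
    simp only [sum_add_distrib, sum_const, nsmul_eq_mul, ← hn, ← mul_sum] at k1
    have k2 := sum_le_sum hdg
    simp only [← mul_sum] at k2
    have k3 := mul_le_mul_of_nonneg_left k2 p1.le
    have k4 := mul_le_mul_of_nonneg_right hs (sum_nonneg hd0)
    have n2 : 0 < n ^ 2 := by positivity
    have r1 := mul_le_mul_of_nonneg_right g1 n2.le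
    have r2 := mul_le_mul_of_nonneg_right g2 n2.le
    have r3 := mul_le_mul_of_nonneg_right g3 n2.le
    have r4 := mul_le_mul_of_nonneg_right (show D ≤ 1 / 10 by linarith) n2.le
    have r5 := mul_le_mul_of_nonneg_right (show A ≤ 1 by linarith) (mul_pos p1 n2).le
    have r6 := mul_pos p1 n2
    have k5 : ∑ y ∈ Y, o y ≤ (1 + D) * n ^ 2 := by linarith
    have k6 := mul_le_mul_of_nonneg_left (show ∑ y ∈ Y, o y ≤ 2 * n ^ 2 by linarith) p1.le
    linarith
  · have k1 : Y ⊆ (Y.filter fun y => a y ≤ A * n ∧ b y ≤ C * n ∧ c y ≤ 2 * (D * n)) ∪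
        ((Y.filter fun y => A * n < a y) ∪ ((Y.filter fun y => C * n < b y) ∪
          (Y.filter fun y => 2 * (D * n) < c y))) := fun y hy => by
      simp only [mem_union, mem_filter, hy, true_and]
      by_contra hc
      simp only [not_or, not_lt] at hc
      exact hc.1 hc.2
    have k2 := (card_le_card k1).trans ((card_union_le _ _).trans (Nat.add_le_add_left
      ((card_union_le _ _).trans (Nat.add_le_add_left (card_union_le _ _) _)) _))
    have k3 := (Nat.cast_le (α := ℝ)).2 k2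
    push_cast at k3
    linarith

end DNub2

open Classical in
theorem nub2S (h : NUB1) : NUB2 := by
  intro X _ Y K ν lm u t s D r hP h0 h1 ht hr hs hsn hD hK hd hn hb hc
  have u1 : u ≤ 1 := h1.trans (by norm_num)
  have r1 : 1 ≤ r := by
    by_contra hc
    obtain rfl : r = 0 := by omega
    have g := pow_gap h0 h1 (a := 0) (b := 1000) (by norm_num)
    rw [pow_zero] at g hr
    linarith
  have tr : 0 < t ^ r := pow_pos ht r
  have p1 := pow_pos h0 1000
  have ha : ∑ y ∈ Y, (∑ z ∈ Y.erase y, |K y z| ^ r) / t ^ r ≤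
      u ^ 1000 * u ^ 1000 * (Y.card : ℝ) ^ 2 := by
    rw [← sum_div, div_le_iff₀ tr]
    refine hn.trans ?_
    have e1 : (2 : ℝ) ^ r * 2 ^ r ≤ 8 ^ r := by
      rw [← mul_pow]; exact pow_le_pow_left₀ (by norm_num) (by norm_num) r
    have e2 : 1 ≤ u ^ 1000 * u ^ 1000 * 8 ^ r :=
      (one_le_mul_of_one_le_of_one_le hr hr).trans ((mul_mul_mul_comm _ _ _ _).le.trans
        (mul_le_mul_of_nonneg_left e1 (mul_pos p1 p1).le))
    have e3 : (t / 8) ^ r ≤ u ^ 1000 * u ^ 1000 * t ^ r := by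
      rw [div_pow, div_le_iff₀ (by positivity)]
      have := mul_le_mul_of_nonneg_right e2 tr.le
      linarith
    have := mul_le_mul_of_nonneg_left e3 (sq_nonneg (Y.card : ℝ))
    linarith
  have hD' : u ^ 400 * D ≤ u ^ 1000 * Y.card :=
    (mul_le_mul_of_nonneg_left hD (pow_pos h0 _).le).trans
      (mul_le_of_le_one_left (mul_nonneg p1.le (Nat.cast_nonneg _)) (pow_le_one₀ h0.le u1))
  have H := fun y hy => h X Y K ν lm u t s D r hP h0 (h1.trans (by norm_num)) ht r1 y hy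
    (hK y hy) (hd y hy)
  obtain ⟨Y₁, k1, k2, k3, k4⟩ := DNub2.core Y (fun y => (∑ z ∈ Y.erase y, |K y z| ^ r) / t ^ r)
    (fun y => ∑ z ∈ Y.erase y, if K y z < -t then ν y z else 0)
    (fun y => ∑ z ∈ Y.erase y, if |K y z| ≤ t then lm y z else 0)
    (fun y => ∑ z ∈ Y.erase y, ν y z) (fun y => ν y y) u s Y.card rfl h0 h1 hs hsn
    (fun y _ => by positivity)
    (fun y hy => sum_nonneg fun z hz => by
      split_ifs; exacts [hP.n_lo y hy z (mem_of_mem_erase hz), le_rfl])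
    (fun y hy => sum_nonneg fun z hz => by
      split_ifs; exacts [hP.l_lo y hy z (mem_of_mem_erase hz), le_rfl])
    (fun y hy => hP.n_lo y hy y hy) ha hb hc
    (fun y hy => by have := (H y hy).1; rw [mul_div_assoc] at this; linarith)
    (fun y hy => by have := (H y hy).2; rw [mul_div_assoc] at this; linarith) hP.n_dg
  refine ⟨Y₁, ⟨k1, fun y hy => ?_, fun y hy => (k2 y hy).2.1, fun y hy => (k2 y hy).2.2, ?_⟩, k4⟩
  · rw [← add_sum_erase _ _ (k1 hy)]; exact (k2 y hy).1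
  · rw [full_eq]; exact k3

end Pool.Agent.MP_ddf486_co.KV
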