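import Pool.Agent.MP_ddf486_co.KV.BasicD

/-! Project KV, block D: the normalised kernel. -/

set_option autoImplicit false
set_option linter.unusedSectionVars false

noncomputable section

namespace Pool.Agent.MP_ddf486_co.KV

open Finset Pool.Agent.MP_6c3157_co.PD Pool.Agent.MP_6c3157_co.PQ

namespace DNuk

variable {N : Nb} {X ι : Type} [DecidableEq X] [Fintype ι] {F : Fam X ι} {Kt : ℝ} {Y : Finset X}
  {t Wb : ℝ}

/-- the process with the cells that have `φ` -/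
def Ef (N : Nb) (F : Fam X ι) (Y : Finset X) (t Wb : ℝ) (φ : ι → Prop) (f : Finset X → ℝ) : ℝ :=
  (op (1 - Wb / N.Wt t) (F.v (N.Wt t) φ) F.S)^[N.j] f Y

/-- the weight of one step that keeps a pair -/
def oo (N : Nb) (F : Fam X ι) (t Wb : ℝ) (φ : ι → Prop) (y z : X) : ℝ :=
  1 + (F.OB y z - Wb - F.OC φ y z) / N.Wt t

/-- the normalising factor -/
def cf (N : Nb) (F : Fam X ι) (Kt : ℝ) (Y : Finset X) (t Wb : ℝ) (y z : X) : ℝ :=
  cc N F Kt Y t Wb y ^ N.j * cc N F Kt Y t Wb z ^ N.j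

theorem nu_eq (φ : ι → Prop) (y z : X) :
    nu N F Kt Y t Wb φ y z = Ef N F Y t Wb φ (hi N.s y z) / cf N F Kt Y t Wb y z := rfl

theorem lam_eq (y z : X) :
    lam N F Kt Y t Wb y z = Ef N F Y t Wb (fun _ => True) (lo N.s y z) / cf N F Kt Y t Wb y z := rfl

theorem oc_true (y z : X) : F.OC (fun _ => True) y z = 0 := by simp [Fam.OC, Fam.W]

theorem oo_eq (φ : ι → Prop) (y z : X) : oo N F t Wb φ y z =
    1 - Wb / N.Wt t + (F.W fun i => F.b i ∧ φ i ∧ y ∈ F.S i ∧ z ∈ F.S i) / N.Wt t := by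
  have e : F.OB y z = (F.W fun i => F.b i ∧ φ i ∧ y ∈ F.S i ∧ z ∈ F.S i) + F.OC φ y z := by
    rw [Fam.OB, F.W_split _ φ, Fam.OC]
    congr 1 <;> exact F.W_congr fun i => by tauto
  rw [oo, e]
  ring

theorem pair (φ : ι → Prop) {y z : X} (hy : y ∈ Y) (hz : z ∈ Y) :
    Ef N F Y t Wb φ (hi N.s y z) + Ef N F Y t Wb φ (lo N.s y z) = oo N F t Wb φ y z ^ N.j := by
  rw [Ef, Ef, ← it_add]
  simp only [hi_add_lo]
  rw [it_pair, F.sum_v, oo_eq, if_pos ⟨hy, hz⟩, mul_one]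

variable (hN : N.Good) (hD : Dc N F Kt Y t Wb)
include hN hD

theorem w0 : 0 ≤ 1 - Wb / N.Wt t :=
  sub_nonneg.2 ((div_le_one (hN.d_Wt0 hD.t_pos)).2 hD.wb)

theorem v0 (φ : ι → Prop) (i : ι) : 0 ≤ F.v (N.Wt t) φ i :=
  F.v_nonneg hD.w_lo (hN.d_Wt0 hD.t_pos).le φ i

theorem ef0 (φ : ι → Prop) {f : Finset X → ℝ} (hf : ∀ U, 0 ≤ f U) : 0 ≤ Ef N F Y t Wb φ f :=
  it_nonneg (w0 hN hD) (v0 hN hD φ) _ fun U _ => hf U

theorem ef_le (φ : ι → Prop) {f : Finset X → ℝ} (hf : ∀ U, 0 ≤ f U) :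
    Ef N F Y t Wb φ f ≤ Ef N F Y t Wb (fun _ => True) f :=
  it_le_wt (w0 hN hD) (v0 hN hD φ) le_rfl
    (fun i => by rw [F.v_split _ φ]; linarith [v0 hN hD (fun i => ¬ φ i) i]) _ fun U _ => hf U

theorem oo0 (φ : ι → Prop) (y z : X) : 0 ≤ oo N F t Wb φ y z := by
  rw [oo_eq]
  exact add_nonneg (w0 hN hD) (div_nonneg (F.W_nonneg hD.w_lo _) (hN.d_Wt0 hD.t_pos).le)

theorem gram (φ : ι → Prop) : Gram (nu N F Kt Y t Wb φ) := by
  have h := (Gram.one fun y => (cc N F Kt Y t Wb y ^ N.j)⁻¹).mul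
    (Gram.it (S := F.S) (w0 hN hD) (v0 hN hD φ) (gram_hi N.s) N.j Y)
  have e : nu N F Kt Y t Wb φ = fun y z =>
      (cc N F Kt Y t Wb y ^ N.j)⁻¹ * (cc N F Kt Y t Wb z ^ N.j)⁻¹ *
        (op (1 - Wb / N.Wt t) (F.v (N.Wt t) φ) F.S)^[N.j] (hi N.s y z) Y := by
    funext y z
    rw [nu, div_eq_mul_inv, mul_inv, mul_comm]
  rw [e]
  exact h

theorem core (h : RHO) {y z : X} (hy : y ∈ Y) (hz : z ∈ Y) :
    (1 / 2 ≤ cf N F Kt Y t Wb y z ∧ cf N F Kt Y t Wb y z ≤ 2) ∧ (y ≠ z →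
      (∀ φ, oo N F t Wb φ y z ^ N.j ≤ cf N F Kt Y t Wb y z * Real.exp
        (-(N.u ^ 400 / t) * F.K0 Y y z - N.u ^ 400 / t * F.OC φ y z / 2 + N.u ^ 1000)) ∧
      cf N F Kt Y t Wb y z * (1 - N.u ^ 400 / t * F.K0 Y y z - N.u ^ 1000) ≤
        oo N F t Wb (fun _ => True) y z ^ N.j) := by
  have he : N.u ^ 400 ≤ 1 / 1000 := by
    have := hN.d_gap (a := 0) (b := 400) (by norm_num)
    have := hN.d_pw0 400
    norm_num at *
    linarith
  obtain ⟨r1, r2⟩ := h N.j (N.u ^ 400) t (N.Wt t) _ _ (hN.d_pw0 _) he hD.t_pos hN.d_j (hN.d_Wt t)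
    (hD.row y hy) (hD.row z hz)
  refine ⟨r1, fun hyz => ?_⟩
  have e : ∀ φ, 1 + (F.bb Kt Y y - Wb / 2 + (F.bb Kt Y z - Wb / 2) - F.K0 Y y z +
      (F.OB y z - (F.bb Kt Y y + F.bb Kt Y z - F.K0 Y y z)) - F.OC φ y z) / N.Wt t =
      oo N F t Wb φ y z := fun φ => by rw [oo]; ring
  have k := fun φ : ι → Prop => r2 (F.K0 Y y z) _ (F.OC φ y z) (N.L ^ 6) (N.u ^ 1000)
    (hD.off y hy z hz hyz) (one_le_pow₀ hN.d_L1) (hD.idn y hy z hz hyz) (F.W_nonneg hD.w_lo _)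
    hN.d_jL (by rw [e]; exact oo0 hN hD φ y z)
  simp only [e] at k
  exact ⟨fun φ => (k φ).1, (k _).2 (oc_true y z)⟩

theorem nu_hi (h : RHO) (φ : ι → Prop) {y z : X} (hy : y ∈ Y) (hz : z ∈ Y) (hyz : y ≠ z) :
    nu N F Kt Y t Wb φ y z ≤ Real.exp
      (-(N.u ^ 400 / t) * F.K0 Y y z - N.u ^ 400 / t * F.OC φ y z / 2 + N.u ^ 1000) := by
  obtain ⟨⟨c1, -⟩, c3⟩ := core hN hD h hy hz
  have a1 := pair (N := N) (F := F) (t := t) (Wb := Wb) φ hy hz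
  have a2 := ef0 hN hD φ (lo_nonneg N.s y z)
  rw [nu_eq, div_le_iff₀ (by linarith), mul_comm]
  linarith [(c3 hyz).1 φ]

theorem gap (h : RHO) (φ : ι → Prop) {y z : X} (hy : y ∈ Y) (hz : z ∈ Y) (hyz : y ≠ z)
    (hK : -t ≤ F.K0 Y y z) : oo N F t Wb (fun _ => True) y z ^ N.j - oo N F t Wb φ y z ^ N.j ≤
      2 * (N.u ^ 400 / t * F.OC φ y z) * cf N F Kt Y t Wb y z := by
  obtain ⟨⟨c1, -⟩, c3⟩ := core hN hD h hy hz
  have ht := hD.t_pos
  have hW := hN.d_Wt0 ht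
  have hd : 0 ≤ F.OC φ y z / N.Wt t := div_nonneg (F.W_nonneg hD.w_lo _) hW.le
  have e1 : oo N F t Wb (fun _ => True) y z - oo N F t Wb φ y z = F.OC φ y z / N.Wt t := by
    rw [oo, oo, oc_true]; ring
  have p0 := oo0 hN hD φ y z
  have p1 := oo0 hN hD (fun _ => True) y z
  have a1 := (c3 hyz).1 fun _ => True
  rw [oc_true] at a1
  have a2 : Real.exp (-(N.u ^ 400 / t) * F.K0 Y y z - N.u ^ 400 / t * 0 / 2 + N.u ^ 1000) ≤ 2 := by
    refine (Real.exp_le_exp.2 ?_).trans (Real.exp_log two_pos).le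
    have b1 : -(N.u ^ 400 / t) * F.K0 Y y z ≤ N.u ^ 400 := by
      have b2 := mul_le_mul_of_nonneg_left hK (div_pos (hN.d_pw0 400) ht).le
      rw [mul_neg, div_mul_cancel₀ _ ht.ne'] at b2
      linarith
    have b3 := hN.d_gap (a := 0) (b := 400) (by norm_num)
    have b4 := hN.d_gap (a := 0) (b := 1000) (by norm_num)
    have b5 := Real.log_two_gt_d9
    rw [pow_zero] at b3 b4
    linarith
  have a3 : oo N F t Wb (fun _ => True) y z ^ (N.j - 1) ≤ 2 * cf N F Kt Y t Wb y z := by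
    rcases le_total (oo N F t Wb (fun _ => True) y z) 1 with b | b
    · linarith [pow_le_one₀ (n := N.j - 1) p1 b]
    · have := pow_le_pow_right₀ b (Nat.sub_le N.j 1)
      nlinarith
  have a4 := abs_pow_sub_pow_le (oo N F t Wb (fun _ => True) y z) (oo N F t Wb φ y z) N.j
  rw [e1, abs_of_nonneg hd, abs_of_nonneg p0, abs_of_nonneg p1, max_eq_left (by linarith)] at a4
  have a5 : F.OC φ y z / N.Wt t * N.j = N.u ^ 400 / t * F.OC φ y z := by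
    have := hN.d_Wt t
    field_simp
    linear_combination F.OC φ y z * this
  have a6 := mul_le_mul_of_nonneg_left a3 (mul_nonneg hd (Nat.cast_nonneg (α := ℝ) N.j))
  rw [a5] at a4 a6
  linarith [le_abs_self (oo N F t Wb (fun _ => True) y z ^ N.j - oo N F t Wb φ y z ^ N.j)]

omit hN hD in
theorem div_two {a c : ℝ} (ha : 0 ≤ a) (h1 : 1 / 2 ≤ c) (h2 : c ≤ 2) :
    0 ≤ a / c ∧ a / c ≤ 2 * a ∧ a ≤ 2 * (a / c) := by
  have hc : 0 < c := by linarith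
  refine ⟨div_nonneg ha hc.le, ?_, ?_⟩
  · rw [div_le_iff₀ hc]; nlinarith
  · rw [← mul_div_assoc, le_div_iff₀ hc]; nlinarith

end DNuk

open DNuk in
theorem nuk1S (h : RHO) : NUK1 := by
  intro N X ι _ _ F Kt Y t Wb hN hD
  have a : ∀ y ∈ Y, ∀ z ∈ Y, ∀ f : Finset X → ℝ, (∀ U, 0 ≤ f U) → _ := fun y hy z hz f hf =>
    div_two (ef0 hN hD (fun _ => True) hf) (core hN hD h hy hz).1.1 (core hN hD h hy hz).1.2
  refine ⟨⟨gram_K0 F hD.w_lo Y, gram hN hD _, fun y hy z hz => (a y hy z hz _ (hi_nonneg _ _ _)).1,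
    fun y hy z hz => (a y hy z hz _ (lo_nonneg _ _ _)).1, fun y hy z hz hyz => ?_,
    fun y hy z hz hyz => ?_, fun y hy => ?_⟩, fun y hy z hz =>
    ⟨(a y hy z hz _ (hi_nonneg _ _ _)).2.1, (a y hy z hz _ (lo_nonneg _ _ _)).2.1⟩⟩
  · have := nu_hi hN hD h (fun _ => True) hy hz hyz
    rwa [oc_true, mul_zero, zero_div, sub_zero] at this
  · obtain ⟨⟨c1, -⟩, c3⟩ := core hN hD h hy hz
    have a1 := pair (N := N) (F := F) (t := t) (Wb := Wb) (fun _ => True) hy hz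
    rw [nu_eq, lam_eq, sub_le_iff_le_add, ← add_div, le_div_iff₀ (by linarith), a1, mul_comm]
    exact (c3 hyz).2
  · have s1 : 0 ≤ N.s - 1 := by linarith [hN.d_s]
    have a1 := mul_le_mul_of_nonneg_left (a y hy y hy _ (hi_nonneg N.s y y)).2.1 s1
    have a2 : (N.s - 1) * Ef N F Y t Wb (fun _ => True) (hi N.s y y) ≤
        ∑ z ∈ Y.erase y, Ef N F Y t Wb (fun _ => True) (hi N.s y z) :=
      it_diag (w0 hN hD) (v0 hN hD _) _ _ _ _
    have a3 : ∑ z ∈ Y.erase y, Ef N F Y t Wb (fun _ => True) (hi N.s y z) ≤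
        2 * ∑ z ∈ Y.erase y, nu N F Kt Y t Wb (fun _ => True) y z := by
      rw [mul_sum]
      exact sum_le_sum fun z hz => (a y hy z (mem_of_mem_erase hz) _ (hi_nonneg _ _ _)).2.2
    rw [nu_eq]
    linarith

open DNuk in
theorem nuk2S (h : RHO) : NUK2 := by
  intro N X ι _ _ F Kt Y t Wb φ hN hD
  refine ⟨gram hN hD φ, fun y hy z hz => ?_, fun y hy z hz hyz =>
    ⟨nu_hi hN hD h φ hy hz hyz, fun hK => ?_⟩⟩
  · have c : 0 ≤ cf N F Kt Y t Wb y z := by linarith [(core hN hD h hy hz).1.1]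
    exact ⟨div_nonneg (ef0 hN hD φ (hi_nonneg _ _ _)) c,
      div_le_div_of_nonneg_right (ef_le hN hD φ (hi_nonneg _ _ _)) c⟩
  · have c : 0 < cf N F Kt Y t Wb y z := by linarith [(core hN hD h hy hz).1.1]
    have a1 := pair (N := N) (F := F) (t := t) (Wb := Wb) (fun _ => True) hy hz
    have a2 := pair (N := N) (F := F) (t := t) (Wb := Wb) φ hy hz
    have a3 := ef_le hN hD φ (lo_nonneg N.s y z)
    have a4 := gap hN hD h φ hy hz hyz hK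
    rw [nu_eq, nu_eq, le_div_iff₀ c, sub_mul, div_mul_cancel₀ _ c.ne']
    linarith

end Pool.Agent.MP_ddf486_co.KV
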