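import Pool.Agent.MP_ddf486_co.KV.BasicD
import Pool.Agent.MP_ddf486_co.KV.Idn

/-! Project KV, block D: identities of the centred kernel, centring on a trimmed set. -/

set_option autoImplicit false

namespace Pool.Agent.MP_ddf486_co.KV

open Finset

namespace DRec

variable {X ι : Type} [DecidableEq X] [Fintype ι] (F : Fam X ι)

theorem diag {Y : Finset X} {D : ℝ} (hw : ∀ i, 0 ≤ F.w i)
    (h : ∀ y ∈ Y, ∀ z ∈ Y, F.W (fun i => ¬ F.b i ∧ y ∈ F.S i ∧ z ∉ F.S i) ≤ D) {y : X}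
    (hy : y ∈ Y) : F.K0 Y y y ≤ 2 * D := by
  classical
  have hne : Y.Nonempty := ⟨y, hy⟩
  have hc : (0 : ℝ) < Y.card := by exact_mod_cast hne.card_pos
  have h1 : (Y.card : ℝ) * F.K0 Y y y ≤ ∑ z ∈ Y,
      (F.W (fun i => ¬ F.b i ∧ y ∈ F.S i ∧ z ∉ F.S i) +
        F.W fun i => ¬ F.b i ∧ z ∈ F.S i ∧ y ∉ F.S i) := by
    unfold Fam.K0 Fam.W
    simp only [← sum_add_distrib]
    rw [mul_sum, sum_comm]
    refine sum_le_sum fun i _ => ?_
    have m0 := F.mu_nonneg Y i
    have m1 := F.mu_le_one Y i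
    have w0 := hw i
    have hs := F.sum_ind Y hne i
    by_cases hb : F.b i
    · simp [hb]
    · by_cases hi : y ∈ F.S i
      · rw [sum_congr rfl (g := fun z => F.w i * (1 - F.ind z i)) fun z _ => by
          by_cases hz : z ∈ F.S i <;> simp [hb, hi, hz, Fam.ind]]
        simp only [← mul_sum, sum_sub_distrib, hs, sum_const, nsmul_eq_mul]
        simp only [hb, if_false, Fam.ind, hi, if_true]
        have := mul_nonneg (mul_nonneg hc.le w0) (mul_nonneg m0 (sub_nonneg.2 m1))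
        nlinarith
      · rw [sum_congr rfl (g := fun z => F.w i * F.ind z i) fun z _ => by
          by_cases hz : z ∈ F.S i <;> simp [hb, hi, hz, Fam.ind]]
        simp only [← mul_sum, hs]
        simp only [hb, if_false, Fam.ind, hi]
        have := mul_nonneg (mul_nonneg hc.le w0) (mul_nonneg m0 (sub_nonneg.2 m1))
        nlinarith
  have h2 := sum_le_card_nsmul Y _ (2 * D) fun z hz =>
    (add_le_add (h y hy z hz) (h z hz y hy)).trans (le_of_eq (by ring))
  rw [nsmul_eq_mul] at h2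
  exact le_of_mul_le_mul_left (h1.trans h2) hc

open Classical in
theorem avg (Y : Finset X) {U : Finset X} (hU : U.Nonempty) (y : X) :
    (∑ a ∈ U, F.K0 Y y a) / U.card = ∑ i, if F.b i then 0 else
      F.w i * ((F.ind y i - F.mu Y i) * (F.mu U i - F.mu Y i)) := by
  have hc : (U.card : ℝ) ≠ 0 := by exact_mod_cast hU.card_pos.ne'
  unfold Fam.K0
  rw [div_eq_iff hc, sum_comm, sum_mul]
  refine sum_congr rfl fun i _ => ?_
  by_cases h : F.b i
  · simp [h]
  · simp only [h, if_false, ← mul_sum, sum_sub_distrib, F.sum_ind U hU, sum_const, nsmul_eq_mul]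
    ring

theorem diag0 (hw : ∀ i, 0 ≤ F.w i) (Y : Finset X) (y : X) : 0 ≤ F.K0 Y y y := by
  unfold Fam.K0
  refine sum_nonneg fun i _ => ?_
  split_ifs
  exacts [le_rfl, mul_nonneg (hw i) (mul_self_nonneg _)]

theorem disc0 (hw : ∀ i, 0 ≤ F.w i) (U Y : Finset X) : 0 ≤ F.disc U Y := by
  unfold Fam.disc
  refine sum_nonneg fun i _ => ?_
  split_ifs
  exacts [le_rfl, mul_nonneg (hw i) (sq_nonneg _)]

theorem num {r : ℕ} (hr : 1 ≤ r) : (2 : ℝ) ^ (r - 1) * (4 + 54 ^ r) ≤ 1020 ^ r := by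
  obtain ⟨k, rfl⟩ : ∃ k, r = k + 1 := ⟨r - 1, by omega⟩
  have h1 : (1 : ℝ) ≤ 54 ^ k := one_le_pow₀ (by norm_num)
  have h2 : (2 : ℝ) ^ k * 54 ^ k ≤ 1020 ^ k := by
    rw [← mul_pow]
    exact pow_le_pow_left₀ (by norm_num) (by norm_num) k
  have h3 : (0 : ℝ) < 2 ^ k := by positivity
  rw [Nat.add_sub_cancel, pow_succ, pow_succ]
  nlinarith

end DRec

open DRec in
theorem idnS : IDN := by
  intro X ι _ _ F Kt Y
  refine ⟨fun y z => by rw [F.OA_eq Kt Y]; ring, fun h y => F.K0_row h y,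
    fun D hw h y hy => diag F hw h hy, fun U hU => ⟨by rw [F.disc_eq Y hU, mul_comm],
      fun y z => ?_, fun y => ?_⟩⟩
  · rw [avg F Y hU, avg F Y hU]
    unfold Fam.K0 Fam.disc
    rw [← sum_sub_distrib, ← sum_sub_distrib, ← sum_add_distrib]
    refine sum_congr rfl fun i _ => ?_
    split_ifs <;> ring
  · rw [avg F Y hU]
    unfold Fam.bb Fam.disc
    rw [sum_div, sub_sub, ← sum_add_distrib, sub_add, ← sum_sub_distrib]
    refine congrArg _ (sum_congr rfl fun i _ => ?_)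
    split_ifs <;> ring

open DRec in
theorem recS (h1 : IDN) (h2 : LR) : REC := by
  intro X ι _ _ F Kt Y Y₁ Y₃ r c hw hY s1 s3 h34 hr hc hd hn
  classical
  have n0 : (0 : ℝ) < Y.card := by exact_mod_cast hY.card_pos
  obtain ⟨U, hU⟩ : ∃ U, U = Y₃.filter fun y =>
    ∑ z ∈ Y₁.erase y, |F.K0 Y y z| ^ r ≤ Y.card * (4 * c) ^ r := ⟨_, rfl⟩
  have su : U ⊆ Y₃ := hU ▸ filter_subset _ _
  have cr : 0 < c ^ r := pow_pos hc r
  have b1 : 4 ^ r * ((Y₃.card : ℝ) - U.card) ≤ Y.card := by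
    have e : ((Y₃ \ U).card : ℝ) = Y₃.card - U.card := by
      rw [card_sdiff_of_subset su, Nat.cast_sub (card_le_card su)]
    have g := card_nsmul_le_sum (Y₃ \ U) (fun y => ∑ z ∈ Y₁.erase y, |F.K0 Y y z| ^ r)
      (Y.card * (4 * c) ^ r) fun y hy => le_of_not_ge fun k =>
        (mem_sdiff.1 hy).2 (hU ▸ mem_filter.2 ⟨(mem_sdiff.1 hy).1, k⟩)
    have g1 := (g.trans (sum_le_sum_of_subset_of_nonneg (sdiff_subset.trans s3)
      fun y _ _ => sum_nonneg fun z _ => by positivity)).trans hn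
    rw [nsmul_eq_mul, e, mul_pow] at g1
    refine le_of_mul_le_mul_right ?_ (mul_pos n0 cr)
    linarith
  have h34' : 3 * (Y.card : ℝ) ≤ 4 * Y₃.card := by exact_mod_cast h34
  have f4 : (4 : ℝ) ≤ 4 ^ r := le_self_pow₀ (by norm_num) (by omega)
  have f2 : (2 : ℝ) ≤ 2 ^ r := le_self_pow₀ (by norm_num) (by omega)
  have d0 : (0 : ℝ) ≤ Y₃.card - U.card := sub_nonneg.2 (Nat.cast_le.2 (card_le_card su))
  have m2 : (Y.card : ℝ) ≤ 2 * U.card := by nlinarith
  have m0 : (0 : ℝ) < U.card := by linarith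
  have hne : U.Nonempty := card_pos.1 (Nat.cast_pos.1 m0)
  obtain ⟨i1, i2, i3⟩ := (h1 X ι F Kt Y).2.2.2 U hne
  have al : ∀ y ∈ U, |∑ a ∈ U, F.K0 Y y a| ≤ 18 * c * U.card := fun y hy => by
    have g0 := hy
    rw [hU, mem_filter] at g0
    have g := (h2 X (U.erase y) (F.K0 Y y) r (4 * c) Y.card hr (by linarith)
      ((sum_le_sum_of_subset_of_nonneg (erase_subset_erase y (su.trans s3))
        fun z _ _ => by positivity).trans g0.2)).1
    have g1 : ((U.erase y).card : ℝ) ≤ U.card := Nat.cast_le.2 card_erase_le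
    have g2 : (Y.card : ℝ) / 2 ^ r ≤ U.card := by
      rw [div_le_iff₀ (by linarith)]
      nlinarith
    have g3 := hd y (s1 (s3 (su hy)))
    have g4 := abs_of_nonneg (diag0 F hw Y y)
    rw [← add_sum_erase _ _ hy]
    refine ((abs_add_le _ _).trans (add_le_add le_rfl (abs_sum_le_sum_abs _ _))).trans ?_
    nlinarith
  have al' : ∀ y ∈ U, |(∑ a ∈ U, F.K0 Y y a) / U.card| ≤ 18 * c := fun y hy => by
    rw [abs_div, abs_of_pos m0, div_le_iff₀ m0]
    exact al y hy
  have e0 := disc0 F hw U Y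
  have e1 : F.disc U Y ≤ 18 * c := by
    have g := sum_le_card_nsmul U _ _ fun y hy => (le_abs_self _).trans (al y hy)
    rw [← i1, nsmul_eq_mul] at g
    refine le_of_mul_le_mul_right ?_ (pow_pos m0 2)
    linarith
  refine ⟨U, su, b1, ?_, fun y hy => ?_⟩
  · have g : ∀ y ∈ U, ∀ z ∈ U.erase y, |F.K0 U y z| ^ r ≤
        2 ^ (r - 1) * (|F.K0 Y y z| ^ r + (54 * c) ^ r) := fun y hy z hz => by
      refine le_trans (pow_le_pow_left₀ (abs_nonneg _) ?_ r)
        (add_pow_le (abs_nonneg _) (by linarith) r)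
      have a1 := abs_le.1 (al' y hy)
      have a2 := abs_le.1 (al' z (mem_of_mem_erase hz))
      have a3 := le_abs_self (F.K0 Y y z)
      have a4 := neg_abs_le (F.K0 Y y z)
      rw [i2, abs_le]
      constructor <;> linarith [a1.1, a1.2, a2.1, a2.2]
    have g1 := (off_mono (su.trans s3) (f := fun y z => |F.K0 Y y z| ^ r)
      fun y _ z _ _ => by positivity).trans hn
    have g2 := off_const U (f := fun _ _ => (54 * c) ^ r) (c := (54 * c) ^ r) (by positivity)
      fun _ _ _ _ _ => le_rfl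
    have g3 : (Y.card : ℝ) ^ 2 * c ^ r ≤ (2 * U.card) ^ 2 * c ^ r :=
      mul_le_mul_of_nonneg_right (pow_le_pow_left₀ n0.le m2 2) cr.le
    have g4 := mul_le_mul_of_nonneg_left (num hr) (mul_pos (pow_pos m0 2) cr).le
    refine (sum_le_sum fun y hy => sum_le_sum (g y hy)).trans ?_
    simp only [← mul_sum, sum_add_distrib]
    refine (mul_le_mul_of_nonneg_left (add_le_add (g1.trans g3) g2) (by positivity)).trans ?_
    rw [mul_pow 54, mul_pow 1020]
    linarith
  · have a1 := abs_le.1 (al' y hy)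
    rw [i3, abs_le]
    constructor <;> linarith [a1.1, a1.2]

end Pool.Agent.MP_ddf486_co.KV
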