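import Pool.Agent.MP_ddf486_co.KV.BasicD

/-! Project KV, block D: powers of one step. -/

set_option autoImplicit false

namespace Pool.Agent.MP_ddf486_co.KV

namespace DRho

theorem pow_le_exp {x : ℝ} (h : 0 ≤ 1 + x) (j : ℕ) : (1 + x) ^ j ≤ Real.exp (j * x) := by
  rw [Real.exp_nat_mul]
  exact pow_le_pow_left₀ h (by linarith [Real.add_one_le_exp x]) j

theorem small {j : ℕ} {α c : ℝ} (hj : (1 : ℝ) ≤ j) (h : j * |α| ≤ c) : |α| ≤ c :=
  (le_mul_of_one_le_left (abs_nonneg _) hj).trans h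

theorem one {j : ℕ} {α : ℝ} (hj : (1 : ℝ) ≤ j) (h : j * |α| ≤ 1 / 50) :
    49 / 50 ≤ (1 + α) ^ j ∧ (1 + α) ^ j ≤ 50 / 49 := by
  obtain ⟨h1, h2⟩ := abs_le.1 (small hj h)
  have h3 : |j * α| ≤ 1 / 50 := by rwa [abs_mul, Nat.abs_cast]
  obtain ⟨h4, h5⟩ := abs_le.1 h3
  refine ⟨le_trans (by linarith) (one_add_mul_le_pow (by linarith) j),
    (pow_le_exp (by linarith) j).trans ((Real.exp_le_exp.2 h5).trans
      ((Real.exp_bound_div_one_sub_of_interval (by norm_num) (by norm_num)).trans (by norm_num)))⟩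

theorem err {J e α β ξ η B th : ℝ} (he : 0 < e) (he1 : e ≤ 1 / 1000) (hj : 1 ≤ J)
    (ha : J * |α| ≤ 20 * e) (hb : J * |β| ≤ 20 * e) (hb' : |β| ≤ 1 / 50) (hx : J * |ξ| ≤ B * e)
    (hB : 1 ≤ B) (hη : J * |η| ≤ th * e) (hth : B ≤ th * J) :
    |(α + β + α * β) * (J * ξ) - J * (α * β) + J * η| ≤ th / 2 := by
  have hJ : 0 < J := by linarith
  have t0 : 0 < th := (mul_pos_iff_of_pos_right hJ).1 (by linarith)
  have a0 := abs_nonneg α
  have b0 := abs_nonneg β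
  have h1 : J * |α + β + α * β| ≤ 41 * e := by
    have := abs_add_three α β (α * β)
    rw [abs_mul] at this
    have h := mul_le_mul ha hb' b0 (by positivity)
    nlinarith
  have e2 : e * e ≤ 1 / 1000 * (1 / 1000) := mul_le_mul he1 he1 he.le (by norm_num)
  have h2 : |α + β + α * β| * (J * |ξ|) ≤ 41 * (e * e) * th := by
    refine le_of_mul_le_mul_left ?_ hJ
    have h := mul_le_mul h1 hx (by positivity) (by positivity)
    have := mul_le_mul_of_nonneg_left hth (show 0 ≤ 41 * (e * e) by positivity)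
    nlinarith
  have h3 : J * (|α| * |β|) ≤ 400 * (e * e) * th := by
    refine le_of_mul_le_mul_left ?_ hJ
    have h := mul_le_mul ha hb (by positivity) (by positivity)
    have := mul_le_mul_of_nonneg_left (hB.trans hth) (show 0 ≤ 400 * (e * e) by positivity)
    nlinarith
  have h4 := abs_add_le ((α + β + α * β) * (J * ξ) - J * (α * β)) (J * η)
  have h5 := abs_sub ((α + β + α * β) * (J * ξ)) (J * (α * β))
  simp only [abs_mul, abs_of_pos hJ] at h4 h5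
  have h6 := mul_le_mul_of_nonneg_right e2 t0.le
  have h7 := mul_le_mul_of_nonneg_left he1 t0.le
  nlinarith

theorem two {j : ℕ} {α β ξ η γ th : ℝ} (ha : |α| ≤ 1 / 50) (hb : |β| ≤ 1 / 50) (hγ : 0 ≤ γ)
    (hE : |(α + β + α * β) * (j * ξ) - j * (α * β) + j * η| ≤ th / 2)
    (ho : 0 ≤ 1 + (α + β - ξ + η - γ)) :
    (1 + (α + β - ξ + η - γ)) ^ j ≤
      (1 + α) ^ j * (1 + β) ^ j * Real.exp (-(j * ξ) - j * γ / 2 + th) ∧
    (γ = 0 → (1 + α) ^ j * (1 + β) ^ j * (1 - j * ξ - th) ≤ (1 + (α + β - ξ + η - γ)) ^ j) := by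
  obtain ⟨a1, a2⟩ := abs_le.1 ha
  obtain ⟨b1, b2⟩ := abs_le.1 hb
  obtain ⟨e1, e2⟩ := abs_le.1 hE
  obtain ⟨c, hc⟩ : ∃ c, c = (1 + α) * (1 + β) := ⟨_, rfl⟩
  have c1 : 1 / 2 ≤ c := by nlinarith
  have c2 : c ≤ 2 := by nlinarith
  have c0 : 0 < c := by linarith
  have t0 : 0 ≤ th := by linarith
  obtain ⟨k, hk⟩ : ∃ k, c * k = -(α * β + ξ - η + γ) := ⟨_, mul_div_cancel₀ _ c0.ne'⟩
  have h1 : 1 + (α + β - ξ + η - γ) = c * (1 + k) := by rw [mul_add, hk, hc]; ring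
  have h2 : 0 ≤ 1 + k := (mul_nonneg_iff_of_pos_left c0).1 (h1 ▸ ho)
  have h3 : α + β + α * β = c - 1 := by rw [hc]; ring
  have h4 : c * (j * k) = -(j * (α * β) + j * ξ - j * η + j * γ) := by
    rw [mul_left_comm, hk]; ring
  have h5 : 0 ≤ j * γ := mul_nonneg j.cast_nonneg hγ
  have h6 := mul_le_mul_of_nonneg_right c1 t0
  have h7 := mul_le_mul_of_nonneg_right c2 h5
  rw [h3] at e1 e2
  rw [← mul_pow, ← hc, h1, mul_pow]
  refine ⟨mul_le_mul_of_nonneg_left ((pow_le_exp h2 j).trans (Real.exp_le_exp.2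
    (le_of_mul_le_mul_left ?_ c0))) (pow_pos c0 j).le, fun g => mul_le_mul_of_nonneg_left
    (le_trans (le_of_mul_le_mul_left ?_ c0) (one_add_mul_le_pow (by linarith) j))
    (pow_pos c0 j).le⟩
  · rw [h4]; nlinarith
  · rw [mul_add c 1, h4, g]; nlinarith

end DRho

open DRho in
theorem rhoS : RHO := by
  intro j e t Wt a b he he1 ht hj hW ha hb
  have hJ : (1 : ℝ) ≤ j := by exact_mod_cast hj
  have W0 : 0 < Wt := (mul_pos_iff_of_pos_left he).1 (hW ▸ by positivity)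
  have k1 : ∀ x, e / t * x = j * (x / Wt) := fun x => by
    rw [← mul_div_assoc, div_mul_eq_mul_div, div_eq_div_iff ht.ne' W0.ne']
    linear_combination -x * hW
  have k2 : ∀ x c, |x| ≤ c * t → j * |x / Wt| ≤ c * e := fun x c h => by
    rw [abs_div, abs_of_pos W0, ← k1, div_mul_eq_mul_div, div_le_iff₀ ht]
    nlinarith
  have a1 := k2 a 20 ha
  have b1 := k2 b 20 hb
  have a2 : j * |a / Wt| ≤ 1 / 50 := by linarith
  have b2 : j * |b / Wt| ≤ 1 / 50 := by linarith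
  obtain ⟨a3, a4⟩ := one hJ a2
  obtain ⟨b3, b4⟩ := one hJ b2
  refine ⟨⟨by nlinarith, by nlinarith⟩, fun x δ d B th hx hB hδ hd hth ho => ?_⟩
  have h := two (j := j) (ξ := x / Wt) (η := δ / Wt) (γ := d / Wt) (th := th) (small hJ a2)
    (small hJ b2) (div_nonneg hd W0.le)
    (err he he1 hJ a1 b1 (small hJ b2) (k2 x B hx) hB (k2 δ th hδ) hth)
  simp only [← add_div, ← sub_div] at h
  rw [neg_mul, k1, k1]
  exact ⟨(h ho).1, fun g => (h ho).2 (by rw [g, zero_div])⟩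

end Pool.Agent.MP_ddf486_co.KV
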