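import Pool.Agent.MP_ddf486_co.KV.BasicD

/-! Project KV, block D, row ROWB: the row term hardly ever goes up along an edge. -/

set_option autoImplicit false
set_option linter.unusedSectionVars false

noncomputable section

namespace Pool.Agent.MP_ddf486_co.KV

open Finset Pool.Agent.MP_6c3157_co.PD Pool.Agent.MP_6c3157_co.PQ

namespace DRowb

variable {X ι : Type} [DecidableEq X] [Fintype ι]

theorem ob_le (F : Fam X ι) (hw : ∀ i, 0 ≤ F.w i) (x y z : X) :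
    F.OB z y ≤ F.OB x y + F.DB z y x := by
  unfold Fam.OB Fam.DB
  rw [F.W_split _ fun i => x ∈ F.S i]
  exact add_le_add (F.W_mono hw fun i h => ⟨h.1.1, h.2, h.1.2.2⟩)
    (F.W_mono hw fun i h => ⟨h.1.1, h.1.2.1, h.1.2.2, h.2⟩)

theorem markov (Z : Finset X) (f : X → X → ℝ) (hf : ∀ x y, 0 ≤ f x y) (a : ℝ) :
    a * (ed Z fun x y => a ≤ f x y : ℝ) ≤ ∑ x ∈ Z, ∑ y ∈ Z.erase x, f x y := by
  rw [ed_sum, mul_sum]
  refine sum_le_sum fun x _ => ?_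
  rw [mul_sum]
  refine sum_le_sum fun y _ => ?_
  split_ifs with h
  · rw [mul_one]; exact h
  · rw [mul_zero]; exact hf x y

theorem nums {N : Nb} (hN : N.Good) {A B n e : ℝ} (hA0 : 0 ≤ A) (hB0 : 0 ≤ B) (hn : 0 ≤ n)
    (hA : 2 ^ N.r * A ≤ n) (hB : (N.q : ℝ) ^ 40 * B ≤ N.L ^ 5 * n)
    (he : N.k * e * N.L ^ 20 ≤ 1) :
    A + B + N.k * (e * n + A) + 2 * N.ψ * n ≤ N.u ^ 100 * n := by
  have v0 := hN.d_pw0 100
  have q0 := hN.d_q0
  have vq := hN.d_uq (a := 100) (by norm_num)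
  set v := N.u ^ 100
  have a1 : 10 ^ 30 * A ≤ v * n :=
    calc 10 ^ 30 * A ≤ v * 2 ^ N.r * A :=
          mul_le_mul_of_nonneg_right (hN.d_u2 (a := 100) (by norm_num)) hA0
      _ = v * (2 ^ N.r * A) := by ring
      _ ≤ v * n := mul_le_mul_of_nonneg_left hA v0.le
  have a2 : 10 ^ 30 * (N.k * A) ≤ v * n :=
    calc 10 ^ 30 * (N.k * A) = 10 ^ 30 * N.k * A := by ring
      _ ≤ N.q * A := mul_le_mul_of_nonneg_right hN.d_kq hA0
      _ ≤ v * N.q * (N.q * A) :=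
          le_mul_of_one_le_left (mul_nonneg q0.le hA0) (le_trans (by norm_num) vq)
      _ = v * ((N.q : ℝ) ^ 2 * A) := by ring
      _ ≤ v * (2 ^ N.r * A) := mul_le_mul_of_nonneg_left
          (mul_le_mul_of_nonneg_right (hN.d_q2 (by norm_num)) hA0) v0.le
      _ ≤ v * n := mul_le_mul_of_nonneg_left hA v0.le
  have b0 : (N.q : ℝ) * B ≤ n := by
    refine le_of_mul_le_mul_left ?_ q0
    calc (N.q : ℝ) * (N.q * B) = (N.q : ℝ) ^ 2 * B := by ring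
      _ ≤ (N.q : ℝ) ^ 40 * B := mul_le_mul_of_nonneg_right (hN.d_qp (by norm_num)) hB0
      _ ≤ N.L ^ 5 * n := hB
      _ ≤ N.q * n := mul_le_mul_of_nonneg_right ((hN.d_Lp (by norm_num)).trans hN.d_Lq30) hn
  have a3 : 10 ^ 30 * B ≤ v * n :=
    calc 10 ^ 30 * B ≤ v * N.q * B := mul_le_mul_of_nonneg_right vq hB0
      _ = v * (N.q * B) := by ring
      _ ≤ v * n := mul_le_mul_of_nonneg_left b0 v0.le
  have e1 : 10 ^ 30 * (N.k * e) ≤ v := by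
    rcases le_total 0 (N.k * e) with h | h
    · have l1 : N.L ≤ N.L ^ 20 := by simpa using hN.d_Lp (a := 1) (b := 20) (by norm_num)
      calc 10 ^ 30 * (N.k * e) ≤ v * N.L ^ 20 * (N.k * e) := mul_le_mul_of_nonneg_right
            ((hN.d_uL (a := 100) (by norm_num)).trans (mul_le_mul_of_nonneg_left l1 v0.le)) h
        _ = v * (N.k * e * N.L ^ 20) := by ring
        _ ≤ v * 1 := mul_le_mul_of_nonneg_left he v0.le
        _ = v := mul_one v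
    · linarith
  have a4 := mul_le_mul_of_nonneg_right e1 hn
  have a5 := mul_le_mul_of_nonneg_right (hN.d_psi (a := 100) (by norm_num)) hn
  have a6 : 0 ≤ v * n := mul_nonneg v0.le hn
  have : N.k * (e * n + A) = N.k * e * n + N.k * A := by ring
  rw [this]
  nlinarith

end DRowb

open DRowb in
theorem rowbS (h1 : CLA) (h2 : ZSI) (h3 : SUBU) : ROWB := by
  intro N X ι _ _ F lab Z Y Y₁ Y₂ W Kt η Om Cl Gh t e Wb hN hA hP hM hYZ h21 hW he hom hgh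
  classical
  have t0 := hM.dc.t_pos
  have h2Y : Y₂ ⊆ Y := h21.trans hM.rw.sub
  have h2Z : Y₂ ⊆ Z := h2Y.trans hYZ
  obtain ⟨c, rp, hcs, hrp, hty, hct⟩ := h1 X lab Y₂
    (fun x y => |F.K0 Y x y| < 2 * (N.u ^ 80 * t) ∧ Cl x y ≤ N.u ^ 8 * t)
    (fun z y => N.u ^ 8 * t ≤ Om z y ∨ 2 * (N.u ^ 80 * t) ≤ |F.K0 Y z y|) N.k
    fun y hy z hz e => le_trans (Nat.cast_le.2 (card_le_card (filter_subset_filter _ h2Z)))
      (hA.pin y (h2Z hy) z (h2Z hz) e)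
  have g1 := mul_le_mul_of_nonneg_right (hN.d_gap (a := 8) (b := 80) (by norm_num)) t0.le
  have g2 := mul_le_mul_of_nonneg_right (hN.d_gap (a := 8) (b := 1000) (by norm_num)) t0.le
  have t2 : 0 < N.u ^ 8 * t := mul_pos (hN.d_pw0 8) t0
  have s1 : (ed Y₂ fun x z => F.bb Kt Y x + 5 * (N.u ^ 8 * t) < F.bb Kt Y z : ℝ) ≤
      ed Y₂ fun x z => z ∉ c x (lab x z) ∨ z = rp x (lab x z) := by
    refine ed_le subset_rfl fun x hx z hz hxz hb => ?_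
    by_contra hc
    rw [not_or, not_not] at hc
    obtain ⟨hzc, hzr⟩ := hc
    have hyc := hrp x _ ⟨z, hzc⟩
    obtain ⟨hy, hyx, hl⟩ := hcs.sub x _ _ hyc
    obtain ⟨⟨k1, -⟩, -⟩ := hty x _ _ hyc
    obtain ⟨⟨-, c1⟩, r1⟩ := hty x _ _ hzc
    have r2 := r1.resolve_left hzr
    rw [not_or, not_le, not_le] at r2
    have d1 := hA.trip x (h2Z hx) z (h2Z hz) _ (h2Z hy) hxz.symm hyx hzr hl.symm
    have d2 := ob_le F hA.w_lo x (rp x (lab x z)) z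
    have i1 := (abs_le.1 (hM.dc.idn z (h2Y hz) _ (h2Y hy) hzr)).1
    have i2 := (abs_le.1 (hM.dc.idn x (h2Y hx) _ (h2Y hy) hyx.symm)).2
    have k2 := (abs_lt.1 k1).1
    have k3 := (abs_lt.1 r2.2).2
    have p1 := hgh x hx
    have p2 := hgh z hz
    have r3 := r2.1
    nlinarith
  have s2 := ed_or Y₂ (fun x z => z ∉ c x (lab x z)) fun x z => z = rp x (lab x z)
  have s3 := h2 N X lab Z Y₂ (fun x z => z = rp x (lab x z)) hN hP h2Z
    fun x _ y _ z _ _ _ hy hz e => by rw [hy, hz, ← hy, ← hz, hy, e, ← hz]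
  have yz : (Y.card : ℝ) ^ 2 ≤ (Z.card : ℝ) ^ 2 := by
    gcongr
  have sA := (h3 N X ι F Kt Y Y₁ t Wb hN hM).1.trans yz
  have sB : (N.q : ℝ) ^ 40 * (ed Z fun x y => N.u ^ 8 * t ≤ Cl x y : ℝ) ≤
      N.L ^ 5 * (Z.card : ℝ) ^ 2 := by
    refine le_of_mul_le_mul_left ?_ t2
    calc _ = (N.q : ℝ) ^ 40 * (N.u ^ 8 * t * (ed Z fun x y => N.u ^ 8 * t ≤ Cl x y : ℝ)) := by ring
      _ ≤ _ := mul_le_mul_of_nonneg_left (markov Z Cl hA.cl_lo _) (pow_pos hN.d_q0 _).le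
      _ ≤ _ := hA.cl_sum
      _ ≤ N.u ^ 8 * t * N.L ^ 5 * (Z.card : ℝ) ^ 2 := mul_le_mul_of_nonneg_right hW (by positivity)
      _ = _ := by ring
  have mA : (ed Y₂ fun y z => 2 * (N.u ^ 80 * t) ≤ |F.K0 Y y z| : ℝ) ≤
      ed Y₁ fun y z => 2 * (N.u ^ 80 * t) ≤ |F.K0 Y y z| := ed_le h21 fun _ _ _ _ _ h => h
  have s4 : (ed Y₂ fun x y => ¬ (|F.K0 Y x y| < 2 * (N.u ^ 80 * t) ∧ Cl x y ≤ N.u ^ 8 * t) : ℝ) ≤
      (ed Y₁ fun y z => 2 * (N.u ^ 80 * t) ≤ |F.K0 Y y z| : ℝ) +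
        ed Z fun x y => N.u ^ 8 * t ≤ Cl x y := by
    refine le_trans (ed_le subset_rfl fun x _ y _ _ h => ?_) ((ed_or Y₂
      (fun y z => 2 * (N.u ^ 80 * t) ≤ |F.K0 Y y z|) fun x y => N.u ^ 8 * t ≤ Cl x y).trans
        (add_le_add mA (ed_le h2Z fun _ _ _ _ _ h => h)))
    rw [not_and_or, not_lt, not_le] at h
    exact h.imp_right le_of_lt
  have s5 := (ed_or Y₂ (fun z y => N.u ^ 8 * t ≤ Om z y)
    fun z y => 2 * (N.u ^ 80 * t) ≤ |F.K0 Y z y|).trans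
      (add_le_add ((ed_le h21 fun _ _ _ _ _ h => h).trans hom) mA)
  have s6 := mul_le_mul_of_nonneg_left s5 (zero_le_one.trans hN.k_lo)
  have := nums hN (Nat.cast_nonneg _) (Nat.cast_nonneg _) (by positivity) sA sB he
  linarith

end Pool.Agent.MP_ddf486_co.KV
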