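import Pool.Agent.MP_ddf486_co.KV.BasicD

/-! Project KV, block D: an odd power of a Gram kernel against a Gram kernel. -/

set_option autoImplicit false

noncomputable section

namespace Pool.Agent.MP_ddf486_co.KV

open Finset

namespace DTaila

theorem pt {k m t : ℝ} {r : ℕ} (hr : Odd r) (ht : 0 < t) (hm : 0 ≤ m) (h2 : -t ≤ k → m ≤ 2) :
    k ^ r * m ≤ 2 * |k| ^ r - t ^ r * (if k < -t then m else 0) := by
  have p : 0 ≤ |k| ^ r := by positivity
  by_cases h : k < -t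
  · rw [if_pos h]
    have e : k ^ r = -|k| ^ r := by
      rw [abs_of_neg (by linarith), hr.neg_pow, neg_neg]
    have l : t ^ r ≤ |k| ^ r :=
      pow_le_pow_left₀ ht.le (by rw [abs_of_neg (by linarith)]; linarith) r
    have := mul_le_mul_of_nonneg_right l hm
    rw [e]; linarith
  · rw [if_neg h]
    have l : k ^ r ≤ |k| ^ r := by rw [← abs_pow]; exact le_abs_self _
    have h3 := mul_le_mul_of_nonneg_right l hm
    have h4 := mul_le_mul_of_nonneg_left (h2 (not_lt.1 h)) p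
    linarith

end DTaila

open DTaila in
theorem tailaS : TAILA := by
  classical
  intro X _ Y K M r t D a gK gM hr ht hD ha hM h2 hdg hKd hn
  set T := ∑ y ∈ Y, ∑ z ∈ Y.erase y, if K y z < -t then M y z else 0 with hT
  have T0 : 0 ≤ T := sum_nonneg fun y hy => sum_nonneg fun z hz => by
    split_ifs
    exacts [hM y hy z (mem_of_mem_erase hz), le_rfl]
  have tot := ((gK.pow r).mul gM).total Y
  rw [full_eq] at tot
  have off : ∑ y ∈ Y, ∑ z ∈ Y.erase y, K y z ^ r * M y z ≤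
      2 * ∑ y ∈ Y, ∑ z ∈ Y.erase y, |K y z| ^ r - t ^ r * T := by
    rw [hT, mul_sum, mul_sum, ← sum_sub_distrib]
    refine sum_le_sum fun y hy => ?_
    rw [mul_sum, mul_sum, ← sum_sub_distrib]
    refine sum_le_sum fun z hz => ?_
    exact pt hr ht (hM y hy z (mem_of_mem_erase hz))
      (h2 y hy z (mem_of_mem_erase hz) (ne_of_mem_erase hz).symm)
  have rows : ∑ y ∈ Y, ∑ z ∈ Y.erase y, M y z ≤ 2 * (Y.card : ℝ) ^ 2 + T := by
    have e1 : ∑ y ∈ Y, ∑ z ∈ Y.erase y, M y z ≤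
        ∑ y ∈ Y, ∑ z ∈ Y.erase y, (2 + if K y z < -t then M y z else 0) := by
      refine sum_le_sum fun y hy => sum_le_sum fun z hz => ?_
      by_cases h : K y z < -t
      · rw [if_pos h]; linarith
      · rw [if_neg h]
        linarith [h2 y hy z (mem_of_mem_erase hz) (ne_of_mem_erase hz).symm (not_lt.1 h)]
    have e2 : ∑ y ∈ Y, ∑ _z ∈ Y.erase y, (2 : ℝ) ≤ ∑ _y ∈ Y, ∑ _z ∈ Y, (2 : ℝ) :=
      sum_le_sum fun y _ => sum_le_sum_of_subset_of_nonneg (erase_subset _ _)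
        fun _ _ _ => by norm_num
    simp only [sum_add_distrib] at e1
    have e3 : ∑ _y ∈ Y, ∑ _z ∈ Y, (2 : ℝ) = 2 * (Y.card : ℝ) ^ 2 := by
      simp only [sum_const, nsmul_eq_mul]; ring
    linarith
  have tp : 0 < t ^ r := pow_pos ht r
  have dg : 8 ^ r * ∑ y ∈ Y, K y y ^ r * M y y ≤ t ^ r * ∑ y ∈ Y, ∑ z ∈ Y.erase y, M y z := by
    rw [mul_sum, mul_sum]
    refine sum_le_sum fun y hy => ?_
    have m0 := hM y hy y hy
    have k1 : K y y ^ r ≤ (D * t) ^ r := pow_le_pow_left₀ (gK.diag y) (hKd y hy) r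
    have k2 : (8 * D) ^ r * M y y ≤ ∑ z ∈ Y.erase y, M y z :=
      (mul_le_mul_of_nonneg_right ha m0).trans (hdg y hy)
    calc 8 ^ r * (K y y ^ r * M y y) ≤ 8 ^ r * ((D * t) ^ r * M y y) := by gcongr
      _ = t ^ r * ((8 * D) ^ r * M y y) := by rw [mul_pow, mul_pow]; ring
      _ ≤ t ^ r * ∑ z ∈ Y.erase y, M y z := mul_le_mul_of_nonneg_left k2 tp.le
  have p8 : (0 : ℝ) < 8 ^ r := by positivity
  have hn' : 8 ^ r * ∑ y ∈ Y, ∑ z ∈ Y.erase y, |K y z| ^ r ≤ t ^ r * (Y.card : ℝ) ^ 2 := by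
    refine (mul_le_mul_of_nonneg_left hn p8.le).trans_eq ?_
    rw [div_pow]; field_simp
  have a1 := mul_nonneg p8.le tot
  have a2 := mul_le_mul_of_nonneg_left off p8.le
  have a3 := mul_le_mul_of_nonneg_left rows tp.le
  have a4 : t ^ r * (8 ^ r * T) ≤ t ^ r * (4 * (Y.card : ℝ) ^ 2 + T) := by nlinarith
  have a5 := le_of_mul_le_mul_left a4 tp
  have a6 : (8 : ℝ) ≤ 8 ^ r := le_self_pow₀ (by norm_num) hr.pos.ne'
  have a7 := mul_le_mul_of_nonneg_right a6 T0
  have a8 : (0 : ℝ) ≤ (Y.card : ℝ) ^ 2 := by positivity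
  linarith

end Pool.Agent.MP_ddf486_co.KV
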