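import Pool.Agent.MP_ddf486_co.KV.DLev
import Pool.Agent.MP_ddf486_co.KV.DCtx
import Pool.Agent.MP_ddf486_co.KV.DRho
import Pool.Agent.MP_ddf486_co.KV.DRec
import Pool.Agent.MP_ddf486_co.KV.DTaila
import Pool.Agent.MP_ddf486_co.KV.DNuk
import Pool.Agent.MP_ddf486_co.KV.DNub1
import Pool.Agent.MP_ddf486_co.KV.DNub2
import Pool.Agent.MP_ddf486_co.KV.DKpn
import Pool.Agent.MP_ddf486_co.KV.DKcore
import Pool.Agent.MP_ddf486_co.KV.DKlem
import Pool.Agent.MP_ddf486_co.KV.DSubu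
import Pool.Agent.MP_ddf486_co.KV.DH0
import Pool.Agent.MP_ddf486_co.KV.DDe1
import Pool.Agent.MP_ddf486_co.KV.DDe2
import Pool.Agent.MP_ddf486_co.KV.DDe3
import Pool.Agent.MP_ddf486_co.KV.DRowb

/-! Project KV, block D assembled. -/

set_option autoImplicit false

namespace Pool.Agent.MP_ddf486_co.KV

theorem st0_all : ST0 := st0S bbdS

theorem tail_all : TAIL := tailS (ctxS bbdS) tailaS

theorem lev_all (h : CLA) : LEV :=
  levS (ctxS bbdS) tail_all (midS (nuk1S rhoS) (nub2S nub1S) (klemS (kcoreS kposS knegS)))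
    (subuS lrS) (h0S zsiS) (de3S (nuk2S rhoS) (subuS lrS) de1S de2S) rowaS
    (rowbS h zsiS (subuS lrS)) (recS idnS lrS)

end Pool.Agent.MP_ddf486_co.KV
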