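import Pool.Agent.MP_ddf486_co.KV.SpecE2

/-! Project KV, row CL1: the clusters exist. -/

set_option autoImplicit false
set_option linter.unusedSectionVars false

noncomputable section

namespace Pool.Agent.MP_ddf486_co.KV

open Finset Pool.Agent.MP_6c3157_co.PD Pool.Agent.MP_6c3157_co.PQ

namespace Cl1

variable {X ι : Type} [DecidableEq X] [Fintype ι] {N : Nb} {F : Fam X ι} {lab : X → X → ℝ}
  {Z Y : Finset X} {W Kt η : ℝ} {Om Cl : X → X → ℝ} {Gh : X → ℝ} {t e Wb : ℝ}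

theorem ed_sum (Y : Finset X) (H : X → X → Prop) [∀ x y, Decidable (H x y)] :
    (ed Y H : ℝ) = ∑ x ∈ Y, ∑ y ∈ Y.erase x, if H x y then 1 else 0 := by
  rw [ed, card_filter, Nat.cast_sum, sum_product]
  refine sum_congr rfl fun x hx => ?_
  rw [← add_sum_erase _ _ hx, if_neg fun c => c.1 rfl, Nat.cast_zero, zero_add]
  refine sum_congr rfl fun y hy => ?_
  by_cases c : H x y
  · rw [if_pos c, if_pos ⟨(ne_of_mem_erase hy).symm, c⟩, Nat.cast_one]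
  · rw [if_neg c, if_neg fun d => c d.2, Nat.cast_zero]

theorem ed_or {H H₁ H₂ : X → X → Prop} (h : ∀ x ∈ Y, ∀ y ∈ Y, H x y → H₁ x y ∨ H₂ x y) :
    (ed Y H : ℝ) ≤ (ed Y H₁ : ℝ) + (ed Y H₂ : ℝ) := by
  classical
  rw [← Nat.cast_add, Nat.cast_le]
  refine le_trans (card_le_card fun p hp => ?_) (card_union_le _ _)
  simp only [mem_union, mem_filter, mem_product] at hp ⊢
  exact (h _ hp.1.1 _ hp.1.2 hp.2.2).imp (fun k => ⟨hp.1, hp.2.1, k⟩) fun k => ⟨hp.1, hp.2.1, k⟩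

theorem ed_swap (Y : Finset X) (H : X → X → Prop) : ed Y (fun y z => H z y) ≤ ed Y H := by
  refine card_le_card_of_injOn Prod.swap (fun p hp => ?_) Prod.swap_injective.injOn
  simp only [coe_filter, mem_product, Set.mem_ofPred_eq, Prod.fst_swap, Prod.snd_swap] at hp ⊢
  exact ⟨⟨hp.1.2, hp.1.1⟩, hp.2.1.symm, hp.2.2⟩

theorem markov {H : X → X → Prop} {f : X → X → ℝ} {a : ℝ} (h0 : ∀ x y, 0 ≤ f x y)
    (h : ∀ x y, H x y → a ≤ f x y) : a * (ed Y H : ℝ) ≤ ∑ x ∈ Y, ∑ y ∈ Y.erase x, f x y := by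
  classical
  rw [ed_sum, mul_sum]
  refine sum_le_sum fun x _ => ?_
  rw [mul_sum]
  refine sum_le_sum fun y _ => ?_
  by_cases c : H x y
  · rw [if_pos c, mul_one]; exact h x y c
  · rw [if_neg c, mul_zero]; exact h0 x y

theorem db_eq (F : Fam X ι) (x y z : X) : F.DB x y z = F.DB y z x + F.OB x y - F.OB y z := by
  have h1 := F.W_split (fun i => F.b i ∧ x ∈ F.S i ∧ y ∈ F.S i) fun i => z ∈ F.S i
  have h2 := F.W_split (fun i => F.b i ∧ y ∈ F.S i ∧ z ∈ F.S i) fun i => x ∈ F.S i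
  rw [F.W_congr (φ := fun i => (F.b i ∧ y ∈ F.S i ∧ z ∈ F.S i) ∧ x ∈ F.S i)
    (ψ := fun i => (F.b i ∧ x ∈ F.S i ∧ y ∈ F.S i) ∧ z ∈ F.S i) fun i => by tauto] at h2
  unfold Fam.DB Fam.OB
  simp only [and_assoc] at h1 h2
  linarith

theorem db_tri (hw : ∀ i, 0 ≤ F.w i) (x y z p : X) : F.DB x y z ≤ F.DB x y p + F.DB x p z := by
  unfold Fam.DB
  rw [F.W_split (fun i => F.b i ∧ x ∈ F.S i ∧ y ∈ F.S i ∧ z ∉ F.S i) fun i => p ∈ F.S i, add_comm]
  exact add_le_add (F.W_mono hw fun i => by tauto) (F.W_mono hw fun i => by tauto)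

theorem db_self (F : Fam X ι) (x y : X) : F.DB x y y = 0 :=
  sum_eq_zero fun _ _ => if_neg fun h => h.2.2.2 h.2.2.1

variable (hN : N.Good) (hA : Am N F lab Z W Kt η Om Cl Gh) (hS : St N F Z Y W Kt Om Gh t e Wb)
include hN hA hS

theorem db_le {x y z : X} (hx : x ∈ Y) (hy : y ∈ Y) (hz : z ∈ Y) (h1 : y ≠ x) (h2 : z ≠ x)
    (hl : lab x y = lab x z) (a1 : |F.K0 Y x y| ≤ t) (a2 : Cl x y ≤ t)
    (a3 : y = z ∨ Om y z ≤ t ∧ |F.K0 Y y z| ≤ t) : F.DB x y z ≤ 48 * t := by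
  have t0 := hS.t_pos hN hA
  by_cases h3 : y = z
  · rw [← h3, db_self]; linarith
  obtain ⟨a3, a4⟩ := a3.resolve_left h3
  have b1 := hA.trip x (hS.sub hx) y (hS.sub hy) z (hS.sub hz) h1 h2 h3 hl
  have b2 := (abs_le.1 (hA.idn Y (hS.sub hx) (hS.sub hy) h1.symm)).2
  have b3 := (abs_le.1 (hA.idn Y (hS.sub hy) (hS.sub hz) h3)).1
  rw [db_eq]
  linarith [hS.gh x hx, hS.gh y hy, (abs_le.1 (hS.row x hx)).2, (abs_le.1 (hS.row z hz)).1,
    hS.eta_le' hN hA, (abs_le.1 a1).1, (abs_le.1 a4).2]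

theorem sq_le : (Z.card : ℝ) ^ 2 ≤ 4 * (Y.card : ℝ) ^ 2 := by
  have h1 := hS.big
  have h2 := hN.u_le
  have h3 : (0 : ℝ) ≤ Z.card := Nat.cast_nonneg _
  have h4 : (Z.card : ℝ) ≤ 2 * Y.card := by nlinarith
  nlinarith

theorem cntK : 4 * (N.L ^ 15 * (N.k * (ed Y fun x y => t < |F.K0 Y x y| : ℝ))) ≤
    (Y.card : ℝ) ^ 2 := by
  have t0 := hS.t_pos hN hA
  have h1 := (markov (Y := Y) (H := fun x y => t < |F.K0 Y x y|) (a := t ^ N.r)
    (f := fun x y => |F.K0 Y x y| ^ N.r) (fun x y => by positivity)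
    fun x y h => pow_le_pow_left₀ t0.le h.le _).trans hS.nrm
  rw [div_pow, ← mul_div_assoc, le_div_iff₀ (by positivity), mul_assoc, mul_comm] at h1
  have h2 := le_of_mul_le_mul_right h1 (pow_pos t0 _)
  have q0 := hN.q_pos
  have l0 := hN.L_pos
  have h3 : 4 * (N.L ^ 15 * N.k) ≤ 8 ^ N.r :=
    calc _ ≤ (N.q : ℝ) * (N.q * N.q) :=
          mul_le_mul (le_trans (by norm_num) hN.q_big) (mul_le_mul
            ((hN.L_pow_le (by norm_num)).trans hN.Lq) hN.k_le_q (by linarith [hN.k_lo]) q0.le)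
            (mul_nonneg (by positivity) (by linarith [hN.k_lo])) q0.le
      _ = (N.q : ℝ) ^ 3 := by ring
      _ ≤ 2 ^ N.r := (hN.q_pow_le (by norm_num)).trans hN.rq
      _ ≤ _ := pow_le_pow_left₀ (by norm_num) (by norm_num) _
  have h4 := mul_le_mul_of_nonneg_left h3
    (Nat.cast_nonneg (α := ℝ) (ed Y fun x y => t < |F.K0 Y x y|))
  linarith

theorem cntC : 4 * (N.L ^ 15 * (ed Y fun x y => t < Cl x y : ℝ)) ≤ (Y.card : ℝ) ^ 2 := by
  have t0 := hS.t_pos hN hA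
  have q0 := hN.q_pos
  have l0 := hN.L_pos
  have h1 : t * (ed Y fun x y => t < Cl x y : ℝ) ≤ ∑ x ∈ Z, ∑ y ∈ Z.erase x, Cl x y :=
    (markov hA.cl_lo fun x y h => h.le).trans ((sum_le_sum fun x _ =>
      sum_le_sum_of_subset_of_nonneg (erase_subset_erase x hS.sub) fun y _ _ => hA.cl_lo x y).trans
        (sum_le_sum_of_subset_of_nonneg hS.sub fun x _ _ => sum_nonneg fun y _ => hA.cl_lo x y))
  have h2 := (mul_le_mul_of_nonneg_left h1 (pow_pos q0 40).le).trans (hA.cl_sum.trans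
    (mul_le_mul hS.t_lo (sq_le hN hA hS) (by positivity) (by positivity)))
  have h3 : 16 * N.L ^ 20 ≤ (N.q : ℝ) ^ 40 :=
    calc _ ≤ (N.q : ℝ) * N.q :=
          mul_le_mul (le_trans (by norm_num) hN.q_big) ((hN.L_pow_le (by norm_num)).trans hN.Lq)
            (by positivity) q0.le
      _ = (N.q : ℝ) ^ 2 := by ring
      _ ≤ _ := hN.q_pow_le (by norm_num)
  have h4 := mul_le_mul_of_nonneg_right h3
    (show 0 ≤ t * (ed Y fun x y => t < Cl x y : ℝ) by positivity)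
  refine le_of_mul_le_mul_left (a := 4 * (t * N.L ^ 5)) ?_ (by positivity)
  linarith

theorem cntO : 8 * (N.L ^ 15 * (N.k * (ed Y fun x y => t ≤ Om x y : ℝ))) ≤ (Y.card : ℝ) ^ 2 := by
  have l0 := hN.L_pos
  have k0 : 0 ≤ N.k := by linarith [hN.k_lo]
  have h1 := mul_le_mul_of_nonneg_left hS.om (show 0 ≤ N.k * N.L ^ 20 by positivity)
  have h2 := mul_le_mul_of_nonneg_right hS.ek (sq_nonneg (Z.card : ℝ))
  have h3 : 32 ≤ N.L ^ 5 :=
    le_trans (le_trans (by norm_num) hN.L_big) (le_self_pow₀ hN.one_le_L (by norm_num))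
  have h4 := mul_le_mul_of_nonneg_right h3
    (show 0 ≤ N.L ^ 15 * (N.k * (ed Y fun x y => t ≤ Om x y : ℝ)) by positivity)
  linarith [sq_le hN hA hS]

end Cl1

open Cl1 in
theorem cl1 (h : CLA) : CL1 := by
  intro N X ι _ _ F lab Z Y W Kt η Om Cl Gh t e Wb hN hA hP hS
  obtain ⟨c, rp, hc, hr, ht, hj⟩ := h X lab Y
    (fun x y => x ∈ Y ∧ |F.K0 Y x y| ≤ t ∧ Cl x y ≤ t)
    (fun y z => t ≤ Om y z ∨ t ≤ Om z y ∨ t < |F.K0 Y y z|) N.k fun y hy z hz k =>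
      le_trans (Nat.cast_le.2 (card_le_card (filter_subset_filter _ hS.sub)))
        (hA.pin y (hS.sub hy) z (hS.sub hz) k)
  refine ⟨c, rp, hN, hA, hP, hS, hc, fun x l y hy => (ht x l y hy).1.1, hr,
    fun x l y hy => (ht x l y hy).1.2.1, fun x l y hy z hz => ?_, ?_⟩
  · have hp := hr x l ⟨y, hy⟩
    obtain ⟨y1, y2, y3⟩ := hc.sub x l y hy
    obtain ⟨z1, z2, z3⟩ := hc.sub x l z hz
    obtain ⟨p1, p2, p3⟩ := hc.sub x l _ hp
    obtain ⟨⟨hx, y4, y5⟩, y6⟩ := ht x l y hy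
    have a1 := db_le hN hA hS hx y1 p1 y2 p2 (y3.trans p3.symm) y4 y5 (y6.imp_right fun k =>
      ⟨(not_le.1 fun d => k (.inl d)).le, not_lt.1 fun d => k (.inr (.inr d))⟩)
    have a2 := db_le hN hA hS hx p1 z1 p2 z2 (p3.trans z3.symm) (ht x l _ hp).1.2.1
      (ht x l _ hp).1.2.2 ((ht x l z hz).2.imp Eq.symm fun k =>
        ⟨(not_le.1 fun d => k (.inr (.inl d))).le, not_lt.1 fun d => k (.inr (.inr
          (by rwa [(gram_K0 F hA.w_lo Y).symm]))) ⟩)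
    have a3 := db_tri hA.w_lo x y z (rp x l)
    have := hS.t_pos hN hA
    show F.DB x y z ≤ 100 * t
    linarith
  · have e1 : Dat.sj ⟨N, F, lab, Z, Y, W, Kt, η, Om, Cl, Gh, t, e, Wb, c, rp⟩ (fun _ _ => 1) =
        (ed Y fun x y => y ∉ c x (lab x y) : ℝ) := by
      rw [ed_sum]
      exact sum_congr rfl fun x _ => sum_congr rfl fun y _ => (ite_not _ _ _).symm
    have k0 : 0 ≤ N.k := by linarith [hN.k_lo]
    have e2 := ed_or (Y := Y) (H := fun x y => ¬(x ∈ Y ∧ |F.K0 Y x y| ≤ t ∧ Cl x y ≤ t))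
      (H₁ := fun x y => t < |F.K0 Y x y|) (H₂ := fun x y => t < Cl x y) fun x hx y _ k => by
        by_contra d
        exact k ⟨hx, not_lt.1 fun a => d (.inl a), not_lt.1 fun a => d (.inr a)⟩
    have e3 := ed_or (Y := Y) (H := fun y z => t ≤ Om y z ∨ t ≤ Om z y ∨ t < |F.K0 Y y z|)
      (H₁ := fun y z => t ≤ Om y z) (H₂ := fun y z => t ≤ Om z y ∨ t < |F.K0 Y y z|)
      fun _ _ _ _ k => k
    have e4 := ed_or (Y := Y) (H := fun y z => t ≤ Om z y ∨ t < |F.K0 Y y z|)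
      (H₁ := fun y z => t ≤ Om z y) (H₂ := fun y z => t < |F.K0 Y y z|) fun _ _ _ _ k => k
    have e5 := (Nat.cast_le (α := ℝ)).2 (ed_swap Y fun y z => t ≤ Om y z)
    have e6 := le_mul_of_one_le_left
      (Nat.cast_nonneg (α := ℝ) (ed Y fun x y => t < |F.K0 Y x y|)) hN.k_lo
    have e7 := mul_le_mul_of_nonneg_left (e3.trans (add_le_add_right
      (e4.trans (add_le_add_left e5 _)) _)) k0
    have e8 := mul_le_mul_of_nonneg_left (hj.trans (add_le_add (e2.trans (add_le_add_left e6 _)) e7))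
      (pow_pos hN.L_pos 15).le
    rw [e1]
    show N.L ^ 15 * _ ≤ (Y.card : ℝ) ^ 2
    linarith [cntK hN hA hS, cntC hN hA hS, cntO hN hA hS]

end Pool.Agent.MP_ddf486_co.KV
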