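import Pool.Agent.MP_ddf486_co.KV.SpecE

/-! Project KV, row CLA: one cluster in every fibre. -/

set_option autoImplicit false
set_option linter.unusedSectionVars false

noncomputable section

namespace Pool.Agent.MP_ddf486_co.KV

open Finset Pool.Agent.MP_6c3157_co.PD Pool.Agent.MP_6c3157_co.PQ

namespace Cla

/-- a set mapped into `E` with fibres of size at most `k` -/
theorem card_le_of_fib {α β : Type} [DecidableEq β] (B : Finset α) (E : Finset β) (f : α → β)
    (k : ℝ) (hf : ∀ b ∈ B, f b ∈ E)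
    (hk : ∀ e ∈ E, ((B.filter fun b => f b = e).card : ℝ) ≤ k) :
    (B.card : ℝ) ≤ k * E.card := by
  have h := Finset.card_eq_sum_card_fiberwise (s := B) (t := E) (f := f) hf
  rw [h]
  push_cast
  calc ∑ e ∈ E, ((B.filter fun b => f b = e).card : ℝ) ≤ ∑ _e ∈ E, k := Finset.sum_le_sum hk
    _ = k * E.card := by rw [Finset.sum_const, nsmul_eq_mul, mul_comm]

theorem exists_rep {X : Type} (x : X) (D : Finset X) : ∃ r : X, D.Nonempty → r ∈ D := by
  by_cases h : D.Nonempty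
  · obtain ⟨r, hr⟩ := h
    exact ⟨r, fun _ => hr⟩
  · exact ⟨x, fun h' => absurd h' h⟩

end Cla

open Cla in
theorem cla : CLA := by
  classical
  intro X _ lab Y ty ra k hk
  let C : X → ℝ → Finset X := fun x l => Y.filter fun y => y ≠ x ∧ lab x y = l ∧ ty x y
  choose rp hrp using fun (x : X) (l : ℝ) => exists_rep x (C x l)
  let c : X → ℝ → Finset X := fun x l => (C x l).filter fun y => y = rp x l ∨ ¬ ra y (rp x l)
  have hC : ∀ x l y, y ∈ C x l ↔ y ∈ Y ∧ y ≠ x ∧ lab x y = l ∧ ty x y := fun x l y =>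
    Finset.mem_filter
  have hc : ∀ x l y, y ∈ c x l ↔ y ∈ C x l ∧ (y = rp x l ∨ ¬ ra y (rp x l)) := fun x l y =>
    Finset.mem_filter
  refine ⟨c, rp, ⟨?_⟩, ?_, ?_, ?_⟩
  · intro x l y hy
    have h := (hC x l y).1 ((hc x l y).1 hy).1
    exact ⟨h.1, h.2.1, h.2.2.1⟩
  · rintro x l ⟨y, hy⟩
    exact (hc x l _).2 ⟨hrp x l ⟨y, ((hc x l y).1 hy).1⟩, Or.inl rfl⟩
  · intro x l y hy
    have h := (hc x l y).1 hy
    exact ⟨((hC x l y).1 h.1).2.2.2, h.2⟩
  · let B : Finset (X × X) := (Y ×ˢ Y).filter fun e =>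
      e.2 ∈ C e.1 (lab e.1 e.2) ∧ e.2 ≠ rp e.1 (lab e.1 e.2) ∧ ra e.2 (rp e.1 (lab e.1 e.2))
    have hB : ∀ e : X × X, e ∈ B ↔ e ∈ Y ×ˢ Y ∧ e.2 ∈ C e.1 (lab e.1 e.2) ∧
        e.2 ≠ rp e.1 (lab e.1 e.2) ∧ ra e.2 (rp e.1 (lab e.1 e.2)) := fun e => Finset.mem_filter
    have h1 : ed Y (fun x y => y ∉ c x (lab x y)) ≤ ed Y (fun x y => ¬ ty x y) + B.card := by
      unfold ed
      refine le_trans (Finset.card_le_card ?_) (Finset.card_union_le _ _)
      intro e he
      obtain ⟨heY, hne, hn⟩ := (@Finset.mem_filter _ _ (_) _ _).1 he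
      rw [Finset.mem_union]
      by_cases ht : ty e.1 e.2
      · right
        have hm : e.2 ∈ C e.1 (lab e.1 e.2) :=
          (hC _ _ _).2 ⟨(Finset.mem_product.1 heY).2, fun h => hne h.symm, rfl, ht⟩
        have hn' : ¬ (e.2 = rp e.1 (lab e.1 e.2) ∨ ¬ ra e.2 (rp e.1 (lab e.1 e.2))) :=
          fun h => hn ((hc _ _ _).2 ⟨hm, h⟩)
        rw [not_or, not_not] at hn'
        exact (hB e).2 ⟨heY, hm, hn'.1, hn'.2⟩
      · left
        exact (@Finset.mem_filter _ _ (_) _ _).2 ⟨heY, hne, ht⟩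
    have h2 : (B.card : ℝ) ≤ k * ed Y ra := by
      unfold ed
      refine card_le_of_fib B _ (fun e => (e.2, rp e.1 (lab e.1 e.2))) k ?_ ?_
      · intro e he
        obtain ⟨heY, hm, hne, hr⟩ := (hB e).1 he
        rw [Finset.mem_filter, Finset.mem_product]
        exact ⟨⟨(Finset.mem_product.1 heY).2, ((hC _ _ _).1 (hrp _ _ ⟨_, hm⟩)).1⟩, hne, hr⟩
      · intro p hp
        rw [Finset.mem_filter, Finset.mem_product] at hp
        obtain ⟨⟨hy, hz⟩, hne, _⟩ := hp
        refine le_trans ?_ (hk p.1 hy p.2 hz hne)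
        refine Nat.cast_le.2 (Finset.card_le_card_of_injOn (fun e => e.1) ?_ ?_)
        · intro e he
          have he' := Finset.mem_filter.1 (Finset.mem_coe.1 he)
          obtain ⟨heY, hm, _, _⟩ := (hB e).1 he'.1
          have e1 : e.2 = p.1 := congrArg Prod.fst he'.2
          have e2 : rp e.1 (lab e.1 e.2) = p.2 := congrArg Prod.snd he'.2
          have hl := ((hC _ _ _).1 (hrp _ _ ⟨_, hm⟩)).2.2.1
          refine Finset.mem_coe.2 (Finset.mem_filter.2 ⟨(Finset.mem_product.1 heY).1, ?_⟩)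
          rw [← e1, ← e2]
          exact hl.symm
        · intro e he e' he' h
          have a1 : e.2 = p.1 :=
            congrArg Prod.fst (Finset.mem_filter.1 (Finset.mem_coe.1 he)).2
          have a2 : e'.2 = p.1 :=
            congrArg Prod.fst (Finset.mem_filter.1 (Finset.mem_coe.1 he')).2
          exact Prod.ext h (a1.trans a2.symm)
    have h3 : (ed Y (fun x y => y ∉ c x (lab x y)) : ℝ) ≤
        (ed Y (fun x y => ¬ ty x y) : ℝ) + B.card := by exact_mod_cast h1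
    linarith

end Pool.Agent.MP_ddf486_co.KV
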