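import Pool.Agent.MP_ddf486_co.KV.SpecE

/-! Project KV, row DEAD1: the mass of a dead edge. -/

set_option autoImplicit false
set_option linter.unusedSectionVars false

noncomputable section

namespace Pool.Agent.MP_ddf486_co.KV

open Finset

namespace Dead1

variable {X ι : Type} [DecidableEq X] [Fintype ι] {v v' : ι → ℝ} {S : ι → Finset X}

theorem los_mono (h : ∀ i, v' i ≤ v i) (c : Finset X) (x y : X) :
    los v' S c x y ≤ los v S c x y :=
  sum_le_sum fun i _ => by
    split_ifs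
    exacts [mul_le_mul_of_nonneg_right (h i) (Nat.cast_nonneg _), le_rfl]

theorem ob_mono (h : ∀ i, v' i ≤ v i) (x y : X) : ob v' S x y ≤ ob v S x y :=
  sum_le_sum fun i _ => by split_ifs; exacts [h i, le_rfl]

theorem los_nonneg (h : ∀ i, 0 ≤ v i) (c : Finset X) (x y : X) : 0 ≤ los v S c x y :=
  sum_nonneg fun i _ => by
    split_ifs
    exacts [mul_nonneg (h i) (Nat.cast_nonneg _), le_rfl]

theorem prv_nonneg (h : ∀ i, 0 ≤ v i) (a b : ℝ) (c : Finset X) (x y : X) (U : Finset X) :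
    0 ≤ prv v S a b c x y U :=
  sum_nonneg fun i _ => by split_ifs; exacts [h i, le_rfl]

theorem prv_le (h : ∀ i, 0 ≤ v i) (a : ℝ) {ζ : ℝ} (hζ : ζ ≤ 1 / 100) (c : Finset X) (x y : X)
    (U : Finset X) : prv v S a (2 * ζ * c.card) c x y U * c.card ≤ 2 * los v S c x y := by
  unfold prv los
  rw [sum_mul, mul_sum]
  refine sum_le_sum fun i _ => ?_
  have h1 : ((c \ S i).card : ℝ) + (c ∩ S i).card = c.card := by
    exact_mod_cast card_sdiff_add_card_inter c (S i)
  have h2 : (0 : ℝ) ≤ c.card := Nat.cast_nonneg _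
  have h3 := mul_nonneg (h i) (Nat.cast_nonneg (α := ℝ) (c \ S i).card)
  by_cases k : x ∈ S i ∧ y ∈ S i ∧ ((U ∩ S i).card : ℝ) ≤ a ∧
      ((c ∩ S i).card : ℝ) < 2 * ζ * c.card
  · rw [if_pos k, if_pos ⟨k.1, k.2.1⟩]
    have h4 : (c.card : ℝ) ≤ 2 * (c \ S i).card := by nlinarith [k.2.2.2]
    nlinarith [h i]
  · rw [if_neg k, zero_mul]
    split_ifs <;> linarith

end Dead1

open Dead1 in
theorem dead1 (h1 : LEMA) (h2 : NOPR) : DEAD1 := by
  intro X ι _ _ a a' w₀ v S n c x y T ζ d h0 hv z0 z1 hc hT hl hM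
  classical
  have c0 : (0 : ℝ) < c.card := by exact_mod_cast hc.card_pos
  set v₁ : ι → ℝ := fun i => if ((c ∩ S i).card : ℝ) < 2 * ζ * c.card then 0 else v i with e1
  set v₂ : ι → ℝ := fun i => if ((c ∩ S i).card : ℝ) < 2 * ζ * c.card then v i else 0 with e2
  have p1 : ∀ i, 0 ≤ v₁ i := fun i => by simp only [e1]; split_ifs; exacts [le_rfl, hv i]
  have p2 : ∀ i, 0 ≤ v₂ i := fun i => by simp only [e2]; split_ifs; exacts [hv i, le_rfl]
  have p3 : ∀ i, v i = v₁ i + v₂ i := fun i => by simp only [e1, e2]; split_ifs <;> simp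
  have p4 : ∀ i, v₁ i ≤ v i := fun i => by rw [p3]; linarith [p2 i]
  have dn : ∀ U, 0 ≤ dead a (ζ * c.card) c x y U := fun U => by
    unfold dead; split_ifs <;> norm_num
  have l0 := los_nonneg (S := S) hv c x y
  have n0 : (0 : ℝ) ≤ n := Nat.cast_nonneg n
  have d0 : 0 ≤ d := by
    by_contra k
    have := mul_neg_of_neg_of_pos (not_le.1 k) c0
    nlinarith
  have M1 : (1 : ℝ) ≤ max (w₀ + ob v S x y) 1 := le_max_right _ _
  have s1 := it_split (S := S) (T := T) h0 p1 p2 p3 dn n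
  have s2 := h2 X ι a w₀ v₁ S (n + 1) c x y T ζ d h0 p1 z0 z1 hc hT
    (fun i hi => not_lt.1 fun k => hi (by simp only [e1]; exact if_pos k))
    (by
      push_cast
      exact (mul_le_mul_of_nonneg_left (los_mono p4 c x y) (by linarith)).trans hl)
    ((pow_le_pow_left₀ (le_trans zero_le_one (le_max_right _ _))
      (max_le_max (by linarith [ob_mono (S := S) p4 x y]) le_rfl) _).trans hM)
  have s3 := h1 X ι w₀ v S n c x y T (ζ * c.card) h0 hv (mul_pos z0 c0)
  have pr : ∀ U, ((n : ℝ) + 1) * prv v S a (2 * ζ * c.card) c x y U ≤ 2 * d := fun U => by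
    have := mul_le_mul_of_nonneg_left (prv_le (S := S) hv a z1 c x y U) (show 0 ≤ (n : ℝ) + 1 by linarith)
    refine le_of_mul_le_mul_right ?_ c0
    nlinarith
  have s4 : ∀ U ⊆ T, ((n : ℝ) + 1) * op 0 v₂ S (dead a (ζ * c.card) c x y) U ≤
      2 * d * (if x ∈ U ∧ y ∈ U ∧ ζ * c.card ≤ (((c ∩ T) \ U).card : ℝ) then 1 else 0) +
        (2 * d * lo a' x y U + (n + 1) * mirc v S a a' ζ c x y U) := fun U _ => by
    have a1 : op 0 v₂ S (dead a (ζ * c.card) c x y) U ≤
        if x ∈ U ∧ y ∈ U then prv v S a (2 * ζ * c.card) c x y U else 0 := by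
      unfold op
      rw [zero_mul, zero_add]
      split_ifs with k
      · refine sum_le_sum fun i _ => ?_
        unfold dead
        simp only [e2]
        by_cases k1 : ((c ∩ S i).card : ℝ) < 2 * ζ * c.card
        · rw [if_pos k1]
          split_ifs with k2 k3 k3
          · rw [mul_one]
          · exact absurd ⟨(mem_inter.1 k2.1).2, (mem_inter.1 k2.2.1).2, k2.2.2.1, k1⟩ k3
          · rw [mul_zero]; exact hv i
          · rw [mul_zero]
        · rw [if_neg k1, zero_mul, if_neg fun k3 => k1 k3.2.2.2]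
      · refine (sum_eq_zero fun i _ => ?_).le
        unfold dead
        rw [if_neg fun k2 => k ⟨(mem_inter.1 k2.1).1, (mem_inter.1 k2.2.1).1⟩, mul_zero]
    have a2 := mul_le_mul_of_nonneg_left a1 (show 0 ≤ (n : ℝ) + 1 by linarith)
    have b1 : 0 ≤ 2 * d * (if x ∈ U ∧ y ∈ U ∧ ζ * c.card ≤ (((c ∩ T) \ U).card : ℝ) then (1 : ℝ)
        else 0) := by split_ifs <;> linarith
    have b2 : 0 ≤ 2 * d * lo a' x y U := mul_nonneg (by linarith) (lo_nonneg _ _ _ _)
    have b3 : 0 ≤ ((n : ℝ) + 1) * mirc v S a a' ζ c x y U := by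
      refine mul_nonneg (by linarith) ?_
      unfold mirc
      split_ifs
      exacts [prv_nonneg hv _ _ _ _ _ _, le_rfl]
    by_cases k : x ∈ U ∧ y ∈ U
    · rw [if_pos k] at a2
      have a3 := pr U
      by_cases k1 : ((c \ U).card : ℝ) ≤ ζ * c.card
      · by_cases k2 : (U.card : ℝ) ≤ a'
        · have : lo a' x y U = 1 := if_pos ⟨k.1, k.2, k2⟩
          rw [this] at b2 ⊢
          linarith
        · have : mirc v S a a' ζ c x y U = prv v S a (2 * ζ * c.card) c x y U :=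
            if_pos ⟨k.1, k.2, not_le.1 k2, k1⟩
          rw [this]
          linarith
      · rw [if_pos ⟨k.1, k.2, by rw [inter_eq_left.2 hT]; exact (not_le.1 k1).le⟩]
        linarith
    · rw [if_neg k, mul_zero] at a2
      linarith
  have s5 := it_le (S := S) h0 hv n s4
  rw [it_mul, it_add, it_add, it_mul, it_mul, it_mul] at s5
  have s6 : max (w₀ + ob v S x y) 1 ^ n ≤ 2 := (pow_le_pow_right₀ M1 (Nat.le_succ n)).trans hM
  obtain ⟨E, hE⟩ : ∃ E, E = (op w₀ v S)^[n] (fun U =>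
    if x ∈ U ∧ y ∈ U ∧ ζ * c.card ≤ (((c ∩ T) \ U).card : ℝ) then (1 : ℝ) else 0) T := ⟨_, rfl⟩
  rw [← hE] at s3 s5
  have s7 : ζ * E ≤ 2 * d := by
    refine le_of_mul_le_mul_right ?_ c0
    have := mul_le_mul (show n * los v S c x y ≤ d * c.card by linarith) s6
      (pow_nonneg (zero_le_one.trans M1) n) (mul_nonneg d0 c0.le)
    generalize max (w₀ + ob v S x y) 1 ^ n = m at this s3
    linarith
  have z2 : 0 < ζ ^ 2 := by positivity
  have s8 : (op w₀ v₁ S)^[n + 1] (dead a (ζ * c.card) c x y) T + 2 * d * E ≤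
      40 * d ^ 2 / ζ ^ 2 := by
    rw [le_div_iff₀ z2]
    have t1 := mul_le_mul_of_nonneg_left s7 (show 0 ≤ 2 * d * ζ by positivity)
    have t2 : 2 * d * ζ * (2 * d) ≤ 4 * d ^ 2 := by nlinarith [sq_nonneg d]
    nlinarith [sq_nonneg d]
  linarith

end Pool.Agent.MP_ddf486_co.KV
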