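import Pool.Agent.MP_ddf486_co.KV.SpecE2

/-! Project KV, row JK: the mass of the junk, and the total mass in large sets. -/

set_option autoImplicit false
set_option linter.unusedSectionVars false

noncomputable section

namespace Pool.Agent.MP_ddf486_co.KV

open Finset

namespace Jk

variable {X ι : Type} [DecidableEq X] [Fintype ι] {D : Dat X ι}

/-- sum over the edges with a very negative kernel -/
def tl (D : Dat X ι) (g : X → X → ℝ) : ℝ :=
  ∑ x ∈ D.Y, ∑ y ∈ D.Y.erase x, if D.F.K0 D.Y x y < -D.t then g x y else 0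

theorem tl_nonneg {g : X → X → ℝ} (hg : ∀ x y, 0 ≤ g x y) : 0 ≤ tl D g :=
  sum_nonneg fun x _ => sum_nonneg fun y _ => by split_ifs; exacts [hg x y, le_rfl]

theorem tl_sum (c : ℝ) (n : ℕ) (g : ℕ → X → X → ℝ) :
    tl D (fun x y => c * ∑ l ∈ range n, g l x y) = c * ∑ l ∈ range n, tl D (g l) := by
  unfold tl
  rw [sum_comm (s := range n), mul_sum]
  refine sum_congr rfl fun x _ => ?_
  rw [sum_comm (s := range n), mul_sum]
  refine sum_congr rfl fun y _ => ?_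
  split_ifs <;> simp

theorem junk (h : D.Good) {f g : X → X → ℝ} (hg : ∀ x y, 0 ≤ g x y)
    (h1 : ∀ x ∈ D.Y, ∀ y ∈ D.Y, x ≠ y → -D.t ≤ D.F.K0 D.Y x y → f x y ≤ 101 / 100)
    (h2 : ∀ x ∈ D.Y, ∀ y ∈ D.Y, x ≠ y → f x y ≤ g x y)
    (h3 : D.N.L ^ 15 * tl D g ≤ (D.Y.card : ℝ) ^ 2) :
    D.N.L ^ 14 * D.sj f ≤ (D.Y.card : ℝ) ^ 2 := by
  have e : D.sj f ≤ 101 / 100 * D.sj (fun _ _ => 1) + tl D g := by
    unfold Dat.sj tl
    rw [mul_sum, ← sum_add_distrib]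
    refine sum_le_sum fun x hx => ?_
    rw [mul_sum, ← sum_add_distrib]
    refine sum_le_sum fun y hy => ?_
    obtain ⟨e, hy⟩ := mem_erase.1 hy
    have := hg x y
    have := h2 x hx y hy e.symm
    split_ifs with k1 k2 k2
    · linarith
    · linarith
    · linarith
    · linarith [h1 x hx y hy e.symm (not_lt.1 k2)]
  have a1 := mul_le_mul_of_nonneg_left e (pow_pos h.nb.L_pos 15).le
  have a2 := h.junk
  have a3 := mul_le_mul_of_nonneg_right h.nb.L_big (sq_nonneg (D.Y.card : ℝ))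
  have a4 := sq_nonneg (D.Y.card : ℝ)
  refine le_of_mul_le_mul_left ?_ h.nb.L_pos
  have a5 : D.N.L * (D.N.L ^ 14 * D.sj f) = D.N.L ^ 15 * D.sj f := by ring
  rw [a5]
  linarith

theorem E_nonneg (h : D.Good) (a : ℝ) (n : ℕ) (x y : X) : 0 ≤ D.E n (hi a x y) D.Y :=
  it_nonneg h.w0_nonneg h.v_nonneg n fun _ _ => hi_nonneg _ _ _ _

theorem E_le (h : D.Good) (a : ℝ) {n : ℕ} (hn : n ≤ 2 ^ 32 * D.N.j) {x y : X} (hx : x ∈ D.Y)
    (hy : y ∈ D.Y) (e : x ≠ y) (hK : -D.t ≤ D.F.K0 D.Y x y) : D.E n (hi a x y) D.Y ≤ 101 / 100 := by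
  have e1 := it_pair (w₀ := D.w0) (v := D.v) (S := D.F.S) (T := D.Y) x y n
  rw [if_pos ⟨hx, hy⟩, mul_one] at e1
  have e2 : D.E n (hi a x y) D.Y ≤ (D.w0 + ob D.v D.F.S x y) ^ n := by
    rw [ob, ← e1]
    exact it_le h.w0_nonneg h.v_nonneg n fun U _ => by
      linarith [hi_add_lo a x y U, lo_nonneg a x y U]
  have e3 : 0 ≤ D.w0 + ob D.v D.F.S x y := by
    rw [D.ob_eq]
    exact h.st.o_nonneg h.nb h.am x y
  exact e2.trans ((pow_le_pow_left₀ e3 (le_max_left _ _) n).trans (h.pow_hi hx hy e hK hn))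

theorem steps (h : D.Good) {n : ℕ} (hn : n ≤ 2 ^ 32 * D.N.j) :
    n * (2 * D.W / D.N.Wt D.t) ≤ D.N.L ^ 5 := by
  have a1 : 2 * D.W / D.N.Wt D.t ≤ 2 * D.N.L ^ 5 * D.t / D.N.Wt D.t :=
    div_le_div_of_nonneg_right (by linarith [h.st.t_lo]) h.Wt_pos.le
  rw [h.st.unit h.nb h.am] at a1
  have a2 := (h.nb.steps hn).2.2
  have a3 : n * (2 * D.N.L ^ 5 * D.N.u ^ 400 / D.N.j) =
      D.N.L ^ 5 / 21 * (n * (42 * D.N.u ^ 400 / D.N.j)) := by ring
  have a4 := mul_le_mul_of_nonneg_left a1 (Nat.cast_nonneg n)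
  have a5 := pow_pos h.nb.L_pos 5
  have a6 := mul_le_mul_of_nonneg_left a2 (show 0 ≤ D.N.L ^ 5 / 21 by positivity)
  linarith

end Jk

theorem jk (h1 : STOP) (h2 : TAIL) : JK := by
  intro X ι _ _ D a n h ha hn
  have tail : ∀ l ≤ n, (D.N.q : ℝ) ^ 100 * Jk.tl D (fun x y => D.E l (hi a x y) D.Y) ≤
      (D.Y.card : ℝ) ^ 2 := fun l hl =>
    h2 _ _ _ _ _ _ _ _ _ _ _ _ _ _ _ _ a l h.nb h.am h.st ha (hl.trans hn)
  have q1 : (D.N.q : ℝ) ≤ (D.N.q : ℝ) ^ 100 := by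
    simpa using h.nb.q_pow_le (show 1 ≤ 100 by norm_num)
  have Lq : ∀ b ≤ 30, D.N.L ^ b ≤ (D.N.q : ℝ) ^ 100 := fun b hb =>
    (h.nb.L_pow_le hb).trans (h.nb.Lq.trans q1)
  have t0 := Jk.tl_nonneg (D := D) (Jk.E_nonneg h a n)
  refine ⟨fun hY => ?_, ?_, ?_⟩
  · have c0 : 0 ≤ 2 * D.W / D.N.Wt D.t := div_nonneg (by linarith [h.am.W_lo]) h.Wt_pos.le
    have g0 : ∀ x y, 0 ≤ 2 * D.W / D.N.Wt D.t * ∑ l ∈ range n, D.E l (hi a x y) D.Y :=
      fun x y => mul_nonneg c0 (sum_nonneg fun l _ => Jk.E_nonneg h a l x y)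
    refine Jk.junk h g0 (fun x hx y hy e hK => ?_) (fun x hx y hy e => ?_) ?_
    · exact (h1 _ _ a _ _ _ n x y D.Y h.w0_nonneg h.v_nonneg).2.2.2.trans (h.pow_hi hx hy e hK hn)
    · refine (h1 _ _ a _ _ _ n x y D.Y h.w0_nonneg h.v_nonneg).2.2.1.trans ?_
      rw [lo, if_neg fun k => absurd k.2.2 (not_le.2 hY), zero_add, D.ob_eq]
      exact mul_le_mul_of_nonneg_right (div_le_div_of_nonneg_right
        (h.am.ob x (h.st.sub hx) y (h.st.sub hy) e) h.Wt_pos.le)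
        (sum_nonneg fun l _ => Jk.E_nonneg h a l x y)
    · have b0 := Jk.tl_nonneg (D := D) g0
      rw [Jk.tl_sum _ n fun l x y => D.E l (hi a x y) D.Y] at b0 ⊢
      have b1 := sum_le_card_nsmul (range n) _ _ fun l hl => tail l (mem_range.1 hl).le
      rw [← mul_sum, card_range, nsmul_eq_mul] at b1
      have b2 := mul_le_mul_of_nonneg_left b1 c0
      have b3 := mul_le_mul_of_nonneg_right (Jk.steps h hn) (sq_nonneg (D.Y.card : ℝ))
      have b4 := mul_le_mul_of_nonneg_right (Lq 20 (by norm_num)) b0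
      refine le_of_mul_le_mul_left ?_ (pow_pos h.nb.L_pos 5)
      rw [← mul_assoc, ← pow_add]
      linarith
  · exact Jk.junk h (Jk.E_nonneg h a n) (fun x hx y hy e hK => Jk.E_le h a hn hx hy e hK)
      (fun _ _ _ _ _ => le_rfl)
      ((mul_le_mul_of_nonneg_right (Lq 15 (by norm_num)) t0).trans (tail n le_rfl))
  · have e : ∑ x ∈ D.Y, ∑ y ∈ D.Y.erase x, D.E n (hi a x y) D.Y ≤
        ∑ _x ∈ D.Y, 101 / 100 * (D.Y.card : ℝ) + Jk.tl D fun x y => D.E n (hi a x y) D.Y := by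
      unfold Jk.tl
      rw [← sum_add_distrib]
      refine sum_le_sum fun x hx => ?_
      have c1 : ∑ _y ∈ D.Y.erase x, (101 / 100 : ℝ) ≤ 101 / 100 * (D.Y.card : ℝ) := by
        rw [sum_const, nsmul_eq_mul, mul_comm]
        exact mul_le_mul_of_nonneg_left (Nat.cast_le.2 card_erase_le) (by norm_num)
      refine le_trans ?_ (add_le_add c1 le_rfl)
      rw [← sum_add_distrib]
      refine sum_le_sum fun y hy => ?_
      obtain ⟨e, hy⟩ := mem_erase.1 hy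
      split_ifs with k
      · linarith
      · linarith [Jk.E_le h a hn hx hy e.symm (not_lt.1 k)]
    rw [sum_const, nsmul_eq_mul] at e
    have b1 := mul_le_mul_of_nonneg_right (h.nb.q_big.trans q1) t0
    have b2 := tail n le_rfl
    nlinarith [sq_nonneg (D.Y.card : ℝ)]

end Pool.Agent.MP_ddf486_co.KV
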