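import Pool.Agent.MP_ddf486_co.KV.SpecE

/-! Project KV, rows LEMA and NOPR: the loss of a cluster along the cutting process. -/

set_option autoImplicit false
set_option linter.unusedSectionVars false

noncomputable section

namespace Pool.Agent.MP_ddf486_co.KV

open Finset

section

variable {X ι : Type} [DecidableEq X] [Fintype ι] {w₀ : ℝ} {v : ι → ℝ} {S : ι → Finset X}

/-- the number of lost points of `c`, plus `k`, on the sets that hold the pair -/
def gl (c : Finset X) (x y : X) (k : ℝ) (U : Finset X) : ℝ :=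
  if x ∈ U ∧ y ∈ U then ((c \ U).card : ℝ) + k else 0

theorem gl_nonneg (c : Finset X) (x y : X) {k : ℝ} (hk : 0 ≤ k) (U : Finset X) :
    0 ≤ gl c x y k U := by
  unfold gl; split_ifs
  · positivity
  · exact le_rfl

theorem los_pos (hv : ∀ i, 0 ≤ v i) (c : Finset X) (x y : X) : 0 ≤ los v S c x y :=
  sum_nonneg fun i _ => by
    split_ifs
    · exact mul_nonneg (hv i) (Nat.cast_nonneg _)
    · exact le_rfl

theorem gl_step (hv : ∀ i, 0 ≤ v i) {c c' : Finset X} (hc : c' ⊆ c) (x y : X) {k : ℝ}
    (hk : 0 ≤ k) (T : Finset X) :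
    w₀ * gl c' x y k T + ∑ i, v i * gl c' x y k (T ∩ S i) ≤
      max (w₀ + ob v S x y) 1 * gl c' x y (k + los v S c x y) T := by
  by_cases h : x ∈ T ∧ y ∈ T
  · have h1 : ∑ i, v i * gl c' x y k (T ∩ S i) ≤
        ob v S x y * (((c' \ T).card : ℝ) + k) + los v S c x y := by
      unfold ob los
      rw [sum_mul, ← sum_add_distrib]
      refine sum_le_sum fun i _ => ?_
      unfold gl
      by_cases u : x ∈ S i ∧ y ∈ S i
      · rw [if_pos u, if_pos u, if_pos ⟨mem_inter.2 ⟨h.1, u.1⟩, mem_inter.2 ⟨h.2, u.2⟩⟩, ← mul_add]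
        refine mul_le_mul_of_nonneg_left ?_ (hv i)
        have : (c' \ (T ∩ S i)).card ≤ (c' \ T).card + (c \ S i).card := by
          refine (card_le_card ?_).trans (card_union_le _ _)
          intro z hz
          simp only [mem_sdiff, mem_inter, mem_union] at hz ⊢
          by_cases a : z ∈ T
          · exact Or.inr ⟨hc hz.1, fun b => hz.2 ⟨a, b⟩⟩
          · exact Or.inl ⟨hz.1, a⟩
        have : ((c' \ (T ∩ S i)).card : ℝ) ≤ (c' \ T).card + (c \ S i).card := by exact_mod_cast this
        linarith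
      · rw [if_neg u, if_neg u, if_neg fun a => u ⟨(mem_inter.1 a.1).2, (mem_inter.1 a.2).2⟩]
        simp
    have h2 : gl c' x y k T = ((c' \ T).card : ℝ) + k := if_pos h
    have h3 : gl c' x y (k + los v S c x y) T = ((c' \ T).card : ℝ) + (k + los v S c x y) :=
      if_pos h
    have h4 := mul_le_mul_of_nonneg_right (le_max_left (w₀ + ob v S x y) 1)
      (by positivity : 0 ≤ ((c' \ T).card : ℝ) + k)
    have h5 := mul_le_mul_of_nonneg_right (le_max_right (w₀ + ob v S x y) 1)
      (los_pos (S := S) hv c x y)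
    rw [h2, h3]
    linarith
  · have h1 : ∀ i, gl c' x y k (T ∩ S i) = 0 := fun i =>
      if_neg fun a => h ⟨(mem_inter.1 a.1).1, (mem_inter.1 a.2).1⟩
    have h2 : ∀ k, gl c' x y k T = 0 := fun k => if_neg h
    simp [h1, h2]

theorem it_gl (h0 : 0 ≤ w₀) (hv : ∀ i, 0 ≤ v i) {c c' : Finset X} (hc : c' ⊆ c) (x y : X) (n : ℕ)
    (T : Finset X) : (op w₀ v S)^[n] (gl c' x y 0) T ≤
      max (w₀ + ob v S x y) 1 ^ n * gl c' x y (n * los v S c x y) T := by
  induction n generalizing T with
  | zero => simp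
  | succ n ih =>
    have hM : 0 ≤ max (w₀ + ob v S x y) 1 ^ n := by positivity
    have h1 := mul_le_mul_of_nonneg_left (gl_step (w₀ := w₀) (S := S) hv hc x y
      (mul_nonneg (Nat.cast_nonneg n) (los_pos (S := S) hv c x y)) T) hM
    rw [it_succ, pow_succ, mul_assoc]
    push_cast
    rw [add_mul, one_mul]
    refine le_trans ?_ h1
    rw [mul_add, mul_sum]
    refine add_le_add ?_ (sum_le_sum fun i _ => ?_)
    · rw [mul_left_comm]; exact mul_le_mul_of_nonneg_left (ih T) h0
    · rw [mul_left_comm]; exact mul_le_mul_of_nonneg_left (ih _) (hv i)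

end

theorem lema : LEMA := by
  classical
  intro X ι _ _ w₀ v S n c x y T θ h0 hv hθ
  rw [← it_mul]
  refine (it_le (g := gl (c ∩ T) x y 0) h0 hv n fun U _ => ?_).trans
    ((it_gl h0 hv inter_subset_left x y n T).trans ?_)
  · by_cases h : x ∈ U ∧ y ∈ U ∧ θ ≤ (((c ∩ T) \ U).card : ℝ)
    · rw [if_pos h, gl, if_pos ⟨h.1, h.2.1⟩]
      linarith [h.2.2]
    · rw [if_neg h, mul_zero]
      exact gl_nonneg _ _ _ le_rfl _
  · rw [mul_comm]
    refine mul_le_mul_of_nonneg_right ?_ (by positivity)
    unfold gl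
    split_ifs
    · rw [sdiff_eq_empty_iff_subset.2 inter_subset_right]
      simp
    · exact mul_nonneg (Nat.cast_nonneg n) (los_pos hv c x y)

theorem nopr (h : LEMA) : NOPR := by
  classical
  intro X ι _ _ a w₀ v S n c x y T ζ d h0 hv hζ hζ1 hc hcT hS hd hM
  have hN : (0 : ℝ) < c.card := Nat.cast_pos.2 hc.card_pos
  have hL := los_pos (S := S) hv c x y
  have hM1 : 1 ≤ max (w₀ + ob v S x y) 1 := le_max_right _ _
  obtain ⟨θ, hθ⟩ : ∃ θ : ℝ, θ = ζ * c.card / 2 := ⟨_, rfl⟩
  have hθ0 : 0 < θ := by rw [hθ]; positivity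
  have hK : 0 ≤ d * c.card := (mul_nonneg (Nat.cast_nonneg n) hL).trans hd
  have hsplit : ∀ U : Finset X, ((c \ U).card : ℝ) + (c ∩ U).card = c.card := fun U => by
    exact_mod_cast card_sdiff_add_card_inter c U
  have hz : ∀ (l : ℕ) (U : Finset X), ¬(x ∈ U ∧ y ∈ U) →
      (op w₀ v S)^[l] (dead a (ζ * c.card) c x y) U ≤ 0 := fun l U hU => by
    refine (it_le (g := fun _ => 0) h0 hv l fun V hV => ?_).trans (it_zero l).le
    exact (if_neg fun k => hU ⟨hV k.1, hV k.2.1⟩).le
  have s1 : ∀ l ≤ n, ∀ U : Finset X, 3 * θ ≤ ((c ∩ U).card : ℝ) →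
      θ * (op w₀ v S)^[l] (dead a (ζ * c.card) c x y) U ≤ 2 * (d * c.card) := fun l hl U hU => by
    refine le_trans (mul_le_mul_of_nonneg_left (it_le h0 hv l fun V _ => ?_) hθ0.le)
      ((h X ι w₀ v S l c x y U θ h0 hv hθ0).trans ?_)
    · unfold dead
      by_cases k : x ∈ V ∧ y ∈ V ∧ (V.card : ℝ) ≤ a ∧ ((c ∩ V).card : ℝ) < ζ * c.card
      · rw [if_pos k, if_pos]
        refine ⟨k.1, k.2.1, ?_⟩
        have e1 : (c ∩ U).card ≤ ((c ∩ U) \ V).card + (c ∩ V).card := by
          refine (card_le_card ?_).trans (card_union_le _ _)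
          intro z hz
          simp only [mem_sdiff, mem_inter, mem_union] at hz ⊢
          by_cases b : z ∈ V
          · exact Or.inr ⟨hz.1, b⟩
          · exact Or.inl ⟨hz, b⟩
        have e2 : ((c ∩ U).card : ℝ) ≤ ((c ∩ U) \ V).card + (c ∩ V).card := by exact_mod_cast e1
        linarith [k.2.2.2]
      · rw [if_neg k]
        split_ifs <;> norm_num
    · have e1 : (l : ℝ) * los v S c x y ≤ d * c.card :=
        (mul_le_mul_of_nonneg_right (Nat.cast_le.2 hl) hL).trans hd
      have e2 := (pow_le_pow_right₀ hM1 hl).trans hM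
      rw [mul_comm 2]
      exact mul_le_mul e1 e2 (by positivity) hK
  have s2 : ∀ l ≤ n, ∀ U : Finset X, 3 * θ ≤ ((c ∩ U).card : ℝ) →
      θ * (θ * (op w₀ v S)^[l] (dead a (ζ * c.card) c x y) U) ≤
        2 * (d * c.card) * max (w₀ + ob v S x y) 1 ^ l * gl c x y (l * los v S c x y) U := by
    intro l
    induction l with
    | zero =>
      intro _ U hU
      have e : dead a (ζ * c.card) c x y U = 0 := if_neg fun k => by linarith [k.2.2.2]
      rw [Function.iterate_zero_apply, e, mul_zero, mul_zero]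
      exact mul_nonneg (by positivity) (gl_nonneg _ _ _ (by simp) _)
    | succ l ih =>
      intro hl U hU
      have hlL : 0 ≤ (l : ℝ) * los v S c x y := mul_nonneg (Nat.cast_nonneg l) hL
      by_cases hb : θ ≤ ((c \ U).card : ℝ)
      · by_cases k : x ∈ U ∧ y ∈ U
        · have e1 := mul_le_mul_of_nonneg_left (s1 _ hl U hU) hθ0.le
          have e2 : θ ≤ gl c x y (((l + 1 : ℕ) : ℝ) * los v S c x y) U := by
            rw [gl, if_pos k]
            exact hb.trans (le_add_of_nonneg_right (mul_nonneg (Nat.cast_nonneg _) hL))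
          have e3 : 2 * (d * c.card) ≤ 2 * (d * c.card) * max (w₀ + ob v S x y) 1 ^ (l + 1) :=
            le_mul_of_one_le_right (by positivity) (one_le_pow₀ hM1)
          refine e1.trans ?_
          rw [mul_comm θ]
          exact mul_le_mul e3 e2 hθ0.le (by positivity)
        · refine (mul_nonpos_of_nonneg_of_nonpos hθ0.le
            (mul_nonpos_of_nonneg_of_nonpos hθ0.le (hz _ U k))).trans ?_
          exact mul_nonneg (by positivity) (gl_nonneg _ _ _ (mul_nonneg (Nat.cast_nonneg _) hL) _)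
      · have e1 := mul_le_mul_of_nonneg_left (gl_step (w₀ := w₀) (S := S) hv (Subset.refl c) x y
          hlL U) (by positivity : 0 ≤ 2 * (d * c.card) * max (w₀ + ob v S x y) 1 ^ l)
        rw [it_succ, pow_succ, ← mul_assoc (2 * (d * c.card)), mul_assoc _ (max _ _)]
        push_cast
        rw [add_mul (l : ℝ), one_mul]
        refine le_trans ?_ e1
        simp only [mul_add, mul_sum]
        refine add_le_add ?_ (sum_le_sum fun i _ => ?_)
        · have := mul_le_mul_of_nonneg_left (ih (Nat.le_of_succ_le hl) U hU) h0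
          linarith
        · by_cases u : v i = 0
          · simp [u]
          · have e2 : (c ∩ S i).card ≤ (c \ U).card + (c ∩ (U ∩ S i)).card := by
              refine (card_le_card ?_).trans (card_union_le _ _)
              intro z hz
              simp only [mem_sdiff, mem_inter, mem_union] at hz ⊢
              by_cases b : z ∈ U
              · exact Or.inr ⟨hz.1, b, hz.2⟩
              · exact Or.inl ⟨hz.1, b⟩
            have e3 : ((c ∩ S i).card : ℝ) ≤ (c \ U).card + (c ∩ (U ∩ S i)).card := by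
              exact_mod_cast e2
            have e4 := hS i u
            have := mul_le_mul_of_nonneg_left
              (ih (Nat.le_of_succ_le hl) (U ∩ S i) (by linarith [not_le.1 hb])) (hv i)
            linarith
  have f1 := s2 n le_rfl T (by
    rw [inter_eq_left.2 hcT, hθ]
    nlinarith [mul_le_mul_of_nonneg_right hζ1 hN.le])
  have f2 : gl c x y (n * los v S c x y) T ≤ d * c.card := by
    unfold gl
    split_ifs
    · rw [sdiff_eq_empty_iff_subset.2 hcT]
      simpa using hd
    · exact hK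
  have f3 : 2 * (d * c.card) * max (w₀ + ob v S x y) 1 ^ n * gl c x y (n * los v S c x y) T ≤
      2 * (d * c.card) * 2 * (d * c.card) :=
    mul_le_mul (mul_le_mul_of_nonneg_left hM (by positivity)) f2
      (gl_nonneg _ _ _ (mul_nonneg (Nat.cast_nonneg _) hL) _) (by positivity)
  have f4 := f1.trans f3
  rw [hθ] at f4
  refine le_of_mul_le_mul_left ?_ (by positivity : 0 < (c.card : ℝ) ^ 2 / 4)
  linarith

end Pool.Agent.MP_ddf486_co.KV
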