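import Pool.Agent.MP_ddf486_co.KV.SpecE2

/-! Project KV, row LOS1: the lossless step, lower bound. -/

set_option autoImplicit false
set_option linter.unusedSectionVars false

noncomputable section

namespace Pool.Agent.MP_ddf486_co.KV

open Finset Pool.Agent.MP_6c3157_co.PD Pool.Agent.MP_6c3157_co.PQ

namespace Los1

variable {X ι : Type} [DecidableEq X] [Fintype ι] {D : Dat X ι} {n : ℕ} {x y : X} {T : Finset X}

open Classical in
/-- many points are close to the edge -/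
def bad (D : Dat X ι) (x y : X) : Prop :=
  D.Z.card ^ 9 < (D.Z.filter fun z => D.F.DB x y z ≤ D.N.u ^ 10 * D.W).card ^ 10

open Classical in
/-- indicator of the fine edges -/
def chi (D : Dat X ι) (x y : X) : ℝ := if y ∈ D.cl x y ∧ ¬ bad D x y then 1 else 0

open Classical in
/-- minus the indicator of the far points -/
def xi (D : Dat X ι) (x y z : X) : ℝ := if D.N.u ^ 10 * D.W < D.F.DB x y z then -1 else 0

/-- the three points survive -/
def tr (x y z : X) (T : Finset X) : ℝ := if x ∈ T ∧ y ∈ T ∧ z ∈ T then 1 else 0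

/-- the test function of an edge -/
def term (D : Dat X ι) (x y : X) (T : Finset X) : ℝ :=
  chi D x y * (hi D.N.s x y T + ∑ z ∈ D.Y, xi D x y z * tr x y z T)

theorem xt_le (D : Dat X ι) (x y z : X) (T : Finset X) : xi D x y z * tr x y z T ≤ 0 := by
  unfold xi tr
  split_ifs <;> norm_num

theorem term_le (D : Dat X ι) (x y : X) (T : Finset X) : term D x y T ≤ hi D.N.s x y T := by
  have h1 : ∑ z ∈ D.Y, xi D x y z * tr x y z T ≤ 0 := sum_nonpos fun z _ => xt_le D x y z T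
  have h2 := hi_nonneg D.N.s x y T
  unfold term chi
  split_ifs <;> linarith

theorem term_big (h : D.Good) (hT : T ⊆ D.Y) (hb : D.Z.card ^ 19 < T.card ^ 20) :
    term D x y T ≤ 0 := by
  classical
  by_cases hxy : x ∈ T ∧ y ∈ T
  swap
  · refine (term_le D x y T).trans ?_
    unfold hi
    rw [if_neg fun k => hxy ⟨k.1, k.2.1⟩]
  unfold term chi
  split_ifs with hf
  swap
  · rw [zero_mul]
  have hZ : T ⊆ D.Z := hT.trans h.st.sub
  obtain ⟨z, hz, hd⟩ : ∃ z ∈ T, D.N.u ^ 10 * D.W < D.F.DB x y z := by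
    by_contra k
    push Not at k
    have h1 : T.card ≤ (D.Z.filter fun z => D.F.DB x y z ≤ D.N.u ^ 10 * D.W).card :=
      card_le_card fun z hz => mem_filter.2 ⟨hZ hz, k z hz⟩
    have h2 := (Nat.pow_le_pow_left h1 10).trans (not_lt.1 hf.2)
    have h3 := Nat.pow_le_pow_left h2 2
    rw [← pow_mul, ← pow_mul] at h3
    have h4 : D.Z.card ^ (9 * 2) ≤ D.Z.card ^ 19 :=
      Nat.pow_le_pow_right (card_pos.2 ⟨x, hZ hxy.1⟩) (by norm_num)
    exact absurd (h3.trans h4) (not_le.2 hb)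
  have h1 := single_le_sum (f := fun z => -(xi D x y z * tr x y z T))
    (fun z _ => neg_nonneg.2 (xt_le D x y z T)) (hT hz)
  have h2 : xi D x y z * tr x y z T = -1 := by
    unfold xi tr
    rw [if_pos hd, if_pos ⟨hxy.1, hxy.2, hz⟩, mul_one]
  have h3 : hi D.N.s x y T ≤ 1 := by
    unfold hi
    split_ifs <;> norm_num
  rw [sum_neg_distrib] at h1
  simp only [h2] at h1
  linarith

theorem pairs (hT : T ⊆ D.Y) :
    (∑ x ∈ D.Y, ∑ y ∈ D.Y.erase x, if x ∈ T ∧ y ∈ T then (1 : ℝ) else 0) = Pr T := by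
  have e : ∀ x ∈ D.Y, (∑ y ∈ D.Y.erase x, if x ∈ T ∧ y ∈ T then (1 : ℝ) else 0) =
      if x ∈ T then (T.card : ℝ) - 1 else 0 := fun x _ => by
    by_cases hx : x ∈ T
    · simp only [hx, true_and, if_true]
      rw [sum_boole, filter_mem_eq_inter, erase_inter, inter_eq_right.2 hT,
        cast_card_erase_of_mem hx]
    · simp [hx]
  rw [sum_congr rfl e, ← sum_filter, filter_mem_eq_inter, inter_eq_right.2 hT, sum_const,
    nsmul_eq_mul, Pr]

theorem point (h : D.Good) (hT : T ⊆ D.Y) :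
    (1 + 100 * D.N.u) * D.N.ψ * ∑ x ∈ D.Y, ∑ y ∈ D.Y.erase x, term D x y T ≤ D.ph T := by
  have c0 : 0 ≤ (1 + 100 * D.N.u) * D.N.ψ :=
    mul_nonneg (by linarith [h.nb.u_pos]) h.nb.psi_pos.le
  unfold Dat.ph
  split_ifs with hs
  · rcases le_or_gt (T.card ^ 20) (D.Z.card ^ 19) with hb | hb
    · refine le_trans (mul_le_mul_of_nonneg_left ?_ c0) (h.pot.ih T (hT.trans h.st.sub) hb)
      rw [← pairs hT]
      refine sum_le_sum fun x _ => sum_le_sum fun y _ => (term_le D x y T).trans ?_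
      linarith [hi_add_lo D.N.s x y T, lo_nonneg D.N.s x y T]
    · refine le_trans (mul_nonpos_of_nonneg_of_nonpos c0
        (sum_nonpos fun x _ => sum_nonpos fun y _ => term_big h hT hb)) ?_
      have k0 : 0 ≤ D.N.κ := zero_le_one.trans h.nb.one_le_ka
      refine sum_nonneg fun x _ => sum_nonneg fun y _ => div_nonneg ?_ (Nat.cast_nonneg _)
      exact le_min (Nat.cast_nonneg _) (mul_nonneg k0 (Real.sqrt_nonneg _))
  · refine mul_nonpos_of_nonneg_of_nonpos c0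
      (sum_nonpos fun x _ => sum_nonpos fun y _ => (term_le D x y T).trans ?_)
    unfold hi
    rw [if_neg fun k => hs k.2.2]

theorem E_term (D : Dat X ι) (n : ℕ) (x y : X) : D.E n (term D x y) D.Y = chi D x y *
    (D.E n (hi D.N.s x y) D.Y + ∑ z ∈ D.Y, xi D x y z * D.E n (tr x y z) D.Y) := by
  unfold Dat.E term
  rw [it_mul, it_add, it_sum]
  simp only [it_mul]

theorem n_le (hn : Nl D n) : n ≤ 2 ^ 32 * D.N.j := by
  have := hn.le
  omega

theorem o_pow (h : D.Good) (hn : Nl D n) (hx : x ∈ D.Y) (hy : y ∈ D.Y) (e : x ≠ y)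
    (hK : D.F.K0 D.Y x y ≤ D.t) : 1 - D.N.u ^ 2 ≤ (D.w0 + ob D.v D.F.S x y) ^ n := by
  obtain ⟨a0, a1, -⟩ := h.nb.steps (n_le hn)
  have h1 := h.st.o_lo h.nb h.am hx hy e hK
  rw [← D.ob_eq] at h1
  have h2 : 1 + -(42 * D.N.u ^ 400 / D.N.j) ≤ D.w0 + ob D.v D.F.S x y := by
    unfold Dat.w0; linarith
  refine le_trans ?_ (pow_le_pow_left₀ (by linarith) h2 n)
  refine le_trans ?_ (one_add_mul_le_pow (by linarith) n)
  have h3 : n * (42 * D.N.u ^ 400 / D.N.j) ≤ D.N.u ^ 2 := by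
    rw [← h.st.unit h.nb h.am, ← mul_div_assoc, div_le_iff₀ h.Wt_pos]
    have b0 : 0 ≤ n * D.t := mul_nonneg (Nat.cast_nonneg n) h.t_pos.le
    have b1 := mul_le_mul_of_nonneg_left hn.hi (sq_nonneg D.N.u)
    have b2 : 1 * 1 ≤ D.N.u ^ 2 * D.N.L * D.N.L :=
      mul_le_mul (h.nb.uL' (by norm_num)) h.nb.one_le_L zero_le_one
        (mul_nonneg (sq_nonneg _) h.nb.L_pos.le)
    have b3 := mul_le_mul_of_nonneg_right b2 b0
    linarith
  linarith

theorem lo_le (hm : MORE) (h : D.Good) (hn : Nl D n) (hx : x ∈ D.Y) (hy : y ∈ D.Y) (e : x ≠ y)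
    (hK : D.F.K0 D.Y x y ≤ D.t) :
    D.E n (lo D.N.s x y) D.Y ≤ 2 * D.E D.N.j (lo D.N.s x y) D.Y := by
  have h1 := (hm X ι D.N.s D.w0 D.v D.F.S n x y D.Y h.w0_nonneg h.v_nonneg).1 (D.N.j - n)
  rw [Nat.add_sub_cancel' hn.le] at h1
  have h2 := h.pow_lo hx hy e hK (n := D.N.j - n) (by omega)
  have h0 : 0 ≤ D.w0 + ob D.v D.F.S x y := by
    rw [D.ob_eq]; exact h.st.o_nonneg h.nb h.am x y
  have h3 := h2.trans (pow_le_pow_left₀ (le_min h0 zero_le_one) (min_le_left _ _) _)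
  have h4 : 0 ≤ D.E n (lo D.N.s x y) D.Y :=
    it_nonneg h.w0_nonneg h.v_nonneg n fun U _ => lo_nonneg _ _ _ U
  have h5 := (mul_le_mul_of_nonneg_right h3 h4).trans h1
  unfold Dat.E at h4 h5 ⊢
  linarith

theorem tr_le (h : D.Good) (hn : Nl D n) (hx : x ∈ D.Y) (hy : y ∈ D.Y) (e : x ≠ y)
    (hK : -D.t ≤ D.F.K0 D.Y x y) (z : X) :
    -Real.exp (1 - 4 * D.N.L) ≤ xi D x y z * D.E n (tr x y z) D.Y := by
  unfold xi
  split_ifs with hd
  swap
  · rw [zero_mul]; exact neg_nonpos.2 (Real.exp_pos _).le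
  rw [neg_one_mul, neg_le_neg_iff]
  obtain ⟨a0, -, a2⟩ := h.nb.steps (n_le hn)
  have h0 : 0 ≤ D.w0 + ∑ i, if x ∈ D.F.S i ∧ y ∈ D.F.S i ∧ z ∈ D.F.S i then D.v i else 0 :=
    add_nonneg h.w0_nonneg (sum_nonneg fun i _ => by split_ifs; exacts [h.v_nonneg i, le_rfl])
  have h1 := h.st.o_hi h.nb h.am hx hy e hK
  rw [← D.ob_eq] at h1
  have h2 : D.N.u ^ 10 * D.W / D.N.Wt D.t ≤ D.F.DB x y z / D.N.Wt D.t :=
    div_le_div_of_nonneg_right hd.le h.Wt_pos.le
  have h3 : (D.w0 + ∑ i, if x ∈ D.F.S i ∧ y ∈ D.F.S i ∧ z ∈ D.F.S i then D.v i else 0) ≤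
      Real.exp (42 * D.N.u ^ 400 / D.N.j - D.N.u ^ 10 * D.W / D.N.Wt D.t) := by
    refine le_trans ?_ (Real.add_one_le_exp _)
    rw [D.tri_eq]
    unfold Dat.w0
    linarith
  have h4 : 4 * D.N.L ≤ n * (D.N.u ^ 10 * D.W / D.N.Wt D.t) := by
    rw [← mul_div_assoc, le_div_iff₀ h.Wt_pos]
    exact hn.lo
  have h5 := pow_le_pow_left₀ h0 h3 n
  rw [← Real.exp_nat_mul, mul_sub] at h5
  have h6 := h5.trans (Real.exp_le_exp.2 (show _ ≤ 1 - 4 * D.N.L by linarith))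
  unfold Dat.E tr
  rw [it_triple]
  split_ifs
  · rwa [mul_one]
  · rw [mul_zero]; exact (Real.exp_pos _).le

theorem tr_sum (h : D.Good) : D.Y.card * Real.exp (1 - 4 * D.N.L) ≤ D.N.u ^ 2 := by
  have h1 : (D.Y.card : ℝ) ≤ Real.exp D.N.L :=
    le_trans (by exact_mod_cast card_le_card h.st.sub) h.pot.small
  refine (mul_le_mul_of_nonneg_right h1 (Real.exp_pos _).le).trans ?_
  rw [← Real.exp_add]
  have h2 := h.nb.one_le_L
  refine (Real.exp_le_exp.2 (show _ ≤ -D.N.L by linarith)).trans ?_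
  rw [Real.exp_neg, inv_le_iff_one_le_mul₀ (Real.exp_pos _)]
  refine (h.nb.uL' (a := 2) (by norm_num)).trans (mul_le_mul_of_nonneg_left ?_ (sq_nonneg _))
  linarith [Real.add_one_le_exp D.N.L]

open Classical in
theorem edge (hm : MORE) (h : D.Good) (hn : Nl D n) (hx : x ∈ D.Y) (hy : y ∈ D.Y.erase x) :
    (1 - 2 * D.N.u ^ 2) * chi D x y - 2 * (if |D.F.K0 D.Y x y| ≤ D.t then
      D.F.E (D.N.Wt D.t) D.Wb D.N.j (lo D.N.s x y) D.Y else 0) ≤ D.E n (term D x y) D.Y := by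
  rw [E_term, ← D.E_eq]
  have p0 : 0 ≤ D.E D.N.j (lo D.N.s x y) D.Y :=
    it_nonneg h.w0_nonneg h.v_nonneg _ fun U _ => lo_nonneg _ _ _ U
  unfold chi
  by_cases hf : y ∈ D.cl x y ∧ ¬ bad D x y
  swap
  · rw [if_neg hf]
    split_ifs <;> linarith
  have hK := h.typ x _ y hf.1
  obtain ⟨e, hy⟩ := mem_erase.1 hy
  rw [if_pos hf, if_pos hK]
  have h1 := o_pow h hn hx hy e.symm (abs_le.1 hK).2
  have h2 := lo_le hm h hn hx hy e.symm (abs_le.1 hK).2
  have h3 := card_nsmul_le_sum D.Y _ _ fun z _ => tr_le h hn hx hy e.symm (abs_le.1 hK).1 z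
  have h4 := tr_sum h
  have h5 : D.E n (hi D.N.s x y) D.Y + D.E n (lo D.N.s x y) D.Y =
      (D.w0 + ob D.v D.F.S x y) ^ n := by
    unfold Dat.E ob
    rw [← it_add]
    simp only [hi_add_lo]
    rw [it_pair, if_pos ⟨hx, hy⟩, mul_one]
  rw [nsmul_eq_mul, mul_neg] at h3
  linarith

open Classical in
theorem bad_le (h : D.Good) : (∑ x ∈ D.Y, ∑ y ∈ D.Y.erase x, if bad D x y then (1 : ℝ) else 0) ≤
    D.N.u * (D.Z.card : ℝ) ^ 2 := by
  refine le_trans ?_ h.am.sep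
  change _ ≤ (ed D.Z (bad D) : ℝ)
  unfold ed
  rw [card_filter, sum_product]
  push_cast
  refine le_trans (sum_le_sum fun x _ => ?_) (sum_le_sum_of_subset_of_nonneg h.st.sub
    fun x _ _ => sum_nonneg fun y _ => by split_ifs <;> norm_num)
  refine le_trans (sum_le_sum fun y hy => ?_) (sum_le_sum_of_subset_of_nonneg
    ((erase_subset x _).trans h.st.sub) fun y _ _ => by split_ifs <;> norm_num)
  have e : x ≠ y := (ne_of_mem_erase hy).symm
  by_cases k : bad D x y <;> simp [k, e]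

theorem count (h : D.Good) : Pr D.Y - D.sj (fun _ _ => 1) - D.N.u * (D.Z.card : ℝ) ^ 2 ≤
    ∑ x ∈ D.Y, ∑ y ∈ D.Y.erase x, chi D x y := by
  refine le_trans (sub_le_sub_left (bad_le h) _) ?_
  rw [← pairs (D := D) Subset.rfl]
  unfold Dat.sj
  simp only [← sum_sub_distrib]
  refine sum_le_sum fun x hx => sum_le_sum fun y hy => ?_
  unfold chi
  by_cases k : bad D x y <;> by_cases k' : y ∈ D.cl x y <;> simp [k, k', hx, mem_of_mem_erase hy]

theorem num {u a b J A τ : ℝ} (u0 : 0 < u) (u1 : u ≤ 1 / 10) (b0 : 0 ≤ b) (hab : a ≤ b)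
    (hba : (1 - u) * b ≤ a) (h1 : 1 ≤ u ^ 2 * a) (hJ : J ≤ u ^ 2 * a ^ 2)
    (hA : a * (a - 1) - J - u * b ^ 2 ≤ A) (hτ : τ ≤ u ^ 2 * a ^ 2) :
    (1 - 5 * u) * b ^ 2 ≤ (1 - 2 * u ^ 2) * A - 2 * τ := by
  have a0 : 0 ≤ a := le_trans (mul_nonneg (by linarith) b0) hba
  have h2 : a ^ 2 ≤ b ^ 2 := pow_le_pow_left₀ a0 hab 2
  have h3 : (1 - 2 * u) * b ^ 2 ≤ a ^ 2 := by
    have := pow_le_pow_left₀ (mul_nonneg (by linarith) b0) hba 2
    nlinarith [sq_nonneg (u * b)]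
  have h4 : u ^ 2 * a ^ 2 ≤ u / 10 * b ^ 2 :=
    mul_le_mul (by nlinarith) h2 (sq_nonneg a) (by linarith)
  have h5 := mul_le_mul_of_nonneg_right h1 a0
  have h6 : (1 - 16 / 5 * u) * b ^ 2 ≤ A := by nlinarith
  have h7 : 1 - u / 5 ≤ 1 - 2 * u ^ 2 := by nlinarith
  have h8 := mul_le_mul h7 h6 (mul_nonneg (by linarith) (sq_nonneg b)) (by linarith)
  nlinarith [mul_nonneg (sq_nonneg u) (sq_nonneg b), mul_nonneg u0.le (sq_nonneg b)]

end Los1

open Los1 in
theorem los1 (h : MORE) : LOS1 := by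
  intro X ι _ _ D n hD hn ht
  have c0 : 0 ≤ (1 + 100 * D.N.u) * D.N.ψ :=
    mul_nonneg (by linarith [hD.nb.u_pos]) hD.nb.psi_pos.le
  have h1 := it_le (S := D.F.S) hD.w0_nonneg hD.v_nonneg n fun U hU => point hD hU
  rw [it_mul, it_sum] at h1
  simp only [it_sum] at h1
  refine le_trans (mul_le_mul_of_nonneg_left ?_ c0) h1
  refine le_trans ?_ (sum_le_sum fun x hx => sum_le_sum fun y hy => edge h hD hn hx hy)
  simp only [sum_sub_distrib, ← mul_sum]
  have u2 := hD.nb.uL' (a := 2) (by norm_num)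
  have J0 : 0 ≤ D.sj fun _ _ => 1 :=
    sum_nonneg fun x _ => sum_nonneg fun y _ => by split_ifs <;> norm_num
  refine num hD.nb.u_pos (hD.nb.u_le.trans (by norm_num)) (Nat.cast_nonneg _)
    (by exact_mod_cast card_le_card hD.st.sub) hD.st.big ?_ ?_ (count hD)
    (ht.trans (mul_le_mul_of_nonneg_right (hD.nb.pow_le (by norm_num)) (sq_nonneg _)))
  · refine u2.trans (mul_le_mul_of_nonneg_left ?_ (sq_nonneg _))
    have b1 := hD.nb.L_le_q.trans hD.nb.q_le_s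
    have b2 := hD.nb.s_big
    have b3 := hD.Y_big
    nlinarith
  · refine le_trans ?_ (mul_le_mul_of_nonneg_left hD.junk (sq_nonneg _))
    have b1 : D.N.L ^ 1 ≤ D.N.L ^ 15 := hD.nb.L_pow_le (by norm_num)
    rw [pow_one] at b1
    have b2 := u2.trans (mul_le_mul_of_nonneg_left b1 (sq_nonneg _))
    have b3 := mul_le_mul_of_nonneg_right b2 J0
    linarith

end Pool.Agent.MP_ddf486_co.KV
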