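import Pool.Agent.MP_ddf486_co.KV.SpecE2
import Pool.Agent.MP_6c3157_co.PQ.Gfb

/-! Project KV, row LOS2: the upper bound of the lossless step. -/

set_option autoImplicit false
set_option linter.unusedSectionVars false

noncomputable section

namespace Pool.Agent.MP_ddf486_co.KV

open Finset Pool.Agent.MP_6c3157_co.PD Pool.Agent.MP_6c3157_co.PQ

namespace Los2

theorem pw {a b M : ℝ} (hb : 0 ≤ b) (hab : b ≤ a) (ha : a ≤ M) (hM : 1 ≤ M) (n : ℕ) :
    a ^ n - b ^ n ≤ n * (a - b) * M ^ n := by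
  induction n with
  | zero => simp
  | succ n ih =>
    have h1 : b ^ n ≤ M ^ (n + 1) :=
      (pow_le_pow_left₀ hb (hab.trans ha) n).trans (pow_le_pow_right₀ hM n.le_succ)
    have h2 : 0 ≤ a ^ n - b ^ n := sub_nonneg.2 (pow_le_pow_left₀ hb hab n)
    have h3 := mul_le_mul ha ih h2 (zero_le_one.trans hM)
    have h4 := mul_le_mul_of_nonneg_left h1 (sub_nonneg.2 hab)
    have e : a ^ (n + 1) - b ^ (n + 1) = a * (a ^ n - b ^ n) + (a - b) * b ^ n := by ring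
    have e' : ((n + 1 : ℕ) : ℝ) * (a - b) * M ^ (n + 1) =
        M * (n * (a - b) * M ^ n) + (a - b) * M ^ (n + 1) := by push_cast; ring
    linarith

variable {X ι : Type} [DecidableEq X] [Fintype ι] {D : Dat X ι} {n : ℕ}

theorem steps (hn : Nl D n) : n ≤ 2 ^ 32 * D.N.j :=
  hn.le.trans (Nat.le_mul_of_pos_left _ (by norm_num))

/-- a displacement of at most `100 t` costs at most `1 / L ^ 2` -/
theorem small (h : D.Good) (hn : Nl D n) {d M : ℝ} (hd : d ≤ 100 * D.t / D.N.Wt D.t)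
    (M0 : 0 ≤ M) (hM : M ≤ 101 / 100) : n * d * M ≤ 1 / D.N.L ^ 2 := by
  have W0 := h.Wt_pos
  have t0 := h.t_pos
  have L0 := pow_pos h.nb.L_pos 2
  have h1 : n * (100 * D.t / D.N.Wt D.t) ≤ 1 / D.N.L ^ 2 / 2 := by
    rw [← mul_div_assoc, div_div, div_le_div_iff₀ W0 (by positivity)]
    linarith [hn.hi]
  have h2 : n * d ≤ 1 / D.N.L ^ 2 / 2 :=
    (mul_le_mul_of_nonneg_left hd (Nat.cast_nonneg n)).trans h1
  have h3 : 0 < 1 / D.N.L ^ 2 := by positivity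
  have h4 := mul_le_mul h2 hM M0 (by positivity)
  linarith

theorem pair (h : D.Good) (hn : Nl D n) {x z : X} {l : ℝ} (hz : z ∈ D.c x l) :
    D.E n (fun U => if x ∈ U ∧ z ∈ U then 1 else 0) D.Y ≤ 1 + 1 / D.N.L ^ 2 := by
  have hx := h.pin x l z hz
  obtain ⟨z1, z2, -⟩ := h.cs.sub x l z hz
  have hK := (abs_le.1 (h.typ x l z hz)).1
  have p := h.pow_hi hx z1 z2.symm hK (steps hn)
  have o := h.st.o_hi h.nb h.am hx z1 z2.symm hK
  have o0 := h.st.o_nonneg h.nb h.am x z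
  rw [← h.st.unit h.nb h.am, ← D.ob_eq] at o
  rw [← D.ob_eq] at o0
  have t0 := h.t_pos
  have W0 := h.Wt_pos
  have a1 : 42 * D.t / D.N.Wt D.t ≤ 100 * D.t / D.N.Wt D.t :=
    div_le_div_of_nonneg_right (by linarith) W0.le
  have a0 : 0 ≤ 100 * D.t / D.N.Wt D.t := by positivity
  have a2 : max (D.w0 + ob D.v D.F.S x z) 1 - 1 ≤ 100 * D.t / D.N.Wt D.t := by
    rw [sub_le_iff_le_add]
    exact max_le (by unfold Dat.w0; linarith) (by linarith)
  have a3 := pw zero_le_one (le_max_right (D.w0 + ob D.v D.F.S x z) 1) le_rfl (le_max_right _ _) n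
  have a4 := small h hn a2 (pow_nonneg (zero_le_one.trans (le_max_right _ _)) n) p
  have a5 := pow_le_pow_left₀ o0 (le_max_left (D.w0 + ob D.v D.F.S x z) 1) n
  unfold Dat.E
  rw [it_pair, if_pos ⟨hx, z1⟩, mul_one]
  rw [one_pow] at a3
  exact a5.trans (by linarith)

theorem lost (h : D.Good) (hn : Nl D n) {x y z : X} {l : ℝ} (hy : y ∈ D.c x l)
    (hz : z ∈ D.c x l) :
    D.E n (fun U => if x ∈ U ∧ y ∈ U ∧ z ∉ U then 1 else 0) D.Y ≤ 1 / D.N.L ^ 2 := by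
  have hx := h.pin x l y hy
  obtain ⟨y1, y2, -⟩ := h.cs.sub x l y hy
  have z1 := (h.cs.sub x l z hz).1
  have p := h.pow_hi hx y1 y2.symm (abs_le.1 (h.typ x l y hy)).1 (steps hn)
  have e : (fun U : Finset X => if x ∈ U ∧ y ∈ U then (1 : ℝ) else 0) = fun U =>
      (if x ∈ U ∧ y ∈ U ∧ z ∉ U then 1 else 0) + if x ∈ U ∧ y ∈ U ∧ z ∈ U then 1 else 0 :=
    funext fun U => by
      by_cases h1 : x ∈ U <;> by_cases h2 : y ∈ U <;> by_cases h3 : z ∈ U <;> simp [h1, h2, h3]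
  have b1 := it_pair (w₀ := D.w0) (v := D.v) (S := D.F.S) (T := D.Y) x y n
  rw [e, it_add, it_triple, if_pos ⟨hx, y1, z1⟩, if_pos ⟨hx, y1⟩, mul_one, mul_one] at b1
  have b0 : 0 ≤ D.w0 + ∑ i, if x ∈ D.F.S i ∧ y ∈ D.F.S i ∧ z ∈ D.F.S i then D.v i else 0 :=
    add_nonneg h.w0_nonneg (sum_nonneg fun i _ => by split_ifs; exacts [h.v_nonneg i, le_rfl])
  rw [D.tri_eq] at b0 b1
  have d0 : 0 ≤ D.F.DB x y z / D.N.Wt D.t := div_nonneg (D.F.W_nonneg h.am.w_lo _) h.Wt_pos.le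
  have d1 := div_le_div_of_nonneg_right (h.dia x l y hy z hz) h.Wt_pos.le
  have b2 := pw b0 (a := D.w0 + ob D.v D.F.S x y) (by linarith) (le_max_left _ 1)
    (le_max_right _ _) n
  have b3 := small h hn (d := D.w0 + ob D.v D.F.S x y -
    (D.w0 + (ob D.v D.F.S x y - D.F.DB x y z / D.N.Wt D.t))) (by linarith)
    (pow_nonneg (zero_le_one.trans (le_max_right _ _)) n) p
  unfold Dat.E
  unfold ob at b2 b3 b1
  linarith

/-- the weight of an edge of a cluster -/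
def wt (D : Dat X ι) (x y : X) : ℝ :=
  gf D.N.κ (fib D.lab D.Y x y).card / (fib D.lab D.Y x y).card *
    ((fib D.lab D.Y x y).card / (D.c x (D.lab x y)).card)

theorem wt_nonneg (h : D.Good) (x y : X) : 0 ≤ wt D x y :=
  mul_nonneg (div_nonneg (Gfb.bds _ (zero_le_one.trans h.nb.one_le_ka)).1 (Nat.cast_nonneg _))
    (by positivity)

/-- the bound for one edge -/
def tm (D : Dat X ι) (x y : X) (T : Finset X) : ℝ :=
  if y ∈ D.c x (D.lab x y) then
    wt D x y * (if x ∈ T ∧ D.rp x (D.lab x y) ∈ T then 1 else 0) +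
      (if x ∈ T ∧ y ∈ T ∧ D.rp x (D.lab x y) ∉ T then 1 else 0)
  else hi D.N.s x y T

theorem ph_le (h1 : PHL) (h : D.Good) {T : Finset X} (hT : T ⊆ D.Y) :
    D.ph T ≤ ∑ x ∈ D.Y, ∑ y ∈ D.Y.erase x, tm D x y T := by
  unfold Dat.ph
  split_ifs with hs
  · refine (h1 X D.lab D.N.κ D.Y T D.c D.rp h.nb.one_le_ka h.cs h.rp hT).trans
      (le_of_eq (sum_congr rfl fun x _ => sum_congr rfl fun y _ => ?_))
    unfold tm wt hi
    simp only [hs, and_true]
  · refine sum_nonneg fun x _ => sum_nonneg fun y _ => ?_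
    unfold tm
    by_cases hy : y ∈ D.c x (D.lab x y)
    · rw [if_pos hy]
      exact add_nonneg (mul_nonneg (wt_nonneg h x y) (by split_ifs <;> norm_num))
        (by split_ifs <;> norm_num)
    · rw [if_neg hy]; exact hi_nonneg _ _ _ _

theorem tm_le (h : D.Good) (hn : Nl D n) (x y : X) : D.E n (tm D x y) D.Y ≤
    (1 + 1 / D.N.L ^ 2) * (if y ∈ D.c x (D.lab x y) then wt D x y else 0) + 1 / D.N.L ^ 2 +
      if y ∈ D.cl x y then 0 else D.E n (hi D.N.s x y) D.Y := by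
  have L0 : 0 ≤ 1 / D.N.L ^ 2 := by positivity
  unfold tm Dat.cl
  by_cases hy : y ∈ D.c x (D.lab x y)
  · simp only [hy, if_true]
    have r := h.rp x _ ⟨y, hy⟩
    have a := mul_le_mul_of_nonneg_left (pair h hn r) (wt_nonneg h x y)
    have b := lost h hn hy r
    unfold Dat.E at a b ⊢
    rw [it_add, it_mul]
    linarith
  · simp only [hy, if_false]
    have : (fun T => hi D.N.s x y T) = hi D.N.s x y := rfl
    rw [this]
    linarith

end Los2

open Los2 in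
theorem los2 (h1 : PHL) (h2 : PHS2) (h3 : JK) : LOS2 := by
  intro X ι _ _ D n h hn
  have a1 : D.E n D.ph D.Y ≤ ∑ x ∈ D.Y, ∑ y ∈ D.Y.erase x, D.E n (tm D x y) D.Y := by
    refine (it_le h.w0_nonneg h.v_nonneg n fun U hU => ph_le h1 h hU).trans (le_of_eq ?_)
    rw [it_sum]
    exact sum_congr rfl fun x _ => it_sum n _ fun y U => tm D x y U
  have a2 := sum_le_sum fun x (_ : x ∈ D.Y) =>
    sum_le_sum fun y (_ : y ∈ D.Y.erase x) => tm_le h hn x y
  simp only [sum_add_distrib, ← mul_sum] at a2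
  have a3 : (∑ x ∈ D.Y, ∑ y ∈ D.Y.erase x, if y ∈ D.c x (D.lab x y) then wt D x y else 0) ≤
      (1 + 8 * D.N.u) * D.N.ψ * (D.Z.card : ℝ) ^ 2 :=
    (h2 X D.lab D.N.κ D.Y D.c h.nb.one_le_ka h.cs).trans
      (((gfb.2.2.2 X D.lab D.N.κ D.Z h.nb.one_le_ka).2.1 D.Y h.st.sub).trans h.pot.bad)
  have L0 := h.nb.L_pos
  have l0 : 0 ≤ 1 / D.N.L ^ 2 := by positivity
  have YZ : (D.Y.card : ℝ) ^ 2 ≤ (D.Z.card : ℝ) ^ 2 :=
    pow_le_pow_left₀ (Nat.cast_nonneg _) (by exact_mod_cast card_le_card h.st.sub) 2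
  have a4 : ∑ x ∈ D.Y, ∑ _y ∈ D.Y.erase x, 1 / D.N.L ^ 2 ≤ 1 / D.N.L ^ 2 * (D.Y.card : ℝ) ^ 2 := by
    have := sum_le_card_nsmul D.Y (fun x => ∑ _y ∈ D.Y.erase x, 1 / D.N.L ^ 2)
      (D.Y.card * (1 / D.N.L ^ 2)) fun x _ => by
        rw [sum_const, nsmul_eq_mul]
        exact mul_le_mul_of_nonneg_right (by exact_mod_cast card_erase_le) l0
    rw [nsmul_eq_mul] at this
    linarith
  have a5 : D.sj (fun x y => D.E n (hi D.N.s x y) D.Y) ≤ 1 / D.N.L ^ 2 * (D.Y.card : ℝ) ^ 2 := by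
    have j := (h3 X ι D D.N.s n h le_rfl (steps hn)).2.1
    have j0 : 0 ≤ D.sj fun x y => D.E n (hi D.N.s x y) D.Y :=
      sum_nonneg fun x _ => sum_nonneg fun y _ => by
        split_ifs
        exacts [le_rfl, it_nonneg h.w0_nonneg h.v_nonneg n fun U _ => hi_nonneg _ _ _ _]
    have j1 := mul_le_mul_of_nonneg_right (h.nb.L_pow_le (show 2 ≤ 14 by norm_num)) j0
    rw [one_div, inv_mul_eq_div, le_div_iff₀ (by positivity)]
    linarith
  have u0 := h.nb.u_pos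
  have u1 := h.nb.u_le
  have p0 := h.nb.psi_pos
  have p1 : D.N.ψ ≤ 1 := h.nb.psi_le.trans (h.nb.pow_le_one _)
  have b1 : 1 ≤ D.N.ψ * D.N.L := by
    have := mul_le_mul_of_nonneg_right p1 (mul_pos p0 L0).le
    nlinarith [h.nb.psi_ge]
  have b2 : 10 ≤ D.N.u * D.N.L := by
    have k := h.nb.uL' (a := 2) (by norm_num)
    have := mul_le_mul_of_nonneg_right u1 (mul_pos u0 L0).le
    nlinarith
  have b3 : 1 / D.N.L ^ 2 ≤ D.N.u * D.N.ψ / 10 := by
    rw [div_le_div_iff₀ (by positivity) (by norm_num)]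
    have := mul_le_mul b2 b1 zero_le_one (by positivity)
    linarith
  have z0 : 0 ≤ (D.Z.card : ℝ) ^ 2 := by positivity
  have c1 := mul_le_mul_of_nonneg_left a3 (show 0 ≤ 1 + 1 / D.N.L ^ 2 by positivity)
  have c2 := mul_le_mul b3 YZ (by positivity) (by positivity)
  have c3 : (1 + 8 * D.N.u) * D.N.ψ ≤ 2 := by nlinarith
  have c4 := mul_le_mul_of_nonneg_right (mul_le_mul b3 c3 (by positivity) (by positivity)) z0
  have c5 := mul_nonneg (mul_pos u0 p0).le z0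
  unfold Dat.sj at a5
  linarith

end Pool.Agent.MP_ddf486_co.KV
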