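import Pool.Agent.MP_ddf486_co.KV.SpecE2

/-! Project KV, block E: the mirror estimate for one set. -/

set_option autoImplicit false
set_option linter.unusedSectionVars false

noncomputable section

namespace Pool.Agent.MP_ddf486_co.KV

open Finset

namespace Mirp

variable {X ι : Type} [DecidableEq X] [Fintype ι] {D : Dat X ι}

/-- an inequality that holds in every cluster of a pin holds for the sum over its good edges -/
theorem fib_le (h : D.Good) (x : X) (g g' : X → ℝ)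
    (H : ∀ l, ∑ y ∈ D.c x l, g y ≤ ∑ y ∈ D.c x l, g' y) :
    (∑ y ∈ D.Y.erase x, if y ∈ D.cl x y then g y else 0) ≤
      ∑ y ∈ D.Y.erase x, if y ∈ D.cl x y then g' y else 0 := by
  classical
  rw [← sum_filter, ← sum_filter]
  set G := (D.Y.erase x).filter fun y => y ∈ D.cl x y
  have hm : ∀ y ∈ G, D.lab x y ∈ G.image (D.lab x) := fun y hy => mem_image_of_mem _ hy
  rw [← sum_fiberwise_of_maps_to hm g, ← sum_fiberwise_of_maps_to hm g']
  refine sum_le_sum fun l _ => ?_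
  have e : G.filter (fun y => D.lab x y = l) = D.c x l := by
    ext y
    simp only [G, mem_filter]
    constructor
    · rintro ⟨⟨-, h1⟩, rfl⟩
      exact h1
    · intro hy
      exact ⟨⟨h.cl_sub x l hy, by rw [h.cl_eq hy]; exact hy⟩, (h.cs.sub x l y hy).2.2⟩
  rw [e]
  exact H l

/-- private cells miss half of the cluster -/
theorem prv_le {v : ι → ℝ} {S : ι → Finset X} (hv : ∀ i, 0 ≤ v i) (a b : ℝ) (c : Finset X)
    (x y : X) (T : Finset X) (hb : 2 * b ≤ c.card) :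
    c.card * prv v S a b c x y T ≤ 2 * los v S c x y := by
  unfold prv los
  rw [mul_sum, mul_sum]
  refine sum_le_sum fun i _ => ?_
  have e : ((c \ S i).card : ℝ) + (c ∩ S i).card = c.card := by
    exact_mod_cast card_sdiff_add_card_inter c (S i)
  have v0 := hv i
  split_ifs with h1 h2 h2
  · have h3 : (c.card : ℝ) ≤ 2 * (c \ S i).card := by linarith [h1.2.2.2]
    nlinarith [mul_le_mul_of_nonneg_left h3 v0]
  · exact absurd ⟨h1.1, h1.2.1⟩ h2
  · rw [mul_zero]; positivity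
  · simp

theorem u_small (h : D.Good) {k : ℕ} (hk : 1 ≤ k) : D.N.u ^ k ≤ 1 / 10 ^ 30 := by
  have := h.nb.pow_le hk
  rw [pow_one] at this
  exact this.trans h.nb.u_le

theorem num1 (h : D.Good) {n : ℕ} (hn : n + 1 ≤ 2 ^ 31 * D.N.j) :
    ((n : ℝ) + 1) * (2 * (100 * D.N.u ^ 400 / D.N.j)) ≤ 8 * D.N.u ^ 40 := by
  have j0 := h.nb.j_pos
  have h1 : (n : ℝ) + 1 ≤ 2 ^ 31 * D.N.j := by exact_mod_cast hn
  have h2 := u_small h (show 1 ≤ 360 by norm_num)
  have p : 0 < D.N.u ^ 40 := pow_pos h.nb.u_pos _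
  have p' : 0 < D.N.u ^ 400 := pow_pos h.nb.u_pos _
  have e : D.N.u ^ 400 = D.N.u ^ 40 * D.N.u ^ 360 := by ring
  calc ((n : ℝ) + 1) * (2 * (100 * D.N.u ^ 400 / D.N.j))
      ≤ 2 ^ 31 * D.N.j * (2 * (100 * D.N.u ^ 400 / D.N.j)) :=
        mul_le_mul_of_nonneg_right h1 (by positivity)
    _ = 2 ^ 31 * 200 * D.N.u ^ 400 := by field_simp; ring
    _ ≤ 8 * D.N.u ^ 40 := by
        rw [e]
        nlinarith [mul_le_mul_of_nonneg_left h2 p.le]

theorem num2 (h : D.Good) {n : ℕ} (hn : n + 1 ≤ 2 ^ 31 * D.N.j) :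
    ((n : ℝ) + 1) / D.N.Wt D.t ≤ D.N.u * D.N.L ^ 5 / D.W := by
  have j0 := h.nb.j_pos
  have t0 := h.t_pos
  have u0 := h.nb.u_pos
  have W0 : 0 < D.W := lt_of_lt_of_le one_pos h.am.W_lo
  have h1 : (n : ℝ) + 1 ≤ 2 ^ 31 * D.N.j := by exact_mod_cast hn
  have h2 := u_small h (show 1 ≤ 399 by norm_num)
  have h3 := h.st.t_lo
  have e : D.N.u * D.N.L ^ 5 * D.N.Wt D.t = D.N.j * (D.t * D.N.L ^ 5) / D.N.u ^ 399 := by
    unfold Nb.Wt
    field_simp
  rw [div_le_div_iff₀ h.Wt_pos W0, e, le_div_iff₀ (pow_pos u0 _)]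
  have h4 : ((n : ℝ) + 1) * D.N.u ^ 399 ≤ D.N.j :=
    (mul_le_mul h1 h2 (pow_pos u0 _).le (by positivity)).trans (by linarith)
  calc ((n : ℝ) + 1) * D.W * D.N.u ^ 399 = ((n : ℝ) + 1) * D.N.u ^ 399 * D.W := by ring
    _ ≤ D.N.j * (D.t * D.N.L ^ 5) := mul_le_mul h4 h3 W0.le j0.le

theorem E_nonneg (h : D.Good) (n : ℕ) (a : ℝ) (x y : X) (T : Finset X) :
    0 ≤ D.E n (lo a x y) T :=
  it_nonneg h.w0_nonneg h.v_nonneg n fun U _ => lo_nonneg a x y U

/-- a point of a cluster with a large rate -/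
theorem pt (hM : MORE) (h : D.Good) {n : ℕ} (hn : n + 1 ≤ 2 ^ 31 * D.N.j) {T : Finset X} {x z : X}
    {l : ℝ} (hz : z ∈ D.c x l) (hx : x ∈ T) (hzT : z ∈ T) {b A : ℝ} (hA : 0 ≤ A)
    (hr : A / 2 ≤ rate D.v D.F.S b x z T) :
    min 1 (((n : ℝ) + 1) * A) ≤ 8 * D.E (n + 2) (lo b x z) T := by
  have hxY := h.pin x l z hz
  have hzY := (h.cs.sub x l z hz).1
  have ne := (h.cs.sub x l z hz).2.1.symm
  have ty := abs_le.1 (h.typ x l z hz)
  have o0 : 0 ≤ D.w0 + ob D.v D.F.S x z :=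
    add_nonneg h.w0_nonneg (sum_nonneg fun i _ => by split_ifs; exacts [h.v_nonneg i, le_rfl])
  have h1 := (h.pow_lo hxY hzY ne ty.2 (n := n + 2) (by omega)).trans
    (pow_le_pow_left₀ (le_min o0 zero_le_one) (min_le_left _ _) _)
  have h2 := h.pow_hi hxY hzY ne ty.1 (n := 1) (by omega)
  rw [pow_one] at h2
  have h3 := (hM X ι b D.w0 D.v D.F.S (n + 2) x z T h.w0_nonneg h.v_nonneg).2 hx hzT h1
    ((le_max_left _ _).trans h2)
  have h4 : ((n : ℝ) + 1) * A ≤ 2 * (((n + 2 : ℕ) : ℝ) * rate D.v D.F.S b x z T) := by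
    push_cast
    have n0 : (0 : ℝ) ≤ n := Nat.cast_nonneg n
    nlinarith
  have h5 : min 1 (((n : ℝ) + 1) * A) ≤
      2 * min 1 (((n + 2 : ℕ) : ℝ) * rate D.v D.F.S b x z T) := by
    rcases le_total 1 (((n + 2 : ℕ) : ℝ) * rate D.v D.F.S b x z T) with k | k
    · rw [min_eq_left k]; linarith [min_le_left 1 (((n : ℝ) + 1) * A)]
    · rw [min_eq_right k]; exact (min_le_right _ _).trans h4
  unfold Dat.E
  linarith

open Classical in
/-- the estimate in one cluster -/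
theorem clus (hM : MORE) (h : D.Good) {n : ℕ} (hn : n + 1 ≤ 2 ^ 31 * D.N.j) {T : Finset X} {x : X}
    (hx : x ∈ T) (l a b Aw : ℝ) (er : X → ℝ) (her : ∀ y, 0 ≤ er y) (hA : 0 ≤ Aw)
    (h1 : (∑ y ∈ D.c x l ∩ T, D.F.W fun i => D.F.b i ∧ x ∈ D.F.S i ∧ y ∈ D.F.S i ∧
        ((T ∩ D.F.S i).card : ℝ) ≤ a ∧
          ((D.c x l ∩ D.F.S i).card : ℝ) < 2 * D.N.u ^ 40 * (D.c x l).card) ≤
      8 * D.N.u ^ 40 * (D.c x l).card * Aw + D.η * (D.c x l).card +
        ∑ y ∈ D.c x l ∩ T, (er y + D.Cl x y))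
    (h2 : (((D.c x l).filter fun z => (D.F.W fun i => D.F.b i ∧ x ∈ D.F.S i ∧ z ∈ D.F.S i ∧
        ((T ∩ D.F.S i).card : ℝ) ≤ b) < Aw / 2).card : ℝ) ≤ 4 * D.N.u ^ 40 * (D.c x l).card) :
    ∑ y ∈ D.c x l, ((n : ℝ) + 1) * mirc D.v D.F.S a b (D.N.u ^ 40) (D.cl x y) x y T ≤
      ∑ y ∈ D.c x l, (128 * D.N.u ^ 40 * D.E (n + 2) (lo b x y) T + D.N.u * D.N.L ^ 5 / D.W *
        ((2 * D.η + D.Cl x y) * (if x ∈ T ∧ y ∈ T then 1 else 0) + if y ∈ T then er y else 0)) := by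
  set c := D.c x l with hc
  set ζ := D.N.u ^ 40 with hζ
  set β := D.N.u * D.N.L ^ 5 / D.W with hβ
  have z0 : 0 < ζ := pow_pos h.nb.u_pos _
  have z1 : ζ ≤ 1 / 10 ^ 30 := u_small h (by norm_num)
  have n0 : (0 : ℝ) ≤ (n : ℝ) + 1 := by positivity
  have W0 := h.Wt_pos
  have b1 := num2 h hn
  have b0 : 0 ≤ β := (div_nonneg n0 W0.le).trans b1
  have e0 := h.am.eta_lo
  have c0 : (0 : ℝ) ≤ c.card := Nat.cast_nonneg _
  have eR : ∑ y ∈ c, (128 * ζ * D.E (n + 2) (lo b x y) T + β *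
      ((2 * D.η + D.Cl x y) * (if x ∈ T ∧ y ∈ T then 1 else 0) + if y ∈ T then er y else 0)) =
      128 * ζ * ∑ y ∈ c, D.E (n + 2) (lo b x y) T +
        β * (2 * D.η * (c ∩ T).card + ∑ y ∈ c ∩ T, (er y + D.Cl x y)) := by
    rw [sum_add_distrib, ← mul_sum, ← mul_sum]
    congr 2
    rw [sum_congr rfl (g := fun y => if y ∈ T then 2 * D.η + (er y + D.Cl x y) else 0)
      fun y _ => by by_cases k : y ∈ T <;> simp [k, hx]; ring]
    rw [← sum_filter, filter_mem_eq_inter, sum_add_distrib, sum_const, nsmul_eq_mul, mul_comm]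
  have s0 : 0 ≤ ∑ y ∈ c, D.E (n + 2) (lo b x y) T := sum_nonneg fun y _ => E_nonneg h _ _ _ _ _
  have s1 : 0 ≤ ∑ y ∈ c ∩ T, (er y + D.Cl x y) :=
    sum_nonneg fun y _ => add_nonneg (her y) (h.am.cl_lo x y)
  rw [eR, sum_congr rfl (g := fun y => ((n : ℝ) + 1) * mirc D.v D.F.S a b ζ c x y T)
    fun y hy => by rw [h.cl_eq hy]]
  by_cases hg : b < T.card ∧ ((c \ T).card : ℝ) ≤ ζ * c.card
  swap
  · rw [sum_eq_zero fun y _ => by
      unfold mirc
      rw [if_neg fun k => hg k.2.2, mul_zero]]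
    positivity
  have eL : ∑ y ∈ c, ((n : ℝ) + 1) * mirc D.v D.F.S a b ζ c x y T =
      ((n : ℝ) + 1) * ∑ y ∈ c ∩ T, prv D.v D.F.S a (2 * ζ * c.card) c x y T := by
    rw [← mul_sum, ← filter_mem_eq_inter, sum_filter]
    congr 1
    refine sum_congr rfl fun y _ => ?_
    unfold mirc
    by_cases k : y ∈ T <;> simp [k, hx, hg]
  have cs : ((c \ T).card : ℝ) + (c ∩ T).card = c.card := by
    exact_mod_cast card_sdiff_add_card_inter c T
  have zc : ζ * c.card ≤ 1 / 10 ^ 30 * c.card := mul_le_mul_of_nonneg_right z1 c0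
  have half : (c.card : ℝ) ≤ 2 * (c ∩ T).card := by linarith [hg.2]
  -- the crude bound
  have p1 : ((n : ℝ) + 1) * ∑ y ∈ c ∩ T, prv D.v D.F.S a (2 * ζ * c.card) c x y T ≤
      8 * ζ * c.card := by
    rw [mul_sum]
    refine (sum_le_card_nsmul _ _ (8 * ζ) fun y hy => ?_).trans ?_
    · have hy' := (mem_inter.1 hy).1
      have cp : (0 : ℝ) < c.card := by exact_mod_cast card_pos.2 ⟨y, hy'⟩
      have q1 := prv_le (S := D.F.S) h.v_nonneg a (2 * ζ * c.card) c x y T (by linarith)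
      have q2 := h.los_le hy'
      have q3 : prv D.v D.F.S a (2 * ζ * c.card) c x y T ≤ 2 * (100 * D.N.u ^ 400 / D.N.j) :=
        le_of_mul_le_mul_left (by linarith) cp
      exact (mul_le_mul_of_nonneg_left q3 n0).trans (num1 h hn)
    · rw [nsmul_eq_mul, mul_comm]
      exact mul_le_mul_of_nonneg_left (by exact_mod_cast card_le_card inter_subset_left)
        (by positivity)
  -- the mirror bound
  have r0 : 0 ≤ β * (2 * D.η * (c ∩ T).card + ∑ y ∈ c ∩ T, (er y + D.Cl x y)) := by positivity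
  have p2 : ((n : ℝ) + 1) * ∑ y ∈ c ∩ T, prv D.v D.F.S a (2 * ζ * c.card) c x y T ≤
      8 * ζ * c.card * (((n : ℝ) + 1) * (Aw / D.N.Wt D.t)) +
        β * (2 * D.η * (c ∩ T).card + ∑ y ∈ c ∩ T, (er y + D.Cl x y)) := by
    simp only [D.prv_eq]
    rw [← sum_div]
    have q1 := mul_le_mul_of_nonneg_left (div_le_div_of_nonneg_right h1 W0.le) n0
    have q2 : ((n : ℝ) + 1) / D.N.Wt D.t * (D.η * c.card + ∑ y ∈ c ∩ T, (er y + D.Cl x y)) ≤
        β * (2 * D.η * (c ∩ T).card + ∑ y ∈ c ∩ T, (er y + D.Cl x y)) :=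
      mul_le_mul b1 (by nlinarith [mul_le_mul_of_nonneg_left half e0]) (by positivity) b0
    refine q1.trans (le_trans (le_of_eq ?_) (add_le_add le_rfl q2))
    ring
  -- the points with a large rate
  set B := c.filter fun z => (D.F.W fun i => D.F.b i ∧ x ∈ D.F.S i ∧ z ∈ D.F.S i ∧
    ((T ∩ D.F.S i).card : ℝ) ≤ b) < Aw / 2 with hB
  set μ := min 1 (((n : ℝ) + 1) * (Aw / D.N.Wt D.t)) with hμ
  have m0 : 0 ≤ μ := le_min zero_le_one (by positivity)
  have g1 : ((c ∩ T).card : ℝ) ≤ ((c ∩ T) \ B).card + B.card := by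
    exact_mod_cast card_le_card_sdiff_add_card
  have g2 : (c.card : ℝ) ≤ 2 * ((c ∩ T) \ B).card := by linarith [hg.2]
  have g3 : (((c ∩ T) \ B).card : ℝ) * μ ≤ 8 * ∑ y ∈ c, D.E (n + 2) (lo b x y) T := by
    rw [← nsmul_eq_mul, mul_sum]
    refine (card_nsmul_le_sum _ (fun y => 8 * D.E (n + 2) (lo b x y) T) _ fun z hz => ?_).trans
      (sum_le_sum_of_subset_of_nonneg (sdiff_subset.trans inter_subset_left)
        fun y _ _ => mul_nonneg (by norm_num) (E_nonneg h _ _ _ _ _))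
    obtain ⟨k1, k2⟩ := mem_sdiff.1 hz
    obtain ⟨k3, k4⟩ := mem_inter.1 k1
    refine pt hM h hn k3 hx k4 (by positivity) ?_
    rw [D.rate_eq, div_right_comm]
    exact div_le_div_of_nonneg_right (not_lt.1 fun k => k2 (mem_filter.2 ⟨k3, k⟩)) W0.le
  have g4 : 8 * ζ * c.card * μ ≤ 128 * ζ * ∑ y ∈ c, D.E (n + 2) (lo b x y) T := by
    have := mul_le_mul_of_nonneg_right g2 m0
    nlinarith
  rw [eL]
  rcases le_total 1 (((n : ℝ) + 1) * (Aw / D.N.Wt D.t)) with k | k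
  · rw [hμ, min_eq_left k] at g4
    linarith
  · rw [hμ, min_eq_right k] at g4
    linarith

/-- the estimate for one pin -/
theorem pin (hM : MORE) (h : D.Good) {a : ℝ} {n : ℕ} {T : Finset X} (ha : 1 ≤ a)
    (hn : n + 1 ≤ 2 ^ 31 * D.N.j) (hT : T ⊆ D.Y) {x : X} (hxY : x ∈ D.Y) :
    (∑ y ∈ D.Y.erase x, if y ∈ D.cl x y then ((n : ℝ) + 1) *
        mirc D.v D.F.S a (a * (D.N.q : ℝ) ^ 60) (D.N.u ^ 40) (D.cl x y) x y T else 0) ≤
      128 * D.N.u ^ 40 * (∑ y ∈ D.Y.erase x,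
        if y ∈ D.cl x y then D.E (n + 2) (lo (a * (D.N.q : ℝ) ^ 60) x y) T else 0) +
      D.N.u * D.N.L ^ 5 / D.W *
        ((∑ y ∈ D.Y.erase x, if y ∈ D.cl x y then
            (2 * D.η + D.Cl x y) * (if x ∈ T ∧ y ∈ T then 1 else 0) else 0) +
          4 * D.W / (D.N.q : ℝ) ^ 9 * ∑ y ∈ D.Y.erase x, hi (a * (D.N.q : ℝ) ^ 60) x y T) := by
  classical
  set b := a * (D.N.q : ℝ) ^ 60 with hb
  have u0 := h.nb.u_pos
  have L0 := h.nb.L_pos
  have q0 := h.nb.q_pos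
  have W0 : 0 < D.W := lt_of_lt_of_le one_pos h.am.W_lo
  by_cases hg : x ∈ T ∧ b < T.card
  swap
  · rw [sum_eq_zero fun y _ => by
      unfold mirc
      rw [if_neg (c := x ∈ T ∧ _) fun k => hg ⟨k.1, k.2.2.1⟩, mul_zero, ite_self]]
    have s1 : 0 ≤ ∑ y ∈ D.Y.erase x, if y ∈ D.cl x y then D.E (n + 2) (lo b x y) T else 0 :=
      sum_nonneg fun y _ => by split_ifs; exacts [E_nonneg h _ _ _ _ _, le_rfl]
    have s2 : 0 ≤ ∑ y ∈ D.Y.erase x, if y ∈ D.cl x y then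
        (2 * D.η + D.Cl x y) * (if x ∈ T ∧ y ∈ T then 1 else 0) else 0 :=
      sum_nonneg fun y _ => by
        have := h.am.eta_lo
        have := h.am.cl_lo x y
        split_ifs <;> positivity
    have s3 : 0 ≤ ∑ y ∈ D.Y.erase x, hi b x y T := sum_nonneg fun y _ => hi_nonneg _ _ _ _
    positivity
  obtain ⟨hx, hbT⟩ := hg
  have q1 : (4 : ℝ) ≤ (D.N.q : ℝ) ^ 51 := by
    have := h.nb.q_pow_le (show 1 ≤ 51 by norm_num)
    rw [pow_one] at this
    linarith [h.nb.q_big]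
  have q2 : (D.N.q : ℝ) ^ 51 ≤ (D.N.q : ℝ) ^ 60 := h.nb.q_pow_le (by norm_num)
  have b2 : 2 ≤ b := by nlinarith
  obtain ⟨er, her, es, hc⟩ := h.am.mir x (h.st.sub hxY) T (hT.trans h.st.sub) hx a b (D.N.u ^ 40)
    ha b2 (by nlinarith) hbT (pow_pos u0 _) ((u_small h (by norm_num)).trans (by norm_num))
  have k1 := fib_le h x _ _ fun l => by
    obtain ⟨Aw, hA, h1, h2⟩ := hc (D.c x l) ((h.cl_sub x l).trans (erase_subset_erase x h.st.sub))
      fun y hy z hz => by rw [(h.cs.sub x l y hy).2.2, (h.cs.sub x l z hz).2.2]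
    exact clus hM h hn hx l a b Aw er her hA h1 h2
  refine k1.trans ?_
  have k2 : (∑ y ∈ D.Y.erase x, if y ∈ D.cl x y then (if y ∈ T then er y else 0) else 0) ≤
      ∑ y ∈ T.erase x, er y := by
    refine (sum_le_sum (g := fun y => if y ∈ T then er y else 0) fun y _ => ?_).trans ?_
    · have := her y
      split_ifs <;> linarith
    · rw [← sum_filter]
      refine sum_le_sum_of_subset_of_nonneg (fun y hy => ?_) fun y _ _ => her y
      obtain ⟨k3, k4⟩ := mem_filter.1 hy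
      exact mem_erase.2 ⟨(mem_erase.1 k3).1, k4⟩
  have k3 : (T.card : ℝ) - 1 ≤ ∑ y ∈ D.Y.erase x, hi b x y T := by
    have e1 : ((T.erase x).card : ℝ) + 1 = T.card := by exact_mod_cast card_erase_add_one hx
    have e2 : ∑ y ∈ T.erase x, hi b x y T = (T.erase x).card := by
      rw [sum_congr rfl (g := fun _ => (1 : ℝ)) fun y hy => by
        unfold hi; rw [if_pos ⟨hx, (mem_erase.1 hy).2, hbT⟩]]
      simp
    have e3 := sum_le_sum_of_subset_of_nonneg (f := fun y => hi b x y T) (erase_subset_erase x hT)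
      fun y _ _ => hi_nonneg _ _ _ _
    linarith
  have k4 : ∑ y ∈ T.erase x, er y ≤
      4 * D.W / (D.N.q : ℝ) ^ 9 * ∑ y ∈ D.Y.erase x, hi b x y T := by
    refine es.trans (le_trans ?_ (mul_le_mul_of_nonneg_left k3 (by positivity)))
    have a0 : 0 < a := by linarith
    have T0 : (0 : ℝ) ≤ T.card := Nat.cast_nonneg _
    have e1 : a * ((D.N.q : ℝ) ^ 51 * D.W + 4 * D.W * T.card / b) =
        D.W / (D.N.q : ℝ) ^ 9 * (b + 4 / (D.N.q : ℝ) ^ 51 * T.card) := by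
      rw [hb]; field_simp
    have e2 : 4 / (D.N.q : ℝ) ^ 51 * T.card ≤ 1 * T.card :=
      mul_le_mul_of_nonneg_right ((div_le_one (by positivity)).2 q1) T0
    rw [e1, mul_div_assoc, mul_comm 4, mul_assoc]
    exact mul_le_mul_of_nonneg_left (by linarith) (by positivity)
  have k5 : ∀ (p : Prop) [Decidable p] (A B e f g : ℝ), (if p then A * e + B * (f + g) else 0) =
      A * (if p then e else 0) + B * ((if p then f else 0) + if p then g else 0) :=
    fun p _ A B e f g => by split_ifs <;> ring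
  simp only [k5, sum_add_distrib, ← mul_sum]
  exact add_le_add le_rfl (mul_le_mul_of_nonneg_left (add_le_add le_rfl (k2.trans k4))
    (by positivity))

end Mirp

theorem mirp (hM : MORE) : MIRP := by
  intro X ι _ _ D a n T h ha hn hT
  unfold Dat.sg
  rw [mul_sum, mul_sum, mul_sum, ← sum_add_distrib, mul_sum, ← sum_add_distrib]
  refine sum_le_sum fun x hx => le_trans (le_of_eq ?_) (Mirp.pin hM h ha hn hT hx)
  rw [mul_sum]
  exact sum_congr rfl fun y _ => by split_ifs <;> simp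

end Pool.Agent.MP_ddf486_co.KV
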