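import Pool.Agent.MP_ddf486_co.KV.SpecE2

/-! Project KV, row MIRS: the mirror estimate along the process. -/

set_option autoImplicit false
set_option linter.unusedSectionVars false

noncomputable section

namespace Pool.Agent.MP_ddf486_co.KV

open Finset Pool.Agent.MP_6c3157_co.PD Pool.Agent.MP_6c3157_co.PQ

namespace Mirs

variable {X ι : Type} [DecidableEq X] [Fintype ι] {D : Dat X ι}

theorem E_sg (n : ℕ) (f : X → X → Finset X → ℝ) (T : Finset X) :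
    D.E n (fun U => D.sg fun x y => f x y U) T = D.sg fun x y => D.E n (f x y) T := by
  unfold Dat.sg Dat.E
  rw [it_sum]
  refine sum_congr rfl fun x _ => ?_
  rw [it_sum]
  refine sum_congr rfl fun y _ => ?_
  by_cases h : y ∈ D.cl x y
  · simp only [if_pos h]
  · simp only [if_neg h, it_zero]

theorem E_add (n : ℕ) (f g : Finset X → ℝ) (T : Finset X) :
    D.E n (fun U => f U + g U) T = D.E n f T + D.E n g T := it_add n

theorem E_mul (n : ℕ) (a : ℝ) (f : Finset X → ℝ) (T : Finset X) :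
    D.E n (fun U => a * f U) T = a * D.E n f T := it_mul n a

theorem E_sum2 (n : ℕ) (f : X → X → Finset X → ℝ) (T : Finset X) :
    D.E n (fun U => ∑ x ∈ D.Y, ∑ y ∈ D.Y.erase x, f x y U) T
      = ∑ x ∈ D.Y, ∑ y ∈ D.Y.erase x, D.E n (f x y) T := by
  unfold Dat.E
  rw [it_sum]
  exact sum_congr rfl fun x _ => it_sum _ _ _

theorem E_E (n m : ℕ) (f : Finset X → ℝ) (T : Finset X) :
    D.E n (D.E m f) T = D.E (n + m) f T := (it_steps n m).symm

theorem E_pair (h : D.Good) {n : ℕ} (hn : n ≤ 2 ^ 32 * D.N.j) {x y : X} (hx : x ∈ D.Y)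
    (hy : y ∈ D.Y.erase x) (hc : y ∈ D.cl x y) :
    D.E n (fun U => if x ∈ U ∧ y ∈ U then 1 else 0) D.Y ≤ 101 / 100 := by
  have h1 := h.pow_hi hx (mem_of_mem_erase hy) (ne_of_mem_erase hy).symm
    (abs_le.1 (h.typ x _ y hc)).1 hn
  unfold Dat.E
  rw [it_pair, if_pos ⟨hx, mem_of_mem_erase hy⟩, mul_one]
  refine le_trans (pow_le_pow_left₀ (add_nonneg h.w0_nonneg (sum_nonneg fun i _ => ?_))
    (le_max_left _ 1) n) h1
  split_ifs
  exacts [h.v_nonneg i, le_rfl]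

theorem cl_le (h : D.Good) : (D.N.q : ℝ) ^ 40 * ∑ x ∈ D.Y, ∑ y ∈ D.Y.erase x, D.Cl x y
    ≤ D.W * (4 * (D.Y.card : ℝ) ^ 2) := by
  have h1 : ∑ x ∈ D.Y, ∑ y ∈ D.Y.erase x, D.Cl x y ≤ ∑ x ∈ D.Z, ∑ y ∈ D.Z.erase x, D.Cl x y :=
    (sum_le_sum fun x _ => sum_le_sum_of_subset_of_nonneg (erase_subset_erase x h.st.sub)
      fun y _ _ => h.am.cl_lo x y).trans (sum_le_sum_of_subset_of_nonneg h.st.sub
        fun x _ _ => sum_nonneg fun y _ => h.am.cl_lo x y)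
  have h2 : (D.Z.card : ℝ) ^ 2 ≤ (2 * D.Y.card) ^ 2 := by gcongr; exact h.half
  have h3 := h.am.W_lo
  refine ((mul_le_mul_of_nonneg_left h1 (by positivity)).trans h.am.cl_sum).trans
    (mul_le_mul_of_nonneg_left (by linarith) (by linarith))

theorem pair_le (h : D.Good) {n : ℕ} (hn : n ≤ 2 ^ 32 * D.N.j) :
    D.sg (fun x y => D.E n (fun U => (2 * D.η + D.Cl x y) * if x ∈ U ∧ y ∈ U then 1 else 0) D.Y)
      ≤ 2 * (2 * D.η * (D.Y.card : ℝ) ^ 2 + ∑ x ∈ D.Y, ∑ y ∈ D.Y.erase x, D.Cl x y) := by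
  have e0 := h.am.eta_lo
  have h1 : ∑ x ∈ D.Y, ∑ _y ∈ D.Y.erase x, 2 * D.η ≤ 2 * D.η * (D.Y.card : ℝ) ^ 2 := by
    refine (sum_le_card_nsmul _ _ (D.Y.card * (2 * D.η)) fun x _ => ?_).trans (le_of_eq ?_)
    · rw [sum_const, nsmul_eq_mul]
      gcongr
      exact erase_subset _ _
    · rw [nsmul_eq_mul]; ring
  refine le_trans ?_ (mul_le_mul_of_nonneg_left (add_le_add h1 le_rfl) zero_le_two)
  rw [← sum_add_distrib, mul_sum]
  refine sum_le_sum fun x hx => ?_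
  rw [← sum_add_distrib, mul_sum]
  refine sum_le_sum fun y hy => ?_
  have c0 := h.am.cl_lo x y
  split_ifs with hc
  · beta_reduce
    rw [E_mul]
    nlinarith [E_pair h hn hx hy hc]
  · positivity

theorem err_le (h : D.Good) {c g : ℝ} (hc : (D.N.q : ℝ) ^ 40 * c ≤ D.W * (4 * (D.Y.card : ℝ) ^ 2))
    (hg : g ≤ 2 * (D.Y.card : ℝ) ^ 2) :
    D.N.u * D.N.L ^ 5 / D.W * (2 * (2 * D.η * (D.Y.card : ℝ) ^ 2 + c) + 4 * D.W / (D.N.q : ℝ) ^ 9 * g)
      ≤ D.N.u ^ 800 * (D.Y.card : ℝ) ^ 2 := by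
  have W0 : 0 < D.W := lt_of_lt_of_le one_pos h.am.W_lo
  have L0 := h.nb.L_pos
  have u0 := h.nb.u_pos
  have q0 := h.nb.q_pos
  have e0 := h.am.eta_lo
  set y := (D.Y.card : ℝ) ^ 2 with hy
  have y0 : 0 ≤ y := sq_nonneg _
  have k : ∀ m, 1 ≤ m → D.N.L ^ 6 ≤ (D.N.q : ℝ) ^ m := fun m hm => by
    have := h.nb.q_pow_le hm
    rw [pow_one] at this
    exact ((h.nb.L_pow_le (by norm_num)).trans h.nb.Lq).trans this
  have a1 : D.N.L ^ 6 * D.η ≤ D.W := by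
    refine le_trans ?_ h.am.eta_le
    rw [mul_comm]
    exact mul_le_mul_of_nonneg_left (h.nb.L_pow_le (by norm_num)) e0
  have a2 : D.N.L ^ 6 * c ≤ D.W * (4 * y) := by
    rcases le_total 0 c with c0 | c0
    · exact (mul_le_mul_of_nonneg_right (k 40 (by norm_num)) c0).trans hc
    · exact (mul_nonpos_of_nonneg_of_nonpos (by positivity) c0).trans (by positivity)
  have a3 : D.N.L ^ 6 * (4 * D.W / (D.N.q : ℝ) ^ 9 * g) ≤ 4 * D.W * (2 * y) := by
    have b1 : D.N.L ^ 6 * (4 * D.W / (D.N.q : ℝ) ^ 9) ≤ 4 * D.W := by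
      rw [← mul_div_assoc, div_le_iff₀ (by positivity), mul_comm]
      exact mul_le_mul_of_nonneg_left (k 9 (by norm_num)) (by positivity)
    calc _ = D.N.L ^ 6 * (4 * D.W / (D.N.q : ℝ) ^ 9) * g := by ring
      _ ≤ D.N.L ^ 6 * (4 * D.W / (D.N.q : ℝ) ^ 9) * (2 * y) := by gcongr
      _ ≤ _ := by gcongr
  have a4 : D.N.L ^ 6 * (2 * (2 * D.η * y + c) + 4 * D.W / (D.N.q : ℝ) ^ 9 * g) ≤ 20 * D.W * y := by
    nlinarith [mul_le_mul_of_nonneg_right a1 y0]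
  have a5 : 20 * D.N.u ≤ D.N.u ^ 800 * D.N.L := by
    linarith [h.nb.uL' (a := 800) (by norm_num), h.nb.u_le]
  rw [div_mul_eq_mul_div, div_le_iff₀ W0]
  refine le_of_mul_le_mul_right ?_ L0
  calc _ = D.N.u * (D.N.L ^ 6 * (2 * (2 * D.η * y + c) + 4 * D.W / (D.N.q : ℝ) ^ 9 * g)) := by ring
    _ ≤ D.N.u * (20 * D.W * y) := by gcongr
    _ = 20 * D.N.u * (D.W * y) := by ring
    _ ≤ D.N.u ^ 800 * D.N.L * (D.W * y) := by gcongr
    _ = _ := by ring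

end Mirs

open Mirs in
theorem mirs (h1 : MIRP) (h2 : JK) : MIRS := by
  intro X ι _ _ D a n h ha hn
  have hn' : n ≤ 2 ^ 32 * D.N.j := by omega
  have a1 : 1 ≤ a := le_trans (le_trans (by norm_num) h.nb.s_big) ha
  have a2 : D.N.s ≤ a * (D.N.q : ℝ) ^ 60 :=
    ha.trans (le_mul_of_one_le_right (by linarith) (one_le_pow₀ h.nb.one_le_q))
  have k : D.E n _ D.Y ≤ D.E n _ D.Y :=
    it_le h.w0_nonneg h.v_nonneg n fun T hT => h1 X ι D a n T h a1 hn hT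
  rw [E_mul, E_sg, E_add, E_mul, E_mul, E_sg, E_add, E_sg, E_mul, E_sum2] at k
  refine k.trans (add_le_add (le_of_eq ?_) (le_trans ?_ (err_le h (cl_le h) (h2 X ι D _ n h a2 hn').2.2)))
  · simp only [E_E, Dat.Fg, show n + (n + 2) = 2 * (n + 1) by ring]
  · have := h.nb.u_pos
    have := h.nb.L_pos
    have := h.am.W_lo
    exact mul_le_mul_of_nonneg_left (add_le_add (pair_le h hn') le_rfl) (by positivity)

end Pool.Agent.MP_ddf486_co.KV
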