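import Pool.Agent.MP_ddf486_co.KV.SpecE

/-! Project KV, row MORE: more steps keep a tiny set tiny; a cell that makes it tiny is met. -/

set_option autoImplicit false
set_option linter.unusedSectionVars false

noncomputable section

namespace Pool.Agent.MP_ddf486_co.KV

open Finset

namespace More

variable {X ι : Type} [DecidableEq X] [Fintype ι] {a w₀ : ℝ} {v : ι → ℝ} {S : ι → Finset X}
  {x y : X} {T : Finset X}

theorem lo_stay (h0 : 0 ≤ w₀) (hv : ∀ i, 0 ≤ v i) (m : ℕ) (U : Finset X) :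
    (w₀ + ob v S x y) ^ m * lo a x y U ≤ (op w₀ v S)^[m] (lo a x y) U := by
  by_cases h : x ∈ U ∧ y ∈ U ∧ (U.card : ℝ) ≤ a
  · have e := it_pair (w₀ := w₀) (v := v) (S := S) (T := U) x y m
    rw [if_pos ⟨h.1, h.2.1⟩] at e
    rw [lo, if_pos h, ob, ← e]
    refine it_le h0 hv m fun V hV => ?_
    split_ifs with h1
    · rw [lo, if_pos ⟨h1.1, h1.2, (Nat.cast_le.2 (card_le_card hV)).trans h.2.2⟩]
    · exact lo_nonneg _ _ _ _
  · rw [lo, if_neg h, mul_zero]
    exact it_nonneg h0 hv m fun V _ => lo_nonneg _ _ _ _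

theorem rate_lo (hv : ∀ i, 0 ≤ v i) : 0 ≤ rate v S a x y T :=
  sum_nonneg fun i _ => by split_ifs; exacts [hv i, le_rfl]

theorem rate_le (hv : ∀ i, 0 ≤ v i) : rate v S a x y T ≤ ob v S x y :=
  sum_le_sum fun i _ => by
    by_cases h : x ∈ S i ∧ y ∈ S i
    · rw [if_pos h]
      split_ifs
      exacts [le_rfl, hv i]
    · rw [if_neg h, if_neg fun h' => h ⟨h'.1, h'.2.1⟩]

theorem hi_le (h0 : 0 ≤ w₀) (hv : ∀ i, 0 ≤ v i) (n : ℕ) : ∀ U ⊆ T,
    (op w₀ v S)^[n] (hi a x y) U ≤
      (w₀ + ob v S x y - rate v S a x y T) ^ n * if x ∈ U ∧ y ∈ U then 1 else 0 := by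
  induction n with
  | zero =>
    intro U _
    have := hi_add_lo a x y U
    have := lo_nonneg a x y U
    rw [pow_zero, one_mul, Function.iterate_zero_apply]
    linarith
  | succ n ih =>
    intro U hU
    generalize hp : (w₀ + ob v S x y - rate v S a x y T) ^ n = p at ih
    have e : ∀ i, v i * (op w₀ v S)^[n] (hi a x y) (U ∩ S i) ≤
        p * (((if x ∈ S i ∧ y ∈ S i then v i else 0) -
          if x ∈ S i ∧ y ∈ S i ∧ ((T ∩ S i).card : ℝ) ≤ a then v i else 0) *
          if x ∈ U ∧ y ∈ U then 1 else 0) := fun i => by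
      by_cases h : ((T ∩ S i).card : ℝ) ≤ a
      · have h1 : (op w₀ v S)^[n] (hi a x y) (U ∩ S i) ≤
            (op w₀ v S)^[n] (fun _ => 0) (U ∩ S i) := it_le h0 hv n fun V hV => by
          have : (V.card : ℝ) ≤ a := (Nat.cast_le.2 (card_le_card
            (hV.trans (inter_subset_inter_right hU)))).trans h
          rw [hi, if_neg fun h' => absurd h'.2.2 (not_lt.2 this)]
        rw [it_zero] at h1
        simpa [h] using mul_nonpos_of_nonneg_of_nonpos (hv i) h1
      · refine (mul_le_mul_of_nonneg_left (ih _ (inter_subset_left.trans hU)) (hv i)).trans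
          (le_of_eq ?_)
        by_cases h1 : x ∈ U <;> by_cases h2 : y ∈ U <;> by_cases h3 : x ∈ S i <;>
          by_cases h4 : y ∈ S i <;> simp [h, h1, h2, h3, h4, mul_comm]
    rw [it_succ, pow_succ, hp]
    refine (add_le_add (mul_le_mul_of_nonneg_left (ih U hU) h0) (sum_le_sum fun i _ => e i)).trans
      (le_of_eq ?_)
    rw [← mul_sum, ← sum_mul, sum_sub_distrib, ob, rate]
    ring

theorem pow_le {o r : ℝ} (h0 : 0 ≤ r) (h1 : r ≤ o) (n : ℕ) :
    (o - r) ^ n * (o + n * r) ≤ o ^ n * o := by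
  induction n with
  | zero => simp
  | succ n ih =>
    have a1 : 0 ≤ (o - r) ^ n := pow_nonneg (sub_nonneg.2 h1) n
    have a2 : (o - r) * (o + (n + 1) * r) ≤ o * (o + n * r) := by
      have : 0 ≤ ((n : ℝ) + 1) * (r * r) := by positivity
      nlinarith
    have a3 := mul_le_mul_of_nonneg_left a2 a1
    have a4 := mul_le_mul_of_nonneg_left ih (h0.trans h1)
    rw [pow_succ, pow_succ]
    push_cast
    nlinarith

end More

theorem more : MORE := by
  intro X ι _ _ a w₀ v S n x y T h0 hv
  refine ⟨fun m => ?_, fun hx hy h1 h2 => ?_⟩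
  · rw [it_steps, ← it_mul]
    exact it_le h0 hv n fun U _ => More.lo_stay h0 hv m U
  · have e := it_pair (w₀ := w₀) (v := v) (S := S) (T := T) x y n
    simp only [← hi_add_lo a x y] at e
    rw [it_add, hi_add_lo, if_pos ⟨hx, hy⟩, mul_one] at e
    have k := More.hi_le (a := a) (S := S) (x := x) (y := y) h0 hv n T Subset.rfl
    rw [if_pos ⟨hx, hy⟩, mul_one] at k
    have r0 := More.rate_lo (a := a) (S := S) (x := x) (y := y) (T := T) hv
    have r1 := More.rate_le (a := a) (S := S) (x := x) (y := y) (T := T) hv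
    have p := More.pow_le r0 (show _ ≤ w₀ + ob v S x y by linarith) n
    have l0 : 0 ≤ (op w₀ v S)^[n] (lo a x y) T := it_nonneg h0 hv n fun V _ => lo_nonneg _ _ _ _
    have n0 : 0 ≤ n * rate v S a x y T := mul_nonneg n.cast_nonneg r0
    change _ = (w₀ + ob v S x y) ^ n at e
    generalize n * rate v S a x y T = N at p n0 ⊢
    generalize (w₀ + ob v S x y - rate v S a x y T) ^ n = B at p k
    generalize (w₀ + ob v S x y) ^ n = A at p e h1
    have o0 : 0 ≤ w₀ + ob v S x y := by linarith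
    generalize w₀ + ob v S x y = o at p h2 o0
    rcases n0.eq_or_lt with h | h
    · rw [← h, min_eq_right zero_le_one]
      linarith
    · have m1 := min_le_left 1 N
      have m2 := min_le_right 1 N
      have m0 : 0 ≤ min 1 N := le_min zero_le_one n0
      refine le_of_mul_le_mul_right ?_ (show 0 < o + N by linarith)
      have b1 : (A - B) * (o + N) ≤ (op w₀ v S)^[n] (lo a x y) T * (o + N) :=
        mul_le_mul_of_nonneg_right (by linarith) (by linarith)
      nlinarith [mul_le_mul_of_nonneg_left h2 m0, mul_le_mul_of_nonneg_right m1 n0,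
        mul_le_mul_of_nonneg_right h1 n0]

end Pool.Agent.MP_ddf486_co.KV
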