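import Pool.Agent.MP_ddf486_co.KV.SpecE
import Pool.Agent.MP_6c3157_co.PQ.Gfb

/-! Project KV, row PHL: the potential of a subset, through one representative of each cluster. -/

set_option autoImplicit false
set_option linter.unusedSectionVars false

noncomputable section

namespace Pool.Agent.MP_ddf486_co.KV

open Finset Pool.Agent.MP_6c3157_co.PD Pool.Agent.MP_6c3157_co.PQ

theorem phl : PHL := by
  classical
  intro X _ lab κ Y T c rp h1 hc _ hT
  have h : 0 ≤ κ := zero_le_one.trans h1
  have h0 : ∀ x y, 0 ≤ gf κ (fib lab Y x y).card / (fib lab Y x y).card *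
      ((fib lab Y x y).card / (c x (lab x y)).card) := fun x y =>
    mul_nonneg (div_nonneg (Gfb.bds _ h).1 (Nat.cast_nonneg _)) (by positivity)
  have hi : ∀ (p : Prop) [Decidable p], (0 : ℝ) ≤ if p then 1 else 0 := fun p _ => by
    split_ifs <;> norm_num
  generalize hR : (fun x y => if y ∈ c x (lab x y) then
        gf κ (fib lab Y x y).card / (fib lab Y x y).card *
            ((fib lab Y x y).card / (c x (lab x y)).card) *
            (if x ∈ T ∧ rp x (lab x y) ∈ T then 1 else 0) +
          (if x ∈ T ∧ y ∈ T ∧ rp x (lab x y) ∉ T then 1 else 0)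
      else if x ∈ T ∧ y ∈ T then (1 : ℝ) else 0) = R
  have hR0 : ∀ x y, 0 ≤ R x y := fun x y => by
    rw [← hR]
    dsimp only
    by_cases e : y ∈ c x (lab x y)
    · rw [if_pos e]
      exact add_nonneg (mul_nonneg (h0 x y) (hi _)) (hi _)
    · rw [if_neg e]
      exact hi _
  suffices H : Phi lab κ T ≤ ∑ x ∈ Y, ∑ y ∈ Y.erase x, R x y by
    rw [← hR] at H
    exact H
  rw [Gfb.lf]
  refine (sum_le_sum fun x hx => ?_).trans (sum_le_sum_of_subset_of_nonneg hT
    fun x _ _ => sum_nonneg fun y _ => hR0 x y)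
  have e' := erase_subset_erase x hT
  rw [← sum_fiberwise_of_maps_to (g := lab x) (t := (Y.erase x).image (lab x))
    fun y hy => mem_image_of_mem _ hy]
  refine (sum_le_sum fun l _ => ?_).trans (sum_le_sum_of_subset_of_nonneg (image_subset_image e')
    fun l _ _ => sum_nonneg fun y _ => hR0 x y)
  have hA := filter_subset_filter (fun z => lab x z = l) e'
  by_cases e : rp x l ∈ T ∧ (c x l).Nonempty
  · have hC : c x l ⊆ (Y.erase x).filter fun z => lab x z = l := fun y hy =>
      mem_filter.2 ⟨mem_erase.2 ⟨(hc.sub x l y hy).2.1, (hc.sub x l y hy).1⟩, (hc.sub x l y hy).2.2⟩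
    have h2 : ((c x l).card : ℝ) ≠ 0 := Nat.cast_ne_zero.2 e.2.card_pos.ne'
    have h3 : (((Y.erase x).filter fun z => lab x z = l).card : ℝ) ≠ 0 :=
      Nat.cast_ne_zero.2 (e.2.mono hC).card_pos.ne'
    refine (Gfb.mono h (card_le_card hA)).trans (le_trans (le_of_eq ?_)
      (sum_le_sum_of_subset_of_nonneg hC fun y _ _ => hR0 x y))
    rw [sum_congr rfl (g := fun _ => gf κ ((Y.erase x).filter fun z => lab x z = l).card /
      (c x l).card) fun y hy => ?_, sum_const, nsmul_eq_mul, mul_div_cancel₀ _ h2]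
    rw [← hR]
    dsimp only
    rw [fib, (hc.sub x l y hy).2.2, if_pos hy, if_pos ⟨hx, e.1⟩, if_neg fun d => d.2.2 e.1,
      mul_one, add_zero, div_mul_div_cancel₀ h3]
  · refine (Gfb.bds _ h).2.1.trans (le_trans ?_
      (sum_le_sum_of_subset_of_nonneg hA fun y _ _ => hR0 x y))
    rw [card_eq_sum_ones, Nat.cast_sum]
    refine sum_le_sum fun y hy => ?_
    have hy' := mem_of_mem_erase (mem_filter.1 hy).1
    have hl := (mem_filter.1 hy).2
    rw [← hR, Nat.cast_one]
    dsimp only
    by_cases d : y ∈ c x (lab x y)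
    · have d2 : rp x (lab x y) ∉ T := fun d2 => e (hl ▸ ⟨d2, y, d⟩)
      rw [if_pos d, if_pos (⟨hx, hy', d2⟩ : x ∈ T ∧ y ∈ T ∧ rp x (lab x y) ∉ T)]
      exact le_add_of_nonneg_left (mul_nonneg (h0 x y) (hi _))
    · rw [if_neg d, if_pos ⟨hx, hy'⟩]

end Pool.Agent.MP_ddf486_co.KV
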