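import Pool.Agent.MP_ddf486_co.KV.SpecE
import Pool.Agent.MP_6c3157_co.PQ.Gfb

/-! Project KV, row PHU: the potential of a subset through junk, dead edges, living clusters. -/

set_option autoImplicit false
set_option linter.unusedSectionVars false

noncomputable section

namespace Pool.Agent.MP_ddf486_co.KV

open Finset Pool.Agent.MP_6c3157_co.PD Pool.Agent.MP_6c3157_co.PQ

theorem phu : PHU := by
  classical
  intro X _ lab κ ζ a Y T c h1 hζ hc hT ha
  have h : 0 ≤ κ := zero_le_one.trans h1
  have hi : ∀ (p : Prop) [Decidable p], (0 : ℝ) ≤ if p then 1 else 0 := fun p _ => by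
    split_ifs <;> norm_num
  have h0 : ∀ x y, 0 ≤ gf κ (fib lab Y x y).card / (fib lab Y x y).card *
      ((fib lab Y x y).card / (ζ * (c x (lab x y)).card)) * lo a x y T := fun x y =>
    mul_nonneg (mul_nonneg (div_nonneg (Gfb.bds _ h).1 (Nat.cast_nonneg _)) (by positivity)) (hi _)
  generalize hR : (fun x y => if y ∈ c x (lab x y) then
        dead a (ζ * (c x (lab x y)).card) (c x (lab x y)) x y T +
          gf κ (fib lab Y x y).card / (fib lab Y x y).card *
            ((fib lab Y x y).card / (ζ * (c x (lab x y)).card)) * lo a x y T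
      else lo a x y T) = R
  have hR0 : ∀ x y, 0 ≤ R x y := fun x y => by
    rw [← hR]
    dsimp only
    split_ifs
    exacts [add_nonneg (hi _) (h0 x y), hi _]
  suffices H : Phi lab κ T ≤ ∑ x ∈ Y, ∑ y ∈ Y.erase x, R x y by
    rw [← hR] at H
    exact H
  rw [Gfb.lf]
  refine (sum_le_sum fun x hx => ?_).trans (sum_le_sum_of_subset_of_nonneg hT
    fun x _ _ => sum_nonneg fun y _ => hR0 x y)
  have e' := erase_subset_erase x hT
  rw [← sum_fiberwise_of_maps_to (g := lab x) (t := (Y.erase x).image (lab x))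
    fun y hy => mem_image_of_mem _ hy]
  refine (sum_le_sum fun l _ => ?_).trans (sum_le_sum_of_subset_of_nonneg (image_subset_image e')
    fun l _ _ => sum_nonneg fun y _ => hR0 x y)
  have hA := filter_subset_filter (fun z => lab x z = l) e'
  have l1 : ∀ y ∈ T, lo a x y T = 1 := fun y hy => if_pos ⟨hx, hy, ha⟩
  by_cases e : ζ * (c x l).card ≤ (c x l ∩ T).card ∧ (c x l).Nonempty
  · have hC : c x l ⊆ (Y.erase x).filter fun z => lab x z = l := fun y hy =>
      mem_filter.2 ⟨mem_erase.2 ⟨(hc.sub x l y hy).2.1, (hc.sub x l y hy).1⟩, (hc.sub x l y hy).2.2⟩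
    have h2 : 0 < ζ * (c x l).card := mul_pos hζ (Nat.cast_pos.2 e.2.card_pos)
    have h3 : (((Y.erase x).filter fun z => lab x z = l).card : ℝ) ≠ 0 :=
      Nat.cast_ne_zero.2 (e.2.mono hC).card_pos.ne'
    refine (Gfb.mono h (card_le_card hA)).trans (le_trans ?_ (sum_le_sum_of_subset_of_nonneg
      (inter_subset_left.trans hC : c x l ∩ T ⊆ _) fun y _ _ => hR0 x y))
    refine le_trans ?_ (card_nsmul_le_sum _ _ (gf κ ((Y.erase x).filter fun z => lab x z = l).card /
      (ζ * (c x l).card)) fun y hy => ?_)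
    · rw [nsmul_eq_mul, ← mul_div_assoc, le_div_iff₀ h2, mul_comm]
      exact mul_le_mul_of_nonneg_right e.1 (Gfb.bds _ h).1
    rw [mem_inter] at hy
    rw [← hR]
    dsimp only
    rw [fib, (hc.sub x l y hy.1).2.2, if_pos hy.1, l1 y hy.2, mul_one, div_mul_div_cancel₀ h3]
    exact le_add_of_nonneg_left (hi _)
  · refine (Gfb.bds _ h).2.1.trans (le_trans ?_
      (sum_le_sum_of_subset_of_nonneg hA fun y _ _ => hR0 x y))
    rw [card_eq_sum_ones, Nat.cast_sum]
    refine sum_le_sum fun y hy => ?_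
    have hy' := mem_of_mem_erase (mem_filter.1 hy).1
    obtain rfl := (mem_filter.1 hy).2
    rw [← hR, Nat.cast_one]
    dsimp only
    split_ifs with d
    · rw [dead, if_pos ⟨hx, hy', ha, lt_of_not_ge fun d2 => e ⟨d2, y, d⟩⟩]
      exact le_add_of_nonneg_right (h0 x y)
    · rw [l1 y hy']

theorem phs2 : PHS2 := by
  classical
  intro X _ lab κ Y c h1 hc
  have h : 0 ≤ κ := zero_le_one.trans h1
  rw [Gfb.lf]
  refine sum_le_sum fun x _ => ?_
  rw [← sum_fiberwise_of_maps_to (g := lab x) (t := (Y.erase x).image (lab x))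
    fun y hy => mem_image_of_mem _ hy]
  refine sum_le_sum fun l _ => ?_
  have g0 := (Gfb.bds ((Y.erase x).filter fun z => lab x z = l).card h).1
  rw [sum_congr rfl (g := fun y => if y ∈ c x l then
    gf κ ((Y.erase x).filter fun z => lab x z = l).card / (c x l).card else 0) fun y hy => ?_,
    sum_ite_mem, sum_const, nsmul_eq_mul, mul_div_left_comm]
  · exact mul_le_of_le_one_right g0 (div_le_one_of_le₀
      (Nat.cast_le.2 (card_le_card inter_subset_right)) (Nat.cast_nonneg _))
  · rw [fib, (mem_filter.1 hy).2,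
      div_mul_div_cancel₀ (Nat.cast_ne_zero.2 (card_pos.2 ⟨y, hy⟩).ne')]

end Pool.Agent.MP_ddf486_co.KV
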