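import Pool.Agent.MP_ddf486_co.KV.SpecE

/-! Project KV, row STOP: the stopped cutting operator. -/

set_option autoImplicit false
set_option linter.unusedSectionVars false

noncomputable section

namespace Pool.Agent.MP_ddf486_co.KV

open Finset

namespace Stop

variable {X ι : Type} [DecidableEq X] [Fintype ι] {a w₀ : ℝ} {v : ι → ℝ} {S : ι → Finset X}
  {f g : Finset X → ℝ} {x y : X} {T : Finset X}

theorem stay (h : (T.card : ℝ) ≤ a) (n : ℕ) : (sop a w₀ v S)^[n] f T = f T := by
  induction n with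
  | zero => rfl
  | succ n ih => rw [Function.iterate_succ_apply', sop, if_pos h, ih]

theorem move (h : ¬ (T.card : ℝ) ≤ a) (n : ℕ) : (sop a w₀ v S)^[n + 1] f T =
    w₀ * (sop a w₀ v S)^[n] f T + ∑ i, v i * (sop a w₀ v S)^[n] f (T ∩ S i) := by
  rw [Function.iterate_succ_apply', sop, if_neg h]; rfl

theorem s_le (h0 : 0 ≤ w₀) (hv : ∀ i, 0 ≤ v i) (n : ℕ) (h : ∀ U ⊆ T, f U ≤ g U) :
    (sop a w₀ v S)^[n] f T ≤ (sop a w₀ v S)^[n] g T := by
  induction n generalizing T with
  | zero => exact h T Subset.rfl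
  | succ n ih =>
    by_cases k : (T.card : ℝ) ≤ a
    · rw [stay k, stay k]; exact h T Subset.rfl
    · rw [move k, move k]
      exact op_le h0 hv fun U hU => ih fun V hV => h V (hV.trans hU)

theorem s_add (n : ℕ) : (sop a w₀ v S)^[n] (fun U => f U + g U) T =
    (sop a w₀ v S)^[n] f T + (sop a w₀ v S)^[n] g T := by
  induction n generalizing T with
  | zero => rfl
  | succ n ih =>
    by_cases k : (T.card : ℝ) ≤ a
    · rw [stay k, stay k, stay k]
    · simp only [move k, ih, mul_add, sum_add_distrib]; ring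

theorem s_mul (n : ℕ) (b : ℝ) :
    (sop a w₀ v S)^[n] (fun U => b * f U) T = b * (sop a w₀ v S)^[n] f T := by
  induction n generalizing T with
  | zero => rfl
  | succ n ih =>
    by_cases k : (T.card : ℝ) ≤ a
    · rw [stay k, stay k]
    · simp only [move k, ih, mul_add, mul_sum]
      congr 1
      · ring
      · exact sum_congr rfl fun i _ => by ring

theorem s_zero (n : ℕ) : (sop a w₀ v S)^[n] (fun _ => 0) T = 0 := by
  have := s_mul (a := a) (w₀ := w₀) (v := v) (S := S) (f := fun _ => 0) (T := T) n 0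
  simpa using this

theorem s_sum {α : Type} (n : ℕ) (t : Finset α) (F : α → Finset X → ℝ) :
    (sop a w₀ v S)^[n] (fun U => ∑ b ∈ t, F b U) T = ∑ b ∈ t, (sop a w₀ v S)^[n] (F b) T := by
  classical
  induction t using Finset.induction_on with
  | empty => simpa using s_zero n
  | insert b t hb ih => simp only [sum_insert hb]; rw [s_add, ih]

theorem s_nonneg (h0 : 0 ≤ w₀) (hv : ∀ i, 0 ≤ v i) (n : ℕ) (h : ∀ U ⊆ T, 0 ≤ f U) :
    0 ≤ (sop a w₀ v S)^[n] f T := by
  have := s_le (a := a) (S := S) (f := fun _ => 0) h0 hv n h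
  rwa [s_zero] at this

theorem ob_nonneg (hv : ∀ i, 0 ≤ v i) : 0 ≤ ob v S x y :=
  sum_nonneg fun i _ => by split_ifs; exacts [hv i, le_rfl]

theorem lo_le (U : Finset X) : lo a x y U ≤ if x ∈ U ∧ y ∈ U then 1 else 0 := by
  have := hi_add_lo a x y U
  have := hi_nonneg a x y U
  linarith

theorem lo_eq (k : (T.card : ℝ) ≤ a) : lo a x y T = if x ∈ T ∧ y ∈ T then 1 else 0 := by
  unfold lo
  by_cases h1 : x ∈ T <;> by_cases h2 : y ∈ T <;> simp [h1, h2, k]

theorem ind_nonneg (p : Prop) [Decidable p] : (0 : ℝ) ≤ if p then 1 else 0 := by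
  split_ifs <;> norm_num

theorem one (h0 : 0 ≤ w₀) (hv : ∀ i, 0 ≤ v i) (n : ℕ) : (op w₀ v S)^[n] (lo a x y) T ≤
    max (w₀ + ob v S x y) 1 ^ n * (sop a w₀ v S)^[n] (lo a x y) T := by
  have ho : 0 ≤ w₀ + ob v S x y := add_nonneg h0 (ob_nonneg hv)
  induction n generalizing T with
  | zero => simp
  | succ n ih =>
    by_cases k : (T.card : ℝ) ≤ a
    · rw [stay k, lo_eq k]
      refine (it_le h0 hv _ fun U _ => lo_le U).trans ?_
      rw [it_pair]
      exact mul_le_mul_of_nonneg_right (pow_le_pow_left₀ ho (le_max_left _ _) _) (ind_nonneg _)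
    · have e1 : (op w₀ v S)^[n + 1] (lo a x y) T ≤ op w₀ v S (fun U =>
          max (w₀ + ob v S x y) 1 ^ n * (sop a w₀ v S)^[n] (lo a x y) U) T := by
        rw [Function.iterate_succ_apply']
        exact op_le h0 hv fun U _ => ih
      have e2 := it_mul (w₀ := w₀) (v := v) (S := S) (f := (sop a w₀ v S)^[n] (lo a x y)) (T := T)
        1 (max (w₀ + ob v S x y) 1 ^ n)
      simp only [Function.iterate_one] at e2
      rw [e2, op, ← move k] at e1
      exact e1.trans (mul_le_mul_of_nonneg_right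
        (pow_le_pow_right₀ (le_max_right _ _) (Nat.le_succ n))
        (s_nonneg h0 hv _ fun U _ => lo_nonneg _ _ _ _))

theorem dead_nonneg (b : ℝ) (c U : Finset X) : 0 ≤ dead a b c x y U := by
  unfold dead; split_ifs <;> norm_num

theorem two (h0 : 0 ≤ w₀) (hv : ∀ i, 0 ≤ v i) (n : ℕ) (b : ℝ) (c : Finset X) :
    min (w₀ + ob v S x y) 1 ^ n * (sop a w₀ v S)^[n] (dead a b c x y) T ≤
      (op w₀ v S)^[n] (dead a b c x y) T := by
  have ho : 0 ≤ w₀ + ob v S x y := add_nonneg h0 (ob_nonneg hv)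
  have hm : 0 ≤ min (w₀ + ob v S x y) 1 := le_min ho zero_le_one
  induction n generalizing T with
  | zero => simp
  | succ n ih =>
    by_cases k : (T.card : ℝ) ≤ a
    · rw [stay k]
      by_cases h : x ∈ T ∧ y ∈ T ∧ (T.card : ℝ) ≤ a ∧ ((c ∩ T).card : ℝ) < b
      · have e := it_pair (w₀ := w₀) (v := v) (S := S) (T := T) x y (n + 1)
        rw [if_pos ⟨h.1, h.2.1⟩, mul_one] at e
        rw [dead, if_pos h, mul_one]
        refine (pow_le_pow_left₀ hm (min_le_left _ _) _).trans ?_
        rw [ob, ← e]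
        refine it_le h0 hv _ fun V hV => ?_
        split_ifs with h1
        · rw [dead, if_pos ⟨h1.1, h1.2, (Nat.cast_le.2 (card_le_card hV)).trans k,
            (Nat.cast_le.2 (card_le_card (inter_subset_inter_left hV))).trans_lt h.2.2.2⟩]
        · exact dead_nonneg _ _ _
      · rw [dead, if_neg h, mul_zero]
        exact it_nonneg h0 hv _ fun V _ => dead_nonneg _ _ _
    · have e1 : op w₀ v S (fun U => min (w₀ + ob v S x y) 1 ^ n *
          (sop a w₀ v S)^[n] (dead a b c x y) U) T ≤ (op w₀ v S)^[n + 1] (dead a b c x y) T := by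
        rw [Function.iterate_succ_apply']
        exact op_le h0 hv fun U _ => ih
      have e2 := it_mul (w₀ := w₀) (v := v) (S := S) (f := (sop a w₀ v S)^[n] (dead a b c x y))
        (T := T) 1 (min (w₀ + ob v S x y) 1 ^ n)
      simp only [Function.iterate_one] at e2
      rw [e2, op, ← move k] at e1
      exact (mul_le_mul_of_nonneg_right
        (pow_le_pow_of_le_one hm (min_le_right _ _) (Nat.le_succ n))
        (s_nonneg h0 hv _ fun U _ => dead_nonneg _ _ _)).trans e1

theorem three (h0 : 0 ≤ w₀) (hv : ∀ i, 0 ≤ v i) (n : ℕ) : (sop a w₀ v S)^[n] (lo a x y) T ≤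
    lo a x y T + ob v S x y * ∑ l ∈ range n, (op w₀ v S)^[l] (hi a x y) T := by
  induction n generalizing T with
  | zero => simp
  | succ n ih =>
    by_cases k : (T.card : ℝ) ≤ a
    · rw [stay k]
      exact le_add_of_nonneg_right (mul_nonneg (ob_nonneg hv)
        (sum_nonneg fun l _ => it_nonneg h0 hv _ fun U _ => hi_nonneg _ _ _ _))
    · have e0 : lo a x y T = 0 := by rw [lo, if_neg fun h => k h.2.2]
      have e1 : (sop a w₀ v S)^[n + 1] (lo a x y) T ≤ op w₀ v S (fun U => lo a x y U +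
          ob v S x y * ∑ l ∈ range n, (op w₀ v S)^[l] (hi a x y) U) T := by
        rw [move k]
        exact op_le h0 hv fun U _ => ih
      have e2 := it_add (w₀ := w₀) (v := v) (S := S) (f := lo a x y) (g := fun U =>
        ob v S x y * ∑ l ∈ range n, (op w₀ v S)^[l] (hi a x y) U) (T := T) 1
      have e3 := it_mul (w₀ := w₀) (v := v) (S := S)
        (f := fun U => ∑ l ∈ range n, (op w₀ v S)^[l] (hi a x y) U) (T := T) 1 (ob v S x y)
      have e4 := it_sum (w₀ := w₀) (v := v) (S := S) (T := T) 1 (range n)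
        fun l => (op w₀ v S)^[l] (hi a x y)
      simp only [Function.iterate_one] at e2 e3 e4
      have e5 : op w₀ v S (lo a x y) T ≤ ob v S x y * hi a x y T := by
        have e6 := hi_add_lo a x y T
        rw [e0, add_zero] at e6
        rw [op, e0, mul_zero, zero_add, ob, sum_mul, e6]
        refine sum_le_sum fun i _ => (mul_le_mul_of_nonneg_left (lo_le _) (hv i)).trans ?_
        by_cases h1 : x ∈ T <;> by_cases h2 : y ∈ T <;> by_cases h3 : x ∈ S i <;>
          by_cases h4 : y ∈ S i <;> simp [h1, h2, h3, h4]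
      rw [e2, e3, e4] at e1
      rw [e0, zero_add, sum_range_succ', mul_add]
      simp only [Function.iterate_succ_apply', Function.iterate_zero_apply] at e1 ⊢
      linarith

theorem four (h0 : 0 ≤ w₀) (hv : ∀ i, 0 ≤ v i) (n : ℕ) : (sop a w₀ v S)^[n] (lo a x y) T ≤
    max (w₀ + ob v S x y) 1 ^ n * if x ∈ T ∧ y ∈ T then 1 else 0 := by
  induction n generalizing T with
  | zero => simpa using lo_le T
  | succ n ih =>
    by_cases k : (T.card : ℝ) ≤ a
    · rw [stay k]
      exact (lo_le T).trans (le_mul_of_one_le_left (ind_nonneg _) (one_le_pow₀ (le_max_right _ _)))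
    · have e1 : (sop a w₀ v S)^[n + 1] (lo a x y) T ≤ op w₀ v S (fun U =>
          max (w₀ + ob v S x y) 1 ^ n * if x ∈ U ∧ y ∈ U then 1 else 0) T := by
        rw [move k]
        exact op_le h0 hv fun U _ => ih
      have e2 := it_mul (w₀ := w₀) (v := v) (S := S)
        (f := fun U => if x ∈ U ∧ y ∈ U then 1 else 0) (T := T) 1 (max (w₀ + ob v S x y) 1 ^ n)
      rw [it_pair, pow_one, Function.iterate_one] at e2
      rw [e2, ← mul_assoc] at e1
      refine e1.trans (mul_le_mul_of_nonneg_right ?_ (ind_nonneg _))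
      rw [pow_succ]
      exact mul_le_mul_of_nonneg_left (le_max_left _ _)
        (pow_nonneg (zero_le_one.trans (le_max_right _ _)) _)

end Stop

theorem sopl : SOPL := fun _ _ _ _ _ _ _ _ n h0 hv =>
  ⟨fun _ _ _ h => Stop.s_le h0 hv n h, fun _ _ _ => Stop.s_add n, fun b _ _ => Stop.s_mul n b,
    fun _ t F _ => Stop.s_sum n t F⟩

theorem stop : STOP := fun _ _ _ _ _ _ _ _ n x y T h0 hv =>
  ⟨Stop.one h0 hv n, Stop.two h0 hv n, Stop.three h0 hv n, (Stop.four h0 hv n).trans <| by
    split_ifs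
    · exact (mul_one _).le
    · rw [mul_zero]; exact pow_nonneg (zero_le_one.trans (le_max_right _ _)) _⟩

end Pool.Agent.MP_ddf486_co.KV
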