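import Pool.Agent.MP_ddf486_co.KV.SpecE2
import Pool.Agent.MP_6c3157_co.PQ.Gfb

/-! Project KV, row STPS: the lower bound for the potential at the stop. -/

set_option autoImplicit false
set_option linter.unusedSectionVars false

noncomputable section

namespace Pool.Agent.MP_ddf486_co.KV

open Finset Pool.Agent.MP_6c3157_co.PD Pool.Agent.MP_6c3157_co.PQ

namespace Stps

variable {X : Type} [DecidableEq X]

theorem dead_nonneg (a b : ℝ) (c : Finset X) (x y : X) (T : Finset X) : 0 ≤ dead a b c x y T := by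
  unfold dead
  split_ifs <;> norm_num

theorem pairs {Y T : Finset X} (h : T ⊆ Y) (a : ℝ) :
    ∑ x ∈ Y, ∑ y ∈ Y.erase x, lo a x y T ≤ Pr T := by
  have e : ∀ x ∈ Y, ∑ y ∈ Y.erase x, lo a x y T ≤ if x ∈ T then (T.card : ℝ) - 1 else 0 :=
    fun x _ => by
      split_ifs with hx
      · refine (sum_le_sum (g := fun y => if y ∈ T then (1 : ℝ) else 0) fun y _ => ?_).trans ?_
        · unfold lo
          split_ifs with h1 h2
          exacts [le_rfl, absurd h1.2.1 h2, zero_le_one, le_rfl]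
        · rw [sum_ite_mem, sum_const, nsmul_eq_mul, mul_one, erase_inter, inter_eq_right.2 h,
            cast_card_erase_of_mem hx]
      · exact (sum_eq_zero fun y _ => if_neg fun k => hx k.1).le
  refine (sum_le_sum e).trans_eq ?_
  rw [sum_ite_mem, inter_eq_right.2 h, sum_const, nsmul_eq_mul, Pr]

end Stps

theorem stps (h1 : SOPL) (h2 : STOP) (h3 : PHU) (h4 : PHS2) (h5 : JK) : STPS := by
  classical
  intro X ι _ _ D a n h ha ha' hY hn
  obtain ⟨p1, p2, p3, p4⟩ := h1 X ι a D.w0 D.v D.F.S n h.w0_nonneg h.v_nonneg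
  have u0 := h.nb.u_pos
  have u1 := h.nb.u_le
  have k1 := h.nb.one_le_ka
  have z0 : 0 < D.N.u ^ 40 := by positivity
  let g : X → X → ℝ := fun x y => gf D.N.κ (fib D.lab D.Y x y).card / (fib D.lab D.Y x y).card *
    ((fib D.lab D.Y x y).card / (D.cl x y).card)
  have g0 : ∀ x y, 0 ≤ g x y := fun x y => by
    have := (gfb.2.2.1 D.N.κ (fib D.lab D.Y x y).card (by linarith)).1
    positivity
  let dd : X → X → Finset X → ℝ := fun x y => dead a (D.N.u ^ 40 * (D.cl x y).card) (D.cl x y) x y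
  have d0 : ∀ x y T, 0 ≤ dd x y T := fun x y T => Stps.dead_nonneg _ _ _ _ _ _
  have pos : ∀ f : Finset X → ℝ, (∀ T, 0 ≤ f T) → 0 ≤ D.Es a n f := fun f hf => by
    have e := p1 (fun U => 0 * f U) f D.Y fun U _ => by rw [zero_mul]; exact hf U
    rwa [p3, zero_mul] at e
  have s1 : ∀ T ⊆ D.Y, D.N.u * ∑ x ∈ D.Y, ∑ y ∈ D.Y.erase x,
      (if y ∈ D.cl x y then lo a x y T else 0) ≤ ∑ x ∈ D.Y, ∑ y ∈ D.Y.erase x,
      if y ∈ D.cl x y then dd x y T + g x y / D.N.u ^ 40 * lo a x y T else lo a x y T :=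
    fun T hT => by
      by_cases c : (T.card : ℝ) ≤ a
      · refine le_trans ?_ ((h.pot.pl T (hT.trans h.st.sub) (c.trans ha')).trans
          ((h3 X D.lab D.N.κ _ a D.Y T D.c k1 z0 h.cs hT c).trans_eq
            (sum_congr rfl fun x _ => sum_congr rfl fun y _ => ?_)))
        · refine mul_le_mul_of_nonneg_left (le_trans (sum_le_sum fun x _ => sum_le_sum fun y _ => ?_)
            (Stps.pairs hT a)) u0.le
          split_ifs
          exacts [le_rfl, lo_nonneg _ _ _ _]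
        · refine if_congr Iff.rfl ?_ rfl
          simp only [dd, g, Dat.cl]
          ring
      · have e : ∀ x y, lo a x y T = 0 := fun x y => if_neg fun k => c k.2.2
        simp only [e, ite_self, sum_const_zero, mul_zero, add_zero]
        refine sum_nonneg fun x _ => sum_nonneg fun y _ => ?_
        split_ifs
        exacts [d0 _ _ _, le_rfl]
  have s2 := p1 _ _ D.Y s1
  rw [p3, p4, p4] at s2
  simp only [p4] at s2
  have s3 : D.N.u * D.Fg n a ≤ 101 / 100 * (D.N.u * ∑ x ∈ D.Y, ∑ y ∈ D.Y.erase x,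
      (sop a D.w0 D.v D.F.S)^[n] (fun T => if y ∈ D.cl x y then lo a x y T else 0) D.Y) := by
    rw [mul_left_comm]
    refine mul_le_mul_of_nonneg_left ?_ u0.le
    simp only [Dat.Fg, Dat.sg, mul_sum]
    refine sum_le_sum fun x hx => sum_le_sum fun y hy => ?_
    split_ifs with c
    · obtain ⟨e, hy⟩ := mem_erase.1 hy
      exact (h2 X ι a _ _ _ n x y D.Y h.w0_nonneg h.v_nonneg).1.trans (mul_le_mul_of_nonneg_right
        (h.pow_hi hx hy e.symm (abs_le.1 (h.typ _ _ _ c)).1 hn) (pos _ (lo_nonneg a x y)))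
    · exact mul_nonneg (by norm_num) (pos _ fun _ => le_rfl)
  have s4 : ∑ x ∈ D.Y, ∑ y ∈ D.Y.erase x, (sop a D.w0 D.v D.F.S)^[n] (fun T =>
      if y ∈ D.cl x y then dd x y T + g x y / D.N.u ^ 40 * lo a x y T else lo a x y T) D.Y ≤
      100 / 99 * D.sg (fun x y => D.E n (dd x y) D.Y) + 101 / 100 / D.N.u ^ 40 * D.sg g +
        D.sj fun x y => D.Es a n (lo a x y) := by
    simp only [Dat.sg, Dat.sj, mul_sum, ← sum_add_distrib]
    refine sum_le_sum fun x hx => sum_le_sum fun y hy => ?_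
    split_ifs with c
    · obtain ⟨e, hy⟩ := mem_erase.1 hy
      obtain ⟨-, q2, -, q4⟩ := h2 X ι a _ _ D.F.S n x y D.Y h.w0_nonneg h.v_nonneg
      have q5 := (mul_le_mul_of_nonneg_right
        (h.pow_lo hx hy e.symm (abs_le.1 (h.typ _ _ _ c)).2 hn) (pos _ (d0 x y))).trans (q2 _ _)
      have q6 := mul_le_mul_of_nonneg_left
        (q4.trans (h.pow_hi hx hy e.symm (abs_le.1 (h.typ _ _ _ c)).1 hn))
        (div_nonneg (g0 x y) z0.le)
      rw [p2, p3]
      change 99 / 100 * (sop a D.w0 D.v D.F.S)^[n] (dd x y) D.Y ≤ D.E n (dd x y) D.Y at q5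
      have q7 : 101 / 100 / D.N.u ^ 40 * g x y = g x y / D.N.u ^ 40 * (101 / 100) := by ring
      linarith
    · simp only [mul_zero, zero_add]
      exact le_rfl
  have y0 : (0 : ℝ) ≤ (D.Y.card : ℝ) ^ 2 := by positivity
  have s5 : D.sg g ≤ D.N.u ^ 40 * (D.N.u ^ 700 / 10 * (D.Y.card : ℝ) ^ 2) := by
    have e1 := (h4 X D.lab D.N.κ D.Y D.c k1 h.cs).trans
      (((gfb.2.2.2 X D.lab D.N.κ D.Z k1).2.1 D.Y h.st.sub).trans h.pot.bad)
    have e2 : (D.Z.card : ℝ) ^ 2 ≤ 4 * (D.Y.card : ℝ) ^ 2 := by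
      have := pow_le_pow_left₀ (Nat.cast_nonneg _) h.half 2
      linarith
    have e3 : (1 + 8 * D.N.u) * D.N.ψ ≤ D.N.u ^ 740 / 40 := by
      have e4 := h.nb.psi_le.trans (h.nb.pow_le (show 740 + 1 ≤ 100000 by norm_num))
      have e5 : 0 < D.N.u ^ 740 := by positivity
      have e6 := h.nb.psi_pos
      rw [pow_succ] at e4
      nlinarith
    refine e1.trans ((mul_le_mul e3 e2 (by positivity) (by positivity)).trans_eq ?_)
    ring
  have s6 : (D.sj fun x y => D.Es a n (lo a x y)) ≤ D.N.u ^ 700 / 10 * (D.Y.card : ℝ) ^ 2 := by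
    have e1 := (h5 X ι D a n h ha hn).1 hY
    have e2 := h.nb.uL' (show 700 + 1 ≤ 100000 by norm_num)
    have e3 := h.nb.L_pow_le (show 1 ≤ 14 by norm_num)
    have e5 : 0 < D.N.u ^ 700 := by positivity
    have e6 := h.nb.L_pos
    rw [pow_one] at e3
    rw [pow_succ] at e2
    have e4 : 1 ≤ D.N.u ^ 700 / 10 * D.N.L ^ 14 := by
      have := mul_le_mul (mul_le_mul_of_nonneg_left (u1.trans (show _ ≤ 1 / 10 by norm_num)) e5.le)
        e3 e6.le (by positivity)
      linarith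
    refine le_of_mul_le_mul_left (e1.trans ?_) (pow_pos e6 14)
    nlinarith
  have s7 : 0 ≤ D.sg fun x y => D.E n (dd x y) D.Y :=
    sum_nonneg fun x _ => sum_nonneg fun y _ => by
      split_ifs
      exacts [it_nonneg h.w0_nonneg h.v_nonneg n fun U _ => d0 x y U, le_rfl]
  have s8 : 101 / 100 / D.N.u ^ 40 * D.sg g ≤
      101 / 100 * (D.N.u ^ 700 / 10 * (D.Y.card : ℝ) ^ 2) :=
    (mul_le_mul_of_nonneg_left s5 (by positivity)).trans_eq
      (by rw [← mul_assoc, div_mul_cancel₀ _ z0.ne'])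
  have s9 : 0 ≤ D.N.u ^ 700 * (D.Y.card : ℝ) ^ 2 := mul_nonneg (pow_pos u0 _).le y0
  change _ ≤ 2 * D.sg (fun x y => D.E n (dd x y) D.Y) + _
  linarith

end Pool.Agent.MP_ddf486_co.KV
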