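import Pool.Agent.MP_ddf486_co.KV.GlueE
import Pool.Agent.MP_ddf486_co.KV.Stop
import Pool.Agent.MP_ddf486_co.KV.More
import Pool.Agent.MP_ddf486_co.KV.Lema
import Pool.Agent.MP_ddf486_co.KV.Dead1
import Pool.Agent.MP_ddf486_co.KV.Phu
import Pool.Agent.MP_ddf486_co.KV.Phl
import Pool.Agent.MP_ddf486_co.KV.Cla
import Pool.Agent.MP_ddf486_co.KV.Cl1
import Pool.Agent.MP_ddf486_co.KV.Jk
import Pool.Agent.MP_ddf486_co.KV.Mirp
import Pool.Agent.MP_ddf486_co.KV.Mirs
import Pool.Agent.MP_ddf486_co.KV.Deads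
import Pool.Agent.MP_ddf486_co.KV.Stps
import Pool.Agent.MP_ddf486_co.KV.Los1
import Pool.Agent.MP_ddf486_co.KV.Los2

/-! Project KV: assembly of block E. -/

set_option autoImplicit false

namespace Pool.Agent.MP_ddf486_co.KV

theorem all_jmp (h : TAIL) : JMP :=
  jmp (cl1 cla) (deads (dead1 lema (nopr lema)) (mirs (mirp more) (jk stop h)) more)
    (stps sopl stop phu phs2 (jk stop h))

theorem all_los (h : TAIL) : LOS := losT (cl1 cla) (los1 more) (los2 phl phs2 (jk stop h))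

end Pool.Agent.MP_ddf486_co.KV
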