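import Pool.Agent.MP_ddf486_co.KV.SpecB
import Pool.Agent.MP_6c3157_co.PD.Band
import Pool.Agent.MP_6c3157_co.PD.Hid
import Pool.Agent.MP_6c3157_co.PD.Fourp
import Pool.Agent.MP_6c3157_co.PD.Cut
import Pool.Agent.MP_6c3157_co.PD.Lx
import Pool.Agent.MP_6c3157_co.PD.Lxp

/-! Project KV, row BANDR: the band of comparable heights with a free share. -/

set_option autoImplicit false

noncomputable section

namespace Pool.Agent.MP_ddf486_co.KV

open Finset Pool.Agent.MP_6c3157_co.PD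

open Classical in
theorem pigr {X : Type} [DecidableEq X] (lab : X → X → ℝ) {Q A B : Finset X} {k : ℕ} (hA : A ⊆ Q)
    (hB : B ⊆ Q) (cA : A.card = k) (cB : B.card = k) (hZ : 2 * Zs lab Q < k * (k - 1)) :
    ∃ x ∈ B, ∃ y₁ ∈ A, ∃ y₂ ∈ A, ∃ y₃ ∈ A, y₁ ≠ x ∧ y₂ ≠ x ∧ y₃ ≠ x ∧
      y₁ ≠ y₂ ∧ y₁ ≠ y₃ ∧ y₂ ≠ y₃ ∧ lab x y₁ = lab x y₂ ∧ lab x y₁ = lab x y₃ := by
  have h1 : ∃ x ∈ B, ((Q.erase x).image (lab x)).card * 2 < (A.erase x).card := by
    by_contra hn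
    push Not at hn
    have h2 : B.card • (k - 1) ≤ ∑ x ∈ B, ((Q.erase x).image (lab x)).card * 2 :=
      card_nsmul_le_sum _ _ _ fun x hx => le_trans (by rw [← cA]; exact pred_card_le_card_erase)
        (hn x hx)
    have h3 : ∑ x ∈ B, ((Q.erase x).image (lab x)).card ≤ Zs lab Q := sum_le_sum_of_subset hB
    rw [← sum_mul, cB, smul_eq_mul] at h2
    omega
  obtain ⟨x, hx, h2⟩ := h1
  obtain ⟨l, -, h3⟩ := exists_lt_card_fiber_of_mul_lt_card_of_maps_to (f := lab x)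
    (fun a ha => mem_image_of_mem _ (erase_subset_erase x hA ha)) h2
  obtain ⟨a, ha, b, hb, c, hc, e1, e2, e3⟩ := two_lt_card.1 h3
  rw [mem_filter, mem_erase] at ha hb hc
  exact ⟨x, hx, a, ha.1.2, b, hb.1.2, c, hc.1.2, ha.1.1, hb.1.1, hc.1.1, e1, e2, e3,
    ha.2.trans hb.2.symm, ha.2.trans hc.2.symm⟩

theorem bandr : BANDR := by
  intro X PL _ _ s Q k hs hk hn hZ
  have h2 := fourp lx (lxp lx)
  obtain ⟨C0, hC⟩ := hid X PL s (heavy Q) hs
  obtain ⟨A, B, Y, hA, hB, hY, cA, cB, cY, lo, hi⟩ :=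
    cut X Q (fun x => s.H (heavy Q) x - C0) k (by omega) hk
  obtain ⟨a, ha, ht⟩ := exists_max_image A (fun x => s.H (heavy Q) x - C0)
    (card_pos.1 (by omega))
  have he : ep ≤ 1 := by unfold ep; norm_num
  have up : ∀ x y, x ≠ y → s.O (heavy Q) x y ≤
      s.H (heavy Q) x - C0 + (s.H (heavy Q) y - C0) + 1 := fun x y h => by
    have := (abs_le.1 (hC x y h)).2
    linarith
  have dn : ∀ x y, x ≠ y → s.H (heavy Q) x - C0 + (s.H (heavy Q) y - C0) - 1 ≤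
      s.O (heavy Q) x y := fun x y h => by
    have := (abs_le.1 (hC x y h)).1
    linarith
  have hv := fun p => band_hv (s.c p) Q
  obtain ⟨t, e⟩ : ∃ t, s.H (heavy Q) a - C0 = t := ⟨_, rfl⟩
  simp only [e] at ht
  have k1 : -1 / 2 ≤ t ∧ C0 ≤ 9 * t + 185 := by
    obtain ⟨x, hx, y₁, m1, y₂, m2, y₃, m3, n1, n2, n3, n12, n13, n23, l2, l3⟩ :=
      pigr s.lab hA hA cA cA hZ
    have f := (h2 X PL s (heavy Q) hs hv x y₁ y₂ y₃ n1 n2 n3 n12 n13 n23 l2 l3).1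
    have := up _ _ n23
    have := up _ _ n13
    have := up _ _ n12
    have := up _ _ n3.symm
    have := hs.O_nonneg (hv := heavy Q) y₁ y₃
    have := ht _ hx
    have := ht _ m1
    have := ht _ m2
    have := ht _ m3
    constructor <;> linarith
  obtain ⟨b, hb, k2⟩ : ∃ b ∈ B, s.H (heavy Q) b - C0 ≤ 15 * t + 469 := by
    obtain ⟨x, hx, y₁, m1, y₂, m2, y₃, m3, n1, n2, n3, n12, n13, n23, l2, l3⟩ :=
      pigr s.lab hA hB cA cB hZ
    have f := (h2 X PL s (heavy Q) hs hv x y₁ y₂ y₃ n1 n2 n3 n12 n13 n23 l2 l3).2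
    have := up _ _ n23
    have := up _ _ n13
    have := up _ _ n12
    have := dn _ _ n3.symm
    have := ht _ m1
    have := ht _ m2
    have := ht _ m3
    exact ⟨x, hx, by linarith [k1.2]⟩
  have k3 : ∀ y ∈ Y, t ≤ s.H (heavy Q) y - C0 ∧ s.H (heavy Q) y - C0 ≤ 15 * t + 469 :=
    fun y hy => ⟨e ▸ lo a ha y hy, (hi y hy b hb).trans k2⟩
  obtain ⟨k4, k5⟩ := k1
  refine ⟨Y, hY, cY, fun x => s.H (heavy Q) x - C0, 34 * t + 1340, hs, fun i h => ?_,
    fun i h => ?_, fun x _ y _ h => hC x y h, fun x hx => ?_, fun x hx => ?_,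
    fun x hx y hy h => ?_, by linarith, fun x hx y hy h => ?_⟩
  · have := band_card hY i.2
    unfold heavy at h
    omega
  · have := card_le_card (inter_subset_inter_right (u := i.2) hY)
    unfold heavy at h
    omega
  · linarith [(k3 x hx).1]
  · linarith [(k3 x hx).2]
  · linarith [(k3 x hx).2, (k3 y hy).2, up x y h]
  · linarith [(k3 x hx).1, (k3 y hy).1, dn x y h]

end Pool.Agent.MP_ddf486_co.KV
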