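import Pool.Agent.MP_6c3157_co.PQ.SpecD

/-! Project KV: the interfaces between the blocks. -/

set_option autoImplicit false
set_option linter.unusedSectionVars false

noncomputable section

namespace Pool.Agent.MP_ddf486_co.KV

open Finset Pool.Agent.MP_6c3157_co.PD Pool.Agent.MP_6c3157_co.PQ

/-- the numbers of the whole argument -/
structure Nb where
  u : ℝ
  L : ℝ
  q : ℕ
  s : ℝ
  k : ℝ
  ψ : ℝ
  κ : ℝ
  H : ℝ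
  r : ℕ
  m : ℕ
  I : ℕ
  K : ℕ
  j : ℕ
  es : ℕ → ℝ

/-- the inequalities between the numbers -/
structure Nb.Good (N : Nb) : Prop where
  u_pos : 0 < N.u
  u_le : N.u ≤ 1 / 10 ^ 30
  uL : 1 ≤ N.u ^ 100000 * N.L
  psi_pos : 0 < N.ψ
  psi_le : N.ψ ≤ N.u ^ 100000
  psi_ge : 1 ≤ N.ψ ^ 2 * N.L
  ka : 1 ≤ N.κ * N.ψ
  k_lo : 1 ≤ N.k
  kq : N.k * N.L ^ 30 ≤ N.q
  q_u : Real.log N.q * N.u ≤ 1
  r_odd : Odd N.r
  rq : (N.q : ℝ) ^ 200 ≤ 2 ^ N.r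
  H_lo : 1 ≤ N.H
  HK : N.L ^ 12 ≤ N.H ^ N.K
  Hr : Real.exp (-(N.r / (8 * N.H ^ 2))) ≤ N.u ^ 800
  sq : ((N.q : ℝ) ^ 60) ^ (2 ^ N.K * (N.r + 1)) ≤ N.s
  sq' : (N.q : ℝ) ^ 2000 ≤ N.s
  m_lo : 20 ≤ N.m
  mL : N.L ^ 500 * N.u ^ N.m ≤ 1
  I_u : N.I * N.u ≤ 1
  I_hi : 100 * N.u ^ (8 * N.I) * N.L ^ 4 ≤ 1
  I_lo : 1 ≤ 100 * N.u ^ (8 * N.I) * N.L ^ 5
  j_lo : N.L ^ 10 ≤ N.j
  es_zero : N.es 0 = 0
  es_pos : ∀ i < N.I, 0 < N.es (i + 1)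
  es_k : ∀ i ≤ N.I, N.k * N.es i * N.L ^ 20 ≤ 1
  es_q : ∀ i < N.I, 1 ≤ (N.es (i + 1) / 4) ^ N.m * (N.q : ℝ) ^ 40
  es_step : ∀ i < N.I, N.es i * N.L ^ 30 ≤ (N.es (i + 1) / 4) ^ (2 * N.m)

section geo

variable {X PL K : Type} [DecidableEq X] [Field K]

/-- the trace of complex conjugation -/
def Sym (A : Ari X PL K) : Prop :=
  ∀ (P : Finset X) (f : MvPolynomial (Fin 2) K), f ≠ 0 → (∀ z ∈ P, A.ev f z = 0) →
    ∃ g : MvPolynomial (Fin 2) K, g ≠ 0 ∧ g.degreeOf 0 ≤ f.degreeOf 1 ∧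
      g.degreeOf 1 ≤ f.degreeOf 0 ∧ ∀ z ∈ P, A.ev g z = 0

variable [Fintype PL]

open Classical in
/-- what is known about a minimal bad set `Q` -/
structure Hyp (N : Nb) (s : Sys X PL) (A : Ari X PL K) (η : ℝ) (Q : Finset X) : Prop where
  ari : A.Good s η
  eta_lo : 0 ≤ η
  eta : η * Q.card ≤ 1
  sym : Sym A
  pin : ∀ y ∈ Q, ∀ z ∈ Q, y ≠ z → ((Q.filter fun x => A.bis x y z).card : ℝ) ≤ N.k
  big : N.s ^ 2 ≤ Q.card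
  small : (Q.card : ℝ) ≤ Real.exp N.L
  bad : Phi s.lab N.κ Q ≤ N.ψ * (Q.card : ℝ) ^ 2
  pl : ∀ S ⊆ Q, (S.card : ℝ) ≤ N.s ^ 2 → N.u * Pr S ≤ Phi s.lab N.κ S
  ih : ∀ S ⊆ Q, S.card ^ 20 ≤ Q.card ^ 19 →
    (1 + 100 * N.u) * N.ψ * Pr S ≤ Phi s.lab N.κ S

/-- height of `z` seen from the edge `x, y` -/
def ht (s : Sys X PL) (x y z : X) : ℝ :=
  ∑ p, s.m p * max 0 (Real.log ((s.c p).d x z / (s.c p).d x y))

/-- length of the levels above the quantile radius -/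
def lq (R : PL → ℝ) (rq : PL → X → ℝ) (p : PL) (x : X) : ℝ := max 0 (Real.log (R p / rq p x))

/-- the part of the depth of a pair that lies above the quantile radius -/
def lm2 (s : Sys X PL) (R : PL → ℝ) (rq : PL → X → ℝ) (x y : X) : ℝ :=
  ∑ p, s.m p * min (max 0 (dep s R p x y)) (lq R rq p x)

open Classical in
/-- the fine model: the output of the coarse stage and of the blocks -/
structure Fm (N : Nb) (s : Sys X PL) (A : Ari X PL K) (η : ℝ) (Z : Finset X) (R L : PL → ℝ)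
    (G rq : PL → X → ℝ) (cn : PL → X) (W ε : ℝ) : Prop where
  ari : A.Good s η
  eta_lo : 0 ≤ η
  eta : η * Z.card ≤ 1
  big : N.s ^ 2 ≤ 2 * Z.card
  cen : Cen s Z R G W ε
  e_le : ε ≤ N.u ^ 10
  L_lo : ∀ p, 0 ≤ L p
  L_sum : ∑ p, s.m p * L p ≤ ε * W
  R_lo : ∀ p, 256 * (s.c p).rlo ≤ R p
  R_hi : ∀ p, R p ≤ (s.c p).rhi
  G_eq : ∀ p y, G p y = max 0 (Real.log ((s.c p).d y (cn p) / R p))
  cn_in : ∀ p, 10 ^ 6 * (Z.filter fun x => R p < (s.c p).d (cn p) x).card ≤ Z.card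
  mass : ∀ p, ∀ y ∈ Z,
    10 ^ 6 * (Z.filter fun x => (s.c p).d y x < R p * Real.exp (-L p)).card ≤ Z.card
  rq_mem : ∀ p, ∀ y ∈ Z, ∃ a ∈ Z, a ≠ y ∧ rq p y = (s.c p).d y a
  rq_in : ∀ p, ∀ y ∈ Z, (Z.card : ℝ) ≤ (N.q : ℝ) ^ 50 * ((s.c p).ball Z y (rq p y)).card
  rq_min : ∀ p, ∀ y ∈ Z, ∀ t < rq p y, (N.q : ℝ) ^ 50 * ((s.c p).ball Z y t).card < Z.card
  free : ∀ b ≤ N.q ^ 3, A.Free Z b (4 * Z.card / (N.q : ℝ) ^ 45)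
  pin : ∀ y ∈ Z, ∀ z ∈ Z, y ≠ z → ((Z.filter fun x => A.bis x y z).card : ℝ) ≤ N.k
  al : ∑ x ∈ Z, ∑ y ∈ Z.erase x, lm2 s R rq x y ≤ N.u ^ 7 * W * (Z.card : ℝ) ^ 2
  sep : 2 * (ed Z fun x y =>
      Z.card ^ 9 < (Z.filter fun z => ht s x y z ≤ N.u ^ 4 * W).card ^ 10 : ℝ) ≤
    N.u * (Z.card : ℝ) ^ 2

end geo

/-- a finite weighted family of cells of two kinds -/
structure Fam (X ι : Type) where
  w : ι → ℝ
  S : ι → Finset X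
  b : ι → Prop

section fam

variable {X ι : Type} [DecidableEq X] [Fintype ι]

open Classical in
/-- weight of the cells with a property -/
def Fam.W (F : Fam X ι) (φ : ι → Prop) : ℝ := ∑ i, if φ i then F.w i else 0

/-- overlap through the small cells -/
def Fam.OB (F : Fam X ι) (y z : X) : ℝ := F.W fun i => F.b i ∧ y ∈ F.S i ∧ z ∈ F.S i

/-- overlap through the other cells -/
def Fam.OA (F : Fam X ι) (y z : X) : ℝ := F.W fun i => ¬ F.b i ∧ y ∈ F.S i ∧ z ∈ F.S i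

/-- small cells through `x` and `y` that miss `z` -/
def Fam.DB (F : Fam X ι) (x y z : X) : ℝ :=
  F.W fun i => F.b i ∧ x ∈ F.S i ∧ y ∈ F.S i ∧ z ∉ F.S i

/-- share of `U` in a cell -/
def Fam.mu (F : Fam X ι) (U : Finset X) (i : ι) : ℝ := ((U ∩ F.S i).card : ℝ) / U.card

/-- indicator of a cell -/
def Fam.ind (F : Fam X ι) (y : X) (i : ι) : ℝ := if y ∈ F.S i then 1 else 0

open Classical in
/-- the kernel of the other cells, centred on `Z` -/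
def Fam.K0 (F : Fam X ι) (Z : Finset X) (y z : X) : ℝ :=
  ∑ i, if F.b i then 0 else F.w i * ((F.ind y i - F.mu Z i) * (F.ind z i - F.mu Z i))

open Classical in
/-- the row term -/
def Fam.bb (F : Fam X ι) (Kt : ℝ) (Z : Finset X) (y : X) : ℝ :=
  Kt / 2 - ∑ i, if F.b i then 0 else F.w i * (F.ind y i * F.mu Z i - F.mu Z i ^ 2 / 2)

open Classical in
/-- discrepancy of `U` against `Z` -/
def Fam.disc (F : Fam X ι) (U Z : Finset X) : ℝ :=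
  ∑ i, if F.b i then 0 else F.w i * (F.mu U i - F.mu Z i) ^ 2

open Classical in
/-- the abstract model -/
structure Am (N : Nb) (F : Fam X ι) (lab : X → X → ℝ) (Z : Finset X) (W Kt η : ℝ)
    (Om Cl : X → X → ℝ) (Gh : X → ℝ) : Prop where
  w_lo : ∀ i, 0 ≤ F.w i
  W_lo : 1 ≤ W
  eta_lo : 0 ≤ η
  eta_le : η * N.L ^ 10 ≤ W
  tot : ∀ y ∈ Z, ∀ z ∈ Z, y ≠ z → |F.OA y z + F.OB y z - Kt| ≤ η
  ob : ∀ y ∈ Z, ∀ z ∈ Z, y ≠ z → F.OB y z ≤ 2 * W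
  dg : ∀ y ∈ Z, ∀ z ∈ Z, F.W (fun i => ¬ F.b i ∧ y ∈ F.S i ∧ z ∉ F.S i) ≤ (N.q : ℝ) ^ 51 * W
  om_lo : ∀ y z, 0 ≤ Om y z
  om_hi : ∀ y ∈ Z, ∀ z ∈ Z, y ≠ z → Om y z ≤ 99 * W
  gh_lo : ∀ y, 0 ≤ Gh y
  gh_hi : ∀ y ∈ Z, Gh y ≤ W
  cl_lo : ∀ x y, 0 ≤ Cl x y
  cl_sum : (N.q : ℝ) ^ 40 * ∑ x ∈ Z, ∑ y ∈ Z.erase x, Cl x y ≤ W * (Z.card : ℝ) ^ 2
  trip : ∀ x ∈ Z, ∀ y ∈ Z, ∀ z ∈ Z, y ≠ x → z ≠ x → y ≠ z → lab x y = lab x z →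
    F.DB y z x ≤ Om y z + Gh x + Gh y + Cl x y
  pin : ∀ y ∈ Z, ∀ z ∈ Z, y ≠ z → ((Z.filter fun x => lab x y = lab x z).card : ℝ) ≤ N.k
  out : ∀ Z' ⊆ Z, ∀ y ∈ Z',
    Z.card ≤ 2 * ((Z'.erase y).filter fun x =>
      ∃ z ∈ Z', z ≠ x ∧ z ≠ y ∧ lab x z = lab x y).card →
    ∃ U ⊆ Z', (Z.card : ℝ) ≤ 4 * N.k * U.card ∧
      ∀ Z'' ⊆ Z, 9 * Z.card ≤ 10 * Z''.card → Gh y ≤ 10 ^ 6 * F.disc U Z''
  rare : ∀ Z' ⊆ Z, ∀ t e : ℝ, W ≤ t * N.L ^ 5 → 0 < e → e ≤ 1 →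
    1 ≤ (e / 4) ^ N.m * (N.q : ℝ) ^ 40 →
    e * (Z.card : ℝ) ^ 2 < (ed Z' fun y z => t ≤ Om y z : ℝ) →
    ∃ T ⊆ Z', ∃ T' ⊆ Z', Disjoint T T' ∧ T.card = T'.card ∧ (e / 4) ^ N.m * Z.card ≤ T.card ∧
      ∃ (f : X → X → ℝ) (C : ι → Prop),
        (∀ y ∈ T, ∀ z ∈ T', 0 ≤ f y z ∧ f y z ≤ Om y z ∧
          f y z ≤ 400 * F.W fun i => C i ∧ y ∈ F.S i ∧ z ∈ F.S i) ∧
        N.u * t * (T.card : ℝ) ^ 2 ≤ ∑ y ∈ T, ∑ z ∈ T', f y z ∧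
        ∀ i, C i → (N.q : ℝ) ^ 50 * (Z ∩ F.S i).card ≤ Z.card ∧
          ((T ∪ T').card : ℝ) ≤ N.L ^ 200 * ((T ∪ T') ∩ F.S i).card
  mir : ∀ x ∈ Z, ∀ T ⊆ Z, x ∈ T → ∀ a a' ζ : ℝ, 1 ≤ a → 2 ≤ a' → a ≤ a' → a' < T.card → 0 < ζ →
    ζ ≤ 1 / 100 → ∃ er : X → ℝ, (∀ y, 0 ≤ er y) ∧
      ∑ y ∈ T.erase x, er y ≤ a * ((N.q : ℝ) ^ 51 * W + 4 * W * T.card / a') ∧
      ∀ c ⊆ Z.erase x, (∀ y ∈ c, ∀ z ∈ c, lab x y = lab x z) → ∃ Aw : ℝ, 0 ≤ Aw ∧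
        (∑ y ∈ c ∩ T, F.W fun i => F.b i ∧ x ∈ F.S i ∧ y ∈ F.S i ∧
            ((T ∩ F.S i).card : ℝ) ≤ a ∧ ((c ∩ F.S i).card : ℝ) < 2 * ζ * c.card) ≤
          8 * ζ * c.card * Aw + η * c.card + ∑ y ∈ c ∩ T, (er y + Cl x y) ∧
        ((c.filter fun z => (F.W fun i => F.b i ∧ x ∈ F.S i ∧ z ∈ F.S i ∧
            ((T ∩ F.S i).card : ℝ) ≤ a') < Aw / 2).card : ℝ) ≤ 4 * ζ * c.card
  sep : (ed Z fun x y =>
      Z.card ^ 9 < (Z.filter fun z => F.DB x y z ≤ N.u ^ 10 * W).card ^ 10 : ℝ) ≤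
    N.u * (Z.card : ℝ) ^ 2

/-- what the potential does on `Z` -/
structure Pot (N : Nb) (lab : X → X → ℝ) (Z : Finset X) : Prop where
  big : N.s ^ 2 ≤ 2 * Z.card
  small : (Z.card : ℝ) ≤ Real.exp N.L
  bad : Phi lab N.κ Z ≤ (1 + 8 * N.u) * N.ψ * (Z.card : ℝ) ^ 2
  pl : ∀ S ⊆ Z, (S.card : ℝ) ≤ N.s ^ 2 → N.u * Pr S ≤ Phi lab N.κ S
  ih : ∀ S ⊆ Z, S.card ^ 20 ≤ Z.card ^ 19 → (1 + 100 * N.u) * N.ψ * Pr S ≤ Phi lab N.κ S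

/-- the state at the level `t`, on the set `Y` -/
structure St (N : Nb) (F : Fam X ι) (Z Y : Finset X) (W Kt : ℝ) (Om : X → X → ℝ) (Gh : X → ℝ)
    (t e Wb : ℝ) : Prop where
  sub : Y ⊆ Z
  big : (1 - N.u) * Z.card ≤ Y.card
  t_lo : W ≤ t * N.L ^ 5
  t_hi : t ≤ 100 * W
  nrm : ∑ y ∈ Y, ∑ z ∈ Y.erase y, |F.K0 Y y z| ^ N.r ≤ (Y.card : ℝ) ^ 2 * (t / 8) ^ N.r
  gh : ∀ y ∈ Y, Gh y ≤ t
  om : (ed Y fun y z => t ≤ Om y z : ℝ) ≤ e * (Z.card : ℝ) ^ 2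
  ek : N.k * e * N.L ^ 20 ≤ 1
  row : ∀ y ∈ Y, |F.bb Kt Y y - Wb / 2| ≤ 20 * t
  wb : |Wb| ≤ 6 * W

/-- one step: stay with weight `w₀`, or cut with the cell `i` with weight `v i` -/
def op (w₀ : ℝ) (v : ι → ℝ) (S : ι → Finset X) (f : Finset X → ℝ) (T : Finset X) : ℝ :=
  w₀ * f T + ∑ i, v i * f (T ∩ S i)

/-- the total weight of one step at the level `t` -/
def Nb.Wt (N : Nb) (t : ℝ) : ℝ := N.j * t / N.u ^ 400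

open Classical in
/-- normalised weights of the small cells with the property `φ` -/
def Fam.v (F : Fam X ι) (Wt : ℝ) (φ : ι → Prop) (i : ι) : ℝ :=
  if F.b i ∧ φ i then F.w i / Wt else 0

/-- `n` steps of the process at the level `t`, started from `T` -/
def Fam.E (F : Fam X ι) (Wt Wb : ℝ) (n : ℕ) (f : Finset X → ℝ) (T : Finset X) : ℝ :=
  (op (1 - Wb / Wt) (F.v Wt fun _ => True) F.S)^[n] f T

open Classical in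
/-- the pair survives in a set with more than `a` points -/
def hi (a : ℝ) (x y : X) (T : Finset X) : ℝ := if x ∈ T ∧ y ∈ T ∧ a < T.card then 1 else 0

open Classical in
/-- the pair survives in a set with at most `a` points -/
def lo (a : ℝ) (x y : X) (T : Finset X) : ℝ := if x ∈ T ∧ y ∈ T ∧ (T.card : ℝ) ≤ a then 1 else 0

open Classical in
/-- mass of the typical pairs in tiny sets after `N.j` steps -/
def tiny (N : Nb) (F : Fam X ι) (Y : Finset X) (t Wb : ℝ) : ℝ :=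
  ∑ y ∈ Y, ∑ z ∈ Y.erase y,
    if |F.K0 Y y z| ≤ t then F.E (N.Wt t) Wb N.j (lo N.s y z) Y else 0

end fam

/-! ### the tops of the blocks -/

/-- block B: coarse stage, height balls, curves -/
def CRS : Prop :=
  ∀ (N : Nb) (X PL K : Type) [DecidableEq X] [Fintype PL] [Field K] (s : Sys X PL)
    (A : Ari X PL K) (η : ℝ) (Q : Finset X), N.Good → Hyp N s A η Q →
    ∃ Z ⊆ Q, (1 - 3 * N.u) * Q.card ≤ Z.card ∧ ∃ (R L : PL → ℝ) (G rq : PL → X → ℝ) (cn : PL → X)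
      (W ε : ℝ), Fm N s A η Z R L G rq cn W ε

/-- block C: small cells, refined double cells, the abstract model -/
def MOD : Prop :=
  ∀ (N : Nb) (X PL K : Type) [DecidableEq X] [Fintype PL] [Field K] (s : Sys X PL)
    (A : Ari X PL K) (η : ℝ) (Z : Finset X) (R L : PL → ℝ) (G rq : PL → X → ℝ) (cn : PL → X)
    (W ε : ℝ), N.Good → Fm N s A η Z R L G rq cn W ε →
    ∃ (ι : Type) (_ : Fintype ι) (F : Fam X ι) (Kt : ℝ) (Om Cl : X → X → ℝ) (Gh : X → ℝ),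
      Am N F s.lab Z W Kt η Om Cl Gh

/-- block D, start -/
def ST0 : Prop :=
  ∀ (N : Nb) (X ι : Type) [DecidableEq X] [Fintype ι] (F : Fam X ι) (lab : X → X → ℝ)
    (Z : Finset X) (W Kt η : ℝ) (Om Cl : X → X → ℝ) (Gh : X → ℝ), N.Good →
    Am N F lab Z W Kt η Om Cl Gh → Pot N lab Z → St N F Z Z W Kt Om Gh (100 * W) 0 0

/-- block D, one level -/
def LEV : Prop :=
  ∀ (N : Nb) (X ι : Type) [DecidableEq X] [Fintype ι] (F : Fam X ι) (lab : X → X → ℝ)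
    (Z Y : Finset X) (W Kt η : ℝ) (Om Cl : X → X → ℝ) (Gh : X → ℝ) (t e e' Wb : ℝ), N.Good →
    Am N F lab Z W Kt η Om Cl Gh → Pot N lab Z → St N F Z Y W Kt Om Gh t e Wb →
    (1 - N.u + N.u ^ 50) * Z.card ≤ Y.card → W ≤ N.u ^ 8 * t * N.L ^ 5 → 0 < e' →
    N.k * e' * N.L ^ 20 ≤ 1 → 1 ≤ (e' / 4) ^ N.m * (N.q : ℝ) ^ 40 →
    e * N.L ^ 30 ≤ (e' / 4) ^ (2 * N.m) →
    tiny N F Y t Wb ≤ N.u ^ 600 * (Y.card : ℝ) ^ 2 →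
    ∃ Y' ⊆ Y, (Y.card : ℝ) ≤ Y'.card + N.u ^ 50 * Z.card ∧
      ∃ Wb', St N F Z Y' W Kt Om Gh (N.u ^ 8 * t) e' Wb'

/-- block D, the tail: pairs with a very negative kernel carry no mass in large sets -/
def TAIL : Prop :=
  ∀ (N : Nb) (X ι : Type) [DecidableEq X] [Fintype ι] (F : Fam X ι) (lab : X → X → ℝ)
    (Z Y : Finset X) (W Kt η : ℝ) (Om Cl : X → X → ℝ) (Gh : X → ℝ) (t e Wb a : ℝ) (n : ℕ),
    N.Good → Am N F lab Z W Kt η Om Cl Gh → St N F Z Y W Kt Om Gh t e Wb → N.s ≤ a →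
    n ≤ 2 ^ 32 * N.j →
    (N.q : ℝ) ^ 100 * (∑ y ∈ Y, ∑ z ∈ Y.erase y,
        if F.K0 Y y z < -t then F.E (N.Wt t) Wb n (hi a y z) Y else 0) ≤ (Y.card : ℝ) ^ 2

/-- block E, the stopped jump -/
def JMP : Prop :=
  ∀ (N : Nb) (X ι : Type) [DecidableEq X] [Fintype ι] (F : Fam X ι) (lab : X → X → ℝ)
    (Z Y : Finset X) (W Kt η : ℝ) (Om Cl : X → X → ℝ) (Gh : X → ℝ) (t e Wb : ℝ), N.Good →
    Am N F lab Z W Kt η Om Cl Gh → Pot N lab Z → St N F Z Y W Kt Om Gh t e Wb →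
    tiny N F Y t Wb ≤ N.u ^ 600 * (Y.card : ℝ) ^ 2

/-- block E, the lossless step -/
def LOS : Prop :=
  ∀ (N : Nb) (X ι : Type) [DecidableEq X] [Fintype ι] (F : Fam X ι) (lab : X → X → ℝ)
    (Z Y : Finset X) (W Kt η : ℝ) (Om Cl : X → X → ℝ) (Gh : X → ℝ) (t e Wb : ℝ), N.Good →
    Am N F lab Z W Kt η Om Cl Gh → Pot N lab Z → St N F Z Y W Kt Om Gh t e Wb →
    t * N.L ^ 4 ≤ W → tiny N F Y t Wb ≤ N.u ^ 600 * (Y.card : ℝ) ^ 2 → False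

/-- the step -/
def STEP : Prop :=
  ∀ (N : Nb) (X PL K : Type) [DecidableEq X] [Fintype PL] [Field K] (s : Sys X PL)
    (A : Ari X PL K) (η : ℝ) (Q : Finset X), N.Good → Hyp N s A η Q → False

/-- the theorem -/
def MAIN : Prop :=
  ∀ δ : ℝ, 0 < δ → ∃ c : ℝ, 0 < c ∧ ∃ n₀ : ℕ, ∀ P : Finset (EuclideanSpace ℝ (Fin 2)),
    n₀ ≤ P.card →
    ∑ a ∈ P, (((P.image fun b => dist a b).erase 0).card : ℝ) ≤
      (P.card : ℝ) ^ 2 / Real.log P.card ^ δ →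
    ∃ Q ⊆ P, Collinear ℝ (Q : Set (EuclideanSpace ℝ (Fin 2))) ∧
      Real.exp (Real.log P.card ^ c) ≤ Q.card

end Pool.Agent.MP_ddf486_co.KV
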