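import Pool.Agent.MP_6c3157_co.PQ.SpecE
import Pool.Agent.MP_ddf486_co.KV.Defs

/-! Project KV, block BLK: the calculus of heights seen from an edge. -/

set_option autoImplicit false
set_option linter.unusedSectionVars false

noncomputable section

namespace Pool.Agent.MP_ddf486_co.KV.Blk

open Finset Pool.Agent.MP_6c3157_co.PD Pool.Agent.MP_6c3157_co.PQ

theorem le_exp {A d : ℝ} (hA : 0 ≤ A) (hd : 0 < d) :
    A ≤ d * Real.exp (max 0 (Real.log (A / d))) := by
  rcases hA.eq_or_lt with h | h
  · rw [← h]; positivity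
  · have h1 : A / d ≤ Real.exp (max 0 (Real.log (A / d))) := by
      conv_lhs => rw [← Real.exp_log (div_pos h hd)]
      exact Real.exp_le_exp.2 (le_max_right _ _)
    rwa [div_le_iff₀ hd, mul_comm] at h1

theorem of_le {A d E : ℝ} (hA : 0 ≤ A) (hd : 0 < d) (hE : 0 ≤ E) (h : A ≤ d * Real.exp E) :
    max 0 (Real.log (A / d)) ≤ E := by
  refine max_le hE ?_
  rcases hA.eq_or_lt with h0 | h0
  · rw [← h0, zero_div, Real.log_zero]; exact hE
  · rw [Real.log_le_iff_le_exp (div_pos h0 hd), div_le_iff₀ hd, mul_comm]; exact h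

variable {X PL : Type} [DecidableEq X]

theorem lam_le {c : Cells X} (hc : c.Good) : c.lam ≤ Real.exp c.xi :=
  (Real.log_le_iff_le_exp hc.lam_pos).1 hc.log_lam

/-- the distance of two points against a scale -/
theorem tri_exp {c : Cells X} (hc : c.Good) (x z w : X) {d a b : ℝ} (hd : 0 < d) (ha : 0 ≤ a)
    (hb : 0 ≤ b) (h1 : c.d x z ≤ d * Real.exp a) (h2 : c.d x w ≤ d * Real.exp b) :
    c.d z w ≤ d * Real.exp (a + b + c.xi) := by
  have t := hc.d_tri z x w
  rw [hc.d_symm z x] at t
  have e1 : d * Real.exp a ≤ d * Real.exp (a + b) :=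
    mul_le_mul_of_nonneg_left (Real.exp_le_exp.2 (by linarith)) hd.le
  have e2 : d * Real.exp b ≤ d * Real.exp (a + b) :=
    mul_le_mul_of_nonneg_left (Real.exp_le_exp.2 (by linarith)) hd.le
  have e3 : max (c.d x z) (c.d x w) ≤ d * Real.exp (a + b) := max_le (h1.trans e1) (h2.trans e2)
  have e4 := mul_le_mul (lam_le hc) e3 ((hc.d_nonneg x z).trans (le_max_left _ _))
    (Real.exp_pos _).le
  rw [Real.exp_add (a + b)]
  linarith

variable [Fintype PL] {s : Sys X PL}

theorem ht_nonneg (hs : s.Good) (x y z : X) : 0 ≤ ht s x y z :=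
  hs.sum_nonneg fun _ => le_max_left _ _

theorem ht_left (hs : s.Good) (x y : X) : ht s x y x = 0 :=
  sum_eq_zero fun p _ => by rw [(hs.good p).d_self, zero_div, Real.log_zero, max_self, mul_zero]

theorem ht_right (hs : s.Good) {x y : X} (h : x ≠ y) : ht s x y y = 0 :=
  sum_eq_zero fun p _ => by
    rw [div_self ((hs.good p).d_pos h).ne', Real.log_one, max_self, mul_zero]

/-- change of the edge, outwards -/
theorem b1a (hs : s.Good) {x y z z' : X} (h : x ≠ y) (h' : z ≠ z') (w : X) :
    ht s x y w ≤ ht s x y z + ht s x y z' + ht s z z' w + 40 := by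
  have k : ∀ p, max 0 (Real.log ((s.c p).d x w / (s.c p).d x y)) ≤
      max 0 (Real.log ((s.c p).d x z / (s.c p).d x y)) +
      max 0 (Real.log ((s.c p).d x z' / (s.c p).d x y)) +
      max 0 (Real.log ((s.c p).d z w / (s.c p).d z z')) + 2 * (s.c p).xi := fun p => by
    have hc := hs.good p
    have d0 := hc.d_pos h
    have e1 := le_exp (hc.d_nonneg x z) d0
    have e2 := le_exp (hc.d_nonneg x z') d0
    have e3 := le_exp (hc.d_nonneg z w) (hc.d_pos h')
    set a := max 0 (Real.log ((s.c p).d x z / (s.c p).d x y))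
    set b := max 0 (Real.log ((s.c p).d x z' / (s.c p).d x y))
    set τ := max 0 (Real.log ((s.c p).d z w / (s.c p).d z z'))
    have a0 : 0 ≤ a := le_max_left _ _
    have b0 : 0 ≤ b := le_max_left _ _
    have t0 : 0 ≤ τ := le_max_left _ _
    have x0 := hc.xi_nonneg
    have e4 := tri_exp hc x z z' d0 a0 b0 e1 e2
    have e5 : (s.c p).d z w ≤ (s.c p).d x y * Real.exp (a + b + (s.c p).xi + τ) := by
      rw [Real.exp_add _ τ, ← mul_assoc]
      exact e3.trans (mul_le_mul_of_nonneg_right e4 (Real.exp_pos _).le)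
    have e6 : (s.c p).d z x ≤ (s.c p).d x y * Real.exp (a + b + (s.c p).xi + τ) := by
      rw [hc.d_symm z x]
      exact e1.trans (mul_le_mul_of_nonneg_left (Real.exp_le_exp.2 (by linarith)) d0.le)
    have e7 := hc.d_tri x z w
    rw [hc.d_symm x z] at e7
    have e8 := mul_le_mul (lam_le hc) (max_le e6 e5)
      ((hc.d_nonneg z x).trans (le_max_left _ _)) (Real.exp_pos _).le
    refine of_le (hc.d_nonneg x w) d0 (by linarith) ?_
    have e9 : a + b + τ + 2 * (s.c p).xi = (s.c p).xi + (a + b + (s.c p).xi + τ) := by ring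
    rw [e9, Real.exp_add]
    linarith
  refine (hs.sum_le k).trans ?_
  have := hs.xi_sum
  simp only [mul_add, sum_add_distrib, mul_left_comm _ (2 : ℝ), ← mul_sum]
  unfold ht
  linarith

/-- the product formula for two pairs -/
theorem pf_swap (hs : s.Good) {x y z z' : X} (h : x ≠ y) (h' : z ≠ z') :
    ∑ p, s.m p * max 0 (Real.log ((s.c p).d x y / (s.c p).d z z')) =
      ∑ p, s.m p * max 0 (Real.log ((s.c p).d z z' / (s.c p).d x y)) := by
  have k : ∀ p, s.m p * max 0 (Real.log ((s.c p).d x y / (s.c p).d z z')) =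
      s.m p * max 0 (Real.log ((s.c p).d z z' / (s.c p).d x y)) +
        (s.m p * Real.log ((s.c p).d x y) - s.m p * Real.log ((s.c p).d z z')) := fun p => by
    have d0 := ((hs.good p).d_pos h).ne'
    have d1 := ((hs.good p).d_pos h').ne'
    rw [Real.log_div d0 d1, Real.log_div d1 d0, ← mul_sub, ← mul_add]
    congr 1
    rcases le_total (Real.log ((s.c p).d x y)) (Real.log ((s.c p).d z z')) with e | e
    · rw [max_eq_left (by linarith), max_eq_right (by linarith)]; ring
    · rw [max_eq_right (by linarith), max_eq_left (by linarith)]; ring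
  rw [sum_congr rfl fun p _ => k p, sum_add_distrib, sum_sub_distrib, hs.pf x y h, hs.pf z z' h']
  ring

/-- change of the edge, inwards -/
theorem b1b (hs : s.Good) {x y z z' : X} (h : x ≠ y) (h' : z ≠ z') (w : X) :
    ht s z z' w ≤ 2 * ht s x y z + ht s x y z' + ht s x y w + 40 := by
  have k1 : ∀ p, max 0 (Real.log ((s.c p).d z z' / (s.c p).d x y)) ≤
      max 0 (Real.log ((s.c p).d x z / (s.c p).d x y)) +
      max 0 (Real.log ((s.c p).d x z' / (s.c p).d x y)) + (s.c p).xi := fun p => by
    have hc := hs.good p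
    have d0 := hc.d_pos h
    exact of_le (hc.d_nonneg _ _) d0
      (add_nonneg (add_nonneg (le_max_left _ _) (le_max_left _ _)) hc.xi_nonneg)
      (tri_exp hc x z z' d0 (le_max_left _ _) (le_max_left _ _) (le_exp (hc.d_nonneg x z) d0)
        (le_exp (hc.d_nonneg x z') d0))
  have k2 : ∀ p, max 0 (Real.log ((s.c p).d z w / (s.c p).d z z')) ≤
      max 0 (Real.log ((s.c p).d x y / (s.c p).d z z')) +
      (max 0 (Real.log ((s.c p).d x z / (s.c p).d x y)) +
      max 0 (Real.log ((s.c p).d x w / (s.c p).d x y)) + (s.c p).xi) := fun p => by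
    have hc := hs.good p
    have d0 := hc.d_pos h
    have d1 := hc.d_pos h'
    have e1 := tri_exp hc x z w d0 (le_max_left _ _) (le_max_left _ _)
      (le_exp (hc.d_nonneg x z) d0) (le_exp (hc.d_nonneg x w) d0)
    have e2 := le_exp d0.le d1
    refine of_le (hc.d_nonneg _ _) d1 (add_nonneg (le_max_left _ _)
      (add_nonneg (add_nonneg (le_max_left _ _) (le_max_left _ _)) hc.xi_nonneg)) ?_
    rw [Real.exp_add, ← mul_assoc]
    exact e1.trans (mul_le_mul_of_nonneg_right e2 (Real.exp_pos _).le)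
  have s1 := hs.sum_le k1
  have s2 := hs.sum_le k2
  have s3 := pf_swap hs h h'
  have := hs.xi_sum
  simp only [mul_add, sum_add_distrib] at s1 s2
  unfold ht
  linarith

/-- the height is at most the distance of the depth vectors -/
theorem ht_le_dis (hs : s.Good) {R : PL → ℝ} (hR : ∀ p, 0 < R p) {x y z : X} (h : y ≠ x)
    (h' : z ≠ x) : ht s x y z ≤ dis s R x y z :=
  hs.sum_le fun p => by
    have d0 := ((hs.good p).d_pos h.symm).ne'
    have d1 := ((hs.good p).d_pos h'.symm).ne'
    refine max_le (abs_nonneg _) (le_trans (le_of_eq ?_) (le_abs_self _))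
    rw [dep, dep, Real.log_div d1 d0, Real.log_div (hR p).ne' d0, Real.log_div (hR p).ne' d1]
    ring

end Pool.Agent.MP_ddf486_co.KV.Blk
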