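import Pool.Agent.MP_6c3157_co.PQ.Fun
import Pool.Agent.MP_6c3157_co.PQ.Jump
import Pool.Agent.MP_ddf486_co.KV.BlkHt

/-! Project KV, block BLK: closed balls are edge disjoint and split the potential. -/

set_option autoImplicit false
set_option linter.unusedSectionVars false

noncomputable section

namespace Pool.Agent.MP_ddf486_co.KV.Blk

open Finset Pool.Agent.MP_6c3157_co.PD Pool.Agent.MP_6c3157_co.PQ

variable {X PL : Type} [DecidableEq X]

/-- the split potential of an edge disjoint closed family -/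
theorem fj_sum (lab : X → X → ℝ) {κ : ℝ} (hκ : 0 ≤ κ) (col : X → X → Fin 3) (Z T : Finset X)
    (F : Finset (Finset X)) (hT : ∀ U ∈ F, U ⊆ T)
    (two : ∀ U ∈ F, ∀ U' ∈ F, ∀ z z', z ≠ z' → z ∈ U → z' ∈ U → z ∈ U' → z' ∈ U' → U = U')
    (clo : ∀ U ∈ F, ∀ x ∈ U, ∀ y ∈ U, ∀ z ∈ T, y ≠ x → z ≠ x → lab x y = lab x z →
      col x y = col x z → col x y ≠ 0 → z ∈ U) :
    ∑ U ∈ F, Fj lab κ col Z U ≤ Fj lab κ col Z T := by
  classical
  unfold Fj
  have e : ∑ U ∈ F, ∑ x ∈ U, Fx lab κ col Z x U =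
      ∑ x ∈ T, ∑ U ∈ F.filter fun U => x ∈ U, Fx lab κ col Z x U := by
    refine sum_comm' fun U x => ?_
    simp only [mem_filter]
    exact ⟨fun h => ⟨h, hT U h.1 h.2⟩, fun h => h.1⟩
  rw [e]
  refine sum_le_sum fun x _ => ?_
  unfold Fx
  rw [sum_add_distrib, sum_comm]
  refine add_le_add ?_ (sum_le_sum fun l _ => ?_)
  · rw [← Nat.cast_sum, Nat.cast_le, ← card_biUnion]
    · refine card_le_card fun z hz => ?_
      obtain ⟨U, hU, hz⟩ := mem_biUnion.1 hz
      exact filter_subset_filter _ (erase_subset_erase x (hT U (mem_filter.1 hU).1)) hz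
    · intro U hU U' hU' ne
      refine disjoint_left.2 fun z hz hz' => ne ?_
      have a := mem_erase.1 (mem_filter.1 hz).1
      have a' := mem_erase.1 (mem_filter.1 hz').1
      have b := mem_filter.1 (mem_coe.1 hU)
      have b' := mem_filter.1 (mem_coe.1 hU')
      exact two U b.1 U' b'.1 z x a.1 a.2 b.2 a'.2 b'.2
  · have key : ∀ k : Fin 3, k ≠ 0 → ∑ U ∈ F.filter fun U => x ∈ U,
        gf κ (fl lab col U x l k).card ≤ gf κ (fl lab col T x l k).card := fun k hk => by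
      by_cases h : ∃ U ∈ F.filter fun U => x ∈ U, (fl lab col U x l k).Nonempty
      · obtain ⟨U, hU, y, hy⟩ := h
        have b := mem_filter.1 hU
        rw [sum_eq_single_of_mem U hU]
        · exact Fun.gf_mono hκ (card_le_card
            (filter_subset_filter _ (erase_subset_erase x (hT U b.1))))
        · intro U' hU' ne
          have b' := mem_filter.1 hU'
          rw [eq_empty_of_forall_notMem (s := fl lab col U' x l k) fun z hz => ne ?_, card_empty,
            Fun.gf_zero]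
          obtain ⟨y1, y2, y3⟩ := mem_filter.1 hy
          obtain ⟨z1, z2, z3⟩ := mem_filter.1 hz
          have y4 := mem_erase.1 y1
          have z4 := mem_erase.1 z1
          have := clo U b.1 x b.2 y y4.2 z (hT U' b'.1 z4.2) y4.1 z4.1 (y2.trans z2.symm)
            (y3.trans z3.symm) (y3 ▸ hk)
          exact two U' b'.1 U b.1 z x z4.1 z4.2 b'.2 this b.2
      · rw [sum_eq_zero fun U hU => ?_]
        · exact Jump.gf_nonneg hκ _
        · rw [not_nonempty_iff_eq_empty.1 fun hn => h ⟨U, hU, hn⟩, card_empty, Fun.gf_zero]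
    rw [sum_add_distrib]
    exact add_le_add (key 1 (by decide)) (key 2 (by decide))

/-- the split potential grows with the set -/
theorem fj_mono (lab : X → X → ℝ) {κ : ℝ} (hκ : 0 ≤ κ) (col : X → X → Fin 3) (Z : Finset X)
    {U T : Finset X} (h : U ⊆ T) : Fj lab κ col Z U ≤ Fj lab κ col Z T := by
  classical
  unfold Fj
  refine le_trans (sum_le_sum fun x _ => ?_) (sum_le_sum_of_subset_of_nonneg h fun x _ _ =>
    add_nonneg (Nat.cast_nonneg _)
      (sum_nonneg fun _ _ => add_nonneg (Jump.gf_nonneg hκ _) (Jump.gf_nonneg hκ _)))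
  unfold Fx
  refine add_le_add (Nat.cast_le.2 (card_le_card
    (filter_subset_filter _ (erase_subset_erase x h)))) (sum_le_sum fun l _ => add_le_add ?_ ?_) <;>
  exact Fun.gf_mono hκ (card_le_card (filter_subset_filter _ (erase_subset_erase x h)))

variable [Fintype PL] {s : Sys X PL}

open Classical in
/-- the ball of an edge -/
def bl (s : Sys X PL) (V : Finset X) (t : ℝ) (e : X × X) : Finset X :=
  V.filter fun z => ht s e.1 e.2 z ≤ t

theorem mem_bl {V : Finset X} {t : ℝ} {e : X × X} {z : X} :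
    z ∈ bl s V t e ↔ z ∈ V ∧ ht s e.1 e.2 z ≤ t := by
  unfold bl; exact mem_filter

/-- closed edges against the split potential -/
theorem bk1 (hF : FUN) (hs : s.Good) {R : PL → ℝ} (hR : ∀ p, 0 < R p) {κ t δ a φ : ℝ}
    (hκ : 0 ≤ κ) (hφ : 0 ≤ φ) (ht0 : 20 ≤ t) (hδ : δ ≤ t) {col : X → X → Fin 3} {Z T : Finset X}
    (hT : T ⊆ Z) (hcl : Clus s R Z col δ)
    (hpl : ∀ S ⊆ T, (S.card : ℝ) ≤ a → φ * Pr S ≤ Phi s.lab κ S) (E : Finset (X × X))
    (hE : ∀ e ∈ E, e.1 ∈ T ∧ e.2 ∈ T ∧ e.1 ≠ e.2 ∧ ((bl s T t e).card : ℝ) ≤ a ∧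
      ∀ z ∈ T, ht s e.1 e.2 z ≤ 10 * t → ht s e.1 e.2 z ≤ t) :
    φ * E.card ≤ Fj s.lab κ col Z T := by
  classical
  have sub : ∀ e ∈ E, ∀ e' ∈ E, ∀ z z', z ≠ z' → z ∈ bl s T t e → z' ∈ bl s T t e →
      z ∈ bl s T t e' → z' ∈ bl s T t e' → bl s T t e' ⊆ bl s T t e :=
    fun e he e' he' z z' ne h1 h2 h3 h4 w hw => by
      have w1 := mem_bl.1 hw
      have k1 := b1b hs (hE e' he').2.2.1 ne w
      have k2 := b1a hs (hE e he).2.2.1 ne w
      refine mem_bl.2 ⟨w1.1, (hE e he).2.2.2.2 w w1.1 ?_⟩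
      linarith [(mem_bl.1 h1).2, (mem_bl.1 h2).2, (mem_bl.1 h3).2, (mem_bl.1 h4).2, w1.2]
  have h1 := fj_sum s.lab hκ col Z T (E.image (bl s T t))
    (fun U hU => by
      obtain ⟨e, -, rfl⟩ := mem_image.1 hU
      exact fun z hz => (mem_bl.1 hz).1)
    (fun U hU U' hU' z z' ne a1 a2 a3 a4 => by
      obtain ⟨e, he, rfl⟩ := mem_image.1 hU
      obtain ⟨e', he', rfl⟩ := mem_image.1 hU'
      exact Subset.antisymm (sub e' he' e he z z' ne a3 a4 a1 a2)
        (sub e he e' he' z z' ne a1 a2 a3 a4))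
    (fun U hU x hx y hy z hz n1 n2 l1 c1 c2 => by
      obtain ⟨e, he, rfl⟩ := mem_image.1 hU
      have x1 := mem_bl.1 hx
      have y1 := mem_bl.1 hy
      have k1 := (ht_le_dis hs hR n1 n2).trans (hcl x (hT x1.1) y (mem_erase.2 ⟨n1, hT y1.1⟩) z
        (mem_erase.2 ⟨n2, hT hz⟩) l1 c1 c2)
      have k2 := b1a hs (hE e he).2.2.1 n1.symm z
      refine mem_bl.2 ⟨hz, (hE e he).2.2.2.2 z hz ?_⟩
      linarith [x1.2, y1.2])
  have h2 : E ⊆ (E.image (bl s T t)).biUnion fun U => U.offDiag := fun e he =>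
    mem_biUnion.2 ⟨_, mem_image_of_mem _ he, mem_offDiag.2
      ⟨mem_bl.2 ⟨(hE e he).1, by rw [ht_left hs]; linarith⟩,
        mem_bl.2 ⟨(hE e he).2.1, by rw [ht_right hs (hE e he).2.2.1]; linarith⟩, (hE e he).2.2.1⟩⟩
  have h3 : (E.card : ℝ) ≤ ∑ U ∈ E.image (bl s T t), Pr U := by
    have h4 := (card_le_card h2).trans card_biUnion_le
    have h5 : ((E.card : ℕ) : ℝ) ≤ ((∑ U ∈ E.image (bl s T t), U.offDiag.card : ℕ) : ℝ) :=
      Nat.cast_le.2 h4
    refine h5.trans (le_of_eq ?_)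
    rw [Nat.cast_sum]
    refine sum_congr rfl fun U _ => ?_
    rw [offDiag_card, Nat.cast_sub (Nat.le_mul_self _), Pr]
    push_cast
    ring
  refine (mul_le_mul_of_nonneg_left h3 hφ).trans (le_trans ?_ h1)
  rw [mul_sum]
  refine sum_le_sum fun U hU => ?_
  obtain ⟨e, he, rfl⟩ := mem_image.1 hU
  have sb : bl s T t e ⊆ T := fun z hz => (mem_bl.1 hz).1
  exact (hpl _ sb (hE e he).2.2.2.1).trans ((hF X s.lab κ col Z hκ).1 _ (sb.trans hT))

end Pool.Agent.MP_ddf486_co.KV.Blk
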