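import Pool.Agent.MP_6c3157_co.PQ.AllE
import Pool.Agent.MP_ddf486_co.KV.BlkOne
import Pool.Agent.MP_ddf486_co.KV.SpecB

/-! Project KV, block BLK: most edges have large height balls. -/

set_option autoImplicit false
set_option linter.unusedSectionVars false

noncomputable section

namespace Pool.Agent.MP_ddf486_co.KV

open Finset Pool.Agent.MP_6c3157_co.PD Pool.Agent.MP_6c3157_co.PQ

namespace Blk

variable {X PL : Type} [DecidableEq X]

/-- cells through `x` and `y` that miss a far point, at one place -/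
theorem miss {c : Cells X} (hc : c.Good) {x y z : X} (h : x ≠ y) (h' : x ≠ z)
    {r L b g g' e : ℝ} (hr : 0 < r) (hL : 0 ≤ L) (hb : b = r * Real.exp (-L) / c.lam)
    (g0 : 0 ≤ g) (g1 : 0 ≤ g') (e0 : 0 ≤ e) (hd : c.d x z ≤ c.lam * r * Real.exp e) :
    max 0 (Real.log (c.d x z / c.d x y)) ≤ 4 * c.W (fun i => (c.ρ i < b ∧
      (x ∈ i.2 ∧ 2 * g ≤ Real.log (r / c.ρ i)) ∧ (y ∈ i.2 ∧ 2 * g' ≤ Real.log (r / c.ρ i))) ∧
        z ∉ i.2) + 4 * c.xi + L + e + 2 * g + 2 * g' := by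
  have d0 := hc.d_pos h
  have d1 := hc.d_pos h'
  have l0 := hc.lam_pos
  have x0 := hc.xi_nonneg
  have ll := hc.log_lam
  have l1 : 0 ≤ Real.log c.lam := Real.log_nonneg hc.lam_lo
  have b0 : 0 < b := by rw [hb]; positivity
  have lb : Real.log b = Real.log r - L - Real.log c.lam := by
    rw [hb, Real.log_div (by positivity) l0.ne', Real.log_mul hr.ne' (Real.exp_pos _).ne',
      Real.log_exp]; ring
  have ld : Real.log (c.d x z) ≤ Real.log c.lam + Real.log r + e := by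
    have := Real.log_le_log d1 hd
    rwa [Real.log_mul (by positivity) (Real.exp_pos _).ne', Real.log_mul l0.ne' hr.ne',
      Real.log_exp] at this
  set W0 := c.W (fun i => (c.ρ i < b ∧
      (x ∈ i.2 ∧ 2 * g ≤ Real.log (r / c.ρ i)) ∧ (y ∈ i.2 ∧ 2 * g' ≤ Real.log (r / c.ρ i))) ∧
        z ∉ i.2) with hW
  have W1 : 0 ≤ W0 := Cells.W_nonneg hc
  refine max_le (by linarith) ?_
  set B := min (c.d x z / c.lam) (b * Real.exp (-(2 * g + 2 * g'))) with hB
  have B0 : 0 < B := lt_min (by positivity) (by positivity)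
  have lB : Real.log (c.d x z) - (2 * c.xi + L + e + 2 * g + 2 * g') ≤ Real.log B := by
    rcases min_choice (c.d x z / c.lam) (b * Real.exp (-(2 * g + 2 * g'))) with k | k
    · rw [hB, k, Real.log_div d1.ne' l0.ne']; linarith
    · rw [hB, k, Real.log_mul b0.ne' (Real.exp_pos _).ne', Real.log_exp]; linarith
  rw [Real.log_div d1.ne' d0.ne']
  have la : Real.log (c.lam * c.d x y) = Real.log c.lam + Real.log (c.d x y) :=
    Real.log_mul l0.ne' d0.ne'
  rcases le_total (c.lam * c.d x y) B with k | k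
  · have k1 := hc.c3 x (c.lam * c.d x y) B
      (by nlinarith [hc.d_lo x y h, hc.rlo_pos, hc.lam_lo]) k
      ((min_le_left _ _).trans ((div_le_self d1.le hc.lam_lo).trans (hc.d_hi x z)))
    rw [Real.log_div B0.ne' (by positivity), la] at k1
    have k2 : c.W (fun i => x ∈ i.2 ∧ c.lam * c.d x y ≤ c.ρ i ∧ c.ρ i < B ∧
        ∀ w, c.d x w ≤ c.ρ i / c.lam → w ∈ i.2) ≤ W0 := Cells.W_mono hc fun i hi q => by
      have p0 := hc.rho_pos i hi
      have q1 : c.ρ i < b * Real.exp (-(2 * g + 2 * g')) := q.2.2.1.trans_le (min_le_right _ _)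
      have q2 : c.ρ i < c.d x z / c.lam := q.2.2.1.trans_le (min_le_left _ _)
      have q3 : Real.log (c.ρ i) ≤ Real.log b - (2 * g + 2 * g') := by
        have := Real.log_le_log p0 q1.le
        rwa [Real.log_mul b0.ne' (Real.exp_pos _).ne', Real.log_exp] at this
      have q4 : Real.log (r / c.ρ i) = Real.log r - Real.log (c.ρ i) := Real.log_div hr.ne' p0.ne'
      refine ⟨⟨q1.trans_le (mul_le_of_le_one_right b0.le (Real.exp_le_one_iff.2 (by linarith))),
        ⟨q.1, by linarith⟩, q.2.2.2 y ?_, by linarith⟩, fun hz => ?_⟩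
      · rw [le_div_iff₀ l0, mul_comm]; exact q.2.1
      · have := hc.c1 i hi x q.1 z hz
        rw [lt_div_iff₀ l0] at q2
        linarith
    linarith [hc.eta_hi]
  · have := Real.log_le_log B0 k
    linarith

variable [Fintype PL] {s : Sys X PL} {R L : PL → ℝ} {G : PL → X → ℝ}

/-- weight of the trimmed low cells through three points -/
def Om3 (s : Sys X PL) (R L : PL → ℝ) (G : PL → X → ℝ) (x y z : X) : ℝ :=
  ∑ p, s.m p * (s.c p).W fun i =>
    ((s.c p).ρ i < bet s R L p ∧ x ∈ cut s R G p i ∧ y ∈ cut s R G p i) ∧ z ∈ cut s R G p i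

/-- a far point is missed by many cells -/
theorem bk3 (hs : s.Good) {hv : ℕ × Finset X → Prop} {Z : Finset X} {W ε Λ ns T : ℝ}
    (hc : Cln s hv Z R L G W ε Λ ns T) {x y z : X} (hx : x ∈ Z) (hy : y ∈ Z) (hz : z ∈ Z)
    (h : x ≠ y) (h' : x ≠ z) :
    4 * Om3 s R L G x y z + ht s x y z ≤ 4 * Om s R L G x y + 11 * ε * W := by
  have k : ∀ p, 4 * ((s.c p).W fun i => ((s.c p).ρ i < bet s R L p ∧ x ∈ cut s R G p i ∧
      y ∈ cut s R G p i) ∧ z ∈ cut s R G p i) +
      max 0 (Real.log ((s.c p).d x z / (s.c p).d x y)) ≤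
      4 * ((s.c p).W fun i => (s.c p).ρ i < bet s R L p ∧ x ∈ cut s R G p i ∧
        y ∈ cut s R G p i) + 4 * (s.c p).xi + L p + G p x + G p z + 2 * G (s.bar p) x +
        2 * G (s.bar p) y := fun p => by
    have g1 := hc.cen.G_lo p x
    have g2 := hc.cen.G_lo p z
    have t := miss (hs.good p) h h' (hc.cen.R_pos p) (hc.L_lo p) (b := bet s R L p) rfl
      (hc.cen.G_lo (s.bar p) x) (hc.cen.G_lo (s.bar p) y) (e := G p x + G p z) (by linarith)
      ((hc.cen.out p x hx z hz).trans (mul_le_mul_of_nonneg_left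
        (Real.exp_le_exp.2 (max_le (by linarith) (by linarith)))
        (mul_pos (hs.good p).lam_pos (hc.cen.R_pos p)).le))
    have t2 := Cells.W_split (c := s.c p) (φ := fun i => (s.c p).ρ i < bet s R L p ∧
      x ∈ cut s R G p i ∧ y ∈ cut s R G p i) fun i => z ∈ cut s R G p i
    have t3 := Cells.W_mono (hs.good p)
      (φ := fun i => ((s.c p).ρ i < bet s R L p ∧
        (x ∈ i.2 ∧ 2 * G (s.bar p) x ≤ Real.log (R p / (s.c p).ρ i)) ∧
        (y ∈ i.2 ∧ 2 * G (s.bar p) y ≤ Real.log (R p / (s.c p).ρ i))) ∧ z ∉ i.2)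
      (ψ := fun i => ((s.c p).ρ i < bet s R L p ∧ x ∈ cut s R G p i ∧ y ∈ cut s R G p i) ∧
        ¬ z ∈ cut s R G p i) fun i _ q =>
      ⟨⟨q.1.1, mem_cut.2 q.1.2.1, mem_cut.2 q.1.2.2⟩, fun w => q.2 (mem_cut.1 w).1⟩
    linarith
  have k1 := hs.sum_le k
  have g1 := hc.cen.G_sum x hx
  have g2 := hc.cen.G_sum z hz
  have g3 := hc.cen.G_sum x hx
  have g4 := hc.cen.G_sum y hy
  rw [← hs.sum_bar fun p => G p x] at g3
  rw [← hs.sum_bar fun p => G p y] at g4
  simp only [mul_add, sum_add_distrib, mul_left_comm _ (4 : ℝ), mul_left_comm _ (2 : ℝ),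
    ← mul_sum] at k1
  unfold Om3 Om ht
  linarith [hc.L_sum, hs.xi_sum, hc.cen.eW]

theorem LL_sum {α : Type} (t : Finset α) (F : α → Finset X → ℝ) (T : Finset X) :
    LL s R L G (fun S => ∑ a ∈ t, F a S) T = ∑ a ∈ t, LL s R L G (F a) T := by
  unfold LL
  rw [sum_comm]
  exact sum_congr rfl fun p _ => by rw [Cells.WS_sum, mul_sum]

theorem LL_two (x y : X) (T : Finset X) :
    LL s R L G (fun S => if x ∈ S ∧ y ∈ S then 1 else 0) T =
      Om s R L G x y * if x ∈ T ∧ y ∈ T then 1 else 0 := by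
  unfold LL Om
  rw [sum_mul]
  refine sum_congr rfl fun p _ => ?_
  rw [mul_assoc]
  congr 1
  unfold Cells.WS Cells.W
  rw [sum_mul]
  refine sum_congr rfl fun i _ => ?_
  by_cases a : (s.c p).ρ i < bet s R L p <;> by_cases b : x ∈ T <;> by_cases c : y ∈ T <;>
    by_cases d : x ∈ cut s R G p i <;> by_cases e : y ∈ cut s R G p i <;> simp [a, b, c, d, e]

theorem LL_three (x y z : X) (T : Finset X) :
    LL s R L G (fun S => if (x ∈ S ∧ y ∈ S) ∧ z ∈ S then 1 else 0) T =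
      Om3 s R L G x y z * if (x ∈ T ∧ y ∈ T) ∧ z ∈ T then 1 else 0 := by
  unfold LL Om3
  rw [sum_mul]
  refine sum_congr rfl fun p _ => ?_
  rw [mul_assoc]
  congr 1
  unfold Cells.WS Cells.W
  rw [sum_mul]
  refine sum_congr rfl fun i _ => ?_
  by_cases a : (s.c p).ρ i < bet s R L p <;> by_cases b : x ∈ T <;> by_cases c : y ∈ T <;>
    by_cases f : z ∈ T <;> by_cases d : x ∈ cut s R G p i <;> by_cases e : y ∈ cut s R G p i <;>
    by_cases g : z ∈ cut s R G p i <;> simp [a, b, c, d, e, f, g]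

end Blk

/-- edges with a small height ball are few -/
theorem blk : BLK := by
  intro X PL _ _ s hv Z V R L G W ε Λ ns T v t a φ κ j cl hs hc h1 hv0 hv5 hε hV ht1 ht2 ht3
    hj ha haj hφ hκ1 hpl
  classical
  have hκ : 0 ≤ κ := by linarith
  have e0 := hc.cen.e_pos
  have e1 := hc.cen.e_le
  have e2 := hc.cen.eW
  have W0 : 0 < W := by
    by_contra hW
    nlinarith [not_lt.1 hW]
  have hO := om depS X PL s hv Z R L G W ε Λ ns T hs hc
  have hF := llf (om depS) (clu depS) X PL s hv Z R L G W ε Λ ns T v κ cl hs hc hv0 hv5 hε hκ h1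
  obtain ⟨-, f2⟩ := fn Pool.Agent.MP_6c3157_co.PD.fibs X s.lab κ cl Z hκ
  set E : Finset (X × X) := (V ×ˢ V).filter fun e => e.1 ≠ e.2 ∧
    ((V.filter fun z => ht s e.1 e.2 z ≤ 10 * t).card : ℝ) ≤ a with hE
  have mE : ∀ e ∈ E, e.1 ∈ V ∧ e.2 ∈ V ∧ e.1 ≠ e.2 ∧
      ((V.filter fun z => ht s e.1 e.2 z ≤ 10 * t).card : ℝ) ≤ a := fun e he => by
    obtain ⟨q1, q2⟩ := mem_filter.1 he
    exact ⟨(mem_product.1 q1).1, (mem_product.1 q1).2, q2⟩
  set An : X × X → Finset X := fun e => V.filter fun z => t < ht s e.1 e.2 z ∧ ht s e.1 e.2 z ≤ 10 * t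
    with hAn
  set P : Finset X → ℝ := fun S => ∑ e ∈ E, if e.1 ∈ S ∧ e.2 ∈ S then 1 else 0 with hP
  set H : Finset X → ℝ := fun S => ∑ e ∈ E, ∑ z ∈ An e,
    if (e.1 ∈ S ∧ e.2 ∈ S) ∧ z ∈ S then 1 else 0 with hH
  have τ0 : 0 ≤ 1 - t / (8 * W) := by
    rw [sub_nonneg, div_le_one (by positivity)]; linarith
  have α0 : 0 ≤ (1 - 11 * ε) * W := mul_nonneg (by linarith) W0.le
  have key := Jump.iter hs V P (Fj s.lab κ cl Z) H φ φ ((1 - 11 * ε) * W) ((1 + 5 * v) * W)
    ((1 - t / (8 * W)) * ((1 + 5 * v) * W)) hφ hφ α0 (by positivity)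
    (mul_nonneg τ0 (by positivity))
    (fun B _ => by
      rw [hP, Blk.LL_sum, mul_sum]
      refine sum_le_sum fun e he => ?_
      obtain ⟨q1, q2, q3, -⟩ := mE e he
      rw [Blk.LL_two]
      exact mul_le_mul_of_nonneg_right (hO _ (hV q1) _ (hV q2) q3).1 (by split_ifs <;> norm_num))
    (fun B hB => hF B (hB.trans hV))
    (fun B _ => by
      rw [hH, Blk.LL_sum, mul_sum]
      refine sum_le_sum fun e he => ?_
      obtain ⟨q1, q2, q3, -⟩ := mE e he
      rw [Blk.LL_sum, mul_sum]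
      refine sum_le_sum fun z hz => ?_
      obtain ⟨z1, z2, -⟩ := mem_filter.1 hz
      rw [Blk.LL_three]
      refine mul_le_mul_of_nonneg_right ?_ (by split_ifs <;> norm_num)
      have ne : e.1 ≠ z := fun q => by
        rw [← q, Blk.ht_left hs] at z2
        nlinarith
      have k1 := Blk.bk3 hs hc (hV q1) (hV q2) (hV z1) q3 ne
      have k2 := (hO _ (hV q1) _ (hV q2) q3).2
      have k3 : (1 - t / (8 * W)) * ((1 + 5 * v) * W) =
          (1 + 5 * v) * W - t / 8 * (1 + 5 * v) := by field_simp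
      have k4 : t * v ≤ t * (1 / 5) := mul_le_mul_of_nonneg_left hv5 (by nlinarith)
      have k5 : 5 * ε * W ≤ v * W := mul_le_mul_of_nonneg_right (by nlinarith) W0.le
      have k6 : 0 ≤ v * W := by positivity
      rw [k3]
      nlinarith)
    (fun B hB => by
      have k1 := Blk.bk1 (fn Pool.Agent.MP_6c3157_co.PD.fibs) hs hc.cen.R_pos hκ hφ
        (t := t) (by nlinarith) ht1 (hB.trans hV) h1 (fun S hS => hpl S (hS.trans hB))
        (E.filter fun e => (e.1 ∈ B ∧ e.2 ∈ B) ∧ ∀ z ∈ An e, z ∉ B) fun e he => by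
          obtain ⟨q0, ⟨q1, q2⟩, q3⟩ := mem_filter.1 he
          refine ⟨q1, q2, (mE e q0).2.2.1, le_trans (Nat.cast_le.2 (card_le_card fun z hz => ?_))
            (mE e q0).2.2.2, fun z hz q => ?_⟩
          · have := Blk.mem_bl.1 hz
            exact mem_filter.2 ⟨hB this.1, by nlinarith [this.2]⟩
          · by_contra w
            exact q3 z (mem_filter.2 ⟨hB hz, not_le.1 w, q⟩) hz
      have k2 : P B ≤ ((E.filter fun e => (e.1 ∈ B ∧ e.2 ∈ B) ∧ ∀ z ∈ An e, z ∉ B).card : ℝ) +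
          H B := by
        rw [card_filter, Nat.cast_sum, hP, hH, ← sum_add_distrib]
        refine sum_le_sum fun e _ => ?_
        have n0 : (0 : ℝ) ≤ ∑ z ∈ An e, if (e.1 ∈ B ∧ e.2 ∈ B) ∧ z ∈ B then 1 else 0 :=
          sum_nonneg fun _ _ => by split_ifs <;> norm_num
        by_cases q : e.1 ∈ B ∧ e.2 ∈ B
        · by_cases q' : ∀ z ∈ An e, z ∉ B
          · rw [if_pos q, if_pos ⟨q, q'⟩]; push_cast; linarith
          · rw [if_pos q, if_neg fun w => q' w.2]
            simp only [not_forall, not_not] at q'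
            obtain ⟨z, hz, hzB⟩ := q'
            have := single_le_sum (f := fun z => if (e.1 ∈ B ∧ e.2 ∈ B) ∧ z ∈ B then (1 : ℝ) else 0)
              (fun _ _ => by split_ifs <;> norm_num) hz
            rw [if_pos ⟨q, hzB⟩] at this
            push_cast; linarith
        · rw [if_neg q]
          exact add_nonneg (Nat.cast_nonneg _) n0
      nlinarith) j V Subset.rfl
  have pV : P V = E.card := by
    rw [hP]
    dsimp only
    rw [sum_congr rfl fun e he => if_pos ⟨(mE e he).1, (mE e he).2.1⟩, sum_const, nsmul_eq_mul,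
      mul_one]
  have hV' : H V ≤ a * E.card := by
    rw [hH, mul_comm, ← nsmul_eq_mul, ← sum_const]
    refine sum_le_sum fun e he => le_trans ?_ (mE e he).2.2.2
    refine (sum_le_sum fun z _ => (show (if (e.1 ∈ V ∧ e.2 ∈ V) ∧ z ∈ V then (1 : ℝ) else 0) ≤ 1 by
      split_ifs <;> norm_num)).trans ?_
    rw [sum_const, nsmul_eq_mul, mul_one]
    exact Nat.cast_le.2 (card_le_card fun z hz =>
      mem_filter.2 ⟨(mem_filter.1 hz).1, (mem_filter.1 hz).2.2⟩)
  have fV := (Blk.fj_mono s.lab hκ cl Z hV).trans f2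
  have F0 := Jump.Fj_nonneg s.lab hκ cl Z V
  have Wj : 0 < W ^ j := pow_pos W0 j
  have j0 : (0 : ℝ) ≤ j := Nat.cast_nonneg j
  have b1 : 1 + (j : ℝ) * (-(11 * ε)) ≤ (1 + -(11 * ε)) ^ j := one_add_mul_le_pow (by linarith) j
  have b2 : (j : ℝ) * (11 * ε) ≤ 11 / 1250 := by
    have : ε * j ≤ v ^ 2 * j := mul_le_mul_of_nonneg_right hε j0
    have : v * (250 * v * j) ≤ v * 1 := mul_le_mul_of_nonneg_left hj hv0.le
    nlinarith
  have b3 : 1 - 11 / 1250 ≤ (1 - 11 * ε) ^ j := by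
    rw [sub_eq_add_neg 1 (11 * ε)]; linarith
  have b4 := Jump.pow_up hv0 j hj
  have φE : 0 ≤ φ * E.card := mul_nonneg hφ (Nat.cast_nonneg _)
  rw [pV, mul_pow, mul_pow, mul_pow, mul_pow] at key
  have k2 : (1 - 11 * ε) ^ j * (φ * E.card) ≤ (1 + 5 * v) ^ j * Fj s.lab κ cl Z V +
      (1 + 5 * v) ^ j * (φ * ((1 - t / (8 * W)) ^ j * H V)) := by
    refine le_of_mul_le_mul_left ?_ Wj
    linarith
  have k3 : (1 - t / (8 * W)) ^ j * H V ≤ 1 / 10 * E.card := by
    have := mul_le_mul_of_nonneg_left hV' (pow_nonneg τ0 j)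
    have := mul_le_mul_of_nonneg_right haj (Nat.cast_nonneg (α := ℝ) E.card)
    linarith
  have k4 := mul_le_mul_of_nonneg_left (mul_le_mul_of_nonneg_left k3 hφ)
    (show 0 ≤ (1 + 5 * v) ^ j by positivity)
  have k5 := mul_le_mul_of_nonneg_right b3 φE
  have k6 := mul_le_mul_of_nonneg_right b4 F0
  have k7 : (ed V fun x y => ((hb s V (10 * t) x y).card : ℝ) ≤ a) = E.card := by
    unfold ed hb
    congr 1
  have k8 := mul_le_mul_of_nonneg_right b4 φE
  rw [k7]
  nlinarith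

end Pool.Agent.MP_ddf486_co.KV
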