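import Pool.Agent.MP_ddf486_co.KV.SpecB

/-! Project KV, row BND: the heaviest band of ratios. -/

set_option autoImplicit false

namespace Pool.Agent.MP_ddf486_co.KV

open Finset

theorem bnd : BND := by
  intro ι C a b lo hi hlo hle h
  classical
  set M := ⌊Real.log (hi / lo)⌋₊ with hM
  set φ : ι → ℕ := fun i => ⌊Real.log (a i / (lo * b i))⌋₊ with hφ
  have hr : ∀ i ∈ C, 1 ≤ a i / (lo * b i) := fun i hi' =>
    (one_le_div (mul_pos hlo (h i hi').1)).2 (h i hi').2.1
  have hmaps : ∀ i ∈ C, φ i ∈ range (M + 1) := fun i hi' => by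
    obtain ⟨hb, -, h2⟩ := h i hi'
    refine mem_range.2 (Nat.lt_succ_of_le (Nat.floor_mono (Real.log_le_log
      (lt_of_lt_of_le one_pos (hr i hi')) ?_)))
    rw [div_le_div_iff₀ (mul_pos hlo hb) hlo]
    nlinarith
  obtain ⟨m, -, hm⟩ := exists_max_image (range (M + 1))
    (fun m => ∑ i ∈ C.filter fun i => φ i = m, a i) ⟨0, by simp⟩
  have ha : ∀ i ∈ C, 0 ≤ a i := fun i hi' => (mul_pos hlo (h i hi').1).le.trans (h i hi').2.1
  have hS : 0 ≤ ∑ i ∈ C.filter fun i => φ i = m, a i :=
    sum_nonneg fun i hi' => ha i (mem_filter.1 hi').1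
  refine ⟨C.filter fun i => φ i = m, filter_subset _ _, ?_, ?_⟩
  · rw [← sum_fiberwise_of_maps_to hmaps]
    refine (sum_le_card_nsmul _ _ _ hm).trans ?_
    rw [card_range, nsmul_eq_mul]
    refine mul_le_mul_of_nonneg_right ?_ hS
    have := Nat.floor_le (Real.log_nonneg ((one_le_div hlo).2 hle))
    push_cast
    linarith
  · set t := lo * Real.exp m with ht
    have ht0 : 0 < t := mul_pos hlo (Real.exp_pos _)
    have key : ∀ i ∈ C.filter fun i => φ i = m, t * b i ≤ a i ∧ a i ≤ 3 * t * b i := by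
      intro i hi'
      obtain ⟨hiC, hi2⟩ := mem_filter.1 hi'
      have hb := mul_pos hlo (h i hiC).1
      have h0 := lt_of_lt_of_le one_pos (hr i hiC)
      have h1 : (m : ℝ) ≤ Real.log (a i / (lo * b i)) := by
        rw [← hi2]; exact Nat.floor_le (Real.log_nonneg (hr i hiC))
      have h2 : Real.log (a i / (lo * b i)) ≤ m + 1 := by
        rw [← hi2]; exact (Nat.lt_floor_add_one _).le
      rw [Real.le_log_iff_exp_le h0, le_div_iff₀ hb] at h1
      rw [Real.log_le_iff_le_exp h0, div_le_iff₀ hb, Real.exp_add] at h2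
      have h3 : Real.exp 1 ≤ 3 := Real.exp_one_lt_three.le
      have h4 := mul_pos (Real.exp_pos m) hb
      constructor
      · rw [ht]; linarith
      · rw [ht]; nlinarith
    have s1 : ∑ i ∈ C.filter fun i => φ i = m, a i ^ 2 / b i ≤
        3 * t * ∑ i ∈ C.filter fun i => φ i = m, a i := by
      rw [mul_sum]
      refine sum_le_sum fun i hi' => ?_
      have hiC := (mem_filter.1 hi').1
      rw [div_le_iff₀ (h i hiC).1]
      nlinarith [(key i hi').2, ha i hiC]
    have s2 : t * ∑ i ∈ C.filter fun i => φ i = m, b i ≤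
        ∑ i ∈ C.filter fun i => φ i = m, a i := by
      rw [mul_sum]
      exact sum_le_sum fun i hi' => (key i hi').1
    have s3 : 0 ≤ ∑ i ∈ C.filter fun i => φ i = m, b i :=
      sum_nonneg fun i hi' => (h i (mem_filter.1 hi').1).1.le
    calc _ ≤ (3 * t * ∑ i ∈ C.filter fun i => φ i = m, a i) *
          ∑ i ∈ C.filter fun i => φ i = m, b i := mul_le_mul_of_nonneg_right s1 s3
      _ = 3 * (∑ i ∈ C.filter fun i => φ i = m, a i) *
          (t * ∑ i ∈ C.filter fun i => φ i = m, b i) := by ring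
      _ ≤ 3 * (∑ i ∈ C.filter fun i => φ i = m, a i) *
          ∑ i ∈ C.filter fun i => φ i = m, a i := mul_le_mul_of_nonneg_left s2 (by positivity)
      _ = _ := by ring

end Pool.Agent.MP_ddf486_co.KV
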