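import Pool.Agent.MP_ddf486_co.KV.Case1
import Pool.Agent.MP_ddf486_co.KV.AlbS
import Pool.Agent.MP_6c3157_co.PD.Geo

/-! Project KV, row CASE0: the fine model off the classes. -/

set_option autoImplicit false
set_option linter.unusedSectionVars false

noncomputable section

namespace Pool.Agent.MP_ddf486_co.KV

open Finset Pool.Agent.MP_6c3157_co.PD Pool.Agent.MP_6c3157_co.PQ

/-- the quantile radii exist -/
theorem rq_ex {X PL : Type} [DecidableEq X] [Fintype PL] {s : Sys X PL} (hs : s.Good)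
    (Z : Finset X) {a : ℝ} (h1 : 1 ≤ a) (h2 : a < Z.card) : ∃ rq, Rq s Z rq a := by
  have a0 : 0 < a := by linarith
  have : ∀ p y, ∃ r : ℝ, y ∈ Z → (∃ b ∈ Z, b ≠ y ∧ r = (s.c p).d y b) ∧
      (Z.card : ℝ) ≤ a * ((s.c p).ball Z y r).card ∧
      ∀ t < r, a * ((s.c p).ball Z y t).card < Z.card := fun p y => by
    by_cases hy : y ∈ Z
    · obtain ⟨b, hb, e, k, k'⟩ := qr X (s.c p) Z (hs.good p) y hy (Z.card / a)
        ((one_lt_div a0).2 h2) (div_le_self (Nat.cast_nonneg _) h1)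
      exact ⟨_, fun _ => ⟨⟨b, hb, e, rfl⟩, (div_le_iff₀' a0).1 k,
        fun t ht => (lt_div_iff₀' a0).1 (k' t ht)⟩⟩
    · exact ⟨0, fun h => absurd h hy⟩
  choose rq h using this
  exact ⟨rq, fun p y hy => (h p y hy).1, fun p y hy => (h p y hy).2.1, fun p y hy => (h p y hy).2.2⟩

open Case1 in
theorem case0 (h2 : COA) (h3 : FT) (h4 : SML) : CASE0 := by
  classical
  intro N X PL K _ _ _ s A η Q V β hN hH hV hv c1
  have B := nb hN hH.big
  have n0 := n_pos B
  have q0 := q_pos B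
  have u0 := B.u0
  have u1 := B.u1
  have a0 := mul_le_mul_of_nonneg_right u1 n0.le
  have vn : (V.card : ℝ) ≤ Q.card := Nat.cast_le.2 (card_le_card hV)
  have a3 := mul_le_mul_of_nonneg_right (up B (a := 3) (by norm_num)) n0.le
  obtain ⟨Z, hZ, a4, hw, R, L, G, cn, W, T, co⟩ := h2 N X PL K s A η Q _ hN hH hV (by linarith)
  have a5 : (1 - 2 * N.u) * Q.card ≤ Z.card := by
    have := mul_le_mul_of_nonneg_left vn u0.le
    linarith
  have a7 : (Q.card : ℝ) ≤ 2 * Z.card := by linarith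
  have a6 : N.u ^ 4 * Q.card ≤ Z.card := by
    linarith [mul_le_mul_of_nonneg_right (up B (a := 4) (by norm_num)) n0.le]
  have hZQ := hZ.trans hV
  have zn : (Z.card : ℝ) ≤ Q.card := Nat.cast_le.2 (card_le_card hZQ)
  have z0 : (0 : ℝ) < Z.card := by linarith
  have qz : ∀ m ≤ 3999, (N.q : ℝ) ^ m < Z.card := fun m hm => by
    have := (gap B (c := 4) (by norm_num) (le_refl (m + 1))).trans (B.qn (m + 1) (by omega))
    linarith [pow_pos q0 m]
  have u20 := up B (a := 20) (by norm_num)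
  have ct := cnq (gen all_rare all_same) X PL K s A η Q _ Z N.q ∅ β R G W (N.u ^ 470)
    (Q.card / (N.q : ℝ) ^ 90) (N.u ^ 20 / 3) (N.u ^ 11) hH.ari hZ hV ⟨c1, by simp, by simp⟩
    co.cln.cen co.cln.conc (by positivity) (by linarith) (by positivity)
    (by linarith [mul_le_mul_of_nonneg_right (up B (a := 2) (by norm_num)) (pow_pos u0 20).le,
      pow_pos u0 20])
    (by linarith [mul_le_mul_of_nonneg_right (up B (a := 10) (by norm_num)) (pow_pos u0 460).le,
      pow_pos u0 460])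
    B.q1 (B.qn 400 (by norm_num)) (div_mul_cancel₀ _ (by positivity)).le
    (by linarith [mul_le_mul_of_nonneg_right B.u1 (mul_pos (pow_pos u0 20) q0).le,
      B.uq 21 (by norm_num)])
    (by rw [← pow_mul]; exact B.uq _ (by norm_num))
  have k0 : 0 ≤ N.k := by linarith [hN.k_lo]
  have pin : ∀ y ∈ Z, ∀ z ∈ Z, y ≠ z → ((Z.filter fun x => A.bis x y z).card : ℝ) ≤ N.k :=
    fun y hy z hz e => le_trans (Nat.cast_le.2 (card_le_card (filter_subset_filter _ hZQ)))
      (hH.pin y (hZQ hy) z (hZQ hz) e)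
  have tb := (h3 X PL K A Z (fun y z => N.u ^ 20 / 3 * W ≤ del s R y z) N.k k0 pin).1
  have g := ct.gen
  simp only [notMem_empty, false_and, exists_false, not_false_iff, and_true] at g
  have sm := h4 N X PL K s A η Q Z hw R L G cn W _ T hN hH hZQ a6 co
    (tbn B (v := 0) (m := 0) k0 a6 le_rfl (by linarith) le_rfl (by positivity)
      ((tb.trans (mul_le_mul_of_nonneg_left g k0)).trans (by
        have : 0 ≤ N.k * (Q.card : ℝ) ^ 2 / (N.q : ℝ) ^ 2 := by positivity
        rw [← mul_div_assoc]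
        ring_nf at this ⊢
        linarith)))
  have ns : Q.card / (N.q : ℝ) ^ 90 ≤ Z.card := by
    rw [div_le_iff₀ (by positivity)]
    have : (2 : ℝ) ≤ (N.q : ℝ) ^ 90 := by simpa using gap B (c := 2) (a := 0) (by norm_num) (by norm_num)
    nlinarith
  obtain ⟨rq, hr⟩ := rq_ex co.good Z (one_le_pow₀ B.q2) (qz 50 (by norm_num))
  refine ⟨Z, hZQ, by linarith [mul_pos u0 n0], R, L, G, rq, cn, W, _, hH.ari, hH.eta_lo,
    (mul_le_mul_of_nonneg_left zn hH.eta_lo).trans hH.eta, hH.big.trans a7, co.cln.cen,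
    B.pw _ _ (by norm_num), co.cln.L_lo, co.cln.L_sum, co.R_lo, co.R_hi, co.G_eq, co.cn_in, co.mass,
    hr.mem, hr.inn, hr.min, fun b hb u v f hf => ?_, pin,
    alS X PL s hw Z R L G rq cn W _ T N.u N.q co u0 u1 (B.uq _ (by norm_num))
      (qz 100 (by norm_num)).le ns hr sm,
    bigS X PL s hw Z R L G cn W _ T N.u co u0 u1 ((B.uq 1000 (by norm_num)).trans
      (mul_le_mul_of_nonneg_left (by simpa using (qz 1 (by norm_num)).le) (pow_pos u0 _).le)) ns⟩
  refine le_trans (Nat.cast_le.2 (card_le_card (filter_subset_filter _ ?_)))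
    ((c1.free0 b hb u v f hf).trans ?_)
  · simpa using hZ
  · have e : 2 * ((N.q ^ 3 : ℕ) : ℝ) * (Q.card / (N.q : ℝ) ^ 48) = 2 * Q.card / (N.q : ℝ) ^ 45 := by
      push_cast
      field_simp
    rw [e]
    exact div_le_div_of_nonneg_right (by linarith) (by positivity)

end Pool.Agent.MP_ddf486_co.KV
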