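import Pool.Agent.MP_ddf486_co.KV.NumB
import Pool.Agent.MP_6c3157_co.PQ.AllC
import Pool.Agent.MP_6c3157_co.PQ.Gen
import Pool.Agent.MP_6c3157_co.PQ.Cnq
import Pool.Agent.MP_6c3157_co.PQ.Unit
import Pool.Agent.MP_6c3157_co.PQ.Gfb
import Pool.Agent.MP_6c3157_co.PD.Fib

/-! Project KV, row CASE1: the classes are a small part. -/

set_option autoImplicit false
set_option linter.unusedSectionVars false

noncomputable section

namespace Pool.Agent.MP_ddf486_co.KV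

open Finset Pool.Agent.MP_6c3157_co.PD Pool.Agent.MP_6c3157_co.PQ

namespace Case1

theorem ed_or {X : Type} [DecidableEq X] {Y : Finset X} {H H₁ H₂ : X → X → Prop}
    (h : ∀ x y, H x y → H₁ x y ∨ H₂ x y) : (ed Y H : ℝ) ≤ (ed Y H₁ : ℝ) + (ed Y H₂ : ℝ) := by
  classical
  rw [← Nat.cast_add, Nat.cast_le]
  refine le_trans (card_le_card fun p hp => ?_) (card_union_le _ _)
  simp only [mem_union, mem_filter] at hp ⊢
  exact (h _ _ hp.2.2).imp (fun k => ⟨hp.1, hp.2.1, k⟩) fun k => ⟨hp.1, hp.2.1, k⟩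

theorem ed_all {X : Type} [DecidableEq X] (Y : Finset X) :
    (Y.card : ℝ) ^ 2 ≤ (ed Y fun _ _ => True : ℝ) + Y.card := by
  classical
  rw [← Nat.cast_add, ← Nat.cast_pow, Nat.cast_le, sq, ← card_product]
  refine le_trans (card_le_card fun p hp => ?_) ((card_union_le _ _).trans
    (add_le_add le_rfl (card_image_le (f := fun y => (y, y)))))
  simp only [mem_union, mem_filter, mem_image]
  by_cases e : p.1 = p.2
  · exact .inr ⟨p.1, (mem_product.1 hp).1, Prod.ext rfl e⟩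
  · exact .inl ⟨hp, e, trivial⟩

variable {N : Nb} {n : ℝ} (B : NB N n)
include B

theorem n_pos : 0 < n := lt_of_lt_of_le one_pos (by simpa using B.qn 0 (by norm_num))

theorem q_pos : (0 : ℝ) < N.q := lt_of_lt_of_le one_pos B.q2

theorem up {a : ℕ} (h : 1 ≤ a) : N.u ^ a ≤ 1 / 10 ^ 30 :=
  le_trans (by simpa using B.pw 1 a h) B.u1

theorem gap {c : ℝ} (hc : c ≤ 10 ^ 100) {a b : ℕ} (h : a + 1 ≤ b) :
    c * (N.q : ℝ) ^ a ≤ (N.q : ℝ) ^ b := by
  refine le_trans ?_ (B.pq _ _ h)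
  rw [pow_succ']
  exact mul_le_mul_of_nonneg_right (hc.trans B.q1) (pow_pos (q_pos B) a).le

theorem inv_le {a m : ℕ} (ha : 1 ≤ a) (hm : m ≤ 100000) : 1 / (N.q : ℝ) ^ a ≤ N.u ^ m := by
  rw [div_le_iff₀ (pow_pos (q_pos B) a)]
  exact (B.uq m hm).trans (mul_le_mul_of_nonneg_left (le_self_pow₀ B.q2 (by omega))
    (pow_pos B.u0 m).le)

theorem band {v S : ℝ} (hq : Real.log N.q * N.u ≤ 1) (hv : 0 ≤ v) (h1 : N.u * n < S)
    (h2 : S ≤ (Real.log (n / (n / (N.q : ℝ) ^ 51)) + 1) * v) : N.u ^ 3 * n ≤ v := by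
  have n0 := n_pos B
  have u0 := B.u0
  rw [div_div_cancel₀ n0.ne', Real.log_pow] at h2
  have h3 := mul_le_mul_of_nonneg_left (h1.le.trans h2) u0.le
  have h4 := mul_le_mul_of_nonneg_right hq hv
  have h5 := mul_le_mul_of_nonneg_right B.u1 hv
  have h6 : N.u * (N.u * n) ≤ 52 * v := by push_cast at h3; linarith
  have h7 := mul_le_mul_of_nonneg_left h6 u0.le
  linarith

theorem tbn {z v m tb : ℝ} (k0 : 0 ≤ N.k) (hz : N.u ^ 4 * n ≤ z) (v0 : 0 ≤ v) (hv : v ≤ 2 * z)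
    (m0 : 0 ≤ m) (hm : m ≤ (N.q : ℝ) ^ 48)
    (h : tb ≤ 14 * N.k * n ^ 2 / (N.q : ℝ) ^ 2 + 2 * (4800 / (N.u ^ 20 / 3)) * (3 * v ^ 2)
      + N.k * m * z) : N.u ^ 40 * tb ≤ z ^ 2 := by
  have n0 := n_pos B
  have u0 := B.u0
  have q0 := q_pos B
  have z0 : 0 ≤ z := le_trans (by positivity) hz
  have h1 : (N.u ^ 4 * n) ^ 2 ≤ z ^ 2 := pow_le_pow_left₀ (by positivity) hz 2
  have h2 : N.u ^ 40 * (14 * N.k * n ^ 2 / (N.q : ℝ) ^ 2) ≤ 14 * (N.u ^ 32 * z ^ 2) :=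
    calc _ = 14 * (N.u ^ 32 * (N.u ^ 4 * n) ^ 2) * (N.k / (N.q : ℝ) ^ 2) := by ring
      _ ≤ 14 * (N.u ^ 32 * z ^ 2) * 1 := by
          gcongr
          exact (div_le_one (by positivity)).2 (B.kq.trans (le_self_pow₀ B.q2 (by norm_num)))
      _ = _ := mul_one _
  have h3 : N.u ^ 40 * (2 * (4800 / (N.u ^ 20 / 3)) * (3 * v ^ 2)) ≤ 345600 * (N.u ^ 20 * z ^ 2) :=
    calc _ = 86400 * N.u ^ 20 * v ^ 2 := by field_simp; ring
      _ ≤ 86400 * N.u ^ 20 * (2 * z) ^ 2 := by gcongr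
      _ = _ := by ring
  have h4 : N.u ^ 40 * (N.k * m * z) ≤ N.u ^ 40 * z ^ 2 := by
    have a1 : N.k * m ≤ N.q * (N.q : ℝ) ^ 48 := mul_le_mul B.kq hm m0 q0.le
    have a2 := mul_le_mul_of_nonneg_right (B.uq 4 (by norm_num)) (pow_pos q0 49).le
    have a3 := mul_le_mul_of_nonneg_left (B.qn 50 (by norm_num)) (pow_pos u0 4).le
    have a4 : N.k * m ≤ z := by linarith
    rw [sq]
    gcongr
  have h5 := mul_le_mul_of_nonneg_right (up B (a := 32) (by norm_num)) (sq_nonneg z)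
  have h6 := mul_le_mul_of_nonneg_right (up B (a := 20) (by norm_num)) (sq_nonneg z)
  have h7 := mul_le_mul_of_nonneg_right (up B (a := 40) (by norm_num)) (sq_nonneg z)
  have h8 := mul_le_mul_of_nonneg_left h (pow_pos u0 40).le
  linarith [sq_nonneg z]

theorem hotn {z φ e : ℝ} (hz : N.u ^ 4 * n ≤ z) (h1 : φ ≤ N.ψ * n ^ 2)
    (h : e ≤ φ + (14 / (N.q : ℝ) ^ 2 + 2 * (4800 / (N.u ^ 20 / 3)) / N.κ) * n ^ 2) :
    e ≤ z ^ 2 / 10 := by
  have n0 := n_pos B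
  have u0 := B.u0
  have k0 : 0 < N.κ := lt_of_lt_of_le one_pos B.k1
  have h2 : (N.u ^ 4 * n) ^ 2 ≤ z ^ 2 := pow_le_pow_left₀ (by positivity) hz 2
  have h3 : 14 / (N.q : ℝ) ^ 2 ≤ 14 * N.u ^ 9 := by
    rw [div_eq_mul_one_div]
    linarith [inv_le B (a := 2) (m := 9) (by norm_num) (by norm_num)]
  have h4 : 2 * (4800 / (N.u ^ 20 / 3)) / N.κ ≤ 28800 * N.u ^ 9 := by
    rw [div_le_iff₀ k0, ← mul_div_assoc, div_le_iff₀ (by positivity)]
    linarith [B.uk 29 (by norm_num)]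
  have h5 := mul_le_mul_of_nonneg_right (add_le_add h3 h4) (sq_nonneg n)
  have h6 := mul_le_mul_of_nonneg_right (B.ps 9 (by norm_num)) (sq_nonneg n)
  have h7 := mul_le_mul B.u1 h2 (by positivity) (by norm_num)
  linarith [sq_nonneg z]

theorem crvn {z m : ℝ} (hz : N.u ^ 4 * n ≤ z) (hm : m ≤ (N.q : ℝ) ^ 48) :
    z * m * (n / (N.q : ℝ) ^ 90) ≤ z ^ 2 / 10 := by
  have n0 := n_pos B
  have u0 := B.u0
  have q0 := q_pos B
  have z0 : 0 ≤ z := le_trans (by positivity) hz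
  have h1 := inv_le B (a := 42) (m := 5) (by norm_num) (by norm_num)
  have h2 := mul_le_mul B.u1 hz (by positivity) (by norm_num)
  calc _ ≤ z * (N.q : ℝ) ^ 48 * (n / (N.q : ℝ) ^ 90) := by gcongr
    _ = z * (1 / (N.q : ℝ) ^ 42 * n) := by field_simp
    _ ≤ z * (N.u ^ 5 * n) := by gcongr
    _ ≤ z * (z / 10) := mul_le_mul_of_nonneg_left (by linarith) z0
    _ = _ := by ring

end Case1

open Case1 in
theorem case1 (h1 : BND) (h2 : COA) (h3 : FT) (h4 : SML) (h5 : CRV) : CASE1 := by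
  classical
  intro N X PL K _ _ _ s A η Q C β hN hH hQ hv hC
  by_contra hc
  have B := nb hN hH.big
  have n0 := n_pos B
  have q0 := q_pos B
  have u0 := B.u0
  have c0 := hC C Subset.rfl
  have cd : ∀ C' ⊆ C, ((C'.biUnion id).card : ℝ) = ∑ P ∈ C', (P.card : ℝ) := fun C' k => by
    rw [card_biUnion (t := id) fun P hP P' hP' e => c0.disj P (k hP) P' (k hP') e, Nat.cast_sum]
    rfl
  have bl : ∀ P ∈ C, (1 : ℝ) ≤ β P := fun P hP => Nat.one_le_cast.2 (c0.b_lo P hP)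
  have bh : ∀ P ∈ C, (β P : ℝ) ≤ (N.q : ℝ) ^ 3 := fun P hP => by exact_mod_cast c0.b_hi P hP
  obtain ⟨C', hs, a1, a2⟩ := h1 _ C (fun P => (P.card : ℝ)) (fun P => (β P : ℝ))
    (Q.card / (N.q : ℝ) ^ 51) Q.card (by positivity) (div_le_self n0.le (one_le_pow₀ B.q2))
    fun P hP => ⟨lt_of_lt_of_le one_pos (bl P hP), ((mul_le_mul_of_nonneg_left (bh P hP)
      (by positivity)).trans (le_of_eq (by field_simp))).trans (c0.big P hP).le,
      (Nat.cast_le.2 (card_le_card (hQ P hP))).trans (le_mul_of_one_le_right n0.le (bl P hP))⟩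
  rw [← cd C Subset.rfl, ← cd C' hs] at a1
  have hV : C'.biUnion id ⊆ Q := biUnion_subset.2 fun P hP => hQ P (hs hP)
  have vn : ((C'.biUnion id).card : ℝ) ≤ Q.card := Nat.cast_le.2 (card_le_card hV)
  have v0 : (0 : ℝ) ≤ (C'.biUnion id).card := Nat.cast_nonneg _
  have a3 := band B hN.q_u v0 (not_le.1 hc) a1
  obtain ⟨Z, hZ, a4, hw, R, L, G, cn, W, T, co⟩ := h2 N X PL K s A η Q _ hN hH hV a3
  have a5 := mul_le_mul_of_nonneg_right B.u1 v0
  have a6 : N.u ^ 4 * Q.card ≤ Z.card := by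
    have := mul_le_mul_of_nonneg_left a3 u0.le
    linarith
  have c1 := hC C' hs
  have num : C'.card * (Q.card / (N.q : ℝ) ^ 48) ≤ (C'.biUnion id).card := by
    rw [cd C' hs, ← nsmul_eq_mul]
    exact card_nsmul_le_sum _ _ _ fun P hP => (c1.big P hP).le
  have hm : (C'.card : ℝ) ≤ (N.q : ℝ) ^ 48 := by
    have := num.trans vn
    rw [← mul_div_assoc, div_le_iff₀ (by positivity), mul_comm] at this
    exact le_of_mul_le_mul_left this n0
  have tot : ∑ P ∈ C', (P.card : ℝ) ≤ Q.card := (cd C' hs).ge.trans vn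
  have u20 := up B (a := 20) (by norm_num)
  have ct := cnq (gen all_rare all_same) X PL K s A η Q _ Z N.q C' β R G W (N.u ^ 470)
    (Q.card / (N.q : ℝ) ^ 90) (N.u ^ 20 / 3) (N.u ^ 11) hH.ari hZ hV ⟨c1, num, (cd C' hs).ge⟩
    co.cln.cen co.cln.conc (by positivity) (by linarith) (by positivity)
    (by linarith [mul_le_mul_of_nonneg_right (up B (a := 2) (by norm_num)) (pow_pos u0 20).le,
      pow_pos u0 20])
    (by linarith [mul_le_mul_of_nonneg_right (up B (a := 10) (by norm_num)) (pow_pos u0 460).le,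
      pow_pos u0 460])
    B.q1 (B.qn 400 (by norm_num)) (div_mul_cancel₀ _ (by positivity)).le
    (by linarith [mul_le_mul_of_nonneg_right B.u1 (mul_pos (pow_pos u0 20) q0).le,
      B.uq 21 (by norm_num)])
    (by rw [← pow_mul]; exact B.uq _ (by norm_num))
  have k0 : 0 ≤ N.k := by linarith [hN.k_lo]
  have hZQ := hZ.trans hV
  rw [← cd C' hs] at a2
  have tb := (h3 X PL K A Z _ N.k k0 fun y hy z hz e => le_trans (Nat.cast_le.2 (card_le_card
    (filter_subset_filter _ hZQ))) (hH.pin y (hZQ hy) z (hZQ hz) e)).2 C' β _ _ _ _ _ _ c1 hZ ct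
    tot a2
  have sm := h4 N X PL K s A η Q Z hw R L G cn W _ T hN hH hZQ a6 co
    (tbn B k0 a6 v0 (by linarith) (Nat.cast_nonneg _) hm tb) Z Subset.rfl
  have ho := hotn B a6 (((gfb.2.2.2 X s.lab N.κ Q B.k1).2.1 Z hZQ).trans hH.bad)
    (unitE gfb fibs X PL K A s.lab hH.ari.lab _ Z _ _ C' β _ _ _ _ N.κ B.k1 tot c1 ct)
  have u470 := up B (a := 470) (by norm_num)
  have sq6 : ∀ P ∈ C', (β P : ℝ) ^ 2 ≤ (N.q : ℝ) ^ 6 := fun P hP =>
    (pow_le_pow_left₀ (Nat.cast_nonneg _) (bh P (hs hP)) 2).trans (le_of_eq (by ring))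
  have cv := (h5 X PL K s A η Z R G W _ _ _ (N.u ^ 8 * W) ((N.q : ℝ) ^ 61) C' β hH.ari hH.sym
    co.cln.cen co.cln.conc (by rw [le_div_iff₀ (pow_pos u0 _)]; linarith) (by positivity) hZ
    (fun P hP => hv P (hs hP)) (fun P hP => ⟨c1.b_lo P hP, by
      have b1 : 2 * (N.q : ℝ) ^ 6 ≤ Q.card / (N.q : ℝ) ^ 48 := by
        rw [le_div_iff₀ (by positivity), mul_assoc, ← pow_add]
        exact (gap B (by norm_num) (le_refl 55)).trans (B.qn 55 (by norm_num))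
      have b2 : 2 * (β P : ℝ) ^ 2 < P.card := by linarith [sq6 P hP, c1.big P hP]
      exact_mod_cast b2⟩) (by
      have b1 := sum_le_card_nsmul C' (fun P => 8 * (β P : ℝ) ^ 2) (8 * (N.q : ℝ) ^ 6)
        fun P hP => by linarith [sq6 P hP]
      rw [nsmul_eq_mul] at b1
      have b2 := mul_le_mul_of_nonneg_right hm (show 0 ≤ 8 * (N.q : ℝ) ^ 6 by positivity)
      linarith [gap B (c := 8) (a := 54) (b := 61) (by norm_num) (by norm_num)])).trans
    (crvn B a6 hm)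
  have W0 : 0 < W := (mul_pos_iff_of_pos_left (pow_pos u0 470)).1
    (lt_of_lt_of_le (by norm_num) co.cln.cen.eW)
  have e1 := ed_or (Y := Z) (H := fun _ _ => True)
    (H₁ := fun x y => ((hb s Z (N.u ^ 8 * W) x y).card : ℝ) ≤ (N.q : ℝ) ^ 61)
    (H₂ := fun x y => (N.q : ℝ) ^ 61 < (hb s Z (N.u ^ 8 * W) x y).card) fun x y _ => le_or_gt _ _
  have e2 := ed_or (Y := Z) (H := fun x y => (N.q : ℝ) ^ 61 < (hb s Z (N.u ^ 8 * W) x y).card)
    (H₁ := fun x y => N.u ^ 20 / 3 * W ≤ del s R x y)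
    (H₂ := fun x y => (N.q : ℝ) ^ 61 < (hb s Z (N.u ^ 8 * W) x y).card ∧
      del s R x y + 48 * (N.u ^ 8 * W) + 27 * N.u ^ 470 * W < W) fun x y k =>
    (le_or_gt _ _).imp_right fun d => ⟨k, by
      linarith [mul_le_mul_of_nonneg_right u20 W0.le, mul_le_mul_of_nonneg_right u470 W0.le,
        mul_le_mul_of_nonneg_right (up B (a := 8) (by norm_num)) W0.le]⟩
  have e3 := mul_le_mul_of_nonneg_right u20 (sq_nonneg (Z.card : ℝ))
  have e4 : (2 : ℝ) ≤ Z.card := by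
    have b1 := mul_le_mul_of_nonneg_left (B.qn 2 (by norm_num)) (pow_pos u0 4).le
    have b2 := mul_le_mul_of_nonneg_right (B.uq 4 (by norm_num)) q0.le
    linarith [B.q1]
  nlinarith [ed_all Z]

end Pool.Agent.MP_ddf486_co.KV
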