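import Pool.Agent.MP_ddf486_co.KV.SpecB
import Pool.Agent.MP_6c3157_co.PQ.AllB

/-! Project KV, row CLNX: the clean model with its geometric data. -/

set_option autoImplicit false
set_option linter.unusedSectionVars false

noncomputable section

namespace Pool.Agent.MP_ddf486_co.KV

open Finset Pool.Agent.MP_6c3157_co.PD Pool.Agent.MP_6c3157_co.PQ

namespace Clnx

variable {X PL : Type} [DecidableEq X] [Fintype PL]

open Classical in
lemma out_le {c : Cells X} {Y Z : Finset X} {γ : Geo X} {τ : ℝ} (h : GoodT γ c Y τ) (hZ : Z ⊆ Y) :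
    ((Z.filter fun x => γ.r < c.d γ.cen x).card : ℝ) ≤ τ * Y.card := by
  have h1 : (Z.filter fun x => γ.r < c.d γ.cen x) ⊆ Y \ c.ball Y γ.cen γ.r := fun x hx =>
    mem_sdiff.2 ⟨hZ (mem_filter.1 hx).1, fun hb =>
      not_le.2 (mem_filter.1 hx).2 (Cells.mem_ball.1 hb).2⟩
  have h2 : ((Y \ c.ball Y γ.cen γ.r).card : ℝ) + (c.ball Y γ.cen γ.r).card = Y.card := by
    exact_mod_cast card_sdiff_add_card_eq_card
      (show c.ball Y γ.cen γ.r ⊆ Y from Cells.ball_subset)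
  have h3 : ((Z.filter fun x => γ.r < c.d γ.cen x).card : ℝ) ≤ (Y \ c.ball Y γ.cen γ.r).card :=
    Nat.cast_le.2 (card_le_card h1)
  linarith [h.r_in]

open Classical in
lemma near_le {c : Cells X} {Y Z : Finset X} {γ : Geo X} {τ L : ℝ} (hc : c.Good)
    (h : GoodT γ c Y τ) (hτ : 0 ≤ τ) (hZ : Z ⊆ Y) {y : X} (hy : y ∈ Y) (hL : lz γ y ≤ L) :
    ((Z.filter fun x => c.d y x < γ.r * Real.exp (-L)).card : ℝ) ≤ τ * Y.card := by
  have hr := h.r_pos hc
  have hs := h.s_pos hc hy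
  have h0 : 0 ≤ τ * Y.card := by positivity
  have h1 : γ.r * Real.exp (-L) ≤ γ.rs y := by
    have h2 : Real.log (γ.r / γ.rs y) ≤ L := (le_max_right _ _).trans hL
    rw [Real.log_le_iff_le_exp (div_pos hr hs), div_le_iff₀ hs] at h2
    rw [Real.exp_neg, ← div_eq_mul_inv, div_le_iff₀ (Real.exp_pos L)]
    linarith
  rcases (Z.filter fun x => c.d y x < γ.r * Real.exp (-L)).eq_empty_or_nonempty with he | he
  · rw [he]; simpa using h0
  obtain ⟨z, hz, hm⟩ := exists_max_image _ (c.d y) he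
  have h2 := h.s_min y hy (c.d y z) ((mem_filter.1 hz).2.trans_le h1)
  have h3 : ((Z.filter fun x => c.d y x < γ.r * Real.exp (-L)).card : ℝ)
      ≤ (c.ball Y y (c.d y z)).card :=
    Nat.cast_le.2 (card_le_card fun x hx =>
      Cells.mem_ball.2 ⟨hZ (mem_filter.1 hx).1, hm x hx⟩)
  linarith

theorem co0 (s : Sys X PL) (hv : ℕ × Finset X → Prop)
    (Y Y₁ B : Finset X) (h : X → ℝ) (T η ε σ₀ ns l a : ℝ) (At : X → Finset X)
    (ok : X → X → Prop) (C : X → X → Finset X) (hx : Ctx s hv Y h T)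
    (heta : ∑ p, s.m p * (s.c p).eta ≤ η) (he0 : 0 < ε) (he1 : ε ≤ 1 / 10 ^ 20) (hη : η ≤ ε ^ 10)
    (hY : 1 ≤ ε ^ 13 * Y.card) (hY₁ : Y₁ ⊆ Y) (h34 : 3 * Y.card ≤ 4 * Y₁.card)
    (hEQ : EQ s hv Y Y₁ σ₀ (ε ^ 60 * T) ns) (hns : 1 ≤ ε ^ 62 * ns)
    (hS : Sub s.lab Y B At ok C (ε ^ 15) (ε ^ 20) l a)
    (hD : dsum s hv Y (ε ^ 29) ok C ≤ ε ^ 14 * T * (Y.card : ℝ) ^ 2) :
    ∃ Z ⊆ Y₁, ((Y₁ \ Z).card : ℝ) ≤ 10 ^ 8 * ε * Y.card ∧
      ∃ (R L : PL → ℝ) (G : PL → X → ℝ) (cn : PL → X) (W : ℝ),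
        Co s hv Z R L G cn W ε ns T := by
  classical
  have hG := geot
  have hU := usum (ubt tut) (ers2 (erx ert winb) all_lzs) all_lzs
  have hT := tbig art lhl ltt
  have hH := hzs all_lzs (hze hzp ballb outb cal) (hzx ballb (mass ltt) outb)
  have hW := wts (oup ltt lhl)
  have hC := conc ballb (mass ltt) all_ca
  have hM := mass ltt
  have hL := lhl
  have he2 : ε ≤ 1 / 10 ^ 9 := he1.trans (by norm_num)
  have he3 : ε ≤ 1 := he1.trans (by norm_num)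
  have hY0 : (0 : ℝ) ≤ Y.card := Nat.cast_nonneg _
  have hp : ∀ k : ℕ, ε ^ (k + 1) ≤ 1 / 10 ^ 9 := fun k => by
    rw [pow_succ]
    exact (mul_le_of_le_one_left he0.le (pow_le_one₀ he0.le he3)).trans he2
  have hτ0 : 0 < ε ^ 2 := by positivity
  have hτ1 : ε ^ 2 ≤ 1 / 1000 := (hp 1).trans (by norm_num)
  have hτY : 4 ≤ ε ^ 2 * Y.card := by
    have a1 := mul_le_mul_of_nonneg_right (hp 10) (mul_nonneg hτ0.le hY0)
    have a2 : ε ^ (10 + 1) * (ε ^ 2 * Y.card) = ε ^ 13 * Y.card := by ring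
    linarith
  have hY4 : (4 : ℝ) ≤ Y.card := by
    have := mul_le_mul_of_nonneg_right hτ1 hY0
    linarith
  choose γ hγ using fun p => hG X (s.c p) Y (ε ^ 2) (hx.good.good p) hτ0 hτ1 (by linarith)
  have hct : CT s hv Y h T γ (ε ^ 2) η :=
    ⟨hx, hγ, hτ0, hτ1, heta, hη.trans (pow_le_one₀ he0.le he3)⟩
  have h1 := hU X PL s hv Y B h T η ε l a γ At ok C hct he0 he1 hη hY hS hD
  obtain ⟨t1, t2, t3, t4⟩ := hT X PL s hv Y h T η ε γ hct he0 he1
    (by exact_mod_cast (show (2 : ℝ) ≤ Y.card by linarith)) h1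
  set L : PL → ℝ := fun p => lm (s.c p) hv Y (γ p) (ε ^ 2) with hLd
  have hlz : ∀ p, ∀ x ∈ Y, lz (γ p) x ≤ L p := fun p =>
    (hL X (s.c p) hv Y (γ p) (ε ^ 2) (hct.pt p)).1
  have h2 := hH X PL s hv Y B h T η ε l a γ L At ok C hct he0 he1 hY hS hD t1 hlz t2
  have hT0 : 0 < T := by linarith [hx.Tlo]
  have heT : 400 ≤ ε * T := by
    have a1 := mul_le_mul_of_nonneg_right (hp 3) (mul_pos he0 hT0).le
    have a2 : ε ^ (3 + 1) * (ε * T) = ε ^ 5 * T := by ring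
    linarith
  have htall : ((Y.filter fun y => ¬ gs s γ y ≤ ε * T / 100).card : ℝ) ≤ 10 ^ 8 * ε * Y.card := by
    have a1 : ((Y.filter fun y => ¬ gs s γ y ≤ ε * T / 100).card : ℝ) * (ε * T / 100) ≤
        ∑ y ∈ Y.filter fun y => ¬ gs s γ y ≤ ε * T / 100, gs s γ y := by
      rw [← nsmul_eq_mul]
      exact card_nsmul_le_sum _ _ _ fun y hy => (not_le.1 (mem_filter.1 hy).2).le
    have a2 : ∑ y ∈ Y.filter fun y => ¬ gs s γ y ≤ ε * T / 100, gs s γ y ≤ ∑ y ∈ Y, gs s γ y :=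
      sum_le_sum_of_subset_of_nonneg (filter_subset _ _) fun y _ _ => gs_nonneg hx.good γ y
    refine le_of_mul_le_mul_right (a := ε * T / 100) ?_ (by linarith)
    have a3 : 10 ^ 8 * ε * Y.card * (ε * T / 100) = 10 ^ 6 * ε ^ 2 * T * Y.card := by ring
    linarith
  have hTW : T ≤ 20 * ∑ p, s.m p * Real.log (γ p).r := by
    have a1 : ((Y.filter fun y => gs s γ y ≤ ε * T / 100).card : ℝ) +
        (Y.filter fun y => ¬ gs s γ y ≤ ε * T / 100).card = Y.card := by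
      exact_mod_cast card_filter_add_card_filter_not _
    have a2 := mul_le_mul_of_nonneg_right he2 hY0
    have a3 : 1 < (Y.filter fun y => gs s γ y ≤ ε * T / 100).card := by
      have : (1 : ℝ) < (Y.filter fun y => gs s γ y ≤ ε * T / 100).card := by linarith
      exact_mod_cast this
    obtain ⟨x, b1, y, b2, b3⟩ := one_lt_card.1 a3
    exact hW X PL s hv Y h T η ε γ hct he0 he1 t1 t3 x (mem_filter.1 b1).1 y (mem_filter.1 b2).1 b3
      (mem_filter.1 b1).2 (mem_filter.1 b2).2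
  set W := ∑ p, s.m p * Real.log (γ p).r with hWd
  have heW := mul_le_mul_of_nonneg_left hTW he0.le
  have hW20 : 20 ≤ ε * W := by linarith
  have hLs : ∑ p, s.m p * L p ≤ ε * W := by
    have a1 := mul_le_mul_of_nonneg_right he2 (mul_pos he0 hT0).le
    have a2 : 200000 * ε ^ 2 * T = 200000 * (ε * (ε * T)) := by ring
    linarith
  have hZ : Y₁.filter (fun y => gs s γ y ≤ ε * T / 100) ⊆ Y₁ := filter_subset _ _
  set Z := Y₁.filter fun y => gs s γ y ≤ ε * T / 100 with hZd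
  have hcut : ((Y₁ \ Z).card : ℝ) ≤ 10 ^ 8 * ε * Y.card := by
    refine le_trans (Nat.cast_le.2 (card_le_card fun y hy => ?_)) htall
    obtain ⟨b1, b2⟩ := mem_sdiff.1 hy
    exact mem_filter.2 ⟨hY₁ b1, fun b3 => b2 (mem_filter.2 ⟨b1, b3⟩)⟩
  have hsm : ∀ k : ℕ, (k : ℝ) ≤ ε ^ 2 * Y.card → 10 ^ 6 * k ≤ Z.card := fun k hk => by
    have a1 : ((Y₁ \ Z).card : ℝ) + Z.card = Y₁.card := by
      exact_mod_cast card_sdiff_add_card_eq_card hZ
    have a2 : (3 : ℝ) * Y.card ≤ 4 * Y₁.card := by exact_mod_cast h34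
    have a3 := mul_le_mul_of_nonneg_right he2 hY0
    have a4 := mul_le_mul_of_nonneg_right (hp 1) hY0
    have : (10 : ℝ) ^ 6 * k ≤ Z.card := by linarith
    exact_mod_cast this
  refine ⟨Z, hZ, hcut, fun p => (γ p).r, L, fun p => (s.c p).G (γ p), fun p => (γ p).cen, W,
    hx.good, ⟨⟨fun p => (hγ p).r_pos (hx.good.good p), rfl, he0, he1.trans (by norm_num), hW20,
      fun p x => Cells.G_nonneg _ _, fun x hx' => ?_,
      fun p x _ y _ => pair_le (hx.good.good p) ((hγ p).r_pos (hx.good.good p)) x y⟩,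
    fun p => (lz_nonneg _ _).trans (hlz p _ (hγ p).cen_mem), hLs,
    fun p x hx' => (hM X (s.c p) hv Y (γ p) (ε ^ 2) (L p) (hct.pt p) (hlz p) x
      (hY₁ (hZ hx'))).2.1,
    fun p x hx' => (hM X (s.c p) hv Y (γ p) (ε ^ 2) (L p) (hct.pt p) (hlz p) x
      (hY₁ (hZ hx'))).2.2,
    hC X PL s hv Y Y₁ _ h T η ε σ₀ ns (1 / ε) W γ L hct he0 he1 hZ hY₁ hEQ hns
      (one_le_one_div he0 he3) (by rw [one_div, inv_mul_cancel₀ he0.ne']) hTW t4 hW20 hlz
      hLs, hTW, t4⟩, fun p => (hγ p).r_lo, fun p => (hγ p).r_hi, fun p y => rfl,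
    fun p => hsm _ (out_le (hγ p) (hZ.trans hY₁)), fun p y hy => hsm _
      (near_le (hx.good.good p) (hγ p) hτ0.le (hZ.trans hY₁) (hY₁ (hZ hy))
        (hlz p y (hY₁ (hZ hy))))⟩
  have b1 : gs s γ x ≤ ε * T / 100 := (mem_filter.1 hx').2
  change gs s γ x ≤ _
  linarith

end Clnx

theorem clnx : CLNX := by
  have hA := tya cal
  have hL := tyl
  have hD := ds tyd
  intro X PL _ _ s hv Y Y₁ h T η ε σ₀ ns hx hη e0 e1 hηε hn hY h34 hE hσ hns
  have hT : 0 < T := by linarith [hx.Tlo]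
  have e2 : ε ≤ 1 / 100 := e1.trans (by norm_num)
  have e3 : ε ≤ 1 := by linarith
  have p29 : 0 < ε ^ 29 := by positivity
  have p15 : 0 < ε ^ 15 := by positivity
  have q29 : ε ^ 29 ≤ 1 := pow_le_one₀ e0.le e3
  have ns0 : 0 < ns := by
    by_contra hc
    have := mul_nonpos_of_nonneg_of_nonpos (pow_pos e0 62).le (not_lt.1 hc)
    linarith
  have k0 : 0 ≤ ε ^ 15 * T := by positivity
  have kk : (ε ^ 15 * T) ^ 2 = ε ^ 30 * T ^ 2 := by ring
  have p30 : 0 < ε ^ 30 * T ^ 2 := by positivity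
  refine ⟨Atp s hv Y Y₁ (ε ^ 29) (ε ^ 15 * T), Low s hv Y Y₁ (ε ^ 29) (ε ^ 15 * T), ?_, ?_, ?_⟩
  · refine hA X PL s hv Y Y₁ h T σ₀ _ _ ns _ hx hY hE ns0 hσ q29 (by linarith) k0 ?_
    have : 7 * T / ε ^ 29 * (ε ^ 60 * T) = 7 * ε * (ε ^ 30 * T ^ 2) := by field_simp
    rw [this, kk]
    nlinarith
  · refine hL X PL s hv Y Y₁ h T σ₀ _ _ ns _ hx hY hE ns0 hσ q29 hn k0 ?_
    have : 2 * T * (ε ^ 60 * T) = 2 * ε ^ 30 * (ε ^ 30 * T ^ 2) := by ring
    rw [this, kk]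
    have h30 : ε ^ 30 ≤ ε := by
      have := pow_le_pow_of_le_one e0.le e3 (show 1 ≤ 30 by norm_num)
      simpa using this
    nlinarith
  · intro ok C l hl hS
    have l0 : 0 < l := by
      by_contra hc
      have := mul_nonpos_of_nonneg_of_nonpos (pow_pos e0 60).le (not_lt.1 hc)
      linarith
    have h1 := hD X PL s hv Y Y₁ h T _ _ _ _ _ l _ ok C hx hY q29 (by linarith) k0 k0 p15 l0 hS
    have h13 : 1 ≤ ε ^ 13 * Y.card := by
      have : ε ^ 29 ≤ ε ^ 13 := pow_le_pow_of_le_one e0.le e3 (by norm_num)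
      have := mul_le_mul_of_nonneg_right this (Nat.cast_nonneg (α := ℝ) Y.card)
      linarith
    refine Clnx.co0 s hv Y Y₁ _ h T η ε σ₀ ns l _ _ ok C hx hη e0 e1 hηε h13 hY h34 hE hns hS
      (h1.trans (mul_le_mul_of_nonneg_right ?_ (sq_nonneg _)))
    have h2 : 7 * T / (ε ^ 29 * ε ^ 15 * l) ≤ 7 * ε ^ 16 * T := by
      rw [div_le_iff₀ (by positivity)]
      have : 7 * ε ^ 16 * T * (ε ^ 29 * ε ^ 15 * l) = 7 * T * (ε ^ 60 * l) := by ring
      rw [this]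
      nlinarith
    have h3 : 0 < ε ^ 14 * T := by positivity
    have h4 : ε ^ 16 * T = ε * ε * (ε ^ 14 * T) := by ring
    have h5 : ε ^ 15 * T = ε * (ε ^ 14 * T) := by ring
    have h6 : T * (3 * ε ^ 15) = 3 * (ε ^ 15 * T) := by ring
    have h7 : ε * ε ≤ 1 / 100 := by nlinarith
    rw [h6, h5]
    rw [mul_assoc 7, h4] at h2
    nlinarith

end Pool.Agent.MP_ddf486_co.KV
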