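import Pool.Agent.MP_ddf486_co.KV.SpecB
import Pool.Agent.MP_6c3157_co.PQ.Bz
import Pool.Agent.MP_6c3157_co.PQ.Boxp
import Pool.Agent.MP_6c3157_co.PQ.Line
import Pool.Agent.MP_6c3157_co.PQ.Poor
import Pool.Agent.MP_6c3157_co.PQ.Rich
import Pool.Agent.MP_6c3157_co.PQ.Inc
import Pool.Agent.MP_6c3157_co.PQ.Subs
import Pool.Agent.MP_6c3157_co.PQ.Axis
import Pool.Agent.MP_6c3157_co.PQ.Cls

/-! Project KV, row CLS3: the classes with their curves, and their restrictions. -/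

set_option autoImplicit false

namespace Pool.Agent.MP_ddf486_co.KV

open Finset Pool.Agent.MP_6c3157_co.PD Pool.Agent.MP_6c3157_co.PQ

open Classical in
theorem cls3_aux : ∀ (X PL K : Type) [DecidableEq X] [Field K] (A : Ari X PL K),
    Function.Injective A.U → Function.Injective A.V → ∀ (Q : Finset X) (b : ℕ) (ν : ℝ), 2 ≤ ν →
    ∃ (C : Finset (Finset X)) (β : Finset X → ℕ), Cls2 A Q b ν C β ∧ Crv A C β := by
  intro X PL K _ _ A hU hV Q b ν hν
  have hν0 : 0 ≤ ν := by linarith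
  obtain ⟨C, f, k1, k2, k3⟩ := rich X PL K A Q b ν hν0
  refine ⟨C, fun P => bd (f P), ⟨fun P hP => (k1 P hP).1, fun P hP => (k1 P hP).2.1,
    fun P hP => (k1 P hP).2.2.2.2.1, fun P hP => (k1 P hP).2.2.2.1, fun P hP k hk u v c hc => ?_,
    fun P hP y => line X PL K A hU hV _ P y (k1 P hP).2.2.1 (k1 P hP).2.2.2.2.2,
    fun P hP => (conic bz subs) X PL K A hU hV _ P (k1 P hP).2.2.1 (k1 P hP).2.2.2.2.1 (k1 P hP).2.2.2.2.2,
    fun P hP => ?_, fun P hP P' hP' hne => (k2 P hP P' hP' hne).1, fun P hP P' hP' hne => ?_,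
    fun P hP => ?_, fun k hk u v c hc => ?_⟩,
    fun P hP => ⟨f P, (k1 P hP).2.2.1, rfl, (k1 P hP).2.2.2.2.2⟩⟩
  · obtain ⟨-, -, a3, a4, -, a6⟩ := k1 P hP
    obtain ⟨g, g0, g1, g2⟩ := (boxp X PL K A u v k).1 c hc
    replace hk : k ≤ bd (f P) := hk
    have e := bz X PL K A hU (f P) g b P a3 (fun d => by have := Cls.bd_le g0 d; omega) a4
      (by omega)
    rw [filter_congr (q := fun z => A.box u v k c z = 0) fun z hz => by
      rw [g2, and_iff_right (a6 z hz)]] at e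
    exact_mod_cast e
  · obtain ⟨-, a2, a3, a4, a5, a6⟩ := k1 P hP
    have h : (2 : ℝ) < P.card := lt_of_le_of_lt hν a2
    have h' : 2 < P.card := by exact_mod_cast h
    exact (axis bz subs refl' inc) X PL K A hU hV (f P) P b a3 a5 a4 a6 h'
  · obtain ⟨-, -, a3, a4, -, a6⟩ := k1 P hP
    obtain ⟨-, -, b3, b4, -, b6⟩ := k1 P' hP'
    refine ⟨_, bz X PL K A hU (f P') (f P) b P' b3
      (k2 P' hP' P hP hne.symm).2 b4 a4, fun y hy hE u v => ?_⟩
    obtain ⟨c, hc⟩ := (boxp X PL K A u v (bd (f P) + 1)).2 (f P) (Nat.lt_succ_self _)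
    refine ⟨c, fun z hz => (hc z).trans (a6 z hz), fun e => hE ?_⟩
    exact mem_filter.2 ⟨hy, b6 y hy, (hc y).symm.trans e⟩
  · obtain ⟨-, -, a3, a4, -, a6⟩ := k1 P hP
    refine ⟨_, k3 (f P) a3 a4, fun y hy hE u v => ?_⟩
    obtain ⟨c, hc⟩ := (boxp X PL K A u v (bd (f P) + 1)).2 (f P) (Nat.lt_succ_self _)
    refine ⟨c, fun z hz => (hc z).trans (a6 z hz), fun e => hE ?_⟩
    exact mem_filter.2 ⟨hy, (hc y).symm.trans e⟩
  · obtain ⟨g, g0, g1, g2⟩ := (boxp X PL K A u v k).1 c hc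
    have e := poor X PL K A _ b ν hν0 k3 g g0 (by omega)
    simpa only [g2] using e

theorem cls3 : CLS3 := by
  intro X PL K _ _ A hU hV Q b ν hν
  obtain ⟨C, β, h, hc⟩ := cls3_aux X PL K A hU hV Q b ν hν
  have n : ∀ {p : Finset X → Prop}, ∀ P ∈ (∅ : Finset (Finset X)), p P :=
    fun P hP => absurd hP (notMem_empty P)
  have hν0 : 0 ≤ ν := by linarith
  refine ⟨C, β, h, hc, ⟨n, n, n, n, n, n, n, n, n, n, n, fun k hk => ?_⟩, fun C' hC =>
    ⟨fun P hP => subset_biUnion_of_mem id hP, fun P hP => h.big P (hC hP),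
      fun P hP => h.b_lo P (hC hP), fun P hP => h.b_hi P (hC hP), fun P hP => h.free P (hC hP),
      fun P hP => h.line P (hC hP), fun P hP => h.conic P (hC hP), fun P hP => h.axes P (hC hP),
      fun P hP P' hP' => h.disj P (hC hP) P' (hC hP'), fun P hP P' hP' => h.off P (hC hP) P' (hC hP'),
      fun P _ => ⟨∅, by simpa using hν0, fun y hy => by simp at hy⟩, fun k _ u v c _ => ?_⟩⟩
  · rw [biUnion_empty, sdiff_empty]
    exact h.free0 k hk
  · rw [sdiff_self, bot_eq_empty, filter_empty, card_empty, Nat.cast_zero]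
    positivity

end Pool.Agent.MP_ddf486_co.KV
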