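import Pool.Agent.MP_ddf486_co.KV.NumB
import Pool.Agent.MP_6c3157_co.PQ.AllB
import Pool.Agent.MP_6c3157_co.PQ.AllD
import Pool.Agent.MP_6c3157_co.PQ.Lv1

/-! Project KV, row COA: the coarse stage on a large subset. -/

set_option autoImplicit false

namespace Pool.Agent.MP_ddf486_co.KV

open Finset Pool.Agent.MP_6c3157_co.PD Pool.Agent.MP_6c3157_co.PQ

namespace Coa

theorem small {t q n y : ℝ} (t0 : 0 < t) (hq : 1 ≤ q) (hk : 1 ≤ t * q) (y0 : 0 < y)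
    (hn : n ≤ q ^ 2 * y) : n / q ^ 90 * q ≤ t * y := by
  have q0 : 0 < q := by linarith
  rw [div_mul_eq_mul_div, div_le_iff₀ (by positivity)]
  have a1 : n * q ≤ q ^ 2 * y * q := mul_le_mul_of_nonneg_right hn q0.le
  have a2 : q ^ 4 ≤ q ^ 90 := pow_le_pow_right₀ hq (by norm_num)
  have a3 : t * y * q ^ 4 ≤ t * y * q ^ 90 := mul_le_mul_of_nonneg_left a2 (by positivity)
  have a4 : 1 * (q ^ 3 * y) ≤ t * q * (q ^ 3 * y) := mul_le_mul_of_nonneg_right hk (by positivity)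
  nlinarith

theorem cut {u v z : ℝ} {k : ℕ} (hv : 16 ≤ u * v) (h1 : u * v / 4 < k + 1)
    (hz : z ≤ u ^ 2 / 1000 * v ^ 2) : 2 * z < (k : ℝ) * (k - 1) := by
  have a1 : u * v / 8 ≤ k - 1 := by linarith
  have a2 : (u * v / 8) * (u * v / 8) ≤ (k : ℝ) * (k - 1) :=
    mul_le_mul (by linarith) a1 (by linarith) (by linarith)
  have a3 : u ^ 2 / 1000 * v ^ 2 = (u * v) * (u * v) / 1000 := by ring
  nlinarith

theorem thn {u ε T y a f th : ℝ} (e0 : 0 < ε) (e1 : ε ≤ 1 / 10 ^ 9) (eu : ε ≤ u) (hT : 0 ≤ T)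
    (th0 : 0 ≤ th) (ha : a ≤ ε ^ 124) (hf : f ≤ 4 * ε ^ 124 * y ^ 2)
    (h : u * th ≤ 38000 * T * f + 10 * a * y ^ 2 * T) : th ≤ (ε ^ 61) ^ 2 * T * y ^ 2 := by
  have b0 : 0 ≤ T * y ^ 2 := by positivity
  have b1 : ε * th ≤ u * th := mul_le_mul_of_nonneg_right eu th0
  have b2 : T * f ≤ T * (4 * ε ^ 124 * y ^ 2) := mul_le_mul_of_nonneg_left hf hT
  have b3 : a * (T * y ^ 2) ≤ ε ^ 124 * (T * y ^ 2) := mul_le_mul_of_nonneg_right ha b0
  have b4 : ε ^ 124 = ε * (ε * (ε ^ 61) ^ 2) := by ring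
  have b5 : 0 ≤ (ε ^ 61) ^ 2 := by positivity
  rw [b4] at b2 b3
  generalize (ε ^ 61) ^ 2 = g at *
  have b6 : ε * (ε * (g * (T * y ^ 2))) ≤ 1 / 10 ^ 9 * (ε * (g * (T * y ^ 2))) :=
    mul_le_mul_of_nonneg_right e1 (by positivity)
  have b7 : 0 ≤ ε * (g * (T * y ^ 2)) := by positivity
  refine le_of_mul_le_mul_left ?_ e0
  nlinarith

theorem atn {ζ κ y a t : ℝ} (z0 : 0 < ζ) (k1 : 1 ≤ κ) (y0 : 0 < y) (h : a ≤ ζ ^ 3 * y)
    (ht : t ≤ y * a) : 2 * ζ * y ^ 2 + t / (ζ ^ 2 * κ ^ 2) ≤ 3 * ζ * y ^ 2 := by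
  have b3 := mul_le_mul_of_nonneg_left h y0.le
  have b4 : t / (ζ ^ 2 * κ ^ 2) ≤ ζ * y ^ 2 := by
    rw [div_le_iff₀ (by positivity)]
    have b5 : ζ * y ^ 2 * ζ ^ 2 * 1 ≤ ζ * y ^ 2 * ζ ^ 2 * κ ^ 2 :=
      mul_le_mul_of_nonneg_left (one_le_pow₀ k1) (by positivity)
    linarith
  linarith

theorem badn {ε y f d : ℝ} (e0 : 0 < ε) (e2 : ε ≤ 1 / 10 ^ 30) (y0 : 0 < y)
    (hf : f ≤ 4 * ε ^ 124 * y ^ 2) (hd : d ≤ 2 * (ε ^ 61 * y)) :
    f + 2 * (y * d) ≤ ε ^ 20 * y ^ 2 := by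
  have e1 : ε ≤ 1 := e2.trans (by norm_num)
  have pe : ∀ a b : ℕ, a ≤ b → ε ^ b ≤ ε ^ a := fun a b h => pow_le_pow_of_le_one e0.le e1 h
  have b1 := mul_le_mul_of_nonneg_left hd y0.le
  have b2 := mul_le_mul_of_nonneg_right (pe 21 61 (by norm_num)) (sq_nonneg y)
  have b3 := mul_le_mul_of_nonneg_right (pe 21 124 (by norm_num)) (sq_nonneg y)
  have b4 : ε * (ε ^ 20 * y ^ 2) ≤ 1 / 10 ^ 30 * (ε ^ 20 * y ^ 2) :=
    mul_le_mul_of_nonneg_right e2 (by positivity)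
  have b7 : 0 ≤ ε ^ 20 * y ^ 2 := by positivity
  linarith

end Coa

theorem coa (hB : BANDR) (hC : CLNX) : COA := by
  classical
  intro N X PL K _ _ _ s A η Q V hN hH hV hu
  have B := nb hN hH.big
  have u0 := B.u0
  have u1 := B.u1
  have k1 := B.k1
  have q3 := B.q2
  have q2 : (100 : ℝ) ≤ N.q := le_trans (by norm_num) B.q1
  have q0 : (0 : ℝ) < N.q := by linarith
  have hs := hH.ari.good
  have kq : ∀ m : ℕ, m ≤ 124 → 1 ≤ (N.u ^ 470) ^ m * N.q := fun m hm => by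
    rw [← pow_mul]; exact B.uq _ (by omega)
  have kk : 1 ≤ (N.u ^ 470) ^ 60 * N.κ := by rw [← pow_mul]; exact B.uk _ (by norm_num)
  have p1 : N.ψ ≤ (N.u ^ 470) ^ 124 * (N.u ^ 3) ^ 2 := by
    rw [← pow_mul, ← pow_mul, ← pow_add]; exact B.ps _ (by norm_num)
  have e0 : 0 < N.u ^ 470 := pow_pos u0 _
  have eu : N.u ^ 470 ≤ N.u ^ 2 := B.pw 2 470 (by norm_num)
  generalize N.u ^ 470 = ε at kq kk p1 e0 eu ⊢
  have eu1 : ε ≤ N.u / 10 ^ 30 := by nlinarith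
  have e2 : ε ≤ 1 / 10 ^ 30 := by linarith [B.u2]
  have e1 : ε ≤ 1 := e2.trans (by norm_num)
  have pe : ∀ a b : ℕ, a ≤ b → ε ^ b ≤ ε ^ a := fun a b h => pow_le_pow_of_le_one e0.le e1 h
  have n0 : (0 : ℝ) < Q.card := lt_of_lt_of_le one_pos (by simpa using B.qn 0 (by norm_num))
  have u3 := B.uq 3 (by norm_num)
  have nv : (Q.card : ℝ) ≤ N.q * V.card := by
    have := mul_le_mul_of_nonneg_left hu q0.le
    nlinarith
  have qv : ∀ m : ℕ, m ≤ 300 → (N.q : ℝ) ^ m ≤ V.card := fun m hm => by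
    have b1 := (B.qn (m + 1) (by omega)).trans nv
    rw [pow_succ'] at b1
    exact le_of_mul_le_mul_left b1 q0
  have v0 : (0 : ℝ) < V.card := lt_of_lt_of_le one_pos (by simpa using qv 0 (by norm_num))
  have hP := phi fibs X s.lab N.κ
  have fV : Phi s.lab N.κ V ≤ ε ^ 124 * (V.card : ℝ) ^ 2 := by
    refine ((hP Q k1).1 V hV).trans (hH.bad.trans ?_)
    have b1 : (N.u ^ 3 * Q.card) ^ 2 ≤ (V.card : ℝ) ^ 2 := pow_le_pow_left₀ (by positivity) hu 2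
    have b2 := mul_le_mul_of_nonneg_right p1 (sq_nonneg (Q.card : ℝ))
    have b3 := mul_le_mul_of_nonneg_left b1 (pow_pos e0 124).le
    rw [mul_pow] at b3
    linarith
  have uv : 16 ≤ N.u * V.card := by
    have b1 := qv 2 (by norm_num)
    have b2 := B.uq 1 (by norm_num)
    have b3 := mul_le_mul_of_nonneg_left b1 u0.le
    nlinarith
  set k : ℕ := ⌊N.u * V.card / 4⌋₊ with hk
  have k2 : (k : ℝ) ≤ N.u * V.card / 4 := Nat.floor_le (by positivity)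
  have k3 : N.u * V.card / 4 < k + 1 := Nat.lt_floor_add_one _
  have k4 : 1 ≤ k := by
    have : (1 : ℝ) ≤ k := by linarith
    exact_mod_cast this
  have uV : N.u * V.card ≤ 1 / 10 ^ 30 * V.card := mul_le_mul_of_nonneg_right u1 v0.le
  obtain ⟨Y, hY, cY, h, T, cx⟩ := hB X PL s V k hs k4
    (by
      have : (8 : ℝ) * k ≤ V.card := by linarith
      exact_mod_cast this)
    (by
      have b1 : ε ^ 124 ≤ N.u ^ 2 / 1000 := by
        have := pe 2 124 (by norm_num)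
        nlinarith
      have b2 := Coa.cut uv k3 (((hP V k1).2.1.trans fV).trans
        (mul_le_mul_of_nonneg_right b1 (sq_nonneg _)))
      have b3 : ((k * (k - 1) : ℕ) : ℝ) = (k : ℝ) * (k - 1) := by
        rw [Nat.cast_mul, Nat.cast_sub k4, Nat.cast_one]
      rw [← b3] at b2
      exact_mod_cast b2)
  have cY' : (Y.card : ℝ) + 2 * k = V.card := by exact_mod_cast cY
  have y2 : (V.card : ℝ) ≤ 2 * Y.card := by linarith
  have y0 : (0 : ℝ) < Y.card := by linarith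
  have hYQ : Y ⊆ Q := hY.trans hV
  have y1 : (Y.card : ℝ) ≤ Q.card := Nat.cast_le.2 (card_le_card hYQ)
  have ny : (Q.card : ℝ) ≤ (N.q : ℝ) ^ 2 * Y.card := by nlinarith
  have qy : ∀ m : ℕ, m ≤ 299 → 7 * (N.q : ℝ) ^ m ≤ Y.card := fun m hm => by
    have b1 := qv (m + 1) (by omega)
    have b2 : (0 : ℝ) < (N.q : ℝ) ^ m := by positivity
    rw [pow_succ] at b1
    nlinarith
  have y7 : 7 * (N.q : ℝ) ≤ Y.card := by simpa using qy 1 (by norm_num)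
  have y3 : 3000 ≤ Y.card := by
    have b1 := qy 2 (by norm_num)
    have : (3000 : ℝ) ≤ Y.card := by nlinarith
    exact_mod_cast this
  have fY : Phi s.lab N.κ Y ≤ 4 * ε ^ 124 * (Y.card : ℝ) ^ 2 := by
    refine ((hP V k1).1 Y hY).trans (fV.trans ?_)
    have b1 : (V.card : ℝ) ^ 2 ≤ (2 * Y.card) ^ 2 := pow_le_pow_left₀ v0.le y2 2
    have b3 := mul_le_mul_of_nonneg_left b1 (pow_pos e0 124).le
    linarith
  have hη : ∑ p, s.m p * (s.c p).eta ≤ 1 / (Q.card : ℝ) :=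
    hH.ari.eta_sum.trans ((le_div_iff₀ n0).2 hH.eta)
  have hT := cx.Tlo
  have q100 : (N.q : ℝ) ≤ (N.q : ℝ) ^ 100 := le_self_pow₀ q3 (by norm_num)
  have s0 : (N.q : ℝ) ^ 100 / Y.card ≤ ε ^ 124 := by
    rw [div_le_iff₀ y0]
    have b1 := qy 101 (by norm_num)
    have b2 : (0 : ℝ) < (N.q : ℝ) ^ 100 := by positivity
    have b3 := mul_le_mul_of_nonneg_left (kq 124 le_rfl) b2.le
    have b5 : (N.q : ℝ) ^ 101 = (N.q : ℝ) ^ 100 * N.q := pow_succ _ 100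
    have b6 : 0 < (N.q : ℝ) ^ 100 * N.q := by positivity
    have b4 : ε ^ 124 * ((N.q : ℝ) ^ 100 * N.q) ≤ ε ^ 124 * Y.card :=
      mul_le_mul_of_nonneg_left (by linarith) (by positivity)
    linarith
  have s1 := s0.trans (pe 29 124 (by norm_num))
  have th := all_th X PL s (heavy V) Y h T ((N.q : ℝ) ^ 100 / Y.card) N.κ N.u cx y3
    (by positivity) k1 fun S hS _ b => hH.pl S (hS.trans hYQ) (by
      rw [div_mul_cancel₀ _ y0.ne'] at b
      exact b.le.trans (B.qs 100 (by norm_num)))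
  obtain ⟨m1, m2⟩ := all_eqm X PL s (heavy V) Y h T (1 / Q.card) ((N.q : ℝ) ^ 100 / Y.card)
    (ε ^ 61) cx hη (by omega) (by rw [div_mul_cancel₀ _ y0.ne']; linarith)
    (s1.trans (pow_le_one₀ e0.le e1)) (by positivity)
  have m3 := m1 (Coa.thn e0 (e2.trans (by norm_num)) (by linarith) (by linarith)
    (sum_nonneg fun x _ => sum_nonneg fun y _ => hs.Osm_nonneg _ x y) s0 fY th)
  set Y₁ := Mk s (heavy V) Y ((N.q : ℝ) ^ 100 / Y.card) (ε ^ 61 * T) with hY₁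
  have hsub : Y₁ ⊆ Y := filter_subset _ _
  have c1 : ((Y \ Y₁).card : ℝ) + Y₁.card = Y.card := by
    exact_mod_cast card_sdiff_add_card_eq_card hsub
  have c3 : ε ^ 61 * Y.card ≤ ε * Y.card :=
    mul_le_mul_of_nonneg_right (pow_le_of_le_one e0.le e1 (by norm_num)) y0.le
  have c4 : ε * Y.card ≤ 1 / 10 ^ 30 * Y.card := mul_le_mul_of_nonneg_right e2 y0.le
  have ns0 : (0 : ℝ) < Q.card / (N.q : ℝ) ^ 90 := by positivity
  have nsq : (N.q : ℝ) ≤ Q.card / (N.q : ℝ) ^ 90 := by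
    rw [le_div_iff₀ (by positivity), ← pow_succ']; exact B.qn 91 (by norm_num)
  have m4 := m2 Y₁ (ε ^ 60 * T) _ Subset.rfl ns0 (Lv1.eqn e0 (e2.trans (by norm_num)) q2
    (kq 60 (by norm_num)) (B.qn 92 (by norm_num)) y0 y1 hT)
  obtain ⟨At, Lo, a1, a2, a3⟩ := hC X PL s (heavy V) Y Y₁ h T (1 / Q.card) ε _ _ cx hη e0
    (e2.trans (by norm_num))
    (by
      rw [div_le_iff₀ n0]
      refine (kq 10 (by norm_num)).trans (mul_le_mul_of_nonneg_left ?_ (by positivity))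
      simpa using B.qn 1 (by norm_num))
    (by
      have b1 := kq 29 (by norm_num)
      have b2 : ε ^ 29 * (7 * (N.q : ℝ)) ≤ ε ^ 29 * Y.card :=
        mul_le_mul_of_nonneg_left y7 (by positivity)
      linarith)
    hsub (by
      have : 3 * (Y.card : ℝ) ≤ 4 * Y₁.card := by linarith
      exact_mod_cast this)
    m4 s1 ((kq 62 (by norm_num)).trans (mul_le_mul_of_nonneg_left nsq (by positivity)))
  have z0 : 0 < ε ^ 15 := by positivity
  obtain ⟨ok, sf, hsf⟩ := all_subf X s.lab Y (Y₁ \ Lo) At (fun _ _ => False) (fun _ _ => False)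
    (ε ^ 15) N.κ z0 ((pow_le_of_le_one e0.le e1 (by norm_num)).trans (e2.trans (by norm_num))) k1
    fun _ _ _ _ _ _ _ _ _ _ _ _ _ _ _ _ h _ _ => h
  have t1 := at1 X PL K A s.lab hH.ari.lab Y At (fun _ _ => False) N.k _ (by linarith [hN.k_lo])
    (fun y hy => (a1 y hy).le) fun y hy z hz hyz _ =>
      le_trans (Nat.cast_le.2 (card_le_card (filter_subset_filter _ hYQ)))
        (hH.pin y (hYQ hy) z (hYQ hz) hyz)
  have d1 := Coa.small (pow_pos e0 61) q3 (kq 61 (by norm_num)) y0 ny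
  have d2 : (Q.card : ℝ) / (N.q : ℝ) ^ 90 ≤ Q.card / (N.q : ℝ) ^ 90 * N.q :=
    le_mul_of_one_le_right ns0.le q3
  have hd : ((Y \ (Y₁ \ Lo)).card : ℝ) ≤ 2 * (ε ^ 61 * Y.card) := by
    have b1 : (Y \ (Y₁ \ Lo)).card ≤ (Y \ Y₁).card + Lo.card :=
      (card_le_card fun z hz => by
        simp only [mem_sdiff, mem_union] at hz ⊢
        tauto).trans (card_union_le _ _)
    have b2 : ((Y \ (Y₁ \ Lo)).card : ℝ) ≤ (Y \ Y₁).card + Lo.card := by exact_mod_cast b1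
    linarith
  have hS := sbs X s.lab Y (Y₁ \ Lo) At ok sf _ N.κ _ _ (ε ^ 20) (3 * ε ^ 15) hsf
    (by
      rw [Subf01.ed_false, Nat.cast_zero, add_zero]
      exact Coa.badn e0 e2 y0 fY hd)
    (Coa.atn z0 k1 y0 ((mul_le_mul_of_nonneg_left B.kq ns0.le).trans (Coa.small (pow_pos z0 3) q3
      (by rw [← pow_mul]; exact kq 45 (by norm_num)) y0 ny)) (t1.trans_eq (mul_assoc _ _ _)))
  obtain ⟨Z, z1, z2, z3⟩ := a3 ok sf (N.κ ^ 2) (kk.trans
    (mul_le_mul_of_nonneg_left (le_self_pow₀ k1 (by norm_num)) (by positivity))) hS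
  obtain ⟨R, L, G, cn, W, z3⟩ := z3
  refine ⟨Z, z1.trans (hsub.trans hY), ?_, heavy V, R, L, G, cn, W, T, z3⟩
  have c2 : ((Y₁ \ Z).card : ℝ) + Z.card = Y₁.card := by
    exact_mod_cast card_sdiff_add_card_eq_card z1
  have c5 : ε * Y.card ≤ N.u / 10 ^ 30 * V.card :=
    mul_le_mul eu1 (by linarith) y0.le (by positivity)
  have c6 : 0 ≤ N.u * V.card := by linarith
  linarith

end Pool.Agent.MP_ddf486_co.KV
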