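import Pool.Agent.MP_ddf486_co.KV.NumB

/-! Project KV, block B: the top from the two cases. -/

set_option autoImplicit false

namespace Pool.Agent.MP_ddf486_co.KV

open Finset Pool.Agent.MP_6c3157_co.PD Pool.Agent.MP_6c3157_co.PQ

theorem crs (h1 : CLS3) (h2 : CASE1) (h3 : CASE0) : CRS := by
  intro N X PL K _ _ _ s A η Q hN hH
  have B := nb hN hH.big
  have q2 : (2 : ℝ) ≤ N.q := le_trans (by norm_num) B.q1
  obtain ⟨C, β, c1, c2, c3, c4⟩ := h1 X PL K A hH.ari.U_inj hH.ari.V_inj Q (N.q ^ 3)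
    (Q.card / (N.q : ℝ) ^ 48) (by
      rw [le_div_iff₀ (by positivity)]
      refine le_trans ?_ (B.qn 49 (by norm_num))
      rw [pow_succ' _ 48]
      exact mul_le_mul_of_nonneg_right q2 (by positivity))
  have a1 := h2 N X PL K s A η Q C β hN hH c1.sub c2 c4
  refine h3 N X PL K s A η Q _ β hN hH sdiff_subset ?_ c3
  have a2 : ((Q \ C.biUnion id).card : ℝ) + (C.biUnion id).card = Q.card := by
    exact_mod_cast card_sdiff_add_card_eq_card (biUnion_subset.2 c1.sub)
  linarith

end Pool.Agent.MP_ddf486_co.KV
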