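import Pool.Agent.MP_ddf486_co.KV.Ch
import Pool.Agent.MP_6c3157_co.PQ.Dep
import Pool.Agent.MP_6c3157_co.PQ.SpecI

/-! Project KV: many bases at one point with many low points on one curve force double depth. -/

set_option autoImplicit false
set_option linter.unusedSectionVars false

noncomputable section

namespace Pool.Agent.MP_ddf486_co.KV

open Finset MvPolynomial Pool.Agent.MP_6c3157_co.PD Pool.Agent.MP_6c3157_co.PQ
  Pool.Agent.MP_6c3157_co.PQ.Boxp

namespace Curv

open Ch Det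

variable {K : Type} [Field K]

theorem vx_max {F : MvPolynomial (Fin 2) K} (hF : F ≠ 0) (u v : ℤ)
    (h : ∀ a ∈ F.support, ∀ c ∈ F.support, u * a 0 + v * a 1 = u * c 0 + v * c 1 →
      a 0 = c 0 ∧ a 1 = c 1) :
    ∃ m, Vx F m ∧ ∀ a ∈ F.support, u * a 0 + v * a 1 ≤ u * m 0 + v * m 1 := by
  obtain ⟨m, hm, k⟩ := exists_max_image F.support (fun a => u * a 0 + v * a 1)
    (support_nonempty.2 hF)
  refine ⟨m, ⟨hm, u, v, fun a ha n => (k a ha).lt_of_ne fun e => n ?_⟩, k⟩
  ext i
  fin_cases i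
  · exact (h a ha m hm e).1
  · exact (h a ha m hm e).2

theorem top {F : MvPolynomial (Fin 2) K} (hF : F ≠ 0) (i : Fin 2) :
    ∃ a ∈ F.support, a i = F.degreeOf i := by
  obtain ⟨a, ha, e⟩ := exists_mem_eq_sup F.support (support_nonempty.2 hF) fun m => m i
  exact ⟨a, ha, by rw [degreeOf_eq_sup, e]⟩

theorem bot {F : MvPolynomial (Fin 2) K} (hF : Irreducible F) {i j : Fin 2} (hij : j ≠ i)
    (hj : F.degreeOf j ≠ 0) : ∃ a ∈ F.support, a i = 0 := by
  by_contra n
  have : X i ∣ F := X_dvd_iff_modMonomial_eq_zero.2 (by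
    ext a
    by_cases l : Finsupp.single i 1 ≤ a
    · exact coeff_modMonomial_of_le _ l
    · rw [coeff_modMonomial_of_not_le _ l]
      by_contra c
      exact n ⟨a, mem_support_iff.2 c, by
        rw [Finsupp.single_le_iff] at l
        omega⟩)
  obtain ⟨q, hq⟩ := this
  rcases hF.isUnit_or_isUnit hq with h | h
  · simpa using h.map (eval (0 : Fin 2 → K))
  · obtain ⟨q', e⟩ := h.exists_right_inv
    have h1 := degreeOf_mul_eq (n := j) h.ne_zero (right_ne_zero_of_mul (e ▸ one_ne_zero))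
    have h2 := degreeOf_mul_le j (X i) q
    rw [e, degreeOf_one] at h1
    rw [← hq, degreeOf_X_of_ne hij] at h2
    omega

theorem lex {b x y z w : ℕ} (hy : y ≤ b) (hw : w ≤ b)
    (h : ((b : ℤ) + 1) * x + y = (b + 1) * z + w) : x = z ∧ y = w := by
  have : x = z := by
    by_contra n
    rcases Nat.lt_or_gt_of_ne n with l | l
    · have : (x : ℤ) + 1 ≤ z := by exact_mod_cast l
      have : (y : ℤ) ≤ b := by exact_mod_cast hy
      nlinarith
    · have : (z : ℤ) + 1 ≤ x := by exact_mod_cast l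
      have : (w : ℤ) ≤ b := by exact_mod_cast hw
      nlinarith
  subst this
  exact ⟨rfl, by omega⟩

/-- top and bottom vertices in both directions -/
theorem newt {F : MvPolynomial (Fin 2) K} {b : ℕ} (hF : Irreducible F)
    (hb : ∀ i, F.degreeOf i = b) (h1 : 1 ≤ b) (i : Fin 2) :
    ∃ m m', Vx F m ∧ Vx F m' ∧ m i = b ∧ m' i = 0 := by
  have l : ∀ a ∈ F.support, ∀ i, a i ≤ b := fun a h i => (monomial_le_degreeOf i h).trans (hb i).le
  have fin : ∀ {m a m' a' : Fin 2 →₀ ℕ} {j : Fin 2}, m ∈ F.support → a i = b → a' ∈ F.support →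
      a' i = 0 → ((b : ℤ) + 1) * a i + a j ≤ (b + 1) * m i + m j →
      ((b : ℤ) + 1) * m' i + m' j ≤ (b + 1) * a' i + a' j → m i = b ∧ m' i = 0 := by
    intro m a m' a' j hm e ha' e' k k'
    have b1 : (m j : ℤ) ≤ b := by exact_mod_cast l m hm j
    have b2 : (a' j : ℤ) ≤ b := by exact_mod_cast l a' ha' j
    rw [e] at k
    rw [e'] at k'
    constructor
    · refine (l m hm i).antisymm (not_lt.1 fun n => ?_)
      have : (m i : ℤ) + 1 ≤ b := by exact_mod_cast n
      nlinarith [Int.natCast_nonneg (a j)]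
    · by_contra n
      have : (1 : ℤ) ≤ m' i := by exact_mod_cast Nat.one_le_iff_ne_zero.2 n
      push_cast at k'
      nlinarith [Int.natCast_nonneg (m' j)]
  obtain ⟨a, ha, e⟩ := top hF.ne_zero i
  rw [hb] at e
  fin_cases i
  · obtain ⟨a', ha', e'⟩ := bot hF (i := 0) (j := 1) (by decide) (by rw [hb]; omega)
    obtain ⟨m, hm, k⟩ := vx_max hF.ne_zero (b + 1) 1 fun a ha c hc h =>
      lex (l a ha 1) (l c hc 1) (by linarith)
    obtain ⟨m', hm', k'⟩ := vx_max hF.ne_zero (-(b + 1)) (-1) fun a ha c hc h =>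
      lex (l a ha 1) (l c hc 1) (by linarith)
    exact ⟨m, m', hm, hm', fin (j := 1) hm.1 e ha' e' (by have := k a ha; simpa using this)
      (by have := k' a' ha'; change ((b : ℤ) + 1) * m' 0 + m' 1 ≤ (b + 1) * a' 0 + a' 1; linarith)⟩
  · obtain ⟨a', ha', e'⟩ := bot hF (i := 1) (j := 0) (by decide) (by rw [hb]; omega)
    obtain ⟨m, hm, k⟩ := vx_max hF.ne_zero 1 (b + 1) fun a ha c hc h =>
      (lex (l a ha 0) (l c hc 0) (by linarith)).symm
    obtain ⟨m', hm', k'⟩ := vx_max hF.ne_zero (-1) (-(b + 1)) fun a ha c hc h =>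
      (lex (l a ha 0) (l c hc 0) (by linarith)).symm
    exact ⟨m, m', hm, hm', fin (j := 0) hm.1 e ha' e'
      (by have := k a ha; change ((b : ℤ) + 1) * a 1 + a 0 ≤ (b + 1) * m 1 + m 0; linarith)
      (by have := k' a' ha'; change ((b : ℤ) + 1) * m' 1 + m' 0 ≤ (b + 1) * a' 1 + a' 0; linarith)⟩

theorem irr_tau (w : Fin 2 → K) {f : MvPolynomial (Fin 2) K} (hf : Irreducible f) :
    Irreducible (tau w f) := by
  let e : MvPolynomial (Fin 2) K ≃* MvPolynomial (Fin 2) K :=
    { toFun := tau w, invFun := tau (-w), left_inv := tau_tau w,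
      right_inv := fun g => by simpa using tau_tau (-w) g, map_mul' := map_mul _ }
  exact (MulEquiv.irreducible_iff (f := e)).2 hf

theorem deg_tau_eq (w : Fin 2 → K) (f : MvPolynomial (Fin 2) K) (i : Fin 2) :
    (tau w f).degreeOf i = f.degreeOf i :=
  (deg_tau w f i).antisymm (by simpa only [tau_tau] using deg_tau (-w) (tau w f) i)

/-- the pointwise lower bound -/
theorem low {e b u u' w w' : ℝ} (he : |e| ≤ b) :
    b * (max 0 w' - min (max 0 u') (max 0 w') - min (max 0 u) (max 0 w') -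
      min (max 0 w) (max 0 w') - max 0 (-u') - max 0 (-u)) ≤ |e * (u' - u) + b * (w' - w)| := by
  have hb : 0 ≤ b := (abs_nonneg _).trans he
  by_cases h : max 0 w' - min (max 0 u') (max 0 w') - min (max 0 u) (max 0 w') -
      min (max 0 w) (max 0 w') - max 0 (-u') - max 0 (-u) ≤ 0
  · exact (mul_nonpos_of_nonneg_of_nonpos hb h).trans (abs_nonneg _)
  · refine le_trans ?_ (le_abs_self _)
    have h1 : -(b * |u' - u|) ≤ e * (u' - u) := by
      have := neg_abs_le (e * (u' - u))
      rw [abs_mul] at this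
      nlinarith [abs_nonneg (u' - u)]
    have h2 : max 0 w' - min (max 0 u') (max 0 w') - min (max 0 u) (max 0 w') -
      min (max 0 w) (max 0 w') - max 0 (-u') - max 0 (-u) ≤ w' - w - |u' - u| := by
      have n : ∀ c : ℝ, 0 ≤ min (max 0 c) (max 0 w') := fun c =>
        le_min (le_max_left _ _) (le_max_left _ _)
      have r : ∀ c : ℝ, min (max 0 c) (max 0 w') < max 0 w' → min (max 0 c) (max 0 w') = max 0 c :=
        fun c l => min_eq_left (not_lt.1 fun q => by rw [min_eq_right q.le] at l; exact l.false)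
      have := n u'
      have := n u
      have := n w
      have := le_max_left 0 (-u')
      have := le_max_left 0 (-u)
      have := le_max_right 0 (-u')
      have := le_max_right 0 (-u)
      have := r u' (by linarith)
      have := r u (by linarith)
      have := r w (by linarith)
      have : max 0 w' = w' := max_eq_right (not_lt.1 fun q => by
        rw [max_eq_left q.le] at *
        linarith)
      have := le_max_left 0 u'
      have := le_max_left 0 u
      have := le_max_right 0 u'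
      have := le_max_right 0 u
      have := le_max_right 0 w
      rcases abs_cases (u' - u) with k | k <;> linarith
    nlinarith

end Curv

open Ch Det Curv in
/-- two bases at `x` with many low points on one curve -/
theorem curv2 {X PL K : Type} [DecidableEq X] [Fintype PL] [Field K] {s : Sys X PL}
    {A : Ari X PL K} {η : ℝ} {Z : Finset X} {R : PL → ℝ} {G : PL → X → ℝ} {W ε : ℝ}
    (hA : A.Good s η) (hC : Cen s Z R G W ε) {f : MvPolynomial (Fin 2) K} {b : ℕ}
    (hf : Irreducible f) (h0 : f.degreeOf 0 = b) (h1 : f.degreeOf 1 = b) (hb : 1 ≤ b) {x y y' : X}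
    (hx : x ∈ Z) (hy : y ∈ Z.erase x) (hy' : y' ∈ Z.erase x) {t : ℝ}
    (hT : ∃ T : Finset X, 8 * b ^ 2 < T.card ∧ ∀ z ∈ T, A.ev f z = 0 ∧
      ∑ p, s.m p * max 0 (Real.log ((s.c p).d x z / (s.c p).d x y)) ≤ t)
    (hT' : ∃ T : Finset X, 8 * b ^ 2 < T.card ∧ ∀ z ∈ T, A.ev f z = 0 ∧
      ∑ p, s.m p * max 0 (Real.log ((s.c p).d x z / (s.c p).d x y')) ≤ t) :
    W ≤ del s R x y' + 2 * (∑ p, s.m p * min (max 0 (dep s R p x y))
      (max 0 (dep s R p x y') + max 0 (dep s R (s.bar p) x y'))) + 48 * t + 11 * ε * W := by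
  have hs := hA.good
  obtain ⟨T, c, hT⟩ := hT
  obtain ⟨T', c', hT'⟩ := hT'
  obtain ⟨n, hy⟩ := mem_erase.1 hy
  obtain ⟨n', hy'⟩ := mem_erase.1 hy'
  set F := tau (-![A.U x, A.V x]) f with hF
  have iF : Irreducible F := irr_tau _ hf
  have dF : ∀ i, F.degreeOf i = b := fun i => by
    rw [hF, deg_tau_eq]
    fin_cases i
    · exact h0
    · exact h1
  have ev : ∀ z, A.ev f z = 0 → eval ![A.U z - A.U x, A.V z - A.V x] F = 0 := fun z h => by
    rw [hF, eval_tau, ← h]
    unfold Ari.ev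
    congr 2
    ext i
    fin_cases i <;> simp
  have dp : ∀ {y}, y ≠ x → ∀ p, Real.log ((s.c p).d x y) = Real.log (R p) - dep s R p x y := by
    intro y n p
    have : 0 < (s.c p).d x y :=
      lt_of_lt_of_le (by have := (hs.good p).rlo_pos; positivity) ((hs.good p).d_lo x y n.symm)
    rw [dep, Real.log_div (hC.R_pos p).ne' this.ne']
    ring
  let a : PL → ℝ := fun p => dep s R p x y
  let a' : PL → ℝ := fun p => dep s R p x y'
  have two : ∀ {m m'}, Vx F m → Vx F m' → ∑ p, s.m p *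
      |((m 0 : ℝ) - m' 0) * (a' (up s A p) - a (up s A p)) +
        ((m 1 : ℝ) - m' 1) * (a' (wp s A p) - a (wp s A p))| ≤ 2 * (b * (24 * t + 48)) := by
    intro m m' hm hm'
    have k := ch hA iF dF n.symm T c (fun z h => ev z (hT z h).1) (fun z h => (hT z h).2) hm hm'
    have k' := ch hA iF dF n'.symm T' c' (fun z h => ev z (hT' z h).1) (fun z h => (hT' z h).2) hm hm'
    refine le_trans ?_ ((add_le_add k k').trans (by linarith))
    rw [← Det.sum_add]
    refine sum_le_sum fun p _ => mul_le_mul_of_nonneg_left ?_ (hs.m_lo p)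
    refine le_trans (le_of_eq (congrArg _ ?_)) (abs_sub _ _)
    simp only [dp n, dp n', a, a']
    ring
  have l : ∀ {m m'}, Vx F m → Vx F m' → ∀ i, |(m i : ℝ) - m' i| ≤ b := fun {m m'} h h' i => by
    have e1 : (m i : ℝ) ≤ b := by exact_mod_cast (monomial_le_degreeOf i h.1).trans (dF i).le
    have e2 : (m' i : ℝ) ≤ b := by exact_mod_cast (monomial_le_degreeOf i h'.1).trans (dF i).le
    have := Nat.cast_nonneg (α := ℝ) (m i)
    have := Nat.cast_nonneg (α := ℝ) (m' i)
    rw [abs_le]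
    constructor <;> linarith
  obtain ⟨m0, m0', v0, v0', e0, e0'⟩ := newt iF dF hb 0
  obtain ⟨m1, m1', v1, v1', e1, e1'⟩ := newt iF dF hb 1
  have k := add_le_add (two v0 v0') (two v1 v1')
  rw [← Det.sum_add, e0, e0', e1, e1'] at k
  let g : PL → ℝ := fun p => max 0 (a' p) + max 0 (a' (s.bar p))
  let φ : PL → ℝ := fun p => max 0 (a' p) - dd s R p x y' - 2 * min (max 0 (a p)) (g p) -
    max 0 (-a' p) - max 0 (-a p)
  have pt : ∀ p, b * (φ (up s A p) + φ (wp s A p)) ≤
      |((b : ℝ) - (0 : ℕ)) * (a' (up s A p) - a (up s A p)) +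
        ((m0 1 : ℝ) - m0' 1) * (a' (wp s A p) - a (wp s A p))| +
      |((m1 0 : ℝ) - m1' 0) * (a' (up s A p) - a (up s A p)) +
        ((b : ℝ) - (0 : ℕ)) * (a' (wp s A p) - a (wp s A p))| := by
    intro p
    have q0 := low (u := a (wp s A p)) (u' := a' (wp s A p)) (w := a (up s A p))
      (w' := a' (up s A p)) (l v0 v0' 1)
    have q1 := low (u := a (up s A p)) (u' := a' (up s A p)) (w := a (wp s A p))
      (w' := a' (wp s A p)) (l v1 v1' 0)
    rw [add_comm] at q0
    rw [Nat.cast_zero, sub_zero]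
    refine le_trans ?_ (add_le_add q0 q1)
    rw [← mul_add]
    refine mul_le_mul_of_nonneg_left ?_ (Nat.cast_nonneg _)
    have b1 : s.bar (up s A p) = wp s A p := by
      unfold up wp; cases A.sd p <;> simp [hA.bar_bar]
    have b2 : s.bar (wp s A p) = up s A p := by
      unfold up wp; cases A.sd p <;> simp [hA.bar_bar]
    simp only [φ, g, dd, b1, b2, max_min_distrib_left]
    change _ ≤ _
    have m1 : ∀ c d e : ℝ, 0 ≤ e → min c d ≤ min c (d + e) := fun c d e h =>
      min_le_min le_rfl (by linarith)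
    have m2 : ∀ c d e : ℝ, 0 ≤ d → min c e ≤ min c (d + e) := fun c d e h =>
      min_le_min le_rfl (by linarith)
    have := m1 (max 0 (a (up s A p))) (max 0 (a' (up s A p))) (max 0 (a' (wp s A p))) (le_max_left _ _)
    have := m2 (max 0 (a (up s A p))) (max 0 (a' (up s A p))) (max 0 (a' (wp s A p))) (le_max_left _ _)
    have := m1 (max 0 (a (wp s A p))) (max 0 (a' (wp s A p))) (max 0 (a' (up s A p))) (le_max_left _ _)
    have := m2 (max 0 (a (wp s A p))) (max 0 (a' (wp s A p))) (max 0 (a' (up s A p))) (le_max_left _ _)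
    simp only [a, a'] at *
    linarith
  have k2 := (sum_le_sum fun p _ => mul_le_mul_of_nonneg_left (pt p) (hs.m_lo p)).trans k
  rw [Det.sum_cm, sum_uw hA φ] at k2
  have hb' : (0 : ℝ) < b := by exact_mod_cast hb
  have k3 : ∑ p, s.m p * φ p ≤ 48 * t + 96 := by
    refine le_of_mul_le_mul_left ?_ hb'
    linarith
  obtain ⟨-, d2, -, -⟩ := depS X PL s Z R G W ε hs hC x hx y hy n.symm
  obtain ⟨d1', d2', -, -⟩ := depS X PL s Z R G W ε hs hC x hx y' hy' n'.symm
  have d3 : W ≤ ∑ p, s.m p * max 0 (a' p) := d1' ▸ sum_le_sum fun p _ =>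
    mul_le_mul_of_nonneg_left (le_max_right _ _) (hs.m_lo p)
  simp only [φ, mul_sub, sum_sub_distrib, Det.sum_cm] at k3
  have := hC.eW
  unfold del
  simp only [a, a', g] at *
  linarith

/-- many bases at `x` with many low points on one curve all have a large double depth -/
theorem curv {X PL K : Type} [DecidableEq X] [Fintype PL] [Field K] {s : Sys X PL}
    {A : Ari X PL K} {η : ℝ} {Z : Finset X} {R : PL → ℝ} {G : PL → X → ℝ} {W ε Λ ns : ℝ}
    (hA : A.Good s η) (hC : Cen s Z R G W ε) (hc : Conc s R Z W ε Λ ns) (hΛ : 3 ≤ Λ)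
    {f : MvPolynomial (Fin 2) K} {b : ℕ} (hf : Irreducible f) (h0 : f.degreeOf 0 = b)
    (h1 : f.degreeOf 1 = b) (hb : 1 ≤ b) {x : X} (hx : x ∈ Z) {Y : Finset X} (hY : Y ⊆ Z.erase x)
    (hn : ns ≤ Y.card) {t : ℝ}
    (hT : ∀ y ∈ Y, ∃ T : Finset X, 8 * b ^ 2 < T.card ∧ ∀ z ∈ T, A.ev f z = 0 ∧
      ∑ p, s.m p * max 0 (Real.log ((s.c p).d x z / (s.c p).d x y)) ≤ t) :
    ∀ y ∈ Y, W ≤ del s R x y + 48 * t + 27 * ε * W := by
  intro y' hy'
  have hs := hA.good
  obtain ⟨n', z'⟩ := mem_erase.1 (hY hy')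
  obtain ⟨-, -, d3, -⟩ := depS X PL s Z R G W ε hs hC x hx y' z' n'.symm
  obtain ⟨W0, W1⟩ := Det.W_big hC
  have k := hc Y (hY.trans (erase_subset _ _)) hn x hx
    (fun p => max 0 (dep s R p x y') + max 0 (dep s R (s.bar p) x y'))
    (fun p => add_nonneg (le_max_left _ _) (le_max_left _ _)) (by
      rw [Det.sum_add, Ch.sum_bar hs fun p => max 0 (dep s R p x y')]
      nlinarith)
  rw [erase_eq_of_notMem fun h => (mem_erase.1 (hY h)).1 rfl] at k
  obtain ⟨y, hy, k⟩ := exists_le_of_sum_le (g := fun _ => 8 * ε * W) ⟨y', hy'⟩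
    (k.trans (by rw [sum_const, nsmul_eq_mul, mul_comm]))
  have := curv2 hA hC hf h0 h1 hb hx (hY hy) (hY hy') (hT y hy) (hT y' hy')
  linarith

end Pool.Agent.MP_ddf486_co.KV
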