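import Pool.Agent.MP_ddf486_co.KV.SpecB
import Pool.Agent.MP_ddf486_co.KV.Curv
import Pool.Agent.MP_ddf486_co.KV.Nf
import Pool.Agent.MP_6c3157_co.PQ.Col

/-! Project KV: large height balls do not lie on few curves. -/

set_option autoImplicit false
set_option linter.unusedSectionVars false

noncomputable section

namespace Pool.Agent.MP_ddf486_co.KV

open Finset Pool.Agent.MP_6c3157_co.PD Pool.Agent.MP_6c3157_co.PQ

theorem crv : CRV := by
  intro X PL K _ _ _ s A η Z R G W ε Λ ns t a C β hA hS hC hc hΛ hn hZ hf hβ ha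
  classical
  rw [ed_eq_sum, mul_assoc (Z.card : ℝ), ← nsmul_eq_mul]
  refine sum_le_card_nsmul _ _ _ fun x hx => ?_
  let Y : Finset X → Finset X := fun P => (Z.erase x).filter fun y =>
    8 * β P ^ 2 < (hb s Z t x y ∩ P).card ∧ del s R x y + 48 * t + 27 * ε * W < W
  have h1 : ∀ P ∈ C, ((Y P).card : ℝ) ≤ ns := fun P hP => by
    by_contra n
    obtain ⟨f, i, e, z⟩ := hf P hP
    obtain ⟨d0, d1⟩ := bid A hA.U_inj hS i P z (e ▸ (hβ P hP).2)
    obtain ⟨y, hy⟩ : (Y P).Nonempty := card_pos.1 (by exact_mod_cast hn.trans (not_le.1 n))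
    exact (mem_filter.1 hy).2.2.not_ge (curv hA hC hc hΛ i (d0.trans e) (d1.trans e) (hβ P hP).1
      hx (filter_subset _ _) (not_le.1 n).le (fun y hy => ⟨_, (mem_filter.1 hy).2.1, fun w hw =>
        ⟨z w (mem_inter.1 hw).2, (mem_filter.1 (mem_inter.1 hw).1).2⟩⟩) y hy)
  refine le_trans (Nat.cast_le.2 ((card_le_card fun y hy => ?_).trans
    (card_biUnion_le (s := C) (t := Y)))) ?_
  · rw [@mem_filter _ _ (_)] at hy
    obtain ⟨y0, y1, y2⟩ := hy
    by_contra n
    refine y1.not_ge (le_trans ?_ ha)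
    have k : hb s Z t x y ⊆ C.biUnion fun P => hb s Z t x y ∩ P := fun w hw =>
      let ⟨P, hP, h⟩ := mem_biUnion.1 (hZ (mem_filter.1 hw).1)
      mem_biUnion.2 ⟨P, hP, mem_inter.2 ⟨hw, h⟩⟩
    exact_mod_cast (card_le_card k).trans (card_biUnion_le.trans (sum_le_sum fun P hP =>
      not_lt.1 fun l => n (mem_biUnion.2 ⟨P, hP, mem_filter.2 ⟨y0, l, y2⟩⟩)))
  · rw [Nat.cast_sum, ← nsmul_eq_mul]
    exact sum_le_card_nsmul _ _ _ h1

end Pool.Agent.MP_ddf486_co.KV
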