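import Pool.Agent.MP_ddf486_co.KV.NumB
import Pool.Agent.MP_6c3157_co.PQ.Apex
import Pool.Agent.MP_6c3157_co.PQ.Dep
import Pool.Agent.MP_6c3157_co.PQ.Clg
import Pool.Agent.MP_6c3157_co.PQ.Cl2
import Pool.Agent.MP_6c3157_co.PQ.Gfb
import Pool.Agent.MP_6c3157_co.PQ.Col

/-! Project KV, row SML: few hot triples give few small height balls. -/

set_option autoImplicit false
set_option linter.unusedSectionVars false

noncomputable section

namespace Pool.Agent.MP_ddf486_co.KV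

open Finset Pool.Agent.MP_6c3157_co.PD Pool.Agent.MP_6c3157_co.PQ

namespace Sml

theorem thin {u q : ℝ} (u0 : 0 < u) (u1 : u ≤ 1 / 10 ^ 30) (q0 : 0 < q) (h : Real.log q * u ≤ 1) :
    ∃ j : ℕ, 250 * u ^ 10 * j ≤ 1 ∧ q ^ 61 * (1 - u ^ 8 / 80) ^ j ≤ 1 / 10 := by
  have p0 : 0 < u ^ 10 := by positivity
  have p8 : 0 < u ^ 8 := by positivity
  have u2 : u ≤ 1 := u1.trans (by norm_num)
  have p1 : u ^ 8 ≤ 1 := pow_le_one₀ u0.le u2
  have p2 : u ^ 10 ≤ u := pow_le_of_le_one u0.le u2 (by norm_num)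
  refine ⟨⌊1 / (250 * u ^ 10)⌋₊, ?_, ?_⟩
  · have := Nat.floor_le (show 0 ≤ 1 / (250 * u ^ 10) by positivity)
    rwa [le_div_iff₀' (by positivity)] at this
  · have e1 := Nat.lt_floor_add_one (1 / (250 * u ^ 10))
    rw [div_lt_iff₀ (by positivity)] at e1
    generalize ⌊1 / (250 * u ^ 10)⌋₊ = j at e1
    have e2 : (1 - u ^ 8 / 80) ^ j ≤ Real.exp (j * -(u ^ 8 / 80)) := by
      rw [Real.exp_nat_mul]
      exact pow_le_pow_left₀ (by linarith) (by linarith [Real.add_one_le_exp (-(u ^ 8 / 80))]) j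
    have e3 : q ^ 61 = Real.exp (61 * Real.log q) := by
      rw [← Real.exp_log (pow_pos q0 61), Real.log_pow]
      norm_num
    have e4 : 61 * Real.log q + j * -(u ^ 8 / 80) ≤ -9 := by
      refine le_of_mul_le_mul_right ?_ (pow_pos u0 2)
      have a1 : Real.log q * u ^ 2 ≤ u := by nlinarith
      have a2 : u ^ 2 ≤ u := pow_le_of_le_one u0.le u2 (by norm_num)
      have a3 : (j : ℝ) * u ^ 10 = j * u ^ 8 * u ^ 2 := by ring
      norm_num at u1
      linarith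
    have e5 : Real.exp (-9) ≤ 1 / 10 := by
      rw [Real.exp_neg, one_div]
      exact inv_anti₀ (by norm_num) (by linarith [Real.add_one_le_exp 9])
    rw [e3]
    refine (mul_le_mul_of_nonneg_left e2 (Real.exp_pos _).le).trans ?_
    rw [← Real.exp_add]
    exact (Real.exp_le_exp.2 e4).trans e5

end Sml

theorem sml (hB : BLK) : SML := by
  classical
  intro N X PL K _ _ _ s A η Q Z hv R L G cn W ns T hN H hZ hQ co htb V hV
  have nb := nb hN H.big
  have u0 := nb.u0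
  have cen := co.cln.cen
  have W0 : 0 < W := by
    by_contra k
    nlinarith [cen.eW, mul_nonneg cen.e_pos.le (neg_nonneg.2 (not_lt.1 k))]
  have u1 : N.u ≤ 1 / 1000 := nb.u1.trans (by norm_num)
  have stp : ∀ a b : ℕ, a < b → N.u ^ b ≤ N.u ^ a / 1000 := fun a b k => by
    have e1 := nb.pw (a + 1) b k
    have e2 := mul_le_mul_of_nonneg_left u1 (pow_pos u0 a).le
    rw [pow_succ] at e1
    linarith
  have stw : ∀ a b : ℕ, a < b → N.u ^ b * W ≤ N.u ^ a * W / 1000 := fun a b k => by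
    have := mul_le_mul_of_nonneg_right (stp a b k) W0.le
    linarith
  have pw : ∀ a : ℕ, 0 < N.u ^ a * W := fun a => mul_pos (pow_pos u0 a) W0
  obtain ⟨c₁, c₂, hc, hj⟩ := clg cl2 gfb X PL s R Z (fun _ _ => False) (fun _ _ => False)
    (N.u ^ 20 * W) N.κ co.good.m_lo (pw 20) nb.k1 (by intros; assumption)
  obtain ⟨cl, h1, h2⟩ := col hc
  obtain ⟨j, j1, j2⟩ := Sml.thin u0 nb.u1 (zero_lt_one.trans_le nb.q2) hN.q_u
  have e20 : (N.u ^ 10) ^ 2 = N.u ^ 20 := by ring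
  have hb := hB X PL s hv Z V R L G W _ _ ns T (N.u ^ 10) (N.u ^ 8 * W / 10) ((N.q : ℝ) ^ 61) N.u N.κ
    j cl co.good co.cln (by rwa [e20, mul_assoc]) (pow_pos u0 _)
    (by linarith [stp 0 10 (by norm_num), pow_zero N.u]) (by rw [e20]; exact nb.pw _ _ (by norm_num))
    hV (by rw [e20]; linarith [stw 8 20 (by norm_num), pw 8])
    (by linarith [stw 8 470 (by norm_num)])
    (by have := stw 0 8 (by norm_num); rw [pow_zero] at this; linarith) j1 (by positivity)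
    (by rwa [show N.u ^ 8 * W / 10 / (8 * W) = N.u ^ 8 / 80 by field_simp; norm_num]) u0.le nb.k1
    fun S hS c => H.pl S (hS.trans (hV.trans hZ)) (c.trans (nb.qs 61 (by norm_num)))
  rw [h2, show 10 * (N.u ^ 8 * W / 10) = N.u ^ 8 * W by ring] at hb
  have t0 : ed Z (fun _ _ => False) = 0 := by simp [ed]
  have t1 : (tc s.lab Z fun x y z => N.u ^ 20 * W ≤ dis s R x y z ∧ ¬False) ≤
      A.tb Z Z fun y z => N.u ^ 20 / 3 * W ≤ del s R y z := by
    refine card_le_card fun t ht => ?_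
    simp only [mem_filter, mem_product] at ht ⊢
    obtain ⟨⟨m1, m2, m3⟩, a1, a2, a3, a4, a5, -⟩ := ht
    have e := (apex depS X PL K s A η Z R G W _ H.ari cen _ m1 _ m2 _ m3 a1 a2 a3 a4).2
    refine ⟨⟨m1, m2, m3⟩, a3, H.ari.lab _ _ _ a4, le_trans ?_ e⟩
    unfold dis at a5
    linarith [stw 20 470 (by norm_num), pw 20]
  have z0 : (0 : ℝ) ≤ (Z.card : ℝ) ^ 2 := by positivity
  have t2 : Phi s.lab N.κ Z ≤ N.u ^ 22 * (Z.card : ℝ) ^ 2 := by
    refine ((gfb.2.2.2 X s.lab N.κ Q nb.k1).2.1 Z hZ).trans (H.bad.trans ?_)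
    calc _ ≤ N.u ^ 30 * (Q.card : ℝ) ^ 2 :=
        mul_le_mul_of_nonneg_right (nb.ps 30 (by norm_num)) (by positivity)
      _ = N.u ^ 22 * (N.u ^ 4 * Q.card) ^ 2 := by ring
      _ ≤ _ := mul_le_mul_of_nonneg_left (pow_le_pow_left₀ (by positivity) hQ 2) (by positivity)
  have t3 : ((tc s.lab Z fun x y z => N.u ^ 20 * W ≤ dis s R x y z ∧ ¬False : ℕ) : ℝ) / N.κ ^ 2 ≤
      N.u ^ 22 * (Z.card : ℝ) ^ 2 := by
    have k0 : 0 < N.κ := zero_lt_one.trans_le nb.k1
    have e1 := one_le_pow₀ (n := 2) (nb.uk 31 (by norm_num))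
    have e2 := (mul_le_mul_of_nonneg_left (Nat.cast_le.2 t1) (pow_pos u0 40).le).trans htb
    rw [div_le_iff₀ (by positivity)]
    refine le_of_mul_le_mul_left (e2.trans ?_) (pow_pos u0 40)
    exact (le_mul_of_one_le_left z0 e1).trans_eq (by ring)
  rw [t0, Nat.cast_zero, zero_add] at hj
  refine le_of_mul_le_mul_left (hb.trans ?_) u0
  have t4 := mul_le_mul_of_nonneg_right (stp 21 22 (by norm_num)) z0
  have t5 : N.u * (N.u ^ 20 * (Z.card : ℝ) ^ 2) = N.u ^ 21 * (Z.card : ℝ) ^ 2 := by ring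
  have t6 : 0 ≤ N.u ^ 21 * (Z.card : ℝ) ^ 2 := by positivity
  linarith

end Pool.Agent.MP_ddf486_co.KV
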