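import Pool.Agent.MP_ddf486_co.KV.AllA
import Pool.Agent.MP_ddf486_co.KV.AllC
import Pool.Agent.MP_ddf486_co.KV.AllD
import Pool.Agent.MP_ddf486_co.KV.AllE
import Pool.Agent.MP_ddf486_co.KV.Crs
import Pool.Agent.MP_ddf486_co.KV.Cls3
import Pool.Agent.MP_ddf486_co.KV.Case0
import Pool.Agent.MP_ddf486_co.KV.Case1
import Pool.Agent.MP_ddf486_co.KV.Bnd
import Pool.Agent.MP_ddf486_co.KV.Coa
import Pool.Agent.MP_ddf486_co.KV.Bandr
import Pool.Agent.MP_ddf486_co.KV.Clnx
import Pool.Agent.MP_ddf486_co.KV.Ft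
import Pool.Agent.MP_ddf486_co.KV.Sml
import Pool.Agent.MP_ddf486_co.KV.Blk
import Pool.Agent.MP_ddf486_co.KV.Crv

/-! Project KV: the theorem. -/

set_option autoImplicit false

namespace Pool.Agent.MP_ddf486_co.KV

theorem top_crs : CRS :=
  crs cls3 (case1 bnd (coa bandr clnx) ft (sml blk) crv) (case0 (coa bandr clnx) ft (sml blk))

theorem all_main : MAIN :=
  main_of top_crs all_mod st0_all (lev_all cla) (all_jmp tail_all) (all_los tail_all)

end Pool.Agent.MP_ddf486_co.KV
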