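import Pool.Agent.MP_ddf486_co.KV.SpecB
import Pool.Agent.MP_6c3157_co.PQ.Fpc

/-! Project KV, row FT: triples with a hot base. -/

set_option autoImplicit false

namespace Pool.Agent.MP_ddf486_co.KV

open Finset Pool.Agent.MP_6c3157_co.PD Pool.Agent.MP_6c3157_co.PQ FpcAux

theorem ft : FT := by
  intro X PL K _ _ A Z H k hk hp
  classical
  refine ⟨tb_le_ec A Z Z H k fun y hy z hz h _ => hp y hy z hz h,
    fun C β b ν k₁ M n D hC hZ hN hn hD => ?_⟩
  have : ∀ P y, ∃ e : X, P ∈ C → ∀ z, z ≠ y → z ≠ e →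
      (P.filter fun x => A.bis x y z).card ≤ 2 * β P := fun P y => by
    by_cases h : P ∈ C
    · exact (hC.line P h y).imp fun _ he _ => he
    · exact ⟨y, fun h' => absurd h' h⟩
  choose e he using this
  have hk₁ : 0 < k₁ := one_pos.trans_le hN.k_lo
  have hM : 0 ≤ M := zero_le_one.trans hN.M_lo
  set B : ℝ := ∑ P ∈ C, (β P : ℝ) with hB
  have h0 : A.tb Z Z H ≤ A.tb Z Z (fun y z => ∃ P ∈ C, z = e P y) +
      A.tb Z Z fun y z => H y z ∧ ¬∃ P ∈ C, z = e P y := by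
    refine (card_le_card fun t ht => ?_).trans (card_union_le _ _)
    simp only [mem_filter, mem_union] at ht ⊢
    exact (em _).imp (fun c => ⟨ht.1, ht.2.1, ht.2.2.1, c⟩) fun c =>
      ⟨ht.1, ht.2.1, ht.2.2.1, ht.2.2.2, c⟩
  have h1 : (A.tb Z Z fun y z => ∃ P ∈ C, z = e P y : ℝ) ≤ k * C.card * Z.card := by
    refine (tb_le_ec A Z Z _ k fun y hy z hz h _ => hp y hy z hz h).trans ?_
    rw [mul_assoc, ← Nat.cast_mul, ← card_product]
    refine mul_le_mul_of_nonneg_left (Nat.cast_le.2 ((card_le_card fun t ht => ?_).trans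
      (card_image_le (f := fun x : Finset X × X => (x.2, e x.1 x.2))))) hk
    simp only [mem_filter, mem_product] at ht
    obtain ⟨⟨a, -⟩, -, P, hP, h⟩ := ht
    exact mem_image.2 ⟨(P, t.1), mem_product.2 ⟨hP, a⟩, Prod.ext rfl h.symm⟩
  have h2 := tb_split A Z C fun y z => H y z ∧ ¬∃ P ∈ C, z = e P y
  have h3 := (tb_le_ec A Z Z (fun y z => (H y z ∧ ¬∃ P ∈ C, z = e P y) ∧ ¬∃ P ∈ C, y ∈ P ∧ z ∈ P)
    k fun y hy z hz h _ => hp y hy z hz h).trans (mul_le_mul_of_nonneg_left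
      ((Nat.cast_le.2 (ec_mono Z _ _ fun y z h => ⟨h.1.1, h.2⟩)).trans hN.gen) hk)
  have h4 : ∀ P ∈ C, (A.tb Z (Z ∩ P) fun y z => H y z ∧ ¬∃ P ∈ C, z = e P y : ℝ) ≤
      2 * M * B * ((P.card : ℝ) ^ 2 / β P) + 4 * k / k₁ * (P.card : ℝ) ^ 2 := fun P hP => by
    have hm : 0 ≤ min k (2 * B) := le_min hk (by positivity)
    refine (tb_le_ec A Z _ _ (min k (2 * B)) fun y hy z hz h g => le_min
      (hp y (mem_inter.1 hy).1 z (mem_inter.1 hz).1 h) ?_).trans ((mul_le_mul_of_nonneg_left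
        ((Nat.cast_le.2 (ec_mono _ _ H fun y z h => h.1)).trans (hN.same P hP)) hm).trans ?_)
    · rw [hB, mul_sum]
      norm_cast
      refine (card_le_card (t := C.biUnion fun P => P.filter fun x => A.bis x y z)
        fun x hx => ?_).trans (card_biUnion_le.trans (sum_le_sum fun P hP =>
          he P y hP z h.symm fun c => g.2 ⟨P, hP, c⟩))
      obtain ⟨P, hP, h⟩ := mem_biUnion.1 (hZ (mem_filter.1 hx).1)
      exact mem_biUnion.2 ⟨P, hP, mem_filter.2 ⟨h, (mem_filter.1 hx).2⟩⟩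
    · have a := mul_le_mul_of_nonneg_right (min_le_right k (2 * B))
        (by positivity : 0 ≤ M / β P * (P.card : ℝ) ^ 2)
      have c := mul_le_mul_of_nonneg_right (min_le_left k (2 * B))
        (by positivity : 0 ≤ 4 / k₁ * (P.card : ℝ) ^ 2)
      linear_combination a + c
  have h5 := sum_le_sum h4
  rw [sum_add_distrib, ← mul_sum, ← mul_sum] at h5
  have h6 : 4 * k / k₁ * ∑ P ∈ C, (P.card : ℝ) ^ 2 ≤ 4 * k / k₁ * n ^ 2 :=
    mul_le_mul_of_nonneg_left ((sum_sq_le_sq_sum_of_nonneg fun P _ => Nat.cast_nonneg _).trans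
      (pow_le_pow_left₀ (sum_nonneg fun P _ => Nat.cast_nonneg _) hn 2)) (by positivity)
  have h7 := mul_le_mul_of_nonneg_left hD (by positivity : 0 ≤ 2 * M)
  have h0 := (Nat.cast_le (α := ℝ)).2 h0
  have h2 := (Nat.cast_le (α := ℝ)).2 h2
  rw [Nat.cast_add] at h0 h2
  rw [Nat.cast_sum] at h2
  linear_combination h0 + h1 + h2 + h3 + h5 + h6 + h7

end Pool.Agent.MP_ddf486_co.KV
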