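import Pool.Agent.MP_ddf486_co.KV.Bandr
import Pool.Agent.MP_ddf486_co.KV.Clnx
import Pool.Agent.MP_ddf486_co.KV.Coa
import Pool.Agent.MP_ddf486_co.KV.Cls3
import Pool.Agent.MP_ddf486_co.KV.Bnd
import Pool.Agent.MP_ddf486_co.KV.Ft
import Pool.Agent.MP_ddf486_co.KV.Blk
import Pool.Agent.MP_ddf486_co.KV.Sml
import Pool.Agent.MP_ddf486_co.KV.Crv
import Pool.Agent.MP_ddf486_co.KV.Case0
import Pool.Agent.MP_ddf486_co.KV.Case1
import Pool.Agent.MP_ddf486_co.KV.Crs

/-! Project KV: assembly of block B. -/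

set_option autoImplicit false

namespace Pool.Agent.MP_ddf486_co.KV

theorem all_coa : COA := coa bandr clnx

theorem all_crs : CRS :=
  crs cls3 (case1 bnd all_coa ft (sml blk) crv) (case0 all_coa ft (sml blk))

end Pool.Agent.MP_ddf486_co.KV
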