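import Pool.Agent.MP_ddf486_co.KV.SpecC
import Pool.Agent.MP_ddf486_co.KV.Idn

/-! Project KV, block C: basic facts. -/

set_option autoImplicit false
set_option linter.unusedSectionVars false

noncomputable section

namespace Pool.Agent.MP_ddf486_co.KV

open Finset Pool.Agent.MP_6c3157_co.PD Pool.Agent.MP_6c3157_co.PQ

variable {N : Nb} {X PL K : Type} [DecidableEq X] [Fintype PL] [Field K] {s : Sys X PL}
  {A : Ari X PL K} {η : ℝ} {Z : Finset X} {R L : PL → ℝ} {G rq : PL → X → ℝ} {cn : PL → X}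
  {W ε : ℝ}

theorem fam_sum (s : Sys X PL) (f : PL → ℕ × Finset X → ℝ) :
    ∑ i : (Σ p : PL, (s.c p).I), f i.1 i.2.1 = ∑ p, ∑ i ∈ (s.c p).I, f p i := by
  rw [Fintype.sum_sigma]
  exact sum_congr rfl fun p _ => sum_coe_sort (s.c p).I (f p)

theorem fam_W (s : Sys X PL) (Z : Finset X) (R L : PL → ℝ) (rq : PL → X → ℝ)
    (ψ : PL → ℕ × Finset X → Prop) :
    (fam s Z R L rq).W (fun i => ψ i.1 i.2.1) = ∑ p, s.m p * (s.c p).W (ψ p) := by
  classical
  unfold Fam.W Cells.W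
  simp only [mul_sum, mul_ite, mul_zero]
  rw [← fam_sum s fun p i => if ψ p i then s.m p * (s.c p).w i else 0]
  exact sum_congr rfl fun i _ => by congr

theorem fam_w_lo (hs : s.Good) (i : Σ p : PL, (s.c p).I) : 0 ≤ (fam s Z R L rq).w i :=
  mul_nonneg (hs.m_lo _) ((hs.good _).w_lo _ i.2.2)

theorem fam_OB (y z : X) : (fam s Z R L rq).OB y z =
    ∑ p, s.m p * (s.c p).W fun i => bc s Z R L rq p i ∧ y ∈ i.2 ∧ z ∈ i.2 :=
  fam_W s Z R L rq fun p i => bc s Z R L rq p i ∧ y ∈ i.2 ∧ z ∈ i.2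

theorem fam_OA (y z : X) : (fam s Z R L rq).OA y z =
    ∑ p, s.m p * (s.c p).W fun i => ¬ bc s Z R L rq p i ∧ y ∈ i.2 ∧ z ∈ i.2 :=
  fam_W s Z R L rq fun p i => ¬ bc s Z R L rq p i ∧ y ∈ i.2 ∧ z ∈ i.2

theorem fam_DB (x y z : X) : (fam s Z R L rq).DB x y z =
    ∑ p, s.m p * (s.c p).W fun i => bc s Z R L rq p i ∧ x ∈ i.2 ∧ y ∈ i.2 ∧ z ∉ i.2 :=
  fam_W s Z R L rq fun p i => bc s Z R L rq p i ∧ x ∈ i.2 ∧ y ∈ i.2 ∧ z ∉ i.2

/-! ### numbers -/

theorem Nb.Good.L_one (hN : N.Good) : 1 ≤ N.L := le_trans (by norm_num) hN.L_big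

theorem Nb.Good.L_q (hN : N.Good) : N.L ^ 30 ≤ N.q :=
  (le_mul_of_one_le_left (pow_nonneg (zero_le_one.trans hN.L_one) _) hN.k_lo).trans hN.kq

theorem Fm.card_big (h : Fm N s A η Z R L G rq cn W ε) (hN : N.Good) :
    (N.q : ℝ) ^ 1000 ≤ Z.card := by
  have h1 : (2 : ℝ) ≤ N.q := le_trans (by norm_num) hN.q_big
  have h2 : (2 : ℝ) ≤ (N.q : ℝ) ^ 1000 := h1.trans (le_self_pow₀ (by linarith) (by norm_num))
  have h3 := hN.sq'
  rw [show 2000 = 1000 * 2 from rfl, pow_mul] at h3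
  have h4 := h.big
  generalize (N.q : ℝ) ^ 1000 = v at h2 h3 ⊢
  have h5 : 2 * v ≤ N.s := by nlinarith
  nlinarith

theorem Fm.W_big (h : Fm N s A η Z R L G rq cn W ε) : 2000 ≤ W := by
  have := h.cen.eW
  have := h.cen.e_le
  have := h.cen.e_pos
  by_contra k
  nlinarith

theorem Fm.eW_le (h : Fm N s A η Z R L G rq cn W ε) : 100 * (ε * W) ≤ W := by
  have := h.cen.e_le
  have := h.W_big
  nlinarith

/-! ### slacks -/

theorem Fm.good (h : Fm N s A η Z R L G rq cn W ε) : s.Good := h.ari.good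

theorem Fm.xi_pos (h : Fm N s A η Z R L G rq cn W ε) (p : PL) : 0 < (s.c p).xi :=
  (h.ari.eta_pos p).trans_le (h.good.good p).eta_hi

theorem Fm.xi_le (h : Fm N s A η Z R L G rq cn W ε) (p : PL) : (s.c p).xi ≤ xs s p :=
  le_add_of_nonneg_right (h.xi_pos _).le

theorem Fm.xib_le (h : Fm N s A η Z R L G rq cn W ε) (p : PL) : (s.c (s.bar p)).xi ≤ xs s p :=
  le_add_of_nonneg_left (h.xi_pos _).le

theorem Fm.xs_pos (h : Fm N s A η Z R L G rq cn W ε) (p : PL) : 0 < xs s p :=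
  (h.xi_pos p).trans_le (h.xi_le p)

theorem Fm.xs_bar (h : Fm N s A η Z R L G rq cn W ε) (p : PL) : xs s (s.bar p) = xs s p := by
  unfold xs; rw [h.ari.bar_bar, add_comm]

theorem Fm.gth_bar (h : Fm N s A η Z R L G rq cn W ε) (p : PL) :
    gth s L (s.bar p) = gth s L p := by
  unfold gth; rw [h.xs_bar, h.ari.bar_bar, add_comm (L p)]

theorem Fm.ga_bar (h : Fm N s A η Z R L G rq cn W ε) (p : PL) : ga s L (s.bar p) = ga s L p := by
  unfold ga; rw [h.xs_bar, h.gth_bar]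

theorem Fm.gth_ge (h : Fm N s A η Z R L G rq cn W ε) (p : PL) : 20 * xs s p ≤ gth s L p := by
  have := h.L_lo p
  have := h.L_lo (s.bar p)
  unfold gth; linarith

theorem Fm.ga_ge (h : Fm N s A η Z R L G rq cn W ε) (p : PL) : 180 * xs s p ≤ ga s L p := by
  have := h.gth_ge p
  unfold ga; linarith

theorem Fm.ga_pos (h : Fm N s A η Z R L G rq cn W ε) (p : PL) : 0 < ga s L p := by
  have := h.ga_ge p
  have := h.xs_pos p
  linarith

theorem Fm.sum_xs (h : Fm N s A η Z R L G rq cn W ε) : ∑ p, s.m p * xs s p ≤ 40 := by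
  have h1 := h.good.xi_sum
  have h2 := h.good.sum_bar fun p => (s.c p).xi
  simp only [xs, mul_add, sum_add_distrib]
  linarith

theorem Fm.sum_ga (h : Fm N s A η Z R L G rq cn W ε) : ∑ p, s.m p * ga s L p ≤ 400 * (ε * W) := by
  have h1 := h.sum_xs
  have h2 := h.good.sum_bar L
  have h3 := h.L_sum
  have h4 := h.cen.eW
  have e : ∑ p, s.m p * ga s L p = 16 * ∑ p, s.m p * L p + 16 * ∑ p, s.m p * L (s.bar p) +
      180 * ∑ p, s.m p * xs s p := by
    simp only [mul_sum, ← sum_add_distrib]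
    exact sum_congr rfl fun p _ => by unfold ga gth; ring
  linarith

theorem Fm.lam_le (h : Fm N s A η Z R L G rq cn W ε) (p : PL) :
    (s.c p).lam ≤ Real.exp (xs s p) := by
  rw [← Real.log_le_iff_le_exp (h.good.good p).lam_pos]
  exact (h.good.good p).log_lam.trans (h.xi_le p)

theorem Fm.clp_lo (h : Fm N s A η Z R L G rq cn W ε) (p : PL) (x y : X) :
    0 ≤ clp s L G rq p x y := by
  have := h.ga_pos p
  have := h.cen.G_lo (s.bar p) x
  have := h.cen.G_lo (s.bar p) y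
  unfold clp; split_ifs <;> linarith

theorem Fm.ghp_lo (h : Fm N s A η Z R L G rq cn W ε) (p : PL) (y : X) : 0 ≤ ghp s L G p y := by
  have := h.cen.G_lo p y
  unfold ghp; split_ifs <;> linarith

/-- lower bound for depths -/
theorem Fm.dep_ge (h : Fm N s A η Z R L G rq cn W ε) (p : PL) {x y : X} (hx : x ∈ Z) (hy : y ∈ Z)
    (hxy : x ≠ y) : -((s.c p).xi + max (G p x) (G p y)) ≤ dep s R p x y := by
  have hc := h.good.good p
  have h1 := Real.log_le_log (hc.d_pos hxy) (h.cen.out p x hx y hy)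
  have hR := h.cen.R_pos p
  rw [Real.log_mul (mul_pos hc.lam_pos hR).ne' (Real.exp_pos _).ne',
    Real.log_mul hc.lam_pos.ne' hR.ne', Real.log_exp] at h1
  unfold dep
  rw [Real.log_div hR.ne' (hc.d_pos hxy).ne']
  linarith [hc.log_lam]

/-! ### quantile radii and small cells -/

theorem lq_nonneg (R : PL → ℝ) (rq : PL → X → ℝ) (p : PL) (y : X) : 0 ≤ lq R rq p y :=
  le_max_left _ _

theorem Fm.rq_pos (h : Fm N s A η Z R L G rq cn W ε) (p : PL) {y : X} (hy : y ∈ Z) :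
    0 < rq p y := by
  obtain ⟨a, -, h1, h2⟩ := h.rq_mem p y hy
  rw [h2]; exact (h.good.good p).d_pos h1.symm

theorem Fm.min_eq (h : Fm N s A η Z R L G rq cn W ε) (p : PL) {y : X} (hy : y ∈ Z) :
    min (R p) (rq p y) = R p * Real.exp (-lq R rq p y) := by
  have hR := h.cen.R_pos p
  have hq := h.rq_pos p hy
  unfold lq
  rcases le_total (R p) (rq p y) with k | k
  · rw [min_eq_left k, max_eq_left (Real.log_nonpos (by positivity) ((div_le_one hq).2 k))]
    simp
  · rw [min_eq_right k, max_eq_right (Real.log_nonneg ((one_le_div hq).2 k)), Real.exp_neg,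
      Real.exp_log (by positivity)]
    field_simp

theorem Fm.rB_pos (h : Fm N s A η Z R L G rq cn W ε) (p : PL) {y : X} (hy : y ∈ Z) :
    0 < rB s R L rq p y :=
  div_pos (mul_pos (lt_min (h.cen.R_pos p) (h.rq_pos p hy)) (Real.exp_pos _))
    (pow_pos (h.good.good p).lam_pos _)

theorem Fm.log_rB (h : Fm N s A η Z R L G rq cn W ε) (p : PL) {y : X} (hy : y ∈ Z) :
    Real.log (rB s R L rq p y) =
      Real.log (R p) - lq R rq p y - ga s L p - 3 * Real.log (s.c p).lam := by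
  have hR := h.cen.R_pos p
  have hl := (h.good.good p).lam_pos
  unfold rB
  rw [h.min_eq p hy, Real.log_div (by positivity) (by positivity),
    Real.log_mul (by positivity) (by positivity), Real.log_mul (by positivity) (by positivity),
    Real.log_exp, Real.log_exp, Real.log_pow]
  push_cast
  ring

theorem Fm.rB_le (h : Fm N s A η Z R L G rq cn W ε) (p : PL) {y : X} (hy : y ∈ Z) :
    rB s R L rq p y ≤ R p := by
  have h0 := (lt_min (h.cen.R_pos p) (h.rq_pos p hy)).le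
  have h1 : Real.exp (-ga s L p) ≤ 1 := Real.exp_le_one_iff.2 (by linarith [h.ga_pos p])
  refine (div_le_self (by positivity) (one_le_pow₀ (h.good.good p).lam_lo)).trans ?_
  exact (mul_le_of_le_one_right h0 h1).trans (min_le_left _ _)

/-- quantile radii of two points -/
theorem Fm.rq_le (h : Fm N s A η Z R L G rq cn W ε) (p : PL) {y z : X} (hy : y ∈ Z) (hz : z ∈ Z) :
    rq p y ≤ (s.c p).lam * max ((s.c p).d y z) (rq p z) := by
  by_contra k
  have h1 := h.rq_min p y hy _ (not_le.1 k)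
  have h2 := h.rq_in p z hz
  have h3 : (s.c p).ball Z z (rq p z) ⊆
      (s.c p).ball Z y ((s.c p).lam * max ((s.c p).d y z) (rq p z)) := fun v hv => by
    obtain ⟨v1, v2⟩ := Cells.mem_ball.1 hv
    exact Cells.mem_ball.2 ⟨v1, ((h.good.good p).d_tri y z v).trans
      (mul_le_mul_of_nonneg_left (max_le_max le_rfl v2) (h.good.good p).lam_pos.le)⟩
  have h4 : (((s.c p).ball Z z (rq p z)).card : ℝ) ≤ _ := Nat.cast_le.2 (card_le_card h3)
  have h5 := mul_le_mul_of_nonneg_left h4 (pow_nonneg (Nat.cast_nonneg (α := ℝ) N.q) 50)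
  linarith

theorem Fm.lq_lip (h : Fm N s A η Z R L G rq cn W ε) (p : PL) {y z : X} (hy : y ∈ Z) (hz : z ∈ Z)
    (h1 : (s.c p).d y z ≤ rq p y) (h2 : (s.c p).d y z ≤ rq p z) :
    |lq R rq p y - lq R rq p z| ≤ (s.c p).xi := by
  have hc := h.good.good p
  have key : ∀ a ∈ Z, ∀ b ∈ Z, (s.c p).d a b ≤ rq p b →
      lq R rq p b ≤ lq R rq p a + (s.c p).xi := fun a ha b hb k => by
    have e1 := h.rq_le p ha hb
    rw [max_eq_right k] at e1
    have e2 := Real.log_le_log (h.rq_pos p ha) e1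
    rw [Real.log_mul hc.lam_pos.ne' (h.rq_pos p hb).ne'] at e2
    have e3 : Real.log (R p / rq p a) ≤ lq R rq p a := le_max_right _ _
    refine max_le (add_nonneg (lq_nonneg _ _ _ _) hc.xi_nonneg) ?_
    rw [Real.log_div (h.cen.R_pos p).ne' (h.rq_pos p ha).ne'] at e3
    rw [Real.log_div (h.cen.R_pos p).ne' (h.rq_pos p hb).ne']
    linarith [hc.log_lam]
  have k1 := key y hy z hz h2
  have k2 := key z hz y hy (by rwa [hc.d_symm])
  rw [abs_le]; constructor <;> linarith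

/-- cells below `rB` are small -/
theorem Fm.bc_of_lt (h : Fm N s A η Z R L G rq cn W ε) {p : PL} {i : ℕ × Finset X}
    (hi : i ∈ (s.c p).I) {y : X} (hy : y ∈ Z) (hyi : y ∈ i.2)
    (hρ : (s.c p).ρ i < rB s R L rq p y) : bc s Z R L rq p i := by
  have hc := h.good.good p
  have hl := hc.lam_lo
  have hr := hc.rho_pos i hi
  have he := Real.exp_pos (ga s L p)
  have he1 : 1 ≤ Real.exp (ga s L p) := Real.one_le_exp (h.ga_pos p).le
  unfold rB at hρ
  rw [lt_div_iff₀ (by positivity), Real.exp_neg, ← div_eq_mul_inv, lt_div_iff₀ he] at hρ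
  set t := (s.c p).ρ i * Real.exp (ga s L p) with ht
  have t0 : 0 < t := mul_pos hr he
  have h1 : (s.c p).lam ^ 3 * t < min (R p) (rq p y) := by rw [ht]; linarith
  have l2 : (s.c p).lam * ((s.c p).lam * t) ≤ (s.c p).lam ^ 3 * t := by
    have : 0 ≤ (s.c p).lam * ((s.c p).lam * t) := by positivity
    nlinarith
  refine ⟨?_, fun z hz hzi => ?_⟩
  · exact ((le_mul_of_one_le_left t0.le (one_le_pow₀ hl)).trans h1.le).trans (min_le_left _ _)
  · by_contra k
    have h2 := h.rq_le p hy hz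
    have h3 : (s.c p).d y z ≤ (s.c p).lam * t := (hc.c1 i hi y hyi z hzi).trans
      (mul_le_mul_of_nonneg_left (le_mul_of_one_le_right hr.le he1) hc.lam_pos.le)
    have h4 := mul_le_mul_of_nonneg_left (max_le h3 (not_lt.1 k)) hc.lam_pos.le
    linarith [min_le_right (R p) (rq p y)]

/-- small cells are deep -/
theorem Fm.bc_le (h : Fm N s A η Z R L G rq cn W ε) {p : PL} {i : ℕ × Finset X}
    (hi : i ∈ (s.c p).I) (hb : bc s Z R L rq p i) {y : X} (hy : y ∈ Z) (hyi : y ∈ i.2) :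
    (s.c p).ρ i ≤ R p * Real.exp (-(lq R rq p y + ga s L p)) := by
  have hc := h.good.good p
  have he := Real.exp_pos (ga s L p)
  have t0 := (mul_pos (hc.rho_pos i hi) he).le
  have h1 := le_min hb.1 ((le_mul_of_one_le_left t0 hc.lam_lo).trans (hb.2 y hy hyi).le)
  rw [h.min_eq p hy] at h1
  rw [neg_add, Real.exp_add, ← mul_assoc, Real.exp_neg (ga s L p), ← div_eq_mul_inv,
    le_div_iff₀ he]
  exact h1

theorem Fm.bc_lt (h : Fm N s A η Z R L G rq cn W ε) {p : PL} {i : ℕ × Finset X}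
    (hi : i ∈ (s.c p).I) (hb : bc s Z R L rq p i) : (s.c p).ρ i < R p :=
  lt_of_lt_of_le (lt_mul_of_one_lt_right ((h.good.good p).rho_pos i hi)
    (Real.one_lt_exp_iff.2 (h.ga_pos p))) hb.1

/-- two points of a small cell are close -/
theorem Fm.bc_d (h : Fm N s A η Z R L G rq cn W ε) {p : PL} {i : ℕ × Finset X}
    (hi : i ∈ (s.c p).I) (hb : bc s Z R L rq p i) {x y : X} (hx : x ∈ Z) (hxi : x ∈ i.2)
    (hyi : y ∈ i.2) : (s.c p).lam * (s.c p).d x y < rq p x := by
  have hc := h.good.good p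
  refine lt_of_le_of_lt (mul_le_mul_of_nonneg_left ((hc.c1 i hi x hxi y hyi).trans ?_)
    hc.lam_pos.le) (hb.2 x hx hxi)
  rw [mul_comm]
  refine mul_le_mul_of_nonneg_left ((h.lam_le p).trans (Real.exp_le_exp.2 ?_))
    (hc.rho_pos i hi).le
  linarith [h.ga_ge p, h.xs_pos p]

theorem extm : EXTM := by
  intro X _ E A B e M M' m he hM hM' hA hB h
  obtain ⟨⟨T, T'⟩, hT, hm⟩ := exists_max_image (A.powerset ×ˢ B.powerset)
    (fun p => (ec E p.1 p.2 : ℝ) ^ (m + 1) / ((p.1.card : ℝ) * p.2.card) ^ m) ⟨(A, B), by simp⟩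
  obtain ⟨t1, t2⟩ : T ⊆ A ∧ T' ⊆ B := by simpa using hT
  have h0 : 0 < e * (M * M') := by positivity
  have a0 : (0 : ℝ) < (A.card : ℝ) * B.card := (h0.trans_le h).trans_le (Ext.ec_le E A B)
  have k1 : e ^ (m + 1) * (M * M') ≤
      (ec E T T' : ℝ) ^ (m + 1) / ((T.card : ℝ) * T'.card) ^ m := by
    refine le_trans ?_ (hm (A, B) (by simp))
    rw [show e ^ (m + 1) * (M * M') = (e * (M * M')) ^ (m + 1) / (M * M') ^ m by
      rw [mul_pow e, pow_succ (M * M')]; field_simp]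
    gcongr
  have k0 : 0 < e ^ (m + 1) * (M * M') := by positivity
  have p : (0 : ℝ) < ec E T T' := by
    by_contra n
    rw [le_antisymm (not_lt.1 n) (Nat.cast_nonneg _), zero_pow (by omega), zero_div] at k1
    linarith
  have l := Ext.ec_le E T T'
  have q := p.trans_le l
  have c1 : (T.card : ℝ) ≤ M := le_trans (by exact_mod_cast card_le_card t1) hA
  have c2 : (T'.card : ℝ) ≤ M' := le_trans (by exact_mod_cast card_le_card t2) hB
  rw [le_div_iff₀ (by positivity)] at k1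
  have k2 : e ^ (m + 1) * (M * M') ≤ (T.card : ℝ) * T'.card :=
    le_of_mul_le_mul_right (k1.trans ((pow_le_pow_left₀ p.le l (m + 1)).trans_eq
      (pow_succ' _ _))) (pow_pos q m)
  refine ⟨T, t1, T', t2, le_of_mul_le_mul_right ?_ hM', le_of_mul_le_mul_left ?_ hM,
    by exact_mod_cast p, ?_, fun S s1 S' s2 => ?_⟩
  · exact (mul_assoc _ _ _).trans_le (k2.trans (by gcongr))
  · exact (mul_left_comm _ _ _).trans_le (k2.trans (by gcongr))
  · refine le_of_pow_le_pow_left₀ (n := m + 1) (by omega) p.le (le_trans ?_ k1)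
    rw [mul_pow, pow_succ' ((T.card : ℝ) * T'.card) m, ← mul_assoc]
    gcongr
  · rcases (Nat.cast_nonneg (α := ℝ) (ec E S S')).eq_or_lt with z | z
    · rw [← z, zero_pow (by omega), zero_mul]
      positivity
    · have := hm (S, S') (by simpa using ⟨s1.trans t1, s2.trans t2⟩)
      rwa [div_le_div_iff₀ (pow_pos (z.trans_le (Ext.ec_le E S S')) m) (pow_pos q m)] at this

end Pool.Agent.MP_ddf486_co.KV
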