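import Pool.Agent.MP_ddf486_co.KV.SpecD

/-! Project KV, block D: small facts on the numbers and on edge counts. -/

set_option autoImplicit false
set_option linter.unusedSectionVars false

noncomputable section

namespace Pool.Agent.MP_ddf486_co.KV

open Finset Pool.Agent.MP_6c3157_co.PD Pool.Agent.MP_6c3157_co.PQ

/-- a higher power of a small number is much smaller -/
theorem pow_gap {u : ℝ} (h0 : 0 < u) (h1 : u ≤ 1 / 10 ^ 30) {a b : ℕ} (hab : a < b) :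
    10 ^ 30 * u ^ b ≤ u ^ a := by
  have h2 : u ≤ 1 := h1.trans (by norm_num)
  have h3 : u ^ b ≤ u ^ a * u := by
    rw [← pow_succ]; exact pow_le_pow_of_le_one h0.le h2 hab
  have h4 : 0 < u ^ a := pow_pos h0 a
  have h5 : 10 ^ 30 * u ≤ 1 := by rwa [le_div_iff₀ (by positivity), mul_comm] at h1
  nlinarith

namespace Nb.Good

variable {N : Nb} (h : N.Good)
include h

theorem d_u1 : N.u ≤ 1 := h.u_le.trans (by norm_num)

theorem d_pw {a b : ℕ} (hab : a ≤ b) : N.u ^ b ≤ N.u ^ a :=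
  pow_le_pow_of_le_one h.u_pos.le h.d_u1 hab

theorem d_pw1 (a : ℕ) : N.u ^ a ≤ 1 := pow_le_one₀ h.u_pos.le h.d_u1

theorem d_pw0 (a : ℕ) : 0 < N.u ^ a := pow_pos h.u_pos a

theorem d_gap {a b : ℕ} (hab : a < b) : 10 ^ 30 * N.u ^ b ≤ N.u ^ a :=
  pow_gap h.u_pos h.u_le hab

theorem d_L0 : 0 < N.L :=
  (mul_pos_iff_of_pos_left (h.d_pw0 100000)).1 (one_pos.trans_le h.uL)

theorem d_uL {a : ℕ} (ha : a < 100000) : 10 ^ 30 ≤ N.u ^ a * N.L := by
  have h1 := mul_le_mul_of_nonneg_right (h.d_gap ha) h.d_L0.le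
  have h2 := h.uL
  nlinarith

theorem d_L : 10 ^ 30 ≤ N.L := by simpa using h.d_uL (a := 0) (by norm_num)

theorem d_L1 : 1 ≤ N.L := le_trans (by norm_num) h.d_L

theorem d_Lp {a b : ℕ} (hab : a ≤ b) : N.L ^ a ≤ N.L ^ b := pow_le_pow_right₀ h.d_L1 hab

theorem d_Lq30 : N.L ^ 30 ≤ N.q :=
  (le_mul_of_one_le_left (pow_pos h.d_L0 _).le h.k_lo).trans h.kq

theorem d_Lq : N.L ≤ N.q := by
  have := h.d_Lp (a := 1) (b := 30) (by norm_num)
  rw [pow_one] at this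
  exact this.trans h.d_Lq30

theorem d_q : (10 : ℝ) ^ 30 ≤ N.q := h.d_L.trans h.d_Lq

theorem d_q1 : (1 : ℝ) ≤ N.q := h.d_L1.trans h.d_Lq

theorem d_q0 : (0 : ℝ) < N.q := one_pos.trans_le h.d_q1

theorem d_qp {a b : ℕ} (hab : a ≤ b) : (N.q : ℝ) ^ a ≤ (N.q : ℝ) ^ b :=
  pow_le_pow_right₀ h.d_q1 hab

theorem d_qle {a : ℕ} (ha : 1 ≤ a) : (N.q : ℝ) ≤ (N.q : ℝ) ^ a := by
  simpa using h.d_qp ha

theorem d_uq {a : ℕ} (ha : a < 100000) : 10 ^ 30 ≤ N.u ^ a * N.q :=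
  (h.d_uL ha).trans (mul_le_mul_of_nonneg_left h.d_Lq (h.d_pw0 a).le)

theorem d_kq : 10 ^ 30 * N.k ≤ N.q := by
  have h1 : N.L ≤ N.L ^ 30 := by simpa using h.d_Lp (a := 1) (b := 30) (by norm_num)
  have h2 := h.kq
  have h3 := h.k_lo
  have h4 := h.d_L
  nlinarith

theorem d_qs {a : ℕ} (ha : a ≤ 2000) : (N.q : ℝ) ^ a ≤ N.s := (h.d_qp ha).trans h.sq'

theorem d_s : (10 : ℝ) ^ 30 ≤ N.s :=
  h.d_q.trans ((h.d_qle (a := 1) le_rfl).trans (h.d_qs (by norm_num)))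

theorem d_q2 {a : ℕ} (ha : a ≤ 200) : (N.q : ℝ) ^ a ≤ 2 ^ N.r := (h.d_qp ha).trans h.rq

theorem d_u2 {a : ℕ} (ha : a < 100000) : 10 ^ 30 ≤ N.u ^ a * 2 ^ N.r :=
  (h.d_uq ha).trans (mul_le_mul_of_nonneg_left
    ((h.d_qle (a := 1) le_rfl).trans (h.d_q2 (by norm_num))) (h.d_pw0 a).le)

theorem d_r : 3 ≤ N.r := by
  by_contra hc
  have h1 : (2 : ℝ) ^ N.r ≤ 2 ^ 2 := pow_le_pow_right₀ one_le_two (by omega)
  have h2 := h.d_u2 (a := 0) (by norm_num)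
  norm_num at h1 h2
  linarith

theorem d_ka : 1 ≤ N.κ := by
  have h1 : N.ψ ≤ 1 := h.psi_le.trans (h.d_pw1 _)
  have h2 := h.ka
  have h3 := h.psi_pos
  by_contra hc
  nlinarith [not_le.1 hc]

theorem d_psi {a : ℕ} (ha : a < 100000) : 10 ^ 30 * N.ψ ≤ N.u ^ a :=
  (mul_le_mul_of_nonneg_left h.psi_le (by positivity)).trans (h.d_gap ha)

theorem d_j : 1 ≤ N.j := by
  have : (1 : ℝ) ≤ N.j := (one_le_pow₀ h.d_L1).trans h.j_lo
  exact_mod_cast this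

theorem d_Wt (t : ℝ) : N.j * t = N.u ^ 400 * N.Wt t := by
  have := h.u_pos.ne'
  unfold Nb.Wt
  field_simp

theorem d_Wt0 {t : ℝ} (ht : 0 < t) : 0 < N.Wt t :=
  div_pos (mul_pos (Nat.cast_pos.2 h.d_j) ht) (h.d_pw0 _)

theorem d_jL : N.L ^ 6 ≤ N.u ^ 1000 * N.j := by
  have h1 := h.d_uL (a := 1000) (by norm_num)
  have h2 : N.L ^ 6 * N.L ≤ N.j := by
    rw [← pow_succ]; exact (h.d_Lp (by norm_num)).trans h.j_lo
  have h3 := pow_pos h.d_L0 6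
  have h4 := h.d_pw0 1000
  nlinarith

end Nb.Good

section ed

variable {X : Type} [DecidableEq X]

open Classical in
theorem ed_sum (Y : Finset X) (H : X → X → Prop) :
    (ed Y H : ℝ) = ∑ y ∈ Y, ∑ z ∈ Y.erase y, if H y z then (1 : ℝ) else 0 := by
  unfold ed
  rw [card_filter, Nat.cast_sum, sum_product]
  refine sum_congr rfl fun y hy => ?_
  rw [← sum_erase_add _ _ hy]
  simp only [ne_eq, not_true_eq_false, false_and, if_false, Nat.cast_zero, add_zero]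
  refine sum_congr rfl fun z hz => ?_
  have := (ne_of_mem_erase hz).symm
  by_cases h : H y z <;> simp [h, this]

theorem ed_le {Y Y' : Finset X} {H H' : X → X → Prop} (hY : Y ⊆ Y')
    (h : ∀ y ∈ Y, ∀ z ∈ Y, y ≠ z → H y z → H' y z) : (ed Y H : ℝ) ≤ ed Y' H' := by
  classical
  refine Nat.cast_le.2 (card_le_card fun e he => ?_)
  simp only [mem_filter, mem_product] at he ⊢
  exact ⟨⟨hY he.1.1, hY he.1.2⟩, he.2.1, h _ he.1.1 _ he.1.2 he.2.1 he.2.2⟩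

theorem ed_or (Y : Finset X) (H H' : X → X → Prop) :
    (ed Y fun y z => H y z ∨ H' y z : ℝ) ≤ ed Y H + ed Y H' := by
  classical
  simp only [ed_sum, ← sum_add_distrib]
  refine sum_le_sum fun y _ => sum_le_sum fun z _ => ?_
  by_cases h : H y z <;> by_cases h' : H' y z <;> simp [h, h']

theorem off_mono {Y Y' : Finset X} (hY : Y ⊆ Y') {f : X → X → ℝ}
    (h : ∀ y ∈ Y', ∀ z ∈ Y', y ≠ z → 0 ≤ f y z) :
    ∑ y ∈ Y, ∑ z ∈ Y.erase y, f y z ≤ ∑ y ∈ Y', ∑ z ∈ Y'.erase y, f y z := by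
  have e : ∀ y ∈ Y', ∀ z ∈ Y'.erase y, 0 ≤ f y z := fun y hy z hz =>
    h y hy z (mem_of_mem_erase hz) (ne_of_mem_erase hz).symm
  exact (sum_le_sum fun y hy => sum_le_sum_of_subset_of_nonneg (erase_subset_erase y hY)
    fun z hz _ => e y (hY hy) z hz).trans
    (sum_le_sum_of_subset_of_nonneg hY fun y hy _ => sum_nonneg (e y hy))

theorem off_const (Y : Finset X) {f : X → X → ℝ} {c : ℝ} (hc : 0 ≤ c)
    (h : ∀ y ∈ Y, ∀ z ∈ Y, y ≠ z → f y z ≤ c) :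
    ∑ y ∈ Y, ∑ z ∈ Y.erase y, f y z ≤ c * (Y.card : ℝ) ^ 2 := by
  have e : ∀ y ∈ Y, ∑ z ∈ Y.erase y, f y z ≤ Y.card * c := fun y hy =>
    (sum_le_card_nsmul _ _ c fun z hz =>
      h y hy z (mem_of_mem_erase hz) (ne_of_mem_erase hz).symm).trans (by
        rw [nsmul_eq_mul]
        exact mul_le_mul_of_nonneg_right (Nat.cast_le.2 card_erase_le) hc)
  refine (sum_le_card_nsmul _ _ _ e).trans_eq ?_
  rw [nsmul_eq_mul]; ring

theorem full_eq (Y : Finset X) (f : X → X → ℝ) :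
    ∑ y ∈ Y, ∑ z ∈ Y, f y z = ∑ y ∈ Y, f y y + ∑ y ∈ Y, ∑ z ∈ Y.erase y, f y z := by
  rw [← sum_add_distrib]
  exact sum_congr rfl fun y hy => (add_sum_erase _ _ hy).symm

variable {ι : Type} [Fintype ι]

/-- the diagonal of the mass in large sets against its row -/
theorem it_diag {w₀ : ℝ} {v : ι → ℝ} {S : ι → Finset X} (h0 : 0 ≤ w₀) (hv : ∀ i, 0 ≤ v i)
    (n : ℕ) (a : ℝ) (y : X) (T : Finset X) :
    (a - 1) * (op w₀ v S)^[n] (hi a y y) T ≤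
      ∑ z ∈ T.erase y, (op w₀ v S)^[n] (hi a y z) T := by
  classical
  rw [← it_mul, ← it_sum]
  refine it_le h0 hv n fun U hU => ?_
  by_cases h : y ∈ U ∧ a < U.card
  · have e : ∑ z ∈ U.erase y, hi a y z U ≤ ∑ z ∈ T.erase y, hi a y z U :=
      sum_le_sum_of_subset_of_nonneg (erase_subset_erase y hU) fun z _ _ => hi_nonneg _ _ _ _
    refine le_trans ?_ e
    rw [sum_congr rfl (g := fun _ => (1 : ℝ)) fun z hz => by
      simp [hi, h.1, h.2, mem_of_mem_erase hz]]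
    rw [sum_const, nsmul_eq_mul, card_erase_of_mem h.1, Nat.cast_pred (card_pos.2 ⟨y, h.1⟩)]
    simp only [hi, h.1, h.2, and_self, if_true]
    linarith [h.2]
  · have : hi a y y U = 0 := if_neg fun hc => h ⟨hc.1, hc.2.2⟩
    rw [this, mul_zero]
    exact sum_nonneg fun z _ => hi_nonneg _ _ _ _

end ed

end Pool.Agent.MP_ddf486_co.KV
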