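import Pool.Agent.MP_ddf486_co.KV.Defs

/-! Project KV: the calculus of the cutting operator, and Gram kernels. -/

set_option autoImplicit false
set_option linter.unusedSectionVars false

noncomputable section

namespace Pool.Agent.MP_ddf486_co.KV

open Finset

section op

variable {X ι : Type} [DecidableEq X] [Fintype ι] {w₀ w₁ : ℝ} {v v₁ v₂ : ι → ℝ}
  {S : ι → Finset X} {f g : Finset X → ℝ} {T : Finset X}

theorem it_succ (n : ℕ) : (op w₀ v S)^[n + 1] f T =
    w₀ * (op w₀ v S)^[n] f T + ∑ i, v i * (op w₀ v S)^[n] f (T ∩ S i) := by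
  rw [Function.iterate_succ_apply']; rfl

theorem it_steps (n m : ℕ) : (op w₀ v S)^[n + m] f T = (op w₀ v S)^[n] ((op w₀ v S)^[m] f) T := by
  rw [Function.iterate_add_apply]

theorem op_le (h0 : 0 ≤ w₀) (hv : ∀ i, 0 ≤ v i) (h : ∀ U ⊆ T, f U ≤ g U) :
    op w₀ v S f T ≤ op w₀ v S g T :=
  add_le_add (mul_le_mul_of_nonneg_left (h T Subset.rfl) h0)
    (sum_le_sum fun i _ => mul_le_mul_of_nonneg_left (h _ inter_subset_left) (hv i))

theorem it_le (h0 : 0 ≤ w₀) (hv : ∀ i, 0 ≤ v i) (n : ℕ) (h : ∀ U ⊆ T, f U ≤ g U) :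
    (op w₀ v S)^[n] f T ≤ (op w₀ v S)^[n] g T := by
  induction n generalizing T with
  | zero => exact h T Subset.rfl
  | succ n ih =>
    rw [Function.iterate_succ_apply', Function.iterate_succ_apply']
    exact op_le h0 hv fun U hU => ih fun V hV => h V (hV.trans hU)

theorem it_add (n : ℕ) : (op w₀ v S)^[n] (fun U => f U + g U) T =
    (op w₀ v S)^[n] f T + (op w₀ v S)^[n] g T := by
  induction n generalizing T with
  | zero => rfl
  | succ n ih => simp only [it_succ, ih, mul_add, sum_add_distrib]; ring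

theorem it_mul (n : ℕ) (a : ℝ) :
    (op w₀ v S)^[n] (fun U => a * f U) T = a * (op w₀ v S)^[n] f T := by
  induction n generalizing T with
  | zero => rfl
  | succ n ih =>
    simp only [it_succ, ih, mul_add, mul_sum]
    congr 1
    · ring
    · exact sum_congr rfl fun i _ => by ring

theorem it_zero (n : ℕ) : (op w₀ v S)^[n] (fun _ => 0) T = 0 := by
  have := it_mul (w₀ := w₀) (v := v) (S := S) (f := fun _ => 0) (T := T) n 0
  simpa using this

theorem it_sum {α : Type} (n : ℕ) (t : Finset α) (F : α → Finset X → ℝ) :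
    (op w₀ v S)^[n] (fun U => ∑ a ∈ t, F a U) T = ∑ a ∈ t, (op w₀ v S)^[n] (F a) T := by
  classical
  induction t using Finset.induction_on with
  | empty => simpa using it_zero n
  | insert a t ha ih => simp only [sum_insert ha]; rw [it_add, ih]

theorem it_nonneg (h0 : 0 ≤ w₀) (hv : ∀ i, 0 ≤ v i) (n : ℕ) (h : ∀ U ⊆ T, 0 ≤ f U) :
    0 ≤ (op w₀ v S)^[n] f T := by
  have := it_le (S := S) (f := fun _ => 0) h0 hv n h
  rwa [it_zero] at this

theorem op_nonneg (h0 : 0 ≤ w₀) (hv : ∀ i, 0 ≤ v i) (h : ∀ U ⊆ T, 0 ≤ f U) :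
    0 ≤ op w₀ v S f T := it_nonneg h0 hv 1 h

/-- larger weights give a larger operator -/
theorem it_le_wt (h0 : 0 ≤ w₀) (hv : ∀ i, 0 ≤ v₁ i) (h1 : w₀ ≤ w₁) (h2 : ∀ i, v₁ i ≤ v i) (n : ℕ)
    (h : ∀ U ⊆ T, 0 ≤ f U) : (op w₀ v₁ S)^[n] f T ≤ (op w₁ v S)^[n] f T := by
  induction n generalizing T with
  | zero => exact le_rfl
  | succ n ih =>
    rw [it_succ, it_succ]
    exact add_le_add (mul_le_mul h1 (ih h) (it_nonneg h0 hv n h) (h0.trans h1))
      (sum_le_sum fun i _ => mul_le_mul (h2 i) (ih fun U hU => h U (hU.trans inter_subset_left))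
        (it_nonneg h0 hv n fun U hU => h U (hU.trans inter_subset_left)) ((hv i).trans (h2 i)))

/-- the mass of the event that all of `A` survives -/
theorem it_all (A : Finset X) (n : ℕ) :
    (op w₀ v S)^[n] (fun U => if A ⊆ U then 1 else 0) T =
      (w₀ + ∑ i, if A ⊆ S i then v i else 0) ^ n * if A ⊆ T then 1 else 0 := by
  induction n generalizing T with
  | zero => simp
  | succ n ih =>
    simp only [it_succ, ih, subset_inter_iff]
    rw [pow_succ, mul_add, add_mul, mul_sum, sum_mul]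
    congr 1
    · ring
    · exact sum_congr rfl fun i _ => by
        by_cases h1 : A ⊆ T <;> by_cases h2 : A ⊆ S i <;> simp [h1, h2, mul_comm]

/-- the mass of a pair -/
theorem it_pair (x y : X) (n : ℕ) :
    (op w₀ v S)^[n] (fun U => if x ∈ U ∧ y ∈ U then 1 else 0) T =
      (w₀ + ∑ i, if x ∈ S i ∧ y ∈ S i then v i else 0) ^ n *
        if x ∈ T ∧ y ∈ T then 1 else 0 := by
  simpa only [insert_subset_iff, singleton_subset_iff] using
    it_all (w₀ := w₀) (v := v) (S := S) (T := T) {x, y} n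

/-- the mass of a triple -/
theorem it_triple (x y z : X) (n : ℕ) :
    (op w₀ v S)^[n] (fun U => if x ∈ U ∧ y ∈ U ∧ z ∈ U then 1 else 0) T =
      (w₀ + ∑ i, if x ∈ S i ∧ y ∈ S i ∧ z ∈ S i then v i else 0) ^ n *
        if x ∈ T ∧ y ∈ T ∧ z ∈ T then 1 else 0 := by
  simpa only [insert_subset_iff, singleton_subset_iff] using
    it_all (w₀ := w₀) (v := v) (S := S) (T := T) {x, y, z} n

theorem op_comm : op w₀ v₁ S (op w₁ v₂ S f) = op w₁ v₂ S (op w₀ v₁ S f) := by
  funext T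
  simp only [op, mul_add, mul_sum, sum_add_distrib]
  rw [sum_comm (f := fun i j => v₁ i * (v₂ j * f (T ∩ S i ∩ S j)))]
  have e : ∀ i j, v₁ j * (v₂ i * f (T ∩ S j ∩ S i)) = v₂ i * (v₁ j * f (T ∩ S i ∩ S j)) :=
    fun i j => by rw [inter_right_comm]; ring
  have e1 : ∀ i, w₀ * (v₂ i * f (T ∩ S i)) = v₂ i * (w₀ * f (T ∩ S i)) := fun i => by ring
  have e2 : ∀ i, v₁ i * (w₁ * f (T ∩ S i)) = w₁ * (v₁ i * f (T ∩ S i)) := fun i => by ring
  simp only [e, e1, e2]
  ring

theorem it_comm (n : ℕ) :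
    (op w₀ v₁ S)^[n] (op w₁ v₂ S f) = op w₁ v₂ S ((op w₀ v₁ S)^[n] f) := by
  induction n with
  | zero => rfl
  | succ n ih => rw [Function.iterate_succ_apply', Function.iterate_succ_apply', ih, op_comm]

theorem op_split (h : ∀ i, v i = v₁ i + v₂ i) :
    op w₀ v S f T = op w₀ v₁ S f T + op 0 v₂ S f T := by
  simp only [op, h, add_mul, sum_add_distrib]; ring

/-- no step of the second kind, or one of them put last -/
theorem it_split (h0 : 0 ≤ w₀) (h1 : ∀ i, 0 ≤ v₁ i) (h2 : ∀ i, 0 ≤ v₂ i)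
    (h : ∀ i, v i = v₁ i + v₂ i) (hf : ∀ U, 0 ≤ f U) (n : ℕ) :
    (op w₀ v S)^[n + 1] f T ≤
      (op w₀ v₁ S)^[n + 1] f T + (n + 1) * (op w₀ v S)^[n] (op 0 v₂ S f) T := by
  have hv : ∀ i, 0 ≤ v i := fun i => by rw [h]; exact add_nonneg (h1 i) (h2 i)
  induction n generalizing T with
  | zero => simpa using (op_split h).le
  | succ n ih =>
    have a1 : (op w₀ v S)^[n + 1 + 1] f T ≤ op w₀ v S (fun U => (op w₀ v₁ S)^[n + 1] f U +
        (n + 1) * (op w₀ v S)^[n] (op 0 v₂ S f) U) T := by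
      rw [Function.iterate_succ_apply']
      exact op_le h0 hv fun U _ => ih
    have a2 := it_add (w₀ := w₀) (v := v) (S := S) (f := (op w₀ v₁ S)^[n + 1] f)
      (g := fun U => (n + 1) * (op w₀ v S)^[n] (op 0 v₂ S f) U) (T := T) 1
    have a3 := it_mul (w₀ := w₀) (v := v) (S := S) (f := (op w₀ v S)^[n] (op 0 v₂ S f)) (T := T) 1
      ((n : ℝ) + 1)
    simp only [Function.iterate_one] at a2 a3
    have a4 : op w₀ v S ((op w₀ v₁ S)^[n + 1] f) T =
        (op w₀ v₁ S)^[n + 1 + 1] f T + (op w₀ v₁ S)^[n + 1] (op 0 v₂ S f) T := by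
      rw [op_split h, it_comm, Function.iterate_succ_apply' _ (n + 1)]
    have a5 : (op w₀ v₁ S)^[n + 1] (op 0 v₂ S f) T ≤ (op w₀ v S)^[n + 1] (op 0 v₂ S f) T :=
      it_le_wt h0 h1 le_rfl (fun i => by rw [h]; linarith [h2 i]) _
        fun U _ => op_nonneg le_rfl h2 fun V _ => hf V
    have a6 : op w₀ v S ((op w₀ v S)^[n] (op 0 v₂ S f)) T =
        (op w₀ v S)^[n + 1] (op 0 v₂ S f) T := by rw [Function.iterate_succ_apply']
    rw [a2, a3, a4, a6] at a1
    push_cast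
    linarith

end op

section gram

variable {X : Type}

/-- a kernel that is a finite sum of squares -/
def Gram (K : X → X → ℝ) : Prop :=
  ∃ (α : Type) (_ : Fintype α) (g : α → X → ℝ), ∀ y z, K y z = ∑ a, g a y * g a z

variable {K K' : X → X → ℝ}

theorem Gram.one (g : X → ℝ) : Gram fun y z => g y * g z :=
  ⟨Unit, inferInstance, fun _ => g, fun _ _ => by simp⟩

theorem Gram.add (h : Gram K) (h' : Gram K') : Gram fun y z => K y z + K' y z := by
  obtain ⟨α, _, g, e⟩ := h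
  obtain ⟨β, _, g', e'⟩ := h'
  exact ⟨α ⊕ β, inferInstance, Sum.elim g g', fun y z => by simp [e, e']⟩

theorem Gram.mul (h : Gram K) (h' : Gram K') : Gram fun y z => K y z * K' y z := by
  obtain ⟨α, _, g, e⟩ := h
  obtain ⟨β, _, g', e'⟩ := h'
  refine ⟨α × β, inferInstance, fun a y => g a.1 y * g' a.2 y, fun y z => ?_⟩
  simp only [e, e', sum_mul_sum, Fintype.sum_prod_type]
  exact sum_congr rfl fun a _ => sum_congr rfl fun b _ => by ring

theorem Gram.const {c : ℝ} (hc : 0 ≤ c) : Gram fun _ _ : X => c := by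
  simpa [Real.mul_self_sqrt hc] using Gram.one fun _ : X => Real.sqrt c

theorem Gram.smul {c : ℝ} (hc : 0 ≤ c) (h : Gram K) : Gram fun y z => c * K y z :=
  (Gram.const hc).mul h

theorem Gram.pow (h : Gram K) (n : ℕ) : Gram fun y z => K y z ^ n := by
  induction n with
  | zero => simpa using Gram.const (X := X) zero_le_one
  | succ n ih => simpa only [pow_succ] using ih.mul h

theorem Gram.sum {α : Type} (t : Finset α) {F : α → X → X → ℝ} (h : ∀ a ∈ t, Gram (F a)) :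
    Gram fun y z => ∑ a ∈ t, F a y z := by
  classical
  induction t using Finset.induction_on with
  | empty => simpa using Gram.const (X := X) le_rfl
  | insert a t ha ih =>
    simp only [sum_insert ha]
    exact (h a (mem_insert_self _ _)).add (ih fun b hb => h b (mem_insert_of_mem hb))

theorem Gram.symm (h : Gram K) (y z : X) : K y z = K z y := by
  obtain ⟨α, _, g, e⟩ := h
  rw [e, e]; exact sum_congr rfl fun a _ => mul_comm _ _

theorem Gram.diag (h : Gram K) (y : X) : 0 ≤ K y y := by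
  obtain ⟨α, _, g, e⟩ := h
  rw [e]; exact sum_nonneg fun a _ => mul_self_nonneg _

theorem gram_sum {α : Type} [Fintype α] (g : α → X → ℝ) (U V : Finset X) :
    ∑ y ∈ U, ∑ z ∈ V, ∑ a, g a y * g a z = ∑ a, (∑ y ∈ U, g a y) * ∑ z ∈ V, g a z := by
  simp only [sum_mul_sum]
  rw [sum_comm (s := univ)]
  exact sum_congr rfl fun y _ => sum_comm

theorem Gram.total (h : Gram K) (U : Finset X) : 0 ≤ ∑ y ∈ U, ∑ z ∈ U, K y z := by
  obtain ⟨α, _, g, e⟩ := h
  simp only [e, gram_sum]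
  exact sum_nonneg fun a _ => mul_self_nonneg _

/-- Cauchy-Schwarz for two sets -/
theorem Gram.cs (h : Gram K) (U V : Finset X) : (∑ y ∈ U, ∑ z ∈ V, K y z) ^ 2 ≤
    (∑ y ∈ U, ∑ z ∈ U, K y z) * ∑ y ∈ V, ∑ z ∈ V, K y z := by
  obtain ⟨α, _, g, e⟩ := h
  simp only [e, gram_sum, ← sq]
  exact sum_mul_sq_le_sq_mul_sq _ _ _

/-- a kernel supported on `U` against a kernel on `V` and its row sums -/
theorem Gram.gr (h : Gram K) (h' : Gram K') (U V : Finset X) :
    ∑ y ∈ U, ∑ z ∈ U, K y z * ((∑ a ∈ V, K' y a) * ∑ a ∈ V, K' z a) ≤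
      (∑ y ∈ U, ∑ z ∈ U, K y z * K' y z) * ∑ y ∈ V, ∑ z ∈ V, K' y z := by
  obtain ⟨α, _, g, e⟩ := h
  obtain ⟨β, _, f, e'⟩ := h'
  have r : ∀ y, ∑ a ∈ V, K' y a = ∑ b, f b y * ∑ a ∈ V, f b a := fun y => by
    simp only [e', mul_sum]; exact sum_comm
  have l1 : ∑ y ∈ U, ∑ z ∈ U, K y z * ((∑ a ∈ V, K' y a) * ∑ a ∈ V, K' z a) =
      ∑ a, (∑ b, (∑ y ∈ U, g a y * f b y) * ∑ c ∈ V, f b c) ^ 2 := by
    have := gram_sum (fun a y => g a y * ∑ c ∈ V, K' y c) U U
    refine Eq.trans (sum_congr rfl fun y _ => sum_congr rfl fun z _ => ?_) (this.trans ?_)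
    · rw [e, sum_mul]; exact sum_congr rfl fun a _ => by ring
    · refine sum_congr rfl fun a _ => ?_
      rw [← sq]
      congr 1
      simp only [r, mul_sum (s := (univ : Finset β)), sum_mul (s := U)]
      rw [sum_comm]
      exact sum_congr rfl fun b _ => sum_congr rfl fun y _ => by ring
  have l2 : ∑ y ∈ U, ∑ z ∈ U, K y z * K' y z = ∑ a, ∑ b, (∑ y ∈ U, g a y * f b y) ^ 2 := by
    have := gram_sum (fun (c : α × β) y => g c.1 y * f c.2 y) U U
    simp only [Fintype.sum_prod_type, ← sq] at this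
    refine Eq.trans (sum_congr rfl fun y _ => sum_congr rfl fun z _ => ?_) this
    rw [e, e', sum_mul_sum]
    exact sum_congr rfl fun a _ => sum_congr rfl fun b _ => by ring
  have l3 : ∑ y ∈ V, ∑ z ∈ V, K' y z = ∑ b, (∑ c ∈ V, f b c) ^ 2 := by
    simp only [e', gram_sum, sq]
  rw [l1, l2, l3, sum_mul]
  exact sum_le_sum fun a _ => sum_mul_sq_le_sq_mul_sq _ _ _

variable {ι : Type} [DecidableEq X] [Fintype ι]

theorem Gram.it {w₀ : ℝ} {v : ι → ℝ} {S : ι → Finset X} (h0 : 0 ≤ w₀) (hv : ∀ i, 0 ≤ v i)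
    {f : X → X → Finset X → ℝ} (hf : ∀ T, Gram fun y z => f y z T) (n : ℕ) (T : Finset X) :
    Gram fun y z => (op w₀ v S)^[n] (f y z) T := by
  induction n generalizing T with
  | zero => exact hf T
  | succ n ih =>
    simp only [it_succ]
    exact ((ih T).smul h0).add (Gram.sum _ fun i _ => (ih _).smul (hv i))

theorem gram_hi (a : ℝ) (T : Finset X) : Gram fun y z => hi a y z T := by
  classical
  refine ⟨Unit, inferInstance, fun _ y => if y ∈ T ∧ a < T.card then (1 : ℝ) else 0,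
    fun y z => ?_⟩
  unfold hi
  by_cases h1 : y ∈ T <;> by_cases h2 : z ∈ T <;> by_cases h3 : a < T.card <;> simp [h1, h2, h3]

theorem gram_K0 (F : Fam X ι) (hw : ∀ i, 0 ≤ F.w i) (Z : Finset X) : Gram (F.K0 Z) := by
  classical
  refine Gram.sum univ (F := fun i y z =>
    if F.b i then 0 else F.w i * ((F.ind y i - F.mu Z i) * (F.ind z i - F.mu Z i))) fun i _ => ?_
  by_cases h : F.b i
  · simpa [h] using Gram.const (X := X) le_rfl
  · simpa [h] using (Gram.one fun y => F.ind y i - F.mu Z i).smul (hw i)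

theorem hi_add_lo (a : ℝ) (x y : X) (T : Finset X) :
    hi a x y T + lo a x y T = if x ∈ T ∧ y ∈ T then 1 else 0 := by
  unfold hi lo
  by_cases h1 : x ∈ T <;> by_cases h2 : y ∈ T <;> rcases le_or_gt (T.card : ℝ) a with h | h <;>
    simp [h1, h2, h, not_lt.2, not_le.2]

theorem hi_nonneg (a : ℝ) (x y : X) (T : Finset X) : 0 ≤ hi a x y T := by
  unfold hi; split_ifs <;> norm_num

theorem lo_nonneg (a : ℝ) (x y : X) (T : Finset X) : 0 ≤ lo a x y T := by
  unfold lo; split_ifs <;> norm_num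

theorem Fam.v_nonneg (F : Fam X ι) (hw : ∀ i, 0 ≤ F.w i) {Wt : ℝ} (h : 0 ≤ Wt) (φ : ι → Prop)
    (i : ι) : 0 ≤ F.v Wt φ i := by
  unfold Fam.v; split_ifs; exacts [div_nonneg (hw i) h, le_rfl]

open Classical in
/-- sums of normalised weights -/
theorem Fam.sum_v (F : Fam X ι) (Wt : ℝ) (φ ψ : ι → Prop) [DecidablePred ψ] :
    (∑ i, if ψ i then F.v Wt φ i else 0) = F.W (fun i => F.b i ∧ φ i ∧ ψ i) / Wt := by
  unfold Fam.W Fam.v
  rw [sum_div]
  refine sum_congr rfl fun i _ => ?_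
  by_cases h1 : F.b i <;> by_cases h2 : φ i <;> by_cases h3 : ψ i <;> simp [h1, h2, h3]

theorem Fam.v_split (F : Fam X ι) (Wt : ℝ) (φ : ι → Prop) (i : ι) :
    F.v Wt (fun _ => True) i = F.v Wt (fun i => ¬ φ i) i + F.v Wt φ i := by
  unfold Fam.v
  by_cases h1 : F.b i <;> by_cases h2 : φ i <;> simp [h1, h2]

/-- the mass of a pair after `n` steps -/
theorem Fam.E_pair (F : Fam X ι) (Wt Wb : ℝ) (n : ℕ) (x y : X) (T : Finset X) :
    F.E Wt Wb n (fun U => if x ∈ U ∧ y ∈ U then 1 else 0) T =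
      (1 - Wb / Wt + F.OB x y / Wt) ^ n * if x ∈ T ∧ y ∈ T then 1 else 0 := by
  unfold Fam.E Fam.OB
  rw [it_pair, F.sum_v]
  simp only [true_and]

theorem Fam.W_mono (F : Fam X ι) (hw : ∀ i, 0 ≤ F.w i) {φ ψ : ι → Prop} (h : ∀ i, φ i → ψ i) :
    F.W φ ≤ F.W ψ := by
  unfold Fam.W
  refine sum_le_sum fun i _ => ?_
  by_cases h1 : φ i
  · rw [if_pos h1, if_pos (h i h1)]
  · rw [if_neg h1]; split_ifs; exacts [hw i, le_rfl]

theorem Fam.W_nonneg (F : Fam X ι) (hw : ∀ i, 0 ≤ F.w i) (φ : ι → Prop) : 0 ≤ F.W φ :=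
  sum_nonneg fun i _ => by split_ifs; exacts [hw i, le_rfl]

theorem Fam.W_split (F : Fam X ι) (φ ψ : ι → Prop) :
    F.W φ = F.W (fun i => φ i ∧ ψ i) + F.W fun i => φ i ∧ ¬ ψ i := by
  unfold Fam.W
  rw [← sum_add_distrib]
  refine sum_congr rfl fun i _ => ?_
  by_cases h1 : φ i <;> by_cases h2 : ψ i <;> simp [h1, h2]

theorem Fam.W_congr (F : Fam X ι) {φ ψ : ι → Prop} (h : ∀ i, φ i ↔ ψ i) : F.W φ = F.W ψ := by
  rw [show φ = ψ from funext fun i => propext (h i)]

end gram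

end Pool.Agent.MP_ddf486_co.KV
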