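import Pool.Agent.MP_ddf486_co.KV.Ht
import Pool.Agent.MP_ddf486_co.KV.Op
import Pool.Agent.MP_6c3157_co.PQ.Dep

/-! Project KV: the kernel of the massive cells below the central radius, tested on a height
ball. -/

set_option autoImplicit false
set_option linter.unusedSectionVars false

noncomputable section

namespace Pool.Agent.MP_ddf486_co.KV

open Finset Pool.Agent.MP_6c3157_co.PD Pool.Agent.MP_6c3157_co.PQ

namespace Kk

variable {X PL : Type} [DecidableEq X]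

section place

variable {c : Cells X}

theorem lp_lam (h : c.Good) {b d : ℝ} (hb : 0 < b) (hd : 0 < d) :
    max 0 (Real.log (c.lam * b / d)) ≤ max 0 (Real.log (b / d)) + c.xi := by
  rw [mul_div_assoc, Real.log_mul h.lam_pos.ne' (div_pos hb hd).ne']
  have := h.log_lam
  have := h.xi_nonneg
  exact max_le (by positivity) (by linarith [le_max_right 0 (Real.log (b / d))])

theorem pair (h : c.Good) {x y : X} (n : x ≠ y) {b : ℝ} (hb : 0 < b) {φ : ℕ × Finset X → Prop}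
    (hφ : ∀ i ∈ c.I, φ i → x ∈ i.2 ∧ y ∈ i.2 ∧ c.ρ i < b) :
    c.W φ ≤ max 0 (Real.log (b / c.d x y)) + 2 * c.xi := by
  linarith [Cells.W_mono h hφ, h.pair_below n b, lp_lam h hb (h.d_pos n), h.eta_hi]

theorem miss (h : c.Good) {z z' : X} (n : z ≠ z') (x : X) :
    c.W (fun i => z ∈ i.2 ∧ z' ∈ i.2 ∧ x ∉ i.2) ≤
      max 0 (Real.log (c.d z x / c.d z z')) + 3 * c.xi := by
  have := h.xi_nonneg
  by_cases e : z = x
  · rw [Cells.W_zero fun i _ hi => hi.2.2 (e ▸ hi.1)]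
    positivity
  · have k := Cells.W_le_add h (φ := fun i => z ∈ i.2 ∧ z' ∈ i.2 ∧ x ∉ i.2)
      (ψ := fun i => z ∈ i.2 ∧ z' ∈ i.2 ∧ c.ρ i < c.d z x)
      (χ := fun i => c.d z x ≤ c.ρ i ∧ (∃ a ∈ i.2, c.d z a ≤ c.d z x) ∧
        ∃ b, b ∉ i.2 ∧ c.d z b ≤ c.d z x) fun i _ hi => by
        rcases lt_or_ge (c.ρ i) (c.d z x) with l | l
        · exact .inl ⟨hi.1, hi.2.1, l⟩
        · exact .inr ⟨l, ⟨z, hi.1, (h.d_self z).trans_le (h.d_nonneg _ _)⟩, x, hi.2.2, le_rfl⟩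
    linarith [pair h n (h.d_pos e) (φ := fun i => z ∈ i.2 ∧ z' ∈ i.2 ∧ c.ρ i < c.d z x)
      fun _ _ hi => hi, h.c5 z _ (h.d_pos e)]

theorem low (h : c.Good) (x : X) {b R : ℝ} (hb : 256 * c.rlo ≤ b) (h0 : 0 < R) (hR : R ≤ c.rhi)
    {φ : ℕ × Finset X → Prop}
    (hφ : ∀ i ∈ c.I, x ∈ i.2 → c.ρ i < R → (∀ z, c.d x z ≤ b → z ∈ i.2) → φ i) :
    max 0 (Real.log (R / b)) ≤ 4 * c.W φ + 2 * c.xi := by
  have r := h.rlo_pos
  have b0 : 0 < b := by linarith
  have l0 := h.lam_pos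
  have e : Real.log (R / b) = Real.log (R / (c.lam * b)) + Real.log c.lam := by
    rw [← Real.log_mul (by positivity) l0.ne']
    congr 1
    field_simp
  have := h.log_lam
  have := h.xi_nonneg
  have := h.eta_hi
  have := Cells.W_nonneg h (φ := φ)
  refine max_le (by positivity) ?_
  by_cases l : c.lam * b ≤ R
  · have k := (h.c3 x (c.lam * b) R (by nlinarith [h.lam_lo]) l hR).trans
      (Cells.W_mono h (ψ := φ) fun i hi hj => hφ i hi hj.1 hj.2.2.1 fun z hz => hj.2.2.2 z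
        (hz.trans ((le_div_iff₀ l0).2 (by linarith [hj.2.1]))))
    linarith
  · have : Real.log (R / (c.lam * b)) ≤ 0 :=
      Real.log_nonpos (by positivity) ((div_le_one (by positivity)).2 (not_le.1 l).le)
    linarith

end place

variable [Fintype PL] {s : Sys X PL} {Z : Finset X} {R : PL → ℝ} {G : PL → X → ℝ} {W ε Λ ns a : ℝ}

/-- cells below the central radius with at least `a` points of `Z` -/
def hc (s : Sys X PL) (R : PL → ℝ) (Z : Finset X) (a : ℝ) (p : PL) (i : ℕ × Finset X) : Prop :=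
  (s.c p).ρ i < R p ∧ a ≤ ((Z ∩ i.2).card : ℝ)

/-- the kernel of a family of cells -/
def kk (s : Sys X PL) (φ : PL → ℕ × Finset X → Prop) (z w : X) : ℝ :=
  ∑ p, s.m p * (s.c p).W fun i => φ p i ∧ z ∈ i.2 ∧ w ∈ i.2

theorem kk_gram (hs : s.Good) (φ : PL → ℕ × Finset X → Prop) : Gram (kk s φ) := by
  classical
  refine Gram.sum univ (F := fun p z w => s.m p * (s.c p).W fun i => φ p i ∧ z ∈ i.2 ∧ w ∈ i.2)
    fun p _ => Gram.smul (hs.m_lo p) ?_
  have : (fun z w => (s.c p).W fun i => φ p i ∧ z ∈ i.2 ∧ w ∈ i.2) = fun z w =>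
      ∑ i ∈ (s.c p).I, (if φ p i then (s.c p).w i else 0) *
        ((if z ∈ i.2 then 1 else 0) * if w ∈ i.2 then 1 else 0) := by
    funext z w
    refine sum_congr rfl fun i _ => ?_
    by_cases h1 : φ p i <;> by_cases h2 : z ∈ i.2 <;> by_cases h3 : w ∈ i.2 <;> simp [h1, h2, h3]
  rw [this]
  exact Gram.sum _ fun i hi => Gram.smul (by split_ifs; exacts [(hs.good p).w_lo i hi, le_rfl])
    (Gram.one fun z => if z ∈ i.2 then 1 else 0)

theorem kk_nonneg (hs : s.Good) (φ : PL → ℕ × Finset X → Prop) (z w : X) : 0 ≤ kk s φ z w :=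
  hs.sum_nonneg fun p => Cells.W_nonneg (hs.good p)

theorem W_facts (hC : Cen s Z R G W ε) : 0 < W ∧ 20 ≤ ε * W ∧ 100 * (ε * W) ≤ W := by
  have h1 := hC.eW
  have h2 := hC.e_pos
  have h3 := hC.e_le
  have : 0 < W := by nlinarith
  exact ⟨this, h1, by nlinarith⟩

theorem kk_pair (hs : s.Good) (hC : Cen s Z R G W ε) {z w : X} (hz : z ∈ Z) (hw : w ∈ Z)
    (n : z ≠ w) : kk s (hc s R Z a) z w ≤ 2 * W := by
  have k : kk s (hc s R Z a) z w ≤ _ := ht_sum hs (g := fun p => max 0 (dep s R p z w)) 2 zero_le_two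
    fun p => pair (hs.good p) n (hC.R_pos p) fun i _ hi => ⟨hi.2.1, hi.2.2, hi.1.1⟩
  obtain ⟨-, -, d, -⟩ := depS X PL s Z R G W ε hs hC z hz w hw n
  obtain ⟨h1, h2, h3⟩ := W_facts hC
  linarith

theorem kk_diag (hs : s.Good) (hC : Cen s Z R G W ε) (ha : 2 ≤ a) {z : X} (hz : z ∈ Z) :
    a * kk s (hc s R Z a) z z ≤ 4 * W * Z.card := by
  have k : a / 2 * kk s (hc s R Z a) z z ≤ ∑ w ∈ Z.erase z, kk s (hc s R Z a) z w := by
    unfold kk
    rw [sum_comm, mul_sum]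
    refine sum_le_sum fun p _ => ?_
    rw [← mul_sum, mul_left_comm]
    refine mul_le_mul_of_nonneg_left ?_ (hs.m_lo p)
    have e := Cells.sum_W (c := s.c p) (φ := fun i => hc s R Z a p i ∧ z ∈ i.2) (Z.erase z)
    simp only [and_assoc] at e
    rw [e, ← Cells.WS_const]
    refine Cells.WS_mono (hs.good p) (fun i _ hi => ⟨⟨hi.1, hi.2.1⟩, ?_⟩)
      fun _ _ _ => Nat.cast_nonneg _
    rw [erase_inter, cast_card_erase_of_mem (mem_inter.2 ⟨hz, hi.2.1⟩)]
    linarith [hi.1.2]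
  have k2 := sum_le_card_nsmul (Z.erase z) _ (2 * W) fun w hw =>
    kk_pair (a := a) hs hC hz (mem_of_mem_erase hw) (ne_of_mem_erase hw).symm
  rw [nsmul_eq_mul, cast_card_erase_of_mem hz] at k2
  nlinarith [(W_facts hC).1]

theorem kk_row (hs : s.Good) (hC : Cen s Z R G W ε) (ha : 4 ≤ a) {z : X} (hz : z ∈ Z) :
    ∑ w ∈ Z, kk s (hc s R Z a) z w ≤ 3 * W * Z.card := by
  have k2 := sum_le_card_nsmul (Z.erase z) _ (2 * W) fun w hw =>
    kk_pair (a := a) hs hC hz (mem_of_mem_erase hw) (ne_of_mem_erase hw).symm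
  rw [nsmul_eq_mul, cast_card_erase_of_mem hz] at k2
  rw [← add_sum_erase Z _ hz]
  nlinarith [(W_facts hC).1, kk_diag hs hC (show 2 ≤ a by linarith) hz,
    kk_nonneg hs (hc s R Z a) z z]

theorem miss_sum (hs : s.Good) {z z' : X} (n : z ≠ z') (x : X) :
    ∑ p, s.m p * (s.c p).W (fun i => z ∈ i.2 ∧ z' ∈ i.2 ∧ x ∉ i.2) ≤ ht s z z' x + 60 :=
  (ht_sum hs 3 zero_le_three fun p => miss (hs.good p) n x).trans (by norm_num; rfl)

/-- the kernel between a height ball and the whole set -/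
theorem core (hs : s.Good) (hC : Cen s Z R G W ε) (hK : Conc s R Z W ε Λ ns) (hΛ : 2 ≤ Λ)
    (hn : ns ≤ Z.card) (ha : 2 ≤ a) {x y : X} (hx : x ∈ Z) (hy : y ∈ Z) (n : x ≠ y)
    {U : Finset X} (hU : U ⊆ Z) {t : ℝ} (ht0 : 10 * ε * W ≤ t) (hUt : ∀ z ∈ U, ht s x y z ≤ t)
    (hD : 4 * W * Z.card ≤ t * a * U.card) :
    ∃ S : ℝ, S ^ 2 ≤ 6 * t * (U.card : ℝ) ^ 2 * ∑ z ∈ Z, ∑ w ∈ Z, kk s (hc s R Z a) z w ∧
      ∑ z ∈ U, ∑ w ∈ Z, kk s (hc s R Z a) z w ≤ S + U.card * (10 * ε * W * Z.card + 2 * W) := by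
  obtain ⟨W0, W1, W2⟩ := W_facts hC
  let φ : PL → ℕ × Finset X → Prop := fun p i => hc s R Z a p i ∧ ¬ (x ∈ i.2 ∧ y ∈ i.2)
  have le : ∀ z w, kk s φ z w ≤ kk s (hc s R Z a) z w := fun z w =>
    hs.sum_le fun p => Cells.W_mono (hs.good p) fun i _ hi => ⟨hi.1.1, hi.2⟩
  refine ⟨∑ z ∈ U, ∑ w ∈ Z, kk s φ z w, ((kk_gram hs φ).cs U Z).trans (mul_le_mul ?_
    (sum_le_sum fun z _ => sum_le_sum fun w _ => le z w) ((kk_gram hs φ).total Z)
    (mul_nonneg (by nlinarith) (sq_nonneg _))), ?_⟩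
  · refine (sum_le_card_nsmul U _ (6 * t * U.card) fun z hz => ?_).trans
      (by rw [nsmul_eq_mul]; exact le_of_eq (by ring))
    have k1 := sum_le_card_nsmul (U.erase z) (kk s φ z) (5 * t) fun w hw => by
      have m := (ne_of_mem_erase hw).symm
      have b := ht_back hs n m
      have : kk s φ z w ≤ ∑ p, s.m p * ((s.c p).W (fun i => z ∈ i.2 ∧ w ∈ i.2 ∧ x ∉ i.2) +
          (s.c p).W fun i => z ∈ i.2 ∧ w ∈ i.2 ∧ y ∉ i.2) :=
        hs.sum_le fun p => Cells.W_le_add (hs.good p) fun i _ hi => by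
          rcases not_and_or.1 hi.1.2 with l | l
          exacts [.inl ⟨hi.2.1, hi.2.2, l⟩, .inr ⟨hi.2.1, hi.2.2, l⟩]
      simp only [mul_add, sum_add_distrib] at this
      linarith [miss_sum hs m x, miss_sum hs m y, hUt z hz, hUt w (mem_of_mem_erase hw), b.1, b.2]
    rw [nsmul_eq_mul, cast_card_erase_of_mem hz] at k1
    have k2 : kk s φ z z ≤ t * U.card := (le z z).trans (le_of_mul_le_mul_left
      ((kk_diag hs hC ha (hU hz)).trans (hD.trans (le_of_eq (by ring)))) (by linarith))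
    rw [← add_sum_erase U _ hz]
    nlinarith
  · obtain ⟨-, -, d, -⟩ := depS X PL s Z R G W ε hs hC x hx y hy n
    let T : X → ℝ := fun w => ∑ p, s.m p * (s.c p).W fun i =>
      (s.c p).ρ i < R p ∧ x ∈ i.2 ∧ y ∈ i.2 ∧ w ∈ i.2
    have k1 : ∀ z w, kk s (hc s R Z a) z w ≤ kk s φ z w + T w := fun z w => by
      simp only [kk, T, ← sum_add_distrib, ← mul_add]
      refine hs.sum_le fun p => Cells.W_le_add (hs.good p) fun i _ hi => ?_
      by_cases l : x ∈ i.2 ∧ y ∈ i.2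
      exacts [.inr ⟨hi.1.1, l.1, l.2, hi.2.2⟩, .inl ⟨⟨hi.1, l⟩, hi.2⟩]
    have k2 : T x ≤ 2 * W := by
      have : T x ≤ _ := ht_sum hs (g := fun p => max 0 (dep s R p x y)) 2 zero_le_two
        fun p => pair (hs.good p) n (hC.R_pos p) fun i _ hi => ⟨hi.2.1, hi.2.2.1, hi.1⟩
      linarith
    have k3 : ∑ w ∈ Z.erase x, T w ≤ ∑ w ∈ Z.erase x,
        (∑ p, s.m p * min (max 0 (dep s R p x w)) (max 0 (dep s R p x y)) + 2 * ε * W) :=
      sum_le_sum fun w hw => by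
        have : T w ≤ _ := ht_sum hs
          (g := fun p => min (max 0 (dep s R p x w)) (max 0 (dep s R p x y))) 2 zero_le_two
          fun p => by
            rw [← min_add_add_right]
            exact le_min (pair (hs.good p) (ne_of_mem_erase hw).symm (hC.R_pos p)
              fun i _ hi => ⟨hi.2.1, hi.2.2.2, hi.1⟩)
              (pair (hs.good p) n (hC.R_pos p) fun i _ hi => ⟨hi.2.1, hi.2.2.1, hi.1⟩)
        linarith
    have k4 := hK Z Subset.rfl hn x hx (fun p => max 0 (dep s R p x y))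
      (fun p => le_max_left _ _) (by nlinarith)
    rw [sum_add_distrib, sum_const, nsmul_eq_mul, cast_card_erase_of_mem hx] at k3
    have k5 : ∑ w ∈ Z, T w ≤ 10 * ε * W * Z.card + 2 * W := by
      rw [← add_sum_erase Z _ hx]
      nlinarith
    refine (sum_le_sum fun z _ => sum_le_sum fun w _ => k1 z w).trans ?_
    simp only [sum_add_distrib, sum_const, nsmul_eq_mul]
    exact add_le_add le_rfl (mul_le_mul_of_nonneg_left k5 (Nat.cast_nonneg _))

end Kk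

end Pool.Agent.MP_ddf486_co.KV
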