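import Pool.Agent.MP_ddf486_co.KV.SpecB
import Pool.Agent.MP_ddf486_co.KV.Kk
import Pool.Agent.MP_6c3157_co.PQ.Om
import Pool.Agent.MP_6c3157_co.PQ.Dep

/-! Project KV, row BIG1: an edge with a large height ball lies in large low cells. -/

set_option autoImplicit false
set_option linter.unusedSectionVars false

noncomputable section

namespace Pool.Agent.MP_ddf486_co.KV

open Finset Pool.Agent.MP_6c3157_co.PD Pool.Agent.MP_6c3157_co.PQ

namespace Big1

variable {X : Type} [DecidableEq X]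

theorem cell {c : Cells X} (hc : c.Good) {Z B : Finset X} (hB : B ⊆ Z) {h : ℝ} (h0 : 0 ≤ h) (b : ℝ)
    (x y : X) : B.card * c.W (fun i => c.ρ i < b ∧ x ∈ i.2 ∧ y ∈ i.2) ≤
      B.card * c.W (fun i => c.ρ i < b ∧ h ≤ ((Z ∩ i.2).card : ℝ) ∧ x ∈ i.2 ∧ y ∈ i.2) +
        h * c.W (fun i => c.ρ i < b ∧ x ∈ i.2 ∧ y ∈ i.2) +
        ∑ z ∈ B, c.W fun i => x ∈ i.2 ∧ y ∈ i.2 ∧ z ∉ i.2 := by
  have e := Cells.sum_W_not (c := c) (φ := fun i => x ∈ i.2 ∧ y ∈ i.2) B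
  simp only [and_assoc] at e
  have e' : c.WS (fun i => c.ρ i < b ∧ x ∈ i.2 ∧ y ∈ i.2) (fun i => ((B \ i.2).card : ℝ)) ≤
      c.WS (fun i => x ∈ i.2 ∧ y ∈ i.2) fun i => ((B \ i.2).card : ℝ) :=
    Cells.WS_mono hc (fun i _ k => ⟨k.2, le_rfl⟩) fun _ _ _ => Nat.cast_nonneg _
  rw [e, add_assoc]
  refine le_trans ?_ (add_le_add le_rfl (add_le_add le_rfl e'))
  rw [← Cells.WS_const, ← Cells.WS_const, ← Cells.WS_const, ← Cells.WS_add]
  refine Cells.WS_le_add hc (fun i _ k => ?_) (fun _ _ _ => Nat.cast_nonneg _)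
    fun _ _ _ => add_nonneg h0 (Nat.cast_nonneg _)
  rcases le_or_gt h ((Z ∩ i.2).card : ℝ) with k' | k'
  · exact .inl ⟨⟨k.1, k', k.2⟩, le_rfl⟩
  · have e3 : ((B \ i.2).card : ℝ) + (B ∩ i.2).card = B.card := by
      exact_mod_cast card_sdiff_add_card_inter B i.2
    have e4 : ((B ∩ i.2).card : ℝ) ≤ (Z ∩ i.2).card :=
      Nat.cast_le.2 (card_le_card (inter_subset_inter_right hB))
    exact .inr ⟨k, by linarith⟩

end Big1

theorem big1 : BIG1 := by
  intro X PL _ _ s hv Z R L G W ε Λ ns T h t hs hc h2 ht x hx y hy ne hB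
  have a1 : (1 - 11 * ε) * W ≤
      ∑ p, s.m p * (s.c p).W fun i => (s.c p).ρ i < bet s R L p ∧ x ∈ i.2 ∧ y ∈ i.2 :=
    (om depS X PL s hv Z R L G W ε Λ ns T hs hc x hx y hy ne).1.trans (hs.sum_le fun p =>
      Cells.W_mono (hs.good p) fun i _ k => ⟨k.1, (mem_cut.1 k.2.1).1, (mem_cut.1 k.2.2).1⟩)
  have a2 := hs.sum_le fun p => Big1.cell (hs.good p) (B := hb s Z t x y) (filter_subset _ _)
    (show 0 ≤ h by linarith) (bet s R L p) x y
  have a3 : ∑ z ∈ hb s Z t x y, ∑ p, s.m p * (s.c p).W (fun i => x ∈ i.2 ∧ y ∈ i.2 ∧ z ∉ i.2) ≤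
      (hb s Z t x y).card * (t + 60) := by
    rw [← nsmul_eq_mul]
    refine sum_le_card_nsmul _ _ _ fun z hz => (Kk.miss_sum hs ne z).trans ?_
    classical
    linarith [(mem_filter.1 hz).2]
  simp only [mul_add, sum_add_distrib, mul_left_comm _ ((hb s Z t x y).card : ℝ),
    mul_left_comm _ h, mul_sum (s := hb s Z t x y)] at a2
  rw [← mul_sum, ← mul_sum, ← mul_sum, sum_comm] at a2
  change _ ≤ _ * Oh s Z R L h x y + _ + _ at a2
  generalize (∑ p, s.m p * (s.c p).W fun i => (s.c p).ρ i < bet s R L p ∧ x ∈ i.2 ∧ y ∈ i.2) = O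
    at a1 a2
  generalize ((hb s Z t x y).card : ℝ) = n at a2 a3 hB
  have e1 := hc.cen.eW
  have e2 := hc.cen.e_le
  have w0 : 0 < W := (mul_pos_iff_of_pos_left hc.cen.e_pos).1 (by linarith)
  have e3 := mul_le_mul_of_nonneg_right e2 w0.le
  have o0 : 89 / 100 * W ≤ O := by linarith
  have e4 := mul_le_mul_of_nonneg_right hB (show 0 ≤ O by linarith)
  refine le_of_mul_le_mul_left ?_ (show 0 < n by linarith)
  have e5 := mul_le_mul_of_nonneg_left o0 (show 0 ≤ n by linarith)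
  have e6 := mul_le_mul_of_nonneg_left (show t + 60 ≤ 13 / 100 * W by linarith)
    (show 0 ≤ n by linarith)
  have e7 : 0 ≤ n * W := mul_nonneg (by linarith) w0.le
  linarith

end Pool.Agent.MP_ddf486_co.KV
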