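import Pool.Agent.MP_6c3157_co.PQ.AllC

/-! Project KV, block C: light double cells for partitions finer than the double cells. -/

set_option autoImplicit false
set_option linter.unusedSectionVars false

noncomputable section

namespace Pool.Agent.MP_ddf486_co.KV

open Finset Pool.Agent.MP_6c3157_co.PD Pool.Agent.MP_6c3157_co.PQ

variable {X PL K : Type} [DecidableEq X] [Fintype PL] [Field K]

open Classical in
/-- the upper properties of double cells -/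
structure DGood (D : Dbl X PL) (s : Sys X PL) (R : PL → ℝ) : Prop where
  om_lo : ∀ i, 0 ≤ D.om i
  lv_sum : ∀ t : PL → ℝ, (∀ p, 0 ≤ t p) →
    (∑ i, if D.lv i ≤ t (D.pl i) then D.om i else 0) ≤ 5 * ∑ p, s.m p * t p
  same : ∀ i x y, x ≠ y → D.cl i x = D.cl i y →
    D.lv i ≤ min (dep s R (D.pl i) x y) (dep s R (s.bar (D.pl i)) x y) + 3 * (s.c (D.pl i)).xi

theorem DGood.bound {s : Sys X PL} {R : PL → ℝ} {D : Dbl X PL} (hs : s.Good) (hD : DGood D s R)
    (t : PL → ℝ) (ht : ∀ p, 0 ≤ t p) (φ : Fin D.N → Prop) [DecidablePred φ]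
    (h : ∀ i, φ i → D.lv i ≤ t (D.pl i) + 3 * (s.c (D.pl i)).xi) :
    (∑ i, if φ i then D.om i else 0) ≤ 5 * (∑ p, s.m p * t p) + 300 := by
  classical
  have h1 := hD.lv_sum (fun p => t p + 3 * (s.c p).xi) fun p =>
    add_nonneg (ht p) (mul_nonneg (by norm_num) ((hs.good p).eta_lo.trans (hs.good p).eta_hi))
  have h2 : ∑ p, s.m p * (t p + 3 * (s.c p).xi) =
      ∑ p, s.m p * t p + 3 * ∑ p, s.m p * (s.c p).xi := by
    rw [mul_sum, ← sum_add_distrib]
    exact sum_congr rfl fun p _ => by ring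
  have h3 := hs.xi_sum
  have h4 : (∑ i, if φ i then D.om i else 0) ≤
      ∑ i, if D.lv i ≤ t (D.pl i) + 3 * (s.c (D.pl i)).xi then D.om i else 0 :=
    sum_le_sum fun i _ => by
      by_cases hi : φ i
      · rw [if_pos hi, if_pos (h i hi)]
      · rw [if_neg hi]
        split_ifs
        exacts [hD.om_lo i, le_rfl]
  rw [h2] at h1
  linarith

theorem DGood.lv_le {s : Sys X PL} {R : PL → ℝ} {D : Dbl X PL} (hD : DGood D s R) {i : Fin D.N}
    {x y : X} (h : x ≠ y) (e : D.cl i x = D.cl i y) :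
    D.lv i ≤ dd s R (D.pl i) x y + 3 * (s.c (D.pl i)).xi :=
  (hD.same i x y h e).trans (add_le_add_left (le_max_right _ _) _)

open Classical in
theorem dpw2 {s : Sys X PL} {Z : Finset X} {R : PL → ℝ} {G : PL → X → ℝ} {W ε : ℝ}
    {D : Dbl X PL} (hs : s.Good) (hc : Cen s Z R G W ε) (hD : DGood D s R) :
    (∀ x ∈ Z, ∀ y ∈ Z, x ≠ y → (∑ i, if D.cl i x = D.cl i y then D.om i else 0) ≤ 6 * W) ∧
    ∀ (F : Finset X) (y : X), y ∉ F → F.Nonempty → ∃ pt : PL → X, (∀ p, pt p ∈ F) ∧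
      (∀ p, ∀ z ∈ F, dd s R p y z ≤ dd s R p y (pt p)) ∧
      D.hit F y ≤ 5 * (∑ p, s.m p * dd s R p y (pt p)) + 300 := by
  refine ⟨fun x hx y hy hxy => ?_, fun F y hy hF => ?_⟩
  · have h1 := hD.bound hs (fun p => dd s R p x y) (fun p => le_max_left _ _)
      (fun i => D.cl i x = D.cl i y) fun i e => hD.lv_le hxy e
    have h2 : ∑ p, s.m p * dd s R p x y ≤ (1 + 3 * ε) * W :=
      (depS X PL s Z R G W ε hs hc x hx y hy hxy).2.2.2
    have h3 := hc.eW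
    have h4 := hc.e_le
    have h5 := hc.e_pos
    have h6 : 0 < W := (mul_pos_iff_of_pos_left h5).1 (by linarith)
    have h7 : ε * W ≤ 1 / 100 * W := mul_le_mul_of_nonneg_right h4 h6.le
    linarith
  · choose pt h1 h2 using fun p => exists_max_image F (fun z => dd s R p y z) hF
    refine ⟨pt, h1, h2, ?_⟩
    unfold Dbl.hit
    refine hD.bound hs (fun p => dd s R p y (pt p)) (fun p => le_max_left _ _) _ fun i hi => ?_
    obtain ⟨z, hz⟩ := hi
    obtain ⟨hz1, hz2⟩ := mem_filter.1 hz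
    have h3 := hD.lv_le (x := y) (y := z) (fun e => hy (e ▸ hz1)) hz2.symm
    have h4 := h2 (D.pl i) z hz1
    linarith

theorem dl2 {s : Sys X PL} {A : Ari X PL K} {η : ℝ} {Z : Finset X} {R : PL → ℝ}
    {G : PL → X → ℝ} {W ε : ℝ} {D : Dbl X PL} (hA : A.Good s η) (hC : Cen s Z R G W ε)
    (hD : DGood D s R) (T T' : Finset X) (k : ℕ) (hT : T ⊆ Z) (hT' : T' ⊆ Z)
    (hTT : Disjoint T T') (hTn : T.Nonempty) (hTn' : T'.Nonempty) (hk : 2 ≤ k)
    (hF : A.Free T k (T.card / (k + 1))) (hF' : A.Free T' k (T'.card / (k + 1))) :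
    D.S T T' (1 / (k : ℝ) ^ 2) ≤ 300 * W / k := by
  classical
  obtain ⟨z₀, hz₀⟩ := hTn
  have he0 := hC.e_pos
  have he1 := hC.e_le
  have heW := hC.eW
  have hW : 2000 ≤ W := by
    by_contra hW
    push Not at hW
    nlinarith
  have hkR : (2 : ℝ) ≤ k := by exact_mod_cast hk
  obtain ⟨hp1, hp2⟩ := dpw2 hA.good hC hD
  have hkk : 4 ≤ k * k := by nlinarith
  obtain ⟨F, hFT, hFc, hFi, hFS⟩ := greedy grow X PL K A (A.U z₀) (A.V z₀) D k (k * k / 2) (6 * W) T T'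
    hD.om_lo (by omega) (by omega) ⟨z₀, hz₀⟩ hTn' hF fun z hz y hy =>
      hp1 z (hT hz) y (hT' hy) fun e => disjoint_left.1 hTT hz (e ▸ hy)
  have hFn : F.Nonempty := by rw [← card_pos]; omega
  have hyF : ∀ y ∈ T', y ∉ F := fun y hy hf => disjoint_left.1 hTT (hFT hf) hy
  have hch : ∀ y, ∃ pt : PL → X, y ∈ T' → (∀ p, pt p ∈ F) ∧
      D.hit F y ≤ 5 * (∑ p, s.m p * dd s R p y (pt p)) + 300 := by
    intro y
    by_cases hy : y ∈ T'
    · obtain ⟨pt, a1, -, a3⟩ := hp2 F y (hyF y hy) hFn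
      exact ⟨pt, fun _ => ⟨a1, a3⟩⟩
    · exact ⟨fun _ => y, fun h => absurd h hy⟩
  choose pt hpt using hch
  set Φ : X → ℝ := fun y => ∑ p, s.m p * dd s R p y (pt y p) with hΦ
  have hl2 : ((k * k / 2 : ℕ) : ℝ) * 2 ≤ k * k := by
    exact_mod_cast Nat.div_mul_le_self (k * k) 2
  have hl1 : (k : ℝ) * k - 1 ≤ 2 * ((k * k / 2 : ℕ) : ℝ) := by
    have : k * k ≤ 2 * (k * k / 2) + 1 := by omega
    have : ((k * k : ℕ) : ℝ) ≤ ((2 * (k * k / 2) + 1 : ℕ) : ℝ) := by exact_mod_cast this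
    push_cast at this ⊢
    linarith
  have hΦle : ∀ y ∈ T', Φ y ≤ k * k * W := by
    intro y hy
    have e1 : Φ y ≤ ∑ z ∈ F, del s R y z := by
      unfold del
      rw [sum_comm]
      refine sum_le_sum fun p _ => ?_
      exact single_le_sum (f := fun z => s.m p * dd s R p y z)
        (fun z _ => mul_nonneg (hA.good.m_lo p) (le_max_left _ _)) ((hpt y hy).1 p)
    have e2 : ∑ z ∈ F, del s R y z ≤ F.card * (2 * W) := by
      rw [← nsmul_eq_mul]
      refine sum_le_card_nsmul _ _ _ fun z hz => ?_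
      have := (depS X PL s Z R G W ε hA.good hC y (hT' hy) z (hT (hFT hz))
        fun e => hyF y hy (e ▸ hz)).2.2.2
      nlinarith
    rw [hFc] at e2
    nlinarith
  have hT0 : (0 : ℝ) < T'.card := by exact_mod_cast hTn'.card_pos
  have hfew : ((T'.filter fun y => 6 * k * W < Φ y).card : ℝ) ≤ 1 / (k + 1) * T'.card := by
    by_contra hc
    push Not at hc
    rw [one_div_mul_eq_div] at hc
    obtain ⟨F₁, b1, b2, b3, b4⟩ := (grow X PL K A (A.U z₀) (A.V z₀) k _ T' hF').2 F _ hFi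
      (filter_subset _ _) hc (by omega)
    have b5 : ∀ y ∈ F₁, y ∈ T' := fun y hy => (mem_filter.1 (b1 hy)).1
    have hd := all_det X PL K s A η Z R G W ε hA hC z₀ (hT hz₀) k (F ∪ F₁) F₁ (fun p y => pt y p)
      (union_subset (hFT.trans hT) fun y hy => hT' (b5 y hy)) subset_union_right b4
      fun p y hy => by
        have a1 := (hpt y (b5 y hy)).1 p
        refine ⟨hT (hFT a1), fun e => hyF y (b5 y hy) (e ▸ a1), Submodule.subset_span ?_⟩
        refine Set.mem_image_of_mem _ (mem_coe.2 (mem_sdiff.2 ⟨mem_union_left _ a1, ?_⟩))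
        exact disjoint_left.1 b2 a1
    rw [card_union_of_disjoint b2, b3] at hd
    have hn : F₁.Nonempty := by rw [← card_pos]; omega
    have hlt : ∑ _y ∈ F₁, 6 * k * W < ∑ y ∈ F₁, Φ y :=
      sum_lt_sum_of_nonempty hn fun y hy => (mem_filter.1 (b1 hy)).2
    rw [sum_const, nsmul_eq_mul] at hlt
    have hc1 : (k : ℝ) * k ≤ 2 * F₁.card := by
      have : k * k ≤ 2 * F₁.card := by omega
      exact_mod_cast this
    have hkW : 0 ≤ (k : ℝ) * W := by positivity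
    have := mul_le_mul_of_nonneg_right hc1 hkW
    push_cast at hd
    simp only [hΦ] at hlt
    nlinarith
  have hav := Dl.avg T' Φ (6 * k * W) (k * k * W) (1 / (k + 1)) (by positivity) (by positivity)
    hΦle hfew
  have e6 : 1 / ((k : ℝ) + 1) * (k * k * W) ≤ k * W := by
    rw [one_div_mul_eq_div, div_le_iff₀ (by positivity)]
    nlinarith
  have hH : (∑ y ∈ T', D.hit F y) / T'.card ≤ 36 * k * W := by
    rw [div_le_iff₀ hT0]
    have e7 : ∑ y ∈ T', D.hit F y ≤ ∑ y ∈ T', (5 * Φ y + 300) :=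
      sum_le_sum fun y hy => (hpt y hy).2
    rw [sum_add_distrib, ← mul_sum, sum_const, nsmul_eq_mul] at e7
    have e8 : (300 : ℝ) ≤ k * W := by nlinarith
    have e9 := mul_le_mul_of_nonneg_left e8 hT0.le
    have e10 := mul_le_mul_of_nonneg_left e6 hT0.le
    nlinarith
  exact Dl.arith k _ _ W _ hkR (by linarith) hl1 hFS hH

open Sp in
theorem sp2 {s : Sys X PL} {A : Ari X PL K} {η : ℝ} {Z : Finset X} {R : PL → ℝ}
    {G : PL → X → ℝ} {W ε : ℝ} {D : Dbl X PL} (hA : A.Good s η) (hC : Cen s Z R G W ε)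
    (hD : DGood D s R) (T T' : Finset X) (b : ℕ) (ν ν' r δ : ℝ) (hT : T ⊆ Z) (hT' : T' ⊆ Z)
    (hd : Disjoint T T') (hne : T.Nonempty) (hne' : T'.Nonempty) (hb2 : 2 ≤ b) (hν : 0 ≤ ν)
    (hν' : 0 ≤ ν') (hF : ∀ k ≤ b, A.Free T k ν) (hF' : ∀ k ≤ b, A.Free T' k ν')
    (hs : ν * (b + 1) ≤ T.card) (hs' : ν' * (b + 1) ≤ T'.card) (hr : 0 < r) (hr2 : r ≤ 1 / 2)
    (hδb : 300 ≤ δ * b) :
    ∃ I : ℕ, (∀ i < I, D.S T T' ((r / 2 ^ i) ^ 20) ≤ 600 * (r / 2 ^ i) ^ 5 * W) ∧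
      D.S T T' ((r / 2 ^ I) ^ 20) ≤ δ * W := by
  have hb : 1 ≤ b := by omega
  classical
  have hW : 0 < W := by
    by_contra k
    nlinarith [mul_nonneg hC.e_pos.le (neg_nonneg.2 (not_lt.1 k)), hC.eW]
  have fr : ∀ (S : Finset X) (μ : ℝ) (k : ℕ), 0 ≤ μ → μ * (b + 1) ≤ S.card → k ≤ b →
      A.Free S k μ → A.Free S k (S.card / (k + 1)) := by
    intro S μ k hμ hS hk h u v f hf
    refine (h u v f hf).trans ?_
    have hk' : (k : ℝ) ≤ b := by exact_mod_cast hk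
    rw [le_div_iff₀ (by positivity)]
    exact (mul_le_mul_of_nonneg_left (by linarith) hμ).trans hS
  have dl : ∀ k : ℕ, 2 ≤ k → k ≤ b → D.S T T' (1 / (k : ℝ) ^ 2) ≤ 300 * W / k := fun k hk hkb =>
    dl2 hA hC hD T T' k hT hT' hd hne hne' hk
      (fr T ν k hν hs hkb (hF k hkb)) (fr T' ν' k hν' hs' hkb (hF' k hkb))
  have ht : ∀ i : ℕ, 0 < r / 2 ^ i ∧ r / 2 ^ i ≤ 1 / 2 := fun i =>
    ⟨by positivity, (div_le_self hr.le (one_le_pow₀ (by norm_num))).trans hr2⟩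
  have big : ∀ t : ℝ, 0 < t → t ≤ 1 / 2 → 1 ≤ b * t ^ 5 →
      D.S T T' (t ^ 20) ≤ 600 * t ^ 5 * W := by
    intro t h0 h3 h4
    obtain ⟨k, hk2, hkb, hk3, hk4⟩ := floor_ok h0 h3 h4
    refine (S_mono D hD.om_lo T T' hk3).trans ((dl k hk2 hkb).trans ?_)
    have hk0 : (0 : ℝ) < k := by exact_mod_cast (by omega : 0 < k)
    rw [div_le_iff₀ hk0]
    nlinarith [mul_le_mul_of_nonneg_right hk4 hW.le]
  have hb1 : (1 : ℝ) ≤ b := by exact_mod_cast hb
  · have ex : ∃ i : ℕ, b * (r / 2 ^ i) ^ 5 < 1 := by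
      obtain ⟨i, hi⟩ := small r (1 / b) hr (by linarith) (by positivity)
      rw [lt_div_iff₀ (by linarith), mul_comm] at hi
      exact ⟨i, hi⟩
    refine ⟨Nat.find ex, fun i hi => big _ (ht i).1 (ht i).2 (not_lt.1 (Nat.find_min ex hi)), ?_⟩
    have h3 := Nat.find_spec ex
    obtain ⟨h4, h5⟩ := ht (Nat.find ex)
    set t := r / 2 ^ Nat.find ex
    have h6 : t ^ 20 ≤ 1 / (b : ℝ) ^ 2 := by
      rw [le_div_iff₀ (by positivity)]
      have h8 : (b * t ^ 5) ^ 2 ≤ 1 := pow_le_one₀ (by positivity) h3.le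
      have h9 : t ^ 10 ≤ 1 := pow_le_one₀ h4.le (by linarith)
      calc t ^ 20 * (b : ℝ) ^ 2 = t ^ 10 * (b * t ^ 5) ^ 2 := by ring
        _ ≤ 1 := mul_le_one₀ h9 (by positivity) h8
    refine (S_mono D hD.om_lo T T' h6).trans ((dl b hb2 le_rfl).trans ?_)
    rw [div_le_iff₀ (by linarith)]
    nlinarith [mul_le_mul_of_nonneg_right hδb hW.le]

end Pool.Agent.MP_ddf486_co.KV
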