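import Pool.Agent.MP_ddf486_co.KV.Kd
import Pool.Agent.MP_6c3157_co.PQ.Boxp
import Pool.Agent.MP_6c3157_co.PQ.Bz
import Pool.Agent.MP_6c3157_co.PQ.Dbd
import Pool.Agent.MP_6c3157_co.PQ.Det

/-! Project KV: the height of the vertex coefficients of a curve with many low points. -/

set_option autoImplicit false
set_option linter.unusedSectionVars false

noncomputable section

namespace Pool.Agent.MP_ddf486_co.KV

open Finset Matrix MvPolynomial Pool.Agent.MP_6c3157_co.PD Pool.Agent.MP_6c3157_co.PQ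
  Pool.Agent.MP_6c3157_co.PQ.Boxp

namespace Ch

variable {K : Type} [Field K]

/-- `m` is a vertex of the Newton polygon of `F` -/
def Vx (F : MvPolynomial (Fin 2) K) (m : Fin 2 →₀ ℕ) : Prop :=
  m ∈ F.support ∧ ∃ u v : ℤ, ∀ a ∈ F.support, a ≠ m →
    u * a 0 + v * a 1 < u * m 0 + v * m 1

/-- multiplication by `F` from the small box to the large box -/
def mm (F : MvPolynomial (Fin 2) K) (b : ℕ) :
    Matrix (Fin (2 * b + 1) × Fin (2 * b + 1)) (Fin (b + 1) × Fin (b + 1)) K :=
  fun a c => coeff (ex a) (F * monomial (ex c) 1)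

theorem mm_vec (F : MvPolynomial (Fin 2) K) (b : ℕ) (c : Fin (b + 1) × Fin (b + 1) → K)
    (a : Fin (2 * b + 1) × Fin (2 * b + 1)) : (mm F b *ᵥ c) a = coeff (ex a) (F * pol c) := by
  simp only [mulVec, dotProduct, mm, pol, Finset.mul_sum, coeff_sum]
  refine sum_congr rfl fun i _ => ?_
  have : monomial (ex i) (c i) = C (c i) * monomial (ex i) 1 := by rw [C_mul_monomial, mul_one]
  rw [this, mul_left_comm, coeff_C_mul, mul_comm]

/-- the shifted small box -/
def sh {b : ℕ} (m : Fin 2 →₀ ℕ) (h : ∀ i, m i ≤ b) (c : Fin (b + 1) × Fin (b + 1)) :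
    Fin (2 * b + 1) × Fin (2 * b + 1) :=
  (⟨m 0 + c.1, by have := h 0; have := c.1.2; omega⟩, ⟨m 1 + c.2, by have := h 1; have := c.2.2; omega⟩)

theorem ex_sh {b : ℕ} (m : Fin 2 →₀ ℕ) (h : ∀ i, m i ≤ b) (c : Fin (b + 1) × Fin (b + 1)) :
    ex (sh m h c) = m + ex c := by
  ext i
  fin_cases i
  · exact (ex_zero _).trans (congrArg (m 0 + ·) (ex_zero c).symm)
  · exact (ex_one _).trans (congrArg (m 1 + ·) (ex_one c).symm)

theorem tri {F : MvPolynomial (Fin 2) K} {b : ℕ} {m : Fin 2 →₀ ℕ} (hm : Vx F m)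
    (h : ∀ i, m i ≤ b) : ((mm F b).submatrix (sh m h) id).det = coeff m F ^ ((b + 1) * (b + 1)) := by
  obtain ⟨-, u, v, hm⟩ := hm
  rw [det_tri _ (fun c => u * (c.1 : ℕ) + v * (c.2 : ℕ))]
  · simp [mm, ex_sh, coeff_mul_monomial]
  · intro a c hac n
    simp only [submatrix_apply, id, mm, ex_sh, coeff_mul_monomial'] at n
    split_ifs at n with l
    · have e : m + ex a - ex c + ex c = m + ex a := tsub_add_cancel_of_le l
      have k := hm _ (mem_support_iff.2 (left_ne_zero_of_mul n)) fun q => by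
        rw [q] at e
        exact hac (ex_inj (add_left_cancel e)).symm
      have e0 := congrArg (fun q : Fin 2 →₀ ℕ => ((q 0 : ℕ) : ℤ)) e
      have e1 := congrArg (fun q : Fin 2 →₀ ℕ => ((q 1 : ℕ) : ℤ)) e
      simp only [Finsupp.add_apply, ex_zero, ex_one, Nat.cast_add] at e0 e1
      have : u * ((m + ex a - ex c) 0 : ℕ) + v * ((m + ex a - ex c) 1 : ℕ) +
          (u * (c.1 : ℕ) + v * (c.2 : ℕ)) = u * m 0 + v * m 1 + (u * (a.1 : ℕ) + v * (a.2 : ℕ)) := by
        linear_combination u * e0 + v * e1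
      linarith
    · exact absurd rfl n

/-- values of the monomials of the large box -/
def em {τ : Type} (s t : τ → K) (b : ℕ) : Matrix τ (Fin (2 * b + 1) × Fin (2 * b + 1)) K :=
  fun z a => s z ^ (a.1 : ℕ) * t z ^ (a.2 : ℕ)

theorem em_vec {τ : Type} (s t : τ → K) (b : ℕ) (g : Fin (2 * b + 1) × Fin (2 * b + 1) → K) (z : τ) :
    (em s t b *ᵥ g) z = eval ![s z, t z] (pol g) := by
  rw [eval_pol]
  exact sum_congr rfl fun a _ => mul_comm _ _

theorem em_mm {τ : Type} (s t : τ → K) {F : MvPolynomial (Fin 2) K} {b : ℕ}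
    (hb : ∀ i, F.degreeOf i ≤ b) (h : ∀ z, eval ![s z, t z] F = 0) : em s t b * mm F b = 0 := by
  ext z c
  have d : ∀ i, (F * monomial (ex c) 1).degreeOf i < 2 * b + 1 := fun i => by
    have h1 : (monomial (ex c) (1 : K)).degreeOf i ≤ ex c i :=
      degreeOf_le_iff.2 fun m hm => by rw [Finset.mem_singleton.1 (support_monomial_subset hm)]
    have h2 : ex c i < b + 1 := by
      fin_cases i
      · exact (ex_zero c).trans_lt c.1.2
      · exact (ex_one c).trans_lt c.2.2
    have := degreeOf_mul_le i F (monomial (ex c) 1)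
    have := hb i
    omega
  have := em_vec s t b (fun a => coeff (ex a) (F * monomial (ex c) 1)) z
  rw [pol_coeff (max_lt (d 0) (d 1)), map_mul, h, zero_mul] at this
  exact this

theorem ker {τ : Type} [Fintype τ] (s t : τ → K) (hs : Function.Injective s)
    {F : MvPolynomial (Fin 2) K} {b : ℕ} (hF : Irreducible F) (hb : ∀ i, F.degreeOf i = b)
    (h : ∀ z, eval ![s z, t z] F = 0) (hc : 8 * b ^ 2 < Fintype.card τ)
    (g : Fin (2 * b + 1) × Fin (2 * b + 1) → K) (hg : em s t b *ᵥ g = 0) :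
    ∃ c, g = mm F b *ᵥ c := by
  classical
  have hd : bd (pol g) < 2 * b + 1 := bd_pol (by omega) g
  have dv : F ∣ pol g := by
    by_contra n
    have := bz τ Unit K ⟨s, t, fun _ => AbsoluteValue.trivial, fun _ => true, fun _ => 0⟩ hs F
      (pol g) (2 * b) univ hF n (max_le (by rw [hb]; omega) (by rw [hb]; omega)) (by omega)
    rw [filter_true_of_mem, card_univ] at this
    · nlinarith
    · intro z _
      exact ⟨h z, (em_vec s t b g z).symm.trans (congrFun hg z)⟩
  obtain ⟨q, hq⟩ := dv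
  have dq : bd q < b + 1 := by
    by_cases q0 : q = 0
    · simp [q0, bd]
    · have : ∀ i, q.degreeOf i < b + 1 := fun i => by
        have h1 := degreeOf_mul_eq (n := i) hF.ne_zero q0
        have h2 : (pol g).degreeOf i < 2 * b + 1 := by
          fin_cases i
          · exact (le_max_left _ _).trans_lt hd
          · exact (le_max_right _ _).trans_lt hd
        rw [← hq, hb] at h1
        omega
      exact max_lt (this 0) (this 1)
  refine ⟨fun c => coeff (ex c) q, funext fun a => ?_⟩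
  rw [mm_vec, pol_coeff dq, ← hq, coeff_pol]

variable {X PL : Type} [DecidableEq X] [Fintype PL] {s : Sys X PL} {A : Ari X PL K} {η : ℝ}

theorem sum_bar (hs : s.Good) (φ : PL → ℝ) : ∑ p, s.m p * φ (s.bar p) = ∑ p, s.m p * φ p := by
  rw [← Equiv.sum_comp s.bar fun p => s.m p * φ p]
  exact sum_congr rfl fun p _ => by rw [hs.m_bar]

theorem sum_uw (hA : A.Good s η) (φ : PL → ℝ) :
    ∑ p, s.m p * (φ (Det.up s A p) + φ (Det.wp s A p)) = 2 * ∑ p, s.m p * φ p := by
  simp only [Det.sym, mul_add, sum_add_distrib, sum_bar hA.good]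
  ring

theorem pf2 (hA : A.Good s η) {x y : X} (h : x ≠ y) :
    ∑ p, s.m p * Real.log ((s.c (Det.up s A p)).d x y) = 0 ∧
    ∑ p, s.m p * Real.log ((s.c (Det.wp s A p)).d x y) = 0 := by
  have h1 := hA.pfge _ (Subring.subset_closure ⟨x, y, Or.inl rfl⟩)
    (sub_ne_zero.2 (hA.U_inj.ne h))
  have h2 := hA.pfge _ (Subring.subset_closure ⟨x, y, Or.inr rfl⟩)
    (sub_ne_zero.2 (hA.V_inj.ne h))
  have h3 := sum_uw hA fun p => Real.log ((s.c p).d x y)
  rw [hA.good.pf x y h] at h3
  simp only [mul_add, sum_add_distrib] at h3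
  simp only [← Det.d_up hA] at h1
  simp only [← Det.d_wp hA] at h2
  constructor <;> linarith

theorem pow_bd {a c : ℝ} (ha : 0 ≤ a) (hc : 0 < c) {i k : ℕ} (h : i ≤ k) :
    a ^ i ≤ Real.exp (k * max 0 (Real.log (a / c)) + i * Real.log c) := by
  have h1 : a ≤ Real.exp (max 0 (Real.log (a / c)) + Real.log c) := by
    rw [Real.exp_add, Real.exp_log hc, ← div_le_iff₀ hc]
    exact (Real.le_exp_log _).trans (Real.exp_le_exp.2 (le_max_right _ _))
  refine (pow_le_pow_left₀ ha h1 i).trans ?_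
  rw [← Real.exp_nat_mul, Real.exp_le_exp]
  have : (i : ℝ) ≤ k := by exact_mod_cast h
  nlinarith [le_max_left 0 (Real.log (a / c))]

end Ch

open Ch Det in
/-- curve height: the ratio of two vertex terms at a base with many low points -/
theorem ch {X PL K : Type} [DecidableEq X] [Fintype PL] [Field K] {s : Sys X PL} {A : Ari X PL K}
    {η : ℝ} (hA : A.Good s η) {F : MvPolynomial (Fin 2) K} {b : ℕ} (hF : Irreducible F)
    (hb : ∀ i, F.degreeOf i = b) {x y : X} (hxy : x ≠ y) (T : Finset X) (hT : 8 * b ^ 2 < T.card)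
    {t : ℝ} (h0 : ∀ z ∈ T, eval ![A.U z - A.U x, A.V z - A.V x] F = 0)
    (ht : ∀ z ∈ T, ∑ p, s.m p * max 0 (Real.log ((s.c p).d x z / (s.c p).d x y)) ≤ t)
    {m m' : Fin 2 →₀ ℕ} (hm : Vx F m) (hm' : Vx F m') :
    ∑ p, s.m p * |Real.log (A.av p (coeff m F)) - Real.log (A.av p (coeff m' F)) +
      ((m 0 : ℝ) - m' 0) * Real.log ((s.c (up s A p)).d x y) +
      ((m 1 : ℝ) - m' 1) * Real.log ((s.c (wp s A p)).d x y)| ≤ b * (24 * t + 48) := by
  classical
  have hs := hA.good
  have l : ∀ {m}, Vx F m → ∀ i, m i ≤ b := fun h i => (monomial_le_degreeOf i h.1).trans (hb i).le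
  have c0 : coeff m F ≠ 0 := mem_support_iff.1 hm.1
  have c1 : coeff m' F ≠ 0 := mem_support_iff.1 hm'.1
  let S : T → K := fun z => A.U z - A.U x
  let S' : T → K := fun z => A.V z - A.V x
  have hS : Function.Injective S := fun a c h => Subtype.ext (hA.U_inj (sub_left_injective h))
  have hz : ∀ z, eval ![S z, S' z] F = 0 := fun z => h0 z.1 z.2
  obtain ⟨r, J, e, e', he, he', d0, d1, key⟩ := kd_rows (em S S' b) (mm F b)
    (em_mm S S' (fun i => (hb i).le) hz) (ker S S' hS hF hb hz (by simpa using hT))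
    (sh m (l hm)) (sh m' (l hm')) (by rw [tri hm]; exact pow_ne_zero _ c0)
    (by rw [tri hm']; exact pow_ne_zero _ c1)
  rw [tri hm, tri hm'] at key
  have hr : r + (b + 1) * (b + 1) = (2 * b + 1) * (2 * b + 1) := by
    simpa using Fintype.card_congr e
  let u : PL → ℝ := fun p => Real.log ((s.c (up s A p)).d x y)
  let w : PL → ℝ := fun p => Real.log ((s.c (wp s A p)).d x y)
  let g : PL → Fin (2 * b + 1) × Fin (2 * b + 1) → ℝ := fun p a => (a.1 : ℕ) * u p + (a.2 : ℕ) * w p
  let q : PL → X → ℝ := fun p z => max 0 (Real.log ((s.c p).d x z / (s.c p).d x y))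
  let H : PL → ℝ := fun p => (∑ a, (2 * b : ℕ) * (q (up s A p) (J a) + q (wp s A p) (J a))) +
    A.ar p * (r * Real.log r)
  have dp : ∀ p, 0 < (s.c p).d x y := fun p =>
    lt_of_lt_of_le (by have := (hs.good p).rlo_pos; positivity) ((hs.good p).d_lo x y hxy)
  have g0 : ∀ a, ∑ p, s.m p * g p a = 0 := fun a => by
    simp only [g, Det.sum_add, Det.sum_cm, u, w, (pf2 hA hxy).1, (pf2 hA hxy).2]
    simp
  have side : ∀ e : Fin r ⊕ Fin (b + 1) × Fin (b + 1) ≃ Fin (2 * b + 1) × Fin (2 * b + 1),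
      ((em S S' b).submatrix J fun a => e (.inl a)).det ≠ 0 →
      (∀ p, Real.log (A.av p ((em S S' b).submatrix J fun a => e (.inl a)).det) -
        ∑ a, g p (e (.inl a)) ≤ H p) ∧
      0 ≤ ∑ p, s.m p * (Real.log (A.av p ((em S S' b).submatrix J fun a => e (.inl a)).det) -
        ∑ a, g p (e (.inl a))) := by
    intro e d
    refine ⟨fun p => ?_, ?_⟩
    · have := dbd K (Fin r) (A.av p) (A.ar p) _
        (fun a => (2 * b : ℕ) * (q (up s A p) (J a) + q (wp s A p) (J a)))
        (fun a => g p (e (.inl a))) (hA.ar_eq p) d fun a c => by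
          have a1 : A.av p (S (J a)) = (s.c (up s A p)).d x (J a) := by
            rw [d_up hA, AbsoluteValue.map_sub]
          have a2 : A.av p (S' (J a)) = (s.c (wp s A p)).d x (J a) := by
            rw [d_wp hA, AbsoluteValue.map_sub]
          have b1 := pow_bd ((A.av p).nonneg (S (J a))) (dp (up s A p))
            (Nat.lt_succ_iff.1 (e (.inl c)).1.2)
          have b2 := pow_bd ((A.av p).nonneg (S' (J a))) (dp (wp s A p))
            (Nat.lt_succ_iff.1 (e (.inl c)).2.2)
          simp only [submatrix_apply, Ch.em, map_mul, AbsoluteValue.map_pow]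
          refine (mul_le_mul b1 b2 (pow_nonneg ((A.av p).nonneg _) _) (Real.exp_pos _).le).trans ?_
          rw [← Real.exp_add, a1, a2]
          exact le_of_eq (congrArg _ (by simp only [g, q, u, w]; ring))
      rw [Fintype.card_fin] at this
      simp only [H]
      linarith
    · have := hA.pfge _ (det_mem (Subring.closure A.dif)
        ((em S S' b).submatrix J fun a => e (.inl a)) fun a c => row_mem A x (J a) (e (.inl c))) d
      have z : ∑ p, s.m p * ∑ a, g p (e (.inl a)) = 0 := by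
        simp only [Finset.mul_sum]
        rw [Finset.sum_comm]
        exact sum_eq_zero fun a _ => g0 _
      simp only [mul_sub, sum_sub_distrib, z]
      rw [sub_zero]
      exact this
  obtain ⟨u0, v0⟩ := side e d0
  obtain ⟨u1, v1⟩ := side e' d1
  have gs : ∀ (e : Fin r ⊕ Fin (b + 1) × Fin (b + 1) ≃ Fin (2 * b + 1) × Fin (2 * b + 1))
      (m : Fin 2 →₀ ℕ) (h : ∀ i, m i ≤ b), (∀ k, e (.inr k) = sh m h k) → ∀ p,
      ∑ a, g p (e (.inl a)) = ∑ a, g p a - ((b + 1) * (b + 1) : ℕ) * (m 0 * u p + m 1 * w p) -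
        ∑ c : Fin (b + 1) × Fin (b + 1), ((c.1 : ℕ) * u p + (c.2 : ℕ) * w p) := by
    intro e m h he p
    rw [← Equiv.sum_comp e (g p), Fintype.sum_sum_type]
    have : ∀ c, g p (e (.inr c)) = (m 0 * u p + m 1 * w p) + ((c.1 : ℕ) * u p + (c.2 : ℕ) * w p) :=
      fun c => by rw [he]; simp only [g, sh]; push_cast; ring
    simp only [this]
    rw [sum_add_distrib (f := fun _ => (m 0 : ℝ) * u p + m 1 * w p), sum_const, card_univ,
      Fintype.card_prod, Fintype.card_fin, nsmul_eq_mul]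
    ring
  obtain ⟨z0, hz0⟩ := card_pos.1 (lt_of_le_of_lt (Nat.zero_le _) hT)
  have t0 : 0 ≤ t := (sum_nonneg fun p _ => mul_nonneg (hs.m_lo p) (le_max_left _ _)).trans
    (ht z0 hz0)
  have hb0 : (0 : ℝ) ≤ b := Nat.cast_nonneg _
  have hr0 : (0 : ℝ) ≤ r := Nat.cast_nonneg _
  have hr' : (r : ℝ) + (b + 1) * (b + 1) = (2 * b + 1) * (2 * b + 1) := by exact_mod_cast hr
  have lr0 : 0 ≤ Real.log r := Real.log_natCast_nonneg r
  have lr : Real.log r ≤ 4 * b := by
    rcases hr0.eq_or_lt with n | n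
    · rw [← n, Real.log_zero]; linarith
    · have := Real.log_le_sub_one_of_pos (show (0 : ℝ) < 2 * b + 1 by linarith)
      have h2 := Real.log_le_log n (show (r : ℝ) ≤ (2 * b + 1) * (2 * b + 1) by nlinarith)
      rw [Real.log_mul (by linarith) (by linarith)] at h2
      linarith
  have Hs : ∑ p, s.m p * H p ≤ r * (b * (4 * t + 8)) := by
    have a1 : ∑ p, s.m p * ∑ a, ((2 * b : ℕ) : ℝ) * (q (up s A p) (J a) + q (wp s A p) (J a)) ≤
        r * (b * (4 * t)) := by
      simp only [Finset.mul_sum]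
      rw [Finset.sum_comm]
      refine (sum_le_card_nsmul _ _ (b * (4 * t)) fun a _ => ?_).trans (by simp)
      rw [Det.sum_cm, sum_uw hA fun p => q p (J a)]
      have := ht _ (J a).2
      push_cast
      nlinarith
    have a2 : ∑ p, s.m p * (A.ar p * (r * Real.log r)) ≤ 2 * (r * Real.log r) := by
      simp only [← mul_assoc (s.m _), ← sum_mul]
      exact mul_le_mul_of_nonneg_right hA.ar_sum (mul_nonneg hr0 lr0)
    simp only [H, Det.sum_add]
    nlinarith [mul_le_mul_of_nonneg_left lr hr0]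
  have N0 : (0 : ℝ) < ((b + 1) * (b + 1) : ℕ) := by positivity
  refine le_of_mul_le_mul_left ?_ N0
  have pt : ∀ p, ((b + 1) * (b + 1) : ℕ) * (s.m p * |Real.log (A.av p (coeff m F)) -
      Real.log (A.av p (coeff m' F)) + ((m 0 : ℝ) - m' 0) * u p + ((m 1 : ℝ) - m' 1) * w p|) ≤
      2 * (s.m p * H p) -
      s.m p * (Real.log (A.av p ((em S S' b).submatrix J fun a => e (.inl a)).det) -
        ∑ a, g p (e (.inl a))) -
      s.m p * (Real.log (A.av p ((em S S' b).submatrix J fun a => e' (.inl a)).det) -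
        ∑ a, g p (e' (.inl a))) := by
    intro p
    have k := congrArg (fun a => Real.log (A.av p a)) key
    simp only [AbsoluteValue.map_pow, map_mul, Real.log_pow] at k
    rw [Real.log_mul ((A.av p).ne_zero d0) (pow_ne_zero _ ((A.av p).ne_zero c1)),
      Real.log_mul ((A.av p).ne_zero d1) (pow_ne_zero _ ((A.av p).ne_zero c0)), Real.log_pow,
      Real.log_pow] at k
    have a0 := u0 p
    have a1 := u1 p
    have := hs.m_lo p
    rw [mul_left_comm, mul_left_comm 2, ← mul_sub, ← mul_sub]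
    refine mul_le_mul_of_nonneg_left ?_ this
    rw [gs e m _ he] at a0 ⊢
    rw [gs e' m' _ he'] at a1 ⊢
    generalize (((b + 1) * (b + 1) : ℕ) : ℝ) = N at k a0 a1 N0 ⊢
    push_cast at k
    rw [← abs_of_pos N0, ← abs_mul, abs_of_pos N0, abs_le]
    constructor <;> linarith
  rw [Finset.mul_sum]
  refine (sum_le_sum fun p _ => pt p).trans ?_
  rw [sum_sub_distrib, sum_sub_distrib, ← Finset.mul_sum]
  have : (r : ℝ) ≤ 3 * ((b + 1) * (b + 1)) := by nlinarith
  have := mul_le_mul_of_nonneg_right this (show 0 ≤ b * (4 * t + 8) by positivity)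
  push_cast
  nlinarith

end Pool.Agent.MP_ddf486_co.KV
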