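import Pool.Agent.MP_ddf486_co.KV.BasicC

/-! Project KV, block C: heavy refined cells lie in heavy cells with few points. -/

set_option autoImplicit false
set_option linter.unusedSectionVars false

noncomputable section

namespace Pool.Agent.MP_ddf486_co.KV

open Finset Pool.Agent.MP_6c3157_co.PD Pool.Agent.MP_6c3157_co.PQ

namespace Chvc

variable {N : Nb} {X PL K : Type} [DecidableEq X] [Fintype PL] [Field K] {s : Sys X PL}
  {A : Ari X PL K} {η : ℝ} {Z : Finset X} {R L : PL → ℝ} {G rq : PL → X → ℝ} {cn : PL → X}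
  {W ε : ℝ}

theorem place (h : Fm N s A η Z R L G rq cn W ε) (p : PL) {y z : X} (hy : y ∈ Z) (hyz : y ≠ z)
    (U V : Finset X) (hV : V ⊆ U) {c t : ℝ} (ht : 0 ≤ t) (hc : c ≤ V.card)
    (hd : ∀ v, v = z ∨ v ∈ V → (s.c p).d y v ≤
      (s.c p).lam ^ 3 * (R p * Real.exp (-(t + lq R rq p y + ga s L p / 4)))) :
    t ≤ 4 * (s.c p).W fun i => ((N.q : ℝ) ^ 50 * (Z ∩ i.2).card ≤ Z.card ∧
      c ≤ (U ∩ i.2).card) ∧ y ∈ i.2 ∧ z ∈ i.2 := by
  have hg := h.good.good p
  have hl := hg.lam_pos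
  have hl1 := hg.lam_lo
  have hR := h.cen.R_pos p
  set r0 := (s.c p).lam ^ 3 * (R p * Real.exp (-(t + lq R rq p y + ga s L p / 4))) with hr0
  have r0p : 0 < r0 := by positivity
  set b := min (R p) (rq p y) / (s.c p).lam with hb
  have bp : 0 < b := div_pos (lt_min hR (h.rq_pos p hy)) hl
  have e1 : Real.log (b / ((s.c p).lam * r0)) =
      t + ga s L p / 4 - 5 * Real.log (s.c p).lam := by
    rw [hb, hr0, h.min_eq p hy, Real.log_div (by positivity) (by positivity),
      Real.log_div (by positivity) (by positivity), Real.log_mul (by positivity) (by positivity),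
      Real.log_mul (by positivity) (by positivity), Real.log_mul (by positivity) (by positivity),
      Real.log_mul (by positivity) (by positivity), Real.log_exp, Real.log_exp, Real.log_pow]
    push_cast
    ring
  have e2 : t + (s.c p).eta ≤ Real.log (b / ((s.c p).lam * r0)) := by
    rw [e1]
    linarith [h.ga_ge p, h.xi_le p, hg.log_lam, hg.eta_hi, h.xs_pos p]
  have e3 : (s.c p).lam * r0 ≤ b := by
    have : 0 ≤ Real.log (b / ((s.c p).lam * r0)) := by linarith [hg.eta_lo]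
    rwa [Real.log_nonneg_iff (by positivity), one_le_div (by positivity)] at this
  have e4 : (s.c p).rlo ≤ (s.c p).lam * r0 := by
    have h1 := hg.d_lo y z hyz
    have h2 := hd z (Or.inl rfl)
    have h3 := hg.rlo_pos
    nlinarith
  have e5 : b ≤ (s.c p).rhi :=
    ((div_le_self (lt_min hR (h.rq_pos p hy)).le hl1).trans (min_le_left _ _)).trans (h.R_hi p)
  have h1 := hg.c3 y _ _ e4 e3 e5
  have h2 := h1.trans (Cells.W_mono (ψ := fun i => ((N.q : ℝ) ^ 50 * (Z ∩ i.2).card ≤ Z.card ∧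
      c ≤ (U ∩ i.2).card) ∧ y ∈ i.2 ∧ z ∈ i.2) hg fun i hi ⟨k1, k2, k3, k4⟩ => by
    have k5 : ∀ v, v = z ∨ v ∈ V → v ∈ i.2 := fun v hv =>
      k4 v ((hd v hv).trans (by rw [le_div_iff₀ hl]; linarith))
    refine ⟨⟨?_, hc.trans ?_⟩, k1, k5 z (Or.inl rfl)⟩
    · have k6 : (s.c p).lam * (s.c p).ρ i < rq p y := by
        rw [hb, lt_div_iff₀ hl] at k3
        linarith [min_le_right (R p) (rq p y)]
      refine le_trans (mul_le_mul_of_nonneg_left ?_ (by positivity)) (h.rq_min p y hy _ k6).le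
      exact_mod_cast card_le_card (Cells.inter_subset_ball hg hi k1)
    · exact_mod_cast card_le_card fun v hv => mem_inter.2 ⟨hV hv, k5 v (Or.inr hv)⟩)
  linarith

end Chvc

theorem hvc : HVC := by
  classical
  intro N X PL K _ _ _ s A η Z R L G rq cn W ε _ h D hD y hy z hyz U c P hP
  have key : ∀ p : PL, ∃ t : ℝ, 0 ≤ t ∧ (∀ i, P i → D.pl i = p → D.lv i ≤ t) ∧
      t ≤ 4 * (s.c p).W fun i => ((N.q : ℝ) ^ 50 * (Z ∩ i.2).card ≤ Z.card ∧
        c ≤ (U ∩ i.2).card) ∧ y ∈ i.2 ∧ z ∈ i.2 := by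
    intro p
    have h0 := mul_nonneg (by norm_num : (0 : ℝ) ≤ 4) (Cells.W_nonneg
      (φ := fun i => ((N.q : ℝ) ^ 50 * (Z ∩ i.2).card ≤ Z.card ∧
        c ≤ (U ∩ i.2).card) ∧ y ∈ i.2 ∧ z ∈ i.2) (h.good.good p))
    refine ⟨_, h0, fun i hi hp => ?_, le_rfl⟩
    rcases le_total (D.lv i) 0 with k | k
    · exact k.trans h0
    · subst hp
      refine Chvc.place h _ hy hyz U (D.cell i U y) (filter_subset _ _) k (hP i hi).2 ?_
      rintro v (rfl | hv)
      · exact hD.deep i y _ (hP i hi).1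
      · exact hD.deep i y v (mem_filter.1 hv).2.symm
  choose t t0 t1 t2 using key
  refine le_trans ?_ (mul_le_mul_of_nonneg_left (fam_W s Z R L rq fun p i =>
    ((N.q : ℝ) ^ 50 * (Z ∩ i.2).card ≤ Z.card ∧ c ≤ (U ∩ i.2).card) ∧ y ∈ i.2 ∧ z ∈ i.2).ge
    (by norm_num))
  have h1 := hD.good.lv_sum t t0
  have h2 := h.good.sum_le t2
  simp only [mul_left_comm _ (4 : ℝ), ← mul_sum] at h2
  refine le_trans (sum_le_sum fun i _ => ?_) (h1.trans (by linarith))
  by_cases hi : P i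
  · rw [if_pos hi, if_pos (t1 _ i hi rfl)]
  · rw [if_neg hi]
    split_ifs
    · exact hD.good.om_lo i
    · exact le_rfl

end Pool.Agent.MP_ddf486_co.KV
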