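import Pool.Agent.MP_ddf486_co.KV.BasicC

/-! Project KV, block C: the abstract model from the rows. -/

set_option autoImplicit false

noncomputable section

namespace Pool.Agent.MP_ddf486_co.KV

open Finset Pool.Agent.MP_6c3157_co.PD Pool.Agent.MP_6c3157_co.PQ

theorem cmod (h1 : RDC) (h2 : CTOT) (h3 : DGA) (h4 : CLO) (h5 : TRIP) (h6 : OUT2) (h7 : RARE2)
    (h8 : CMIR) (h9 : CSEP) : MOD := by
  intro N X PL K _ _ _ s A η Z R L G rq cn W ε hN h
  classical
  obtain ⟨D, hD⟩ := h1 N X PL K s A η Z R L G rq cn W ε hN h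
  obtain ⟨t1, t2, t3, t4, t5⟩ := h2 N X PL K s A η Z R L G rq cn W ε hN h
  obtain ⟨c1, c2⟩ := h4 N X PL K s A η Z R L G rq cn W ε hN h
  have hW := h.W_big
  refine ⟨Σ p : PL, (s.c p).I, inferInstance, fam s Z R L rq, ∑ p, s.m p * (s.c p).K,
    fun y z => 8 * om2 D y z, Clf s L G rq, Ghf s L G, fam_w_lo h.good, by linarith, h.eta_lo, ?_,
    t1, t2, h3 N X PL K s A η Z R L G rq cn W ε hN h, fun y z => ?_, fun y hy z hz hyz => ?_,
    t3, t4, c1, c2, h5 N X PL K s A η Z R L G rq cn W ε hN h D hD, t5,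
    h6 N X PL K s A η Z R L G rq cn W ε hN h, h7 N X PL K s A η Z R L G rq cn W ε hN h D hD,
    h8 N X PL K s A η Z R L G rq cn W ε hN h, h9 N X PL K s A η Z R L G rq cn W ε hN h⟩
  · have q1 : (1 : ℝ) ≤ N.q := le_trans (by norm_num) hN.q_big
    have e1 : N.L ^ 10 ≤ Z.card := ((pow_le_pow_right₀ hN.L_one (by norm_num)).trans
      hN.L_q).trans ((le_self_pow₀ q1 (by norm_num)).trans (h.card_big hN))
    linarith [mul_le_mul_of_nonneg_left e1 h.eta_lo, h.eta]
  · refine mul_nonneg (by norm_num) (sum_nonneg fun i _ => ?_)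
    split_ifs
    exacts [hD.good.om_lo i, le_rfl]
  · have := (dpw2 h.good h.cen hD.good).1 y hy z hz hyz
    have e : om2 D y z ≤ 6 * W := by unfold om2; convert this
    linarith

end Pool.Agent.MP_ddf486_co.KV
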