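import Pool.Agent.MP_ddf486_co.KV.DTop

/-! Project KV, block D: one level. -/

set_option autoImplicit false
set_option linter.unusedSectionVars false

noncomputable section

namespace Pool.Agent.MP_ddf486_co.KV

open Finset Pool.Agent.MP_6c3157_co.PD Pool.Agent.MP_6c3157_co.PQ

namespace DLev

theorem a1 {u z y : ℝ} (u1 : u ≤ 1 / 10 ^ 30) (z0 : 0 < z) (h : (1 - u) * z ≤ y) :
    99 / 100 * z ≤ y := by nlinarith

theorem a2 {a b t : ℝ} (h : 10 ^ 30 * a ≤ b) (t0 : 0 < t) : 10 ^ 30 * (a * t) ≤ b * t := by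
  nlinarith

theorem a3 {a b z y : ℝ} (h1 : 10 ^ 30 * a ≤ b) (a0 : 0 < a) (h : y ≤ 4 * (a * z ^ 2)) :
    y ≤ b * z * (z / 2) := by nlinarith [sq_nonneg z]

theorem a4 {Q q s y a t : ℝ} (h1 : Q * q ≤ s) (h2 : 10 ^ 30 ≤ a * q) (h3 : 0 < Q) (h4 : s ≤ y)
    (a0 : 0 < a) (t0 : 0 < t) : Q * t ≤ a * t * y := by
  have : Q ≤ a * y := by nlinarith
  nlinarith

theorem a5 {a p p' d y z : ℝ} (h1 : 10 ^ 30 ≤ a * p) (h2 : p ≤ p') (h3 : 0 < p') (a0 : 0 < a)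
    (h4 : p' * d ≤ y) (h5 : y ≤ z) (z0 : 0 < z) : d ≤ a * z := by
  have h6 : 1 ≤ a * p' := by nlinarith
  have h7 : p' * d ≤ p' * (a * z) := by nlinarith
  exact le_of_mul_le_mul_left h7 h3

end DLev

open DLev

theorem levS (hC : CTX) (hT : TAIL) (hM : MID) (hU : SUBU) (hH : H0) (hE : DE3) (hRa : ROWA)
    (hRb : ROWB) (hR : REC) : LEV := by
  classical
  intro N X ι _ _ F lab Z Y W Kt η Om Cl Gh t e e' Wb hN hA hP hS hbig hW e0 ek eq es hy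
  have hs := DTop.sZ hN hP.big
  have s0 := hN.d_s
  have u0 := hN.u_pos
  have u1 := hN.u_le
  have W1 := hA.W_lo
  have hYZ : (Y.card : ℝ) ≤ Z.card := Nat.cast_le.2 (card_le_card hS.sub)
  have Z0 : (0 : ℝ) < Z.card := by linarith
  have hYb : 99 / 100 * (Z.card : ℝ) ≤ Y.card := a1 u1 Z0 hS.big
  have hsY : N.s ≤ Y.card := by linarith
  obtain ⟨hD, hbb⟩ := hC N X ι F lab Z Y W Kt η Om Cl Gh t e Wb hN hA hS hsY
  have t0 := hD.t_pos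
  obtain ⟨Y₁, hm⟩ := hM N X ι F Kt Y t Wb hN hD
    (hT N X ι F lab Z Y W Kt η Om Cl Gh t e Wb N.s N.j hN hA hS le_rfl (by omega)) hy
  have g90 : 10 ^ 30 * N.u ^ 90 ≤ N.u ^ 50 := hN.d_gap (by norm_num)
  have g50 : N.u ^ 50 ≤ 1 := hN.d_pw1 _
  have p90 := hN.d_pw0 90
  have p80 := hN.d_pw0 80
  have p8 := hN.d_pw0 8
  have g80 : 10 ^ 30 * N.u ^ 80 ≤ N.u ^ 8 := hN.d_gap (by norm_num)
  have g80t : 10 ^ 30 * (N.u ^ 80 * t) ≤ N.u ^ 8 * t := a2 g80 t0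
  have c0 : 0 < N.u ^ 80 * t := mul_pos p80 t0
  obtain ⟨δ, hδ⟩ : ∃ δ, δ = N.u ^ 90 * Z.card := ⟨_, rfl⟩
  have δ0 : 0 < δ := by rw [hδ]; exact mul_pos p90 Z0
  have δ1 : 10 ^ 30 * δ ≤ N.u ^ 50 * Z.card := by rw [hδ]; exact a2 g90 Z0
  have δ2 : 10 ^ 30 * δ ≤ Z.card := δ1.trans (mul_le_of_le_one_left Z0.le g50)
  have b1 : (Y.card : ℝ) ≤ Y₁.card + δ := by
    linarith [hm.big, mul_le_mul_of_nonneg_left hYZ p90.le]
  obtain ⟨-, hu⟩ := hU N X ι F Kt Y Y₁ t Wb hN hm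
  obtain ⟨Y₂, s2, b2, hG⟩ := hH N X ι F lab Z Y Y₁ W Kt η Om Cl Gh (5 * (N.u ^ 80 * t)) hN hA hP
    hS.sub hm.rw.sub (by
      have : (9 : ℝ) * Z.card ≤ 10 * Y₁.card := by linarith
      exact_mod_cast this) fun U hU' h => (hu U hU' h).2.1
  rw [← hδ] at b2
  have hG' : ∀ y ∈ Y₂, Gh y ≤ N.u ^ 8 * t := fun y hy => by linarith [hG y hy]
  have hom := hE N X ι F lab Z Y Y₁ W Kt η Om Cl Gh t e e' Wb hN hA hS hm hW e0 ek eq es
  have hrb := hRb N X ι F lab Z Y Y₁ Y₂ W Kt η Om Cl Gh t e' Wb hN hA hP hm hS.sub s2 hW ek hom hG'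
  have Y2b : (Z.card : ℝ) / 2 ≤ Y₂.card := by linarith
  obtain ⟨m, hmm, Y₃, s3, b3, hmed⟩ := hRa X Y₂ (F.bb Kt Y) (5 * (N.u ^ 8 * t)) _
    (card_pos.1 (Nat.cast_pos.1 (by linarith : (0 : ℝ) < Y₂.card))) (by positivity) hrb
  have b3' : (Y₂.card : ℝ) ≤ Y₃.card + δ := by
    have h1 : 10 ^ 30 * N.u ^ 100 ≤ N.u ^ 90 := hN.d_gap (by norm_num)
    have h2 : (Y₃.card : ℝ) ≤ Y₂.card := Nat.cast_le.2 (card_le_card s3)
    have h3 : ((Y₂.card : ℝ) - Y₃.card) * (Z.card / 2) ≤ δ * (Z.card / 2) := by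
      rw [hδ]
      exact (mul_le_mul_of_nonneg_left Y2b (sub_nonneg.2 h2)).trans (a3 h1 (hN.d_pw0 100) b3)
    linarith [le_of_mul_le_mul_right h3 (by linarith)]
  obtain ⟨Y', s4, b4, hn, hrow⟩ := hR X ι F Kt Y Y₁ Y₃ N.r (N.u ^ 80 * t) hA.w_lo
    (card_pos.1 (Nat.cast_pos.1 (by linarith : (0 : ℝ) < Y.card))) hm.rw.sub (s3.trans s2) (by
      have : (3 : ℝ) * Y.card ≤ 4 * Y₃.card := by linarith
      exact_mod_cast this) (le_trans (by norm_num) hN.d_r) c0 (fun y hy => by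
      have h1 : (N.q : ℝ) ^ 52 * N.q ≤ N.s := by rw [← pow_succ]; exact hN.d_qs (by norm_num)
      exact (hD.dg y hy).trans
        (a4 h1 (hN.d_uq (by norm_num)) (pow_pos hN.d_q0 52) hsY p80 t0)) hm.nrm
  have b4' : (Y₃.card : ℝ) ≤ Y'.card + δ := by
    have h2 : (2 : ℝ) ^ N.r ≤ 4 ^ N.r := pow_le_pow_left₀ (by norm_num) (by norm_num) _
    linarith [a5 (hN.d_u2 (a := 90) (by norm_num)) h2 (by positivity) p90 b4 hYZ Z0]
  have s1 : Y' ⊆ Y₁ := s4.trans (s3.trans s2)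
  have sY : Y' ⊆ Y := s1.trans hm.rw.sub
  refine ⟨Y', sY, by linarith, 2 * F.bb Kt Y m, sY.trans hS.sub, by linarith, hW, ?_, ?_,
    fun y hy => hG' y (s3 (s4 hy)), (ed_le s1 fun _ _ _ _ _ h => h).trans hom, ek,
    fun y hy => ?_, ?_⟩
  · exact (mul_le_of_le_one_left t0.le (hN.d_pw1 8)).trans hS.t_hi
  · exact hn.trans (mul_le_mul_of_nonneg_left
      (pow_le_pow_left₀ (by positivity) (by linarith) _) (sq_nonneg _))
  · have h1 := abs_le.1 (hrow y hy)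
    have h2 := abs_le.1 (hmed y (s4 hy))
    rw [abs_le]
    constructor <;> linarith [h1.1, h1.2, h2.1, h2.2]
  · have := hbb m (hm.rw.sub (s2 hmm))
    rw [abs_mul, abs_two]
    linarith

end Pool.Agent.MP_ddf486_co.KV
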