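import Pool.Agent.MP_ddf486_co.KV.BasicD
import Pool.Agent.MP_ddf486_co.KV.Idn

/-! Project KV, block D, row SUBU: large subsets of the good set see a small kernel. -/

set_option autoImplicit false
set_option linter.unusedSectionVars false

noncomputable section

namespace Pool.Agent.MP_ddf486_co.KV

open Finset Pool.Agent.MP_6c3157_co.PD Pool.Agent.MP_6c3157_co.PQ

namespace DSubu

theorem pw {x d : ℝ} {r : ℕ} (hr : 1 ≤ r) (hx : 0 ≤ x) (hd : 0 < d) :
    x ≤ d * (1 + x ^ r / d ^ r) := by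
  have h0 : 0 ≤ x ^ r / d ^ r := by positivity
  rcases le_total x d with h | h
  · nlinarith
  · have h1 : 1 ≤ x / d := (one_le_div hd).2 h
    have h2 : x / d ≤ (x / d) ^ r := le_self_pow₀ h1 (by omega)
    rw [div_pow, div_le_iff₀ hd] at h2
    nlinarith

theorem lr2 (h : LR) {X : Type} [DecidableEq X] (U : Finset X) (K : X → X → ℝ) {r : ℕ}
    {c M : ℝ} (hr : 1 ≤ r) (hc : 0 < c)
    (H : ∑ y ∈ U, ∑ z ∈ U.erase y, |K y z| ^ r ≤ M * c ^ r) :
    ∑ y ∈ U, ∑ z ∈ U.erase y, |K y z| ≤ 2 * c * ((U.card : ℝ) ^ 2 + M / 2 ^ r) ∧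
    2 ^ r * (ed U fun y z => 2 * c ≤ |K y z| : ℝ) ≤ M := by
  classical
  obtain ⟨h1, h2⟩ := h (Σ _ : X, X) (U.sigma fun y => U.erase y) (fun a => K a.1 a.2) r c M hr hc
    (by rw [sum_sigma]; exact H)
  rw [sum_sigma] at h1
  have h3 : ((U.sigma fun y => U.erase y).card : ℝ) ≤ (U.card : ℝ) ^ 2 := by
    have := off_const U (f := fun _ _ => (1 : ℝ)) zero_le_one fun _ _ _ _ _ => le_rfl
    rw [card_sigma]
    simpa using this
  refine ⟨h1.trans (mul_le_mul_of_nonneg_left (by linarith) (by positivity)), ?_⟩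
  refine le_trans (le_of_eq ?_) h2
  rw [ed_sum, card_filter, Nat.cast_sum, sum_sigma]
  refine congrArg _ (sum_congr rfl fun y _ => sum_congr rfl fun z _ => ?_)
  by_cases e : 2 * c ≤ |K y z| <;> simp [e]

end DSubu

open DSubu

theorem lrS : LR := by
  classical
  intro α A f r c M hr hc H
  have hp : (0 : ℝ) < c ^ r := pow_pos hc r
  have h2 : (0 : ℝ) < 2 ^ r := by positivity
  constructor
  · refine (sum_le_sum fun a _ => pw (d := 2 * c) hr (abs_nonneg (f a)) (by positivity)).trans ?_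
    rw [← mul_sum, sum_add_distrib, ← sum_div, sum_const, nsmul_eq_mul, mul_one, mul_pow]
    refine mul_le_mul_of_nonneg_left (add_le_add le_rfl ?_) (by positivity)
    rw [div_le_div_iff₀ (by positivity) h2]
    nlinarith
  · have h3 := card_nsmul_le_sum (A.filter fun a => 2 * c ≤ |f a|) (fun a => |f a| ^ r)
      ((2 * c) ^ r) fun a ha => pow_le_pow_left₀ (by positivity) (mem_filter.1 ha).2 r
    have h4 : ∑ a ∈ A.filter fun a => 2 * c ≤ |f a|, |f a| ^ r ≤ ∑ a ∈ A, |f a| ^ r :=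
      sum_le_sum_of_subset_of_nonneg (filter_subset _ _) fun _ _ _ => by positivity
    rw [nsmul_eq_mul, mul_pow] at h3
    refine le_of_mul_le_mul_right ?_ hp
    linarith

theorem subuS (h : LR) : SUBU := by
  classical
  intro N X ι _ _ F Kt Y Y₁ t Wb hN M
  have ht := M.dc.t_pos
  have hr : 1 ≤ N.r := le_trans (by norm_num) hN.d_r
  have hc : 0 < N.u ^ 80 * t := mul_pos (hN.d_pw0 _) ht
  refine ⟨(lr2 h Y₁ _ hr hc M.nrm).2, fun U hU hY => ?_⟩
  have hUY : U ⊆ Y := hU.trans M.rw.sub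
  have hq := hN.d_q0
  obtain ⟨a1, a2⟩ := lr2 h U (F.K0 Y) hr hc
    ((off_mono hU fun _ _ _ _ _ => by positivity).trans M.nrm)
  have hn0 : (0 : ℝ) ≤ U.card := Nat.cast_nonneg _
  have h2r : (0 : ℝ) < 2 ^ N.r := by positivity
  have hY2 : (Y.card : ℝ) ^ 2 ≤ (N.q : ℝ) ^ 82 * (U.card : ℝ) ^ 2 := by
    have := pow_le_pow_left₀ (Nat.cast_nonneg _) hY 2
    rwa [mul_pow, ← pow_mul] at this
  have hU53 : (N.q : ℝ) ^ 53 ≤ U.card := by
    have e1 : (N.q : ℝ) ^ 41 * (N.q : ℝ) ^ 53 ≤ (N.q : ℝ) ^ 41 * U.card := by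
      rw [← pow_add]
      exact ((hN.d_qs (by norm_num)).trans M.dc.big).trans hY
    exact le_of_mul_le_mul_left e1 (by positivity)
  have hn : (0 : ℝ) < U.card := lt_of_lt_of_le (by positivity) hU53
  have b1 : ∑ y ∈ U, ∑ z ∈ U.erase y, |F.K0 Y y z| ≤
      4 * (N.u ^ 80 * t) * (U.card : ℝ) ^ 2 := by
    have e1 : (Y.card : ℝ) ^ 2 / 2 ^ N.r ≤ (U.card : ℝ) ^ 2 := by
      rw [div_le_iff₀ h2r, mul_comm]
      exact hY2.trans (mul_le_mul_of_nonneg_right (hN.d_q2 (by norm_num)) (by positivity))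
    nlinarith
  have hu6 := hN.d_uq (a := 600) (by norm_num)
  refine ⟨b1, ?_, ?_, fun y hy => ?_⟩
  · have e1 := F.disc_eq Y (card_pos.1 (by exact_mod_cast hn))
    rw [full_eq] at e1
    have e2 : ∑ y ∈ U, F.K0 Y y y ≤ U.card * ((N.q : ℝ) ^ 52 * t) := by
      have := sum_le_card_nsmul U (fun y => F.K0 Y y y) _ fun y hy => M.dc.dg y (hUY hy)
      rwa [nsmul_eq_mul] at this
    have e3 : ∑ y ∈ U, ∑ z ∈ U.erase y, F.K0 Y y z ≤ ∑ y ∈ U, ∑ z ∈ U.erase y, |F.K0 Y y z| :=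
      sum_le_sum fun y _ => sum_le_sum fun z _ => le_abs_self _
    have e4 : (N.q : ℝ) ^ 52 ≤ N.u ^ 80 * U.card := by
      have e5 : 1 ≤ N.u ^ 80 * N.q := le_trans (by norm_num) (hN.d_uq (a := 80) (by norm_num))
      have e6 := mul_le_mul_of_nonneg_left hU53 (hN.d_pw0 80).le
      have e7 := mul_le_mul_of_nonneg_right e5 (pow_pos hq 52).le
      have e8 : (N.q : ℝ) ^ 53 = N.q * (N.q : ℝ) ^ 52 := by ring
      rw [e8] at e6
      linarith
    have e9 := mul_le_mul_of_nonneg_left (mul_le_mul_of_nonneg_right e4 ht.le) hn0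
    refine le_of_mul_le_mul_left ?_ (pow_pos hn 2)
    nlinarith
  · have e1 : (∑ y ∈ U, ∑ z ∈ U.erase y, if F.K0 Y y z < -t then
        nu N F Kt Y t Wb (fun _ => True) y z + 1 else 0) ≤
        (∑ y ∈ U, ∑ z ∈ U.erase y, if F.K0 Y y z < -t then
          nu N F Kt Y t Wb (fun _ => True) y z else 0) +
        (ed U fun y z => 2 * (N.u ^ 80 * t) ≤ |F.K0 Y y z| : ℝ) := by
      rw [ed_sum, ← sum_add_distrib]
      refine sum_le_sum fun y _ => ?_
      rw [← sum_add_distrib]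
      refine sum_le_sum fun z _ => ?_
      by_cases e : F.K0 Y y z < -t
      · have g1 := hN.d_gap (a := 0) (b := 80) (by norm_num)
        have g2 := neg_le_abs (F.K0 Y y z)
        have g3 : 2 * (N.u ^ 80 * t) ≤ |F.K0 Y y z| := by
          rw [pow_zero] at g1
          nlinarith
        simp [e, g3]
      · rw [if_neg e, if_neg e, zero_add]
        split_ifs <;> norm_num
    have e2 := off_mono hUY (f := fun y z => if F.K0 Y y z < -t then
      nu N F Kt Y t Wb (fun _ => True) y z else 0) fun y hy z hz _ => by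
        split_ifs
        · exact M.pk.n_lo y hy z hz
        · exact le_rfl
    have e3 := M.tail
    have e0 : (0 : ℝ) ≤ (ed U fun y z => 2 * (N.u ^ 80 * t) ≤ |F.K0 Y y z| : ℕ) :=
      Nat.cast_nonneg _
    have e4 : 0 ≤ ∑ y ∈ Y, ∑ z ∈ Y.erase y, if F.K0 Y y z < -t then
        nu N F Kt Y t Wb (fun _ => True) y z else 0 :=
      sum_nonneg fun y hy => sum_nonneg fun z hz => by
        split_ifs
        · exact M.pk.n_lo y hy z (mem_of_mem_erase hz)
        · exact le_rfl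
    generalize (∑ y ∈ Y, ∑ z ∈ Y.erase y, if F.K0 Y y z < -t then
        nu N F Kt Y t Wb (fun _ => True) y z else 0) = T at e2 e3 e4
    generalize ((ed U fun y z => 2 * (N.u ^ 80 * t) ≤ |F.K0 Y y z| : ℕ) : ℝ) = E at e0 e1 a2
    have e5 := mul_le_mul_of_nonneg_right (hN.d_qp (a := 83) (b := 100) (by norm_num)) e4
    have e6 := mul_le_mul_of_nonneg_right (hN.d_q2 (a := 83) (by norm_num)) e0
    have e7 : (N.q : ℝ) ^ 82 * (N.q * (T + E)) ≤ (N.q : ℝ) ^ 82 * (3 * (U.card : ℝ) ^ 2) := by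
      have e8 : (N.q : ℝ) ^ 83 = (N.q : ℝ) ^ 82 * N.q := by ring
      rw [e8] at e5 e6
      linarith
    have e9 := le_of_mul_le_mul_left e7 (by positivity)
    have e10 := mul_le_mul_of_nonneg_right hu6 (sq_nonneg (U.card : ℝ))
    have e11 : T + E ≤ N.u ^ 600 * (U.card : ℝ) ^ 2 := by
      refine le_of_mul_le_mul_left ?_ hq
      nlinarith [sq_nonneg (U.card : ℝ)]
    linarith
  · have e1 := M.rw.dg y (hU hy)
    have e2 := M.pk.n_lo y (hUY hy) y (hUY hy)
    have e3 := hN.d_qs (a := 42) (by norm_num)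
    have e4 := hN.d_s
    generalize nu N F Kt Y t Wb (fun _ => True) y y = v at e1 e2 ⊢
    have e5 : (N.q : ℝ) ^ 42 / 2 * v ≤ (N.s - 1) * v :=
      mul_le_mul_of_nonneg_right (by linarith) e2
    have e7 : (N.q : ℝ) ^ 41 * (N.q * v) ≤ (N.q : ℝ) ^ 41 * (16 * U.card) := by
      have e8 : (N.q : ℝ) ^ 42 = (N.q : ℝ) ^ 41 * N.q := by ring
      rw [e8] at e5
      linarith
    have e9 := le_of_mul_le_mul_left e7 (by positivity)
    have e10 := mul_le_mul_of_nonneg_right hu6 hn0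
    refine le_of_mul_le_mul_left ?_ hq
    nlinarith

end Pool.Agent.MP_ddf486_co.KV
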