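import Pool.Agent.MP_ddf486_co.KV.BasicD
import Pool.Agent.MP_ddf486_co.KV.Idn

/-! Project KV, block D: the start, the tail and the middle assembly. -/

set_option autoImplicit false
set_option linter.unusedSectionVars false

noncomputable section

namespace Pool.Agent.MP_ddf486_co.KV

open Finset Pool.Agent.MP_6c3157_co.PD Pool.Agent.MP_6c3157_co.PQ

namespace DTop

theorem sZ {N : Nb} (hN : N.Good) {n : ℝ} (h : N.s ^ 2 ≤ 2 * n) : 2 * N.s ≤ n := by
  have := hN.d_s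
  nlinarith

end DTop

open DTop

theorem st0S (hB : BBD) : ST0 := by
  classical
  intro N X ι _ _ F lab Z W Kt η Om Cl Gh hN hA hP
  have hs := sZ hN hP.big
  have s0 := hN.d_s
  have W1 := hA.W_lo
  have hne : Z.Nonempty := card_pos.1 (Nat.cast_pos.1 (by linarith : (0 : ℝ) < Z.card))
  have h100 : 100 ≤ Z.card := by
    have : ((100 : ℕ) : ℝ) ≤ Z.card := by push_cast; linarith
    exact_mod_cast this
  have he : 100 * η ≤ W := by
    have h1 : N.L ≤ N.L ^ 10 := by simpa using hN.d_Lp (a := 1) (b := 10) (by norm_num)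
    have h2 := hA.eta_le
    have h3 := hA.eta_lo
    have h4 := hN.d_L
    nlinarith
  have hq : 100 * (2 * (N.q : ℝ) ^ 51 * W) ≤ W * Z.card := by
    have h1 : (N.q : ℝ) ^ 51 * N.q ≤ N.s := by rw [← pow_succ]; exact hN.d_qs (by norm_num)
    have h2 := pow_pos hN.d_q0 51
    have h3 := hN.d_q
    have h4 : 200 * (N.q : ℝ) ^ 51 ≤ Z.card := by nlinarith
    nlinarith
  obtain ⟨b1, b2⟩ := hB X Z F.OB (F.K0 Z) (F.bb Kt Z) W η _ hA.eta_lo he h100 hq
    (fun y hy z hz e => ⟨F.W_nonneg hA.w_lo _, hA.ob y hy z hz e, hA.idn Z hy hz e⟩)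
    (fun y _ => F.K0_row hne y)
    fun y hy => ⟨(gram_K0 F hA.w_lo Z).diag y, hA.K0_diag Subset.rfl hy⟩
  refine ⟨Subset.rfl, ?_, ?_, le_rfl, ?_, fun y hy => ?_, ?_, by simp, fun y hy => ?_, ?_⟩
  · have := hN.u_pos
    nlinarith
  · have : (1 : ℝ) ≤ N.L ^ 5 := one_le_pow₀ hN.d_L1
    nlinarith
  · rw [mul_comm]
    exact off_const Z (by positivity) fun y hy z hz e =>
      pow_le_pow_left₀ (abs_nonneg _) ((b2 y hy z hz e).trans (by linarith)) _
  · linarith [hA.gh_hi y hy]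
  · rw [ed_sum, zero_mul]
    refine le_of_eq (sum_eq_zero fun y hy => sum_eq_zero fun z hz => if_neg ?_)
    have := hA.om_hi y hy z (mem_of_mem_erase hz) (ne_of_mem_erase hz).symm
    linarith
  · simp only [zero_div, sub_zero]
    linarith [b1 y hy]
  · rw [abs_zero]; linarith

theorem tailS (hC : CTX) (hT : TAILA) : TAIL := by
  classical
  intro N X ι _ _ F lab Z Y W Kt η Om Cl Gh t e Wb a n hN hA hS ha hn
  have w0 := hS.w0_nonneg hN hA
  have hv := hS.v_nonneg hN hA fun _ => True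
  by_cases hY : N.s ≤ Y.card
  swap
  · have : ∀ y z, F.E (N.Wt t) Wb n (hi a y z) Y ≤ 0 := fun y z => by
      have := it_le (S := F.S) (f := hi a y z) (g := fun _ => 0) (T := Y) w0 hv n fun U hU => by
        have h1 : (U.card : ℝ) ≤ Y.card := Nat.cast_le.2 (card_le_card hU)
        exact le_of_eq (if_neg fun hc => by linarith [hc.2.2, not_le.1 hY])
      rwa [it_zero] at this
    refine le_trans (mul_nonpos_of_nonneg_of_nonpos (by positivity) ?_) (sq_nonneg _)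
    refine sum_nonpos fun y _ => sum_nonpos fun z _ => ?_
    split_ifs
    exacts [this y z, le_rfl]
  obtain ⟨hD, -⟩ := hC N X ι F lab Z Y W Kt η Om Cl Gh t e Wb hN hA hS hY
  have q0 := hN.d_q0
  have qb := hN.d_q
  have h8 : (8 * (N.q : ℝ) ^ 52) ^ N.r ≤ a - 1 := by
    have h1 : 8 * (N.q : ℝ) ^ 52 ≤ (N.q : ℝ) ^ 60 := by
      have h2 := hN.d_qp (a := 52 + 1) (b := 60) (by norm_num)
      have h3 := pow_pos q0 52
      rw [pow_succ] at h2
      nlinarith
    have h2 : (8 * (N.q : ℝ) ^ 52) ^ N.r ≤ ((N.q : ℝ) ^ 60) ^ N.r :=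
      pow_le_pow_left₀ (by positivity) h1 _
    have h3 : ((N.q : ℝ) ^ 60) ^ (N.r + 1) ≤ N.s := le_trans (pow_le_pow_right₀
      (one_le_pow₀ hN.d_q1) (Nat.le_mul_of_pos_left _ (by positivity))) hN.sq
    have h4 : (1 : ℝ) ≤ ((N.q : ℝ) ^ 60) ^ N.r := one_le_pow₀ (one_le_pow₀ hN.d_q1)
    have h5 := hN.d_qle (a := 60) (by norm_num)
    rw [pow_succ] at h3
    nlinarith
  have key := hT X Y (F.K0 Y) (fun y z => F.E (N.Wt t) Wb n (hi a y z) Y) N.r t
    ((N.q : ℝ) ^ 52) a (gram_K0 F hA.w_lo Y) (Gram.it w0 hv (gram_hi a) n Y) hN.r_odd hD.t_pos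
    (one_le_pow₀ hN.d_q1) h8 (fun y _ z _ => it_nonneg w0 hv n fun U _ => hi_nonneg _ _ _ _)
    (fun y hy z hz e hK => ?_) (fun y _ => it_diag w0 hv n a y Y) hD.dg hD.nrm
  · have h1 : (5 : ℝ) * (N.q : ℝ) ^ 100 ≤ 8 ^ N.r := by
      have h2 : (2 : ℝ) ^ N.r ≤ 8 ^ N.r := pow_le_pow_left₀ (by norm_num) (by norm_num) _
      have h3 := hN.d_q2 (a := 100 + 1) (by norm_num)
      have h4 := pow_pos q0 100
      rw [pow_succ] at h3
      nlinarith
    have h2 : 0 ≤ ∑ y ∈ Y, ∑ z ∈ Y.erase y,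
        if F.K0 Y y z < -t then F.E (N.Wt t) Wb n (hi a y z) Y else 0 :=
      sum_nonneg fun y _ => sum_nonneg fun z _ => by
        split_ifs
        exacts [it_nonneg w0 hv n fun U _ => hi_nonneg _ _ _ _, le_rfl]
    nlinarith
  · have h1 : F.E (N.Wt t) Wb n (hi a y z) Y ≤
        F.E (N.Wt t) Wb n (fun U => if y ∈ U ∧ z ∈ U then 1 else 0) Y :=
      it_le w0 hv n fun U _ => by linarith [hi_add_lo a y z U, lo_nonneg a y z U]
    rw [F.E_pair, if_pos ⟨hy, hz⟩, mul_one] at h1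
    have h2 := hS.o_hi hN hA hy hz e hK
    have j0 : (0 : ℝ) < N.j := Nat.cast_pos.2 hN.d_j
    have u0 := hN.d_pw0 400
    have h3 : (1 - Wb / N.Wt t + F.OB y z / N.Wt t) ^ n ≤ Real.exp (42 * N.u ^ 400 / N.j) ^ n :=
      pow_le_pow_left₀ (hS.o_nonneg hN hA y z) (h2.trans (by
        linarith [Real.add_one_le_exp (42 * N.u ^ 400 / N.j)])) n
    rw [← Real.exp_nat_mul] at h3
    have h4 : (n : ℝ) * (42 * N.u ^ 400 / N.j) ≤ 1 / 2 := by
      have h5 : (n : ℝ) ≤ 2 ^ 32 * N.j := by exact_mod_cast hn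
      have h6 := hN.d_gap (a := 0) (b := 400) (by norm_num)
      rw [← mul_div_assoc, div_le_iff₀ j0]
      rw [pow_zero] at h6
      nlinarith
    have h5 : Real.exp (1 / 2) ≤ 2 := by
      have h6 := Real.add_one_le_exp (-(1 / 2) : ℝ)
      have h7 : Real.exp (1 / 2) * Real.exp (-(1 / 2)) = 1 := by rw [← Real.exp_add]; simp
      nlinarith [Real.exp_pos (1 / 2 : ℝ)]
    exact h1.trans (h3.trans ((Real.exp_le_exp.2 h4).trans h5))

theorem midS (h1 : NUK1) (h2 : NUB2) (h3 : KLEM) : MID := by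
  classical
  intro N X ι _ _ F Kt Y t Wb hN hD hT hy
  obtain ⟨hP, hb⟩ := h1 N X ι F Kt Y t Wb hN hD
  have s0 := hN.d_s
  have hs := hD.big
  have q0 := hN.d_q0
  have hne : Y.Nonempty := card_pos.1 (Nat.cast_pos.1 (by linarith : (0 : ℝ) < Y.card))
  have u0 := hN.d_pw0 1000
  have uq := hN.d_uq (a := 1000) (by norm_num)
  have tl : (N.q : ℝ) ^ 100 * (∑ y ∈ Y, ∑ z ∈ Y.erase y,
      if F.K0 Y y z < -t then nu N F Kt Y t Wb (fun _ => True) y z else 0) ≤
      2 * (Y.card : ℝ) ^ 2 := by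
    refine le_trans (mul_le_mul_of_nonneg_left (b := _) (c := 2 * ∑ y ∈ Y, ∑ z ∈ Y.erase y,
      if F.K0 Y y z < -t then F.E (N.Wt t) Wb N.j (hi N.s y z) Y else 0) ?_ (by positivity))
      (by linarith)
    simp only [mul_sum]
    refine sum_le_sum fun y hy => sum_le_sum fun z hz => ?_
    split_ifs
    exacts [(hb y hy z (mem_of_mem_erase hz)).1, by simp]
  obtain ⟨Y₁, hR, hbig⟩ := h2 X Y _ _ _ N.u t N.s ((N.q : ℝ) ^ 52) N.r hP hN.u_pos hN.u_le
    hD.t_pos (le_trans (by norm_num) (hN.d_u2 (by norm_num))) (by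
      have := (hN.d_qle (a := 1) le_rfl).trans (hN.d_qs (by norm_num))
      have := hN.d_pw1 1000
      nlinarith) hs (by
      have h4 : (N.q : ℝ) ^ 52 * N.q ≤ N.s := by rw [← pow_succ]; exact hN.d_qs (by norm_num)
      have h5 := pow_pos q0 52
      nlinarith) (fun y _ => F.K0_row hne y) hD.dg hD.nrm (by
      have h4 := hN.d_qle (a := 100) (by norm_num)
      have h5 : 2 ≤ N.u ^ 1000 * (N.q : ℝ) ^ 100 := by nlinarith
      refine le_of_mul_le_mul_left (tl.trans ?_) (pow_pos q0 100)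
      nlinarith [sq_nonneg (Y.card : ℝ)]) (by
      refine le_trans (b := 2 * tiny N F Y t Wb) ?_ (by linarith)
      simp only [tiny, mul_sum]
      refine sum_le_sum fun y hy => sum_le_sum fun z hz => ?_
      split_ifs
      exacts [(hb y hy z (mem_of_mem_erase hz)).2, by simp])
  exact ⟨Y₁, hD, hP, hR, hbig, tl, h3 N X Y Y₁ _ _ _ t hN hP hR hD.t_pos hs hD.dg hD.off⟩

end Pool.Agent.MP_ddf486_co.KV
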