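import Pool.Agent.MP_ddf486_co.KV.SpecE2

/-! Project KV, row DEADS: the mass of the dead edges. -/

set_option autoImplicit false
set_option linter.unusedSectionVars false

noncomputable section

namespace Pool.Agent.MP_ddf486_co.KV

open Finset Pool.Agent.MP_6c3157_co.PD Pool.Agent.MP_6c3157_co.PQ

namespace Deads

variable {X ι : Type} [DecidableEq X] [Fintype ι] {D : Dat X ι}

theorem sg_le {f g : X → X → ℝ}
    (h : ∀ x ∈ D.Y, ∀ y ∈ D.Y.erase x, y ∈ D.cl x y → f x y ≤ g x y) : D.sg f ≤ D.sg g := by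
  refine sum_le_sum fun x hx => sum_le_sum fun y hy => ?_
  split_ifs with hc
  exacts [h x hx y hy hc, le_rfl]

theorem sg_add (f g : X → X → ℝ) : D.sg (fun x y => f x y + g x y) = D.sg f + D.sg g := by
  unfold Dat.sg
  rw [← sum_add_distrib]
  refine sum_congr rfl fun x _ => ?_
  rw [← sum_add_distrib]
  refine sum_congr rfl fun y _ => ?_
  split_ifs
  exacts [rfl, (add_zero _).symm]

theorem sg_mul (b : ℝ) (f : X → X → ℝ) : D.sg (fun x y => b * f x y) = b * D.sg f := by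
  unfold Dat.sg
  rw [mul_sum]
  refine sum_congr rfl fun x _ => ?_
  rw [mul_sum]
  refine sum_congr rfl fun y _ => ?_
  split_ifs
  exacts [rfl, (mul_zero _).symm]

theorem sg_const {b : ℝ} (hb : 0 ≤ b) : D.sg (fun _ _ => b) ≤ b * (D.Y.card : ℝ) ^ 2 := by
  refine (sum_le_card_nsmul _ _ (D.Y.card * b) fun x _ => ?_).trans (le_of_eq ?_)
  · refine (sum_le_card_nsmul _ _ b fun y _ => ?_).trans ?_
    · split_ifs
      exacts [le_rfl, hb]
    · rw [nsmul_eq_mul]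
      gcongr
      exact erase_subset _ _
  · rw [nsmul_eq_mul]; ring

theorem E_nonneg (h : D.Good) (n : ℕ) (a : ℝ) (x y : X) : 0 ≤ D.E n (lo a x y) D.Y :=
  it_nonneg h.w0_nonneg h.v_nonneg n fun U _ => lo_nonneg a x y U

theorem num1 {u : ℝ} (h0 : 0 < u) (h1 : u ≤ 1 / 10 ^ 30) :
    40 * (2 ^ 31 * 100 * u ^ 400) ^ 2 / (u ^ 40) ^ 2 ≤ u ^ 700 / 2 := by
  rw [div_le_iff₀ (by positivity)]
  have a1 : u ^ 20 ≤ u := by
    simpa using pow_le_pow_of_le_one h0.le (h1.trans (by norm_num)) (show 1 ≤ 20 by norm_num)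
  have a2 : 0 ≤ u ^ 780 := by positivity
  calc _ = 40 * (2 ^ 31 * 100) ^ 2 * u ^ 20 * u ^ 780 := by ring
    _ ≤ 1 / 2 * u ^ 780 := mul_le_mul_of_nonneg_right (by linarith) a2
    _ = _ := by ring

theorem num2 {u : ℝ} (h0 : 0 < u) (h1 : u ≤ 1 / 10 ^ 30) :
    2 * (2 ^ 31 * 100 * u ^ 400) * 2 ≤ u ^ 40 := by
  have a1 : u ^ 360 ≤ u := by
    simpa using pow_le_pow_of_le_one h0.le (h1.trans (by norm_num)) (show 1 ≤ 360 by norm_num)
  have a2 : 0 ≤ u ^ 40 := by positivity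
  calc _ = 2 * (2 ^ 31 * 100) * 2 * u ^ 360 * u ^ 40 := by ring
    _ ≤ 1 * u ^ 40 := mul_le_mul_of_nonneg_right (by linarith) a2
    _ = _ := one_mul _

theorem num3 {u : ℝ} (h0 : 0 < u) (h1 : u ≤ 1 / 10 ^ 30) : u ^ 800 ≤ u ^ 700 / 2 := by
  have a1 : u ^ 100 ≤ u := by
    simpa using pow_le_pow_of_le_one h0.le (h1.trans (by norm_num)) (show 1 ≤ 100 by norm_num)
  have a2 : 0 ≤ u ^ 700 := by positivity
  calc _ = u ^ 100 * u ^ 700 := by ring
    _ ≤ 1 / 2 * u ^ 700 := mul_le_mul_of_nonneg_right (by linarith) a2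
    _ = _ := by ring

/-- more steps lose at most a factor two on a good edge -/
theorem more2 (h3 : MORE) (h : D.Good) {m : ℕ} (hm : m + 1 ≤ 2 ^ 31 * D.N.j) (a : ℝ) {x y : X}
    (hx : x ∈ D.Y) (hy : y ∈ D.Y.erase x) (hc : y ∈ D.cl x y) :
    D.E m (lo a x y) D.Y ≤ 2 * D.E (2 * (m + 1)) (lo a x y) D.Y := by
  have k := (h3 X ι a D.w0 D.v D.F.S m x y D.Y h.w0_nonneg h.v_nonneg).1 (m + 2)
  have p := h.pow_lo hx (mem_of_mem_erase hy) (ne_of_mem_erase hy).symm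
    (abs_le.1 (h.typ x _ y hc)).2 (n := m + 2) (by omega)
  have o : 0 ≤ D.w0 + ob D.v D.F.S x y := add_nonneg h.w0_nonneg (sum_nonneg fun i _ => by
    split_ifs
    exacts [h.v_nonneg i, le_rfl])
  have p' := p.trans (pow_le_pow_left₀ (le_min o zero_le_one) (min_le_left _ _) (m + 2))
  have e := E_nonneg h m a x y
  rw [show m + (m + 2) = 2 * (m + 1) by ring] at k
  have k' := (mul_le_mul_of_nonneg_right p' e).trans k
  unfold Dat.E at e ⊢
  unfold Dat.E at k'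
  linarith

/-- one good edge -/
theorem edge (h1 : DEAD1) (h3 : MORE) (h : D.Good) {m : ℕ} (hm : m + 1 ≤ 2 ^ 31 * D.N.j)
    (a a' : ℝ) {x y : X} (hx : x ∈ D.Y) (hy : y ∈ D.Y.erase x) (hc : y ∈ D.cl x y) :
    D.E (m + 1) (dead a (D.N.u ^ 40 * (D.cl x y).card) (D.cl x y) x y) D.Y ≤
      D.N.u ^ 700 / 2 + D.N.u ^ 40 * D.E (2 * (m + 1)) (lo a' x y) D.Y +
        (m + 1) * D.E m (mirc D.v D.F.S a a' (D.N.u ^ 40) (D.cl x y) x y) D.Y := by
  have u0 := h.nb.u_pos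
  have u1 := h.nb.u_le
  have j0 := h.nb.j_pos
  have z1 : D.N.u ^ 40 ≤ 1 / 100 := by
    have := h.nb.pow_le (show 1 ≤ 40 by norm_num)
    rw [pow_one] at this
    linarith
  have l1 : ((m : ℝ) + 1) * los D.v D.F.S (D.cl x y) x y ≤
      2 ^ 31 * 100 * D.N.u ^ 400 * (D.cl x y).card := by
    have b1 : (m : ℝ) + 1 ≤ 2 ^ 31 * D.N.j := by exact_mod_cast hm
    calc _ ≤ ((m : ℝ) + 1) * (100 * D.N.u ^ 400 / D.N.j * (D.cl x y).card) :=
          mul_le_mul_of_nonneg_left (h.los_le hc) (by positivity)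
      _ ≤ (2 ^ 31 * D.N.j) * (100 * D.N.u ^ 400 / D.N.j * (D.cl x y).card) :=
          mul_le_mul_of_nonneg_right b1 (by positivity)
      _ = _ := by field_simp
  have p := h.pow_hi hx (mem_of_mem_erase hy) (ne_of_mem_erase hy).symm
    (abs_le.1 (h.typ x _ y hc)).1 (n := m + 1) (by omega)
  have k := h1 X ι a a' D.w0 D.v D.F.S m (D.cl x y) x y D.Y (D.N.u ^ 40)
    (2 ^ 31 * 100 * D.N.u ^ 400) h.w0_nonneg h.v_nonneg (by positivity) z1 ⟨y, hc⟩
    ((h.cl_sub x _).trans (erase_subset _ _)) l1 (p.trans (by norm_num))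
  refine k.trans (add_le_add (add_le_add (num1 u0 u1) ?_) le_rfl)
  calc _ ≤ 2 * (2 ^ 31 * 100 * D.N.u ^ 400) * (2 * D.E (2 * (m + 1)) (lo a' x y) D.Y) :=
        mul_le_mul_of_nonneg_left (more2 h3 h hm a' hx hy hc) (by positivity)
    _ = 2 * (2 ^ 31 * 100 * D.N.u ^ 400) * 2 * D.E (2 * (m + 1)) (lo a' x y) D.Y := by ring
    _ ≤ _ := mul_le_mul_of_nonneg_right (num2 u0 u1) (E_nonneg h _ _ _ _)

end Deads

open Deads in
theorem deads (h1 : DEAD1) (h2 : MIRS) (h3 : MORE) : DEADS := by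
  intro X ι _ _ D a n h ha hn1 hn
  obtain ⟨m, rfl⟩ : ∃ m, n = m + 1 := ⟨n - 1, by omega⟩
  have u0 := h.nb.u_pos
  have k := sg_le fun x hx y hy hc => edge h1 h3 h hn a (a * (D.N.q : ℝ) ^ 60) hx hy hc
  rw [sg_add, sg_add, sg_mul, sg_mul] at k
  have k2 := h2 X ι D a m h ha hn
  have k3 := sg_const (D := D) (b := D.N.u ^ 700 / 2) (by positivity)
  have k4 := mul_le_mul_of_nonneg_right (num3 u0 h.nb.u_le) (sq_nonneg (D.Y.card : ℝ))
  have k5 : 0 ≤ D.N.u ^ 40 * D.Fg (2 * (m + 1)) (a * (D.N.q : ℝ) ^ 60) := by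
    refine mul_nonneg (by positivity) (sum_nonneg fun x _ => sum_nonneg fun y _ => ?_)
    split_ifs
    exacts [E_nonneg h _ _ _ _, le_rfl]
  unfold Dat.Fg at k2 k5 ⊢
  linarith

end Pool.Agent.MP_ddf486_co.KV
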