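import Pool.Agent.MP_ddf486_co.KV.SpecE2

/-! Project KV, block E: the two tops from the rows. -/

set_option autoImplicit false
set_option linter.unusedSectionVars false

noncomputable section

namespace Pool.Agent.MP_ddf486_co.KV

open Finset Pool.Agent.MP_6c3157_co.PD Pool.Agent.MP_6c3157_co.PQ

namespace GlueE

variable {X ι : Type} [DecidableEq X] [Fintype ι] {D : Dat X ι}

theorem lo_mass (h : D.Good) {x y : X} (hx : x ∈ D.Y) (hy : y ∈ D.Y.erase x)
    (hK : |D.F.K0 D.Y x y| ≤ D.t) (a : ℝ) {n : ℕ} (hn : n ≤ 2 ^ 32 * D.N.j) :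
    D.E n (lo a x y) D.Y ≤ 101 / 100 := by
  have h1 : D.E n (lo a x y) D.Y ≤ D.E n (fun U => if x ∈ U ∧ y ∈ U then 1 else 0) D.Y :=
    it_le h.w0_nonneg h.v_nonneg n fun U _ => by
      linarith [hi_add_lo a x y U, hi_nonneg a x y U]
  refine h1.trans ?_
  unfold Dat.E
  rw [it_pair, if_pos ⟨hx, mem_of_mem_erase hy⟩, mul_one]
  refine le_trans (pow_le_pow_left₀ ?_ (le_max_left _ 1) n)
    (h.pow_hi hx (mem_of_mem_erase hy) (ne_of_mem_erase hy).symm (abs_le.1 hK).1 hn)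
  exact add_nonneg h.w0_nonneg (sum_nonneg fun i _ => by
    split_ifs; exacts [h.v_nonneg i, le_rfl])

theorem Fg_le (h : D.Good) (a : ℝ) {n : ℕ} (hn : n ≤ 2 ^ 32 * D.N.j) :
    D.Fg n a ≤ 101 / 100 * (D.Y.card : ℝ) ^ 2 := by
  have h1 : ∀ x ∈ D.Y, (∑ y ∈ D.Y.erase x, if y ∈ D.cl x y then D.E n (lo a x y) D.Y else 0) ≤
      D.Y.card * (101 / 100) := fun x hx => by
    have := sum_le_card_nsmul (D.Y.erase x)
      (fun y => if y ∈ D.cl x y then D.E n (lo a x y) D.Y else 0) (101 / 100) fun y hy => by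
        split_ifs with k
        · exact lo_mass h hx hy (h.typ _ _ y k) a hn
        · norm_num
    rw [nsmul_eq_mul] at this
    refine this.trans (mul_le_mul_of_nonneg_right ?_ (by norm_num))
    exact_mod_cast card_le_card (erase_subset _ _)
  have := sum_le_card_nsmul _ _ _ h1
  rw [nsmul_eq_mul] at this
  exact this.trans (le_of_eq (by ring))

theorem tiny_le (h : D.Good) : tiny D.N D.F D.Y D.t D.Wb ≤
    D.Fg D.N.j D.N.s + 101 / 100 * D.sj fun _ _ => 1 := by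
  have hj : D.N.j ≤ 2 ^ 32 * D.N.j := Nat.le_mul_of_pos_left _ (by norm_num)
  unfold tiny Dat.Fg Dat.sg Dat.sj
  rw [mul_sum, ← sum_add_distrib]
  refine sum_le_sum fun x hx => ?_
  rw [mul_sum, ← sum_add_distrib]
  refine sum_le_sum fun y hy => ?_
  have n0 : 0 ≤ D.E D.N.j (lo D.N.s x y) D.Y :=
    it_nonneg h.w0_nonneg h.v_nonneg _ fun U _ => lo_nonneg _ _ _ _
  rw [← D.E_eq]
  by_cases k : y ∈ D.cl x y <;> by_cases k' : |D.F.K0 D.Y x y| ≤ D.t <;> simp only [k, k', if_true,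
    if_false, mul_zero, add_zero, zero_add, mul_one, le_refl, n0]
  · exact lo_mass h hx hy k' _ hj
  · norm_num

theorem recur {u n : ℝ} {F : ℕ → ℝ} (u0 : 0 < u) (u1 : u ≤ 1 / 10 ^ 30) (n0 : 0 < n)
    (f0 : u ^ 600 * n / 2 ≤ F 0)
    (st : ∀ a < 31, u * F a ≤ 800 * u ^ 40 * F (a + 1) + 3 * (u ^ 700 * n))
    (top : F 31 ≤ 101 / 100 * n) : False := by
  have u2 : u ≤ 1 := u1.trans (by norm_num)
  have pl : ∀ a b : ℕ, a < b → u ^ b ≤ u ^ a / 10 ^ 30 := fun a b hab => by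
    have h1 : u ^ b ≤ u ^ (a + 1) := pow_le_pow_of_le_one u0.le u2 hab
    have h2 := mul_le_mul_of_nonneg_left u1 (pow_pos u0 a).le
    rw [pow_succ] at h1
    linarith
  have e1 : u ^ 700 ≤ u * u ^ 600 / 10 ^ 30 := by rw [← pow_succ']; exact pl _ _ (by norm_num)
  have e2 : u ^ 40 ≤ u * u ^ 20 / 10 ^ 30 := by rw [← pow_succ']; exact pl _ _ (by norm_num)
  have e3 : u ^ (20 * 31) ≤ u ^ 600 / 10 ^ 30 := pl _ _ (by norm_num)
  have p40 := pow_pos u0 40
  have p20 := pow_pos u0 20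
  have p600 := pow_pos u0 600
  have p620 := pow_pos u0 (20 * 31)
  have key : ∀ a ≤ 31, u ^ 600 * n / 2 ≤ u ^ (20 * a) * F a := by
    intro a
    induction a with
    | zero => intro _; simpa using f0
    | succ a ih =>
      intro ha
      have ih := ih (by omega)
      have d := st a (by omega)
      have g0 : 0 < u ^ (20 * a) := by positivity
      have g1 : u ^ (20 * a) ≤ 1 := pow_le_one₀ u0.le u2
      have g4 : u ^ (20 * (a + 1)) = u ^ (20 * a) * u ^ 20 := by rw [mul_add, pow_add]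
      rw [g4, mul_assoc]
      refine ih.trans (mul_le_mul_of_nonneg_left ?_ g0.le)
      generalize u ^ 700 = x7 at *
      generalize u ^ 600 = x6 at *
      generalize u ^ 40 = x4 at *
      generalize u ^ 20 = x2 at *
      generalize u ^ (20 * a) = g at *
      generalize F a = A at *
      generalize F (a + 1) = B at *
      have m0 := mul_pos p600 n0
      have A0 : 0 < A := by
        by_contra k
        have := mul_nonpos_of_nonneg_of_nonpos g0.le (not_lt.1 k)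
        linarith
      have A1 : x6 * n / 2 ≤ A := ih.trans (mul_le_of_le_one_left A0.le g1)
      have c1 := mul_le_mul_of_nonneg_right e1 n0.le
      have c2 := mul_le_mul_of_nonneg_left A1 u0.le
      have c3 := mul_pos u0 A0
      have g2 : u * A ≤ 1600 * (x4 * B) := by linarith
      have B0 : 0 < B := by
        by_contra k
        have := mul_nonpos_of_nonneg_of_nonpos p40.le (not_lt.1 k)
        linarith
      have c4 := mul_le_mul_of_nonneg_right e2 B0.le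
      have c5 := mul_pos (mul_pos u0 p20) B0
      exact le_of_mul_le_mul_left (by linarith) u0
  have k1 := key 31 le_rfl
  have k3 := mul_le_mul_of_nonneg_left top p620.le
  have k4 := mul_le_mul_of_nonneg_right e3 n0.le
  have k5 := mul_pos p600 n0
  generalize u ^ 600 = x6 at *
  generalize u ^ (20 * 31) = g at *
  linarith

theorem start (h : D.Good)
    (hc : D.N.u ^ 600 * (D.Y.card : ℝ) ^ 2 < tiny D.N D.F D.Y D.t D.Wb) :
    D.N.u ^ 600 * (D.Y.card : ℝ) ^ 2 / 2 ≤ D.Fg D.N.j D.N.s := by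
  have hN := h.nb
  have t1 := tiny_le h
  have p6 := pow_pos hN.u_pos 600
  have a1 := hN.uL' (a := 600) (by norm_num)
  have a2 : D.N.L ^ 2 ≤ D.N.L ^ 15 := hN.L_pow_le (by norm_num)
  have a3 := hN.L_big
  have a4 := h.junk
  have a5 := pow_pos hN.L_pos 15
  have a6 : (0 : ℝ) ≤ (D.Y.card : ℝ) ^ 2 := by positivity
  generalize D.N.u ^ 600 = x at *
  generalize D.N.L ^ 15 = l at *
  generalize (D.Y.card : ℝ) ^ 2 = n at *
  have b1 : 4 ≤ x * l := by nlinarith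
  have b2 : D.sj (fun _ _ => 1) ≤ x * n / 4 :=
    le_of_mul_le_mul_left (a4.trans (by nlinarith)) a5
  nlinarith

theorem sizes (h : D.Good) {a : ℕ} (ha : a < 31) :
    D.N.s ≤ D.N.s * ((D.N.q : ℝ) ^ 60) ^ a ∧ D.N.s * ((D.N.q : ℝ) ^ 60) ^ a ≤ D.N.s ^ 2 ∧
      D.N.s * ((D.N.q : ℝ) ^ 60) ^ a < D.Y.card := by
  have hN := h.nb
  have s0 := hN.s_big
  have b1 : (1 : ℝ) ≤ ((D.N.q : ℝ) ^ 60) ^ a := one_le_pow₀ (one_le_pow₀ hN.one_le_q)
  have b2 : 5 * ((D.N.q : ℝ) ^ 60) ^ a ≤ D.N.s := by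
    rw [← pow_mul]
    have c1 : (D.N.q : ℝ) ^ (60 * a) * D.N.q ≤ (D.N.q : ℝ) ^ 2000 := by
      rw [← pow_succ]; exact hN.q_pow_le (by omega)
    have c2 := hN.q_big
    have c3 : 0 ≤ (D.N.q : ℝ) ^ (60 * a) := by positivity
    have c4 := hN.sq'
    generalize (D.N.q : ℝ) ^ 2000 = x at *
    nlinarith
  have b3 := h.Y_big
  generalize ((D.N.q : ℝ) ^ 60) ^ a = x at *
  refine ⟨by nlinarith, by nlinarith, by nlinarith⟩

theorem jmp_of (h2 : DEADS) (h3 : STPS) (h : D.Good) :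
    tiny D.N D.F D.Y D.t D.Wb ≤ D.N.u ^ 600 * (D.Y.card : ℝ) ^ 2 := by
  by_contra hc
  have hN := h.nb
  have Y0 : (0 : ℝ) < D.Y.card := by nlinarith [h.Y_big, hN.s_big]
  refine recur (F := fun a => D.Fg (2 ^ a * D.N.j) (D.N.s * ((D.N.q : ℝ) ^ 60) ^ a)) hN.u_pos
    hN.u_le (pow_pos Y0 2) ?_ (fun a ha => ?_) (Fg_le h _ (by omega))
  · simpa only [pow_zero, one_mul, mul_one] using start h (not_le.1 hc)
  · obtain ⟨b1, b2, b3⟩ := sizes h ha
    have b4 : 2 ^ a * D.N.j ≤ 2 ^ 31 * D.N.j :=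
      Nat.mul_le_mul_right _ (Nat.pow_le_pow_right (by norm_num) (by omega))
    have b5 : 1 ≤ 2 ^ a * D.N.j := Nat.mul_pos (by positivity) (by exact_mod_cast hN.j_pos)
    have d1 := h2 X ι D _ _ h b1 b5 b4
    have d2 := h3 X ι D _ (2 ^ a * D.N.j) h b1 b2 b3 (by omega)
    rw [← mul_assoc 2, ← pow_succ', mul_assoc D.N.s, ← pow_succ] at d1
    linarith

end GlueE

open GlueE in
theorem jmp (h1 : CL1) (h2 : DEADS) (h3 : STPS) : JMP := by
  intro N X ι _ _ F lab Z Y W Kt η Om Cl Gh t e Wb hN hA hP hS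
  obtain ⟨c, rp, h⟩ := h1 N X ι F lab Z Y W Kt η Om Cl Gh t e Wb hN hA hP hS
  have := jmp_of h2 h3 h
  dsimp only at this
  exact this

namespace GlueE

theorem steps {u L W t Wt j x y : ℝ} (L1 : 10 ^ 30 ≤ L) (W1 : 1 ≤ W) (t0 : 0 < t) (w0 : 0 < Wt)
    (x0 : 0 < x) (a1 : 1600 ≤ x * L) (a2 : 1 ≤ y * L) (y0 : 0 < y) (jl : L ^ 3 ≤ j)
    (jt : j * t ≤ Wt) (b1 : Wt * y = j * t) (ht : t * L ^ 4 ≤ W) (_hu : 0 < u) :
    ∃ n : ℕ, 4 * L * Wt ≤ n * (x * W) ∧ 200 * L ^ 2 * (n * t) ≤ Wt ∧ (n : ℝ) ≤ j := by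
  have L0 : 0 < L := by linarith
  have d0 : 0 < x * W := by positivity
  obtain ⟨n, n1, n2⟩ : ∃ n : ℕ, 4 * L * Wt ≤ n * (x * W) ∧ n * (x * W) ≤ 4 * L * Wt + x * W := by
    refine ⟨⌈4 * L * Wt / (x * W)⌉₊, (div_le_iff₀ d0).1 (Nat.le_ceil _), ?_⟩
    have := (Nat.ceil_lt_add_one (a := 4 * L * Wt / (x * W)) (by positivity)).le
    have := mul_le_mul_of_nonneg_right this d0.le
    rwa [add_mul, one_mul, div_mul_cancel₀ _ d0.ne'] at this
  have hi : 200 * L ^ 2 * (n * t) ≤ Wt := by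
    have c1 : 400 * L ^ 2 * t ≤ Wt := by
      have c2 := mul_le_mul_of_nonneg_right (show 400 ≤ L by linarith)
        (mul_pos (pow_pos L0 2) t0).le
      have c3 := mul_le_mul_of_nonneg_right jl t0.le
      have c4 : L * (L ^ 2 * t) = L ^ 3 * t := by ring
      linarith
    have b2 : 1600 * (L ^ 3 * t) ≤ x * W := by
      have c1 := mul_le_mul_of_nonneg_right a1 (mul_pos (pow_pos L0 3) t0).le
      have c2 := mul_le_mul_of_nonneg_left ht x0.le
      have c3 : x * L * (L ^ 3 * t) = x * (t * L ^ 4) := by ring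
      linarith
    refine le_of_mul_le_mul_right ?_ d0
    have c2 := mul_le_mul_of_nonneg_left n2 (show 0 ≤ 200 * L ^ 2 * t by positivity)
    have c3 := mul_le_mul_of_nonneg_right c1 d0.le
    have c4 := mul_le_mul_of_nonneg_left b2 w0.le
    have c5 : 200 * L ^ 2 * (n * t) * (x * W) = 200 * L ^ 2 * t * (n * (x * W)) := by ring
    have c6 : 200 * L ^ 2 * t * (4 * L * Wt + x * W) =
        Wt * (1600 * (L ^ 3 * t)) / 2 + 400 * L ^ 2 * t * (x * W) / 2 := by ring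
    linarith
  refine ⟨n, n1, hi, ?_⟩
  have b3 := mul_le_mul_of_nonneg_right hi y0.le
  have b4 : 1 ≤ 200 * L ^ 2 * y := by nlinarith
  have b5 := mul_le_mul_of_nonneg_right b4 (mul_nonneg (Nat.cast_nonneg (α := ℝ) n) t0.le)
  have b6 : 200 * L ^ 2 * y * (n * t) = 200 * L ^ 2 * (n * t) * y := by ring
  exact le_of_mul_le_mul_right (by linarith) t0

theorem los_of {X ι : Type} [DecidableEq X] [Fintype ι] {D : Dat X ι} (h2 : LOS1) (h3 : LOS2)
    (h : D.Good) (ht : D.t * D.N.L ^ 4 ≤ D.W)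
    (hT : tiny D.N D.F D.Y D.t D.Wb ≤ D.N.u ^ 600 * (D.Y.card : ℝ) ^ 2) : False := by
  have hN := h.nb
  have u0 := hN.u_pos
  have u1 := hN.u_le
  have a1 : 1600 ≤ D.N.u ^ 10 * D.N.L := by
    have b1 := hN.uL' (a := 10 + 1) (by norm_num)
    have b3 : 0 < D.N.u ^ 10 * D.N.L := mul_pos (pow_pos u0 _) hN.L_pos
    have b4 := mul_le_mul_of_nonneg_left u1 b3.le
    rw [pow_succ, mul_right_comm] at b1
    linarith
  obtain ⟨n, n1, n2, n3⟩ := steps hN.L_big h.am.W_lo h.t_pos h.Wt_pos (pow_pos u0 10) a1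
    (hN.uL' (a := 400) (by norm_num)) (pow_pos u0 _)
    ((hN.L_pow_le (show 3 ≤ 10 by norm_num)).trans hN.j_lo)
    (le_div_self (mul_pos hN.j_pos h.t_pos).le (pow_pos u0 _) (hN.pow_le_one _))
    (div_mul_cancel₀ _ (pow_pos u0 _).ne') ht u0
  have hl : Nl D n := ⟨n1, n2, by exact_mod_cast n3⟩
  have l3 := (h2 X ι D n h hl hT).trans (h3 X ι D n h hl)
  have z0 : (0 : ℝ) < D.Z.card := by nlinarith [h.pot.big, hN.s_big]
  have p := mul_pos hN.psi_pos (pow_pos z0 2)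
  have l4 : (1 + 100 * D.N.u) * (1 - 5 * D.N.u) ≤ 1 + 10 * D.N.u :=
    le_of_mul_le_mul_right (by linarith) p
  nlinarith

end GlueE

open GlueE in
theorem losT (h1 : CL1) (h2 : LOS1) (h3 : LOS2) : LOS := by
  intro N X ι _ _ F lab Z Y W Kt η Om Cl Gh t e Wb hN hA hP hS ht hT
  obtain ⟨c, rp, h⟩ := h1 N X ι F lab Z Y W Kt η Om Cl Gh t e Wb hN hA hP hS
  exact los_of h2 h3 h (by dsimp only; exact ht) (by dsimp only; exact hT)

end Pool.Agent.MP_ddf486_co.KV
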