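import Pool.Agent.MP_ddf486_co.KV.Defs

/-! Project KV: the basic inequalities for the height of a point seen from an edge. -/

set_option autoImplicit false
set_option linter.unusedSectionVars false

noncomputable section

namespace Pool.Agent.MP_ddf486_co.KV

open Finset Pool.Agent.MP_6c3157_co.PD Pool.Agent.MP_6c3157_co.PQ

namespace Ht

theorem lp_le {a t : ℝ} (h0 : 0 ≤ a) (ht : 0 ≤ t) (h : a ≤ Real.exp t) : max 0 (Real.log a) ≤ t := by
  refine max_le ht ?_
  rcases h0.eq_or_lt with e | e
  · rw [← e, Real.log_zero]; exact ht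
  · exact (Real.log_le_iff_le_exp e).2 h

theorem le_lp {a b : ℝ} (hb : 0 < b) : a ≤ Real.exp (max 0 (Real.log (a / b))) * b := by
  rw [← div_le_iff₀ hb]
  exact (Real.le_exp_log _).trans (Real.exp_le_exp.2 (le_max_right _ _))

variable {X : Type} [DecidableEq X] {c : Cells X}

theorem d_pos (h : c.Good) {x y : X} (n : x ≠ y) : 0 < c.d x y :=
  lt_of_lt_of_le (by have := h.rlo_pos; positivity) (h.d_lo x y n)

theorem d_nn (h : c.Good) (x y : X) : 0 ≤ c.d x y := by
  by_cases n : x = y
  · rw [n, h.d_self]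
  · exact (d_pos h n).le

theorem xi_nn (h : c.Good) : 0 ≤ c.xi := h.eta_lo.trans h.eta_hi

theorem lam_le (h : c.Good) : c.lam ≤ Real.exp c.xi :=
  (Real.log_le_iff_le_exp (by linarith [h.lam_lo])).1 h.log_lam

/-- the triangle inequality in exponential form -/
theorem tri (h : c.Good) (x y z : X) {r a b : ℝ} (hr : 0 ≤ r) (ha : 0 ≤ a) (hb : 0 ≤ b)
    (h1 : c.d x y ≤ Real.exp a * r) (h2 : c.d y z ≤ Real.exp b * r) :
    c.d x z ≤ Real.exp (c.xi + max a b) * r := by
  refine (h.d_tri x y z).trans ?_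
  rw [Real.exp_add, mul_assoc]
  exact mul_le_mul (lam_le h) (max_le
    (h1.trans (mul_le_mul_of_nonneg_right (Real.exp_le_exp.2 (le_max_left _ _)) hr))
    (h2.trans (mul_le_mul_of_nonneg_right (Real.exp_le_exp.2 (le_max_right _ _)) hr)))
    ((d_nn h x y).trans (le_max_left _ _)) (Real.exp_pos _).le

end Ht

open Ht

variable {X PL : Type} [DecidableEq X] [Fintype PL] {s : Sys X PL}

theorem ht_nonneg (hs : s.Good) (x y z : X) : 0 ≤ ht s x y z :=
  sum_nonneg fun p _ => mul_nonneg (hs.m_lo p) (le_max_left _ _)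

theorem ht_left (hs : s.Good) (x y : X) : ht s x y x = 0 :=
  sum_eq_zero fun p _ => by rw [(hs.good p).d_self]; simp

theorem ht_right (x y : X) : ht s x y y = 0 :=
  sum_eq_zero fun p _ => by
    by_cases h : (s.c p).d x y = 0
    · simp [h]
    · simp [div_self h]

theorem ht_symm (hs : s.Good) {x y z : X} (hy : x ≠ y) (hz : x ≠ z) : ht s x y z = ht s x z y := by
  have : ∀ p, s.m p * max 0 (Real.log ((s.c p).d x z / (s.c p).d x y)) =
      s.m p * max 0 (Real.log ((s.c p).d x y / (s.c p).d x z)) +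
        (s.m p * Real.log ((s.c p).d x z) - s.m p * Real.log ((s.c p).d x y)) := fun p => by
    rw [Real.log_div (d_pos (hs.good p) hz).ne' (d_pos (hs.good p) hy).ne',
      Real.log_div (d_pos (hs.good p) hy).ne' (d_pos (hs.good p) hz).ne', ← mul_sub, ← mul_add]
    congr 1
    rcases le_total (Real.log ((s.c p).d x z)) (Real.log ((s.c p).d x y)) with h | h
    · rw [max_eq_left (by linarith), max_eq_right (by linarith)]; ring
    · rw [max_eq_right (by linarith), max_eq_left (by linarith)]; ring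
  simp only [ht, this, sum_add_distrib, sum_sub_distrib, hs.pf x y hy, hs.pf x z hz]
  ring

theorem ht_sum (hs : s.Good) {f g : PL → ℝ} (k : ℝ) (hk : 0 ≤ k)
    (h : ∀ p, f p ≤ g p + k * (s.c p).xi) : ∑ p, s.m p * f p ≤ ∑ p, s.m p * g p + 20 * k := by
  refine (sum_le_sum fun p _ => mul_le_mul_of_nonneg_left (h p) (hs.m_lo p)).trans ?_
  simp only [mul_add, sum_add_distrib, mul_left_comm _ k, ← mul_sum]
  nlinarith [hs.xi_sum]

/-- changing the second point of the edge -/
theorem ht_chain (hs : s.Good) {x y y' : X} (hy : x ≠ y) (hy' : x ≠ y') (z : X) :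
    ht s x y z ≤ ht s x y y' + ht s x y' z := by
  unfold ht
  rw [← sum_add_distrib]
  refine sum_le_sum fun p _ => ?_
  rw [← mul_add]
  refine mul_le_mul_of_nonneg_left ?_ (hs.m_lo p)
  have g := hs.good p
  refine lp_le (div_nonneg (d_nn g _ _) (d_nn g _ _))
    (add_nonneg (le_max_left _ _) (le_max_left _ _)) ?_
  rw [div_le_iff₀ (d_pos g hy), add_comm, Real.exp_add, mul_assoc]
  exact (le_lp (d_pos g hy')).trans
    (mul_le_mul_of_nonneg_left (le_lp (d_pos g hy)) (Real.exp_pos _).le)

/-- reversing the edge -/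
theorem ht_swap (hs : s.Good) {x y : X} (h : x ≠ y) (z : X) : ht s y x z ≤ ht s x y z + 20 := by
  refine (ht_sum hs 1 zero_le_one fun p => ?_).trans (by rw [mul_one]; rfl)
  have g := hs.good p
  have := xi_nn g
  refine lp_le (div_nonneg (d_nn g _ _) (d_nn g _ _)) (by positivity) ?_
  rw [div_le_iff₀ (d_pos g h.symm), g.d_symm y x]
  refine (tri g y x z (d_nn g x y) le_rfl (le_max_left _ _) (by simp [g.d_symm y x])
    (le_lp (d_pos g h))).trans (le_of_eq ?_)
  rw [max_eq_right (le_max_left _ _), one_mul, add_comm]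

/-- the ball of an edge inside a ball -/
theorem ht_tri (hs : s.Good) {x y z z' : X} (h : x ≠ y) (h' : z ≠ z') (w : X) :
    ht s x y w ≤ ht s x y z + ht s x y z' + ht s z z' w + 40 := by
  unfold ht
  rw [← sum_add_distrib, ← sum_add_distrib]
  simp only [← mul_add]
  refine (ht_sum hs 2 zero_le_two fun p => ?_).trans (by norm_num; rfl)
  have g := hs.good p
  have := xi_nn g
  refine lp_le (div_nonneg (d_nn g _ _) (d_nn g _ _)) (by positivity) ?_
  rw [div_le_iff₀ (d_pos g h)]
  set a := max 0 (Real.log ((s.c p).d x z / (s.c p).d x y))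
  set b := max 0 (Real.log ((s.c p).d x z' / (s.c p).d x y))
  set e := max 0 (Real.log ((s.c p).d z w / (s.c p).d z z'))
  have a0 : 0 ≤ a := le_max_left _ _
  have b0 : 0 ≤ b := le_max_left _ _
  have e0 : 0 ≤ e := le_max_left _ _
  have k1 : (s.c p).d x z ≤ Real.exp a * (s.c p).d x y := le_lp (d_pos g h)
  have k2 := tri g z x z' (d_nn g x y) a0 b0 (g.d_symm x z ▸ k1) (le_lp (d_pos g h))
  have k3 : (s.c p).d z w ≤ Real.exp (e + ((s.c p).xi + max a b)) * (s.c p).d x y := by
    rw [Real.exp_add, mul_assoc]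
    exact (le_lp (d_pos g h')).trans (mul_le_mul_of_nonneg_left k2 (Real.exp_pos _).le)
  have m : max a b ≤ a + b := max_le (by linarith) (by linarith)
  have m0 : 0 ≤ max a b := a0.trans (le_max_left _ _)
  refine (tri g x z w (d_nn g x y) a0 (by positivity) k1 k3).trans
    (mul_le_mul_of_nonneg_right (Real.exp_le_exp.2 ?_) (d_nn g x y))
  have : max a (e + ((s.c p).xi + max a b)) ≤ a + b + e + (s.c p).xi :=
    max_le (by linarith) (by linarith)
  linarith

/-- the ends of an edge seen from two points of its ball -/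
theorem ht_back (hs : s.Good) {x y z z' : X} (h : x ≠ y) (h' : z ≠ z') :
    ht s z z' x ≤ ht s x y z + ht s x y z' + 20 ∧ ht s z z' y ≤ ht s x y z + ht s x y z' + 60 := by
  have key : ∀ {x y : X}, x ≠ y → ht s z z' x ≤ ht s x y z + ht s x y z' + 20 := by
    intro x y h
    by_cases e : z = x
    · rw [← e, ht_left hs]
      linarith [ht_nonneg hs z y z, ht_nonneg hs z y z']
    · have k1 := ht_swap hs (Ne.symm e) z'
      have k2 := ht_chain hs (Ne.symm e) h z'
      rw [ht_symm hs (Ne.symm e) h] at k2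
      rw [ht_symm hs h' e]
      linarith
  have k := key h.symm
  exact ⟨key h, by linarith [ht_swap hs h z, ht_swap hs h z']⟩

/-- the height against the distance of the depth vectors -/
theorem ht_le_dis (hs : s.Good) {R : PL → ℝ} (hR : ∀ p, 0 < R p) {x y z : X} (hy : x ≠ y)
    (hz : x ≠ z) : ht s x y z ≤ dis s R x y z := by
  refine sum_le_sum fun p _ => mul_le_mul_of_nonneg_left (max_le (abs_nonneg _) ?_) (hs.m_lo p)
  have a := (d_pos (hs.good p) hy).ne'
  have b := (d_pos (hs.good p) hz).ne'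
  rw [dep, dep, Real.log_div b a, Real.log_div (hR p).ne' a, Real.log_div (hR p).ne' b]
  exact le_trans (by linarith) (le_abs_self _)

end Pool.Agent.MP_ddf486_co.KV
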