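import Pool.Agent.MP_ddf486_co.KV.Stepg

/-! Project KV, row IND: the induction on the number of steps. -/

set_option autoImplicit false

namespace Pool.Agent.MP_ddf486_co.KV

open Finset Pool.Agent.MP_6c3157_co.PD Pool.Agent.MP_6c3157_co.PQ

theorem pr_nonneg {X : Type} (Q : Finset X) : 0 ≤ Pr Q := by
  unfold Pr
  rcases Nat.eq_zero_or_pos Q.card with h | h
  · simp [h]
  · have : (1 : ℝ) ≤ Q.card := by exact_mod_cast h
    exact mul_nonneg (by linarith) (by linarith)

theorem Nb.Good.two_le_s {N : Nb} (h : N.Good) : 2 ≤ N.s := by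
  have u0 := h.u_pos
  have a1 : N.u ^ 100000 ≤ 1 / 2 :=
    (pow_le_of_le_one u0.le h.u_le_one (by norm_num)).trans (h.u_le.trans (by norm_num))
  have a2 : 2 ≤ N.L := by
    by_contra k
    rw [not_le] at k
    have := h.uL
    have := pow_pos u0 100000
    nlinarith
  have a3 : (2 : ℝ) ≤ N.q :=
    calc (2 : ℝ) ≤ N.L := a2
      _ ≤ N.L ^ 30 := le_self_pow₀ (by linarith) (by norm_num)
      _ ≤ N.k * N.L ^ 30 := le_mul_of_one_le_left (by positivity) h.k_lo
      _ ≤ _ := h.kq
  exact a3.trans ((le_self_pow₀ (by linarith) (by norm_num)).trans h.sq')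

theorem ind (hM : PHM) (hI : MP_6c3157_co.PQ.IND) (hS : STEP) : IND := by
  classical
  obtain ⟨a, b, c, a0, b0, c1, hI⟩ := hI
  refine ⟨a, b, c, a0, b0, c1, fun N i X PL K _ _ _ s A η Q hR hA η0 ηL hy hQ hk => ?_⟩
  have hN := hR.good N.ψ (by linarith [hR.pos]) le_rfl
  have u0 : 0 < N.u := hN.u_pos
  have p0 : 0 < N.ψ := hN.psi_pos
  have pu : N.ψ ≤ N.u := hN.psi_le.trans (pow_le_of_le_one u0.le hN.u_le_one (by norm_num))
  have s2 : 2 ≤ N.s := hN.two_le_s
  have s4 : 4 ≤ N.s ^ 2 := by nlinarith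
  have pl : ∀ S : Finset X, (S.card : ℝ) ≤ N.s ^ 2 → N.u * Pr S ≤ Phi s.lab N.κ S := by
    intro S hs
    have h := hI X PL K s A η N.κ (N.s ^ 2) hA η0
      ((mul_le_mul_of_nonneg_left hR.sL η0).trans ηL) (by linarith) hR.ka S hs
    rcases Nat.eq_zero_or_pos S.card with h0 | h0
    · rw [card_eq_zero.1 h0]
      simp [Pr, Phi]
    · refine le_trans (mul_le_mul_of_nonneg_right (hR.u_ph.trans ?_) (pr_nonneg S)) h
      exact (hM.1 a _ _ a0 (by exact_mod_cast h0) hs).2.1
  have g1 : 1 ≤ 1 + 100 * N.u := by linarith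
  have key : ∀ l ≤ i, ∀ S ⊆ Q, Real.log S.card ≤ (20 / 19) ^ l * Real.log (N.s ^ 2) →
      N.ψ / (1 + 100 * N.u) ^ l * Pr S ≤ Phi s.lab N.κ S := by
    have small : ∀ l, ∀ S : Finset X, (S.card : ℝ) ≤ N.s ^ 2 →
        N.ψ / (1 + 100 * N.u) ^ l * Pr S ≤ Phi s.lab N.κ S := fun l S hs =>
      le_trans (mul_le_mul_of_nonneg_right
        ((div_le_self p0.le (one_le_pow₀ g1)).trans pu) (pr_nonneg S)) (pl S hs)
    intro l
    induction l with
    | zero =>
      intro _ S _ hs
      refine small 0 S ?_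
      by_contra k
      rw [not_le] at k
      have := Real.log_lt_log (by linarith) k
      rw [pow_zero, one_mul] at hs
      linarith
    | succ l ih =>
      intro hl S hSQ hs
      by_cases k : (S.card : ℝ) ≤ N.s ^ 2
      · exact small _ S k
      rw [not_le] at k
      by_contra hb
      rw [not_le] at hb
      have sq : (S.card : ℝ) ≤ Real.exp N.L := (Nat.cast_le.2 (card_le_card hSQ)).trans hQ
      have w0 : 0 < (1 + 100 * N.u) ^ (l + 1) := by positivity
      have hψ := hR.good (N.ψ / (1 + 100 * N.u) ^ (l + 1))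
        (div_le_div_of_nonneg_left p0.le w0 ((pow_le_pow_right₀ g1 hl).trans hR.loss))
        (div_le_self p0.le (one_le_pow₀ g1))
      refine hS _ X PL K s A η S hψ ⟨hA, η0, (mul_le_mul_of_nonneg_left sq η0).trans ηL, hy,
        fun y h1 z h2 h3 => le_trans ?_ (hk y (hSQ h1) z (hSQ h2) h3), k.le, sq, hb.le.trans ?_,
        fun T _ hT => pl T hT, fun T hT hc => ?_⟩
      · exact Nat.cast_le.2 (card_le_card (filter_subset_filter _ hSQ))
      · refine mul_le_mul_of_nonneg_left ?_ (by positivity)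
        unfold Pr
        nlinarith
      · have e : (1 + 100 * N.u) * (N.ψ / (1 + 100 * N.u) ^ (l + 1)) =
            N.ψ / (1 + 100 * N.u) ^ l := by
          rw [pow_succ]
          field_simp
        show (1 + 100 * N.u) * (N.ψ / (1 + 100 * N.u) ^ (l + 1)) * Pr T ≤ Phi s.lab N.κ T
        rw [e]
        rcases Nat.eq_zero_or_pos T.card with h0 | h0
        · exact small l T (by rw [h0]; push_cast; linarith)
        refine ih (by omega) T (hT.trans hSQ) ?_
        have c1 : (T.card : ℝ) ^ 20 ≤ (S.card : ℝ) ^ 19 := by exact_mod_cast hc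
        have c2 := Real.log_le_log (pow_pos (by exact_mod_cast h0) 20) c1
        rw [Real.log_pow, Real.log_pow] at c2
        rw [pow_succ] at hs
        push_cast at c2
        linarith
  refine le_trans (mul_le_mul_of_nonneg_right ?_ (pr_nonneg Q)) (key i le_rfl Q Subset.rfl ?_)
  · exact div_le_div_of_nonneg_left p0.le (by positivity) hR.loss
  · refine le_trans ?_ hR.steps
    rcases Nat.eq_zero_or_pos Q.card with h0 | h0
    · rw [h0, Nat.cast_zero, Real.log_zero]
      by_contra k
      have := Real.exp_lt_one_iff.2 (not_le.1 k)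
      linarith [hR.sL]
    · exact (Real.log_le_iff_le_exp (by exact_mod_cast h0)).2 hQ

end Pool.Agent.MP_ddf486_co.KV
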