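import Pool.Agent.MP_6c3157_co.PQ.Minor

/-! Project KV: minors of a matrix against the complementary minors of its kernel. -/

set_option autoImplicit false

noncomputable section

namespace Pool.Agent.MP_ddf486_co.KV

open Finset Matrix

variable {K : Type} [Field K]

/-- complementary minors of a matrix and of a matrix it kills -/
theorem kd {ρ κ ι : Type} [Fintype ρ] [Fintype κ] [Fintype ι] [DecidableEq ρ] [DecidableEq κ]
    [DecidableEq ι] (E : Matrix ρ ι K) (M : Matrix ι κ K) (h : E * M = 0) (e e' : ρ ⊕ κ ≃ ι) :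
    ((E.submatrix id fun r => e (.inl r)).det * (M.submatrix (fun k => e' (.inr k)) id).det) ^ 2 =
    ((E.submatrix id fun r => e' (.inl r)).det * (M.submatrix (fun k => e (.inr k)) id).det) ^ 2 := by
  let A : Matrix (ρ ⊕ κ) ι K := fromRows E (Matrix.of fun k i => if i = e (.inr k) then 1 else 0)
  let B : Matrix ι (ρ ⊕ κ) K := fromCols (Matrix.of fun i r => if i = e' (.inl r) then 1 else 0) M
  have h1 : (A * B).det =
      (E.submatrix id fun r => e' (.inl r)).det * (M.submatrix (fun k => e (.inr k)) id).det := by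
    rw [fromRows_mul_fromCols, h, det_fromBlocks_zero₁₂]
    congr 2
    · ext a b; simp [mul_apply]
    · ext a b; simp [mul_apply]
  have h2 : (A.submatrix id e).det = (E.submatrix id fun r => e (.inl r)).det := by
    have : A.submatrix id e = fromBlocks (E.submatrix id fun r => e (.inl r))
        (E.submatrix id fun k => e (.inr k)) 0 1 := by
      ext (a | a) (b | b) <;> simp [A, one_apply, eq_comm]
    rw [this, det_fromBlocks_zero₂₁, det_one, mul_one]
  have h3 : (B.submatrix e' id).det = (M.submatrix (fun k => e' (.inr k)) id).det := by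
    have : B.submatrix e' id = fromBlocks 1 (M.submatrix (fun r => e' (.inl r)) id) 0
        (M.submatrix (fun k => e' (.inr k)) id) := by
      ext (a | a) (b | b) <;> simp [B, one_apply]
    rw [this, det_fromBlocks_zero₂₁, det_one, one_mul]
  have h4 : A * B = A.submatrix id e * B.submatrix e id := by
    rw [submatrix_mul_equiv]; rfl
  have h5 : B.submatrix e id = (B.submatrix e' id).submatrix (e.trans e'.symm) id := by
    ext a b; simp
  rw [← h1, h4, det_mul, h5, det_permute, h2, h3, mul_pow, mul_pow, mul_pow]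
  rcases Int.units_eq_one_or (Equiv.Perm.sign (e.trans e'.symm)) with u | u <;> simp [u]

/-- a matrix whose other entries lower a weight has the product of the diagonal as determinant -/
theorem det_tri {κ : Type} [Fintype κ] [DecidableEq κ] (M : Matrix κ κ K) (w : κ → ℤ)
    (h : ∀ a b, a ≠ b → M a b ≠ 0 → w a < w b) : M.det = ∏ a, M a a := by
  rw [det_apply, Finset.sum_eq_single 1]
  · simp
  · intro σ _ hσ
    have : ∏ a, M (σ a) a = 0 := by
      by_contra n
      have n' := Finset.prod_ne_zero_iff.1 n
      obtain ⟨a, ha⟩ : ∃ a, σ a ≠ a := by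
        by_contra u
        exact hσ (Equiv.ext fun a => by by_contra v; exact u ⟨a, v⟩)
      have : ∑ a, w (σ a) < ∑ a, w a := Finset.sum_lt_sum (fun b _ => by
        by_cases u : σ b = b
        · rw [u]
        · exact (h _ _ u (n' b (mem_univ _))).le) ⟨a, mem_univ _, h _ _ ha (n' a (mem_univ _))⟩
      rw [Equiv.sum_comp σ w] at this
      exact lt_irrefl _ this
    rw [this, smul_zero]
  · intro n; exact absurd (mem_univ _) n

/-- two nonzero minors of `E` complementary to two nonzero minors of its kernel -/
theorem kd_rows {τ κ ι : Type} [Fintype τ] [Fintype κ] [Fintype ι] [DecidableEq κ]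
    [DecidableEq ι] (E : Matrix τ ι K) (M : Matrix ι κ K) (h : E * M = 0)
    (hk : ∀ g : ι → K, E *ᵥ g = 0 → ∃ c, g = M *ᵥ c) (σ σ' : κ → ι)
    (h0 : (M.submatrix σ id).det ≠ 0) (h1 : (M.submatrix σ' id).det ≠ 0) :
    ∃ (r : ℕ) (J : Fin r → τ) (e e' : Fin r ⊕ κ ≃ ι), (∀ k, e (.inr k) = σ k) ∧
      (∀ k, e' (.inr k) = σ' k) ∧ (E.submatrix J fun a => e (.inl a)).det ≠ 0 ∧
      (E.submatrix J fun a => e' (.inl a)).det ≠ 0 ∧
      ((E.submatrix J fun a => e (.inl a)).det * (M.submatrix σ' id).det) ^ 2 =
        ((E.submatrix J fun a => e' (.inl a)).det * (M.submatrix σ id).det) ^ 2 := by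
  classical
  have inj : ∀ s : κ → ι, (M.submatrix s id).det ≠ 0 → Function.Injective s := by
    intro s hs a b hab
    by_contra n
    exact hs (det_zero_of_row_eq n (by ext c; simp [hab]))
  have ex : ∀ s : κ → ι, Function.Injective s →
      ∃ e : Fin (Fintype.card ι - Fintype.card κ) ⊕ κ ≃ ι, ∀ k, e (.inr k) = s k := by
    intro s hs
    have c : Fintype.card {i // ¬ i ∈ Set.range s} = Fintype.card ι - Fintype.card κ := by
      rw [Fintype.card_subtype_compl, Set.card_range_of_injective hs]
    refine ⟨((Equiv.sumCongr (Fintype.equivFinOfCardEq c).symm (Equiv.ofInjective s hs)).trans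
      (Equiv.sumComm _ _)).trans (Equiv.sumCompl fun i => i ∈ Set.range s), fun k => ?_⟩
    simp
  obtain ⟨e, he⟩ := ex σ (inj σ h0)
  obtain ⟨e', he'⟩ := ex σ' (inj σ' h1)
  have li : LinearIndependent K fun (a : Fin (Fintype.card ι - Fintype.card κ)) (z : τ) =>
      E z (e (.inl a)) := by
    rw [Fintype.linearIndependent_iff]
    intro g hg a
    obtain ⟨c, hc⟩ := hk (fun i => Sum.elim g (fun _ => 0) (e.symm i)) (by
      ext z
      have := congrFun hg z
      simp only [Finset.sum_apply, Pi.smul_apply, smul_eq_mul, Pi.zero_apply] at this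
      simp only [mulVec, dotProduct, Pi.zero_apply]
      rw [← Equiv.sum_comp e, Fintype.sum_sum_type]
      simpa [mul_comm] using this)
    have c0 : c = 0 := eq_zero_of_mulVec_eq_zero h0 (by
      ext k
      have := congrFun hc (e (.inr k))
      simp only [Equiv.symm_apply_apply, Sum.elim_inr] at this
      rw [he] at this
      exact this.symm)
    have := congrFun hc (e (.inl a))
    simpa [c0] using this
  obtain ⟨J, -, hJ⟩ := Pool.Agent.MP_6c3157_co.PQ.minor K _ τ _ li
  have d0 : (E.submatrix J fun a => e (.inl a)).det ≠ 0 := by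
    rw [← det_transpose]; exact hJ
  have key := kd (E.submatrix J id) M (by
    rw [← submatrix_id_id M, ← submatrix_mul E M J id id Function.bijective_id, h]; rfl) e e'
  simp only [he, he'] at key
  refine ⟨_, J, e, e', he, he', d0, fun n => ?_, key⟩
  have key' : ((E.submatrix J fun a => e (.inl a)).det * (M.submatrix σ' id).det) ^ 2 =
        ((E.submatrix J fun a => e' (.inl a)).det * (M.submatrix σ id).det) ^ 2 := key
  rw [n, zero_mul, zero_pow two_ne_zero] at key'
  exact pow_ne_zero 2 (mul_ne_zero d0 h1) key'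

end Pool.Agent.MP_ddf486_co.KV
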