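import Pool.Agent.MP_ddf486_co.KV.SpecB

/-! Project KV, block B: the numbers in a handy form. -/

set_option autoImplicit false

noncomputable section

namespace Pool.Agent.MP_ddf486_co.KV

/-- consequences of the inequalities between the numbers, for a set with `n` points -/
structure NB (N : Nb) (n : ℝ) : Prop where
  u0 : 0 < N.u
  u1 : N.u ≤ 1 / 10 ^ 30
  u2 : N.u ≤ 1
  q1 : (10 : ℝ) ^ 100 ≤ N.q
  q2 : (1 : ℝ) ≤ N.q
  k1 : 1 ≤ N.κ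
  kq : N.k ≤ N.q
  pw : ∀ a b : ℕ, a ≤ b → N.u ^ b ≤ N.u ^ a
  pq : ∀ a b : ℕ, a ≤ b → (N.q : ℝ) ^ a ≤ (N.q : ℝ) ^ b
  uq : ∀ m ≤ 100000, 1 ≤ N.u ^ m * N.q
  ps : ∀ m ≤ 100000, N.ψ ≤ N.u ^ m
  uk : ∀ m ≤ 100000, 1 ≤ N.u ^ m * N.κ
  qs : ∀ m ≤ 4000, (N.q : ℝ) ^ m ≤ N.s ^ 2
  qn : ∀ m ≤ 4000, (N.q : ℝ) ^ m ≤ n

theorem nb {N : Nb} (h : N.Good) {n : ℝ} (hn : N.s ^ 2 ≤ n) : NB N n := by
  have u0 := h.u_pos
  have u2 : N.u ≤ 1 := h.u_le.trans (by norm_num)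
  have pw : ∀ a b : ℕ, a ≤ b → N.u ^ b ≤ N.u ^ a := fun a b k =>
    pow_le_pow_of_le_one u0.le u2 k
  have a1 := h.uL
  have a2 := h.psi_le
  have a3 : ∀ m ≤ 100000, N.u ^ 100000 ≤ N.u ^ m := fun m k => pw m _ k
  have a4 : 0 < N.u ^ 100000 := pow_pos u0 _
  generalize N.u ^ 100000 = w at a1 a2 a3 a4
  have w1 : w ≤ 1 := by simpa using a3 0 (by norm_num)
  have L0 : 0 < N.L := by
    by_contra k
    nlinarith [mul_nonneg a4.le (neg_nonneg.2 (not_lt.1 k))]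
  have L1 : 1 ≤ N.L := a1.trans (mul_le_of_le_one_left L0.le w1)
  have L2 : N.L ≤ N.L ^ 30 := le_self_pow₀ L1 (by norm_num)
  have L3 : N.L ^ 30 ≤ N.k * N.L ^ 30 := le_mul_of_one_le_left (by linarith) h.k_lo
  have Lq : N.L ≤ N.q := L2.trans (L3.trans h.kq)
  have q2 : (1 : ℝ) ≤ N.q := L1.trans Lq
  have uq : ∀ m ≤ 100000, 1 ≤ N.u ^ m * N.q := fun m k =>
    a1.trans (mul_le_mul (a3 m k) Lq L0.le (pow_nonneg u0.le _))
  have ps : ∀ m ≤ 100000, N.ψ ≤ N.u ^ m := fun m k => a2.trans (a3 m k)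
  have k0 : 0 < N.κ := by
    by_contra k
    nlinarith [mul_nonneg h.psi_pos.le (neg_nonneg.2 (not_lt.1 k)), h.ka]
  have uk : ∀ m ≤ 100000, 1 ≤ N.u ^ m * N.κ := fun m k => by
    have := mul_le_mul_of_nonneg_left (ps m k) k0.le
    linarith [h.ka]
  have pq : ∀ a b : ℕ, a ≤ b → (N.q : ℝ) ^ a ≤ (N.q : ℝ) ^ b := fun a b k =>
    pow_le_pow_right₀ q2 k
  have qs : ∀ m ≤ 4000, (N.q : ℝ) ^ m ≤ N.s ^ 2 := fun m k => by
    refine (pq m (2000 * 2) k).trans ?_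
    rw [pow_mul]
    exact pow_le_pow_left₀ (pow_nonneg (by linarith) _) h.sq' 2
  refine ⟨u0, h.u_le, u2, ?_, q2, by simpa using uk 0 (by norm_num), ?_, pw, pq, uq, ps, uk, qs,
    fun m k => (qs m k).trans hn⟩
  · have b1 := uq 4 (by norm_num)
    have b2 : N.u ^ 4 ≤ (1 / 10 ^ 30) ^ 4 := pow_le_pow_left₀ u0.le h.u_le 4
    have b3 := mul_le_mul_of_nonneg_right b2 (show (0 : ℝ) ≤ N.q by linarith)
    generalize (N.q : ℝ) = x at *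
    norm_num at b3 ⊢
    linarith
  · have : N.k ≤ N.k * N.L ^ 30 := le_mul_of_one_le_right (by linarith [h.k_lo]) (L1.trans L2)
    exact this.trans h.kq

end Pool.Agent.MP_ddf486_co.KV
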