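import Pool.Agent.MP_ddf486_co.KV.Defs
import Pool.Agent.MP_6c3157_co.PQ.SpecF

/-! Project KV, block A: numbers, induction, the plane. -/

set_option autoImplicit false

noncomputable section

namespace Pool.Agent.MP_ddf486_co.KV

open Finset Pool.Agent.MP_6c3157_co.PD Pool.Agent.MP_6c3157_co.PQ

/-- what the induction needs from the numbers -/
structure Nb.Run (N : Nb) (a b c : ℝ) (i : ℕ) : Prop where
  pos : 0 ≤ N.ψ
  good : ∀ ψ : ℝ, N.ψ / 2 ≤ ψ → ψ ≤ N.ψ → ({ N with ψ := ψ } : Nb).Good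
  sL : N.s ^ 2 ≤ Real.exp N.L
  ka : c * (1 + Real.log (N.s ^ 2)) ^ b ≤ N.κ
  u_ph : N.u ≤ ph a (N.s ^ 2)
  steps : N.L ≤ (20 / 19) ^ i * Real.log (N.s ^ 2)
  loss : (1 + 100 * N.u) ^ i ≤ 2

/-- the numbers exist -/
def NUM : Prop :=
  ∀ (D : ℕ) (a b c : ℝ), 1 ≤ D → 0 ≤ a → 0 ≤ b → 1 ≤ c → ∃ (B : ℕ) (x₀ : ℝ), 0 < B ∧
    ∀ x : ℝ, x₀ ≤ x → ∃ (N : Nb) (i : ℕ), N.L = x ^ B ∧ N.k = Real.exp x ∧
      N.κ ^ (4 * D) = x ^ B ∧ N.ψ * N.κ = 4 ∧ N.Run a b c i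

open Classical in
/-- the induction -/
def IND : Prop :=
  ∃ a b c : ℝ, 0 ≤ a ∧ 0 ≤ b ∧ 1 ≤ c ∧
    ∀ (N : Nb) (i : ℕ) (X PL K : Type) [DecidableEq X] [Fintype PL] [Field K] (s : Sys X PL)
      (A : Ari X PL K) (η : ℝ) (Q : Finset X), N.Run a b c i → A.Good s η → 0 ≤ η →
      η * Real.exp N.L ≤ 1 → Sym A → (Q.card : ℝ) ≤ Real.exp N.L →
      (∀ y ∈ Q, ∀ z ∈ Q, y ≠ z → ((Q.filter fun x => A.bis x y z).card : ℝ) ≤ N.k) →
      N.ψ / 2 * Pr Q ≤ Phi s.lab N.κ Q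

/-- points at equal distance from two points of the plane are collinear -/
def COL : Prop :=
  ∀ (y z : EuclideanSpace ℝ (Fin 2)) (S : Set (EuclideanSpace ℝ (Fin 2))), y ≠ z →
    (∀ x ∈ S, dist x y = dist x z) → Collinear ℝ S

open Classical in
/-- few integers are sums of two squares -/
def SQS : Prop :=
  ∃ C : ℝ, 0 < C ∧ ∀ n : ℕ, 2 ≤ n →
    (((Icc 1 n).filter fun m => ∃ a b : ℕ, m = a ^ 2 + b ^ 2).card : ℝ) ≤
      C * n / Real.sqrt (Real.log n)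

open Classical in
/-- a piece of the square grid has few distances -/
def LAND : Prop :=
  ∃ C : ℝ, 0 < C ∧ ∀ n : ℕ, 2 ≤ n → ∃ P : Finset (EuclideanSpace ℝ (Fin 2)), P.card = n ∧
    ((P.offDiag.image fun e => dist e.1 e.2).card : ℝ) ≤ C * n / Real.sqrt (Real.log n)

open Classical in
/-- the theorem for extremal configurations -/
def EXTR : Prop :=
  ∃ c c' : ℝ, 0 < c ∧ 0 < c' ∧ ∀ P : Finset (EuclideanSpace ℝ (Fin 2)), 2 ≤ P.card →
    (∀ P' : Finset (EuclideanSpace ℝ (Fin 2)), P'.card = P.card →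
      (P.offDiag.image fun e => dist e.1 e.2).card ≤
        (P'.offDiag.image fun e => dist e.1 e.2).card) →
    ∃ Q ⊆ P, Collinear ℝ (Q : Set (EuclideanSpace ℝ (Fin 2))) ∧
      c' * Real.exp (Real.log P.card ^ c) ≤ Q.card

open Classical in
/-- the logarithms of a set of integers that is closed under taking divisors -/
def HT : Prop :=
  ∀ A : ℕ → Prop, (∀ m d, A m → d ∣ m → A d) → ∀ n : ℕ,
    ∑ m ∈ (Icc 1 n).filter A, Real.log m ≤ 6 * n * ∑ m ∈ (Icc 1 n).filter A, (1 : ℝ) / m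

open Classical in
/-- the logarithmic mass of the integers whose prime factors are all `1` modulo `4` -/
def ONE : Prop :=
  ∀ n : ℕ, 1 ≤ n →
    (∑ m ∈ (Icc 1 n).filter fun m => ∀ p : ℕ, p.Prime → p ∣ m → p % 4 = 1, (1 : ℝ) / m) ^ 2 ≤
      1 + 2 * Real.log n

end Pool.Agent.MP_ddf486_co.KV
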