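import Pool.Agent.MP_ddf486_co.KV.Defs
import Pool.Agent.MP_ddf486_co.KV.Cdl

/-! Project KV, block C: from the fine model to the abstract model. Definitions and rows. -/

set_option autoImplicit false
set_option linter.unusedSectionVars false

noncomputable section

namespace Pool.Agent.MP_ddf486_co.KV

open Finset Pool.Agent.MP_6c3157_co.PD Pool.Agent.MP_6c3157_co.PQ

section defs

variable {X PL : Type} [DecidableEq X] [Fintype PL]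

/-- the slack at a place and its partner -/
def xs (s : Sys X PL) (p : PL) : ℝ := (s.c p).xi + (s.c (s.bar p)).xi

/-- the threshold for outliers -/
def gth (s : Sys X PL) (L : PL → ℝ) (p : PL) : ℝ := 4 * (L p + L (s.bar p)) + 20 * xs s p

/-- the gap above the small cells -/
def ga (s : Sys X PL) (L : PL → ℝ) (p : PL) : ℝ := 4 * gth s L p + 100 * xs s p

/-- small cells at `p` -/
def bc (s : Sys X PL) (Z : Finset X) (R L : PL → ℝ) (rq : PL → X → ℝ) (p : PL)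
    (i : ℕ × Finset X) : Prop :=
  (s.c p).ρ i * Real.exp (ga s L p) ≤ R p ∧
    ∀ y ∈ Z, y ∈ i.2 → (s.c p).lam * ((s.c p).ρ i * Real.exp (ga s L p)) < rq p y

/-- cells at `y` below this radius are small -/
def rB (s : Sys X PL) (R L : PL → ℝ) (rq : PL → X → ℝ) (p : PL) (y : X) : ℝ :=
  min (R p) (rq p y) * Real.exp (-ga s L p) / (s.c p).lam ^ 3

/-- all cells of all places -/
def fam (s : Sys X PL) (Z : Finset X) (R L : PL → ℝ) (rq : PL → X → ℝ) :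
    Fam X (Σ p : PL, (s.c p).I) where
  w i := s.m i.1 * (s.c i.1).w i.2.1
  S i := i.2.1.2
  b i := bc s Z R L rq i.1 i.2.1

/-- the pair is close at `p` -/
def near (s : Sys X PL) (rq : PL → X → ℝ) (p : PL) (x y : X) : Prop :=
  (s.c p).lam * (s.c p).d x y < rq p x ∨ (s.c p).lam * (s.c p).d x y < rq p y

open Classical in
/-- the price of a close pair at `p` -/
def clp (s : Sys X PL) (L : PL → ℝ) (G rq : PL → X → ℝ) (p : PL) (x y : X) : ℝ :=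
  if near s rq p x y then ga s L p + G (s.bar p) x + G (s.bar p) y else 0

/-- the price of a close pair -/
def Clf (s : Sys X PL) (L : PL → ℝ) (G rq : PL → X → ℝ) (x y : X) : ℝ :=
  2 * ∑ p, s.m p * clp s L G rq p x y

open Classical in
/-- large outlier lengths at `p` -/
def ghp (s : Sys X PL) (L : PL → ℝ) (G : PL → X → ℝ) (p : PL) (y : X) : ℝ :=
  if gth s L p < G p y then G p y else 0

/-- large outlier lengths -/
def Ghf (s : Sys X PL) (L : PL → ℝ) (G : PL → X → ℝ) (y : X) : ℝ :=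
  2 * ∑ p, s.m p * ghp s L G p y

/-- weight of the common double cells -/
def om2 (D : Dbl X PL) (y z : X) : ℝ := ∑ i, if D.cl i y = D.cl i z then D.om i else 0

open Classical in
/-- weight of the common double cells with shares at least `a` in `T` and `a'` in `T'` -/
def omh (D : Dbl X PL) (T T' : Finset X) (a a' : ℝ) (y z : X) : ℝ :=
  ∑ i, if D.cl i y = D.cl i z ∧ a ≤ D.sh i T y ∧ a' ≤ D.sh i T' y then D.om i else 0

open Classical in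
/-- the refined double cells -/
structure RGood (D : Dbl X PL) (s : Sys X PL) (R L : PL → ℝ) (rq : PL → X → ℝ) : Prop where
  good : DGood D s R
  deep : ∀ i y z, D.cl i y = D.cl i z → (s.c (D.pl i)).d y z ≤ (s.c (D.pl i)).lam ^ 3 *
    (R (D.pl i) * Real.exp (-(D.lv i + lq R rq (D.pl i) y + ga s L (D.pl i) / 4)))
  low : ∀ p y z, y ≠ z → |lq R rq p y - lq R rq p z| ≤ xs s p →
    s.m p * (min (dep s R p y z - lq R rq p y - ga s L p / 4) (dep s R (s.bar p) y z) -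
      5 * xs s p) ≤ 2 * ∑ i, if D.pl i = p ∧ D.cl i y = D.cl i z then D.om i else 0

/-- cells around the centre, up to the length `h` -/
def oc (s : Sys X PL) (R : PL → ℝ) (cn : PL → X) (h : PL → ℝ) (p : PL) (i : ℕ × Finset X) : Prop :=
  (s.c p).lam * R p ≤ (s.c p).ρ i ∧ (s.c p).ρ i < (s.c p).lam * R p * Real.exp (h p) ∧
    ∀ v, (s.c p).d (cn p) v ≤ (s.c p).ρ i / (s.c p).lam → v ∈ i.2

/-- the pin `x` is central at `p` and its partner, and not close to `y` at the partner -/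
def cpin (s : Sys X PL) (R L : PL → ℝ) (cn : PL → X) (y : X) (p : PL) (x : X) : Prop :=
  (s.c p).d (cn p) x ≤ R p ∧ (s.c (s.bar p)).d (cn (s.bar p)) x ≤ R (s.bar p) ∧
    R (s.bar p) * Real.exp (-L (s.bar p)) ≤ (s.c (s.bar p)).d y x

end defs

/-- a dense and extremal pair, with the exponent `m / (m + 1)` -/
structure Extm {X : Type} (E : X → X → Prop) (T T' : Finset X) (e₀ : ℝ) (m : ℕ) : Prop where
  pos : 0 < ec E T T'
  dense : e₀ * (T.card * T'.card) ≤ ec E T T'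
  sub : ∀ S ⊆ T, ∀ S' ⊆ T', (ec E S S' : ℝ) ^ (m + 1) * ((T.card : ℝ) * T'.card) ^ m ≤
    (ec E T T' : ℝ) ^ (m + 1) * ((S.card : ℝ) * S'.card) ^ m

/-! ### rows -/

/-- an extremal pair of subsets -/
def EXTM : Prop :=
  ∀ (X : Type) [DecidableEq X] (E : X → X → Prop) (A B : Finset X) (e₀ M M' : ℝ) (m : ℕ), 0 < e₀ →
    0 < M → 0 < M' → (A.card : ℝ) ≤ M → (B.card : ℝ) ≤ M' → e₀ * (M * M') ≤ ec E A B →
    ∃ T ⊆ A, ∃ T' ⊆ B, e₀ ^ (m + 1) * M ≤ T.card ∧ e₀ ^ (m + 1) * M' ≤ T'.card ∧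
      Extm E T T' e₀ m

open Classical in
/-- the sum over the cells of one partition -/
def SUM1M : Prop :=
  ∀ (X PL : Type) [DecidableEq X] (D : Dbl X PL) (i : Fin D.N) (E : X → X → Prop)
    (T T' : Finset X) (e₀ r n B : ℝ) (m I : ℕ), Extm E T T' e₀ m → 19 ≤ m → 0 < e₀ → 0 < r →
    r ≤ 1 → 0 ≤ B → 1 ≤ B ^ (m + 1) * r ^ 80 → (T'.card : ℝ) ≤ n → 4 * n ≤ (T.card : ℝ) ^ 2 →
    2 ≤ r ^ 20 * T.card →
    (ec (fun y z => E y z ∧ D.cl i y = D.cl i z) T T' : ℝ) / ec E T T' ≤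
      B * (∑ y ∈ T, ∑ z ∈ T', if D.cl i y = D.cl i z ∧ r ^ 20 ≤ D.sh i T y ∧
        r ^ 60 ≤ D.sh i T' y then (1 : ℝ) else 0) / (T.card * T'.card) +
      4 * r ^ 2 * (∑ y ∈ T, ∑ z ∈ T.erase y, if D.cl i y = D.cl i z then (1 : ℝ) else 0) /
        (T.card : ℝ) ^ 2 +
      (∑ j ∈ range I, 8 / (r / 2 ^ j) ^ 3 *
        ((∑ y ∈ T', if D.sh i T y ≤ (r / 2 ^ j) ^ 20 then D.sh i T y else 0) / T'.card)) +
      ((∑ y ∈ T', if D.sh i T y ≤ (r / 2 ^ I) ^ 20 then D.sh i T y else 0) / T'.card) / e₀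

/-- the sum over all double cells -/
def SUMM : Prop :=
  ∀ (X PL : Type) [DecidableEq X] (D : Dbl X PL) (E : X → X → Prop) (T T' : Finset X)
    (e₀ r n B w M W δ : ℝ) (m I : ℕ), (∀ i, 0 ≤ D.om i) → Extm E T T' e₀ m → 19 ≤ m → 0 < e₀ →
    0 < r → r ≤ 1 → 0 ≤ B → 1 ≤ B ^ (m + 1) * r ^ 80 → 0 ≤ W → 0 ≤ M → (T'.card : ℝ) ≤ n →
    4 * n ≤ (T.card : ℝ) ^ 2 → 2 ≤ r ^ 20 * T.card →
    (∀ y ∈ T, ∀ z ∈ T', E y z → w ≤ om2 D y z) →
    (∀ y ∈ T, ∀ z ∈ T, y ≠ z → om2 D y z ≤ M) →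
    (∀ j < I, D.S T T' ((r / 2 ^ j) ^ 20) ≤ 600 * (r / 2 ^ j) ^ 5 * W) →
    D.S T T' ((r / 2 ^ I) ^ 20) ≤ δ * W →
    w ≤ B * (∑ y ∈ T, ∑ z ∈ T', omh D T T' (r ^ 20) (r ^ 60) y z) / (T.card * T'.card) +
      4 * r ^ 2 * M + 6400 * r ^ 2 * W + δ * W / e₀

/-- the refined double cells exist -/
def RDC : Prop :=
  ∀ (N : Nb) (X PL K : Type) [DecidableEq X] [Fintype PL] [Field K] (s : Sys X PL)
    (A : Ari X PL K) (η : ℝ) (Z : Finset X) (R L : PL → ℝ) (G rq : PL → X → ℝ) (cn : PL → X)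
    (W ε : ℝ), N.Good → Fm N s A η Z R L G rq cn W ε →
    ∃ D : Dbl X PL, RGood D s R L rq

open Classical in
/-- radii that hold many points are not deep -/
def CRAD : Prop :=
  ∀ (N : Nb) (X PL K : Type) [DecidableEq X] [Fintype PL] [Field K] (s : Sys X PL)
    (A : Ari X PL K) (η : ℝ) (Z : Finset X) (R L : PL → ℝ) (G rq : PL → X → ℝ) (cn : PL → X)
    (W ε : ℝ), N.Good → Fm N s A η Z R L G rq cn W ε →
    ∀ x ∈ Z, (∀ T ⊆ Z, ∀ (r : PL → ℝ) (a : ℝ),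
      (∀ p, a ≤ (((s.c p).ball T x (r p)).erase x).card) → 0 < a →
      a * ∑ p, s.m p * max 0 (Real.log (R p / r p)) ≤ 2 * W * T.card) ∧
    ∑ p, s.m p * lq R rq p x ≤ 4 * (N.q : ℝ) ^ 50 * W

open Classical in
/-- total overlap, overlap through small cells, outliers, pins -/
def CTOT : Prop :=
  ∀ (N : Nb) (X PL K : Type) [DecidableEq X] [Fintype PL] [Field K] (s : Sys X PL)
    (A : Ari X PL K) (η : ℝ) (Z : Finset X) (R L : PL → ℝ) (G rq : PL → X → ℝ) (cn : PL → X)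
    (W ε : ℝ), N.Good → Fm N s A η Z R L G rq cn W ε →
    (∀ y ∈ Z, ∀ z ∈ Z, y ≠ z → |(fam s Z R L rq).OA y z + (fam s Z R L rq).OB y z -
      ∑ p, s.m p * (s.c p).K| ≤ η) ∧
    (∀ y ∈ Z, ∀ z ∈ Z, y ≠ z → (fam s Z R L rq).OB y z ≤ 2 * W) ∧
    (∀ y, 0 ≤ Ghf s L G y) ∧ (∀ y ∈ Z, Ghf s L G y ≤ W) ∧
    ∀ y ∈ Z, ∀ z ∈ Z, y ≠ z → ((Z.filter fun x => s.lab x y = s.lab x z).card : ℝ) ≤ N.k

/-- the diagonal -/
def DGA : Prop :=
  ∀ (N : Nb) (X PL K : Type) [DecidableEq X] [Fintype PL] [Field K] (s : Sys X PL)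
    (A : Ari X PL K) (η : ℝ) (Z : Finset X) (R L : PL → ℝ) (G rq : PL → X → ℝ) (cn : PL → X)
    (W ε : ℝ), N.Good → Fm N s A η Z R L G rq cn W ε →
    ∀ y ∈ Z, ∀ z ∈ Z, (fam s Z R L rq).W (fun i => ¬ (fam s Z R L rq).b i ∧
      y ∈ (fam s Z R L rq).S i ∧ z ∉ (fam s Z R L rq).S i) ≤ (N.q : ℝ) ^ 51 * W

/-- close pairs are few -/
def CLO : Prop :=
  ∀ (N : Nb) (X PL K : Type) [DecidableEq X] [Fintype PL] [Field K] (s : Sys X PL)
    (A : Ari X PL K) (η : ℝ) (Z : Finset X) (R L : PL → ℝ) (G rq : PL → X → ℝ) (cn : PL → X)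
    (W ε : ℝ), N.Good → Fm N s A η Z R L G rq cn W ε →
    (∀ x y, 0 ≤ Clf s L G rq x y) ∧
    (N.q : ℝ) ^ 40 * ∑ x ∈ Z, ∑ y ∈ Z.erase x, Clf s L G rq x y ≤ W * (Z.card : ℝ) ^ 2

/-- small cells on a base that miss the pin -/
def TRIP : Prop :=
  ∀ (N : Nb) (X PL K : Type) [DecidableEq X] [Fintype PL] [Field K] (s : Sys X PL)
    (A : Ari X PL K) (η : ℝ) (Z : Finset X) (R L : PL → ℝ) (G rq : PL → X → ℝ) (cn : PL → X)
    (W ε : ℝ), N.Good → Fm N s A η Z R L G rq cn W ε →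
    ∀ D : Dbl X PL, RGood D s R L rq →
    ∀ x ∈ Z, ∀ y ∈ Z, ∀ z ∈ Z, y ≠ x → z ≠ x → y ≠ z → s.lab x y = s.lab x z →
    (fam s Z R L rq).DB y z x ≤ 8 * om2 D y z + Ghf s L G x + Ghf s L G y + Clf s L G rq x y

open Classical in
/-- the mate of an outlier is an outlier -/
def OUT1 : Prop :=
  ∀ (N : Nb) (X PL K : Type) [DecidableEq X] [Fintype PL] [Field K] (s : Sys X PL)
    (A : Ari X PL K) (η : ℝ) (Z : Finset X) (R L : PL → ℝ) (G rq : PL → X → ℝ) (cn : PL → X)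
    (W ε : ℝ), N.Good → Fm N s A η Z R L G rq cn W ε →
    ∀ y x z, x ≠ y → z ≠ x → s.lab x z = s.lab x y →
    ∑ p, s.m p * (if cpin s R L cn y p x then ghp s L G p y else 0) ≤
      60 * ∑ p, s.m p * (s.c p).W fun i =>
        oc s R cn (fun p => max (ghp s L G p y) (ghp s L G (s.bar p) y)) p i ∧ z ∉ i.2

open Classical in
/-- outliers give discrepancy -/
def OUT2 : Prop :=
  ∀ (N : Nb) (X PL K : Type) [DecidableEq X] [Fintype PL] [Field K] (s : Sys X PL)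
    (A : Ari X PL K) (η : ℝ) (Z : Finset X) (R L : PL → ℝ) (G rq : PL → X → ℝ) (cn : PL → X)
    (W ε : ℝ), N.Good → Fm N s A η Z R L G rq cn W ε →
    ∀ Z' ⊆ Z, ∀ y ∈ Z',
    Z.card ≤ 2 * ((Z'.erase y).filter fun x =>
      ∃ z ∈ Z', z ≠ x ∧ z ≠ y ∧ s.lab x z = s.lab x y).card →
    ∃ U ⊆ Z', (Z.card : ℝ) ≤ 4 * N.k * U.card ∧
      ∀ Z'' ⊆ Z, 9 * Z.card ≤ 10 * Z''.card →
        Ghf s L G y ≤ 10 ^ 6 * (fam s Z R L rq).disc U Z''

open Classical in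
/-- heavy refined cells lie in heavy cells with few points of `Z` -/
def HVC : Prop :=
  ∀ (N : Nb) (X PL K : Type) [DecidableEq X] [Fintype PL] [Field K] (s : Sys X PL)
    (A : Ari X PL K) (η : ℝ) (Z : Finset X) (R L : PL → ℝ) (G rq : PL → X → ℝ) (cn : PL → X)
    (W ε : ℝ), N.Good → Fm N s A η Z R L G rq cn W ε →
    ∀ D : Dbl X PL, RGood D s R L rq → ∀ y ∈ Z, ∀ z, y ≠ z →
    ∀ (U : Finset X) (c : ℝ) (P : Fin D.N → Prop),
    (∀ i, P i → D.cl i y = D.cl i z ∧ c ≤ (D.cell i U y).card) →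
    (∑ i, if P i then D.om i else 0) ≤ 20 * (fam s Z R L rq).W fun i =>
      ((N.q : ℝ) ^ 50 * (Z ∩ (fam s Z R L rq).S i).card ≤ Z.card ∧
        c ≤ (U ∩ (fam s Z R L rq).S i).card) ∧
      y ∈ (fam s Z R L rq).S i ∧ z ∈ (fam s Z R L rq).S i

/-- many pairs in common refined cells give many pairs in common heavy refined cells -/
def RARE1 : Prop :=
  ∀ (N : Nb) (X PL K : Type) [DecidableEq X] [Fintype PL] [Field K] (s : Sys X PL)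
    (A : Ari X PL K) (η : ℝ) (Z : Finset X) (R L : PL → ℝ) (G rq : PL → X → ℝ) (cn : PL → X)
    (W ε : ℝ), N.Good → Fm N s A η Z R L G rq cn W ε →
    ∀ D : Dbl X PL, DGood D s R → ∀ Z' ⊆ Z, ∀ t e : ℝ, W ≤ t * N.L ^ 5 → 0 < e → e ≤ 1 →
    1 ≤ (e / 4) ^ N.m * (N.q : ℝ) ^ 40 →
    e * (Z.card : ℝ) ^ 2 < (ed Z' fun y z => t ≤ 8 * om2 D y z : ℝ) →
    ∃ T ⊆ Z', ∃ T' ⊆ Z', Disjoint T T' ∧ (e / 4) ^ N.m * Z.card ≤ T.card ∧
      (e / 4) ^ N.m * Z.card ≤ T'.card ∧ N.u * t * (T.card * T'.card) ≤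
        8 * ∑ y ∈ T, ∑ z ∈ T', omh D T T' ((1 / N.L ^ 3) ^ 20) ((1 / N.L ^ 3) ^ 60) y z

/-- the field `rare` -/
def RARE2 : Prop :=
  ∀ (N : Nb) (X PL K : Type) [DecidableEq X] [Fintype PL] [Field K] (s : Sys X PL)
    (A : Ari X PL K) (η : ℝ) (Z : Finset X) (R L : PL → ℝ) (G rq : PL → X → ℝ) (cn : PL → X)
    (W ε : ℝ), N.Good → Fm N s A η Z R L G rq cn W ε →
    ∀ D : Dbl X PL, RGood D s R L rq → ∀ Z' ⊆ Z, ∀ t e : ℝ, W ≤ t * N.L ^ 5 → 0 < e → e ≤ 1 →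
    1 ≤ (e / 4) ^ N.m * (N.q : ℝ) ^ 40 →
    e * (Z.card : ℝ) ^ 2 < (ed Z' fun y z => t ≤ 8 * om2 D y z : ℝ) →
    ∃ T ⊆ Z', ∃ T' ⊆ Z', Disjoint T T' ∧ T.card = T'.card ∧ (e / 4) ^ N.m * Z.card ≤ T.card ∧
      ∃ (f : X → X → ℝ) (C : (Σ p : PL, (s.c p).I) → Prop),
        (∀ y ∈ T, ∀ z ∈ T', 0 ≤ f y z ∧ f y z ≤ 8 * om2 D y z ∧
          f y z ≤ 400 * (fam s Z R L rq).W fun i =>
            C i ∧ y ∈ (fam s Z R L rq).S i ∧ z ∈ (fam s Z R L rq).S i) ∧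
        N.u * t * (T.card : ℝ) ^ 2 ≤ ∑ y ∈ T, ∑ z ∈ T', f y z ∧
        ∀ i, C i → (N.q : ℝ) ^ 50 * (Z ∩ (fam s Z R L rq).S i).card ≤ Z.card ∧
          ((T ∪ T').card : ℝ) ≤ N.L ^ 200 * ((T ∪ T') ∩ (fam s Z R L rq).S i).card

open Classical in
/-- the mirror at one place -/
def CMIRP : Prop :=
  ∀ (N : Nb) (X PL K : Type) [DecidableEq X] [Fintype PL] [Field K] (s : Sys X PL)
    (A : Ari X PL K) (η : ℝ) (Z : Finset X) (R L : PL → ℝ) (G rq : PL → X → ℝ) (cn : PL → X)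
    (W ε : ℝ), N.Good → Fm N s A η Z R L G rq cn W ε →
    ∀ (p : PL), ∀ x ∈ Z, ∀ (T c : Finset X) (a a' ζ r₂ r₃ : ℝ), 0 < ζ → ζ ≤ 1 / 100 →
    0 < r₂ → a < ((s.c p).ball T x r₂).card → 0 < r₃ →
    (∀ t < r₃, (((s.c (s.bar p)).ball T x t).card : ℝ) ≤ a') →
    c ⊆ Z.erase x → c.Nonempty → (∀ y ∈ c, ∀ z ∈ c, s.lab x y = s.lab x z) →
    ∃ Aw : ℝ, 0 ≤ Aw ∧ ∃ M ⊆ c, ((c \ M).card : ℝ) ≤ 2 * ζ * c.card ∧
      (∀ z ∈ M, Aw ≤ (s.c (s.bar p)).W fun i => bc s Z R L rq (s.bar p) i ∧ x ∈ i.2 ∧ z ∈ i.2 ∧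
        ((T ∩ i.2).card : ℝ) ≤ a') ∧
      ∀ y ∈ c, ((s.c p).W fun i => bc s Z R L rq p i ∧ x ∈ i.2 ∧ y ∈ i.2 ∧
          ((T ∩ i.2).card : ℝ) ≤ a ∧ ((c ∩ i.2).card : ℝ) < 2 * ζ * c.card) ≤
        (if y ∈ M then 0 else 4 * Aw + (s.c (s.bar p)).eta) +
        (if (s.c p).d x y < r₂ then
          lq R rq (s.bar p) x + max 0 (Real.log (R (s.bar p) / r₃)) else 0) +
        2 * clp s L G rq p x y

open Classical in
/-- the field `mir` -/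
def CMIR : Prop :=
  ∀ (N : Nb) (X PL K : Type) [DecidableEq X] [Fintype PL] [Field K] (s : Sys X PL)
    (A : Ari X PL K) (η : ℝ) (Z : Finset X) (R L : PL → ℝ) (G rq : PL → X → ℝ) (cn : PL → X)
    (W ε : ℝ), N.Good → Fm N s A η Z R L G rq cn W ε →
    ∀ x ∈ Z, ∀ T ⊆ Z, x ∈ T → ∀ a a' ζ : ℝ, 1 ≤ a → 2 ≤ a' → a ≤ a' → a' < T.card → 0 < ζ →
    ζ ≤ 1 / 100 → ∃ er : X → ℝ, (∀ y, 0 ≤ er y) ∧
      ∑ y ∈ T.erase x, er y ≤ a * ((N.q : ℝ) ^ 51 * W + 4 * W * T.card / a') ∧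
      ∀ c ⊆ Z.erase x, (∀ y ∈ c, ∀ z ∈ c, s.lab x y = s.lab x z) → ∃ Aw : ℝ, 0 ≤ Aw ∧
        (∑ y ∈ c ∩ T, (fam s Z R L rq).W fun i => (fam s Z R L rq).b i ∧
            x ∈ (fam s Z R L rq).S i ∧ y ∈ (fam s Z R L rq).S i ∧
            ((T ∩ (fam s Z R L rq).S i).card : ℝ) ≤ a ∧
            ((c ∩ (fam s Z R L rq).S i).card : ℝ) < 2 * ζ * c.card) ≤
          8 * ζ * c.card * Aw + η * c.card + ∑ y ∈ c ∩ T, (er y + Clf s L G rq x y) ∧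
        ((c.filter fun z => ((fam s Z R L rq).W fun i => (fam s Z R L rq).b i ∧
            x ∈ (fam s Z R L rq).S i ∧ z ∈ (fam s Z R L rq).S i ∧
            ((T ∩ (fam s Z R L rq).S i).card : ℝ) ≤ a') < Aw / 2).card : ℝ) ≤ 4 * ζ * c.card

open Classical in
/-- the field `sep` -/
def CSEP : Prop :=
  ∀ (N : Nb) (X PL K : Type) [DecidableEq X] [Fintype PL] [Field K] (s : Sys X PL)
    (A : Ari X PL K) (η : ℝ) (Z : Finset X) (R L : PL → ℝ) (G rq : PL → X → ℝ) (cn : PL → X)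
    (W ε : ℝ), N.Good → Fm N s A η Z R L G rq cn W ε →
    (ed Z fun x y => Z.card ^ 9 <
      (Z.filter fun z => (fam s Z R L rq).DB x y z ≤ N.u ^ 10 * W).card ^ 10 : ℝ) ≤
    N.u * (Z.card : ℝ) ^ 2

end Pool.Agent.MP_ddf486_co.KV
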