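import Pool.Agent.MP_ddf486_co.KV.SpecE

/-! Project KV, block D: the start, the tail and one level. -/

set_option autoImplicit false
set_option linter.unusedSectionVars false

noncomputable section

namespace Pool.Agent.MP_ddf486_co.KV

open Finset Pool.Agent.MP_6c3157_co.PD Pool.Agent.MP_6c3157_co.PQ

section defs

variable {X ι : Type} [DecidableEq X] [Fintype ι]

/-- the row factor of the normalised kernel -/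
def cc (N : Nb) (F : Fam X ι) (Kt : ℝ) (Y : Finset X) (t Wb : ℝ) (y : X) : ℝ :=
  1 + (F.bb Kt Y y - Wb / 2) / N.Wt t

/-- the normalised mass of a pair in large sets; only small cells with `φ` are used -/
def nu (N : Nb) (F : Fam X ι) (Kt : ℝ) (Y : Finset X) (t Wb : ℝ) (φ : ι → Prop) (y z : X) : ℝ :=
  (op (1 - Wb / N.Wt t) (F.v (N.Wt t) φ) F.S)^[N.j] (hi N.s y z) Y /
    (cc N F Kt Y t Wb y ^ N.j * cc N F Kt Y t Wb z ^ N.j)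

/-- the normalised mass of a pair in tiny sets -/
def lam (N : Nb) (F : Fam X ι) (Kt : ℝ) (Y : Finset X) (t Wb : ℝ) (y z : X) : ℝ :=
  F.E (N.Wt t) Wb N.j (lo N.s y z) Y / (cc N F Kt Y t Wb y ^ N.j * cc N F Kt Y t Wb z ^ N.j)

/-- small cells without the property `φ` through a pair -/
def Fam.OC (F : Fam X ι) (φ : ι → Prop) (y z : X) : ℝ :=
  F.W fun i => F.b i ∧ ¬ φ i ∧ y ∈ F.S i ∧ z ∈ F.S i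

/-- the data of one level, in units of `t` -/
structure Dc (N : Nb) (F : Fam X ι) (Kt : ℝ) (Y : Finset X) (t Wb : ℝ) : Prop where
  w_lo : ∀ i, 0 ≤ F.w i
  t_pos : 0 < t
  big : N.s ≤ Y.card
  wb : Wb ≤ N.Wt t
  idn : ∀ y ∈ Y, ∀ z ∈ Y, y ≠ z →
    |F.OB y z - (F.bb Kt Y y + F.bb Kt Y z - F.K0 Y y z)| ≤ N.u ^ 1000 * t
  row : ∀ y ∈ Y, |F.bb Kt Y y - Wb / 2| ≤ 20 * t
  dg : ∀ y ∈ Y, F.K0 Y y y ≤ (N.q : ℝ) ^ 52 * t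
  off : ∀ y ∈ Y, ∀ z ∈ Y, y ≠ z → |F.K0 Y y z| ≤ N.L ^ 6 * t
  ob : ∀ y ∈ Y, ∀ z ∈ Y, y ≠ z → F.OB y z ≤ N.L ^ 6 * t
  nrm : ∑ y ∈ Y, ∑ z ∈ Y.erase y, |F.K0 Y y z| ^ N.r ≤ (Y.card : ℝ) ^ 2 * (t / 8) ^ N.r

/-- a kernel `K`, the mass `ν` in large sets and the mass `lm` in tiny sets -/
structure Pk (Y : Finset X) (K ν lm : X → X → ℝ) (u t s : ℝ) : Prop where
  gK : Gram K
  gn : Gram ν
  n_lo : ∀ y ∈ Y, ∀ z ∈ Y, 0 ≤ ν y z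
  l_lo : ∀ y ∈ Y, ∀ z ∈ Y, 0 ≤ lm y z
  n_hi : ∀ y ∈ Y, ∀ z ∈ Y, y ≠ z → ν y z ≤ Real.exp (-(u ^ 400 / t) * K y z + u ^ 1000)
  n_ge : ∀ y ∈ Y, ∀ z ∈ Y, y ≠ z → 1 - u ^ 400 / t * K y z - u ^ 1000 - lm y z ≤ ν y z
  n_dg : ∀ y ∈ Y, (s - 1) * ν y y ≤ 4 * ∑ z ∈ Y.erase y, ν y z

open Classical in
/-- the rows of `ν` on the good set `Y₁` -/
structure Rw (Y Y₁ : Finset X) (K ν : X → X → ℝ) (u t s : ℝ) : Prop where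
  sub : Y₁ ⊆ Y
  row : ∀ y ∈ Y₁, |∑ z ∈ Y, ν y z - Y.card| ≤ 5 * u ^ 500 * Y.card
  tl : ∀ y ∈ Y₁, (∑ z ∈ Y.erase y, if K y z < -t then ν y z else 0) ≤ u ^ 600 * Y.card
  dg : ∀ y ∈ Y₁, (s - 1) * ν y y ≤ 8 * Y.card
  tot : ∑ y ∈ Y, ∑ z ∈ Y, ν y z ≤ (1 + 5 * u ^ 500) * (Y.card : ℝ) ^ 2

open Classical in
/-- the situation after the kernel lemma -/
structure Mid (N : Nb) (F : Fam X ι) (Kt : ℝ) (Y Y₁ : Finset X) (t Wb : ℝ) : Prop where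
  dc : Dc N F Kt Y t Wb
  pk : Pk Y (F.K0 Y) (nu N F Kt Y t Wb fun _ => True) (lam N F Kt Y t Wb) N.u t N.s
  rw : Rw Y Y₁ (F.K0 Y) (nu N F Kt Y t Wb fun _ => True) N.u t N.s
  big : (Y.card : ℝ) ≤ Y₁.card + N.u ^ 90 * Y.card
  tail : (N.q : ℝ) ^ 100 * (∑ y ∈ Y, ∑ z ∈ Y.erase y,
    if F.K0 Y y z < -t then nu N F Kt Y t Wb (fun _ => True) y z else 0) ≤ 2 * (Y.card : ℝ) ^ 2
  nrm : ∑ y ∈ Y₁, ∑ z ∈ Y₁.erase y, |F.K0 Y y z| ^ N.r ≤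
    (Y.card : ℝ) ^ 2 * (N.u ^ 80 * t) ^ N.r

end defs

/-! ### rows: identities and bounds -/

/-- identities of the centred kernel -/
def IDN : Prop :=
  ∀ (X ι : Type) [DecidableEq X] [Fintype ι] (F : Fam X ι) (Kt : ℝ) (Y : Finset X),
    (∀ y z, F.bb Kt Y y + F.bb Kt Y z - F.K0 Y y z = Kt - F.OA y z) ∧
    (Y.Nonempty → ∀ y, ∑ z ∈ Y, F.K0 Y y z = 0) ∧
    (∀ D : ℝ, (∀ i, 0 ≤ F.w i) →
      (∀ y ∈ Y, ∀ z ∈ Y, F.W (fun i => ¬ F.b i ∧ y ∈ F.S i ∧ z ∉ F.S i) ≤ D) →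
      ∀ y ∈ Y, F.K0 Y y y ≤ 2 * D) ∧
    ∀ U : Finset X, U.Nonempty →
      F.disc U Y * (U.card : ℝ) ^ 2 = ∑ y ∈ U, ∑ z ∈ U, F.K0 Y y z ∧
      (∀ y z, F.K0 U y z = F.K0 Y y z - (∑ a ∈ U, F.K0 Y y a) / U.card -
        (∑ a ∈ U, F.K0 Y z a) / U.card + F.disc U Y) ∧
      ∀ y, F.bb Kt U y = F.bb Kt Y y - (∑ a ∈ U, F.K0 Y y a) / U.card + F.disc U Y / 2

/-- the row term and the kernel are bounded -/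
def BBD : Prop :=
  ∀ (X : Type) [DecidableEq X] (Y : Finset X) (O K : X → X → ℝ) (b : X → ℝ) (W η D : ℝ),
    0 ≤ η → 100 * η ≤ W → 100 ≤ Y.card → 100 * D ≤ W * Y.card →
    (∀ y ∈ Y, ∀ z ∈ Y, y ≠ z →
      0 ≤ O y z ∧ O y z ≤ 2 * W ∧ |O y z - (b y + b z - K y z)| ≤ η) →
    (∀ y ∈ Y, ∑ z ∈ Y, K y z = 0) → (∀ y ∈ Y, 0 ≤ K y y ∧ K y y ≤ D) →
    (∀ y ∈ Y, |b y| ≤ 3 * W) ∧ ∀ y ∈ Y, ∀ z ∈ Y, y ≠ z → |K y z| ≤ 9 * W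

/-- the data of a level from the model and the state -/
def CTX : Prop :=
  ∀ (N : Nb) (X ι : Type) [DecidableEq X] [Fintype ι] (F : Fam X ι) (lab : X → X → ℝ)
    (Z Y : Finset X) (W Kt η : ℝ) (Om Cl : X → X → ℝ) (Gh : X → ℝ) (t e Wb : ℝ), N.Good →
    Am N F lab Z W Kt η Om Cl Gh → St N F Z Y W Kt Om Gh t e Wb → N.s ≤ Y.card →
    Dc N F Kt Y t Wb ∧ ∀ y ∈ Y, |F.bb Kt Y y| ≤ 3 * W

/-- powers of one step -/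
def RHO : Prop :=
  ∀ (j : ℕ) (e t Wt a b : ℝ), 0 < e → e ≤ 1 / 1000 → 0 < t → 1 ≤ j → j * t = e * Wt →
    |a| ≤ 20 * t → |b| ≤ 20 * t →
    (1 / 2 ≤ (1 + a / Wt) ^ j * (1 + b / Wt) ^ j ∧ (1 + a / Wt) ^ j * (1 + b / Wt) ^ j ≤ 2) ∧
    ∀ x δ d B th : ℝ, |x| ≤ B * t → 1 ≤ B → |δ| ≤ th * t → 0 ≤ d → B ≤ th * j →
      0 ≤ 1 + (a + b - x + δ - d) / Wt →
      (1 + (a + b - x + δ - d) / Wt) ^ j ≤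
        (1 + a / Wt) ^ j * (1 + b / Wt) ^ j * Real.exp (-(e / t) * x - e / t * d / 2 + th) ∧
      (d = 0 → (1 + a / Wt) ^ j * (1 + b / Wt) ^ j * (1 - e / t * x - th) ≤
        (1 + (a + b - x + δ - d) / Wt) ^ j)

/-! ### rows: the tail and the normalised kernel -/

open Classical in
/-- an odd power of a Gram kernel against a Gram kernel -/
def TAILA : Prop :=
  ∀ (X : Type) [DecidableEq X] (Y : Finset X) (K M : X → X → ℝ) (r : ℕ) (t D a : ℝ),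
    Gram K → Gram M → Odd r → 0 < t → 1 ≤ D → (8 * D) ^ r ≤ a - 1 →
    (∀ y ∈ Y, ∀ z ∈ Y, 0 ≤ M y z) → (∀ y ∈ Y, ∀ z ∈ Y, y ≠ z → -t ≤ K y z → M y z ≤ 2) →
    (∀ y ∈ Y, (a - 1) * M y y ≤ ∑ z ∈ Y.erase y, M y z) → (∀ y ∈ Y, K y y ≤ D * t) →
    ∑ y ∈ Y, ∑ z ∈ Y.erase y, |K y z| ^ r ≤ (Y.card : ℝ) ^ 2 * (t / 8) ^ r →
    8 ^ r * (∑ y ∈ Y, ∑ z ∈ Y.erase y, if K y z < -t then M y z else 0) ≤ 5 * (Y.card : ℝ) ^ 2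

/-- the normalised kernel -/
def NUK1 : Prop :=
  ∀ (N : Nb) (X ι : Type) [DecidableEq X] [Fintype ι] (F : Fam X ι) (Kt : ℝ) (Y : Finset X)
    (t Wb : ℝ), N.Good → Dc N F Kt Y t Wb →
    Pk Y (F.K0 Y) (nu N F Kt Y t Wb fun _ => True) (lam N F Kt Y t Wb) N.u t N.s ∧
    ∀ y ∈ Y, ∀ z ∈ Y,
      nu N F Kt Y t Wb (fun _ => True) y z ≤ 2 * F.E (N.Wt t) Wb N.j (hi N.s y z) Y ∧
      lam N F Kt Y t Wb y z ≤ 2 * F.E (N.Wt t) Wb N.j (lo N.s y z) Y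

/-- the normalised kernel with some cells removed -/
def NUK2 : Prop :=
  ∀ (N : Nb) (X ι : Type) [DecidableEq X] [Fintype ι] (F : Fam X ι) (Kt : ℝ) (Y : Finset X)
    (t Wb : ℝ) (φ : ι → Prop), N.Good → Dc N F Kt Y t Wb →
    Gram (nu N F Kt Y t Wb φ) ∧
    (∀ y ∈ Y, ∀ z ∈ Y, 0 ≤ nu N F Kt Y t Wb φ y z ∧
      nu N F Kt Y t Wb φ y z ≤ nu N F Kt Y t Wb (fun _ => True) y z) ∧
    ∀ y ∈ Y, ∀ z ∈ Y, y ≠ z →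
      nu N F Kt Y t Wb φ y z ≤ Real.exp (-(N.u ^ 400 / t) * F.K0 Y y z -
        N.u ^ 400 / t * F.OC φ y z / 2 + N.u ^ 1000) ∧
      (-t ≤ F.K0 Y y z → nu N F Kt Y t Wb (fun _ => True) y z - 2 * (N.u ^ 400 / t * F.OC φ y z) ≤
        nu N F Kt Y t Wb φ y z)

open Classical in
/-- one row of the normalised kernel -/
def NUB1 : Prop :=
  ∀ (X : Type) [DecidableEq X] (Y : Finset X) (K ν lm : X → X → ℝ) (u t s D : ℝ) (r : ℕ),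
    Pk Y K ν lm u t s → 0 < u → u ≤ 1 / 10 → 0 < t → 1 ≤ r → ∀ y ∈ Y,
    ∑ z ∈ Y, K y z = 0 → K y y ≤ D * t →
    (∑ z ∈ Y.erase y, ν y z ≤ Y.card * (1 + 5 * u ^ 800) + u ^ 400 * D +
      3 * (∑ z ∈ Y.erase y, |K y z| ^ r) / t ^ r +
      ∑ z ∈ Y.erase y, if K y z < -t then ν y z else 0) ∧
    (Y.card * (1 - u ^ 1000) - 1 - 2 * (∑ z ∈ Y.erase y, |K y z| ^ r) / t ^ r -
      ∑ z ∈ Y.erase y, if |K y z| ≤ t then lm y z else 0) ≤ ∑ z ∈ Y.erase y, ν y z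

open Classical in
/-- the good rows -/
def NUB2 : Prop :=
  ∀ (X : Type) [DecidableEq X] (Y : Finset X) (K ν lm : X → X → ℝ) (u t s D : ℝ) (r : ℕ),
    Pk Y K ν lm u t s → 0 < u → u ≤ 1 / 10 ^ 30 → 0 < t → 1 ≤ u ^ 1000 * 2 ^ r →
    1 ≤ u ^ 1000 * (s - 1) → s ≤ Y.card → D ≤ u ^ 1000 * Y.card →
    (∀ y ∈ Y, ∑ z ∈ Y, K y z = 0) → (∀ y ∈ Y, K y y ≤ D * t) →
    ∑ y ∈ Y, ∑ z ∈ Y.erase y, |K y z| ^ r ≤ (Y.card : ℝ) ^ 2 * (t / 8) ^ r →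
    (∑ y ∈ Y, ∑ z ∈ Y.erase y, if K y z < -t then ν y z else 0) ≤ u ^ 1000 * (Y.card : ℝ) ^ 2 →
    (∑ y ∈ Y, ∑ z ∈ Y.erase y, if |K y z| ≤ t then lm y z else 0) ≤
      2 * u ^ 600 * (Y.card : ℝ) ^ 2 →
    ∃ Y₁, Rw Y Y₁ K ν u t s ∧ (Y.card : ℝ) ≤ Y₁.card + u ^ 90 * Y.card

/-! ### rows: the kernel lemma -/

open Classical in
/-- the positive part of a shifted odd power -/
def KPOS : Prop :=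
  ∀ (X : Type) [DecidableEq X] (Y : Finset X) (K : X → X → ℝ) (p : ℕ) (τ n : ℝ),
    Gram K → Odd p → 3 ≤ p → 0 < τ → (Y.card : ℝ) ≤ n →
    ∑ y ∈ Y, ∑ z ∈ Y.erase y, |K y z| ^ p = n ^ 2 * τ ^ p →
    100 * ∑ y ∈ Y, K y y ^ p ≤ n ^ 2 * τ ^ p →
    n ^ 2 * τ ^ p ≤
      3 * ∑ y ∈ Y, ∑ z ∈ Y.erase y, if τ / 4 ≤ K y z then (K y z + τ / 4) ^ p else 0

open Classical in
/-- the negative part of a shifted odd power -/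
def KNEG : Prop :=
  ∀ (X : Type) [DecidableEq X] (Y : Finset X) (K : X → X → ℝ) (p : ℕ) (τ n H ε : ℝ),
    0 < τ → 1 ≤ H → Real.exp (-(p / (8 * H ^ 2))) ≤ ε →
    ∑ y ∈ Y, ∑ z ∈ Y.erase y, |K y z| ^ p = n ^ 2 * τ ^ p →
    ∑ y ∈ Y, ∑ z ∈ Y.erase y, |K y z| ^ (2 * p + 1) ≤ n ^ 2 * (H * τ) ^ (2 * p + 1) →
    (∑ y ∈ Y, ∑ z ∈ Y.erase y, if K y z ≤ -(τ / 4) then |K y z + τ / 4| ^ p else 0) ≤
      (ε + 1 / 2 ^ p) * (n ^ 2 * τ ^ p)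

/-- the shifted power against the normalised kernel -/
def KCORE : Prop :=
  ∀ (X : Type) [DecidableEq X] (Y Y₁ : Finset X) (K ν lm : X → X → ℝ) (u t s τ H E : ℝ) (p : ℕ),
    Pk Y K ν lm u t s → Rw Y Y₁ K ν u t s → 0 < u → u ≤ 1 / 10 ^ 30 → 0 < t → Odd p →
    1 ≤ u ^ 800 * 2 ^ p → u ^ 80 * t ≤ τ → 1 ≤ H → Real.exp (-(p / (8 * H ^ 2))) ≤ u ^ 800 →
    s ≤ Y.card → 1 ≤ E → 9 * E ^ p ≤ u ^ 800 * (s - 1) → (∀ y ∈ Y₁, K y y + τ / 4 ≤ E * τ) →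
    ∑ y ∈ Y₁, ∑ z ∈ Y₁.erase y, |K y z| ^ p = (Y.card : ℝ) ^ 2 * τ ^ p →
    ∑ y ∈ Y₁, ∑ z ∈ Y₁.erase y, |K y z| ^ (2 * p + 1) ≤
      (Y.card : ℝ) ^ 2 * (H * τ) ^ (2 * p + 1) → False

/-- the kernel lemma -/
def KLEM : Prop :=
  ∀ (N : Nb) (X : Type) [DecidableEq X] (Y Y₁ : Finset X) (K ν lm : X → X → ℝ) (t : ℝ), N.Good →
    Pk Y K ν lm N.u t N.s → Rw Y Y₁ K ν N.u t N.s → 0 < t → N.s ≤ Y.card →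
    (∀ y ∈ Y, K y y ≤ (N.q : ℝ) ^ 52 * t) →
    (∀ y ∈ Y, ∀ z ∈ Y, y ≠ z → |K y z| ≤ N.L ^ 6 * t) →
    ∑ y ∈ Y₁, ∑ z ∈ Y₁.erase y, |K y z| ^ N.r ≤ (Y.card : ℝ) ^ 2 * (N.u ^ 80 * t) ^ N.r

open Classical in
/-- everything up to the kernel lemma -/
def MID : Prop :=
  ∀ (N : Nb) (X ι : Type) [DecidableEq X] [Fintype ι] (F : Fam X ι) (Kt : ℝ) (Y : Finset X)
    (t Wb : ℝ), N.Good → Dc N F Kt Y t Wb →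
    (N.q : ℝ) ^ 100 * (∑ y ∈ Y, ∑ z ∈ Y.erase y,
      if F.K0 Y y z < -t then F.E (N.Wt t) Wb N.j (hi N.s y z) Y else 0) ≤ (Y.card : ℝ) ^ 2 →
    tiny N F Y t Wb ≤ N.u ^ 600 * (Y.card : ℝ) ^ 2 → ∃ Y₁, Mid N F Kt Y Y₁ t Wb

/-! ### rows: consequences of the kernel lemma -/

open Classical in
/-- from a high norm to the first norm and to a count -/
def LR : Prop :=
  ∀ (α : Type) (A : Finset α) (f : α → ℝ) (r : ℕ) (c M : ℝ), 1 ≤ r → 0 < c →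
    ∑ a ∈ A, |f a| ^ r ≤ M * c ^ r →
    ∑ a ∈ A, |f a| ≤ 2 * c * (A.card + M / 2 ^ r) ∧
    2 ^ r * ((A.filter fun a => 2 * c ≤ |f a|).card : ℝ) ≤ M

open Classical in
/-- large subsets of the good set see a small kernel -/
def SUBU : Prop :=
  ∀ (N : Nb) (X ι : Type) [DecidableEq X] [Fintype ι] (F : Fam X ι) (Kt : ℝ) (Y Y₁ : Finset X)
    (t Wb : ℝ), N.Good → Mid N F Kt Y Y₁ t Wb →
    2 ^ N.r * (ed Y₁ fun y z => 2 * (N.u ^ 80 * t) ≤ |F.K0 Y y z| : ℝ) ≤ (Y.card : ℝ) ^ 2 ∧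
    ∀ U ⊆ Y₁, (Y.card : ℝ) ≤ (N.q : ℝ) ^ 41 * U.card →
      ∑ y ∈ U, ∑ z ∈ U.erase y, |F.K0 Y y z| ≤ 4 * (N.u ^ 80 * t) * (U.card : ℝ) ^ 2 ∧
      F.disc U Y ≤ 5 * (N.u ^ 80 * t) ∧
      (∑ y ∈ U, ∑ z ∈ U.erase y, if F.K0 Y y z < -t then
        nu N F Kt Y t Wb (fun _ => True) y z + 1 else 0) ≤ N.u ^ 600 * (U.card : ℝ) ^ 2 ∧
      ∀ y ∈ U, nu N F Kt Y t Wb (fun _ => True) y y ≤ N.u ^ 600 * U.card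

/-- edges that are alone of their kind in their fibre are few -/
def ZSI : Prop :=
  ∀ (N : Nb) (X : Type) [DecidableEq X] (lab : X → X → ℝ) (Z Y : Finset X) (H : X → X → Prop),
    N.Good → Pot N lab Z → Y ⊆ Z →
    (∀ x ∈ Y, ∀ y ∈ Y, ∀ z ∈ Y, y ≠ x → z ≠ x → H x y → H x z → lab x y = lab x z → y = z) →
    (ed Y H : ℝ) ≤ 2 * N.ψ * (Z.card : ℝ) ^ 2

/-- outer heights are small -/
def H0 : Prop :=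
  ∀ (N : Nb) (X ι : Type) [DecidableEq X] [Fintype ι] (F : Fam X ι) (lab : X → X → ℝ)
    (Z Y Y₁ : Finset X) (W Kt η : ℝ) (Om Cl : X → X → ℝ) (Gh : X → ℝ) (τ : ℝ), N.Good →
    Am N F lab Z W Kt η Om Cl Gh → Pot N lab Z → Y ⊆ Z → Y₁ ⊆ Y → 9 * Z.card ≤ 10 * Y₁.card →
    (∀ U ⊆ Y₁, (Y.card : ℝ) ≤ (N.q : ℝ) ^ 41 * U.card → F.disc U Y ≤ τ) →
    ∃ Y₂ ⊆ Y₁, (Y₁.card : ℝ) ≤ Y₂.card + N.u ^ 90 * Z.card ∧ ∀ y ∈ Y₂, Gh y ≤ 10 ^ 6 * τ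

open Classical in
/-- Cauchy-Schwarz for the kernel with some cells removed -/
def DE1 : Prop :=
  ∀ (X : Type) [DecidableEq X] (Y Y₁ U : Finset X) (K ν ν' d : X → X → ℝ) (u t s : ℝ),
    Rw Y Y₁ K ν u t s → U ⊆ Y₁ → 0 < u → u ≤ 1 / 10 ^ 30 → 0 < t → Gram ν' →
    (∀ y ∈ Y, ∀ z ∈ Y, 0 ≤ d y z ∧ 0 ≤ ν' y z ∧ ν' y z ≤ ν y z) →
    (∀ y ∈ Y, ∀ z ∈ Y, y ≠ z →
      ν' y z ≤ Real.exp (-(u ^ 400 / t) * K y z - d y z / 2 + u ^ 1000) ∧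
      (-t ≤ K y z → ν y z - 2 * d y z ≤ ν' y z)) →
    ∑ y ∈ U, ∑ z ∈ Y.erase y, d y z ≤ u ^ 600 * U.card * Y.card →
    ∑ y ∈ U, ∑ z ∈ U.erase y, |K y z| ≤ 4 * (u ^ 80 * t) * (U.card : ℝ) ^ 2 →
    (∑ y ∈ U, ∑ z ∈ U.erase y, if K y z < -t then ν y z + 1 else 0) ≤
      u ^ 600 * (U.card : ℝ) ^ 2 →
    (∀ y ∈ U, ν y y ≤ u ^ 600 * U.card) →
    ∑ y ∈ U, ∑ z ∈ U.erase y, min (d y z) 1 ≤ 40 * u ^ 480 * (U.card : ℝ) ^ 2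

/-- cells that are heavy in `U` and light in `Z` -/
def DE2 : Prop :=
  ∀ (X ι : Type) [DecidableEq X] [Fintype ι] (F : Fam X ι) (Z Y U : Finset X) (C : ι → Prop)
    (Q Λ B : ℝ), (∀ i, 0 ≤ F.w i) → U ⊆ Y → Y ⊆ Z → Z.card ≤ 2 * Y.card → 1 ≤ Λ → 4 * Λ ≤ Q →
    2 * Λ ≤ U.card → (∀ y ∈ Y, ∀ z ∈ Y, y ≠ z → F.OB y z ≤ B) →
    (∀ i, C i → Q * (Z ∩ F.S i).card ≤ Z.card ∧ (U.card : ℝ) ≤ Λ * (U ∩ F.S i).card) →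
    (∑ y ∈ U, ∑ z ∈ U, F.W fun i => (C i ∧ y ∈ F.S i ∧ z ∈ F.S i) ∧ ¬ F.b i) ≤
      4 * F.disc U Y * (U.card : ℝ) ^ 2 ∧
    Q * ∑ y ∈ U, ∑ z ∈ Y.erase y, F.OC (fun i => ¬ C i) y z ≤ 4 * Λ * B * U.card * Y.card

/-- double depth is rare at the next level -/
def DE3 : Prop :=
  ∀ (N : Nb) (X ι : Type) [DecidableEq X] [Fintype ι] (F : Fam X ι) (lab : X → X → ℝ)
    (Z Y Y₁ : Finset X) (W Kt η : ℝ) (Om Cl : X → X → ℝ) (Gh : X → ℝ) (t e e' Wb : ℝ), N.Good →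
    Am N F lab Z W Kt η Om Cl Gh → St N F Z Y W Kt Om Gh t e Wb → Mid N F Kt Y Y₁ t Wb →
    W ≤ N.u ^ 8 * t * N.L ^ 5 → 0 < e' → N.k * e' * N.L ^ 20 ≤ 1 →
    1 ≤ (e' / 4) ^ N.m * (N.q : ℝ) ^ 40 → e * N.L ^ 30 ≤ (e' / 4) ^ (2 * N.m) →
    (ed Y₁ fun y z => N.u ^ 8 * t ≤ Om y z : ℝ) ≤ e' * (Z.card : ℝ) ^ 2

/-- a median -/
def ROWA : Prop :=
  ∀ (X : Type) [DecidableEq X] (Y : Finset X) (b : X → ℝ) (Δ β : ℝ), Y.Nonempty → 0 ≤ Δ →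
    (ed Y fun x z => b x + Δ < b z : ℝ) ≤ β →
    ∃ m ∈ Y, ∃ Y' ⊆ Y, ((Y.card : ℝ) - Y'.card) * Y.card ≤ 4 * β ∧ ∀ y ∈ Y', |b y - b m| ≤ Δ

/-- the row term hardly ever goes up along an edge -/
def ROWB : Prop :=
  ∀ (N : Nb) (X ι : Type) [DecidableEq X] [Fintype ι] (F : Fam X ι) (lab : X → X → ℝ)
    (Z Y Y₁ Y₂ : Finset X) (W Kt η : ℝ) (Om Cl : X → X → ℝ) (Gh : X → ℝ) (t e' Wb : ℝ), N.Good →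
    Am N F lab Z W Kt η Om Cl Gh → Pot N lab Z → Mid N F Kt Y Y₁ t Wb → Y ⊆ Z → Y₂ ⊆ Y₁ →
    W ≤ N.u ^ 8 * t * N.L ^ 5 → N.k * e' * N.L ^ 20 ≤ 1 →
    (ed Y₁ fun y z => N.u ^ 8 * t ≤ Om y z : ℝ) ≤ e' * (Z.card : ℝ) ^ 2 →
    (∀ y ∈ Y₂, Gh y ≤ N.u ^ 8 * t) →
    (ed Y₂ fun x z => F.bb Kt Y x + 5 * (N.u ^ 8 * t) < F.bb Kt Y z : ℝ) ≤
      N.u ^ 100 * (Z.card : ℝ) ^ 2

/-- centring again on a trimmed set -/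
def REC : Prop :=
  ∀ (X ι : Type) [DecidableEq X] [Fintype ι] (F : Fam X ι) (Kt : ℝ) (Y Y₁ Y₃ : Finset X) (r : ℕ)
    (c : ℝ), (∀ i, 0 ≤ F.w i) → Y.Nonempty → Y₁ ⊆ Y → Y₃ ⊆ Y₁ → 3 * Y.card ≤ 4 * Y₃.card →
    1 ≤ r → 0 < c → (∀ y ∈ Y, F.K0 Y y y ≤ c * Y.card) →
    ∑ y ∈ Y₁, ∑ z ∈ Y₁.erase y, |F.K0 Y y z| ^ r ≤ (Y.card : ℝ) ^ 2 * c ^ r →
    ∃ Y' ⊆ Y₃, 4 ^ r * ((Y₃.card : ℝ) - Y'.card) ≤ Y.card ∧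
      ∑ y ∈ Y', ∑ z ∈ Y'.erase y, |F.K0 Y' y z| ^ r ≤ (Y'.card : ℝ) ^ 2 * (1020 * c) ^ r ∧
      ∀ y ∈ Y', |F.bb Kt Y' y - F.bb Kt Y y| ≤ 51 * c

end Pool.Agent.MP_ddf486_co.KV
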