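import Pool.Agent.MP_ddf486_co.KV.Op

/-! Project KV, block E, first part: rows on the cutting operator alone. -/

set_option autoImplicit false
set_option linter.unusedSectionVars false

noncomputable section

namespace Pool.Agent.MP_ddf486_co.KV

open Finset Pool.Agent.MP_6c3157_co.PD Pool.Agent.MP_6c3157_co.PQ

section defs

variable {X ι : Type} [DecidableEq X] [Fintype ι]

open Classical in
/-- the stopped step: sets with at most `a` points do not move -/
def sop (a w₀ : ℝ) (v : ι → ℝ) (S : ι → Finset X) (f : Finset X → ℝ) (T : Finset X) : ℝ :=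
  if (T.card : ℝ) ≤ a then f T else op w₀ v S f T

/-- weight of the cells through a pair -/
def ob (v : ι → ℝ) (S : ι → Finset X) (x y : X) : ℝ := ∑ i, if x ∈ S i ∧ y ∈ S i then v i else 0

/-- points of `c` lost in one step, on the cells through a pair -/
def los (v : ι → ℝ) (S : ι → Finset X) (c : Finset X) (x y : X) : ℝ :=
  ∑ i, if x ∈ S i ∧ y ∈ S i then v i * ((c \ S i).card : ℝ) else 0

open Classical in
/-- the pair survives in a set with at most `a` points and fewer than `b` points of `c` -/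
def dead (a b : ℝ) (c : Finset X) (x y : X) (T : Finset X) : ℝ :=
  if x ∈ T ∧ y ∈ T ∧ (T.card : ℝ) ≤ a ∧ ((c ∩ T).card : ℝ) < b then 1 else 0

open Classical in
/-- weight of the cells through a pair that make `T` tiny and hold few points of `c` -/
def prv (v : ι → ℝ) (S : ι → Finset X) (a b : ℝ) (c : Finset X) (x y : X) (T : Finset X) : ℝ :=
  ∑ i, if x ∈ S i ∧ y ∈ S i ∧ ((T ∩ S i).card : ℝ) ≤ a ∧ ((c ∩ S i).card : ℝ) < b then v i else 0

open Classical in
/-- the mirror case: a large set that holds almost all of `c` -/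
def mirc (v : ι → ℝ) (S : ι → Finset X) (a a' ζ : ℝ) (c : Finset X) (x y : X) (T : Finset X) : ℝ :=
  if x ∈ T ∧ y ∈ T ∧ a' < T.card ∧ ((c \ T).card : ℝ) ≤ ζ * c.card then
    prv v S a (2 * ζ * c.card) c x y T else 0

open Classical in
/-- weight of the cells through a pair that make `T` tiny -/
def rate (v : ι → ℝ) (S : ι → Finset X) (a : ℝ) (x y : X) (T : Finset X) : ℝ :=
  ∑ i, if x ∈ S i ∧ y ∈ S i ∧ ((T ∩ S i).card : ℝ) ≤ a then v i else 0

/-- one cluster in every fibre, indexed by the pin and the label -/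
structure Cs (lab : X → X → ℝ) (Y : Finset X) (c : X → ℝ → Finset X) : Prop where
  sub : ∀ x l, ∀ y ∈ c x l, y ∈ Y ∧ y ≠ x ∧ lab x y = l

end defs

/-- the stopped operator is linear and monotone -/
def SOPL : Prop :=
  ∀ (X ι : Type) [DecidableEq X] [Fintype ι] (a w₀ : ℝ) (v : ι → ℝ) (S : ι → Finset X) (n : ℕ),
    0 ≤ w₀ → (∀ i, 0 ≤ v i) →
    (∀ (f g : Finset X → ℝ) (T : Finset X), (∀ U ⊆ T, f U ≤ g U) →
      (sop a w₀ v S)^[n] f T ≤ (sop a w₀ v S)^[n] g T) ∧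
    (∀ (f g : Finset X → ℝ) (T : Finset X), (sop a w₀ v S)^[n] (fun U => f U + g U) T =
      (sop a w₀ v S)^[n] f T + (sop a w₀ v S)^[n] g T) ∧
    (∀ (b : ℝ) (f : Finset X → ℝ) (T : Finset X),
      (sop a w₀ v S)^[n] (fun U => b * f U) T = b * (sop a w₀ v S)^[n] f T) ∧
    ∀ (α : Type) (t : Finset α) (F : α → Finset X → ℝ) (T : Finset X),
      (sop a w₀ v S)^[n] (fun U => ∑ b ∈ t, F b U) T = ∑ b ∈ t, (sop a w₀ v S)^[n] (F b) T

/-- the stopped process against the free one -/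
def STOP : Prop :=
  ∀ (X ι : Type) [DecidableEq X] [Fintype ι] (a w₀ : ℝ) (v : ι → ℝ) (S : ι → Finset X) (n : ℕ)
    (x y : X) (T : Finset X), 0 ≤ w₀ → (∀ i, 0 ≤ v i) →
    (op w₀ v S)^[n] (lo a x y) T ≤
      max (w₀ + ob v S x y) 1 ^ n * (sop a w₀ v S)^[n] (lo a x y) T ∧
    (∀ (b : ℝ) (c : Finset X), min (w₀ + ob v S x y) 1 ^ n * (sop a w₀ v S)^[n] (dead a b c x y) T ≤
      (op w₀ v S)^[n] (dead a b c x y) T) ∧
    (sop a w₀ v S)^[n] (lo a x y) T ≤
      lo a x y T + ob v S x y * ∑ l ∈ range n, (op w₀ v S)^[l] (hi a x y) T ∧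
    (sop a w₀ v S)^[n] (lo a x y) T ≤ max (w₀ + ob v S x y) 1 ^ n

/-- more steps keep a tiny set tiny; a cell that makes the set tiny is met -/
def MORE : Prop :=
  ∀ (X ι : Type) [DecidableEq X] [Fintype ι] (a w₀ : ℝ) (v : ι → ℝ) (S : ι → Finset X) (n : ℕ)
    (x y : X) (T : Finset X), 0 ≤ w₀ → (∀ i, 0 ≤ v i) →
    (∀ m, (w₀ + ob v S x y) ^ m * (op w₀ v S)^[n] (lo a x y) T ≤
      (op w₀ v S)^[n + m] (lo a x y) T) ∧
    (x ∈ T → y ∈ T → 99 / 100 ≤ (w₀ + ob v S x y) ^ n → w₀ + ob v S x y ≤ 101 / 100 →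
      min 1 (n * rate v S a x y T) ≤ 4 * (op w₀ v S)^[n] (lo a x y) T)

open Classical in
/-- the expected loss of a cluster, and its tail -/
def LEMA : Prop :=
  ∀ (X ι : Type) [DecidableEq X] [Fintype ι] (w₀ : ℝ) (v : ι → ℝ) (S : ι → Finset X) (n : ℕ)
    (c : Finset X) (x y : X) (T : Finset X) (θ : ℝ), 0 ≤ w₀ → (∀ i, 0 ≤ v i) → 0 < θ →
    θ * (op w₀ v S)^[n]
        (fun U => if x ∈ U ∧ y ∈ U ∧ θ ≤ (((c ∩ T) \ U).card : ℝ) then 1 else 0) T ≤
      n * los v S c x y * max (w₀ + ob v S x y) 1 ^ n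

/-- a cluster that dies through cells holding many of its points needs two cuts -/
def NOPR : Prop :=
  ∀ (X ι : Type) [DecidableEq X] [Fintype ι] (a w₀ : ℝ) (v : ι → ℝ) (S : ι → Finset X) (n : ℕ)
    (c : Finset X) (x y : X) (T : Finset X) (ζ d : ℝ), 0 ≤ w₀ → (∀ i, 0 ≤ v i) → 0 < ζ →
    ζ ≤ 1 / 100 → c.Nonempty → c ⊆ T →
    (∀ i, v i ≠ 0 → 2 * ζ * c.card ≤ ((c ∩ S i).card : ℝ)) →
    n * los v S c x y ≤ d * c.card → max (w₀ + ob v S x y) 1 ^ n ≤ 2 →
    ζ ^ 2 * (op w₀ v S)^[n] (dead a (ζ * c.card) c x y) T ≤ 16 * d ^ 2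

/-- the mass of a dead edge -/
def DEAD1 : Prop :=
  ∀ (X ι : Type) [DecidableEq X] [Fintype ι] (a a' w₀ : ℝ) (v : ι → ℝ) (S : ι → Finset X) (n : ℕ)
    (c : Finset X) (x y : X) (T : Finset X) (ζ d : ℝ), 0 ≤ w₀ → (∀ i, 0 ≤ v i) → 0 < ζ →
    ζ ≤ 1 / 100 → c.Nonempty → c ⊆ T →
    (n + 1) * los v S c x y ≤ d * c.card → max (w₀ + ob v S x y) 1 ^ (n + 1) ≤ 2 →
    (op w₀ v S)^[n + 1] (dead a (ζ * c.card) c x y) T ≤
      40 * d ^ 2 / ζ ^ 2 + 2 * d * (op w₀ v S)^[n] (lo a' x y) T +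
        (n + 1) * (op w₀ v S)^[n] (mirc v S a a' ζ c x y) T

open Classical in
/-- the potential of a subset: junk, dead edges, living clusters -/
def PHU : Prop :=
  ∀ (X : Type) [DecidableEq X] (lab : X → X → ℝ) (κ ζ a : ℝ) (Y T : Finset X)
    (c : X → ℝ → Finset X), 1 ≤ κ → 0 < ζ → Cs lab Y c → T ⊆ Y → (T.card : ℝ) ≤ a →
    Phi lab κ T ≤ ∑ x ∈ Y, ∑ y ∈ Y.erase x,
      if y ∈ c x (lab x y) then
        dead a (ζ * (c x (lab x y)).card) (c x (lab x y)) x y T +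
          gf κ (fib lab Y x y).card / (fib lab Y x y).card *
            ((fib lab Y x y).card / (ζ * (c x (lab x y)).card)) * lo a x y T
      else lo a x y T

open Classical in
/-- the weights of the living clusters add up to the potential -/
def PHS2 : Prop :=
  ∀ (X : Type) [DecidableEq X] (lab : X → X → ℝ) (κ : ℝ) (Y : Finset X)
    (c : X → ℝ → Finset X), 1 ≤ κ → Cs lab Y c →
    (∑ x ∈ Y, ∑ y ∈ Y.erase x, if y ∈ c x (lab x y) then
        gf κ (fib lab Y x y).card / (fib lab Y x y).card *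
          ((fib lab Y x y).card / (c x (lab x y)).card) else 0) ≤ Phi lab κ Y

open Classical in
/-- the potential of a subset, through one representative of each cluster -/
def PHL : Prop :=
  ∀ (X : Type) [DecidableEq X] (lab : X → X → ℝ) (κ : ℝ) (Y T : Finset X)
    (c : X → ℝ → Finset X) (rp : X → ℝ → X), 1 ≤ κ → Cs lab Y c →
    (∀ x l, (c x l).Nonempty → rp x l ∈ c x l) → T ⊆ Y →
    Phi lab κ T ≤ ∑ x ∈ Y, ∑ y ∈ Y.erase x,
      if y ∈ c x (lab x y) then
        gf κ (fib lab Y x y).card / (fib lab Y x y).card *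
            ((fib lab Y x y).card / (c x (lab x y)).card) *
            (if x ∈ T ∧ rp x (lab x y) ∈ T then 1 else 0) +
          (if x ∈ T ∧ y ∈ T ∧ rp x (lab x y) ∉ T then 1 else 0)
      else if x ∈ T ∧ y ∈ T then 1 else 0

open Classical in
/-- one cluster in every fibre, from a symmetric relation with few exceptions -/
def CLA : Prop :=
  ∀ (X : Type) [DecidableEq X] (lab : X → X → ℝ) (Y : Finset X) (ty ra : X → X → Prop) (k : ℝ),
    (∀ y ∈ Y, ∀ z ∈ Y, y ≠ z → ((Y.filter fun x => lab x y = lab x z).card : ℝ) ≤ k) →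
    ∃ (c : X → ℝ → Finset X) (rp : X → ℝ → X), Cs lab Y c ∧
      (∀ x l, (c x l).Nonempty → rp x l ∈ c x l) ∧
      (∀ x l, ∀ y ∈ c x l, ty x y ∧ (y = rp x l ∨ ¬ ra y (rp x l))) ∧
      (ed Y fun x y => y ∉ c x (lab x y) : ℝ) ≤ (ed Y fun x y => ¬ ty x y : ℝ) + k * ed Y ra

end Pool.Agent.MP_ddf486_co.KV
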