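import Pool.Agent.MP_ddf486_co.KV.SpecE
import Pool.Agent.MP_ddf486_co.KV.Idn

/-! Project KV, block E, second part: rows on the model. -/

set_option autoImplicit false
set_option linter.unusedSectionVars false

noncomputable section

namespace Pool.Agent.MP_ddf486_co.KV

open Finset Pool.Agent.MP_6c3157_co.PD Pool.Agent.MP_6c3157_co.PQ

/-- all the data of one level -/
structure Dat (X ι : Type) where
  N : Nb
  F : Fam X ι
  lab : X → X → ℝ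
  Z : Finset X
  Y : Finset X
  W : ℝ
  Kt : ℝ
  η : ℝ
  Om : X → X → ℝ
  Cl : X → X → ℝ
  Gh : X → ℝ
  t : ℝ
  e : ℝ
  Wb : ℝ
  c : X → ℝ → Finset X
  rp : X → ℝ → X

section defs

variable {X ι : Type} [DecidableEq X] [Fintype ι]

/-- the cluster of an edge -/
def Dat.cl (D : Dat X ι) (x y : X) : Finset X := D.c x (D.lab x y)

/-- the lazy weight -/
def Dat.w0 (D : Dat X ι) : ℝ := 1 - D.Wb / D.N.Wt D.t

/-- the weights of the cells -/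
def Dat.v (D : Dat X ι) : ι → ℝ := D.F.v (D.N.Wt D.t) fun _ => True

/-- the process -/
def Dat.E (D : Dat X ι) (n : ℕ) (f : Finset X → ℝ) (T : Finset X) : ℝ :=
  (op D.w0 D.v D.F.S)^[n] f T

/-- the stopped process, started from `Y` -/
def Dat.Es (D : Dat X ι) (a : ℝ) (n : ℕ) (f : Finset X → ℝ) : ℝ :=
  (sop a D.w0 D.v D.F.S)^[n] f D.Y

/-- sum over the edges that lie in a cluster -/
def Dat.sg (D : Dat X ι) (f : X → X → ℝ) : ℝ :=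
  ∑ x ∈ D.Y, ∑ y ∈ D.Y.erase x, if y ∈ D.cl x y then f x y else 0

/-- sum over the other edges -/
def Dat.sj (D : Dat X ι) (f : X → X → ℝ) : ℝ :=
  ∑ x ∈ D.Y, ∑ y ∈ D.Y.erase x, if y ∈ D.cl x y then 0 else f x y

/-- mass of the good edges in sets with at most `a` points after `n` steps -/
def Dat.Fg (D : Dat X ι) (n : ℕ) (a : ℝ) : ℝ := D.sg fun x y => D.E n (lo a x y) D.Y

open Classical in
/-- the potential of the sets that are not tiny -/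
def Dat.ph (D : Dat X ι) (T : Finset X) : ℝ := if D.N.s < T.card then Phi D.lab D.N.κ T else 0

/-- everything known at one level -/
structure Dat.Good (D : Dat X ι) : Prop where
  nb : D.N.Good
  am : Am D.N D.F D.lab D.Z D.W D.Kt D.η D.Om D.Cl D.Gh
  pot : Pot D.N D.lab D.Z
  st : St D.N D.F D.Z D.Y D.W D.Kt D.Om D.Gh D.t D.e D.Wb
  cs : Cs D.lab D.Y D.c
  pin : ∀ x l, ∀ y ∈ D.c x l, x ∈ D.Y
  rp : ∀ x l, (D.c x l).Nonempty → D.rp x l ∈ D.c x l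
  typ : ∀ x l, ∀ y ∈ D.c x l, |D.F.K0 D.Y x y| ≤ D.t
  dia : ∀ x l, ∀ y ∈ D.c x l, ∀ z ∈ D.c x l, D.F.DB x y z ≤ 100 * D.t
  junk : D.N.L ^ 15 * D.sj (fun _ _ => 1) ≤ (D.Y.card : ℝ) ^ 2

/-! ### tools -/

variable {D : Dat X ι}

theorem Dat.E_eq (D : Dat X ι) (n : ℕ) (f : Finset X → ℝ) (T : Finset X) :
    D.E n f T = D.F.E (D.N.Wt D.t) D.Wb n f T := rfl

theorem Dat.ob_eq (D : Dat X ι) (x y : X) : ob D.v D.F.S x y = D.F.OB x y / D.N.Wt D.t := by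
  unfold ob Dat.v Fam.OB
  rw [D.F.sum_v]
  simp only [true_and]

theorem Dat.prv_eq (D : Dat X ι) (a b : ℝ) (c : Finset X) (x y : X) (T : Finset X) :
    prv D.v D.F.S a b c x y T = (D.F.W fun i => D.F.b i ∧ x ∈ D.F.S i ∧ y ∈ D.F.S i ∧
      ((T ∩ D.F.S i).card : ℝ) ≤ a ∧ ((c ∩ D.F.S i).card : ℝ) < b) / D.N.Wt D.t := by
  unfold prv Dat.v
  rw [D.F.sum_v]
  simp only [true_and]

theorem Dat.rate_eq (D : Dat X ι) (a : ℝ) (x y : X) (T : Finset X) :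
    rate D.v D.F.S a x y T = (D.F.W fun i => D.F.b i ∧ x ∈ D.F.S i ∧ y ∈ D.F.S i ∧
      ((T ∩ D.F.S i).card : ℝ) ≤ a) / D.N.Wt D.t := by
  unfold rate Dat.v
  rw [D.F.sum_v]
  simp only [true_and]

theorem Dat.los_eq (D : Dat X ι) (c : Finset X) (x y : X) :
    los D.v D.F.S c x y = (∑ z ∈ c, D.F.DB x y z) / D.N.Wt D.t := by
  classical
  have e : ∀ z, D.F.DB x y z / D.N.Wt D.t =
      ∑ i, if x ∈ D.F.S i ∧ y ∈ D.F.S i ∧ z ∉ D.F.S i then D.v i else 0 := fun z => by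
    unfold Dat.v Fam.DB
    rw [D.F.sum_v]
    simp only [true_and]
  rw [sum_div, sum_congr rfl fun z _ => e z, sum_comm]
  refine sum_congr rfl fun i _ => ?_
  by_cases h : x ∈ D.F.S i ∧ y ∈ D.F.S i
  · simp only [h, and_self, true_and, if_true]
    rw [← sum_filter, sum_const, nsmul_eq_mul, mul_comm, sdiff_eq_filter]
  · rw [if_neg h]
    exact (sum_eq_zero fun z _ => if_neg fun k => h ⟨k.1, k.2.1⟩).symm

/-- the weight of the cells through three points -/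
theorem Dat.tri_eq (D : Dat X ι) (x y z : X) :
    (∑ i, if x ∈ D.F.S i ∧ y ∈ D.F.S i ∧ z ∈ D.F.S i then D.v i else 0) =
      ob D.v D.F.S x y - D.F.DB x y z / D.N.Wt D.t := by
  rw [D.ob_eq, ← sub_div]
  unfold Dat.v Fam.OB Fam.DB
  rw [D.F.sum_v, D.F.W_split (fun i => D.F.b i ∧ x ∈ D.F.S i ∧ y ∈ D.F.S i) fun i => z ∈ D.F.S i]
  simp only [true_and, and_assoc, add_sub_cancel_right]

namespace Dat.Good

variable (h : D.Good)
include h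

theorem w0_nonneg : 0 ≤ D.w0 := h.st.w0_nonneg h.nb h.am

theorem v_nonneg (i : ι) : 0 ≤ D.v i := h.st.v_nonneg h.nb h.am _ i

theorem t_pos : 0 < D.t := h.st.t_pos h.nb h.am

theorem Wt_pos : 0 < D.N.Wt D.t := h.st.Wt_pos h.nb h.am

theorem pow_hi {x y : X} (hx : x ∈ D.Y) (hy : y ∈ D.Y) (e : x ≠ y) (hK : -D.t ≤ D.F.K0 D.Y x y)
    {n : ℕ} (hn : n ≤ 2 ^ 32 * D.N.j) : max (D.w0 + ob D.v D.F.S x y) 1 ^ n ≤ 101 / 100 := by
  rw [D.ob_eq]; exact h.st.pow_hi h.nb h.am hx hy e hK hn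

theorem pow_lo {x y : X} (hx : x ∈ D.Y) (hy : y ∈ D.Y) (e : x ≠ y) (hK : D.F.K0 D.Y x y ≤ D.t)
    {n : ℕ} (hn : n ≤ 2 ^ 32 * D.N.j) : 99 / 100 ≤ min (D.w0 + ob D.v D.F.S x y) 1 ^ n := by
  rw [D.ob_eq]; exact h.st.pow_lo h.nb h.am hx hy e hK hn

theorem los_le {x : X} {l : ℝ} {y : X} (hy : y ∈ D.c x l) :
    los D.v D.F.S (D.c x l) x y ≤ 100 * D.N.u ^ 400 / D.N.j * (D.c x l).card := by
  rw [D.los_eq, ← h.st.unit h.nb h.am, div_mul_eq_mul_div]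
  refine div_le_div_of_nonneg_right ?_ h.Wt_pos.le
  have := sum_le_card_nsmul _ _ _ fun z hz => h.dia x l y hy z hz
  rwa [nsmul_eq_mul, mul_comm] at this

theorem cl_sub (x : X) (l : ℝ) : D.c x l ⊆ D.Y.erase x := fun y hy =>
  mem_erase.2 ⟨(h.cs.sub x l y hy).2.1, (h.cs.sub x l y hy).1⟩

theorem cl_eq {x : X} {l : ℝ} {y : X} (hy : y ∈ D.c x l) : D.cl x y = D.c x l := by
  unfold Dat.cl; rw [(h.cs.sub x l y hy).2.2]

/-- sizes -/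
theorem half : (D.Z.card : ℝ) ≤ 2 * D.Y.card := by
  have h1 := h.st.big
  have h2 := h.nb.u_le
  have h3 : (0 : ℝ) ≤ D.Z.card := Nat.cast_nonneg _
  nlinarith

theorem Y_big : D.N.s ^ 2 ≤ 4 * D.Y.card := by linarith [h.half, h.pot.big]

end Dat.Good

end defs

/-! ### rows -/

/-- the clusters exist -/
def CL1 : Prop :=
  ∀ (N : Nb) (X ι : Type) [DecidableEq X] [Fintype ι] (F : Fam X ι) (lab : X → X → ℝ)
    (Z Y : Finset X) (W Kt η : ℝ) (Om Cl : X → X → ℝ) (Gh : X → ℝ) (t e Wb : ℝ), N.Good →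
    Am N F lab Z W Kt η Om Cl Gh → Pot N lab Z → St N F Z Y W Kt Om Gh t e Wb →
    ∃ c rp, Dat.Good ⟨N, F, lab, Z, Y, W, Kt, η, Om, Cl, Gh, t, e, Wb, c, rp⟩

/-- the mass of the junk, and the total mass in large sets -/
def JK : Prop :=
  ∀ (X ι : Type) [DecidableEq X] [Fintype ι] (D : Dat X ι) (a : ℝ) (n : ℕ), D.Good → D.N.s ≤ a →
    n ≤ 2 ^ 32 * D.N.j →
    (a < D.Y.card → D.N.L ^ 14 * D.sj (fun x y => D.Es a n (lo a x y)) ≤ (D.Y.card : ℝ) ^ 2) ∧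
    D.N.L ^ 14 * D.sj (fun x y => D.E n (hi a x y) D.Y) ≤ (D.Y.card : ℝ) ^ 2 ∧
    ∑ x ∈ D.Y, ∑ y ∈ D.Y.erase x, D.E n (hi a x y) D.Y ≤ 2 * (D.Y.card : ℝ) ^ 2

/-- the mirror estimate for one set -/
def MIRP : Prop :=
  ∀ (X ι : Type) [DecidableEq X] [Fintype ι] (D : Dat X ι) (a : ℝ) (n : ℕ) (T : Finset X), D.Good →
    1 ≤ a → n + 1 ≤ 2 ^ 31 * D.N.j → T ⊆ D.Y →
    (n + 1) * D.sg (fun x y =>
        mirc D.v D.F.S a (a * (D.N.q : ℝ) ^ 60) (D.N.u ^ 40) (D.cl x y) x y T) ≤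
      128 * D.N.u ^ 40 * D.sg (fun x y => D.E (n + 2) (lo (a * (D.N.q : ℝ) ^ 60) x y) T) +
      D.N.u * D.N.L ^ 5 / D.W *
        (D.sg (fun x y => (2 * D.η + D.Cl x y) * if x ∈ T ∧ y ∈ T then 1 else 0) +
          4 * D.W / (D.N.q : ℝ) ^ 9 *
            ∑ x ∈ D.Y, ∑ y ∈ D.Y.erase x, hi (a * (D.N.q : ℝ) ^ 60) x y T)

/-- the mirror estimate -/
def MIRS : Prop :=
  ∀ (X ι : Type) [DecidableEq X] [Fintype ι] (D : Dat X ι) (a : ℝ) (n : ℕ), D.Good →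
    D.N.s ≤ a → n + 1 ≤ 2 ^ 31 * D.N.j →
    (n + 1) * D.sg (fun x y => D.E n
        (mirc D.v D.F.S a (a * (D.N.q : ℝ) ^ 60) (D.N.u ^ 40) (D.cl x y) x y) D.Y) ≤
      128 * D.N.u ^ 40 * D.Fg (2 * (n + 1)) (a * (D.N.q : ℝ) ^ 60) +
        D.N.u ^ 800 * (D.Y.card : ℝ) ^ 2

/-- the mass of the dead edges -/
def DEADS : Prop :=
  ∀ (X ι : Type) [DecidableEq X] [Fintype ι] (D : Dat X ι) (a : ℝ) (n : ℕ), D.Good →
    D.N.s ≤ a → 1 ≤ n → n ≤ 2 ^ 31 * D.N.j →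
    D.sg (fun x y => D.E n (dead a (D.N.u ^ 40 * (D.cl x y).card) (D.cl x y) x y) D.Y) ≤
      400 * D.N.u ^ 40 * D.Fg (2 * n) (a * (D.N.q : ℝ) ^ 60) + D.N.u ^ 700 * (D.Y.card : ℝ) ^ 2

/-- the lower bound for the potential at the stop -/
def STPS : Prop :=
  ∀ (X ι : Type) [DecidableEq X] [Fintype ι] (D : Dat X ι) (a : ℝ) (n : ℕ), D.Good →
    D.N.s ≤ a → a ≤ D.N.s ^ 2 → a < D.Y.card → n ≤ 2 ^ 32 * D.N.j →
    D.N.u * D.Fg n a ≤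
      2 * D.sg (fun x y => D.E n (dead a (D.N.u ^ 40 * (D.cl x y).card) (D.cl x y) x y) D.Y) +
        D.N.u ^ 700 * (D.Y.card : ℝ) ^ 2

/-- the number of steps of the lossless step -/
structure Nl {X ι : Type} (D : Dat X ι) (n : ℕ) : Prop where
  lo : 4 * D.N.L * D.N.Wt D.t ≤ n * (D.N.u ^ 10 * D.W)
  hi : 200 * D.N.L ^ 2 * (n * D.t) ≤ D.N.Wt D.t
  le : n ≤ D.N.j

/-- the lossless step, lower bound -/
def LOS1 : Prop :=
  ∀ (X ι : Type) [DecidableEq X] [Fintype ι] (D : Dat X ι) (n : ℕ), D.Good → Nl D n →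
    tiny D.N D.F D.Y D.t D.Wb ≤ D.N.u ^ 600 * (D.Y.card : ℝ) ^ 2 →
    (1 + 100 * D.N.u) * D.N.ψ * ((1 - 5 * D.N.u) * (D.Z.card : ℝ) ^ 2) ≤ D.E n D.ph D.Y

/-- the lossless step, upper bound -/
def LOS2 : Prop :=
  ∀ (X ι : Type) [DecidableEq X] [Fintype ι] (D : Dat X ι) (n : ℕ), D.Good → Nl D n →
    D.E n D.ph D.Y ≤ (1 + 10 * D.N.u) * D.N.ψ * (D.Z.card : ℝ) ^ 2

end Pool.Agent.MP_ddf486_co.KV
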