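import Pool.Agent.MP_ddf486_co.KV.SpecA
import Pool.Agent.MP_ddf486_co.KV.Idn

/-! Project KV, row STEPG: the blocks give the step. -/

set_option autoImplicit false

namespace Pool.Agent.MP_ddf486_co.KV

open Finset Pool.Agent.MP_6c3157_co.PD Pool.Agent.MP_6c3157_co.PQ

theorem stepg (hP : PHI) (hC : CRS) (hM : MOD) (h0 : ST0) (hL : LEV) (hJ : JMP) (hO : LOS) :
    STEP := by
  intro N X PL K _ _ _ s A η Q hN hQ
  obtain ⟨Z, hZ, hc, R, L, G, rq, cn, W, ε, hF⟩ := hC N X PL K s A η Q hN hQ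
  obtain ⟨ι, _, F, Kt, Om, Cl, Gh, hA⟩ := hM N X PL K s A η Z R L G rq cn W ε hN hF
  have u0 := hN.u_pos
  have u1 := hN.u_le_one
  have u2 : N.u ≤ 1 / 100 := hN.u_le.trans (by norm_num)
  have zq : Z.card ≤ Q.card := card_le_card hZ
  have z0 : (0 : ℝ) ≤ Z.card := Nat.cast_nonneg _
  have q0 : (0 : ℝ) ≤ Q.card := Nat.cast_nonneg _
  have hpot : Pot N s.lab Z := by
    refine ⟨hF.big, (Nat.cast_le.2 zq).trans hQ.small, ?_, fun S hS => hQ.pl S (hS.trans hZ),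
      fun S hS h => hQ.ih S (hS.trans hZ) (h.trans (Nat.pow_le_pow_left zq _))⟩
    refine (((hP X s.lab N.κ Q hN.one_le_ka).1 Z hZ).trans hQ.bad).trans ?_
    have h1 : ((1 - 3 * N.u) * Q.card) ^ 2 ≤ (Z.card : ℝ) ^ 2 :=
      pow_le_pow_left₀ (mul_nonneg (by linarith) q0) hc 2
    have h2 : 1 ≤ (1 + 8 * N.u) * (1 - 3 * N.u) ^ 2 := by nlinarith [mul_pos u0 u0]
    have h3 : (Q.card : ℝ) ^ 2 ≤ (1 + 8 * N.u) * (Z.card : ℝ) ^ 2 :=
      calc (Q.card : ℝ) ^ 2 ≤ (1 + 8 * N.u) * (1 - 3 * N.u) ^ 2 * (Q.card : ℝ) ^ 2 :=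
            le_mul_of_one_le_left (sq_nonneg _) h2
        _ = (1 + 8 * N.u) * ((1 - 3 * N.u) * Q.card) ^ 2 := by ring
        _ ≤ _ := mul_le_mul_of_nonneg_left h1 (by linarith)
    calc N.ψ * (Q.card : ℝ) ^ 2 ≤ N.ψ * ((1 + 8 * N.u) * (Z.card : ℝ) ^ 2) :=
          mul_le_mul_of_nonneg_left h3 hN.psi_pos.le
      _ = _ := by ring
  have W0 : 0 < W := lt_of_lt_of_le one_pos hA.W_lo
  have L0 : 0 ≤ N.L := by
    by_contra k
    have := mul_neg_of_pos_of_neg (pow_pos u0 100000) (not_le.1 k)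
    linarith [hN.uL]
  have key : ∀ i ≤ N.I, ∃ Y Wb, (Z.card : ℝ) ≤ Y.card + i * (N.u ^ 50 * Z.card) ∧
      St N F Z Y W Kt Om Gh (N.u ^ (8 * i) * (100 * W)) (N.es i) Wb := by
    intro i
    induction i with
    | zero =>
      intro _
      refine ⟨Z, 0, by simp, ?_⟩
      rw [hN.es_zero, mul_zero, pow_zero, one_mul]
      exact h0 N X ι F s.lab Z W Kt η Om Cl Gh hN hA hpot
    | succ i ih =>
      intro hi
      obtain ⟨Y, Wb, hY, hS⟩ := ih (by omega)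
      have i1 : ((i : ℝ) + 1) * N.u ≤ 1 :=
        (mul_le_mul_of_nonneg_right (by exact_mod_cast hi) u0.le).trans hN.I_u
      have i2 : ((i : ℝ) + 1) * N.u ^ 50 ≤ N.u := by
        have a1 : N.u ^ 49 ≤ N.u := pow_le_of_le_one u0.le u1 (by norm_num)
        calc ((i : ℝ) + 1) * N.u ^ 50 = ((i : ℝ) + 1) * N.u * N.u ^ 49 := by ring
          _ ≤ 1 * N.u ^ 49 := mul_le_mul_of_nonneg_right i1 (by positivity)
          _ ≤ N.u := by rw [one_mul]; exact a1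
      have e : N.u ^ 8 * (N.u ^ (8 * i) * (100 * W)) = N.u ^ (8 * (i + 1)) * (100 * W) := by ring
      obtain ⟨Y', _, hY', Wb', hS'⟩ := hL N X ι F s.lab Z Y W Kt η Om Cl Gh _ _ (N.es (i + 1)) Wb
        hN hA hpot hS (by nlinarith [mul_le_mul_of_nonneg_right i2 z0]) (by
          rw [e]
          have a1 : N.u ^ (8 * N.I) ≤ N.u ^ (8 * (i + 1)) :=
            pow_le_pow_of_le_one u0.le u1 (by omega)
          have a2 : 1 ≤ 100 * N.u ^ (8 * (i + 1)) * N.L ^ 5 := hN.I_lo.trans (by gcongr)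
          calc W = 1 * W := (one_mul _).symm
            _ ≤ 100 * N.u ^ (8 * (i + 1)) * N.L ^ 5 * W := mul_le_mul_of_nonneg_right a2 W0.le
            _ = _ := by ring)
        (hN.es_pos i hi) (hN.es_k _ hi) (hN.es_q i hi) (hN.es_step i hi)
        (hJ N X ι F s.lab Z Y W Kt η Om Cl Gh _ _ Wb hN hA hpot hS)
      rw [e] at hS'
      exact ⟨Y', Wb', by push_cast; linarith, hS'⟩
  obtain ⟨Y, Wb, _, hS⟩ := key N.I le_rfl
  refine hO N X ι F s.lab Z Y W Kt η Om Cl Gh _ _ Wb hN hA hpot hS ?_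
    (hJ N X ι F s.lab Z Y W Kt η Om Cl Gh _ _ Wb hN hA hpot hS)
  calc N.u ^ (8 * N.I) * (100 * W) * N.L ^ 4 = 100 * N.u ^ (8 * N.I) * N.L ^ 4 * W := by ring
    _ ≤ 1 * W := mul_le_mul_of_nonneg_right hN.I_hi W0.le
    _ = W := one_mul _

end Pool.Agent.MP_ddf486_co.KV
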